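import Pool.Agent.FOI.AStmts1

/-!
# Module A2: `n_l` acts on `V_(l+2)` as an involution; signs on the further lines (5.2)
-/

namespace FOI

open Lib_helper64.FO FO2 FOK
open scoped RealInnerProductSpace Nat

noncomputable section

namespace A2

theorem line {d : ℕ} {D : Submodule ℝ (E d)} (h : Module.finrank ℝ D = 1) {e : E d} (he : e ∈ D)
    (h0 : e ≠ 0) {w : E d} (hw : w ∈ D) : ∃ c : ℝ, w = c • e := by
  have h1 : (⟨e, he⟩ : D) ≠ 0 := by
    intro hh
    exact h0 (congrArg Subtype.val hh)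
  obtain ⟨c, hc⟩ := (finrank_eq_one_iff_of_nonzero' (⟨e, he⟩ : D) h1).1 h ⟨w, hw⟩
  exact ⟨c, (congrArg Subtype.val hc).symm⟩

variable {d k : ℕ} {Γ : Type} [Group Γ] {X : Type} [MulAction Γ X] (G : AGeo d k Γ X)

theorem V_succ (g : Γ) (i : ℕ) : G.V g (i + 1) = G.V g i ⊔ G.D g i := by
  have h := Submodule.sup_orthogonal_inf_of_hasOrthogonalProjection (G.V_mono g (Nat.le_succ i))
  rw [inf_comm] at h
  exact h.symm

theorem V_succ_le_W {g : Γ} {i : ℕ} (hD : Module.finrank ℝ (G.D g i) = 1)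
    (hW : ¬ G.W g i ≤ G.V g i) : G.V g (i + 1) ≤ G.V g i ⊔ G.W g i := by
  rw [V_succ]
  refine sup_le le_sup_left ?_
  obtain ⟨w, hw, hwV⟩ := Set.not_subset.1 hW
  have h1 : w ∈ G.V g i ⊔ G.D g i := by
    rw [← V_succ]
    exact G.W_le_V g i hw
  obtain ⟨v, hv, e, he, hve⟩ := Submodule.mem_sup.1 h1
  have he0 : e ≠ 0 := by
    rintro rfl
    rw [add_zero] at hve
    exact hwV (hve ▸ hv)
  intro x hx
  obtain ⟨c, rfl⟩ := line hD he he0 hx
  refine Submodule.smul_mem _ c ?_
  have h2 : e = w - v := by rw [← hve]; abel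
  rw [h2]
  exact Submodule.sub_mem _ (Submodule.mem_sup_right hw) (Submodule.mem_sup_left hv)

theorem W_mono (g : Γ) {i j : ℕ} (h : i ≤ j) : G.W g i ≤ G.W g j := by
  unfold AGeo.W
  refine Submodule.span_mono ?_
  rintro _ ⟨a, ha, rfl⟩
  exact ⟨a, G.dn_mono h ha, rfl⟩

/-- `A` preserves `V_i` for `i ≠ l + 1` -/
theorem pres {q l : ℕ} {n : Γ} (hn : IsN G q l n) (g : Γ) {i : ℕ} (h1 : i ≤ q + 1)
    (h2 : i ≠ l + 1) (v : E d) : G.R g n v ∈ G.V g i ↔ v ∈ G.V g i := by
  have h := hn.V g i v h1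
  rwa [G.V_frame_ρ h2] at h

theorem sq_W {q l : ℕ} {n : Γ} (hn : IsN G q l n) (h1l : 1 ≤ l) (hl : l < q) (g : Γ) {w : E d}
    (hw : w ∈ G.W g q) : G.R g n (G.R g n w) = w := by
  unfold AGeo.W at hw
  induction hw using Submodule.span_induction with
  | mem x hx =>
    obtain ⟨a, ha, rfl⟩ := hx
    rw [G.R_Fi g h1l hn.mem, G.R_Fi g h1l hn.mem, hn.act a ha]
    have h1 := hn.act (G.ρ l * a) (mul_mem (G.ρ_mem_dn hl) ha)
    rw [mul_smul] at h1
    rw [h1, ← mul_smul (G.ρ l) (G.ρ l), G.sq, one_smul]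
  | zero => rw [map_zero, map_zero]
  | add x y _ _ hx hy => rw [map_add, map_add, hx, hy]
  | smul c x _ hx => rw [map_smul, map_smul, hx]

end A2

open A2

theorem t_A2 : M_A2 := by
  intro hstep _ d k Γ _ X _ G u q hwin l hul hlq n hn g
  have hqk := hwin.hq
  have h1l : 1 ≤ l := hwin.hu.trans hul
  obtain ⟨st1, st2, st3, -⟩ := hstep d k Γ X G g
  have hnN : n ∈ G.N := G.Ni_le_N l hn.mem
  refine ⟨?_, ?_, ?_⟩
  · intro v hv
    refine ⟨(pres G hn g (by omega) (by omega) v).2 hv, ?_⟩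
    have h1 : G.V g (l + 2) ≤ G.V g l ⊔ G.W g q := by
      have e1 := V_succ_le_W G (hwin.line g (l + 1) (by omega) (by omega))
        (st1 (l + 1) (by omega) (hwin.nz _ (by omega) (by omega)))
      have e2 := V_succ_le_W G (hwin.line g l hul (by omega)) (st1 l h1l (hwin.nz _ h1l (by omega)))
      refine e1.trans (sup_le (e2.trans (sup_le_sup_left (W_mono G g (by omega)) _)) ?_)
      exact (W_mono G g (by omega)).trans le_sup_right
    obtain ⟨a, ha, w, hw, rfl⟩ := Submodule.mem_sup.1 (h1 hv)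
    have h2 : G.R g n a = a := ha n hn.mem
    rw [map_add, map_add, h2, h2, sq_W G hn h1l hlq g hw]
  · intro e he he0 hcon
    have h3 : ∀ v ∈ G.V g (l + 1), G.R g n v ∈ G.V g (l + 1) := by
      intro v hv
      rw [V_succ] at hv
      obtain ⟨a, ha, b, hb, rfl⟩ := Submodule.mem_sup.1 hv
      obtain ⟨c, rfl⟩ := line (hwin.line g l hul (by omega)) he he0 hb
      rw [map_add, map_smul, ha n hn.mem]
      exact Submodule.add_mem _ (G.V_mono g (Nat.le_succ l) ha)
        (Submodule.smul_mem _ c (G.D_le_V g l hcon))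
    have h4 : G.V (g * G.ρ l) (l + 1) ≤ G.V g (l + 1) := by
      intro w hw
      have h5 : G.R g n ((G.R g n).symm w) = w := (G.R g n).apply_symm_apply w
      rw [← h5] at hw ⊢
      exact h3 _ ((hn.V g (l + 1) _ (by omega)).1 hw)
    have h6 : (G.V g (l + 1)).map (G.R g n).toLinearEquiv.toLinearMap
        = G.V (g * G.ρ l) (l + 1) := by
      ext w
      rw [Submodule.mem_map]
      constructor
      · rintro ⟨v, hv, rfl⟩
        exact (hn.V g (l + 1) v (by omega)).2 hv
      · intro hw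
        refine ⟨(G.R g n).symm w, ?_, (G.R g n).apply_symm_apply w⟩
        refine (hn.V g (l + 1) _ (by omega)).1 ?_
        rw [(G.R g n).apply_symm_apply w]
        exact hw
    have h7 : Module.finrank ℝ (G.V (g * G.ρ l) (l + 1)) = Module.finrank ℝ (G.V g (l + 1)) := by
      rw [← h6]
      exact LinearEquiv.finrank_map_eq (G.R g n).toLinearEquiv (G.V g (l + 1))
    exact st3 l h1l (hwin.nz _ (by omega) (by omega)) (Submodule.eq_of_le_of_finrank_eq h4 h7)
  · intro i h1 h2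
    have hline := hwin.line g i (by omega) h2
    have hpres : ∀ e ∈ G.D g i, G.R g n e ∈ G.D g i := by
      intro e he
      refine Submodule.mem_inf.2 ⟨(pres G hn g (by omega) (by omega) e).2 (G.D_le_V g i he), ?_⟩
      rw [AGeo.U, Submodule.mem_orthogonal]
      intro v hv
      have h5 : G.R g n ((G.R g n).symm v) = v := (G.R g n).apply_symm_apply v
      rw [← h5] at hv ⊢
      rw [LinearIsometryEquiv.inner_map_map]
      have h6 := (pres G hn g (by omega) (by omega) _).1 hv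
      have h7 := G.D_le_U g i he
      rw [AGeo.U, Submodule.mem_orthogonal] at h7
      exact h7 _ h6
    have hnt : ∃ e ∈ G.D g i, e ≠ 0 := by
      have h3 : G.D g i ≠ ⊥ := by
        intro hb
        rw [hb, finrank_bot] at hline
        omega
      exact Submodule.exists_mem_ne_zero_of_ne_bot h3
    obtain ⟨e, he, he0⟩ := hnt
    obtain ⟨δ, hδ⟩ := line hline he he0 (hpres e he)
    have hδ1 : δ = 1 ∨ δ = -1 := by
      have h8 : ‖G.R g n e‖ = ‖e‖ := (G.R g n).norm_map e
      rw [hδ, norm_smul, Real.norm_eq_abs] at h8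
      have h9 : 0 < ‖e‖ := norm_pos_iff.2 he0
      have h10 : |δ| = 1 := by
        have : |δ| * ‖e‖ = 1 * ‖e‖ := by rw [h8, one_mul]
        exact mul_right_cancel₀ h9.ne' this
      exact eq_or_eq_neg_of_abs_eq h10
    refine ⟨δ, hδ1, fun w hw => ?_⟩
    obtain ⟨c, rfl⟩ := line hline he he0 hw
    rw [map_smul, hδ, smul_comm]

end

end FOI
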