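import Pool.Agent.FOI.DStmts

/-!
# FOI, module ACI: the datum in the case (irr)
-/

set_option autoImplicit false

namespace FOI

open Lib_helper64.FO FO2 FOK
open scoped RealInnerProductSpace

namespace ACI

lemma sg_mul (s t : ℤˣ) : (sg (s * t) : ℝ) = sg s * sg t := by
  simp [sg]

lemma sg_mul_self (s : ℤˣ) : (sg s : ℝ) * sg s = 1 := by
  rcases Int.units_eq_one_or s with rfl | rfl <;> simp [sg]

variable {d k : ℕ} {Γ : Type} [Group Γ] {X : Type} [MulAction Γ X]

/-- the sign of a word -/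
def sw (s0 : ℤˣ) (w : List (Fin d)) : ℤˣ := (w.map fun j : Fin d => sgI s0 j).prod

/-- the element of a word -/
def rw' (G : AGeo d k Γ X) (w : List (Fin d)) : Γ := (w.map fun j : Fin d => G.ρ j).prod

lemma sw_append (s0 : ℤˣ) (v w : List (Fin d)) : sw s0 (v ++ w) = sw s0 v * sw s0 w := by
  simp [sw]

lemma sw_cons (s0 : ℤˣ) (j : Fin d) (w : List (Fin d)) :
    sw s0 (j :: w) = sgI s0 j * sw s0 w := by
  simp [sw]

lemma rw_append (G : AGeo d k Γ X) (v w : List (Fin d)) : rw' G (v ++ w) = rw' G v * rw' G w := by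
  simp [rw']

lemma rw_cons (G : AGeo d k Γ X) (j : Fin d) (w : List (Fin d)) :
    rw' G (j :: w) = G.ρ j * rw' G w := by
  simp [rw']

end ACI

open ACI in
theorem t_ACI : M_ACI := by
  intro hNER d k Γ _ X _ G l hT c y0 t s0 ε g q hW
  have hr : ∀ w : List (Fin d), sg ((w.map fun j : Fin d => sgI s0 j).prod) *
      q ((w.map fun j : Fin d => G.ρ j).prod) = sg (sw s0 w) * q (rw' G w) := fun w => rfl
  obtain ⟨r, hrr⟩ : ∃ r : List (Fin d) → ℝ, ∀ w, r w = sg (sw s0 w) * q (rw' G w) :=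
    ⟨_, fun w => rfl⟩
  have h1 : ∀ (v w : List (Fin d)) (j : Fin d), r (v ++ j :: j :: w) = r (v ++ w) := by
    intro v w j
    have e1 : sw s0 (v ++ j :: j :: w) = sw s0 (v ++ w) := by
      rw [sw_append, sw_cons, sw_cons, sw_append, ← mul_assoc (sgI s0 j), Int.units_mul_self,
        one_mul]
    have e2 : rw' G (v ++ j :: j :: w) = rw' G (v ++ w) := by
      rw [rw_append, rw_cons, rw_cons, rw_append, ← mul_assoc (G.ρ j), G.sq, one_mul]
    rw [hrr, hrr, e1, e2]
  have h2 : ∀ (v w : List (Fin d)) (i j : Fin d), i.val + 2 ≤ j.val →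
      r (v ++ i :: j :: w) = r (v ++ j :: i :: w) := by
    intro v w i j hij
    have e1 : sw s0 (v ++ i :: j :: w) = sw s0 (v ++ j :: i :: w) := by
      rw [sw_append, sw_cons, sw_cons, sw_append, sw_cons, sw_cons, ← mul_assoc (sgI s0 i),
        mul_comm (sgI s0 i), mul_assoc]
    have e2 : rw' G (v ++ i :: j :: w) = rw' G (v ++ j :: i :: w) := by
      rw [rw_append, rw_cons, rw_cons, rw_append, rw_cons, rw_cons, ← mul_assoc (G.ρ i),
        G.comm i j hij, mul_assoc]
    rw [hrr, hrr, e1, e2]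
  have h3 : ∀ (v : List (Fin d)) (j : Fin d), 1 ≤ j.val → r (v ++ [j]) = r v := by
    intro v j hj
    have e1 : sw s0 (v ++ [j]) = sw s0 v * sgI s0 j := by
      rw [sw_append]
      simp [sw]
    have e2 : rw' G (v ++ [j]) = rw' G v * G.ρ j := by
      rw [rw_append]
      simp [rw']
    rw [hrr, hrr, e1, e2, hW.qj _ j hj j.2, sg_mul]
    have := sg_mul_self (sgI s0 j)
    calc sg (sw s0 v) * sg (sgI s0 j) * (sg (sgI s0 j) * q (rw' G v))
        = (sg (sgI s0 j) * sg (sgI s0 j)) * (sg (sw s0 v) * q (rw' G v)) := by ring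
      _ = sg (sw s0 v) * q (rw' G v) := by rw [this, one_mul]
  obtain ⟨A, M, hM1, hM2, hM3⟩ := hNER d r h1 h2 h3
  -- elements of `N` inside a word
  have hN : ∀ n ∈ G.N, ∀ γ δ : Γ, q (γ * n * δ) = q (γ * δ) := by
    intro n hn γ δ
    have e : γ * n * δ = (γ * n * γ⁻¹) * (γ * δ) := by group
    rw [e, hW.qN _ (G.conj_mem_N γ hn)]
  refine ⟨c, y0, t, s0, ε, g, A, M, ?_, ?_, hW.eps, hW.mod, hW.tne, hW.tsp, hW.tg, ?_⟩
  · -- finiteness
    have hH : G.H.FiniteIndex := ⟨G.idx0⟩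
    have hfi : G.N.FiniteIndex := by
      unfold AGeo.N
      infer_instance
    have hfin : Finite (Γ ⧸ G.N) := inferInstance
    apply hM3 (ℤˣ × (Γ ⧸ G.N)) (fun w => (sw s0 w, ((rw' G w : Γ) : Γ ⧸ G.N)))
    intro w w' hc v
    rw [Prod.mk.injEq] at hc
    obtain ⟨hc1, hc2⟩ := hc
    rw [QuotientGroup.eq] at hc2
    have e : rw' G (v ++ w') = rw' G (v ++ w) * ((rw' G w)⁻¹ * rw' G w') := by
      rw [rw_append, rw_append]
      group
    have e3 : q (rw' G (v ++ w')) = q (rw' G (v ++ w)) := by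
      rw [e]
      have := hN _ hc2 (rw' G (v ++ w)) 1
      rw [mul_one, mul_one] at this
      exact this
    rw [hrr, hrr, e3, sw_append, sw_append, hc1]
  · intro j hj
    apply hM2
    intro v w
    have hl := hT.lk
    have hl5 := hT.l5
    have hjN : G.ρ j ∈ G.N := hT.up (G.ρ_mem_up (by omega))
    have e1 : sw s0 (v ++ j :: w) = sw s0 (v ++ w) := by
      have : sgI s0 j = 1 := by
        rw [sgI, if_neg (by omega), if_neg (by omega)]
      rw [sw_append, sw_cons, this, one_mul, sw_append]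
    have e2 : q (rw' G (v ++ j :: w)) = q (rw' G (v ++ w)) := by
      rw [rw_append, rw_cons, rw_append, ← mul_assoc]
      exact hN _ hjN _ _
    rw [hrr, hrr, e1, e2]
  · intro w
    rw [hW.f w, hM1 w, hrr, hr]

end FOI
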