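import Pool.Agent.FOI.DStmts

/-!
# Assembly of the algebraic part (FOI, block IV)

Paper: `Pool/Agent/FOI/PAPER.md`, section III and IV.1.
-/

namespace FOI

open Lib_helper64.FO FO2 FOK
open scoped RealInnerProductSpace Nat

noncomputable section

namespace ACON

/-- a subspace of dimension `n` of `E d` is the range of a linear isometry from `E n` -/
theorem exists_iota {d n : ℕ} (I : Submodule ℝ (E d)) (h : Module.finrank ℝ I = n) :
    ∃ ι : E n →ₗᵢ[ℝ] E d, ∀ v, v ∈ I ↔ ∃ z, ι z = v := by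
  have e : E n ≃ₗᵢ[ℝ] I := ((stdOrthonormalBasis ℝ I).reindex (finCongr h)).repr.symm
  refine ⟨I.subtypeₗᵢ.comp e.toLinearIsometry, fun v => ⟨fun hv => ?_, ?_⟩⟩
  · refine ⟨e.symm ⟨v, hv⟩, ?_⟩
    simp
  · rintro ⟨z, rfl⟩
    simp

/-- a linear isometry of `E d` that preserves the range of `ι` comes from a linear isometry of
`E n` -/
theorem exists_gg {d n : ℕ} (ι : E n →ₗᵢ[ℝ] E d) (A : E d ≃ₗᵢ[ℝ] E d)
    (h : ∀ z, ∃ z', ι z' = A (ι z)) : ∃ g : E n ≃ₗᵢ[ℝ] E n, ∀ z, ι (g z) = A (ι z) := by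
  choose p hp using h
  have inj := ι.injective
  let L : E n →ₗ[ℝ] E n :=
    { toFun := p
      map_add' := fun x y => inj (by rw [hp, map_add, map_add, map_add, hp, hp])
      map_smul' := fun c x => inj (by
        rw [hp, map_smul, map_smul, map_smul, hp, RingHom.id_apply]) }
  let L' : E n →ₗᵢ[ℝ] E n :=
    { toLinearMap := L
      norm_map' := fun x => by
        change ‖p x‖ = ‖x‖
        rw [← ι.norm_map, hp, A.norm_map, ι.norm_map] }
  refine ⟨L'.toLinearIsometryEquiv rfl, fun z => ?_⟩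
  change ι (p z) = A (ι z)
  exact hp z

end ACON

theorem t_ACON : M_ACON := by
  intro hATOP hEXT hAFX hIRR1 hIRR2 hIRR3 hIRR4 hLI1 hLI2 hLCLS hWRI hACI hRED1 hRED2 hRED3 hRED4
    hRED5 hLR1 hLR2 hWRR hACR d k Γ _ X _ _ G hd hH
  obtain ⟨l, hl⟩ := hATOP d k Γ X G hd
  obtain ⟨RI, hRI⟩ := hEXT d k Γ X G l hl
  obtain ⟨b0, hb0⟩ := hAFX d k Γ X G l hl RI hRI
  by_cases h : Sp G 0 l = ⊤
  · left
    obtain ⟨b, s, z0, e0, hD⟩ := hIRR1 d k Γ X G l hl h hH RI hRI b0 hb0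
    have hG := hIRR2 d k Γ X G l hl h RI hRI b0 hb0 b s z0 e0 hD
    have hT := hIRR3 d k Γ X G l hl h RI hRI b s z0 e0 hD hG
    obtain ⟨h4, h5⟩ := hIRR4 d k Γ X G l hl h RI hRI b s z0 e0 hD hG hT
    have hB := hLI1 d k Γ X G l hl h RI hRI b s z0 e0 hD hG h4 h5
    have hX := hLI2 d k Γ X G l hl h RI hRI
    have hC := hLCLS d l 2 (Ph G 1 0 l) (fun i => G.V 1 i) (ggI G RI)
      { toLinB := hB, toLinX := hX }
    obtain ⟨c, y0, t, s0, ε, g, q, hW⟩ :=
      hWRI d k Γ X G l hl h RI hRI b s z0 e0 hD hG hT h4 h5 hC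
    exact hACI d k Γ X G l hl c y0 t s0 ε g q hW
  · right
    obtain ⟨e0, hE⟩ := hRED1 d k Γ X G l hl h
    have hV := hRED2 d k Γ X G l hl e0 hE
    obtain ⟨b, hB⟩ := hRED3 d k Γ X G l hl e0 hE hV RI hRI b0 hb0
    have hG := hRED4 d k Γ X G l hl e0 hE hV RI hRI b0 hb0 b hB
    have h5 := hRED5 d k Γ X G l hl e0 hE hV RI hRI b hB hG
    have hld := hl.ld
    obtain ⟨n, hn⟩ : ∃ n, n + 1 = d := ⟨d - 1, by omega⟩
    have hfin : Module.finrank ℝ (Sp G 0 l) = n := by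
      have hne : e0 ≠ 0 := by
        intro e
        have := hE.norm
        rw [e, norm_zero] at this
        exact zero_ne_one this
      have h1 := Submodule.finrank_add_finrank_orthogonal (ℝ ∙ e0)
      rw [finrank_span_singleton hne, finrank_euclideanSpace_fin, ← hE.I] at h1
      omega
    obtain ⟨ι, hι⟩ := ACON.exists_iota (Sp G 0 l) hfin
    have hgg : ∀ j : ℕ, ∃ g : E n ≃ₗᵢ[ℝ] E n, ∀ z, ι (g z) = RI (G.ρ (j + 1)) (ι z) := by
      intro j
      refine ACON.exists_gg ι _ fun z => ?_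
      exact (hι _).1 (hRI.pres _ _ ((hι _).2 ⟨z, rfl⟩))
    choose gg hgg' using hgg
    have hB1 := hLR1 d k Γ X G l hl e0 hE hV RI hRI b hB hG h5 n hn ι hι gg hgg'
    have hX1 := hLR2 d k Γ X G l hl e0 hE hV RI hRI n hn ι hι gg hgg'
    have hC := hLCLS n (l - 1) 1 {z | ι z ∈ Ph G 1 0 l}
      (fun i => (G.V 1 (i + 1)).comap ι.toLinearMap) gg { toLinB := hB1, toLinX := hX1 }
    obtain ⟨c, y0, t, b', s1, g, q, hW⟩ :=
      hWRR d k Γ X G l hl e0 hE hV RI hRI b hB hG n hn ι hι gg hgg' hC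
    exact hACR d k Γ X G l hl c e0 y0 t b' s1 g q hW

end

end FOI
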