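import Pool.Agent.FOI.DStmts

/-!
# IV.1: the datum in the case (red)

`S_NER` for `r w = q (ρ_w)`.
-/

namespace FOI

open Lib_helper64.FO FO2 FOK
open scoped RealInnerProductSpace Nat

noncomputable section

theorem t_ACR : M_ACR := by
  intro hN d k Γ _ X _ G l hT c e0 y0 t b s1 g q hW
  have hl : l ≤ 48 * k ^ 5 + 3 := hT.lk
  have key := hN d (fun w => q ((w.map fun j : Fin d => G.ρ j).prod)) (by
      intro v w j
      have h : ((v ++ j :: j :: w).map fun j : Fin d => G.ρ j).prod =
          ((v ++ w).map fun j : Fin d => G.ρ j).prod := by
        rw [List.map_append, List.map_append, List.map_cons, List.map_cons, List.prod_append,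
          List.prod_append, List.prod_cons, List.prod_cons, ← mul_assoc (G.ρ j) (G.ρ j), G.sq,
          one_mul]
      exact congrArg q h) (by
      intro v w i j hij
      have h : ((v ++ i :: j :: w).map fun j : Fin d => G.ρ j).prod =
          ((v ++ j :: i :: w).map fun j : Fin d => G.ρ j).prod := by
        rw [List.map_append, List.map_append, List.map_cons, List.map_cons, List.map_cons,
          List.map_cons, List.prod_append, List.prod_append, List.prod_cons, List.prod_cons,
          List.prod_cons, List.prod_cons, ← mul_assoc (G.ρ i) (G.ρ j), G.comm i j hij, mul_assoc]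
      exact congrArg q h) (by
      intro v j hj
      have h : ((v ++ [j]).map fun j : Fin d => G.ρ j).prod =
          (v.map fun j : Fin d => G.ρ j).prod * G.ρ j := by
        rw [List.map_append, List.prod_append, List.map_cons, List.map_nil, List.prod_cons,
          List.prod_nil, mul_one]
      exact (congrArg q h).trans (hW.qj _ _ hj))
  obtain ⟨A, M, h1, h2, -⟩ := key
  refine ⟨c, e0, y0, t, b, s1, g, A, M, ?_, hW.norm, hW.mod, hW.cro, hW.tne, hW.tsp, ?_⟩
  · intro j hj
    apply h2 j
    intro v w
    have h : ((v ++ j :: w).map fun j : Fin d => G.ρ j).prod =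
        (v.map fun j : Fin d => G.ρ j).prod * G.ρ j * (w.map fun j : Fin d => G.ρ j).prod := by
      rw [List.map_append, List.prod_append, List.map_cons, List.prod_cons, mul_assoc]
    have h' : ((v ++ w).map fun j : Fin d => G.ρ j).prod =
        (v.map fun j : Fin d => G.ρ j).prod * (w.map fun j : Fin d => G.ρ j).prod := by
      rw [List.map_append, List.prod_append]
    exact (congrArg q h).trans ((hW.ql _ _ _ (by omega)).trans (congrArg q h').symm)
  · intro w
    rw [h1 w]
    exact hW.f w

end

end FOI
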