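import Pool.Agent.FOI.BStmts

/-!
# II.2, first part: the affine isometries `aff G n`, `n ∈ N`
-/

namespace FOI

open Lib_helper64.FO FO2 FOK
open scoped RealInnerProductSpace Nat

namespace AFF

variable {d k : ℕ} {Γ : Type} [Group Γ] {X : Type} [MulAction Γ X] (G : AGeo d k Γ X)

theorem aff_f {n : Γ} (hn : n ∈ G.N) (y : X) : aff G n (G.f y) = G.f (n • y) := by
  have h := G.R_F0 1 hn y
  simp only [AGeo.F, one_smul] at h
  rw [sub_sub_sub_cancel_right] at h
  rw [aff, h, sub_add_cancel]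

theorem aff_sub (n : Γ) (z w : E d) : aff G n z - aff G n w = G.R 1 n (z - w) := by
  rw [aff, aff, add_sub_add_right_eq_sub, ← map_sub, sub_sub_sub_cancel_right]

theorem aff_mul {m n : Γ} (hm : m ∈ G.N) (hn : n ∈ G.N) (z : E d) :
    aff G (m * n) z = aff G m (aff G n z) := by
  have h1 : aff G (m * n) z = aff G (m * n) (G.f G.x0) + G.R 1 (m * n) (z - G.f G.x0) := by
    rw [← aff_sub]
    abel
  have h2 : aff G m (aff G n z) = aff G m (aff G n (G.f G.x0)) +
      G.R 1 m (G.R 1 n (z - G.f G.x0)) := by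
    rw [← aff_sub G n, ← aff_sub G m]
    abel
  rw [h1, h2, G.R_mul_apply 1 hm hn, aff_f G (mul_mem hm hn), aff_f G hn, aff_f G hm, mul_smul]

theorem aff_one (z : E d) : aff G 1 z = z := by
  rw [aff, G.R_one, one_smul]
  exact sub_add_cancel z _

theorem aff_inj {m n : Γ} (hm : m ∈ G.N) (hn : n ∈ G.N)
    (h : ∀ y, aff G m (G.f y) = aff G n (G.f y)) : m = n := by
  have h1 : ∀ y : X, (n⁻¹ * m) • y = y := by
    intro y
    have h2 := h y
    rw [aff_f G hm, aff_f G hn] at h2
    rw [mul_smul, G.inj h2, inv_smul_smul]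
  have h3 := G.eq_one_of_fix h1
  exact (inv_mul_eq_one.1 h3).symm

end AFF

theorem t_AFF : S_AFF := by
  intro d k Γ _ X _ G
  exact ⟨fun n hn y => AFF.aff_f G hn y, fun m hm n hn z => AFF.aff_mul G hm hn z,
    fun n z w => AFF.aff_sub G n z w, fun z => AFF.aff_one G z,
    fun m hm n hn h => AFF.aff_inj G hm hn h⟩

end FOI
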