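import Pool.Agent.FOI.AStmts1

/-!
# CNT: the number of values of a function which is constant on the cosets `H g`
-/

namespace FOI

open FOK

theorem t_CNT : S_CNT := by
  intro Γ _ H α s hH hs
  have hF : Finite (Γ ⧸ H) := Nat.finite_of_card_ne_zero hH
  let f : Γ ⧸ H → α := Quotient.lift (fun g : Γ => s g⁻¹) (by
    intro a b hab
    have h1 : a⁻¹ * b ∈ H := QuotientGroup.leftRel_apply.1 hab
    have h2 : b⁻¹ * a ∈ H := by
      have := H.inv_mem h1
      rwa [mul_inv_rev, inv_inv] at this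
    change s a⁻¹ = s b⁻¹
    have h3 := hs _ h2 a⁻¹
    rw [mul_assoc, mul_inv_cancel, mul_one] at h3
    exact h3.symm)
  have hr : Set.range s = Set.range f := by
    ext x
    constructor
    · rintro ⟨g, rfl⟩
      refine ⟨(QuotientGroup.mk g⁻¹ : Γ ⧸ H), ?_⟩
      change s (g⁻¹)⁻¹ = s g
      rw [inv_inv]
    · rintro ⟨q, rfl⟩
      obtain ⟨g, rfl⟩ := QuotientGroup.mk_surjective q
      exact ⟨g⁻¹, rfl⟩
  rw [hr]
  refine ⟨Set.finite_range f, ?_⟩
  rw [← Set.image_univ]
  refine (Set.ncard_image_le Set.finite_univ).trans ?_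
  rw [Set.ncard_univ]
  rfl

end FOI
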