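import Pool.Agent.FOI.AStmts1

/-!
# 3.3, the dichotomy: the lines `D_i`, `p < i ≤ q`, are all in `Y_p` or all orthogonal to `Y_p`
-/

namespace FOI

open Lib_helper64.FO FO2 FOK
open scoped RealInnerProductSpace Nat

noncomputable section

namespace DICH

variable {d k : ℕ} {Γ : Type} [Group Γ] {X : Type} [MulAction Γ X] (G : AGeo d k Γ X)

theorem T_symm {h : Γ} (v : E d) : G.T h ((G.T h).symm v) = v := (G.T h).apply_symm_apply v

theorem U_left {h : Γ} (hh : h ∈ G.H) (g : Γ) (i : ℕ) {v : E d} :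
    G.T h v ∈ G.U (h * g) i ↔ v ∈ G.U g i := by
  rw [AGeo.U, AGeo.U, Submodule.mem_orthogonal, Submodule.mem_orthogonal]
  constructor
  · intro H u hu
    have := H (G.T h u) ((G.V_left hh g i).2 hu)
    rwa [LinearIsometryEquiv.inner_map_map] at this
  · intro H u hu
    have h1 : (G.T h).symm u ∈ G.V g i := by
      rw [← G.V_left hh g i, T_symm]
      exact hu
    have := H _ h1
    rwa [← LinearIsometryEquiv.inner_map_map (G.T h), T_symm] at this

theorem D_left {h : Γ} (hh : h ∈ G.H) (g : Γ) (i : ℕ) {v : E d} :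
    G.T h v ∈ G.D (h * g) i ↔ v ∈ G.D g i := by
  rw [AGeo.D, AGeo.D, Submodule.mem_inf, Submodule.mem_inf, G.V_left hh, U_left G hh]

theorem Y_left' {h : Γ} (hh : h ∈ G.H) (g : Γ) (p : ℕ) {v : E d} (hv : v ∈ G.Y g p) :
    G.T h v ∈ G.Y (h * g) p := by
  rw [AGeo.Y] at hv
  induction hv using Submodule.span_induction with
  | mem x hx =>
    obtain ⟨n, hn, e, he, rfl⟩ := hx
    rw [← G.R_left hh g hn.1]
    exact Submodule.subset_span ⟨n, hn, G.T h e, (D_left G hh g p).2 he, rfl⟩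
  | zero => rw [map_zero]; exact zero_mem _
  | add x y _ _ hx hy => rw [map_add]; exact add_mem hx hy
  | smul c x _ hx => rw [map_smul]; exact Submodule.smul_mem _ c hx

theorem DY_left' {h : Γ} (hh : h ∈ G.H) (g : Γ) (p i : ℕ) (H : G.D g i ≤ G.Y g p) :
    G.D (h * g) i ≤ G.Y (h * g) p := by
  intro w hw
  have h1 : (G.T h).symm w ∈ G.D g i := by
    rw [← D_left G hh g i, T_symm]
    exact hw
  have h2 := Y_left' G hh g p (H h1)
  rwa [T_symm] at h2

theorem DY_left {h : Γ} (hh : h ∈ G.H) (g : Γ) (p i : ℕ) :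
    G.D (h * g) i ≤ G.Y (h * g) p ↔ G.D g i ≤ G.Y g p := by
  constructor
  · intro H
    have := DY_left' G (inv_mem hh) (h * g) p i H
    rwa [inv_mul_cancel_left] at this
  · exact DY_left' G hh g p i

open Classical in
/-- the word of the frame `g` -/
def wd (p L : ℕ) (g : Γ) : Fin L → Bool := fun x => decide (G.D g (p + 1 + x.val) ≤ G.Y g p)

open Classical in
theorem wd_iff (p L : ℕ) (g : Γ) (x : Fin L) :
    wd G p L g x = true ↔ G.D g (p + 1 + x.val) ≤ G.Y g p := by
  unfold wd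
  rw [decide_eq_true_iff]

theorem wd_left {h : Γ} (hh : h ∈ G.H) (p L : ℕ) (g : Γ) : wd G p L (h * g) = wd G p L g := by
  funext x
  unfold wd
  rw [decide_eq_decide]
  exact DY_left G hh g p _

theorem wd_swap (hSWAP : S_SWAP) {u q : ℕ} (hW : Win G u q) {p : ℕ} (hp : u ≤ p) (g : Γ) (i : ℕ)
    (h : i + 1 < q - p) :
    (fun x => wd G p (q - p) g (Equiv.swap (⟨i, by omega⟩ : Fin (q - p)) ⟨i + 1, h⟩ x)) =
      wd G p (q - p) (g * G.ρ (p + 1 + i)) := by
  obtain ⟨h1, h2, h3⟩ := hSWAP d k Γ X G u q hW g p (p + 1 + i) hp (by omega) (by omega)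
  funext x
  unfold wd
  rw [decide_eq_decide, h1]
  by_cases ha : x = ⟨i, by omega⟩
  · rw [ha, Equiv.swap_apply_left]
    exact h2.symm
  · by_cases hb : x = ⟨i + 1, h⟩
    · rw [hb, Equiv.swap_apply_right]
      exact h3.symm
    · rw [Equiv.swap_apply_of_ne_of_ne ha hb]
      have ha' : x.val ≠ i := fun hc => ha (Fin.ext hc)
      have hb' : x.val ≠ i + 1 := fun hc => hb (Fin.ext hc)
      rw [G.D_frame_ρ (i := p + 1 + x.val) (j := p + 1 + i) (by omega) (by omega)]

end DICH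

theorem t_DICH : M_DICH := by
  intro hCNT hSW hY hPL hSWAP d k Γ _ X _ G u q hW p hp hpq g
  have hO := hCNT Γ G.H (Fin (q - p) → Bool) (DICH.wd G p (q - p)) G.idx0
    (fun h hh g => DICH.wd_left G hh p (q - p) g)
  have hconst : ∀ a b, DICH.wd G p (q - p) g a = DICH.wd G p (q - p) g b := by
    by_contra hcon
    push Not at hcon
    have h1 := hSW (q - p) (Set.range (DICH.wd G p (q - p))) (by
      rintro _ ⟨g', rfl⟩ i hi
      rw [DICH.wd_swap G hSWAP hW hp g' i hi]
      exact ⟨_, rfl⟩) ⟨_, ⟨g, rfl⟩, hcon⟩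
    have h2 := hO.2
    have h3 := G.idx
    omega
  have hdich := (hY d k Γ X G u q hW g p hp (by omega)).2.1 (G.Y g p)
    (fun n hn w hw => G.R_mem_Y hn hw)
  have hval : ∀ (i : ℕ) (h1 : p < i) (h2 : i ≤ q),
      DICH.wd G p (q - p) g ⟨i - (p + 1), by omega⟩ = true ↔ G.D g i ≤ G.Y g p := by
    intro i h1 h2
    rw [DICH.wd_iff]
    have e : p + 1 + (i - (p + 1)) = i := by omega
    simp only [e]
  have h0 : 0 < q - p := by omega
  by_cases hc : DICH.wd G p (q - p) g ⟨0, h0⟩ = true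
  · left
    intro i h1 h2
    rw [← hval i h1 h2, hconst _ ⟨0, h0⟩]
    exact hc
  · right
    intro i h1 h2
    rcases hdich i h1.le h2 with h | h
    · exfalso
      apply hc
      rw [← (hval i h1 h2), hconst _ ⟨0, h0⟩] at h
      exact h
    · exact h

end

end FOI
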