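import Pool.Agent.FOI.AStmts1

/-!
# Module PL: the plane `D_i + D_{i+1}` and the decomposition of `V_j`
-/

namespace FOI

open Lib_helper64.FO FO2 FOK
open scoped RealInnerProductSpace

namespace PL

variable {d k : ℕ} {Γ : Type} [Group Γ] {X : Type} [MulAction Γ X] (G : AGeo d k Γ X)

/-- `V_{i+1} = V_i + D_i` -/
theorem V_succ (g : Γ) (i : ℕ) : G.V g i ⊔ G.D g i = G.V g (i + 1) := by
  have h := Submodule.sup_orthogonal_inf_of_hasOrthogonalProjection (G.V_mono g (Nat.le_succ i))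
  rw [AGeo.D, AGeo.U, inf_comm]
  exact h

/-- `U_{i+1} = U_i ∩ D_i^⊥` -/
theorem U_succ (g : Γ) (i : ℕ) : G.U g (i + 1) = G.U g i ⊓ (G.D g i)ᗮ := by
  rw [AGeo.U, AGeo.U, Submodule.inf_orthogonal, V_succ]

/-- `D_{i+1}` in the plane -/
theorem D_succ (g : Γ) (i : ℕ) : G.D g (i + 1) = (G.V g (i + 2) ⊓ G.U g i) ⊓ (G.D g i)ᗮ := by
  rw [inf_assoc, ← U_succ]
  rfl

theorem D_perp (g : Γ) {i j : ℕ} (h : i < j) : G.D g i ≤ (G.D g j)ᗮ := by
  have h1 : G.D g i ≤ G.V g j := (G.D_le_V g i).trans (G.V_mono g h)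
  have h2 : G.D g j ≤ (G.V g j)ᗮ := G.D_le_U g j
  exact h1.trans ((Submodule.le_orthogonal_orthogonal _).trans (Submodule.orthogonal_le h2))

theorem D_perp' (g : Γ) {i j : ℕ} (h : i < j) : G.D g j ≤ (G.D g i)ᗮ := by
  have h1 : G.D g i ≤ G.V g j := (G.D_le_V g i).trans (G.V_mono g h)
  exact (G.D_le_U g j).trans (Submodule.orthogonal_le h1)

/-- `D_i` in the plane -/
theorem D_eq (g : Γ) (i : ℕ) : G.D g i = (G.V g (i + 2) ⊓ G.U g i) ⊓ (G.D g (i + 1))ᗮ := by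
  apply le_antisymm
  · refine le_inf (le_inf ((G.D_le_V g i).trans (G.V_mono g (Nat.le_succ _))) (G.D_le_U g i))
      (D_perp G g (Nat.lt_succ_self i))
  · rintro x ⟨⟨h1, h2⟩, h3⟩
    refine ⟨?_, h2⟩
    rw [SetLike.mem_coe, ← V_succ G g (i + 1), Submodule.mem_sup] at h1
    obtain ⟨a, ha, b, hb, rfl⟩ := h1
    have h4 : (⟪b, a + b⟫ : ℝ) = 0 := (Submodule.mem_orthogonal _ _).1 h3 b hb
    have h5 : (⟪b, a⟫ : ℝ) = 0 := by
      have h6 := (Submodule.mem_orthogonal _ _).1 (G.D_le_U g (i + 1) hb) a ha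
      rwa [real_inner_comm] at h6
    rw [inner_add_right, h5, zero_add, inner_self_eq_zero] at h4
    rw [h4, add_zero]
    exact ha

/-- the plane -/
theorem plane (g : Γ) (i : ℕ) : G.D g i ⊔ G.D g (i + 1) = G.V g (i + 2) ⊓ G.U g i := by
  have h1 : G.D g i ≤ G.V g (i + 2) ⊓ G.U g i :=
    le_inf ((G.D_le_V g i).trans (G.V_mono g (Nat.le_succ _))) (G.D_le_U g i)
  have h := Submodule.sup_orthogonal_inf_of_hasOrthogonalProjection h1
  rw [D_succ G g i, inf_comm _ (G.D g i)ᗮ]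
  exact h

/-- the plane does not change -/
theorem plane_frame (g : Γ) (i : ℕ) :
    G.V (g * G.ρ i) (i + 2) ⊓ G.U (g * G.ρ i) i = G.V g (i + 2) ⊓ G.U g i := by
  rw [G.V_frame_ρ (by omega), G.U_frame_ρ (by omega)]

theorem V_sum (g : Γ) (i j : ℕ) (h : i ≤ j) :
    G.V g j = G.V g i ⊔ ⨆ m ∈ Finset.Ico i j, G.D g m := by
  induction j, h using Nat.le_induction with
  | base => simp
  | succ j h ih =>
    have e : Finset.Ico i (j + 1) = insert j (Finset.Ico i j) := by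
      ext x
      simp only [Finset.mem_Ico, Finset.mem_insert]
      omega
    rw [e, Finset.iSup_insert, sup_left_comm, ← ih, sup_comm, V_succ]

end PL

open PL in
theorem t_PL : M_PL := by
  intro hS d k Γ _ X _ G u q hw g
  refine ⟨fun i hi hiq => ⟨?_, ?_, ?_⟩, fun i j _ hij _ => ⟨D_perp G g hij, D_perp' G g hij⟩,
    fun i j _ hij _ => V_sum G g i j hij⟩
  · rw [plane, plane, plane_frame]
  · intro h
    have hu := hw.hu
    have hnz : G.NZ (i + 1) := hw.nz (i + 1) (by omega) (by have := hw.hq; omega)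
    apply (hS d k Γ X G g).2.2.1 i (by omega) hnz
    rw [← V_succ, ← V_succ, h, G.V_frame_ρ (by omega)]
  · intro h
    rw [D_succ G (g * G.ρ i) i, h, plane_frame, ← D_eq]

end FOI
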