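import Pool.Agent.FOI.AStmts2

/-!
# 7.4, case (II): the lines `D_l` are axes and `κ_l` exchanges them
-/

namespace FOI

open Lib_helper64.FO FO2 FOK
open scoped RealInnerProductSpace Nat

noncomputable section

theorem EX.step {d k : ℕ} {Γ : Type} [Group Γ] {X : Type} [MulAction Γ X] (G : AGeo d k Γ X)
    {g : Γ} {l : ℕ} {κ : E d ≃ₗᵢ[ℝ] E d} {ε : ℝ} (hκ : IsK G g l κ ε)
    (hV : G.V g (l + 1) = G.V g l ⊔ G.D g l) (h1 : Module.finrank ℝ (G.D g l) = 1)
    {e : E d} (he : e ∈ G.D g l) (hne : e ≠ 0) (hperp : ⟪e, κ e⟫ = 0) :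
    κ e ∈ G.D g (l + 1) := by
  refine Submodule.mem_inf.2 ⟨?_, ?_⟩
  · exact hκ.pres e (G.V_mono g (by omega) (G.D_le_V g l he))
  · rw [AGeo.U, Submodule.mem_orthogonal]
    intro v hv
    rw [hV] at hv
    obtain ⟨a, ha, b, hb, rfl⟩ := Submodule.mem_sup.1 hv
    have hb' : ∃ c : ℝ, b = c • e := by
      have h2 := (finrank_eq_one_iff_of_nonzero' (⟨e, he⟩ : G.D g l) (by
        intro h; exact hne (congrArg Subtype.val h))).1 h1 ⟨b, hb⟩
      obtain ⟨c, hc⟩ := h2
      exact ⟨c, (congrArg Subtype.val hc).symm⟩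
    obtain ⟨c, rfl⟩ := hb'
    rw [inner_add_left, real_inner_smul_left, hperp, mul_zero, add_zero]
    have h3 : ⟪κ a, κ e⟫ = ⟪a, e⟫ := LinearIsometryEquiv.inner_map_map κ a e
    rw [hκ.fix a ha] at h3
    rw [h3]
    exact (Submodule.mem_orthogonal _ _).1 (G.D_le_U g l he) a ha

theorem t_EX : M_EX := by
  intro hPL d k Γ _ X _ G u q j1 j2 hS g e n w hn hwY hw hP he hew
  classical
  -- the isometries
  have hkap := hS.kap g
  let K : ℕ → (E d ≃ₗᵢ[ℝ] E d) := fun l =>
    if h : j1 ≤ l ∧ l + 2 ≤ j2 then Classical.choose (hkap l h.1 h.2) else LinearIsometryEquiv.refl ℝ _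
  have hK : ∀ l, j1 ≤ l → l + 2 ≤ j2 → ∃ ε, IsKap G q j1 g l (K l) ε := by
    intro l h1 h2
    have h3 : K l = Classical.choose (hkap l h1 h2) := by
      simp only [K]
      rw [dif_pos ⟨h1, h2⟩]
    rw [h3]
    exact Classical.choose_spec (hkap l h1 h2)
  let e' : ℕ → E d := fun m => Nat.rec e (fun m v => K (j1 + m) v) m
  have e'0 : e' 0 = e := rfl
  have e's : ∀ m, e' (m + 1) = K (j1 + m) (e' m) := fun m => rfl
  have key : ∀ m, j1 + m + 1 ≤ j2 → e' m ∈ G.D g (j1 + m) ∧ ∃ i, e' m = w i ∨ e' m = - w i := by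
    intro m
    induction m with
    | zero => intro _; exact ⟨by rw [e'0]; exact he, hew⟩
    | succ m ih =>
      intro hm
      obtain ⟨h1, i, hi⟩ := ih (by omega)
      obtain ⟨ε, hε⟩ := hK (j1 + m) (by omega) (by omega)
      have hjq := hS.hjq
      have huj := hS.huj
      have hmem : K (j1 + m) ∈ GG G q j1 j2 g :=
        Subgroup.subset_closure (Or.inl (Or.inr ⟨j1 + m, by omega, by omega, ε, hε⟩))
      obtain ⟨π, s, hπ⟩ := hP _ hmem
      have hnorm : ‖e' m‖ = 1 := by
        rcases hi with h | h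
        · rw [h]; exact hw.1 i
        · rw [h, norm_neg]; exact hw.1 i
      have hne : e' m ≠ 0 := by
        intro h
        rw [h, norm_zero] at hnorm
        exact zero_ne_one hnorm
      have hsg : ∀ t : ℤˣ, ∀ v : E d, sg t • v = v ∨ sg t • v = -v := by
        intro t v
        rcases Int.units_eq_one_or t with rfl | rfl
        · left; simp [sg]
        · right; simp [sg]
      have hax : K (j1 + m) (e' m) = w (π i) ∨ K (j1 + m) (e' m) = - w (π i) := by
        rcases hi with h | h
        · rw [h, hπ i]; exact hsg _ _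
        · rw [h, map_neg, hπ i]
          rcases hsg (s i) (w (π i)) with h' | h'
          · right; rw [h']
          · left; rw [h', neg_neg]
      have hmv := hε.1.moves (e' m) h1 hne
      have hii : π i ≠ i := by
        intro hii
        apply hmv
        rw [hii] at hax
        rcases hi with h | h <;> rcases hax with h' | h'
        · rw [h', ← h]; exact h1
        · rw [h', ← h]; exact neg_mem h1
        · have : w i = - e' m := by rw [h, neg_neg]
          rw [h', this]; exact neg_mem h1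
        · rw [h', ← h]; exact h1
      have hww : ⟪w i, w (π i)⟫ = 0 := hw.2 (Ne.symm hii)
      have hperp : ⟪e' m, K (j1 + m) (e' m)⟫ = 0 := by
        rcases hi with h | h <;> rcases hax with h' | h' <;> rw [h', h] <;>
          simp [hww]
      have hV : G.V g (j1 + m + 1) = G.V g (j1 + m) ⊔ G.D g (j1 + m) := by
        have := (hPL d k Γ X G u q hS.win g).2.2 (j1 + m) (j1 + m + 1) (by omega) (by omega)
          (by omega)
        rw [this, Nat.Ico_succ_singleton, Finset.iSup_singleton]
      have hline := hS.win.line g (j1 + m) (by omega) (by omega)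
      refine ⟨?_, π i, ?_⟩
      · rw [e's]
        exact EX.step G hε.1 hV hline h1 hne hperp
      · rw [e's]; exact hax
  refine ⟨fun l => e' (l - j1), ?_, ?_⟩
  · intro l h1 h2
    obtain ⟨m, rfl⟩ := Nat.exists_eq_add_of_le h1
    have h3 : j1 + m - j1 = m := by omega
    simp only [h3]
    obtain ⟨h4, i, hi⟩ := key m h2
    refine ⟨h4, ?_⟩
    rcases hi with h | h
    · rw [h]; exact hw.1 i
    · rw [h, norm_neg]; exact hw.1 i
  · intro l h1 h2
    obtain ⟨m, rfl⟩ := Nat.exists_eq_add_of_le h1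
    obtain ⟨ε, hε⟩ := hK (j1 + m) h1 h2
    have h3 : j1 + m - j1 = m := by omega
    have h4 : j1 + m + 1 - j1 = m + 1 := by omega
    refine ⟨K (j1 + m), ε, hε, ?_, ?_⟩
    · simp only [h3, h4, e's]
    · simp only [h3, h4, e's]
      exact hε.1.inv _

end

end FOI
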