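import Pool.Agent.FOI.AStmts1

/-!
# FOI: the index of the core
-/

namespace FOI

open Lib_helper64.FO FO2 FOK
open scoped Nat

theorem t_IDX : S_IDX := by
  intro d k Γ _ X _ G
  have hf : Finite (Γ ⧸ G.H) := Nat.finite_of_card_ne_zero G.idx0
  have h1 : G.N = (MulAction.toPermHom Γ (Γ ⧸ G.H)).ker := G.H.normalCore_eq_ker
  have h3 : Nat.card (Γ ⧸ G.H) = G.H.index := rfl
  have h4 : G.N.index = Nat.card (MulAction.toPermHom Γ (Γ ⧸ G.H)).range := by
    rw [h1, Subgroup.index_ker]
  have h0 : 0 < G.N.index := by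
    rw [h4]
    exact Nat.card_pos
  have h2 : G.N.index ≤ (G.H.index) ! := by
    rw [h4, ← h3, ← Nat.card_perm]
    exact Nat.card_le_card_of_injective Subtype.val Subtype.val_injective
  have h5 := G.idx
  exact ⟨h0, h2.trans (Nat.factorial_le (by omega)), h2.trans (Nat.factorial_le (by omega))⟩

end FOI
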