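import Pool.Agent.FOI.AStmts1
import Pool.Agent.FOK.IRR

/-!
# Module IRR (finite or infinite polytopes): all lines of a long window are in `Y_p` (3.3, conclusion)
-/

namespace FOI

open Lib_helper64.FO FO2 FOK
open scoped RealInnerProductSpace Nat

theorem t_IRR : M_IRR := by
  intro hORD hDICH hISO d k Γ _ X _ G u q hW g p hup hpq i hpi hiq
  have hu := hW.hu
  rcases Nat.eq_or_lt_of_le hpi with rfl | hlt
  · exact G.D_le_Y g p
  · rcases hDICH d k Γ X G u q hW p hup (by omega) g with h | h
    · exact h i hlt hiq
    · exfalso
      have h1 := hISO d k Γ X G u q hW p hup (by omega) g h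
      have hq := hW.hq
      have h2 := hORD d k Γ X G p q (by omega) (by omega) (by omega)
      have e : q - p + 1 = q + 1 - p := by omega
      rw [e] at h2
      have h3 : k ! * 2 ^ (q + 1 - p) < (q + 1 - p)! := FOK.IRR.arith' (by omega)
      omega

end FOI
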