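import Pool.Agent.FOI.AStmts1

/-!
# Module ISO1: an isolated frame stays isolated under `ρ p` (paper, 3.3 (i))
-/

namespace FOI

open Lib_helper64.FO FO2 FOK
open scoped RealInnerProductSpace

namespace ISO1

theorem line_eq {d : ℕ} {A B : Submodule ℝ (E d)} (hA : Module.finrank ℝ A = 1)
    (hB : Module.finrank ℝ B = 1) {e : E d} (h1 : e ∈ A) (h2 : e ∈ B) (h0 : e ≠ 0) : A = B := by
  have hs : Module.finrank ℝ (Submodule.span ℝ {e}) = 1 := finrank_span_singleton h0
  have e1 : Submodule.span ℝ {e} = A := Submodule.eq_of_le_of_finrank_eq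
    (by rw [Submodule.span_singleton_le_iff_mem]; exact h1) (by rw [hs, hA])
  have e2 : Submodule.span ℝ {e} = B := Submodule.eq_of_le_of_finrank_eq
    (by rw [Submodule.span_singleton_le_iff_mem]; exact h2) (by rw [hs, hB])
  rw [← e1, e2]

theorem exists_ne {d : ℕ} {A : Submodule ℝ (E d)} (hA : Module.finrank ℝ A = 1) :
    ∃ e ∈ A, e ≠ 0 := by
  have h : A ≠ ⊥ := by
    intro h
    rw [h, finrank_bot] at hA
    omega
  exact (Submodule.ne_bot_iff A).1 h

variable {d k : ℕ} {Γ : Type} [Group Γ] {X : Type} [MulAction Γ X]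

/-- `Y g p` is invariant in every frame `g γ`, `γ ∈ up p`. -/
theorem inv_frame (G : AGeo d k Γ X) {g γ : Γ} {p : ℕ} (hγ : γ ∈ G.up p) {n : Γ}
    (hn : n ∈ G.Ni p) {w : E d} (hw : w ∈ G.Y g p) : G.R (g * γ) n w ∈ G.Y g p := by
  rw [G.R_mul_right]
  exact G.R_mem_Y (G.conj_up hγ hn) hw

/-- comparison of the modules of two frames -/
theorem Y_le (G : AGeo d k Γ X) {g γ : Γ} {p : ℕ} (hγ : γ ∈ G.up p)
    (h : G.D g p ≤ G.Y (g * γ) p) : G.Y g p ≤ G.Y (g * γ) p := by
  conv_lhs => rw [AGeo.Y]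
  rw [Submodule.span_le]
  rintro _ ⟨n, hn, e, he, rfl⟩
  have h1 : γ⁻¹ * n * γ ∈ G.Ni p := by
    have := G.conj_up ((G.up p).inv_mem hγ) hn
    rwa [inv_inv] at this
  have h2 : G.R g n = G.R (g * γ) (γ⁻¹ * n * γ) := by
    rw [G.R_mul_right]
    congr 1
    group
  rw [SetLike.mem_coe, h2]
  exact G.R_mem_Y h1 (h he)

end ISO1

open ISO1

theorem t_ISO1 : M_ISO1 := by
  intro hY hPL hDICH hKEY d k Γ _ X _ G u q hW p hup hpq g hI
  have hpl := (hPL d k Γ X G u q hW g).1 p hup (by omega)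
  obtain ⟨hsup, hne, hex⟩ := hpl
  have hl0 : Module.finrank ℝ (G.D g p) = 1 := hW.line g p hup (by omega)
  have hl1 : Module.finrank ℝ (G.D g (p + 1)) = 1 := hW.line g (p + 1) (by omega) (by omega)
  have hl2 : Module.finrank ℝ (G.D (g * G.ρ p) p) = 1 := hW.line _ p hup (by omega)
  have hρ : G.ρ p ∈ G.up p := G.ρ_mem_up le_rfl
  have hperp : G.D g (p + 1) ≤ (G.Y g p)ᗮ := hI (p + 1) (by omega) (by omega)
  -- the first claim
  have h1 : G.D (g * G.ρ p) p = G.D g (p + 1) := by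
    obtain ⟨ε, hε, hε0⟩ := exists_ne hl2
    have hmem : ε ∈ G.D g p ⊔ G.D g (p + 1) := by
      rw [← hsup]
      exact Submodule.mem_sup_left hε
    obtain ⟨e, he, e', he', hsum⟩ := Submodule.mem_sup.1 hmem
    by_cases he0 : e = 0
    · have : ε ∈ G.D g (p + 1) := by
        rw [← hsum, he0, zero_add]
        exact he'
      exact line_eq hl2 hl1 hε this hε0
    · exfalso
      have h2 : e' = 0 := by
        refine hKEY d k Γ X G u q hW p p hup (by omega) le_rfl g (g * G.ρ p) g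
          ⟨G.ρ p, hρ, rfl⟩ ⟨1, one_mem _, (mul_one g).symm⟩ e e' 1 1 he he0 he' one_ne_zero
          one_ne_zero ?_ he (hperp he')
        rw [one_smul, one_smul, hsum]
        exact hε
      have : ε ∈ G.D g p := by
        rw [← hsum, h2, add_zero]
        exact he
      exact hne (line_eq hl2 hl0 hε this hε0)
  refine ⟨h1, ?_⟩
  have h2 : G.D (g * G.ρ p) (p + 1) = G.D g p := hex h1
  rcases hDICH d k Γ X G u q hW p hup hpq (g * G.ρ p) with h | h
  · exfalso
    have h3 : G.D g p ≤ G.Y (g * G.ρ p) p := by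
      rw [← h2]
      exact h (p + 1) (by omega) (by omega)
    have h4 : G.Y g p ≤ G.Y (g * G.ρ p) p := Y_le G hρ h3
    rcases (hY d k Γ X G u q hW (g * G.ρ p) p hup (by omega)).1 (G.Y g p) h4
      (fun n hn w hw => inv_frame G hρ hn hw) with h5 | h5
    · have h6 : G.D g p ≤ ⊥ := by
        rw [← h5]
        exact G.D_le_Y g p
      obtain ⟨e, he, he0⟩ := exists_ne hl0
      exact he0 ((Submodule.mem_bot ℝ).1 (h6 he))
    · obtain ⟨e, he, he0⟩ := exists_ne hl1
      have h6 : e ∈ G.Y g p := by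
        rw [h5]
        apply G.D_le_Y (g * G.ρ p) p
        rw [h1]
        exact he
      have h7 : e ∈ (G.Y g p)ᗮ := hperp he
      have h8 : ⟪e, e⟫ = (0 : ℝ) := (Submodule.mem_orthogonal (G.Y g p) e).1 h7 e h6
      exact he0 (inner_self_eq_zero.1 h8)
  · exact h

end FOI
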