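import Pool.Agent.FOI.AStmts1
import Pool.Agent.FOK.ISO1

/-!
# Module ISO2: the frames `g γ`, `γ ∈ mid p q`, over an isolated frame `g` (paper, 3.3 (ii), (iii))
-/

namespace FOI

open Lib_helper64.FO FO2 FOK
open scoped RealInnerProductSpace

namespace ISO2

variable {d k : ℕ} {Γ : Type} [Group Γ] {X : Type} [MulAction Γ X]

/-- the product `ρ (p + n - 1) * … * ρ p` -/
def del (G : AGeo d k Γ X) (p : ℕ) : ℕ → Γ
  | 0 => 1
  | n + 1 => G.ρ (p + n) * del G p n

theorem del_mem (G : AGeo d k Γ X) {p q : ℕ} : ∀ n, p + n ≤ q → del G p n ∈ G.mid p q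
  | 0, _ => one_mem _
  | n + 1, h => mul_mem (G.ρ_mem_mid (by omega) (by omega)) (del_mem G n (by omega))

/-- `D_j` in the frame `g * del p n` for `p + n < j` -/
theorem D_del (G : AGeo d k Γ X) {p j : ℕ} : ∀ (n : ℕ) (g : Γ), p + n < j →
    G.D (g * del G p n) j = G.D g j
  | 0, g, _ => by rw [del, mul_one]
  | n + 1, g, h => by
    rw [del, ← mul_assoc, D_del G n _ (by omega), G.D_frame_ρ (by omega) (by omega)]

end ISO2

open ISO2 FOK.ISO1

theorem t_ISO2 : M_ISO2 := by
  intro _ hPL hSW hDI hKEY hISO d k Γ _ X _ G u q hW p hup hpq g hg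
  -- one step
  have hstep : ∀ g', Isol G q p g' → ∀ i, p ≤ i → i < q → Isol G q p (g' * G.ρ i) := by
    intro g' hg' i hpi hiq
    rcases eq_or_lt_of_le hpi with rfl | hlt
    · exact (hISO d k Γ X G u q hW p hup hpq g' hg').2
    · rcases hDI d k Γ X G u q hW p hup hpq (g' * G.ρ i) with h | h
      · exfalso
        obtain ⟨h1, h2, -⟩ := hSW d k Γ X G u q hW g' p i hup hlt hiq
        have h3 := h i hlt hiq.le
        rw [h1] at h3
        have h4 : G.D g' (i + 1) ≤ G.Y g' p := h2.1 h3
        obtain ⟨e, he, he0⟩ := exists_ne (hW.line g' (i + 1) (by omega) (by omega))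
        have h5 : e ∈ (G.Y g' p)ᗮ := hg' (i + 1) (by omega) (by omega) he
        have h6 : ⟪e, e⟫ = (0 : ℝ) := (Submodule.mem_orthogonal (G.Y g' p) e).1 h5 e (h4 he)
        exact he0 (inner_self_eq_zero.1 h6)
      · exact h
  -- all frames are isolated
  have hall : ∀ γ ∈ G.mid p q, ∀ g', Isol G q p g' → Isol G q p (g' * γ) := by
    intro γ hγ
    have key : (∀ g', Isol G q p g' → Isol G q p (g' * γ)) ∧
        ∀ g', Isol G q p g' → Isol G q p (g' * γ⁻¹) := by
      refine Subgroup.closure_induction
        (p := fun a _ => (∀ g', Isol G q p g' → Isol G q p (g' * a)) ∧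
          ∀ g', Isol G q p g' → Isol G q p (g' * a⁻¹)) ?_ ?_ ?_ ?_ hγ
      · rintro _ ⟨j, hj, rfl⟩
        refine ⟨fun g' hg' => hstep g' hg' j hj.1 hj.2, fun g' hg' => ?_⟩
        rw [G.inv_ρ]
        exact hstep g' hg' j hj.1 hj.2
      · refine ⟨fun g' hg' => ?_, fun g' hg' => ?_⟩
        · rwa [mul_one]
        · rwa [inv_one, mul_one]
      · intro a b _ _ ha hb
        refine ⟨fun g' hg' => ?_, fun g' hg' => ?_⟩
        · rw [← mul_assoc]
          exact hb.1 _ (ha.1 _ hg')
        · rw [mul_inv_rev, ← mul_assoc]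
          exact ha.2 _ (hb.2 _ hg')
      · intro a _ ha
        refine ⟨ha.2, ?_⟩
        rw [inv_inv]
        exact ha.1
    exact key.1
  -- the exchange
  have hex : ∀ n, p + n < q → ∀ g', Isol G q p g' →
      G.D (g' * G.ρ (p + n)) (p + n) = G.D g' (p + n + 1) := by
    intro n
    induction n using Nat.strong_induction_on with
    | _ n ih =>
      intro hn g' hg'
      rcases Nat.eq_zero_or_pos n with rfl | hpos
      · rw [add_zero]
        exact (hISO d k Γ X G u q hW p hup hpq g' hg').1
      · obtain ⟨hsup, hne, -⟩ := (hPL d k Γ X G u q hW g').1 (p + n) (by omega) hn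
        have hl0 : Module.finrank ℝ (G.D g' (p + n)) = 1 := hW.line g' _ (by omega) (by omega)
        have hl1 : Module.finrank ℝ (G.D g' (p + n + 1)) = 1 :=
          hW.line g' _ (by omega) (by omega)
        have hl2 : Module.finrank ℝ (G.D (g' * G.ρ (p + n)) (p + n)) = 1 :=
          hW.line _ _ (by omega) (by omega)
        obtain ⟨ε, hε, hε0⟩ := exists_ne hl2
        have hmem : ε ∈ G.D g' (p + n) ⊔ G.D g' (p + n + 1) := by
          rw [← hsup]
          exact Submodule.mem_sup_left hε
        obtain ⟨e, he, e', he', hsum⟩ := Submodule.mem_sup.1 hmem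
        by_cases he0 : e = 0
        · have : ε ∈ G.D g' (p + n + 1) := by
            rw [← hsum, he0, zero_add]
            exact he'
          exact line_eq hl2 hl1 hε this hε0
        · exfalso
          have hN : ∀ m, m < n → ∀ g1, (Isol G q p g1) →
              G.D (g1 * G.ρ (p + m)) (p + m) = G.D g1 (p + m + 1) := fun m hm g1 hg1 =>
            ih m hm (by omega) g1 hg1
          -- `P` has to be closed under all generators: cut off
          have hPc : ∀ m ≤ n, ∀ g1, Isol G q p g1 → G.D (g1 * del G p m) p = G.D g1 (p + m) := by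
            intro m
            induction m with
            | zero =>
              intro _ g1 _
              rw [del, mul_one, add_zero]
            | succ m ihm =>
              intro hm g1 hg1
              rw [del, ← mul_assoc, ihm (by omega) _ (hstep g1 hg1 _ (by omega) (by omega)),
                hN m (by omega) g1 hg1, add_assoc]
          have hδ : del G p n ∈ G.mid p q := del_mem G n hn.le
          have hδ' : del G p n ∈ G.up p := G.mid_le_up _ _ hδ
          have hi2 : Isol G q p (g' * del G p n) := hall _ hδ g' hg'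
          have hg1 : Isol G q p (g' * G.ρ (p + n)) := hstep g' hg' _ (by omega) hn
          have h2 : e' = 0 := by
            refine hKEY d k Γ X G u q hW p (p + n) hup (by omega) (by omega) g'
              (g' * G.ρ (p + n) * del G p n) (g' * del G p n)
              ⟨G.ρ (p + n) * del G p n, mul_mem (G.ρ_mem_up (by omega)) hδ',
                by rw [mul_assoc]⟩
              ⟨del G p n, hδ', rfl⟩ e e' 1 1 he he0 he' one_ne_zero one_ne_zero ?_ ?_ ?_
            · rw [one_smul, one_smul, hsum, hPc n le_rfl _ hg1]
              exact hε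
            · rw [hPc n le_rfl _ hg']
              exact he
            · apply hi2 (p + n + 1) (by omega) (by omega)
              rw [D_del G n g' (by omega)]
              exact he'
          have : ε ∈ G.D g' (p + n) := by
            rw [← hsum, h2, add_zero]
            exact he
          exact hne (line_eq hl2 hl0 hε this hε0)
  intro γ hγ
  refine ⟨hall γ hγ g hg, fun i hpi hiq => ?_⟩
  obtain ⟨n, rfl⟩ := Nat.exists_eq_add_of_le hpi
  have h1 := hex n hiq _ (hall γ hγ g hg)
  exact ⟨h1, ((hPL d k Γ X G u q hW (g * γ)).1 (p + n) (by omega) hiq).2.2 h1⟩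

end FOI
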