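import Pool.Agent.FOI.AStmts1

/-!
# 3.3 (i): the key argument with two irreducible modules
-/

namespace FOI

open Lib_helper64.FO FO2 FOK
open scoped RealInnerProductSpace

namespace KEY

variable {d k : ℕ} {Γ : Type} [Group Γ] {X : Type} [MulAction Γ X] (G : AGeo d k Γ X)

/-- `R g n` for `n ∈ N_p` preserves the module `Y` of a frame `g * γ` with `γ ∈ up p`. -/
theorem mem_Y_frame {g γ : Γ} {p : ℕ} (hγ : γ ∈ G.up p) {n : Γ} (hn : n ∈ G.Ni p) {w : E d}
    (hw : w ∈ G.Y (g * γ) p) : G.R g n w ∈ G.Y (g * γ) p := by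
  have h1 : γ⁻¹ * n * γ ∈ G.Ni p := by
    have := G.conj_up ((G.up p).inv_mem hγ) hn
    rwa [inv_inv] at this
  have h2 : G.R (g * γ) (γ⁻¹ * n * γ) = G.R g n := by
    rw [G.R_mul_right]
    congr 1
    group
  have h3 := G.R_mem_Y h1 hw
  rwa [h2] at h3

/-- the same for the orthogonal complement -/
theorem mem_Y_frame_perp {g γ : Γ} {p : ℕ} (hγ : γ ∈ G.up p) {n : Γ} (hn : n ∈ G.Ni p) {w : E d}
    (hw : w ∈ (G.Y (g * γ) p)ᗮ) : G.R g n w ∈ (G.Y (g * γ) p)ᗮ := by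
  rw [Submodule.mem_orthogonal] at hw ⊢
  intro v hv
  have h1 : G.R g n⁻¹ v ∈ G.Y (g * γ) p := mem_Y_frame G hγ (inv_mem hn) hv
  have h2 := hw _ h1
  rw [← (G.R g n).inner_map_map, G.R_inv_apply g hn.1] at h2
  exact h2

end KEY

theorem t_KEY : M_KEY := by
  intro hY d k Γ _ X _ G u q hW p i hup hpq hpi g g1 g2 hg1 hg2 e e' α β he he0 he' hα hβ hε he2
    hperp
  obtain ⟨γ1, hγ1, rfl⟩ := hg1
  obtain ⟨γ2, hγ2, rfl⟩ := hg2
  have hεY : α • e + β • e' ∈ G.Y (g * γ1) p := G.D_le_Y _ _ hε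
  have heY : e ∈ G.Y (g * γ2) p := G.D_le_Y _ _ he2
  -- the intersection is zero
  have hbot : G.Y (g * γ1) p ⊓ (G.Y (g * γ2) p)ᗮ = ⊥ := by
    have hinv : ∀ n ∈ G.Ni p, ∀ w ∈ G.Y (g * γ1) p ⊓ (G.Y (g * γ2) p)ᗮ,
        G.R (g * γ1) n w ∈ G.Y (g * γ1) p ⊓ (G.Y (g * γ2) p)ᗮ := by
      intro n hn w hw
      have h1 : γ1 * n * γ1⁻¹ ∈ G.Ni p := G.conj_up hγ1 hn
      rw [G.R_mul_right]
      exact ⟨KEY.mem_Y_frame G hγ1 h1 hw.1, KEY.mem_Y_frame_perp G hγ2 h1 hw.2⟩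
    rcases (hY d k Γ X G u q hW (g * γ1) p hup hpq).1 (G.Y (g * γ1) p ⊓ (G.Y (g * γ2) p)ᗮ)
      inf_le_left hinv with h | h
    · exact h
    · exfalso
      have h1 : α • e + β • e' ∈ (G.Y (g * γ2) p)ᗮ := by
        rw [← h] at hεY
        exact hεY.2
      have h2 : α • e ∈ (G.Y (g * γ2) p)ᗮ := by
        have := Submodule.sub_mem _ h1 (Submodule.smul_mem _ β hperp)
        rwa [add_sub_cancel_right] at this
      have h3 : ⟪α • e, α • e⟫ = 0 :=
        (Submodule.mem_orthogonal _ _).mp h2 _ (Submodule.smul_mem _ α heY)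
      rw [inner_self_eq_zero] at h3
      exact (smul_ne_zero hα he0) h3
  have hV : e' ∈ G.V g (i + 1) := by
    intro n hn
    have hnp : n ∈ G.Ni p := G.Ni_anti (by omega) hn
    have hne : G.R g n e = e := (G.D_le_V g i he) n hn
    have e1 : G.R g n (α • e + β • e') - (α • e + β • e') = β • (G.R g n e' - e') := by
      rw [map_add, map_smul, map_smul, hne, smul_sub]
      abel
    have m1 : β • (G.R g n e' - e') ∈ G.Y (g * γ1) p ⊓ (G.Y (g * γ2) p)ᗮ := by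
      constructor
      · rw [← e1]
        exact Submodule.sub_mem _ (KEY.mem_Y_frame G hγ1 hnp hεY) hεY
      · exact Submodule.smul_mem _ _
          (Submodule.sub_mem _ (KEY.mem_Y_frame_perp G hγ2 hnp hperp) hperp)
    rw [hbot, Submodule.mem_bot] at m1
    rcases smul_eq_zero.mp m1 with h | h
    · exact absurd h hβ
    · exact sub_eq_zero.mp h
  have hU : e' ∈ G.U g (i + 1) := G.D_le_U g (i + 1) he'
  have := (Submodule.mem_orthogonal _ _).mp hU e' hV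
  exact inner_self_eq_zero.mp this

end FOI
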