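import Pool.Agent.FOI.AStmts2

/-!
# Module N2: `ρ l ρ l'` acts as `1` on the complement of `S` (section 8.2)
-/

namespace FOI

open Lib_helper64.FO FO2 FOK
open scoped RealInnerProductSpace Nat

noncomputable section

namespace N2

/-! ### commuting involutions -/

section
variable {G' : Type} [Group G'] {k : ℕ}

/-- the subgroup generated by the elements with index `< t` -/
def AA (x : Fin k → G') (t : ℕ) : Subgroup G' :=
  Subgroup.closure {y | ∃ i : Fin k, i.val < t ∧ x i = y}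

theorem AA_le {x : Fin k → G'} {t : ℕ} {s : Set G'}
    (h : ∀ i : Fin k, i.val < t → ∀ y ∈ s, y * x i = x i * y) {a y : G'} (ha : a ∈ AA x t)
    (hy : y ∈ s) : y * a = a * y := by
  have h1 : AA x t ≤ Subgroup.centralizer s := by
    rw [AA, Subgroup.closure_le]
    rintro _ ⟨i, hi, rfl⟩
    rw [SetLike.mem_coe, Subgroup.mem_centralizer_iff]
    exact fun y hy => h i hi y hy
  exact Subgroup.mem_centralizer_iff.1 (h1 ha) y hy

theorem AA_comm {x : Fin k → G'} (hc : ∀ i j, x i * x j = x j * x i) {t s : ℕ} {a b : G'}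
    (ha : a ∈ AA x t) (hb : b ∈ AA x s) : a * b = b * a := by
  refine AA_le (s := {a}) ?_ hb rfl
  intro i _ y hy
  rw [Set.mem_singleton_iff] at hy
  subst hy
  refine (AA_le (s := {x i}) ?_ ha rfl).symm
  intro j _ z hz
  rw [Set.mem_singleton_iff] at hz
  subst hz
  exact hc i j

theorem AA_sq {x : Fin k → G'} (hsq : ∀ i, x i * x i = 1) (hc : ∀ i j, x i * x j = x j * x i)
    {t : ℕ} {a : G'} (ha : a ∈ AA x t) : a * a = 1 := by
  have key : ∀ a ∈ AA x t, a ∈ AA x t ∧ a * a = 1 := by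
    intro a ha
    refine Subgroup.closure_induction (p := fun a _ => a ∈ AA x t ∧ a * a = 1) ?_ ?_ ?_ ?_ ha
    · rintro y ⟨i, hi, rfl⟩
      exact ⟨Subgroup.subset_closure ⟨i, hi, rfl⟩, hsq i⟩
    · exact ⟨one_mem _, one_mul _⟩
    · rintro a b _ _ ⟨ha, ha'⟩ ⟨hb, hb'⟩
      refine ⟨mul_mem ha hb, ?_⟩
      have e : a * b * (a * b) = a * (b * a) * b := by group
      rw [e, ← AA_comm hc ha hb, ← mul_assoc, ha', one_mul, hb']
    · rintro a _ ⟨ha, ha'⟩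
      refine ⟨inv_mem ha, ?_⟩
      rw [← mul_inv_rev, ha', inv_one]
  exact (key a ha).2

theorem AA_mono {x : Fin k → G'} {s t : ℕ} (h : s ≤ t) : AA x s ≤ AA x t :=
  Subgroup.closure_mono fun _ ⟨i, hi, e⟩ => ⟨i, lt_of_lt_of_le hi h, e⟩

/-- pigeonhole -/
theorem pig (hE : FOK.S_ELEM) {W : Type} [AddCommGroup W] [Module ℝ W] [FiniteDimensional ℝ W]
    (L : G' →* (W →ₗ[ℝ] W)) (hW : Module.finrank ℝ W + 1 ≤ k) (x : Fin k → G')
    (hsq : ∀ i, x i * x i = 1) (hc : ∀ i j, x i * x j = x j * x i) :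
    ∃ t : Fin k, ∃ a ∈ AA x t.val, L (x t * a) = 1 := by
  by_contra hcon
  push Not at hcon
  have hELEM : ∀ t, (L '' (AA x t : Set G')).Finite ∧
      (L '' (AA x t : Set G')).ncard ≤ 2 ^ Module.finrank ℝ W := by
    intro t
    refine hE _ W _ rfl ?_ ?_
    · rintro _ ⟨a, ha, rfl⟩ _ ⟨b, hb, rfl⟩
      exact ⟨a * b, mul_mem ha hb, map_mul L a b⟩
    · rintro _ ⟨a, ha, rfl⟩
      rw [← map_mul, AA_sq hsq hc ha, map_one]
  have hcard : ∀ t, t ≤ k → 2 ^ t ≤ (L '' (AA x t : Set G')).ncard := by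
    intro t
    induction t with
    | zero =>
      intro _
      rw [pow_zero, Nat.one_le_iff_ne_zero, Ne, Set.ncard_eq_zero (hELEM 0).1]
      exact (Set.Nonempty.image L ⟨1, one_mem _⟩).ne_empty
    | succ t ih =>
      intro ht
      have ht' : t < k := ht
      have h1 := ih ht'.le
      set B := L '' (AA x t : Set G') with hB
      set y := L (x ⟨t, ht'⟩) with hy
      have hyy : y * y = 1 := by rw [hy, ← map_mul, hsq, map_one]
      have hinj : Function.Injective fun u : W →ₗ[ℝ] W => y * u := by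
        intro u v huv
        have h2 : y * (y * u) = y * (y * v) := congrArg (fun s => y * s) huv
        rwa [← mul_assoc, ← mul_assoc, hyy, one_mul, one_mul] at h2
      have hdis : Disjoint B ((fun u : W →ₗ[ℝ] W => y * u) '' B) := by
        rw [Set.disjoint_left]
        rintro _ ⟨a, ha, rfl⟩ ⟨_, ⟨b, hb, rfl⟩, h2⟩
        have h2' : y * L b = L a := h2
        refine hcon ⟨t, ht'⟩ (b * a⁻¹) (mul_mem hb (inv_mem ha)) ?_
        rw [← mul_assoc, map_mul, map_mul, ← hy, h2', ← map_mul, mul_inv_cancel, map_one]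
      have hsub : B ∪ ((fun u : W →ₗ[ℝ] W => y * u) '' B) ⊆ L '' (AA x (t + 1) : Set G') := by
        rintro s (⟨a, ha, rfl⟩ | ⟨_, ⟨b, hb, rfl⟩, rfl⟩)
        · exact ⟨a, AA_mono (Nat.le_succ t) ha, rfl⟩
        · refine ⟨x ⟨t, ht'⟩ * b, mul_mem ?_ (AA_mono (Nat.le_succ t) hb), map_mul L _ _⟩
          exact Subgroup.subset_closure ⟨⟨t, ht'⟩, Nat.lt_succ_self t, rfl⟩
      have h3 := Set.ncard_le_ncard hsub (hELEM (t + 1)).1
      rw [Set.ncard_union_eq hdis (hELEM t).1 ((hELEM t).1.image _),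
        Set.ncard_image_of_injective _ hinj] at h3
      rw [pow_succ]
      omega
  have h1 := hcard k le_rfl
  have h2 := (hELEM k).2
  have h3 : 2 ^ k ≤ 2 ^ Module.finrank ℝ W := h1.trans h2
  have h4 := (Nat.pow_le_pow_iff_right (by norm_num : 1 < 2)).1 h3
  omega

end

/-! ### the action on the complement of `S` -/

variable {d k : ℕ} {Γ : Type} [Group Γ] {X : Type} [MulAction Γ X] (G : AGeo d k Γ X)

theorem mem_perp {q j1 : ℕ} (hj1 : 1 ≤ j1) {g n : Γ} (hn : n ∈ G.Ni j1) {w : E d} (hw : w ∈ (G.S q g j1)ᗮ) :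
    G.R g n w ∈ (G.S q g j1)ᗮ := by
  rw [Submodule.mem_orthogonal] at hw ⊢
  intro v hv
  have h1 : G.R g n⁻¹ v ∈ G.S q g j1 := G.R_mem_S hj1 (inv_mem hn) hv
  have h2 : G.R g n (G.R g n⁻¹ v) = v := G.R_inv_apply g hn.1 v
  rw [← h2, LinearIsometryEquiv.inner_map_map]
  exact hw _ h1

/-- the action of `N_{j1}` on the complement of `S` -/
def L (q j1 : ℕ) (hj1 : 1 ≤ j1) (g : Γ) :
    ↥(G.Ni j1) →* (↥(G.S q g j1)ᗮ →ₗ[ℝ] ↥(G.S q g j1)ᗮ) where
  toFun n := ((G.R g n.1).toLinearEquiv.toLinearMap).restrict fun _ hw => mem_perp G hj1 n.2 hw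
  map_one' := by
    ext w
    change ((G.R g (1 : Γ) (w : E d) : E d)).ofLp _ = _
    rw [G.R_one]
    rfl
  map_mul' m n := by
    ext w
    change ((G.R g (m.1 * n.1) (w : E d) : E d)).ofLp _ = _
    rw [G.R_mul_apply g m.2.1 n.2.1]
    rfl

theorem L_eq_one {q j1 : ℕ} (hj1 : 1 ≤ j1) {g : Γ} {n : Γ} (hn : n ∈ G.Ni j1)
    (h : L G q j1 hj1 g ⟨n, hn⟩ = 1)
    {w : E d} (hw : w ∈ (G.S q g j1)ᗮ) : G.R g n w = w := by
  have h1 := congrArg (fun A : ↥(G.S q g j1)ᗮ →ₗ[ℝ] ↥(G.S q g j1)ᗮ => ((A ⟨w, hw⟩ : _) : E d)) h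
  exact h1

theorem step1 {G' M : Type} [Group G'] [Monoid M] (L : G' →* M) {s n : G'} (hs : L s = 1)
    (h3 : n * n * n = 1) (h2 : s * n * (s * n) = 1) : L n = 1 := by
  have h4 : L n * L n = 1 := by
    have := congrArg L h2
    rw [map_mul, map_mul, hs, one_mul, map_one] at this
    exact this
  have h5 := congrArg L h3
  rwa [map_mul, map_mul, h4, one_mul, map_one] at h5

theorem step2 {G' M : Type} [Group G'] [Monoid M] (L : G' →* M) {s n : G'} (hs : L s = 1)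
    (h3 : n * n * n = 1) (h2 : n * s * (n * s) = 1) : L n = 1 := by
  have h4 : L n * L n = 1 := by
    have := congrArg L h2
    rw [map_mul, map_mul, hs, mul_one, map_one] at this
    exact this
  have h5 := congrArg L h3
  rwa [map_mul, map_mul, h4, one_mul, map_one] at h5

theorem cm (G : AGeo d k Γ X) {a b : ℕ} (h : a + 2 ≤ b ∨ b + 2 ≤ a) :
    Commute (G.ρ a) (G.ρ b) := by
  rcases h with h | h
  · exact G.comm a b h
  · exact (G.comm b a h).symm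

end N2

theorem t_N2 : M_N2 := by
  intro hE d k Γ _ X _ G u q j1 j2 hS h3 hN l l' hl1 hl2 hl1' hl2' g w hw
  have hj := hS.hj
  have hj1 : 1 ≤ j1 := hS.win.hu.trans hS.huj
  -- membership
  have hmem : ∀ a b, j1 + 2 ≤ a → a + 2 ≤ j2 → j1 + 2 ≤ b → b + 2 ≤ j2 →
      G.ρ a * G.ρ b ∈ G.Ni j1 := fun a b h1 h2 h3 h4 =>
    ⟨hN a b h1 h2 h3 h4, mul_mem (G.ρ_mem_up (by omega)) (G.ρ_mem_up (by omega))⟩
  set L := N2.L G q j1 hj1 g with hL
  -- the dimension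
  have hdim : Module.finrank ℝ ↥(G.S q g j1)ᗮ + 1 ≤ k := by
    have h1 := Submodule.finrank_add_finrank_orthogonal (G.S q g j1)
    have h2 : Module.finrank ℝ (E d) = d := by simp
    have h4 := hS.dim g
    omega
  -- the commuting involutions
  let x : Fin k → ↥(G.Ni j1) := fun i =>
    ⟨G.ρ (j1 + 2 + 6 * i.val) * G.ρ (j1 + 2 + 6 * i.val + 2), by
      have := i.2
      exact hmem _ _ (by omega) (by omega) (by omega) (by omega)⟩
  have hsq : ∀ i, x i * x i = 1 := by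
    intro i
    apply Subtype.ext
    change G.ρ (j1 + 2 + 6 * i.val) * G.ρ (j1 + 2 + 6 * i.val + 2) *
      (G.ρ (j1 + 2 + 6 * i.val) * G.ρ (j1 + 2 + 6 * i.val + 2)) = 1
    have e := (N2.cm G (a := j1 + 2 + 6 * i.val) (b := j1 + 2 + 6 * i.val + 2)
      (Or.inl le_rfl)).eq
    conv_lhs => rw [e]
    rw [mul_assoc, ← mul_assoc (G.ρ (j1 + 2 + 6 * i.val)) (G.ρ (j1 + 2 + 6 * i.val + 2)),
      e, mul_assoc, G.sq, mul_one, G.sq]
  have hc : ∀ i j, x i * x j = x j * x i := by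
    intro i j
    rcases eq_or_ne i j with rfl | hij
    · rfl
    · have hne : i.val ≠ j.val := fun h => hij (Fin.ext h)
      apply Subtype.ext
      change G.ρ (j1 + 2 + 6 * i.val) * G.ρ (j1 + 2 + 6 * i.val + 2) *
        (G.ρ (j1 + 2 + 6 * j.val) * G.ρ (j1 + 2 + 6 * j.val + 2)) = 
        G.ρ (j1 + 2 + 6 * j.val) * G.ρ (j1 + 2 + 6 * j.val + 2) *
        (G.ρ (j1 + 2 + 6 * i.val) * G.ρ (j1 + 2 + 6 * i.val + 2))
      refine (Commute.mul_left (Commute.mul_right (N2.cm G ?_) (N2.cm G ?_))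
        (Commute.mul_right (N2.cm G ?_) (N2.cm G ?_))).eq <;> omega
  obtain ⟨t, a, ha, hta⟩ := N2.pig hE L hdim x hsq hc
  have ht := t.2
  -- the element of order three
  set c := j1 + 2 + 6 * t.val with hcdef
  have hσm : G.ρ (c + 2) * G.ρ (c + 3) ∈ G.Ni j1 :=
    hmem _ _ (by omega) (by omega) (by omega) (by omega)
  have hcube : ∀ e (h1 : j1 + 2 ≤ e) (h2 : e + 3 ≤ j2) (h4 : G.ρ e * G.ρ (e + 1) ∈ G.Ni j1),
      (⟨G.ρ e * G.ρ (e + 1), h4⟩ : ↥(G.Ni j1)) * ⟨G.ρ e * G.ρ (e + 1), h4⟩ *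
        ⟨G.ρ e * G.ρ (e + 1), h4⟩ = 1 := by
    intro e h1 h2 h4
    apply Subtype.ext
    have := h3 e h1 h2
    rw [pow_succ, pow_two] at this
    exact this
  have hσ : L ⟨G.ρ (c + 2) * G.ρ (c + 3), hσm⟩ = 1 := by
    set σ : ↥(G.Ni j1) := ⟨G.ρ (c + 2) * G.ρ (c + 3), hσm⟩ with hσdef
    have haσ : σ * a = a * σ := by
      refine N2.AA_le (s := {σ}) ?_ ha rfl
      intro i hi y hy
      rw [Set.mem_singleton_iff] at hy
      subst hy
      apply Subtype.ext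
      change G.ρ (c + 2) * G.ρ (c + 3) *
        (G.ρ (j1 + 2 + 6 * i.val) * G.ρ (j1 + 2 + 6 * i.val + 2)) = 
        G.ρ (j1 + 2 + 6 * i.val) * G.ρ (j1 + 2 + 6 * i.val + 2) *
        (G.ρ (c + 2) * G.ρ (c + 3))
      refine (Commute.mul_left (Commute.mul_right (N2.cm G ?_) (N2.cm G ?_))
        (Commute.mul_right (N2.cm G ?_) (N2.cm G ?_))).eq <;> omega
    have hxσ : x t * σ = σ⁻¹ * x t := by
      apply Subtype.ext
      change G.ρ c * G.ρ (c + 2) * (G.ρ (c + 2) * G.ρ (c + 3)) =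
        (G.ρ (c + 2) * G.ρ (c + 3))⁻¹ * (G.ρ c * G.ρ (c + 2))
      have e1 : G.ρ c * G.ρ (c + 2) = G.ρ (c + 2) * G.ρ c := (N2.cm G (by omega)).eq
      have e2 : G.ρ c * G.ρ (c + 3) = G.ρ (c + 3) * G.ρ c := (N2.cm G (by omega)).eq
      rw [mul_inv_rev, G.inv_ρ, G.inv_ρ, mul_assoc, ← mul_assoc (G.ρ (c + 2)), G.sq, one_mul, e2,
        e1, mul_assoc, ← mul_assoc (G.ρ (c + 2)) (G.ρ (c + 2)), G.sq, one_mul]
    have h5 : L σ = L σ⁻¹ := by
      have h6 : x t * a * σ = σ⁻¹ * (x t * a) := by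
        rw [mul_assoc, ← haσ, ← mul_assoc, hxσ, mul_assoc]
      have h7 := congrArg L h6
      rwa [map_mul, map_mul L σ⁻¹, hta, one_mul, mul_one] at h7
    have h6 : L σ * L σ = 1 := by
      have h7 : L σ * L σ⁻¹ = 1 := by rw [← map_mul, mul_inv_cancel, map_one]
      rwa [← h5] at h7
    have h7 := congrArg L (hcube (c + 2) (by omega) (by omega) hσm)
    rw [map_mul, map_mul, map_one] at h7
    change L σ * L σ * L σ = 1 at h7
    rwa [h6, one_mul] at h7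
  -- up and down
  have hup : ∀ e (h1 : j1 + 2 ≤ e) (h2 : e + 4 ≤ j2) (h4 : G.ρ e * G.ρ (e + 1) ∈ G.Ni j1)
      (h5 : G.ρ (e + 1) * G.ρ (e + 2) ∈ G.Ni j1), L ⟨_, h4⟩ = 1 → L ⟨_, h5⟩ = 1 := by
    intro e h1 h2 h4 h5 h6
    refine N2.step1 L h6 (hcube (e + 1) (by omega) (by omega) h5) ?_
    apply Subtype.ext
    change G.ρ e * G.ρ (e + 1) * (G.ρ (e + 1) * G.ρ (e + 2)) *
      (G.ρ e * G.ρ (e + 1) * (G.ρ (e + 1) * G.ρ (e + 2))) = 1
    have e1 : G.ρ e * G.ρ (e + 1) * (G.ρ (e + 1) * G.ρ (e + 2)) = G.ρ e * G.ρ (e + 2) := by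
      rw [mul_assoc, ← mul_assoc (G.ρ (e + 1)), G.sq, one_mul]
    have e2 : G.ρ e * G.ρ (e + 2) = G.ρ (e + 2) * G.ρ e := (N2.cm G (by omega)).eq
    rw [e1]
    conv_lhs => rw [e2]
    rw [mul_assoc, ← mul_assoc (G.ρ e) (G.ρ (e + 2)), e2, mul_assoc, G.sq, mul_one, G.sq]
  have hdn : ∀ e (h1 : j1 + 2 ≤ e) (h2 : e + 4 ≤ j2) (h4 : G.ρ e * G.ρ (e + 1) ∈ G.Ni j1)
      (h5 : G.ρ (e + 1) * G.ρ (e + 2) ∈ G.Ni j1), L ⟨_, h5⟩ = 1 → L ⟨_, h4⟩ = 1 := by
    intro e h1 h2 h4 h5 h6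
    refine N2.step2 L h6 (hcube e (by omega) (by omega) h4) ?_
    apply Subtype.ext
    change G.ρ e * G.ρ (e + 1) * (G.ρ (e + 1) * G.ρ (e + 2)) *
      (G.ρ e * G.ρ (e + 1) * (G.ρ (e + 1) * G.ρ (e + 2))) = 1
    have e1 : G.ρ e * G.ρ (e + 1) * (G.ρ (e + 1) * G.ρ (e + 2)) = G.ρ e * G.ρ (e + 2) := by
      rw [mul_assoc, ← mul_assoc (G.ρ (e + 1)), G.sq, one_mul]
    have e2 : G.ρ e * G.ρ (e + 2) = G.ρ (e + 2) * G.ρ e := (N2.cm G (by omega)).eq
    rw [e1]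
    conv_lhs => rw [e2]
    rw [mul_assoc, ← mul_assoc (G.ρ e) (G.ρ (e + 2)), e2, mul_assoc, G.sq, mul_one, G.sq]
  have hU : ∀ n e, e = c + 2 + n → ∀ (h2 : e + 3 ≤ j2) (h4 : G.ρ e * G.ρ (e + 1) ∈ G.Ni j1),
      L ⟨_, h4⟩ = 1 := by
    intro n
    induction n with
    | zero =>
      intro e he h2 h4
      rw [add_zero] at he
      subst he
      exact hσ
    | succ n ih =>
      intro e he h2 h4
      subst he
      exact hup (c + 2 + n) (by omega) (by omega)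
        (hmem _ _ (by omega) (by omega) (by omega) (by omega)) h4 (ih _ rfl (by omega) _)
  have hDn : ∀ n e, e + n = c + 2 → ∀ (h1 : j1 + 2 ≤ e) (h4 : G.ρ e * G.ρ (e + 1) ∈ G.Ni j1),
      L ⟨_, h4⟩ = 1 := by
    intro n
    induction n with
    | zero =>
      intro e he h1 h4
      rw [add_zero] at he
      subst he
      exact hσ
    | succ n ih =>
      intro e he h1 h4
      exact hdn e (by omega) (by omega) h4
        (hmem _ _ (by omega) (by omega) (by omega) (by omega)) (ih (e + 1) (by omega) (by omega) _)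
  have hall : ∀ e (h1 : j1 + 2 ≤ e) (h2 : e + 3 ≤ j2) (h4 : G.ρ e * G.ρ (e + 1) ∈ G.Ni j1),
      L ⟨_, h4⟩ = 1 := by
    intro e h1 h2 h4
    rcases Nat.le_total (c + 2) e with h | h
    · exact hU (e - (c + 2)) e (by omega) h2 h4
    · exact hDn (c + 2 - e) e (by omega) h1 h4
  have hpair : ∀ n e e', e' = e + n → j1 + 2 ≤ e → e' + 2 ≤ j2 →
      ∀ h4 : G.ρ e * G.ρ e' ∈ G.Ni j1, L ⟨_, h4⟩ = 1 := by
    intro n
    induction n with
    | zero =>
      intro e e' he h1 h2 h4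
      rw [add_zero] at he
      subst he
      have : (⟨G.ρ e' * G.ρ e', h4⟩ : ↥(G.Ni j1)) = 1 := Subtype.ext (G.sq e')
      rw [this, map_one]
    | succ n ih =>
      intro e e' he h1 h2 h4
      subst he
      have h5 : G.ρ e * G.ρ (e + n) ∈ G.Ni j1 :=
        hmem _ _ (by omega) (by omega) (by omega) (by omega)
      have h6 : G.ρ (e + n) * G.ρ (e + n + 1) ∈ G.Ni j1 :=
        hmem _ _ (by omega) (by omega) (by omega) (by omega)
      have e1 : (⟨G.ρ e * G.ρ (e + (n + 1)), h4⟩ : ↥(G.Ni j1)) =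
          ⟨G.ρ e * G.ρ (e + n), h5⟩ * ⟨G.ρ (e + n) * G.ρ (e + n + 1), h6⟩ := by
        apply Subtype.ext
        change G.ρ e * G.ρ (e + (n + 1)) =
          G.ρ e * G.ρ (e + n) * (G.ρ (e + n) * G.ρ (e + n + 1))
        rw [mul_assoc, ← mul_assoc (G.ρ (e + n)), G.sq, one_mul]
        rfl
      rw [e1, map_mul, ih e _ rfl h1 (by omega) h5, hall _ (by omega) (by omega) h6, one_mul]
  refine N2.L_eq_one G hj1 (hmem l l' hl1 hl2 hl1' hl2') ?_ hw
  rcases Nat.le_total l l' with h | h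
  · exact hpair (l' - l) l l' (by omega) hl1 hl2' _
  · have h5 := hmem l' l hl1' hl2' hl1 hl2
    have e1 : (⟨G.ρ l * G.ρ l', hmem l l' hl1 hl2 hl1' hl2'⟩ : ↥(G.Ni j1)) =
        (⟨G.ρ l' * G.ρ l, h5⟩)⁻¹ := by
      apply Subtype.ext
      change G.ρ l * G.ρ l' = (G.ρ l' * G.ρ l)⁻¹
      rw [mul_inv_rev, G.inv_ρ, G.inv_ρ]
    have h6 := hpair (l - l') l' l (by omega) hl1' hl2 h5
    change L _ = 1
    rw [e1]
    have h7 : L (⟨G.ρ l' * G.ρ l, h5⟩)⁻¹ * L ⟨G.ρ l' * G.ρ l, h5⟩ = 1 := by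
      rw [← map_mul, inv_mul_cancel, map_one]
    rwa [h6, mul_one] at h7

end

end FOI
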