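import Pool.Agent.FOI.AStmts2

/-!
# 8.4: the generators `ρ l` of the run are in `N` (finite or infinite polytopes)
-/

namespace FOI

open Lib_helper64.FO FO2 FOK
open scoped RealInnerProductSpace Nat

namespace N4

theorem sref_fix {d : ℕ} {a v : E d} (h : ⟪a, v⟫ = 0) : sref a v = v := by
  rw [sref, h, mul_zero, zero_smul, sub_zero]

/-- the reflection as an isometry -/
noncomputable def srefE {d : ℕ} (a : E d) (h : ‖a‖ = 1) : E d ≃ₗᵢ[ℝ] E d :=
  LinearIsometryEquiv.mk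
    { toFun := sref a
      map_add' := sref_add a
      map_smul' := fun c v => sref_smul a v c
      invFun := sref a
      left_inv := sref_sref h
      right_inv := sref_sref h }
    (fun v => by
      have h1 : ⟪sref a v, sref a v⟫ = ⟪v, v⟫ := inner_sref h v v
      rw [real_inner_self_eq_norm_sq, real_inner_self_eq_norm_sq] at h1
      exact (pow_left_inj₀ (norm_nonneg _) (norm_nonneg _) two_ne_zero).1 h1)

theorem srefE_apply {d : ℕ} (a : E d) (h : ‖a‖ = 1) (v : E d) : srefE a h v = sref a v := rfl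

section

variable {d k : ℕ} {Γ : Type} [Group Γ] {X : Type} [MulAction Γ X] {G : AGeo d k Γ X}
  {u q j1 j2 : ℕ}

/-- the root is orthogonal to `V g l` -/
theorem root_perp {g : Γ} {l : ℕ} {a : E d} (ha : RootAt G q j1 g l a) {v : E d}
    (hv : v ∈ G.V g l) : ⟪a, v⟫ = (0 : ℝ) := by
  have h1 : G.D g l ⊔ G.D g (l + 1) ≤ G.U g l :=
    sup_le (G.D_le_U g l) ((G.D_le_U g (l + 1)).trans (G.U_anti g (Nat.le_succ l)))
  have h2 : a ∈ (G.V g l)ᗮ := h1 ha.mem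
  exact Submodule.inner_left_of_mem_orthogonal hv h2

/-- the images of the base vertex under the generators -/
theorem root_perp_x0 {g : Γ} {l : ℕ} {a : E d} (ha : RootAt G q j1 g l a) (hl : 2 ≤ l) (i : ℕ) :
    ⟪a, G.F g (G.ρ i • G.x0)⟫ = (0 : ℝ) := by
  rcases Nat.eq_zero_or_pos i with rfl | hi
  · apply root_perp ha
    apply G.V_mono g hl
    exact G.F_mem_V g (i := 1) (G.ρ_mem_dn (Nat.lt_succ_self 0))
  · rw [G.stab i hi, G.F_x0, inner_zero_right]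

/-- the root is in `S` -/
theorem root_mem_S (hS : Sub G u q j1 j2) {g : Γ} {l : ℕ} {a : E d} (h1 : j1 ≤ l)
    (h2 : l + 2 ≤ j2) (ha : RootAt G q j1 g l a) : a ∈ G.S q g j1 := by
  have hq := hS.hjq
  have hY : G.Y g j1 ≤ G.S q g j1 := by
    rw [← hS.Y g j1 le_rfl (by omega)]
    exact inf_le_left
  have hD1 := hS.D g j1 le_rfl (by omega) l h1 (by omega)
  have hD2 := hS.D g j1 le_rfl (by omega) (l + 1) (by omega) (by omega)
  exact (sup_le (hD1.trans hY) (hD2.trans hY)) ha.mem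

theorem prod_eq (hS : Sub G u q j1 j2) {g : Γ} {l l' : ℕ} {a a' : E d} (h1 : j1 ≤ l)
    (h2 : l + 2 ≤ j2) (h1' : j1 ≤ l') (h2' : l' + 2 ≤ j2) (ha : RootAt G q j1 g l a)
    (ha' : RootAt G q j1 g l' a') (hN : G.ρ l * G.ρ l' ∈ G.N)
    (hperp : ∀ w ∈ (G.S q g j1)ᗮ, G.R g (G.ρ l * G.ρ l') w = w) (v : E d) :
    G.R g (G.ρ l * G.ρ l') v = sref a (sref a' v) := by
  have haS := root_mem_S hS h1 h2 ha
  have haS' := root_mem_S hS h1' h2' ha'
  have hu := hS.win.hu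
  have huj := hS.huj
  have hfix : (G.ρ l * G.ρ l') • G.x0 = G.x0 := by
    rw [mul_smul, G.stab l' (by omega), G.stab l (by omega)]
  have key : ∀ y ∈ G.S q g j1, G.R g (G.ρ l * G.ρ l') y = sref a (sref a' y) := by
    intro y hy
    rw [AGeo.S] at hy
    induction hy using Submodule.span_induction with
    | mem x hx =>
      obtain ⟨y, hy, rfl⟩ := hx
      rw [G.R_F g hN hfix, mul_smul, ha.act _ (G.smul_mem_XX (G.ρ_mem_up h1') hy), ha'.act y hy]
    | zero =>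
      have h0 : ∀ b : E d, sref b 0 = 0 := fun b => by
        rw [sref, inner_zero_right, mul_zero, zero_smul, sub_zero]
      rw [map_zero, h0, h0]
    | add x y _ _ hx hy => rw [map_add, hx, hy, sref_add, sref_add]
    | smul c x _ hx => rw [map_smul, hx, sref_smul, sref_smul]
  obtain ⟨y, hy, z, hz, rfl⟩ := (G.S q g j1).exists_add_mem_mem_orthogonal v
  rw [map_add, sref_add, sref_add, key y hy, hperp z hz,
    sref_fix (a := a') (Submodule.inner_right_of_mem_orthogonal haS' hz),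
    sref_fix (a := a) (Submodule.inner_right_of_mem_orthogonal haS hz)]

/-- the far case of the induction -/
theorem far (hR : ∀ g, RootsFrom G q j1 j2 (j1 + 2) g)
    (hN3 : ∀ g l i a a', j1 + 2 ≤ l → l + 2 ≤ j2 → (i + 2 ≤ l ∨ l + 2 ≤ i) →
      RootAt G q j1 g l a → RootAt G q j1 (g * G.ρ i) l a' → a' = a ∨ a' = -a)
    {γ : Γ} (IH : ∀ g l a, j1 + 2 ≤ l → l + 2 ≤ j2 → RootAt G q j1 g l a →
      G.F g (G.ρ l • γ • G.x0) = sref a (G.F g (γ • G.x0)))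
    {g : Γ} {l i : ℕ} {a : E d} (h1 : j1 + 2 ≤ l) (h2 : l + 2 ≤ j2)
    (hi : i + 2 ≤ l ∨ l + 2 ≤ i) (ha : RootAt G q j1 g l a) :
    G.F g (G.ρ l • (G.ρ i * γ) • G.x0) = sref a (G.F g ((G.ρ i * γ) • G.x0)) := by
  obtain ⟨a', ha'⟩ := (hR (g * G.ρ i)).1 l h1 h2
  have hc : G.ρ l * G.ρ i = G.ρ i * G.ρ l := by
    rcases hi with hi | hi
    · exact (G.comm i l hi).symm
    · exact G.comm l i hi
  have e : G.ρ l • (G.ρ i * γ) • G.x0 = G.ρ i • G.ρ l • γ • G.x0 := by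
    rw [← mul_smul, ← mul_assoc, hc, mul_assoc, mul_smul, mul_smul]
  have h3 : ∀ y : X, G.F g (G.ρ i • y) = G.F (g * G.ρ i) y + G.F g (G.ρ i • G.x0) := by
    intro y
    rw [G.F_mul0, sub_add_cancel]
  have h4 : sref a (G.F g (G.ρ i • G.x0)) = G.F g (G.ρ i • G.x0) :=
    sref_fix (root_perp_x0 ha (by omega) i)
  have h5 : G.F (g * G.ρ i) (G.ρ l • γ • G.x0) = sref a (G.F (g * G.ρ i) (γ • G.x0)) := by
    rw [IH (g * G.ρ i) l a' h1 h2 ha']
    rcases hN3 g l i a a' h1 h2 hi ha ha' with h | h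
    · rw [h]
    · rw [h, sref_neg]
  rw [e, h3 (G.ρ l • γ • G.x0), h5, mul_smul, h3 (γ • G.x0), sref_add, h4]

theorem main (hS : Sub G u q j1 j2)
    (hR : ∀ g, RootsFrom G q j1 j2 (j1 + 2) g)
    (hN : ∀ l l', j1 + 2 ≤ l → l + 2 ≤ j2 → j1 + 2 ≤ l' → l' + 2 ≤ j2 → G.ρ l * G.ρ l' ∈ G.N)
    (hN2 : ∀ l l', j1 + 2 ≤ l → l + 2 ≤ j2 → j1 + 2 ≤ l' → l' + 2 ≤ j2 →
      ∀ g, ∀ w ∈ (G.S q g j1)ᗮ, G.R g (G.ρ l * G.ρ l') w = w)
    (hN3 : ∀ g l i a a', j1 + 2 ≤ l → l + 2 ≤ j2 → (i + 2 ≤ l ∨ l + 2 ≤ i) →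
      RootAt G q j1 g l a → RootAt G q j1 (g * G.ρ i) l a' → a' = a ∨ a' = -a)
    (γ : Γ) : ∀ g l a, j1 + 2 ≤ l → l + 2 ≤ j2 → RootAt G q j1 g l a →
      G.F g (G.ρ l • γ • G.x0) = sref a (G.F g (γ • G.x0)) := by
  have hmem : γ ∈ Subgroup.closure (G.ρ '' Set.univ) := by
    have h0 : gpar G.ρ Set.univ = ⊤ := G.gen
    have h1 : γ ∈ gpar G.ρ Set.univ := by rw [h0]; trivial
    exact h1
  have step : ∀ i : ℕ, ∀ γ : Γ, (∀ g l a, j1 + 2 ≤ l → l + 2 ≤ j2 → RootAt G q j1 g l a →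
      G.F g (G.ρ l • γ • G.x0) = sref a (G.F g (γ • G.x0))) →
      ∀ g l a, j1 + 2 ≤ l → l + 2 ≤ j2 → RootAt G q j1 g l a →
      G.F g (G.ρ l • (G.ρ i * γ) • G.x0) = sref a (G.F g ((G.ρ i * γ) • G.x0)) := by
    intro i γ IH g l a h1 h2 ha
    by_cases hi : i + 2 ≤ l ∨ l + 2 ≤ i
    · exact far hR hN3 IH h1 h2 hi ha
    · have hj := hS.hj
      obtain ⟨l', h1', h2', hi'⟩ : ∃ l', j1 + 2 ≤ l' ∧ l' + 2 ≤ j2 ∧ (i + 2 ≤ l' ∨ l' + 2 ≤ i) := by
        by_cases h3 : j1 + 4 ≤ i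
        · exact ⟨j1 + 2, by omega, by omega, by omega⟩
        · exact ⟨j1 + 6, by omega, by omega, by omega⟩
      obtain ⟨a', ha'⟩ := (hR g).1 l' h1' h2'
      have h3 := far hR hN3 IH h1' h2' hi' ha'
      have h4 := prod_eq hS (by omega) h2 (by omega) h2' ha ha' (hN l l' h1 h2 h1' h2')
        (hN2 l l' h1 h2 h1' h2' g)
      have e : G.ρ l • (G.ρ i * γ) • G.x0
          = (G.ρ l * G.ρ l') • G.ρ l' • (G.ρ i * γ) • G.x0 := by
        rw [← mul_smul (G.ρ l * G.ρ l'), mul_assoc, G.sq, mul_one]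
      have hfix : (G.ρ l * G.ρ l') • G.x0 = G.x0 := by
        rw [mul_smul, G.stab l' (by omega), G.stab l (by omega)]
      rw [e, ← G.R_F g (hN l l' h1 h2 h1' h2') hfix, h3, h4, sref_sref ha'.norm]
  refine Subgroup.closure_induction_left (p := fun γ _ => ∀ g l a, j1 + 2 ≤ l → l + 2 ≤ j2 →
    RootAt G q j1 g l a → G.F g (G.ρ l • γ • G.x0) = sref a (G.F g (γ • G.x0))) ?_ ?_ ?_ hmem
  · intro g l a _ _ ha
    rw [one_smul]
    have h5 : (1 : Γ) • G.x0 ∈ G.XX q j1 := G.dn_mem_XX (one_mem _)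
    rw [one_smul] at h5
    exact ha.act _ h5
  · rintro _ ⟨i, _, rfl⟩ γ _ IH
    exact step i γ IH
  · rintro _ ⟨i, _, rfl⟩ γ _ IH
    rw [G.inv_ρ]
    exact step i γ IH

end

end N4

open N4 in
theorem t_N4 : M_N4 := by
  intro hN1 hN2 hN3 d k Γ _ X _ G u q j1 j2 hS hR l h1 h2
  obtain ⟨hA, hB⟩ := hN1 d k Γ X G u q j1 j2 hS hR
  have hC := hN2 d k Γ X G u q j1 j2 hS hA hB
  have hD := hN3 d k Γ X G u q j1 j2 hS
  have h0 : G.ρ l • G.x0 = G.x0 := G.stab l (by omega)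
  have hM := fun γ => main hS hR hB hC hD γ
  have hall : ∀ g a, RootAt G q j1 g l a → ∀ y : X, G.F g (G.ρ l • y) = sref a (G.F g y) := by
    intro g a ha y
    obtain ⟨γ, rfl⟩ := G.trans y
    exact hM γ g l a h1 h2 ha
  have hmem : G.ρ l ∈ G.N := by
    refine G.mem_N_of_iso h0 fun g => ?_
    obtain ⟨a, ha⟩ := (hR g).1 l h1 h2
    exact ⟨srefE a ha.norm, fun y => hall g a ha y⟩
  refine ⟨hmem, fun g a ha v => ?_⟩
  -- the span of all vertices
  obtain ⟨W, hW⟩ : ∃ W : Submodule ℝ (E d), W = Submodule.span ℝ (Set.range (G.F g)) := ⟨_, rfl⟩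
  have haW : a ∈ W := by
    have h3 := root_mem_S hS (by omega) h2 ha
    have h4 : G.S q g j1 ≤ W := by
      rw [hW, AGeo.S, Submodule.span_le]
      rintro _ ⟨y, _, rfl⟩
      exact Submodule.subset_span ⟨y, rfl⟩
    exact h4 h3
  have key : ∀ y ∈ W, G.R g (G.ρ l) y = sref a y := by
    intro y hy
    rw [hW] at hy
    induction hy using Submodule.span_induction with
    | mem x hx =>
      obtain ⟨y, rfl⟩ := hx
      rw [G.R_F g hmem h0, hall g a ha]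
    | zero => rw [map_zero, sref, inner_zero_right, mul_zero, zero_smul, sub_zero]
    | add x y _ _ hx hy => rw [map_add, hx, hy, sref_add]
    | smul c x _ hx => rw [map_smul, hx, sref_smul]
  obtain ⟨y, hy, z, hz, rfl⟩ := W.exists_add_mem_mem_orthogonal v
  rw [map_add, sref_add, key y hy,
    sref_fix (a := a) (Submodule.inner_right_of_mem_orthogonal haW hz)]
  congr 1
  refine G.perp _ (G.N_le (G.conj_mem_N g hmem)) z fun x y => ?_
  have h5 : ∀ x, G.f x - G.f (g • G.x0) ∈ W := by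
    intro x
    rw [hW]
    refine Submodule.subset_span ⟨g⁻¹ • x, ?_⟩
    rw [AGeo.F, smul_inv_smul]
  have h6 : G.f x - G.f y ∈ W := by
    have e : G.f x - G.f y = (G.f x - G.f (g • G.x0)) - (G.f y - G.f (g • G.x0)) := by abel
    rw [e]
    exact sub_mem (h5 x) (h5 y)
  exact Submodule.inner_right_of_mem_orthogonal h6 hz

end FOI
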