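import Pool.Agent.FOI.AStmts2

/-!
# Module NINE: the structure `Nine` (section 9, first paragraph)
-/

namespace FOI

open Lib_helper64.FO FO2 FOK
open scoped RealInnerProductSpace Nat

noncomputable section

namespace NINE

variable {d k : ℕ} {Γ : Type} [Group Γ] {X : Type} [MulAction Γ X] (G : AGeo d k Γ X)

/-! ### reflections -/

theorem pm_of_sref {a b : E d} (ha : ‖a‖ = 1) (hb : ‖b‖ = 1) (h : ∀ v, sref a v = sref b v) :
    a = b ∨ a = -b := by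
  have h1 := h a
  rw [sref_self ha, sref] at h1
  have h2 : a = ⟪b, a⟫ • b := by
    have h3 : (2 : ℝ) • a = (2 : ℝ) • (⟪b, a⟫ • b) := by
      rw [smul_smul, two_smul]
      have h4 : a + a = a - -a := by rw [sub_neg_eq_add]
      rw [h4, h1]
      abel
    exact smul_right_injective (E d) (two_ne_zero' ℝ) h3
  have h5 : |(⟪b, a⟫ : ℝ)| = 1 := by
    have h6 : ‖a‖ = |(⟪b, a⟫ : ℝ)| * ‖b‖ := by
      conv_lhs => rw [h2]
      rw [norm_smul, Real.norm_eq_abs]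
    rw [ha, hb, mul_one] at h6
    exact h6.symm
  rcases (abs_eq (zero_le_one (α := ℝ))).1 h5 with h6 | h6
  · left
    rw [h6, one_smul] at h2
    exact h2
  · right
    rw [h6, neg_one_smul] at h2
    exact h2

theorem perp_of_fix {a v : E d} (ha : ‖a‖ = 1) (h : sref a v = v) : ⟪a, v⟫ = (0 : ℝ) := by
  rw [sref, sub_eq_self, smul_eq_zero] at h
  rcases h with h | h
  · linarith
  · rw [h, norm_zero] at ha
    exact absurd ha zero_ne_one

/-! ### the frame `g * γ` with `γ ∈ up i` -/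

theorem S_frame {q j : ℕ} (hj : 1 ≤ j) {g γ : Γ} (hγ : γ ∈ G.up j) :
    G.S q (g * γ) j = G.S q g j := by
  have hfix : γ • G.x0 = G.x0 := G.up_fix_x0 (G.up_anti hj hγ)
  rw [AGeo.S, AGeo.S]
  congr 1
  ext w
  constructor
  · rintro ⟨y, hy, rfl⟩
    exact ⟨γ • y, G.smul_mem_XX hγ hy, (G.F_mul g hfix y).symm⟩
  · rintro ⟨y, hy, rfl⟩
    refine ⟨γ⁻¹ • y, G.smul_mem_XX (inv_mem hγ) hy, ?_⟩
    rw [G.F_mul g hfix, smul_inv_smul]

theorem Y_frame {u q j1 j2 : ℕ} (hS : Sub G u q j1 j2) {p : ℕ} (h1 : j1 ≤ p) (h2 : p ≤ j2)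
    {g γ : Γ} (hγ : γ ∈ G.up p) : G.Y (g * γ) p = G.Y g p := by
  rw [← hS.Y (g * γ) p h1 h2, ← hS.Y g p h1 h2, ← hS.S (g * γ) p h1 h2, ← hS.S g p h1 h2,
    S_frame G ((hS.win.hu.trans hS.huj).trans h1) hγ, AGeo.U, AGeo.U, G.V_frame_up hγ]

/-- the standing assumptions -/
structure Dat {u q j1 j2 : ℕ} (hS : Sub G u q j1 j2) : Prop where
  runs : ∀ g, RootsFrom G q j1 j2 (j1 + 2) g
  braid : ∀ l, j1 + 2 ≤ l → l + 3 ≤ j2 → (G.ρ l * G.ρ (l + 1)) ^ 3 = 1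
  refl : ∀ l, j1 + 2 ≤ l → l + 2 ≤ j2 → G.ρ l ∈ G.N ∧
      ∀ g a, RootAt G q j1 g l a → ∀ v, G.R g (G.ρ l) v = sref a v

section

variable {G} {u q j1 j2 : ℕ} {hS : Sub G u q j1 j2} (D : Dat G hS)

include D

theorem Dat.root {l : ℕ} (h1 : j1 + 2 ≤ l) (h2 : l + 2 ≤ j2) (g : Γ) :
    ∃ a, RootAt G q j1 g l a ∧ ∀ v, G.R g (G.ρ l) v = sref a v := by
  obtain ⟨a, ha⟩ := (D.runs g).1 l h1 h2
  exact ⟨a, ha, (D.refl l h1 h2).2 g a ha⟩

theorem Dat.TN {l : ℕ} (h1 : j1 + 2 ≤ l) (h2 : l + 2 ≤ j2) : TT G l l ⊆ G.Ni l := by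
  rintro x ⟨γ, hγ, rfl⟩
  exact G.conj_up hγ ⟨(D.refl l h1 h2).1, G.ρ_mem_up le_rfl⟩

/-- the root of an element of `TT l l` -/
theorem Dat.rootT {l : ℕ} (h1 : j1 + 2 ≤ l) (h2 : l + 2 ≤ j2) (g : Γ) {x : Γ}
    (hx : x ∈ TT G l l) : ∃ a ∈ G.Y g l, ‖a‖ = 1 ∧ ∀ v, G.R g x v = sref a v := by
  obtain ⟨γ, hγ, rfl⟩ := hx
  obtain ⟨a, ha, ha'⟩ := D.root h1 h2 (g * γ)
  have hj := hS.hj
  have hjq := hS.hjq
  refine ⟨a, ?_, ha.norm, fun v => ?_⟩
  · rw [← Y_frame G hS (by omega) (by omega) hγ]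
    exact sup_le (hS.D (g * γ) l (by omega) (by omega) l le_rfl (by omega))
      (hS.D (g * γ) l (by omega) (by omega) (l + 1) (by omega) (by omega)) ha.mem
  · rw [← ha' v, G.R_mul_right]

theorem Dat.sub {l : ℕ} (h1 : j1 + 2 ≤ l) (h2 : l + 2 ≤ j2) (g : Γ) :
    Ph G g l l ⊆ (G.Y g l : Set (E d)) := by
  rintro a ⟨ha, x, hx, hxa⟩
  obtain ⟨b, hbY, hb, hxb⟩ := D.rootT h1 h2 g hx
  rcases pm_of_sref ha hb (fun v => by rw [← hxa v, hxb v]) with rfl | rfl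
  · exact hbY
  · exact neg_mem hbY

theorem Dat.inv {l : ℕ} (h1 : j1 + 2 ≤ l) (h2 : l + 2 ≤ j2) (g : Γ) {n : Γ}
    (hn : n ∈ G.Ni l) {a : E d} (ha : a ∈ Ph G g l l) : G.R g n a ∈ Ph G g l l := by
  obtain ⟨ha1, x, hx, hxa⟩ := ha
  have hxN := D.TN h1 h2 hx
  refine ⟨by rw [LinearIsometryEquiv.norm_map, ha1], n * x * n⁻¹, ?_, fun v => ?_⟩
  · obtain ⟨γ, hγ, rfl⟩ := hx
    exact ⟨n * γ, mul_mem hn.2 hγ, by group⟩
  · rw [G.R_mul_apply g (mul_mem hn.1 hxN.1) (inv_mem hn.1), G.R_mul_apply g hn.1 hxN.1, hxa,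
      map_sref, G.R_inv_apply g hn.1]

theorem Dat.ne {l : ℕ} (h1 : j1 + 2 ≤ l) (h2 : l + 2 ≤ j2) (g : Γ) :
    ∃ a ∈ Ph G g l l, RootAt G q j1 g l a ∧ ∀ v, G.R g (G.ρ l) v = sref a v := by
  obtain ⟨a, ha, ha'⟩ := D.root h1 h2 g
  exact ⟨a, ⟨ha.norm, G.ρ l, ⟨1, one_mem _, by simp⟩, ha'⟩, ha, ha'⟩

theorem Dat.span (hKK : S_KK) {l : ℕ} (h1 : j1 + 2 ≤ l) (h2 : l + 2 ≤ j2) (g : Γ) :
    Submodule.span ℝ (Ph G g l l) = G.Y g l := by
  obtain ⟨hmem, -, hirr, -⟩ := hKK d k Γ X G u q j1 j2 hS g l (by omega) (by omega)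
  have hle : Submodule.span ℝ (Ph G g l l) ≤ G.Y g l := Submodule.span_le.2 (D.sub h1 h2 g)
  rcases hirr _ hle (fun h hh w hw => by
    obtain ⟨n, hn, rfl⟩ := (hmem h).1 hh
    induction hw using Submodule.span_induction with
    | mem x hx => exact Submodule.subset_span (D.inv h1 h2 g hn hx)
    | zero => rw [map_zero]; exact zero_mem _
    | add x y _ _ hx hy => rw [map_add]; exact add_mem hx hy
    | smul c x _ hx => rw [map_smul]; exact Submodule.smul_mem _ c hx) with h | h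
  · exfalso
    obtain ⟨a, ha, -⟩ := D.ne h1 h2 g
    have h3 : a ∈ Submodule.span ℝ (Ph G g l l) := Submodule.subset_span ha
    rw [h, Submodule.mem_bot] at h3
    have h4 := ha.1
    rw [h3, norm_zero] at h4
    exact zero_ne_one h4
  · exact h

theorem Dat.rs {l : ℕ} (h1 : j1 + 2 ≤ l) (h2 : l + 2 ≤ j2) (g : Γ) :
    IsRS (Ph G g l l) := by
  refine ⟨?_, ?_, fun a ha => ha.1, ?_⟩
  · have hu := hS.win.hu
    have huj := hS.huj
    have hT : (TT G l l).Finite := by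
      have hup : Finite (G.up l) := G.finite_up (by omega)
      refine (Set.finite_range (fun γ : G.up l => γ.1 * G.ρ l * γ.1⁻¹)).subset ?_
      rintro x ⟨γ, hγ, rfl⟩
      exact ⟨⟨γ, hγ⟩, rfl⟩
    have hfin : (⋃ x ∈ TT G l l, {a : E d | ‖a‖ = 1 ∧ ∀ v, G.R g x v = sref a v}).Finite := by
      refine Set.Finite.biUnion hT ?_
      intro x _
      by_cases hne : ∃ b : E d, ‖b‖ = 1 ∧ ∀ v, G.R g x v = sref b v
      · obtain ⟨b, hb, hb'⟩ := hne
        refine (Set.toFinite {b, -b}).subset ?_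
        rintro a ⟨ha, ha'⟩
        exact pm_of_sref ha hb (fun v => by rw [← ha' v, hb' v])
      · refine (Set.finite_empty).subset ?_
        intro a ha
        exact hne ⟨a, ha⟩
    refine hfin.subset ?_
    rintro a ⟨ha, x, hx, hxa⟩
    exact Set.mem_biUnion hx ⟨ha, hxa⟩
  · obtain ⟨a, ha, -⟩ := D.ne h1 h2 g
    exact ⟨a, ha⟩
  · rintro a ⟨ha, x, hx, hxa⟩ b hb
    rw [← hxa b]
    exact D.inv h1 h2 g (D.TN h1 h2 hx) hb

/-- all elements of `TT l l` are conjugate under `N_l` -/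
theorem Dat.conjN {l : ℕ} (h1 : j1 + 2 ≤ l) (h2 : l + 2 ≤ j2) {x : Γ}
    (hx : x ∈ TT G l l) : ∃ n ∈ G.Ni l, x = n * G.ρ l * n⁻¹ := by
  obtain ⟨γ, hγ, rfl⟩ := hx
  have huj := hS.huj
  have hjq := hS.hjq
  obtain ⟨a, ha, n, hn, rfl⟩ := hS.win.plat γ (G.up_anti (by omega) hγ)
  have ha' : a ∈ G.up l := G.up_anti (by omega) ha
  have hnl : n ∈ G.up l := by
    have := (G.up l).mul_mem ((G.up l).inv_mem ha') hγ
    rwa [inv_mul_cancel_left] at this
  refine ⟨a * n * a⁻¹, ⟨G.conj_mem_N a hn,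
    (G.up l).mul_mem ((G.up l).mul_mem ha' hnl) ((G.up l).inv_mem ha')⟩, ?_⟩
  have hc : G.ρ l * a = a * G.ρ l := G.comm_up (by omega) ha
  have hc' : a * G.ρ l * a⁻¹ = G.ρ l := by rw [← hc, mul_inv_cancel_right]
  have e : a * n * G.ρ l * (a * n)⁻¹ = a * n * a⁻¹ * (a * G.ρ l * a⁻¹) * (a * n * a⁻¹)⁻¹ := by
    group
  rw [e, hc']

theorem Dat.hom (hKK : S_KK) {l : ℕ} (h1 : j1 + 2 ≤ l) (h2 : l + 2 ≤ j2) (g : Γ) :
    Hom d (G.Y g l) (KK G g l) (Ph G g l l) := by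
  obtain ⟨hmem, hpres, hirr, -⟩ := hKK d k Γ X G u q j1 j2 hS g l (by omega) (by omega)
  refine ⟨hpres, hirr, D.rs h1 h2 g, D.sub h1 h2 g, ?_, ?_⟩
  · intro h hh b hb
    obtain ⟨n, hn, rfl⟩ := (hmem h).1 hh
    exact D.inv h1 h2 g hn hb
  · -- every root is, up to sign, the image of the root of `ρ l`
    obtain ⟨a0, ha0, -, ha0'⟩ := D.ne h1 h2 g
    have key : ∀ b ∈ Ph G g l l, ∃ n ∈ G.Ni l, b = G.R g n a0 ∨ b = -G.R g n a0 := by
      rintro b ⟨hb, x, hx, hxb⟩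
      obtain ⟨n, hn, rfl⟩ := D.conjN h1 h2 hx
      refine ⟨n, hn, ?_⟩
      have hρN := (D.refl l h1 h2).1
      apply pm_of_sref hb
      · rw [LinearIsometryEquiv.norm_map, ha0.1]
      · intro v
        rw [← hxb v, G.R_mul_apply g (mul_mem hn.1 hρN) (inv_mem hn.1), G.R_mul_apply g hn.1 hρN,
          ha0', map_sref, G.R_inv_apply g hn.1]
    intro b hb c hc
    obtain ⟨n, hn, hb'⟩ := key b hb
    obtain ⟨m, hm, hc'⟩ := key c hc
    refine ⟨G.R g (m * n⁻¹), (hmem _).2 ⟨m * n⁻¹, mul_mem hm (inv_mem hn), rfl⟩, ?_⟩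
    have h3 : G.R g (m * n⁻¹) (G.R g n a0) = G.R g m a0 := by
      rw [G.R_mul_apply g hm.1 (inv_mem hn.1), G.R_inv_apply' g hn.1]
    rcases hb' with rfl | rfl <;> rcases hc' with rfl | rfl
    · exact Or.inl h3
    · right
      rw [h3, neg_neg]
    · right
      rw [map_neg, h3]
    · left
      rw [map_neg, h3]

/-- `ρ (l + 1)` is conjugate to `ρ l` under `up l` -/
theorem Dat.conj_succ {l : ℕ} (h1 : j1 + 2 ≤ l) (h2 : l + 3 ≤ j2) :
    ∃ δ ∈ G.up l, G.ρ (l + 1) = δ * G.ρ l * δ⁻¹ := by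
  have hb := D.braid l h1 h2
  refine ⟨G.ρ l * G.ρ (l + 1), mul_mem (G.ρ_mem_up le_rfl) (G.ρ_mem_up (by omega)), ?_⟩
  set a := G.ρ l with ha
  set b := G.ρ (l + 1) with hb'
  have haa : a⁻¹ = a := G.inv_ρ l
  have hbb : b⁻¹ = b := G.inv_ρ (l + 1)
  rw [mul_inv_rev, haa, hbb]
  have e1 : (a * b) ^ 3 = a * b * a * (b * a * b) := by
    rw [pow_succ, pow_two]
    group
  rw [e1] at hb
  have e2 : a * b * a = (b * a * b)⁻¹ := eq_inv_of_mul_eq_one_left hb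
  have e3 : (b * a * b)⁻¹ = b * a * b := by
    rw [mul_inv_rev, mul_inv_rev, haa, hbb, mul_assoc]
  rw [e3] at e2
  have e4 : a * b * a * (b * a) = (a * b * a) * b * a := by group
  rw [e4, e2]
  have e5 : b * a * b * b * a = b * a * (b * b) * a := by group
  rw [e5, G.sq (l + 1), mul_one, mul_assoc, G.sq l, mul_one]

theorem Dat.next {l : ℕ} (h1 : j1 + 2 ≤ l) (h2 : l + 3 ≤ j2) :
    TT G (l + 1) (l + 1) ⊆ TT G l l := by
  rintro x ⟨γ, hγ, rfl⟩
  obtain ⟨δ, hδ, e⟩ := D.conj_succ h1 h2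
  refine ⟨γ * δ, mul_mem (G.up_anti (by omega) hγ) hδ, ?_⟩
  rw [e]
  group

theorem Dat.irr (hC : S_COMP) (hKK : S_KK) {l : ℕ} (h1 : j1 + 2 ≤ l)
    (h2 : l + 3 ≤ j2) (g : Γ) : IrrRS (Ph G g l l) := by
  have hom := D.hom hKK h1 (by omega) g
  have huj := hS.huj
  have hjq := hS.hjq
  obtain ⟨hmem, -, -, hst⟩ := hKK d k Γ X G u q j1 j2 hS g l (by omega) (by omega)
  -- a unit vector of `D_l`
  have hl := hS.win.line g l (by omega) (by omega)
  obtain ⟨e, heD, hen⟩ : ∃ e ∈ G.D g l, ‖e‖ = 1 := by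
    have : G.D g l ≠ ⊥ := by
      intro h
      rw [h, finrank_bot] at hl
      exact zero_ne_one hl
    obtain ⟨e0, h3, h4⟩ := Submodule.exists_mem_ne_zero_of_ne_bot this
    refine ⟨‖e0‖⁻¹ • e0, Submodule.smul_mem _ _ h3, ?_⟩
    rw [norm_smul, norm_inv, norm_norm, inv_mul_cancel₀ (norm_ne_zero_iff.2 h4)]
  have hStb := (hst (by omega) e heD hen).1
  have hle : KK G g (l + 1) ≤ KK G g l := by
    apply Subgroup.closure_mono
    rintro h ⟨n, hn, rfl⟩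
    exact ⟨n, G.Ni_anti (Nat.le_succ l) hn, rfl⟩
  rcases hC d (G.Y g l) (KK G g l) (KK G g (l + 1)) (Ph G g l l) e hom hle hStb with h | h
  · exact h
  · exfalso
    obtain ⟨a, ha, haR, -⟩ := D.ne h1 (by omega) g
    obtain ⟨b, hb, hbR, hb'⟩ := D.ne (l := l + 1) (by omega) (by omega) g
    have hbl : b ∈ Ph G g l l := by
      obtain ⟨hb1, x, hx, hxb⟩ := hb
      exact ⟨hb1, x, D.next h1 h2 hx, hxb⟩
    have h5 := (D.runs g).2 l a b h1 h2 haR hbR
    rcases h a ha b hbl with h6 | h6 | h6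
    · rw [h6] at h5
      norm_num at h5
    · rw [h6, real_inner_self_eq_norm_sq, hb.1] at h5
      norm_num at h5
    · rw [h6, inner_neg_left, real_inner_self_eq_norm_sq, hb.1] at h5
      norm_num at h5

theorem Dat.sl (hC : S_COMP) (hSL : S_SL) (hKK : S_KK) {l : ℕ} (h1 : j1 + 2 ≤ l)
    (h2 : l ≤ j1 + 5) (g : Γ) : SL (Ph G g l l) := by
  have hj := hS.hj
  have hk := G.k_ge_two
  have hdim := hS.dimY g l (by omega) h2
  exact hSL d _ (G.Y g l) (KK G g l) (Ph G g l l) (D.hom hKK h1 (by omega) g) rfl (by omega)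
    (D.irr hC hKK h1 (by omega) g)

theorem Dat.fixD (hKK : S_KK) {l : ℕ} (h1 : j1 + 2 ≤ l) (h2 : l + 3 ≤ j2) (g : Γ)
    {w : E d} (hw : w ∈ G.Y g l) (hx : ∀ x ∈ TT G (l + 1) (l + 1), G.R g x w = w) :
    w ∈ G.D g l := by
  have huj := hS.huj
  have hjq := hS.hjq
  -- `w` is orthogonal to `Y_{l+1}`
  have hperp : ∀ v ∈ G.Y g (l + 1), ⟪v, w⟫ = (0 : ℝ) := by
    intro v hv
    rw [← D.span hKK (l := l + 1) (by omega) (by omega) g] at hv
    induction hv using Submodule.span_induction with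
    | mem a ha =>
      obtain ⟨ha1, x, hxT, hxa⟩ := ha
      have h3 := hx x hxT
      rw [hxa] at h3
      exact perp_of_fix ha1 h3
    | zero => exact inner_zero_left _
    | add x y _ _ hx hy => rw [inner_add_left, hx, hy, add_zero]
    | smul c x _ hx => rw [inner_smul_left, hx, mul_zero]
  have hl := hS.win.line g l (by omega) (by omega)
  obtain ⟨e, heD, hen⟩ : ∃ e ∈ G.D g l, ‖e‖ = 1 := by
    have : G.D g l ≠ ⊥ := by
      intro h
      rw [h, finrank_bot] at hl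
      exact zero_ne_one hl
    obtain ⟨e0, h3, h4⟩ := Submodule.exists_mem_ne_zero_of_ne_bot this
    refine ⟨‖e0‖⁻¹ • e0, Submodule.smul_mem _ _ h3, ?_⟩
    rw [norm_smul, norm_inv, norm_norm, inv_mul_cancel₀ (norm_ne_zero_iff.2 h4)]
  obtain ⟨-, -, -, hst⟩ := hKK d k Γ X G u q j1 j2 hS g l (by omega) (by omega)
  have hEq := (hst (by omega) e heD hen).2
  have hee : ⟪e, e⟫ = (1 : ℝ) := by rw [real_inner_self_eq_norm_sq, hen]; norm_num
  set w' : E d := w - ⟪e, w⟫ • e with hw'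
  have hew' : ⟪e, w'⟫ = (0 : ℝ) := by
    rw [hw', inner_sub_right, inner_smul_right, hee, mul_one, sub_self]
  have hw'Y : w' ∈ G.Y g (l + 1) := by
    rw [← hEq]
    refine ⟨sub_mem hw (Submodule.smul_mem _ _ (G.D_le_Y g l heD)), ?_⟩
    rw [SetLike.mem_coe, Submodule.mem_orthogonal_singleton_iff_inner_right]
    exact hew'
  have h0 : ⟪w', w'⟫ = (0 : ℝ) := by
    conv_lhs => rw [hw']
    rw [← hw', inner_sub_left, inner_smul_left, hew', mul_zero, sub_zero, real_inner_comm]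
    exact hperp w' hw'Y
  have h00 : w' = 0 := inner_self_eq_zero.1 h0
  have hfin : w = ⟪e, w⟫ • e := by
    rw [hw', sub_eq_zero] at h00
    exact h00
  rw [hfin]
  exact Submodule.smul_mem _ _ heD

end

end NINE

open NINE in
theorem t_NINE : M_NINE := by
  intro hC hSL hKK _ d k Γ _ X _ G u q j1 j2 hS hruns hbraid hrefl m hm1 hm2
  have D : Dat G hS := ⟨hruns, hbraid, hrefl⟩
  have hk := G.k_ge_two
  have hj := hS.hj
  have huj := hS.huj
  have hjq := hS.hjq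
  refine
    { hm := by omega
      TN := D.TN (by omega) (by omega)
      N0 := (hrefl (m - 1) (by omega) (by omega)).1
      root0 := ?_
      root := ?_
      sub := D.sub (by omega) (by omega)
      span := D.span hKK (by omega) (by omega)
      rs := D.rs (by omega) (by omega)
      irr := D.irr hC hKK (by omega) (by omega)
      sl := D.sl hC hSL hKK (by omega) (by omega)
      next := D.next (by omega) (by omega)
      fixD := fun g w hw hx => D.fixD hKK (by omega) (by omega) g hw hx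
      Dfix := ?_
      DY := fun g => G.D_le_Y g m
      VY := ?_
      line := fun g => hS.win.line g m (by omega) (by omega) }
  · intro g
    obtain ⟨a, ha, ha'⟩ := D.root (l := m - 1) (by omega) (by omega) g
    refine ⟨a, ?_, ha'⟩
    have h1 := ha.mem
    have e : m - 1 + 1 = m := by omega
    rw [e] at h1
    exact h1
  · intro g x hx
    obtain ⟨a, -, ha, ha'⟩ := D.rootT (by omega) (by omega) g hx
    exact ⟨a, ⟨ha, x, hx, ha'⟩, ha'⟩
  · intro g w hw x hx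
    exact G.D_le_V g m hw x (D.TN (l := m + 1) (by omega) (by omega) hx)
  · intro g v hv
    rw [Submodule.mem_orthogonal]
    intro y hy
    have h1 := G.Y_le_U g m hy
    rw [AGeo.U, Submodule.mem_orthogonal] at h1
    rw [real_inner_comm]
    exact h1 v hv

end

end FOI
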