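import Pool.Agent.FOI.AStmts1

/-!
# Orders of the middle subgroups
-/

namespace FOI

open Lib_helper64.FO FO2 FOK
open scoped RealInnerProductSpace Nat

noncomputable section

namespace ORD

variable {d k : ℕ} {Γ : Type} [Group Γ] {X : Type} [MulAction Γ X] (G : AGeo d k Γ X)

theorem ρ_notMem_up {a : ℕ} (ha : a < d) : G.ρ a ∉ G.up (a + 1) := by
  intro h
  have h1 : G.ρ a ∈ gpar G.ρ {a} ⊓ gpar G.ρ {j | a + 1 ≤ j} :=
    ⟨Subgroup.subset_closure ⟨a, rfl, rfl⟩, h⟩
  rw [G.inter] at h1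
  have e : ({a} ∩ {j : ℕ | a + 1 ≤ j}) = ∅ := by
    ext j
    simp only [Set.mem_inter_iff, Set.mem_singleton_iff, Set.mem_ofPred_eq,
      Set.mem_empty_iff_false, iff_false]
    omega
  rw [e, gpar, Set.image_empty, Subgroup.closure_empty, Subgroup.mem_bot] at h1
  exact G.ne_one a ha h1

theorem mid_le {a b : ℕ} : G.mid (a + 1) b ≤ G.mid a b := G.mid_mono (by omega) le_rfl

theorem card_mul (a b : ℕ) :
    Nat.card (G.mid (a + 1) b) * (G.mid (a + 1) b).relIndex (G.mid a b) = Nat.card (G.mid a b) := by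
  have h := Subgroup.relIndex_mul_relIndex ⊥ (G.mid (a + 1) b) (G.mid a b) bot_le (mid_le G)
  rwa [Subgroup.relIndex_bot_left, Subgroup.relIndex_bot_left] at h

/-- the map between the sets of cosets -/
def cmap (a b : ℕ) (hab : a < b) :
    (G.mid (a + 1) b ⧸ (G.mid (a + 2) b).subgroupOf (G.mid (a + 1) b)) →
      (G.mid a b ⧸ (G.mid (a + 1) b).subgroupOf (G.mid a b)) :=
  Quotient.map' (fun γ : G.mid (a + 1) b =>
      (⟨(γ : Γ) * G.ρ a, mul_mem (mid_le G γ.2) (G.ρ_mem_mid le_rfl hab)⟩ : G.mid a b)) (by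
    intro x y hxy
    rw [QuotientGroup.leftRel_apply, Subgroup.mem_subgroupOf] at hxy ⊢
    have hxy' : (x : Γ)⁻¹ * (y : Γ) ∈ G.mid (a + 2) b := hxy
    change ((x : Γ) * G.ρ a)⁻¹ * ((y : Γ) * G.ρ a) ∈ G.mid (a + 1) b
    have e : ((x : Γ) * G.ρ a)⁻¹ * ((y : Γ) * G.ρ a) = (x : Γ)⁻¹ * (y : Γ) := by
      have h1 := G.comm_up (i := a) (j := a + 2) le_rfl (G.mid_le_up _ _ hxy')
      rw [mul_inv_rev, G.inv_ρ]
      calc G.ρ a * (x : Γ)⁻¹ * ((y : Γ) * G.ρ a) = (G.ρ a * ((x : Γ)⁻¹ * (y : Γ))) * G.ρ a := by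
            group
        _ = (x : Γ)⁻¹ * (y : Γ) := by rw [h1, mul_assoc, G.sq, mul_one]
    rw [e]
    exact mid_le G hxy')

theorem cmap_inj (a b : ℕ) (hab : a < b) : Function.Injective (cmap G a b hab) := by
  intro p q
  induction p using Quotient.inductionOn' with
  | h x =>
    induction q using Quotient.inductionOn' with
    | h y =>
      intro h
      have h1 : (((⟨(x : Γ) * G.ρ a, mul_mem (mid_le G x.2) (G.ρ_mem_mid le_rfl hab)⟩ : G.mid a b) :
          G.mid a b ⧸ (G.mid (a + 1) b).subgroupOf (G.mid a b)))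
          = ((⟨(y : Γ) * G.ρ a, mul_mem (mid_le G y.2) (G.ρ_mem_mid le_rfl hab)⟩ : G.mid a b) :
          G.mid a b ⧸ (G.mid (a + 1) b).subgroupOf (G.mid a b)) := h
      rw [QuotientGroup.eq, Subgroup.mem_subgroupOf] at h1
      have h2 : ((x : Γ) * G.ρ a)⁻¹ * ((y : Γ) * G.ρ a) ∈ G.mid (a + 1) b := h1
      have h3 : G.ρ a * ((x : Γ)⁻¹ * (y : Γ)) * G.ρ a ∈ G.mid (a + 1) b := by
        have e : ((x : Γ) * G.ρ a)⁻¹ * ((y : Γ) * G.ρ a)
            = G.ρ a * ((x : Γ)⁻¹ * (y : Γ)) * G.ρ a := by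
          rw [mul_inv_rev, G.inv_ρ]; group
        rwa [e] at h2
      have h4 : (x : Γ)⁻¹ * (y : Γ) ∈ G.mid (a + 1) b := mul_mem (inv_mem x.2) y.2
      have h5 := G.L2 (i := a) (G.mid_le_up _ _ h4) (G.mid_le_up _ _ h3)
      have h6 := G.mid_inf_up h4 h5 (by omega)
      have h7 : ((x : G.mid (a + 1) b ⧸ (G.mid (a + 2) b).subgroupOf (G.mid (a + 1) b))) = y := by
        rw [QuotientGroup.eq, Subgroup.mem_subgroupOf]
        exact h6
      exact h7

theorem cmap_ne (a b : ℕ) (hab : a < b) (had : a < d)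
    (p : G.mid (a + 1) b ⧸ (G.mid (a + 2) b).subgroupOf (G.mid (a + 1) b)) :
    cmap G a b hab p ≠ ((1 : G.mid a b) : G.mid a b ⧸ (G.mid (a + 1) b).subgroupOf (G.mid a b)) := by
  induction p using Quotient.inductionOn' with
  | h x =>
    intro h
    have h1 : (((1 : G.mid a b) : G.mid a b ⧸ (G.mid (a + 1) b).subgroupOf (G.mid a b)))
        = ((⟨(x : Γ) * G.ρ a, mul_mem (mid_le G x.2) (G.ρ_mem_mid le_rfl hab)⟩ : G.mid a b) :
          G.mid a b ⧸ (G.mid (a + 1) b).subgroupOf (G.mid a b)) := h.symm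
    rw [QuotientGroup.eq, Subgroup.mem_subgroupOf] at h1
    have h2 : (1 : Γ)⁻¹ * ((x : Γ) * G.ρ a) ∈ G.mid (a + 1) b := h1
    rw [inv_one, one_mul] at h2
    have h3 : G.ρ a ∈ G.mid (a + 1) b := by
      have := mul_mem (inv_mem x.2) h2
      rwa [inv_mul_cancel_left] at this
    exact ρ_notMem_up G had (G.mid_le_up _ _ h3)

theorem index_succ (a b : ℕ) (ha : 1 ≤ a) (hab : a < b) (had : a < d) :
    (G.mid (a + 2) b).relIndex (G.mid (a + 1) b) + 1 ≤ (G.mid (a + 1) b).relIndex (G.mid a b) := by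
  have hf1 : Finite (G.mid (a + 1) b) := G.finite_mid (by omega)
  have hf2 : Finite (G.mid a b) := G.finite_mid ha
  have hinj : Function.Injective (fun o : Option
      (G.mid (a + 1) b ⧸ (G.mid (a + 2) b).subgroupOf (G.mid (a + 1) b)) =>
      o.elim ((1 : G.mid a b) : G.mid a b ⧸ (G.mid (a + 1) b).subgroupOf (G.mid a b))
        (cmap G a b hab)) := by
    rintro (_ | p) (_ | q) h
    · rfl
    · exact absurd h.symm (cmap_ne G a b hab had q)
    · exact absurd h (cmap_ne G a b hab had p)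
    · exact congrArg some (cmap_inj G a b hab h)
  have h := Nat.card_le_card_of_injective _ hinj
  rw [Finite.card_option] at h
  exact h

theorem index_ge (n : ℕ) : ∀ a b : ℕ, 1 ≤ a → a + n + 1 = b → b ≤ d →
    n + 2 ≤ (G.mid (a + 1) b).relIndex (G.mid a b) := by
  induction n with
  | zero =>
    intro a b ha hab hbd
    have hf1 : Finite (G.mid (a + 1) b) := G.finite_mid (by omega)
    have h1 := index_succ G a b ha (by omega) (by omega)
    have h2 : 0 < (G.mid (a + 2) b).relIndex (G.mid (a + 1) b) := by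
      rw [Nat.pos_iff_ne_zero]
      exact Subgroup.index_ne_zero_of_finite
    omega
  | succ n ih =>
    intro a b ha hab hbd
    have h1 := index_succ G a b ha (by omega) (by omega)
    have h2 := ih (a + 1) b (by omega) (by omega) hbd
    have e : a + 1 + 1 = a + 2 := rfl
    rw [e] at h2
    omega

end ORD

open ORD

theorem t_ORD : S_ORD := by
  intro d k Γ _ X _ G a b ha hab hbd
  obtain ⟨n, rfl⟩ := Nat.exists_eq_add_of_le hab
  induction n generalizing a with
  | zero =>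
    have hf : Finite (G.mid a (a + 0)) := G.finite_mid ha
    have : 0 < Nat.card (G.mid a (a + 0)) := Nat.card_pos
    have e : (a + 0 - a + 1) ! = 1 := by
      have : a + 0 - a + 1 = 1 := by omega
      rw [this]; rfl
    omega
  | succ n ih =>
    have h1 := ih (a + 1) (by omega) (by omega) (by omega)
    have e0 : a + 1 + n = a + (n + 1) := by omega
    rw [e0] at h1
    have h2 := index_ge G n a (a + (n + 1)) ha (by omega) hbd
    rw [← card_mul G a (a + (n + 1))]
    have e1 : a + (n + 1) - (a + 1) + 1 = n + 1 := by omega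
    have e2 : a + (n + 1) - a + 1 = n + 1 + 1 := by omega
    rw [e1] at h1
    rw [e2, Nat.factorial_succ, mul_comm]
    exact Nat.mul_le_mul h1 h2

end

end FOI
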