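import Pool.Agent.FOI.AStmts2

/-!
# 7.6: the run of reflections
-/

namespace FOI

open Lib_helper64.FO FO2 FOK
open scoped RealInnerProductSpace Nat

noncomputable section

theorem RUN.mono {d k : ℕ} {Γ : Type} [Group Γ] {X : Type} [MulAction Γ X] (G : AGeo d k Γ X)
    {q j1 j2 b b' : ℕ} {g : Γ} (h : RootsFrom G q j1 j2 b g) (hb : b ≤ b') :
    RootsFrom G q j1 j2 b' g :=
  ⟨fun l hl h2 => h.1 l (hb.trans hl) h2,
    fun l a a' hl h2 ha ha' => h.2 l a a' (hb.trans hl) h2 ha ha'⟩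

theorem RUN.unit {d : ℕ} (L : Submodule ℝ (E d)) (h : Module.finrank ℝ L = 1) :
    ∃ e ∈ L, ‖e‖ = 1 := by
  have hpos : 0 < Module.finrank ℝ L := by omega
  obtain ⟨x, hx⟩ := Module.finrank_pos_iff_exists_ne_zero.1 hpos
  have hx' : (x : E d) ≠ 0 := fun h => hx (Subtype.ext h)
  refine ⟨(‖(x : E d)‖)⁻¹ • (x : E d), L.smul_mem _ x.2, ?_⟩
  rw [norm_smul, norm_inv, norm_norm, inv_mul_cancel₀ (norm_ne_zero_iff.2 hx')]

theorem t_RUN : M_RUN := by
  intro hCOMP hSL hAD hAUT hFR hVA hVD hKK hE0 hEA0 hEA hED hEX hEP d k Γ _ X _ G u q j1 j2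
    hS g
  obtain ⟨a, Φ, ha1, haΦ, ham, han1, han2, hKG, hHom⟩ := hE0 d k Γ X G u q j1 j2 hS g
  have hk := G.k_ge_two
  have hj := hS.hj
  have huj := hS.huj
  have hjq := hS.hjq
  obtain ⟨e, he, hen⟩ := RUN.unit (G.D g j1) (hS.win.line g j1 (by omega) (by omega))
  have hStb : Stb d (G.Y g j1) (KK G g (j1 + 1)) e :=
    ((hKK d k Γ X G u q j1 j2 hS g j1 le_rfl (by omega)).2.2.2 (by omega) e he hen).1
  obtain ⟨n, hn⟩ : ∃ n, Module.finrank ℝ (G.Y g j1) = n := ⟨_, rfl⟩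
  have hn32 : 32 ≤ n := by
    have := hS.dimY g j1 le_rfl (by omega)
    omega
  have hPA : ∀ v : Fin (n + 1) → E d, PermA (GG G q j1 j2 g) v → PermA (KK G g (j1 + 1)) v :=
    fun v h x hx => h x (hKG hx)
  have hPD : ∀ v : Fin n → E d, PermD (GG G q j1 j2 g) v → PermD (KK G g (j1 + 1)) v :=
    fun v h x hx => h x (hKG hx)
  have caseD : ∀ w : Fin n → E d, (∀ i, w i ∈ G.Y g j1) → Orthonormal ℝ w →
      PermD (GG G q j1 j2 g) w → RootsFrom G q j1 j2 (j1 + 2) g := by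
    intro w hw hwo hP
    rcases hVD d n (G.Y g j1) (KK G g (j1 + 1)) w e (by omega) hn hw hwo (hPD w hP) hStb with h | h
    · exact hEP d k Γ X G u q j1 j2 hS g
        (hEX d k Γ X G u q j1 j2 hS g e n w hn hw hwo hP he h)
    · exact RUN.mono G (hED d k Γ X G u q j1 j2 hS g e n w hn hw hwo hP he hen h) (by omega)
  rcases hCOMP d (G.Y g j1) (GG G q j1 j2 g) (KK G g (j1 + 1)) Φ e hHom hKG hStb with hI | hF
  · have hsl := hSL d n (G.Y g j1) (GG G q j1 j2 g) Φ hHom hn (by omega) hI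
    rcases hAD d n _ _ Φ hHom hn (by omega) hI hsl with ⟨v, hv⟩ | ⟨w, hw⟩
    · have hP := (hAUT d n _ _ Φ hHom hn (by omega)).1 v hv
      have hnot := hEA0 d k Γ X G u q j1 j2 hS g a e Φ n v hn haΦ ham han1 han2 hv hP he hen
      rcases hVA d n _ _ v e (by omega) hn hv.mem hv.gram (hPA v hP) hStb with h | ⟨B, c, hB, hc⟩
      · exact RUN.mono G (hEA d k Γ X G u q j1 j2 hS g e n v hn hv.mem hv.gram hP he h)
          (by omega)
      · exact absurd hc (hnot B c hB)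
    · exact caseD w hw.mem hw.orth ((hAUT d n _ _ Φ hHom hn (by omega)).2 w hw)
  · obtain ⟨w, hw, hP⟩ := hFR d n _ _ Φ hHom hn hF
    exact caseD w hw.mem hw.orth hP

end

end FOI
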