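import Pool.Agent.FOI.AStmts1

/-!
# Section 4.1: the span of `XX q p`
-/

namespace FOI

open Lib_helper64.FO FO2 FOK
open scoped RealInnerProductSpace Nat

noncomputable section

namespace S1

variable {d k : ℕ} {Γ : Type} [Group Γ] {X : Type} [MulAction Γ X] (G : AGeo d k Γ X)

/-- The set `XX q p` is `N_p (dn q) x0`. -/
theorem XX_eq {u q p : ℕ} (hw : Win G u q) (hp : u ≤ p) (hpq : p ≤ q + 1) {y : X}
    (hy : y ∈ G.XX q p) : ∃ n ∈ G.Ni p, ∃ b ∈ G.dn q, y = n • b • G.x0 := by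
  obtain ⟨γ, hγ, b, hb, rfl⟩ := hy
  obtain ⟨a, ha, n, hn, rfl⟩ := hw.plat γ (G.up_anti hp hγ)
  have ha' : a ∈ G.up p := G.up_anti hpq ha
  have hnp : n ∈ G.up p := by
    have h1 : a⁻¹ * (a * n) ∈ G.up p := (G.up p).mul_mem ((G.up p).inv_mem ha') hγ
    rwa [inv_mul_cancel_left] at h1
  have hn' : n ∈ G.Ni p := ⟨hn, hnp⟩
  refine ⟨a * n * a⁻¹, G.conj_up ha' hn', b, hb, ?_⟩
  have h2 : a • b • G.x0 = b • G.x0 := G.up_fix ha hb
  conv_rhs => rw [← h2]
  rw [← mul_smul (a * n * a⁻¹) a]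
  congr 1
  group

end S1

theorem t_S1 : M_S1 := by
  intro hSTEP hY hPL hIRR d k Γ _ X _ G u q hw g p hup hpq
  have hpq' : p ≤ q := by omega
  have hp1 : 1 ≤ p := hw.hu.trans hup
  -- the space `V_{q+1}`
  have hV : G.V g (q + 1) ≤ G.V g p ⊔ G.Y g p := by
    have h1 := (hPL d k Γ X G u q hw g).2.2 p (q + 1) hup (by omega) le_rfl
    rw [h1]
    refine sup_le_sup_left ?_ _
    refine iSup₂_le fun m hm => ?_
    rw [Finset.mem_Ico] at hm
    exact hIRR d k Γ X G u q hw g p hup hpq m hm.1 (by omega)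
  -- (B)
  have hB : G.S q g p ≤ G.V g p ⊔ G.Y g p := by
    rw [AGeo.S, Submodule.span_le]
    rintro _ ⟨y, hy, rfl⟩
    obtain ⟨n, hn, b, hb, rfl⟩ := S1.XX_eq G hw hup (by omega) hy
    rw [← G.R_Fi g hp1 hn]
    have h2 := hV (G.F_mem_V g hb)
    obtain ⟨v, hv, w, hw', hvw⟩ := Submodule.mem_sup.1 h2
    rw [← hvw, map_add]
    exact Submodule.add_mem_sup (by rw [hv n hn]; exact hv) (G.R_mem_Y hn hw')
  -- (A)
  have hA : G.Y g p ≤ G.S q g p := by
    have h1 := (hY d k Γ X G u q hw g p hup hpq').2.1 (G.S q g p)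
      (fun n hn w hw' => G.R_mem_S hp1 hn hw') p le_rfl hpq'
    rcases h1 with h1 | h1
    · rw [AGeo.Y, Submodule.span_le]
      rintro _ ⟨n, hn, e, he, rfl⟩
      exact G.R_mem_S hp1 hn (h1 he)
    · exfalso
      have hNZ : G.NZ p := hw.nz p hp1 (by have := hw.hq; omega)
      apply (hSTEP d k Γ X G g).1 p hp1 hNZ
      rw [AGeo.W, Submodule.span_le]
      rintro _ ⟨a, ha, rfl⟩
      have h2 : G.F g (a • G.x0) ∈ G.V g (p + 1) := G.F_mem_V g ha
      have h3 : G.F g (a • G.x0) ∈ G.S q g p := G.F_mem_S g (G.dn_mem_XX (G.dn_mono hpq' ha))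
      -- decompose along `V_p`
      obtain ⟨v, hv, w, hw', hvw⟩ := (G.V g p).exists_add_mem_mem_orthogonal (G.F g (a • G.x0))
      have hwD : w ∈ G.D g p := by
        refine ⟨?_, hw'⟩
        have h4 : w = G.F g (a • G.x0) - v := by rw [hvw]; abel
        rw [h4]
        exact sub_mem h2 (G.V_mono g (Nat.le_succ p) hv)
      have h5 : ⟪G.F g (a • G.x0), w⟫ = 0 := (Submodule.mem_orthogonal _ _).1 (h1 hwD) _ h3
      have h6 : ⟪v, w⟫ = 0 := (Submodule.mem_orthogonal _ _).1 hw' _ hv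
      have h7 : w = 0 := by
        rw [hvw, inner_add_left, h6, zero_add] at h5
        exact inner_self_eq_zero.1 h5
      rw [hvw, h7, add_zero]
      exact hv
  refine ⟨hA, hB, le_antisymm ?_ (le_inf hA (G.Y_le_U g p))⟩
  intro x hx
  obtain ⟨v, hv, y, hy, hvy⟩ := Submodule.mem_sup.1 (hB hx.1)
  have h1 : v ∈ G.U g p := by
    have h2 : v = x - y := by rw [← hvy]; abel
    rw [h2]
    exact sub_mem hx.2 (G.Y_le_U g p hy)
  have h3 : ⟪v, v⟫ = 0 := (Submodule.mem_orthogonal _ _).1 h1 _ hv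
  have h4 : v = 0 := inner_self_eq_zero.1 h3
  rw [← hvy, h4, zero_add]
  exact hy

end

end FOI
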