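import Pool.Agent.FOI.AStmts1

/-!
# Module STEP: the chain of fixed spaces (sections 1.7, 1.8), finite or infinite case
-/

namespace FOI

open Lib_helper64.FO FO2 FOK
open scoped RealInnerProductSpace Nat

noncomputable section

namespace STEP

variable {d k : ℕ} {Γ : Type} [Group Γ] {X : Type} [MulAction Γ X] (G : AGeo d k Γ X)

theorem W_mono (g : Γ) {i j : ℕ} (h : i ≤ j) : G.W g i ≤ G.W g j := by
  rw [AGeo.W, AGeo.W]
  refine Submodule.span_mono ?_
  rintro _ ⟨a, ha, rfl⟩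
  exact ⟨a, G.dn_mono h ha, rfl⟩

theorem W_not_le (g : Γ) {i : ℕ} (hi : 1 ≤ i) (h : G.NZ i) : ¬ G.W g i ≤ G.V g i := by
  intro hle
  apply h
  intro n hn
  refine G.mem_up_of_R (g := g) hn.1 (G.Ni_fix hi hn) fun a ha => ?_
  exact hle (Submodule.subset_span ⟨a, ha, rfl⟩) n hn

theorem V_lt (g : Γ) {i : ℕ} (hi : 1 ≤ i) (h : G.NZ i) : G.V g i < G.V g (i + 1) := by
  refine lt_of_le_of_ne (G.V_mono g (Nat.le_succ i)) fun e => ?_
  apply W_not_le G g hi h
  rw [e]
  exact G.W_le_V g i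

theorem V_ne (g : Γ) {i : ℕ} (hi : 1 ≤ i) (h : G.NZ (i + 1)) :
    G.V (g * G.ρ i) (i + 1) ≠ G.V g (i + 1) := by
  intro e
  apply h
  intro n hn
  refine G.L2 hn.2 (G.mem_up_of_fix fun a ha => ?_)
  have h1 : G.F g (G.ρ i • a • G.x0) ∈ G.V g (i + 1) := by
    rw [← e, ← G.F_mul g (G.stab i hi)]
    exact G.F_mem_V (g * G.ρ i) ha
  have h2 := h1 n hn
  rw [G.R_Fi g (by omega) hn] at h2
  have h3 : n • G.ρ i • a • G.x0 = G.ρ i • a • G.x0 := G.F_inj g h2
  rw [mul_smul, mul_smul, h3, ← mul_smul, G.sq, one_smul]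

theorem finrank_W (g : Γ) (m : ℕ) (h : ∀ i, 1 ≤ i → i ≤ m → G.NZ i) :
    m ≤ Module.finrank ℝ (G.W g m) := by
  induction m with
  | zero => exact Nat.zero_le _
  | succ m ih =>
    have h1 := ih fun i hi hi' => h i hi (by omega)
    have h2 : G.W g m < G.W g (m + 1) := by
      refine lt_of_le_of_ne (W_mono G g (Nat.le_succ m)) fun e => ?_
      apply W_not_le G g (by omega) (h (m + 1) (by omega) le_rfl)
      rw [← e]
      exact G.W_le_V g m
    have h3 := Submodule.finrank_lt_finrank_of_lt h2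
    omega

end STEP

open STEP in
theorem t_STEP : S_STEP := by
  intro d k Γ _ X _ G g
  exact ⟨fun i hi h => W_not_le G g hi h, fun i hi h => V_lt G g hi h,
    fun i hi h => V_ne G g hi h, fun m h => finrank_W G g m h⟩

end

end FOI
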