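import Pool.Agent.FOI.AStmts1

/-!
# Section 6.1: the structure `Sub`, finite or infinite polytopes
-/

namespace FOI

open Lib_helper64.FO FO2 FOK
open scoped RealInnerProductSpace Nat

noncomputable section

namespace SUB

variable {d k : ℕ} {Γ : Type} [Group Γ] {X : Type} [MulAction Γ X] (G : AGeo d k Γ X)

include G in
theorem dimV_step (h1 : S_STEP) (g : Γ) (hnz : ∀ i, 1 ≤ i → i + k ≤ d + 1 → G.NZ i) (p n : ℕ)
    (hp : 1 ≤ p) (h : p + n + k ≤ d + 2) :
    Module.finrank ℝ (G.V g p) + n ≤ Module.finrank ℝ (G.V g (p + n)) := by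
  induction n with
  | zero => simp
  | succ n ih =>
    have h2 := ih (by omega)
    have h3 : G.V g (p + n) < G.V g (p + n + 1) :=
      (h1 d k Γ X G g).2.1 (p + n) (by omega) (hnz _ (by omega) (by omega))
    have h4 := Submodule.finrank_lt_finrank_of_lt h3
    have e : p + (n + 1) = p + n + 1 := by omega
    rw [e]
    omega

include G in
theorem dimV_le (h1 : S_STEP) (g : Γ) (hnz : ∀ i, 1 ≤ i → i + k ≤ d + 1 → G.NZ i) (p : ℕ)
    (hp : 1 ≤ p) (h : p + k ≤ d + 2) : Module.finrank ℝ (G.V g p) + 2 ≤ p + k := by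
  have h2 := dimV_step G h1 g hnz p (d + 2 - k - p) hp (by omega)
  have h3 : Module.finrank ℝ (G.V g (p + (d + 2 - k - p))) ≤ d := by
    have := Submodule.finrank_le (G.V g (p + (d + 2 - k - p)))
    rwa [finrank_euclideanSpace_fin] at this
  omega

theorem pow5 (k : ℕ) : k ≤ k ^ 5 := Nat.le_self_pow (by norm_num) k

end SUB

theorem t_SUB : M_SUB := by
  intro hSTEP hIRR hS1 hS2 hK hINT d k Γ _ X _ G u q hd hW hq hq48
  obtain ⟨j1, huj, hj1q, hj⟩ := hINT d k Γ X G u q hW hq
  have hk5 := SUB.pow5 k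
  have hk2 := G.k_ge_two
  have hu := hW.hu
  have hSc : ∀ g j, j1 ≤ j → j ≤ j1 + (6 * k + 3) → G.S q g j = G.S q g j1 :=
    fun g j h1 h2 => (hj j h1 h2).1 g
  have hdim : ∀ g, d + 1 ≤ Module.finrank ℝ (G.S q g j1) + k := by
    intro g
    have := (hS2 d k Γ X G q j1 (by omega) (by omega) g).2 (d + 2 - k) (by omega) (by omega)
      (fun i hi1 hi => hW.nz i hi1 (by omega))
    omega
  have hY : ∀ g p, j1 ≤ p → p ≤ j1 + (6 * k + 3) → G.S q g j1 ⊓ G.U g p = G.Y g p := by
    intro g p h1 h2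
    have := (hS1 d k Γ X G u q hW g p (by omega) (by omega)).2.2
    rwa [hSc g p h1 h2] at this
  have hVY : ∀ g p, j1 ≤ p → p ≤ j1 + (6 * k + 3) → G.S q g j1 ≤ G.V g p ⊔ G.Y g p := by
    intro g p h1 h2
    have := (hS1 d k Γ X G u q hW g p (by omega) (by omega)).2.1
    rwa [hSc g p h1 h2] at this
  refine ⟨j1, j1 + (6 * k + 3), ?_⟩
  refine
    { win := hW
      huj := huj
      hj := rfl
      hjq := by omega
      S := hSc
      dim := hdim
      hd := by omega
      dimY := ?_
      D := fun g p h1 h2 i h3 h4 => hIRR d k Γ X G u q hW g p (by omega) (by omega) i h3 h4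
      Y := hY
      VY := hVY
      kap := ?_ }
  · intro g p h1 h2
    have h3 := hVY g p h1 (by omega)
    have h4 := Submodule.finrank_mono h3
    have h5 := Submodule.finrank_add_le_finrank_add_finrank (G.V g p) (G.Y g p)
    have h6 := SUB.dimV_le G hSTEP g hW.nz p (by omega) (by omega)
    have h7 := hdim g
    omega
  · intro g l h1 h2
    obtain ⟨κ, ε, hκ, hF⟩ := hK d k Γ X G u q hW l (by omega) (by omega) g
    have hl := hj (l + 2) (by omega) (by omega)
    have hρ0 : G.ρ l • G.x0 = G.x0 := G.stab l (by omega)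
    -- the Gram matrices
    have hE : EqI G q (l + 2) g (g * G.ρ l) := by
      intro y hy z hz
      rw [G.F_mul g hρ0, G.F_mul g hρ0, hF y hy, hF z hz, LinearIsometryEquiv.inner_map_map]
    have hE1 := hl.2 g (g * G.ρ l) hE
    -- `κ` preserves `S`
    have hκS : ∀ w ∈ G.S q g j1, κ w ∈ G.S q g j1 := by
      intro w hw
      rw [← hl.1 g, AGeo.S] at hw
      induction hw using Submodule.span_induction with
      | mem x hx =>
        obtain ⟨y, hy, rfl⟩ := hx
        rw [← hF y hy]
        exact G.F_mem_S g (G.smul_mem_XX (G.ρ_mem_up (by omega)) (G.XX_anti q (by omega) hy))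
      | zero => rw [map_zero]; exact zero_mem _
      | add x y _ _ hx hy => rw [map_add]; exact add_mem hx hy
      | smul c x _ hx => rw [map_smul]; exact Submodule.smul_mem _ c hx
    refine ⟨κ, ε, hκ, ?_, hκS⟩
    intro y hy
    have hρy : G.ρ l • y ∈ G.XX q j1 := G.smul_mem_XX (G.ρ_mem_up (by omega)) hy
    have hv : κ (G.F g (G.ρ l • y)) - G.F g y ∈ G.S q g j1 :=
      Submodule.sub_mem _ (hκS _ (G.F_mem_S g hρy)) (G.F_mem_S g hy)
    have hperp : ∀ w ∈ G.S q g (l + 2), ⟪κ (G.F g (G.ρ l • y)) - G.F g y, w⟫ = 0 := by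
      intro w hw
      rw [AGeo.S] at hw
      induction hw using Submodule.span_induction with
      | mem x hx =>
        obtain ⟨z, hz, rfl⟩ := hx
        have h3 := hE1 y hy z (G.XX_anti q (by omega) hz)
        rw [G.F_mul g hρ0, G.F_mul g hρ0, hF z hz] at h3
        have h4 : ⟪κ (G.F g (G.ρ l • y)), G.F g z⟫ = ⟪G.F g (G.ρ l • y), κ (G.F g z)⟫ := by
          rw [← κ.inner_map_map (κ (G.F g (G.ρ l • y))) (G.F g z), hκ.inv]
        rw [inner_sub_left, h4, ← h3, sub_self]
      | zero => exact inner_zero_right _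
      | add x y _ _ hx hy => rw [inner_add_right, hx, hy, add_zero]
      | smul c x _ hx => rw [inner_smul_right, hx, mul_zero]
    have h0 : κ (G.F g (G.ρ l • y)) - G.F g y = 0 := by
      have h3 := hperp _ (by rw [hl.1 g]; exact hv)
      exact inner_self_eq_zero.1 h3
    have h5 := sub_eq_zero.1 h0
    rw [← h5, hκ.inv]

end

end FOI
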