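import Pool.Agent.FOI.AStmts1

/-!
# Module SWAP (section 3.3): `ρ i` exchanges the letters `i`, `i + 1`
-/

namespace FOI

open Lib_helper64.FO FO2 FOK
open scoped RealInnerProductSpace Nat

namespace SWAP

variable {d k : ℕ} {Γ : Type} [Group Γ] {X : Type} [MulAction Γ X] (G : AGeo d k Γ X)

lemma Y_le {g γ : Γ} {p : ℕ} (hγ : γ ∈ G.up p) (hD : G.D (g * γ) p = G.D g p) :
    G.Y (g * γ) p ≤ G.Y g p := by
  rw [AGeo.Y, Submodule.span_le]
  rintro _ ⟨n, hn, e, he, rfl⟩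
  rw [hD] at he
  rw [G.R_mul_right]
  exact Submodule.subset_span ⟨γ * n * γ⁻¹, G.conj_up hγ hn, e, he, rfl⟩

lemma Y_eq {g γ : Γ} {p : ℕ} (hγ : γ ∈ G.up p) (hD : G.D (g * γ) p = G.D g p) :
    G.Y (g * γ) p = G.Y g p := by
  refine le_antisymm (Y_le G hγ hD) ?_
  have h1 : G.D (g * γ * γ⁻¹) p = G.D (g * γ) p := by rw [mul_inv_cancel_right, hD]
  have h2 := Y_le G (g := g * γ) (inv_mem hγ) h1
  rwa [mul_inv_cancel_right] at h2

/-- a subspace of a line and a line -/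
lemma line_eq {A B : Submodule ℝ (E d)} (hA : Module.finrank ℝ A = 1)
    (hB : Module.finrank ℝ B = 1) (h : A ≤ B) : A = B :=
  Submodule.eq_of_le_of_finrank_eq h (hA.trans hB.symm)

lemma ne_bot {A : Submodule ℝ (E d)} (hA : Module.finrank ℝ A = 1) : A ≠ ⊥ := by
  rintro rfl
  simp at hA

lemma not_both {A B : Submodule ℝ (E d)} (hA : Module.finrank ℝ A = 1) (h1 : A ≤ B)
    (h2 : A ≤ Bᗮ) : False := by
  refine ne_bot hA (eq_bot_iff.2 ?_)
  have := le_inf h1 h2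
  rwa [Submodule.inf_orthogonal_eq_bot] at this

/-- elements of `B` in the sum of a subspace of `B` and a subspace of the complement -/
lemma inf_le {A C B M : Submodule ℝ (E d)} (hA : A ≤ B) (hC : C ≤ Bᗮ) (hM : M ≤ B)
    (h : M ≤ A ⊔ C) : M ≤ A := by
  intro v hv
  obtain ⟨a, ha, c, hc, rfl⟩ := Submodule.mem_sup.1 (h hv)
  have h1 : c ∈ B := by
    have := B.sub_mem (hM hv) (hA ha)
    rwa [add_sub_cancel_left] at this
  have h2 : c ∈ B ⊓ Bᗮ := ⟨h1, hC hc⟩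
  rw [Submodule.inf_orthogonal_eq_bot, Submodule.mem_bot] at h2
  rw [h2, add_zero]
  exact ha

/-- the same for the complement -/
lemma inf_le' {A C B M : Submodule ℝ (E d)} (hA : A ≤ B) (hC : C ≤ Bᗮ) (hM : M ≤ Bᗮ)
    (h : M ≤ A ⊔ C) : M ≤ C := by
  intro v hv
  obtain ⟨a, ha, c, hc, rfl⟩ := Submodule.mem_sup.1 (h hv)
  have h1 : a ∈ Bᗮ := by
    have := Bᗮ.sub_mem (hM hv) (hC hc)
    rwa [add_sub_cancel_right] at this
  have h2 : a ∈ B ⊓ Bᗮ := ⟨hA ha, h1⟩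
  rw [Submodule.inf_orthogonal_eq_bot, Submodule.mem_bot] at h2
  rw [h2, zero_add]
  exact hc

end SWAP

theorem t_SWAP : M_SWAP := by
  intro hY hPL d k Γ _ X _ G u q hW g p i hup hpi hiq
  have hD : G.D (g * G.ρ i) p = G.D g p := G.D_frame_ρ (by omega) (by omega)
  have hYe : G.Y (g * G.ρ i) p = G.Y g p := SWAP.Y_eq G (G.ρ_mem_up hpi.le) hD
  obtain ⟨hsup, hne, hex⟩ := (hPL d k Γ X G u q hW g).1 i (by omega) hiq
  have hY2 := (hY d k Γ X G u q hW g p hup (by omega)).2.1 (G.Y g p)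
    (fun n hn w hw => G.R_mem_Y hn hw)
  have hY2' := (hY d k Γ X G u q hW (g * G.ρ i) p hup (by omega)).2.1 (G.Y (g * G.ρ i) p)
    (fun n hn w hw => G.R_mem_Y hn hw)
  rw [hYe] at hY2'
  have l0 := hW.line g i (by omega) (by omega)
  have l1 := hW.line g (i + 1) (by omega) (by omega)
  have l0' := hW.line (g * G.ρ i) i (by omega) (by omega)
  have l1' := hW.line (g * G.ρ i) (i + 1) (by omega) (by omega)
  have hs0 : G.D (g * G.ρ i) i ≤ G.D g i ⊔ G.D g (i + 1) := hsup ▸ le_sup_left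
  have hs1 : G.D (g * G.ρ i) (i + 1) ≤ G.D g i ⊔ G.D g (i + 1) := hsup ▸ le_sup_right
  refine ⟨hYe, ?_⟩
  rcases hY2 i (by omega) (by omega) with a | a <;>
    rcases hY2 (i + 1) (by omega) (by omega) with b | b
  · exact ⟨⟨fun _ => b, fun _ => hs0.trans (sup_le a b)⟩,
      ⟨fun _ => a, fun _ => hs1.trans (sup_le a b)⟩⟩
  · have c : G.D (g * G.ρ i) i = G.D g (i + 1) := by
      rcases hY2' i (by omega) (by omega) with c | c
      · exact absurd (SWAP.line_eq l0' l0 (SWAP.inf_le a b c hs0)) hne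
      · exact SWAP.line_eq l0' l1 (SWAP.inf_le' a b c hs0)
    rw [hex c, c]
    exact ⟨Iff.rfl, Iff.rfl⟩
  · have c : G.D (g * G.ρ i) i = G.D g (i + 1) := by
      rw [sup_comm] at hs0
      rcases hY2' i (by omega) (by omega) with c | c
      · exact SWAP.line_eq l0' l1 (SWAP.inf_le b a c hs0)
      · exact absurd (SWAP.line_eq l0' l0 (SWAP.inf_le' b a c hs0)) hne
    rw [hex c, c]
    exact ⟨Iff.rfl, Iff.rfl⟩
  · have c0 := hs0.trans (sup_le a b)
    have c1 := hs1.trans (sup_le a b)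
    exact ⟨⟨fun h => (SWAP.not_both l0' h c0).elim, fun h => (SWAP.not_both l1 h b).elim⟩,
      ⟨fun h => (SWAP.not_both l1' h c1).elim, fun h => (SWAP.not_both l0 h a).elim⟩⟩

end FOI
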