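import Pool.Agent.FOI.AStmts2

/-!
# Module TOP: what is known after section 9, finite or infinite polytopes
-/

namespace FOI

open Lib_helper64.FO FO2 FOK
open scoped RealInnerProductSpace Nat

namespace TOP

variable {d k : ℕ} {Γ : Type} [Group Γ] {X : Type} [MulAction Γ X]

theorem fin_E : Module.finrank ℝ (E d) = d := finrank_euclideanSpace_fin

/-- a chain of subspaces that is strictly increasing from `a` to `b` -/
theorem chain (V : ℕ → Submodule ℝ (E d)) (a : ℕ) :
    ∀ m, (∀ i, a ≤ i → i < a + m → V i < V (i + 1)) →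
      Module.finrank ℝ (V a) + m ≤ Module.finrank ℝ (V (a + m)) := by
  intro m
  induction m with
  | zero => intro _; exact le_rfl
  | succ m ih =>
    intro h
    have h1 := ih fun i hi hi' => h i hi (by omega)
    have h2 : Module.finrank ℝ (V (a + m)) < Module.finrank ℝ (V (a + m + 1)) :=
      Submodule.finrank_lt_finrank_of_lt (h (a + m) (by omega) (by omega))
    have e : a + (m + 1) = a + m + 1 := by omega
    rw [e]
    omega

end TOP

open TOP in
theorem t_TOP : M_TOP := by
  intro hNZ hSTEP hS2 hRUN hN1 hN4 hNINE hFS d k Γ _ X _ G u q j1 j2 hS hq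
  have hk := G.k_ge_two
  have e0 := hS.win.hu
  have e1 := hS.hj
  have e2 := hS.hjq
  have e3 := hS.hd
  have e4 := hS.huj
  have hroots : ∀ g, RootsFrom G q j1 j2 (j1 + 2) g := fun g =>
    hRUN d k Γ X G u q j1 j2 hS g
  obtain ⟨h3, -⟩ := hN1 d k Γ X G u q j1 j2 hS hroots
  have h4 := hN4 d k Γ X G u q j1 j2 hS hroots
  have hnine : ∀ m, j1 + 3 ≤ m → m ≤ j1 + 5 → Nine G m :=
    hNINE d k Γ X G u q j1 j2 hS hroots h3 h4
  have hup4 : G.up (j1 + 4) ≤ G.N := hFS d k Γ X G (j1 + 3) (hnine _ (by omega) (by omega))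
  have hup2 : G.up (j1 + 2) ≤ G.N := by
    rw [AGeo.up, gpar, Subgroup.closure_le]
    rintro _ ⟨j, hj, rfl⟩
    have hj' : j1 + 2 ≤ j := hj
    rcases Nat.lt_or_ge j (j1 + 4) with h | h
    · exact (h4 j hj' (by omega)).1
    · exact hup4 (G.ρ_mem_up h)
  have hnz : ∀ i, 1 ≤ i → i < d → G.NZ i := (hNZ d k Γ X G).2 (j1 + 2) (by omega) hup2
  have hlt : ∀ g i, 1 ≤ i → i < d → G.V g i < G.V g (i + 1) := fun g i h1 h2 =>
    (hSTEP d k Γ X G g).2.1 i h1 (hnz i h1 h2)
  have hdimV : ∀ g i, 1 ≤ i → i ≤ d →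
      i ≤ Module.finrank ℝ (G.V g i) + 1 ∧ Module.finrank ℝ (G.V g i) ≤ i := by
    intro g i h1 h2
    have h5 := chain (fun i => G.V g i) 1 (i - 1) fun m hm hm' => hlt g m hm (by omega)
    have h6 := chain (fun i => G.V g i) i (d - i) fun m hm hm' => hlt g m (by omega) (by omega)
    have e5 : 1 + (i - 1) = i := by omega
    have e6 : i + (d - i) = d := by omega
    rw [e5] at h5
    rw [e6] at h6
    have h7 := Submodule.finrank_le (G.V g d)
    rw [fin_E] at h7
    omega
  have hdim : ∀ g, d ≤ Module.finrank ℝ (G.Y g (j1 + 5)) + (j1 + 5) := by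
    intro g
    set p := j1 + 5 with hp
    set Z := G.V g p ⊔ G.Y g p with hZ
    have hSZ : G.S q g j1 ≤ Z := hS.VY g p (by omega) (by omega)
    have h5 := chain (fun i => Z ⊓ G.V g i) p (d - p) (by
      intro i hi hi'
      have hle : Z ⊓ G.V g i ≤ Z ⊓ G.V g (i + 1) := inf_le_inf le_rfl (G.V_mono g (by omega))
      refine lt_of_le_not_ge hle ?_
      intro hge
      rcases Nat.lt_or_ge q i with hqi | hqi
      · apply (hS2 d k Γ X G q j1 (by omega) (by omega) g).1 i (by omega)
          (hnz i (by omega) (by omega))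
        exact ((inf_le_inf hSZ le_rfl).trans hge).trans inf_le_right
      · have h6 : G.D g i ≤ Z ⊓ G.V g (i + 1) :=
          le_inf ((hS.D g p (by omega) (by omega) i hi hqi).trans le_sup_right) (G.D_le_V g i)
        have h7 : G.D g i ≤ G.V g i := (h6.trans hge).trans inf_le_right
        have h8 : G.D g i = ⊥ := by
          rw [eq_bot_iff]
          intro x hx
          exact inner_self_eq_zero.1 ((Submodule.mem_orthogonal _ _).1 (G.D_le_U g i hx) x (h7 hx))
        have h9 := hS.win.line g i (by omega) hqi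
        rw [h8, finrank_bot] at h9
        omega)
    have e5 : p + (d - p) = d := by omega
    rw [e5] at h5
    have h6 : Z ⊓ G.V g p = G.V g p := inf_eq_right.2 le_sup_left
    rw [h6] at h5
    have h7 : Module.finrank ℝ (Z ⊓ G.V g d : Submodule ℝ (E d)) ≤ Module.finrank ℝ Z :=
      Submodule.finrank_mono inf_le_left
    have h8 : Module.finrank ℝ Z ≤ Module.finrank ℝ (G.V g p) + Module.finrank ℝ (G.Y g p) :=
      Submodule.finrank_add_le_finrank_add_finrank _ _
    omega
  refine ⟨by omega, by omega, by omega, ?_, hnz, ?_, ?_, ?_, hdimV⟩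
  · have e5 : j1 + 5 - 3 = j1 + 2 := by omega
    rw [e5]
    exact hup2
  · intro g
    obtain ⟨a, ha⟩ := (hroots g).1 (j1 + 5) (by omega) (by omega)
    exact ⟨a, ha.norm, (h4 (j1 + 5) (by omega) (by omega)).2 g a ha⟩
  · exact fun g => (hnine (j1 + 5) (by omega) le_rfl).irr g
  · intro g
    rw [(hnine (j1 + 5) (by omega) le_rfl).span g]
    exact hdim g

end FOI
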