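import Pool.Agent.FOK.PG
import Pool.Agent.FOK.SW
import Pool.Agent.FOK.COMP
import Pool.Agent.FOK.SL
import Pool.Agent.FOK.AD
import Pool.Agent.FOK.AUT
import Pool.Agent.FOK.FR
import Pool.Agent.FOK.VECA
import Pool.Agent.FOK.VECD
import Pool.Agent.FOK.ELEM
import Pool.Agent.FOI.ORD
import Pool.Agent.FOI.IDX
import Pool.Agent.FOI.NZ
import Pool.Agent.FOI.STEP
import Pool.Agent.FOI.CNT
import Pool.Agent.FOI.WIN
import Pool.Agent.FOI.Y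
import Pool.Agent.FOI.PL
import Pool.Agent.FOI.SWAP
import Pool.Agent.FOI.DICH
import Pool.Agent.FOI.KEY
import Pool.Agent.FOI.ISO1
import Pool.Agent.FOI.ISO2
import Pool.Agent.FOI.ISO3
import Pool.Agent.FOI.IRR
import Pool.Agent.FOI.S1
import Pool.Agent.FOI.S2
import Pool.Agent.FOI.A1
import Pool.Agent.FOI.A2
import Pool.Agent.FOI.A3
import Pool.Agent.FOI.K
import Pool.Agent.FOI.INT
import Pool.Agent.FOI.SUB
import Pool.Agent.FOI.KK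
import Pool.Agent.FOI.E0
import Pool.Agent.FOI.EA0
import Pool.Agent.FOI.EA
import Pool.Agent.FOI.ED
import Pool.Agent.FOI.EX
import Pool.Agent.FOI.EP
import Pool.Agent.FOI.RUN
import Pool.Agent.FOI.N1
import Pool.Agent.FOI.N2
import Pool.Agent.FOI.N3
import Pool.Agent.FOI.N4
import Pool.Agent.FOI.NINE
import Pool.Agent.FOI.BET
import Pool.Agent.FOI.FS
import Pool.Agent.FOI.TOP

/-!
# Sections 1 - 9 from the modules: `S_ATOP`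
-/

namespace FOI

/-! ### sections 1 - 6 -/

theorem f_NZ : S_NZ := t_NZ t_ORD t_IDX
theorem f_WIN : S_WIN := t_WIN FOK.t_PG t_IDX f_NZ t_STEP
theorem f_PL : S_PL := t_PL t_STEP
theorem f_SWAP : S_SWAP := t_SWAP t_Y f_PL
theorem f_DICH : S_DICH := t_DICH t_CNT FOK.t_SW t_Y f_PL f_SWAP
theorem f_KEY : S_KEY := t_KEY t_Y
theorem f_ISO1 : S_ISO1 := t_ISO1 t_Y f_PL f_DICH f_KEY
theorem f_ISO2 : S_ISO2 := t_ISO2 t_Y f_PL f_SWAP f_DICH f_KEY f_ISO1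
theorem f_ISO3 : S_ISO3 := t_ISO3 t_Y f_PL t_IDX f_ISO2
theorem f_IRR : S_IRR := t_IRR t_ORD f_DICH f_ISO3
theorem f_S1 : S_S1 := t_S1 t_STEP t_Y f_PL f_IRR
theorem f_S2 : S_S2 := t_S2 t_STEP
theorem f_A2 : S_A2 := t_A2 t_STEP f_PL
theorem f_A3 : S_A3 := t_A3 f_PL t_CNT FOK.t_SW f_A2
theorem f_K : S_K := t_K f_PL t_A1 f_A2 f_A3
theorem f_INT : S_INT := t_INT FOK.t_PG f_S2
theorem f_SUB : S_SUB := t_SUB t_STEP f_IRR f_S1 f_S2 f_K f_INT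

/-! ### sections 7 - 9 -/

theorem f_KK : S_KK := t_KK t_Y
theorem f_RUN : S_RUN := t_RUN FOK.t_COMP FOK.t_SL FOK.t_AD FOK.t_AUT FOK.t_FR FOK.t_VECA
  FOK.t_VECD f_KK (t_E0 t_Y f_PL f_KK)
  (t_EA0 f_PL f_KK) (t_EA f_PL) (t_ED f_PL) (t_EX f_PL) (t_EP f_PL)
theorem f_N2 : S_N2 := t_N2 FOK.t_ELEM
theorem f_N4 : S_N4 := t_N4 t_N1 f_N2 t_N3
theorem f_NINE : S_NINE := t_NINE FOK.t_COMP FOK.t_SL f_KK f_PL
theorem f_FS : S_FS := t_FS t_BET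
theorem f_TOP : S_TOP := t_TOP f_NZ t_STEP f_S2 f_RUN t_N1 f_N4 f_NINE f_FS

theorem f_ATOP : S_ATOP := by
  intro d k Γ _ X _ G hd
  obtain ⟨u, q, hW, hq, hqk⟩ := f_WIN d k Γ X G hd
  obtain ⟨j1, j2, hS⟩ := f_SUB d k Γ X G u q hd hW hq hqk
  exact ⟨j1 + 5, f_TOP d k Γ X G u q j1 j2 hS hqk⟩

end FOI
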