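import Pool.Agent.FOK.Defs
import Pool.Agent.FO2.Geo

/-!
# k-orbit realizations of infinite regular polytopes: definitions

* `Discr`: the image of the vertex map is discrete;
* `LinModel`: a base vertex and the distinguished generators of the group of the regular simplex, the
  cube or the cross-polytope in a subspace `I`; for the cross-polytope there is in addition a sign;
* `Datum d A`: a string of `d` involutions of a set `A` with a function `r`;
* `MixedI`, `MixedR`: the two kinds of realizations.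
-/

namespace FOI

open Lib_helper64.FO FO2
open scoped RealInnerProductSpace

noncomputable section

/-- The images of the vertices form a discrete set. -/
def Discr {d : ℕ} {P : Type} [PartialOrder P] (rk : P → ℤ) (f : P → E d) : Prop :=
  DiscreteTopology (f '' {v | rk v = 0})

/-- The regular simplex with vertices `v 0, …, v n` in the subspace `I`: the base vertex is `v 0`, and
`g j` exchanges `v j` and `v (j + 1)`. -/
def SimM {D : ℕ} (n : ℕ) (I : Submodule ℝ (E D)) (y0 : E D) (g : ℕ → (E D ≃ₗᵢ[ℝ] E D)) : Prop :=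
  ∃ v : Fin (n + 1) → E D, (∀ i, v i ∈ I) ∧
    (∀ i j, ⟪v i, v j⟫ = if i = j then (1 : ℝ) else -1 / n) ∧ y0 = v 0 ∧
    ∀ (j : Fin n) (i : Fin (n + 1)), g j (v i) = v (Equiv.swap j.castSucc j.succ i)

/-- The cube with vertices `± u 0 ± … ± u (n - 1)` in the subspace `I`: the base vertex is the sum of
all `u i`, `g 0` changes the sign of `u 0`, and `g j` with `j ≥ 1` exchanges `u (j - 1)` and
`u j`. -/
def CubM {D : ℕ} (n : ℕ) (I : Submodule ℝ (E D)) (y0 : E D) (g : ℕ → (E D ≃ₗᵢ[ℝ] E D)) : Prop :=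
  ∃ u : Fin n → E D, (∀ i, u i ∈ I) ∧ Orthonormal ℝ u ∧ y0 = ∑ i, u i ∧
    ∀ j i : Fin n, g j (u i) =
      if j.val = 0 then (if i = j then - u i else u i) else u (Equiv.swap (prd j) j i)

/-- The cross-polytope with vertices `± u i` in the subspace `I`: the base vertex is `u 0`, `g j`
with `j < n - 1` exchanges `u j` and `u (j + 1)`, and `g (n - 1)` changes the sign of `u (n - 1)`;
moreover `g 1` multiplies the `u i` with `i ≥ 3` by the sign `ε`. -/
def CroM {D : ℕ} (n : ℕ) (ε : ℝ) (I : Submodule ℝ (E D)) (y0 : E D)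
    (g : ℕ → (E D ≃ₗᵢ[ℝ] E D)) : Prop :=
  ∃ u : Fin n → E D, (∀ i, u i ∈ I) ∧ Orthonormal ℝ u ∧ (∀ h : 0 < n, y0 = u ⟨0, h⟩) ∧
    ∀ j i : Fin n, g j (u i) =
      if h : j.val + 1 < n then
        (if j.val = 1 ∧ 3 ≤ i.val then ε • u i else u (Equiv.swap j ⟨j.val + 1, h⟩ i))
      else (if i = j then - u i else u i)

/-- A linear model in the subspace `I` of dimension `n`. -/
def LinModel {D : ℕ} (n : ℕ) (ε : ℝ) (I : Submodule ℝ (E D)) (y0 : E D)
    (g : ℕ → (E D ≃ₗᵢ[ℝ] E D)) : Prop :=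
  Module.finrank ℝ I = n ∧ (SimM n I y0 g ∨ CubM n I y0 g ∨ CroM n ε I y0 g)

/-- A string of `d` involutions (or identities) of `A` generating a transitive group, all except
`π 0` fixing the base point `a0`, and a function `r` on `A`. -/
structure Datum (d : ℕ) (A : Type) where
  π : Fin d → Equiv.Perm A
  a0 : A
  r : A → ℝ
  sq : ∀ j, π j * π j = 1
  comm : ∀ i j : Fin d, i.val + 2 ≤ j.val → π i * π j = π j * π i
  fix : ∀ j : Fin d, 1 ≤ j.val → π j a0 = a0
  trans : ∀ a, ∃ q ∈ Subgroup.closure (Set.range π), q a0 = a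

/-! ### The first kind -/

/-- the signs `s 0 = s0`, `s 1 = -1`, `s j = 1` for `j ≥ 2` -/
def sgI (s0 : ℤˣ) (j : ℕ) : ℤˣ := if j = 0 then s0 else if j = 1 then -1 else 1

/-- the image of `0` under `β_w`, `β_j v = s_j g_j v + t_j`, `t_0 = t`, `t_j = 0` for `j ≥ 1` -/
def wI {d : ℕ} (s0 : ℤˣ) (g : ℕ → (E d ≃ₗᵢ[ℝ] E d)) (t : E d) : List (Fin d) → E d
  | [] => 0
  | j :: w => sg (sgI s0 j) • g j (wI s0 g t w) + if j.val = 0 then t else 0

/-- the group generated by the pairs `(π j, s j)` -/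
def Datum.CI {d : ℕ} {A : Type} (M : Datum d A) (s0 : ℤˣ) : Subgroup (Equiv.Perm A × ℤˣ) :=
  Subgroup.closure (Set.range fun j : Fin d => (M.π j, sgI s0 j))

/-- the pairs `(q, s)` with `r (q a) = s r a` -/
def Datum.HI {d : ℕ} {A : Type} (M : Datum d A) : Subgroup (Equiv.Perm A × ℤˣ) where
  carrier := {p | ∀ a, M.r (p.1 a) = sg p.2 * M.r a}
  mul_mem' := by
    rintro ⟨p, s⟩ ⟨q, t⟩ h1 h2 a
    change M.r (p (q a)) = sg (s * t) * M.r a
    have h3 : M.r (p (q a)) = sg s * M.r (q a) := h1 (q a)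
    have h4 : M.r (q a) = sg t * M.r a := h2 a
    rw [h3, h4]
    simp only [sg, Units.val_mul, Int.cast_mul]
    ring
  one_mem' := by
    intro a
    change M.r a = sg 1 * M.r a
    simp [sg]
  inv_mem' := by
    rintro ⟨p, s⟩ h1 a
    change M.r (p⁻¹ a) = sg s⁻¹ * M.r a
    have h3 : M.r (p (p⁻¹ a)) = sg s * M.r (p⁻¹ a) := h1 (p⁻¹ a)
    rw [show p (p⁻¹ a) = a from p.apply_symm_apply a] at h3
    rcases Int.units_eq_one_or s with rfl | rfl
    · simp only [sg, inv_one, Units.val_one, Int.cast_one, one_mul] at h3 ⊢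
      exact h3.symm
    · simp only [sg, Int.units_inv_eq_self, Units.val_neg, Units.val_one, Int.cast_neg,
        Int.cast_one] at h3 ⊢
      rw [h3]
      ring

/-- The first kind of realizations: for every word `w` in `0, …, d - 1` the vertex `ρ_w F0` goes to
`c + β_w(0) + r (π_w a0) g_w y0`. -/
def MixedI {d : ℕ} {P : Type} [PartialOrder P] (k : ℕ) (rk : P → ℤ) (f : P → E d) (C : Flag P)
    (ρ : Fin d → (P ≃o P)) : Prop :=
  ∃ F0 ∈ C, rk F0 = 0 ∧ ∃ (c y0 t : E d) (s0 : ℤˣ) (ε : ℝ) (g : ℕ → (E d ≃ₗᵢ[ℝ] E d)) (A : Type)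
    (M : Datum d A),
    Finite A ∧ (∀ j : Fin d, 48 * (k + 1) ^ 5 + 3 ≤ j.val → M.π j = 1) ∧
    (ε = 1 ∨ ε = -1) ∧ LinModel d ε ⊤ y0 g ∧
    t ≠ 0 ∧ t ∈ Submodule.span ℝ {y0, g 0 y0} ∧ sg s0 • g 0 t = -t ∧
    M.HI.relIndex (M.CI s0) = k ∧
    ∀ w : List (Fin d), f ((w.map ρ).prod F0) =
      c + wI s0 g t w + M.r ((w.map M.π).prod M.a0) • ((w.map fun j => g j).prod y0)

/-! ### The second kind -/

/-- the image of `0` under `β_w`: `β_0 v = sref y0 v + t` if `b` is true, `β_0 v = -v + t`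
otherwise, `β_1 v = s1 g_0 v`, `β_j v = g_{j-1} v` for `j ≥ 2` -/
def wR {d : ℕ} (b : Bool) (s1 : ℤˣ) (g : ℕ → (E d ≃ₗᵢ[ℝ] E d)) (y0 t : E d) :
    List (Fin d) → E d
  | [] => 0
  | j :: w =>
    if j.val = 0 then (if b then sref y0 (wR b s1 g y0 t w) else - wR b s1 g y0 t w) + t
    else (if j.val = 1 then sg s1 else 1) • g (j.val - 1) (wR b s1 g y0 t w)

/-- the group generated by the `π j` -/
def Datum.C {d : ℕ} {A : Type} (M : Datum d A) : Subgroup (Equiv.Perm A) :=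
  Subgroup.closure (Set.range M.π)

/-- the permutations `q` with `r ∘ q = ± r + const` -/
def Datum.HR {d : ℕ} {A : Type} (M : Datum d A) : Subgroup (Equiv.Perm A) where
  carrier := {q | ∃ s c : ℝ, (s = 1 ∨ s = -1) ∧ ∀ a, M.r (q a) = s * M.r a + c}
  mul_mem' := by
    rintro p q ⟨s, c, hs, h1⟩ ⟨s', c', hs', h2⟩
    refine ⟨s * s', s * c' + c, ?_, fun a => ?_⟩
    · rcases hs with rfl | rfl <;> rcases hs' with rfl | rfl <;> norm_num
    · rw [Equiv.Perm.mul_apply, h1, h2]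
      ring
  one_mem' := ⟨1, 0, Or.inl rfl, fun a => by simp⟩
  inv_mem' := by
    rintro p ⟨s, c, hs, h1⟩
    refine ⟨s, -s * c, hs, fun a => ?_⟩
    have h3 := h1 (p⁻¹ a)
    rw [show p (p⁻¹ a) = a from p.apply_symm_apply a] at h3
    rcases hs with rfl | rfl
    · linarith
    · linarith

/-- The second kind of realizations: for every word `w` in `0, …, d - 1` the vertex `ρ_w F0` goes to
`c + β_w(0) + r (π_w a0) e0`. -/
def MixedR {d : ℕ} {P : Type} [PartialOrder P] (k : ℕ) (rk : P → ℤ) (f : P → E d) (C : Flag P)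
    (ρ : Fin d → (P ≃o P)) : Prop :=
  ∃ F0 ∈ C, rk F0 = 0 ∧ ∃ (c e0 y0 t : E d) (b : Bool) (s1 : ℤˣ) (g : ℕ → (E d ≃ₗᵢ[ℝ] E d))
    (A : Type) (M : Datum d A),
    (∀ j : Fin d, 48 * (k + 1) ^ 5 + 3 ≤ j.val → M.π j = 1) ∧
    ‖e0‖ = 1 ∧ LinModel (d - 1) 1 (ℝ ∙ e0)ᗮ y0 g ∧
    (b = true → CroM (d - 1) 1 (ℝ ∙ e0)ᗮ y0 g) ∧
    t ≠ 0 ∧ t ∈ Submodule.span ℝ {y0} ∧
    M.HR.relIndex M.C = k ∧
    ∀ w : List (Fin d), f ((w.map ρ).prod F0) =
      c + wR b s1 g y0 t w + M.r ((w.map M.π).prod M.a0) • e0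

/-- The main theorem for infinite polytopes. -/
def MainStatement : Prop :=
  ∀ k d : ℕ, 2 ≤ k → 100 * (k + 1) ^ 5 ≤ d →
    ∀ (P : Type) [PartialOrder P] [Infinite P] (rk : P → ℤ), IsRegularPolytope d rk →
    ∀ (f : P → E d) (C : Flag P) (ρ : Fin d → (P ≃o P)), FOK.IsGens rk C ρ →
      (Discr rk f ∧ IsOrbitRealization rk f k ↔
        Discr rk f ∧ Faithful rk f ∧ (MixedI k rk f C ρ ∨ MixedR k rk f C ρ))

end

end FOI
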