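import Pool.Agent.FO2.FLG
import Pool.Agent.FO2.CNN
import Pool.Agent.FO2.POL
import Pool.Agent.FO2.GE1
import Pool.Agent.FOK.QGE

/-!
# Flags and automorphisms of a regular polytope, finite or infinite

The theorems of `Pool/Agent/FO2/FLG.lean`, `CNN.lean`, `POL.lean`, `Pool/Agent/FOK/QGE.lean`,
`QIX.lean` without the hypothesis that the polytope is finite (which their proofs do not use).
-/

namespace FOI

open Lib_helper64.FO FO2 FOK

noncomputable section

/-- `FO2.StmtFlag` -/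
def FlagI : Prop :=
  ∀ (d : ℕ) (P : Type) [PartialOrder P] (rk : P → ℤ), IsRegularPolytope d rk →
    (∀ (C : Flag P) (x y : P), x ∈ C → y ∈ C → rk x = rk y → x = y) ∧
    (∀ x : P, -1 ≤ rk x ∧ rk x ≤ d) ∧
    (∀ (γ : P ≃o P) (x : P), rk (γ x) = rk x) ∧
    (∀ (s : Set P), IsChain (· ≤ ·) s → ∃ C : Flag P, s ⊆ C) ∧
    (∀ (C : Flag P) (i : ℕ), i < d → ∃ D : Flag P, D ≠ C ∧ (∀ x ∈ C, rk x ≠ (i : ℤ) → x ∈ D) ∧
      ∀ D' : Flag P, D' ≠ C → (∀ x ∈ C, rk x ≠ (i : ℤ) → x ∈ D') → D' = D)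

/-- `FO2.StmtConn` -/
def ConnI : Prop :=
  ∀ (d : ℕ) (P : Type) [PartialOrder P] (rk : P → ℤ), IsRegularPolytope d rk →
    ∀ (I : Set ℕ) (C D : Flag P), (∀ x ∈ C, ∀ i : ℕ, rk x = (i : ℤ) → i ∉ I → x ∈ D) →
      Relation.ReflTransGen (fun A B : Flag P => ∃ i ∈ I, i < d ∧ A ≠ B ∧
        ∀ x ∈ A, rk x ≠ (i : ℤ) → x ∈ B) C D

/-- `FO2.StmtPoly` -/
def PolyI : Prop :=
  ∀ (d : ℕ) (P : Type) [PartialOrder P] (rk : P → ℤ), IsRegularPolytope d rk →
    ∀ C : Flag P, ∃ ρ : ℕ → (P ≃o P), PolyGroup d rk C ρ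

/-- `FOK.StmtQGE` -/
def GensI : Prop :=
  ∀ (d : ℕ) (P : Type) [PartialOrder P] (rk : P → ℤ), IsRegularPolytope d rk →
    ∀ (C : Flag P) (ρ : Fin d → (P ≃o P)), IsGens rk C ρ → PolyGroup d rk C (exG ρ)

/-- `FOK.StmtQIX` -/
def IdxI : Prop :=
  ∀ (d : ℕ) (P : Type) [PartialOrder P] (rk : P → ℤ), IsRegularPolytope d rk →
    ∀ (f : P → E d), flagOrbits rk f = (symGroup rk f).index

namespace POS

open FO2.FLG

variable {d : ℕ} {P : Type} [PartialOrder P] {rk : P → ℤ}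

theorem adjacent (h : IsRegularPolytope d rk) (C : Flag P) (i : ℕ) (hi : i < d) :
    ∃ D : Flag P, D ≠ C ∧ (∀ x ∈ C, rk x ≠ (i : ℤ) → x ∈ D) ∧
      ∀ D' : Flag P, D' ≠ C → (∀ x ∈ C, rk x ≠ (i : ℤ) → x ∈ D') → D' = D := by
  classical
  obtain ⟨x, hx, hxr⟩ := h.flags C ((i : ℤ) - 1) (by omega) (by omega)
  obtain ⟨y, hy, hyr⟩ := h.flags C ((i : ℤ) + 1) (by omega) (by omega)
  obtain ⟨z, hz, hzr⟩ := h.flags C (i : ℤ) (by omega) (by omega)
  have hxy : x < y := lt_of_rk h C hx hy (by omega)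
  have hcard := h.diamond x y hxy (by omega)
  have hxz : x < z := lt_of_rk h C hx hz (by omega)
  have hzy : z < y := lt_of_rk h C hz hy (by omega)
  obtain ⟨⟨a, ha⟩, ⟨b, hb⟩, hab, huniv⟩ := Nat.card_eq_two_iff.1 hcard
  have hall : ∀ w, x < w → w < y → w = a ∨ w = b := by
    intro w h1 h2
    have : (⟨w, h1, h2⟩ : {z : P // x < z ∧ z < y}) ∈ (Set.univ : Set _) := Set.mem_univ _
    rw [← huniv] at this
    rcases this with h3 | h3
    · exact Or.inl (congrArg Subtype.val h3)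
    · exact Or.inr (congrArg Subtype.val h3)
  have hab' : a ≠ b := fun e => hab (Subtype.ext e)
  -- the other face
  obtain ⟨w, hw1, hw2, hwz, hwall⟩ : ∃ w, x < w ∧ w < y ∧ w ≠ z ∧
      ∀ v, x < v → v < y → v ≠ z → v = w := by
    rcases hall z hxz hzy with e | e
    · refine ⟨b, hb.1, hb.2, fun e' => hab' (e'.trans e).symm, ?_⟩
      intro v h1 h2 h3
      rcases hall v h1 h2 with h4 | h4
      · exact absurd (h4.trans e.symm) h3
      · exact h4
    · refine ⟨a, ha.1, ha.2, fun e' => hab' (e'.trans e), ?_⟩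
      intro v h1 h2 h3
      rcases hall v h1 h2 with h4 | h4
      · exact h4
      · exact absurd (h4.trans e.symm) h3
  have hwr : rk w = i := by
    have h1 := h.strict x w hw1
    have h2 := h.strict w y hw2
    omega
  have hwC : w ∉ C := fun hw => hwz (eq_of_rk h C hw hz (by omega))
  have hcomp : ∀ c ∈ C, rk c ≠ (i : ℤ) → c < w ∨ w < c := by
    intro c hc hcr
    rcases lt_or_gt_of_ne hcr with h1 | h1
    · exact Or.inl (lt_of_le_of_lt (le_of_rk h C hc hx (by omega)) hw1)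
    · exact Or.inr (lt_of_lt_of_le hw2 (le_of_rk h C hy hc (by omega)))
  let s : Set P := {c | (c ∈ C ∧ rk c ≠ (i : ℤ)) ∨ c = w}
  have hs : IsChain (· ≤ ·) s := by
    rintro a (⟨ha, ha'⟩ | rfl) b (⟨hb, hb'⟩ | rfl) hne
    · exact C.Chain' ha hb hne
    · rcases hcomp a ha ha' with h1 | h1
      · exact Or.inl h1.le
      · exact Or.inr h1.le
    · rcases hcomp b hb hb' with h1 | h1
      · exact Or.inr h1.le
      · exact Or.inl h1.le
    · exact absurd rfl hne
  have hmax : IsMaxChain (· ≤ ·) s := by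
    refine maxChain_of_ranks rk h.strict s hs ?_
    intro p
    by_cases hp : rk p = i
    · exact ⟨w, Or.inr rfl, by omega⟩
    · have hr := rk_range h p
      obtain ⟨q, hq, hqr⟩ := h.flags C (rk p) hr.1 hr.2
      exact ⟨q, Or.inl ⟨hq, by omega⟩, hqr⟩
  let D : Flag P := ⟨s, hmax.1, hmax.2⟩
  have hDmem : ∀ c, c ∈ D ↔ (c ∈ C ∧ rk c ≠ (i : ℤ)) ∨ c = w := fun c => Iff.rfl
  refine ⟨D, ?_, ?_, ?_⟩
  · intro e
    apply hwC
    rw [← e]
    exact (hDmem w).2 (Or.inr rfl)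
  · intro c hc hcr
    exact (hDmem c).2 (Or.inl ⟨hc, hcr⟩)
  · intro D' hne hD'
    obtain ⟨v, hv, hvr⟩ := h.flags D' (i : ℤ) (by omega) (by omega)
    have hxD' : x ∈ D' := hD' x hx (by omega)
    have hyD' : y ∈ D' := hD' y hy (by omega)
    have hxv : x < v := lt_of_rk h D' hxD' hv (by omega)
    have hvy : v < y := lt_of_rk h D' hv hyD' (by omega)
    have hvz : v ≠ z := by
      rintro rfl
      apply hne
      have hsub : (C : Set P) ⊆ (D' : Set P) := by
        intro c hc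
        by_cases hcr : rk c = i
        · have : c = v := eq_of_rk h C hc hz (by omega)
          rw [this]; exact hv
        · exact hD' c hc hcr
      have := C.max_chain' D'.Chain' hsub
      exact (SetLike.coe_injective this).symm
    have hvw := hwall v hxv hvy hvz
    have hsub : s ⊆ (D' : Set P) := by
      rintro c (⟨hc, hcr⟩ | rfl)
      · exact hD' c hc hcr
      · rw [← hvw]; exact hv
    have := hmax.2 D'.Chain' hsub
    exact (SetLike.coe_injective this).symm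

end POS

theorem flag : FlagI := by
  intro d P _ rk h
  exact ⟨fun C x y hx hy e => FLG.eq_of_rk h C hx hy e, FLG.rk_range h, FLG.rk_map h,
    FLG.exists_flag_of_chain, POS.adjacent h⟩

theorem conn : ConnI := by
  intro d P _ rk hP I C D hCD
  obtain ⟨h1, h2, -, h4, -⟩ := flag d P rk hP
  have hf : CNN.Fct d rk := ⟨h1, h2, h4, hP.strict, hP.flags, hP.connected⟩
  obtain ⟨b, hb1, hb2⟩ := hP.bot
  obtain ⟨t, ht1, ht2⟩ := hP.top
  have hbm : ∀ A : Flag P, b ∈ A := by
    intro A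
    obtain ⟨x, hx, hx'⟩ := hP.flags A (-1) le_rfl (by omega)
    rcases (hb1 x).eq_or_lt with h5 | h5
    · rw [h5]; exact hx
    · have := hP.strict _ _ h5
      omega
  have htm : ∀ A : Flag P, t ∈ A := by
    intro A
    obtain ⟨x, hx, hx'⟩ := hP.flags A d (by omega) le_rfl
    rcases (ht1 x).eq_or_lt with h5 | h5
    · rw [← h5]; exact hx
    · have := hP.strict _ _ h5
      omega
  have hbt : b < t := lt_of_le_of_ne (hb1 t) (by rintro rfl; omega)
  refine CNN.main hf (d + 1) b t C D hbt (by push_cast; omega) (hbm C) (htm C) ?_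
  intro i hi1 hi2 hi3
  rcases hi3 with hi3 | hi3 | hi3
  · exact ⟨b, by omega, hbm C, hbm D⟩
  · exact ⟨t, by omega, htm C, htm D⟩
  · rcases hi1.eq_or_lt with h6 | h6
    · exact ⟨b, by omega, hbm C, hbm D⟩
    · obtain ⟨x, hx, hx'⟩ := hP.flags C i hi1 hi2
      obtain ⟨n, hn⟩ : ∃ n : ℕ, i = (n : ℤ) := ⟨i.toNat, by omega⟩
      exact ⟨x, hx', hx, hCD x hx n (hx'.trans hn) fun hnI => hi3 n hnI hn.symm⟩


theorem poly : PolyI := by
  intro d P _ rk hreg C
  obtain ⟨f1, f2, f3, f4, f5⟩ := flag d P rk hreg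
  have F : POL.Fct d rk := ⟨hreg, f1, f2, f3, f4, f5, conn d P rk hreg⟩
  have hex : ∀ i, i < d → ∃ γ : P ≃o P, POL.Adj rk i C (γ • C) := by
    intro i hi
    obtain ⟨D, hD, hx, -⟩ := F.adj C i hi
    obtain ⟨γ, hγ⟩ := hreg.regular C D
    rw [← hγ] at hD hx
    exact ⟨γ, hD.symm, hx⟩
  choose ρ' hρ' using hex
  set ρ : ℕ → (P ≃o P) := fun i => if h : i < d then ρ' i h else 1 with hρdef
  have hρ : ∀ i, i < d → POL.Adj rk i C (ρ i • C) := by
    intro i hi
    have : ρ i = ρ' i hi := by simp only [hρdef, dif_pos hi]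
    rw [this]
    exact hρ' i hi
  have hge : ∀ i, d ≤ i → ρ i = 1 := by
    intro i hi
    simp only [hρdef, dif_neg (not_lt.2 hi)]
  refine ⟨ρ, f3, fun γ hγ => POL.free F γ hγ, hge, ?_, POL.sq F hρ hge, POL.comm F hρ hge, ?_, ?_,
    POL.moves F hρ hge, POL.stab F hρ⟩
  · intro i hi e
    apply (hρ i hi).1
    rw [e, one_smul]
  · rw [eq_top_iff]
    intro γ _
    exact POL.stab F hρ _ γ (fun x _ i _ hi => absurd (Set.mem_univ i) hi)
  · intro I J
    apply le_antisymm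
    · rintro γ ⟨hI, hJ⟩
      apply POL.stab F hρ
      intro x hx i hr hi
      rw [Set.mem_inter_iff, not_and_or] at hi
      rcases hi with hi | hi
      · exact POL.gpar_fix F hρ hge hI hx hr hi
      · exact POL.gpar_fix F hρ hge hJ hx hr hi
    · apply le_inf
      · exact Subgroup.closure_mono (Set.image_mono Set.inter_subset_left)
      · exact Subgroup.closure_mono (Set.image_mono Set.inter_subset_right)


theorem gens : GensI := by
  intro d P _ rk hP C ρ hρ
  obtain ⟨-, -, -, -, hdia⟩ := flag d P rk hP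
  obtain ⟨ρ', h'⟩ := poly d P rk hP C
  have key : ∀ i (h : i < d), ρ ⟨i, h⟩ = ρ' i := by
    intro i h
    obtain ⟨D, -, -, huniq⟩ := hdia C i h
    have h1 : ρ ⟨i, h⟩ • C = D := by
      refine huniq _ (hρ ⟨i, h⟩).1 ?_
      intro x hx hr
      have e := (hρ ⟨i, h⟩).2 x hx hr
      have := QGE.smul_mem (γ := ρ ⟨i, h⟩) hx
      rwa [e] at this
    have h2 : ρ' i • C = D := by
      refine huniq _ (fun e => h'.ne_one i h (h'.free _ e)) ?_
      intro x hx hr
      have e := h'.moves i x hx hr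
      have := QGE.smul_mem (γ := ρ' i) hx
      rwa [e] at this
    have h3 : ((ρ' i)⁻¹ * ρ ⟨i, h⟩) • C = C := by
      rw [mul_smul, h1, ← h2, inv_smul_smul]
    have h4 := h'.free _ h3
    exact (inv_mul_eq_one.mp h4).symm
  have hE : exG ρ = ρ' := by
    funext i
    by_cases h : i < d
    · rw [exG, dif_pos h, key i h]
    · rw [exG, dif_neg h, h'.one_of_ge i (by omega)]
  rw [hE]
  exact h'

theorem idxI : IdxI := by
  intro d P _ rk hR f
  obtain ⟨b, -⟩ := hR.bot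
  obtain ⟨C, -⟩ := Flag.exists_mem b
  obtain ⟨ρ, hρ⟩ := poly d P rk hR C
  exact card_orbits_eq_index C (fun D => hR.regular C D) hρ.free (symGroup rk f)

end

end FOI
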