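import Pool.Agent.FOI.LinI
import Pool.Agent.FOI.Poset
import Pool.Agent.FOI.Defs

/-!
# From a k-orbit realization of a polytope, finite or infinite, to its algebraic form
-/

namespace FOI

open Lib_helper64.FO FO2 FOK
open scoped RealInnerProductSpace

noncomputable section

/-- `G` is the algebraic form of the realization `f` of the polytope `P` with base flag `C` and
generators `ρ`; `ι` maps the points of `X` to the vertices of `P`. -/
structure AGeoOf {d k : ℕ} {P : Type} [PartialOrder P] (rk : P → ℤ) (f : P → E d) (C : Flag P)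
    (ρ : ℕ → (P ≃o P)) {X : Type} [MulAction (P ≃o P) X] (G : AGeo d k (P ≃o P) X) (ι : X → P) :
    Prop where
  inj : Function.Injective ι
  equiv : ∀ (γ : P ≃o P) (x : X), ι (γ • x) = γ (ι x)
  base : ι G.x0 ∈ C
  rank : ∀ x, rk (ι x) = 0
  surj : ∀ v, rk v = 0 → ∃ x, ι x = v
  gens : G.ρ = ρ
  fval : ∀ x, G.f x = f (ι x)
  sym : G.H = symGroup rk f

/-- A polytope with finitely many vertices on which the automorphism group acts faithfully is
finite. -/
theorem finite_of_vertices {d : ℕ} {P : Type} [PartialOrder P] {rk : P → ℤ}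
    (hP : IsRegularPolytope d rk) (C : Flag P) (h : Finite (P ≃o P)) : Finite P := by
  obtain ⟨h1, h2, -, h4, -⟩ := flag d P rk hP
  have hF : Finite (Flag P) := by
    refine Finite.of_surjective (fun γ : P ≃o P => γ • C) fun D => ?_
    obtain ⟨γ, hγ⟩ := hP.regular C D
    exact ⟨γ, hγ⟩
  have h5 : ∀ x : P, ∃ D : Flag P, x ∈ D := fun x => Flag.exists_mem x
  choose D hD using h5
  refine Finite.of_injective (β := Flag P × Set.Icc (-1 : ℤ) d)
    (fun x => (D x, ⟨rk x, (h2 x).1, (h2 x).2⟩)) ?_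
  intro x y hxy
  have e1 : D x = D y := congrArg Prod.fst hxy
  have e2 : rk x = rk y := congrArg Subtype.val (congrArg Prod.snd hxy)
  exact h1 (D x) x y (hD x) (by rw [e1]; exact hD y) e2

/-- from a `k`-orbit realization to its algebraic form, with the strict bound `k + 1` of the index -/
theorem ageoOf {d k : ℕ} (hk : 1 ≤ k) {P : Type} [PartialOrder P] [Infinite P] {rk : P → ℤ}
    (hP : IsRegularPolytope d rk) {f : P → E d} (hDi : Discr rk f)
    (hf : IsOrbitRealization rk f k) {C : Flag P} {ρ : ℕ → (P ≃o P)} (hρ : PolyGroup d rk C ρ) :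
    ∃ (X : Type) (_ : MulAction (P ≃o P) X) (_ : Infinite X) (G : AGeo d (k + 1) (P ≃o P) X)
      (ι : X → P), AGeoOf rk f C ρ G ι ∧ G.H.index = k := by
  obtain ⟨hfa, horb⟩ := hf
  obtain ⟨x0, h0, hr0⟩ := hP.flags C 0 (by norm_num) (by positivity)
  let _ := GE1.act hρ.rank
  have hsm : ∀ (γ : P ≃o P) (x : {v : P // rk v = 0}), (γ • x).1 = γ x.1 := fun _ _ => rfl
  have hH : ∀ h ∈ symGroup rk f, ∃ T : E d ≃ᵢ E d, ∀ x : {v : P // rk v = 0},
      T (f x.1) = f (h • x).1 := by
    rintro γ ⟨_, T, hT⟩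
    exact ⟨T, fun x => hT x.1 x.2⟩
  have hidx : (symGroup rk f).index = k := by rw [← idxI d P rk hP f, horb]
  have htr : ∀ x : {v : P // rk v = 0}, ∃ g : P ≃o P, g • (⟨x0, hr0⟩ : {v : P // rk v = 0}) = x := by
    rintro ⟨v, hv⟩
    obtain ⟨D, hD⟩ := Flag.exists_mem v
    obtain ⟨γ, hγ⟩ := hP.regular C D
    refine ⟨γ, Subtype.ext ?_⟩
    rw [hsm]
    exact GE1.flag_unique hP D (GE1.smul_mem hγ h0) hD (by rw [hρ.rank, hr0, hv])
  have hinj : Function.Injective fun x : {v : P // rk v = 0} => f x.1 := by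
    rintro ⟨v, hv⟩ ⟨w, hw⟩ e
    apply Subtype.ext
    exact hfa 0 v w (by simpa using hv) (by simpa using hw) e
  have hfix : ∀ (m : ℕ) (γ : P ≃o P), (∀ g ∈ gpar ρ {j | j < m},
      γ • g • (⟨x0, hr0⟩ : {v : P // rk v = 0}) = g • ⟨x0, hr0⟩) → γ ∈ gpar ρ {j | m < j} := by
    intro m γ hγ
    apply hρ.stab
    intro x hx i hi him
    have him' : i ≤ m := by
      by_contra hcon
      exact him (by simpa using hcon)
    refine GE1.fix_below hρ hfa γ x (fun v hv hvx => ?_) i x hi le_rfl
    obtain ⟨g, hg, rfl⟩ := GE1.vertex_trans hP hρ h0 hr0 hx hi hv hvx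
    have hg' : g ∈ gpar ρ {j | j < m} :=
      Subgroup.closure_mono (Set.image_mono fun j (hj : j < i) => lt_of_lt_of_le hj him') hg
    have := congrArg Subtype.val (hγ g hg')
    exact this
  have hone : ∀ γ : P ≃o P, (∀ x : {v : P // rk v = 0}, γ • x = x) → γ = 1 := by
    intro γ hγ
    have h1 := hfix d γ fun g _ => hγ _
    have h2 : gpar ρ {j | d < j} ≤ ⊥ := by
      rw [gpar, Subgroup.closure_le]
      rintro _ ⟨j, hj, rfl⟩
      exact hρ.one_of_ge j (le_of_lt hj)
    exact h2 h1
  have hrange : DiscreteTopology (Set.range fun x : {v : P // rk v = 0} => f x.1) := by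
    have e : (Set.range fun x : {v : P // rk v = 0} => f x.1) = f '' {v | rk v = 0} := by
      ext z
      constructor
      · rintro ⟨⟨v, hv⟩, rfl⟩
        exact ⟨v, hv, rfl⟩
      · rintro ⟨v, hv, rfl⟩
        exact ⟨⟨v, hv⟩, rfl⟩
    rw [e]
    exact hDi
  have hlf := locfinI (fun x : {v : P // rk v = 0} => f x.1) hinj ⟨x0, hr0⟩ htr (symGroup rk f) hH
    (by rw [hidx]; omega) hrange
  have hstab : ∀ j, 1 ≤ j → ρ j • (⟨x0, hr0⟩ : {v : P // rk v = 0}) = ⟨x0, hr0⟩ := by
    intro j hj
    apply Subtype.ext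
    rw [hsm]
    exact hρ.moves j x0 h0 (by rw [hr0]; omega)
  have hfin1 : Finite (gpar ρ {j | 1 ≤ j}) := by
    refine stabI (fun x : {v : P // rk v = 0} => f x.1) hinj ⟨x0, hr0⟩ (symGroup rk f) hH
      (by rw [hidx]; omega) hone hlf _ ?_
    have h1 : gpar ρ {j | 1 ≤ j} ≤
        MulAction.stabilizer (P ≃o P) (⟨x0, hr0⟩ : {v : P // rk v = 0}) := by
      rw [gpar, Subgroup.closure_le]
      rintro _ ⟨j, hj, rfl⟩
      exact hstab j hj
    exact fun u hu => h1 hu
  have hX : Infinite {v : P // rk v = 0} := by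
    rw [← not_finite_iff_infinite]
    intro hfinX
    have h1 : Finite (P ≃o P) := by
      refine Finite.of_injective (β := {v : P // rk v = 0} → {v : P // rk v = 0})
        (fun γ x => γ • x) ?_
      intro γ δ e
      have h2 : δ⁻¹ * γ = 1 := by
        apply hone
        intro x
        have h3 : γ • x = δ • x := congrFun e x
        rw [mul_smul, h3, inv_smul_smul]
      exact (inv_mul_eq_one.1 h2).symm
    have := finite_of_vertices hP C h1
    exact not_finite P
  obtain ⟨T, hT1, hT2, hT3⟩ := linI (fun x : {v : P // rk v = 0} => f x.1) (symGroup rk f) hH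
  let G : AGeo d (k + 1) (P ≃o P) {v : P // rk v = 0} :=
    { ρ := ρ
      x0 := ⟨x0, hr0⟩
      H := symGroup rk f
      f := fun x => f x.1
      T := T
      one_of_ge := hρ.one_of_ge
      ne_one := hρ.ne_one
      sq := hρ.sq
      comm := hρ.comm
      gen := hρ.gen
      inter := hρ.inter
      trans := htr
      stab := hstab
      fix := hfix
      inj := hinj
      idx := by rw [hidx]; omega
      idx0 := by rw [hidx]; omega
      T_mul := hT1
      equiv := hT2
      perp := hT3
      noiso := by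
        rintro γ hγ ⟨g, hg⟩
        apply hγ
        refine ⟨hρ.rank γ, (IsometryEquiv.subRight (f x0)).trans
          (g.toIsometryEquiv.trans (IsometryEquiv.addRight (f (γ x0)))), fun v hv => ?_⟩
        have := hg ⟨v, hv⟩ ⟨x0, hr0⟩
        have h2 : g (f v - f x0) = f (γ v) - f (γ x0) := this
        change g (f v - f x0) + f (γ x0) = f (γ v)
        rw [h2, sub_add_cancel]
      locfin := hlf
      fin1 := hfin1 }
  exact ⟨{v : P // rk v = 0}, inferInstance, hX, G, Subtype.val,
    { inj := Subtype.val_injective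
      equiv := fun _ _ => rfl
      base := h0
      rank := fun x => x.2
      surj := fun v hv => ⟨⟨v, hv⟩, rfl⟩
      gens := rfl
      fval := fun _ => rfl
      sym := rfl }, hidx⟩

end

end FOI
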