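import Pool.Agent.FOI.AGeo
import Pool.Agent.FOK.Stmts2

/-!
# Statements of the modules, finite or infinite polytopes, part 1: sections 1 - 6 of the paper

This is `Pool/Agent/FOK/Stmts1.lean` for `AGeo` (linear frames with the origin at the base vertex,
indices `i ≥ 1`, finite or infinite `Γ`, `k` a strict bound of the index). `S_X` is the statement of
module `X`; the module proves `theorem t_X : M_X`, where `M_X` is `S_X` with the statements of other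
modules as hypotheses. The proofs are those of the files `Pool/Agent/FOK/X.lean` with small changes:
* indices of `N_i`, `V_i` are at least `1`; the groups `up i`, `mid i j` with `i ≥ 1` are finite
  (`AGeo.finite_up`, `AGeo.finite_mid`), `Γ` may be infinite, `H.index ≠ 0`;
* `AGeo.R_F` and `AGeo.F_mul` need that `n`, `γ` fix the base vertex (`AGeo.R_Fi` for `n ∈ N_i`,
  `i ≥ 1`; `AGeo.R_F0`, `AGeo.F_mul0` are the general formulas);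
* `dim V_i ≥ i - 1` instead of `dim V_i ≥ i`, `dim W_m ≥ m` instead of `m + 1`.
-/

namespace FOI

open Lib_helper64.FO FO2 FOK
open scoped RealInnerProductSpace Nat

noncomputable section

/-! ## Section 1 -/

/-- 1.3. Orders. -/
def S_ORD : Prop :=
  ∀ (d k : ℕ) (Γ : Type) [Group Γ] (X : Type) [MulAction Γ X] (G : AGeo d k Γ X)
    (a b : ℕ), 1 ≤ a → a ≤ b → b ≤ d → (b - a + 1)! ≤ Nat.card (G.mid a b)

/-- The index of the core. (`normalCore_eq_ker`: `Γ ⧸ N` acts faithfully on the `k` cosets.) -/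
def S_IDX : Prop :=
  ∀ (d k : ℕ) (Γ : Type) [Group Γ] (X : Type) [MulAction Γ X] (G : AGeo d k Γ X),
    0 < G.N.index ∧ G.N.index ≤ (k - 1)! ∧ G.N.index ≤ k !

/-- 1.4. There are no zeros far from the top; and no zeros at all if `N` contains some `up l`. -/
def S_NZ : Prop :=
  ∀ (d k : ℕ) (Γ : Type) [Group Γ] (X : Type) [MulAction Γ X] (G : AGeo d k Γ X),
    (∀ i, 1 ≤ i → i + k ≤ d + 1 → G.NZ i) ∧
      ∀ l, l < d → G.up l ≤ G.N → ∀ i, 1 ≤ i → i < d → G.NZ i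

def M_NZ : Prop := S_ORD → S_IDX → S_NZ

/-- 1.7, 1.8. -/
def S_STEP : Prop :=
  ∀ (d k : ℕ) (Γ : Type) [Group Γ] (X : Type) [MulAction Γ X] (G : AGeo d k Γ X) (g : Γ),
    (∀ i, 1 ≤ i → G.NZ i → ¬ G.W g i ≤ G.V g i) ∧
    (∀ i, 1 ≤ i → G.NZ i → G.V g i < G.V g (i + 1)) ∧
    (∀ i, 1 ≤ i → G.NZ (i + 1) → G.V (g * G.ρ i) (i + 1) ≠ G.V g (i + 1)) ∧
    ∀ m, (∀ i, 1 ≤ i → i ≤ m → G.NZ i) → m ≤ Module.finrank ℝ (G.W g m)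

/-! ## Section 2 -/

/-- The window `[u, q + 1]` (`v = q + 1`). -/
structure Win {d k : ℕ} {Γ : Type} [Group Γ] {X : Type} [MulAction Γ X] (G : AGeo d k Γ X)
    (u q : ℕ) : Prop where
  hu : 1 ≤ u
  huq : u + (2 * k + 3) ≤ q
  hq : q + k ≤ d
  nz : ∀ i, 1 ≤ i → i + k ≤ d + 1 → G.NZ i
  line : ∀ g i, u ≤ i → i ≤ q → Module.finrank ℝ (G.D g i) = 1
  plat : ∀ γ ∈ G.up u, ∃ a ∈ G.up (q + 1), ∃ n ∈ G.N, γ = a * n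

/-- The number of values of a function that is constant on the cosets `H g`. -/
def S_CNT : Prop :=
  ∀ (Γ : Type) [Group Γ] (H : Subgroup Γ) (α : Type) (s : Γ → α), H.index ≠ 0 →
    (∀ h ∈ H, ∀ g, s (h * g) = s g) → (Set.range s).Finite ∧ (Set.range s).ncard ≤ H.index

/-- 2. Existence of the window. Sum over the right cosets: `∑ c : Γ ⧸ H, _ (c.out)⁻¹`; use S_PG with
`K = 2 * k ^ 2`, `L = 2 * k ^ 2 * (6 * k + 3) + 2 * k + 4`, `m = 1` for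
`s i = ∑ c, (dim V_i - (i - 1)) + Nat.log 2 (up i ⊔ N).index` and `k ! ≤ 2 ^ (k * (k - 1))`.
There are at most `k - 1` cosets; `i - 1 ≤ dim V_i ≤ i + k - 2` for `1 ≤ i ≤ d - k + 2`. Note that
`k ≥ 2` (`1 ≤ H.index < k`), so that `1 + K * L ≤ 48 * k ^ 5`. -/
def S_WIN : Prop :=
  ∀ (d k : ℕ) (Γ : Type) [Group Γ] (X : Type) [MulAction Γ X] (G : AGeo d k Γ X),
    100 * k ^ 5 ≤ d →
    ∃ u q, Win G u q ∧ q = u + (2 * k ^ 2 * (6 * k + 3) + 2 * k + 3) ∧ q + 1 ≤ 48 * k ^ 5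

def M_WIN : Prop := FOK.S_PG → S_IDX → S_NZ → S_STEP → S_WIN

/-! ## Section 3 -/

/-- 3.1, 3.2, 3.4 -/
def S_Y : Prop :=
  ∀ (d k : ℕ) (Γ : Type) [Group Γ] (X : Type) [MulAction Γ X] (G : AGeo d k Γ X)
    (u q : ℕ), Win G u q → ∀ (g : Γ) (p : ℕ), u ≤ p → p ≤ q →
    (∀ B ≤ G.Y g p, (∀ n ∈ G.Ni p, ∀ w ∈ B, G.R g n w ∈ B) → B = ⊥ ∨ B = G.Y g p) ∧
    (∀ B : Submodule ℝ (E d), (∀ n ∈ G.Ni p, ∀ w ∈ B, G.R g n w ∈ B) →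
      ∀ i, p ≤ i → i ≤ q → G.D g i ≤ B ∨ G.D g i ≤ Bᗮ) ∧
    ∀ A : E d →ₗ[ℝ] E d, (∀ w ∈ G.Y g p, A w ∈ G.Y g p) →
      (∀ n ∈ G.Ni p, ∀ w ∈ G.Y g p, A (G.R g n w) = G.R g n (A w)) →
      ∃ c : ℝ, ∀ w ∈ G.Y g p, A w = c • w

/-- The plane `D_i + D_{i+1}` in the frames `g` and `g ρ_i`, and the decomposition of `V_j`. -/
def S_PL : Prop :=
  ∀ (d k : ℕ) (Γ : Type) [Group Γ] (X : Type) [MulAction Γ X] (G : AGeo d k Γ X)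
    (u q : ℕ), Win G u q → ∀ (g : Γ),
    (∀ i, u ≤ i → i < q →
      G.D (g * G.ρ i) i ⊔ G.D (g * G.ρ i) (i + 1) = G.D g i ⊔ G.D g (i + 1) ∧
      G.D (g * G.ρ i) i ≠ G.D g i ∧
      (G.D (g * G.ρ i) i = G.D g (i + 1) → G.D (g * G.ρ i) (i + 1) = G.D g i)) ∧
    (∀ i j, u ≤ i → i < j → j ≤ q → G.D g i ≤ (G.D g j)ᗮ ∧ G.D g j ≤ (G.D g i)ᗮ) ∧
    ∀ i j, u ≤ i → i ≤ j → j ≤ q + 1 → G.V g j = G.V g i ⊔ ⨆ m ∈ Finset.Ico i j, G.D g m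

def M_PL : Prop := S_STEP → S_PL

/-- 3.3. The transposition of the set `Λ`. -/
def S_SWAP : Prop :=
  ∀ (d k : ℕ) (Γ : Type) [Group Γ] (X : Type) [MulAction Γ X] (G : AGeo d k Γ X)
    (u q : ℕ), Win G u q → ∀ (g : Γ) (p i : ℕ), u ≤ p → p < i → i < q →
    G.Y (g * G.ρ i) p = G.Y g p ∧
    (G.D (g * G.ρ i) i ≤ G.Y g p ↔ G.D g (i + 1) ≤ G.Y g p) ∧
    (G.D (g * G.ρ i) (i + 1) ≤ G.Y g p ↔ G.D g i ≤ G.Y g p)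

def M_SWAP : Prop := S_Y → S_PL → S_SWAP

/-- 3.3. The dichotomy. -/
def S_DICH : Prop :=
  ∀ (d k : ℕ) (Γ : Type) [Group Γ] (X : Type) [MulAction Γ X] (G : AGeo d k Γ X)
    (u q : ℕ), Win G u q → ∀ (p : ℕ), u ≤ p → p + k + 1 ≤ q → ∀ g : Γ,
    (∀ i, p < i → i ≤ q → G.D g i ≤ G.Y g p) ∨ (∀ i, p < i → i ≤ q → G.D g i ≤ (G.Y g p)ᗮ)

def M_DICH : Prop := S_CNT → FOK.S_SW → S_Y → S_PL → S_SWAP → S_DICH

/-- the frame `g` is isolated at `p` -/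
def Isol {d k : ℕ} {Γ : Type} [Group Γ] {X : Type} [MulAction Γ X] (G : AGeo d k Γ X) (q p : ℕ)
    (g : Γ) : Prop := ∀ i, p < i → i ≤ q → G.D g i ≤ (G.Y g p)ᗮ

/-- 3.3, the argument used in (i) and (iii). The frames `g1` and `g2` are in `g (up p)`, so that
the modules `Y g1 p` and `Y g2 p` are modules of the same group. -/
def S_KEY : Prop :=
  ∀ (d k : ℕ) (Γ : Type) [Group Γ] (X : Type) [MulAction Γ X] (G : AGeo d k Γ X)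
    (u q : ℕ), Win G u q → ∀ (p i : ℕ), u ≤ p → p ≤ q → p ≤ i → ∀ g g1 g2 : Γ,
    (∃ γ ∈ G.up p, g1 = g * γ) → (∃ γ ∈ G.up p, g2 = g * γ) → ∀ (e e' : E d) (α β : ℝ),
    e ∈ G.D g i → e ≠ 0 → e' ∈ G.D g (i + 1) → α ≠ 0 → β ≠ 0 → α • e + β • e' ∈ G.D g1 p →
    e ∈ G.D g2 p → e' ∈ (G.Y g2 p)ᗮ → e' = 0

def M_KEY : Prop := S_Y → S_KEY

/-- 3.3 (i) -/
def S_ISO1 : Prop :=
  ∀ (d k : ℕ) (Γ : Type) [Group Γ] (X : Type) [MulAction Γ X] (G : AGeo d k Γ X)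
    (u q : ℕ), Win G u q → ∀ (p : ℕ), u ≤ p → p + k + 1 ≤ q → ∀ g, Isol G q p g →
    G.D (g * G.ρ p) p = G.D g (p + 1) ∧ Isol G q p (g * G.ρ p)

def M_ISO1 : Prop := S_Y → S_PL → S_DICH → S_KEY → S_ISO1

/-- 3.3 (ii), (iii) -/
def S_ISO2 : Prop :=
  ∀ (d k : ℕ) (Γ : Type) [Group Γ] (X : Type) [MulAction Γ X] (G : AGeo d k Γ X)
    (u q : ℕ), Win G u q → ∀ (p : ℕ), u ≤ p → p + k + 1 ≤ q → ∀ g, Isol G q p g →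
    ∀ γ ∈ G.mid p q, Isol G q p (g * γ) ∧ ∀ i, p ≤ i → i < q →
      G.D (g * γ * G.ρ i) i = G.D (g * γ) (i + 1) ∧ G.D (g * γ * G.ρ i) (i + 1) = G.D (g * γ) i

def M_ISO2 : Prop := S_Y → S_PL → S_SWAP → S_DICH → S_KEY → S_ISO1 → S_ISO2

/-- 3.3 (iv) -/
def S_ISO3 : Prop :=
  ∀ (d k : ℕ) (Γ : Type) [Group Γ] (X : Type) [MulAction Γ X] (G : AGeo d k Γ X)
    (u q : ℕ), Win G u q → ∀ (p : ℕ), u ≤ p → p + k + 1 ≤ q → ∀ g, Isol G q p g →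
    Nat.card (G.mid p q) ≤ k ! * 2 ^ (q + 1 - p)

def M_ISO3 : Prop := S_Y → S_PL → S_IDX → S_ISO2 → S_ISO3

/-- 3.3 -/
def S_IRR : Prop :=
  ∀ (d k : ℕ) (Γ : Type) [Group Γ] (X : Type) [MulAction Γ X] (G : AGeo d k Γ X)
    (u q : ℕ), Win G u q → ∀ (g : Γ) (p : ℕ), u ≤ p → p + (2 * k + 3) ≤ q →
    ∀ i, p ≤ i → i ≤ q → G.D g i ≤ G.Y g p

def M_IRR : Prop := S_ORD → S_DICH → S_ISO3 → S_IRR

/-! ## Section 4 -/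

/-- 4.1 -/
def S_S1 : Prop :=
  ∀ (d k : ℕ) (Γ : Type) [Group Γ] (X : Type) [MulAction Γ X] (G : AGeo d k Γ X)
    (u q : ℕ), Win G u q → ∀ (g : Γ) (p : ℕ), u ≤ p → p + (2 * k + 3) ≤ q →
    G.Y g p ≤ G.S q g p ∧ G.S q g p ≤ G.V g p ⊔ G.Y g p ∧ G.S q g p ⊓ G.U g p = G.Y g p

def M_S1 : Prop := S_STEP → S_Y → S_PL → S_IRR → S_S1

/-- 4.2 -/
def S_S2 : Prop :=
  ∀ (d k : ℕ) (Γ : Type) [Group Γ] (X : Type) [MulAction Γ X] (G : AGeo d k Γ X)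
    (q j : ℕ), 1 ≤ j → j ≤ q → ∀ g,
    (∀ i, q + 1 ≤ i → G.NZ i → ¬ G.S q g j ⊓ G.V g (i + 1) ≤ G.V g i) ∧
    ∀ m, q + 1 ≤ m → m ≤ d → (∀ i, 1 ≤ i → i < m → G.NZ i) →
      m ≤ Module.finrank ℝ (G.S q g j) + 1

def M_S2 : Prop := S_STEP → S_S2

/-! ## Section 5 -/

/-- `κ` is an isometry as in 5.4 for the index `l` and the frame `g`. -/
structure IsK {d k : ℕ} {Γ : Type} [Group Γ] {X : Type} [MulAction Γ X] (G : AGeo d k Γ X)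
    (g : Γ) (l : ℕ) (κ : E d ≃ₗᵢ[ℝ] E d) (ε : ℝ) : Prop where
  sgn : ε = 1 ∨ ε = -1
  fix : ∀ v ∈ G.V g l, κ v = v
  scal : ∀ w ∈ G.U g (l + 2), κ w = ε • w
  inv : ∀ v, κ (κ v) = v
  pres : ∀ v ∈ G.V g (l + 2), κ v ∈ G.V g (l + 2)
  moves : ∀ e ∈ G.D g l, e ≠ 0 → κ e ∉ G.D g l

/-- `n` is an element `n_l` as in 5.1 -/
structure IsN {d k : ℕ} {Γ : Type} [Group Γ] {X : Type} [MulAction Γ X] (G : AGeo d k Γ X)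
    (q l : ℕ) (n : Γ) : Prop where
  mem : n ∈ G.Ni l
  act : ∀ a ∈ G.dn q, n • a • G.x0 = G.ρ l • a • G.x0
  comm : ∀ i, l + 2 ≤ i → i < q → G.ρ i * n * G.ρ i = n
  V : ∀ g i v, i ≤ q + 1 → (G.R g n v ∈ G.V (g * G.ρ l) i ↔ v ∈ G.V g i)

/-- 5.1 -/
def S_A1 : Prop :=
  ∀ (d k : ℕ) (Γ : Type) [Group Γ] (X : Type) [MulAction Γ X] (G : AGeo d k Γ X)
    (u q : ℕ), Win G u q → ∀ l, u ≤ l → l < q → ∃ n, IsN G q l n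

/-- 5.2: `A = R g n` on `V_{l+2}` -/
def S_A2 : Prop :=
  ∀ (d k : ℕ) (Γ : Type) [Group Γ] (X : Type) [MulAction Γ X] (G : AGeo d k Γ X)
    (u q : ℕ), Win G u q → ∀ l, u ≤ l → l < q → ∀ n, IsN G q l n → ∀ g,
      (∀ v ∈ G.V g (l + 2), G.R g n v ∈ G.V g (l + 2) ∧ G.R g n (G.R g n v) = v) ∧
      (∀ e ∈ G.D g l, e ≠ 0 → G.R g n e ∉ G.D g l) ∧
      ∀ i, l + 2 ≤ i → i ≤ q → ∃ δ : ℝ, (δ = 1 ∨ δ = -1) ∧ ∀ e ∈ G.D g i, G.R g n e = δ • e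

def M_A2 : Prop := S_STEP → S_PL → S_A2

/-- 5.3: the signs are constant -/
def S_A3 : Prop :=
  ∀ (d k : ℕ) (Γ : Type) [Group Γ] (X : Type) [MulAction Γ X] (G : AGeo d k Γ X)
    (u q : ℕ), Win G u q → ∀ l, u ≤ l → l + k + 2 ≤ q → ∀ n, IsN G q l n →
    ∀ g, ∃ ε : ℝ, (ε = 1 ∨ ε = -1) ∧ ∀ i, l + 2 ≤ i → i ≤ q → ∀ e ∈ G.D g i, G.R g n e = ε • e

def M_A3 : Prop := S_PL → S_CNT → FOK.S_SW → S_A2 → S_A3

/-- 5.4 -/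
def S_K : Prop :=
  ∀ (d k : ℕ) (Γ : Type) [Group Γ] (X : Type) [MulAction Γ X] (G : AGeo d k Γ X)
    (u q : ℕ), Win G u q → ∀ l, u ≤ l → l + k + 2 ≤ q → ∀ g,
    ∃ κ ε, IsK G g l κ ε ∧ ∀ y ∈ G.XX q (l + 2), G.F g (G.ρ l • y) = κ (G.F g y)

def M_K : Prop := S_PL → S_A1 → S_A2 → S_A3 → S_K

/-! ## Section 6 -/

/-- the interval `[j1, j2]` -/
structure Sub {d k : ℕ} {Γ : Type} [Group Γ] {X : Type} [MulAction Γ X] (G : AGeo d k Γ X)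
    (u q j1 j2 : ℕ) : Prop where
  win : Win G u q
  huj : u ≤ j1
  hj : j2 = j1 + (6 * k + 3)
  hjq : j2 + (2 * k + 3) ≤ q
  /-- the space `S` is constant -/
  S : ∀ g j, j1 ≤ j → j ≤ j2 → G.S q g j = G.S q g j1
  /-- dimensions -/
  dim : ∀ g, d + 1 ≤ Module.finrank ℝ (G.S q g j1) + k
  hd : 2 * q + 2 ≤ d
  dimY : ∀ g p, j1 ≤ p → p ≤ j1 + 5 → 12 * k + 20 ≤ Module.finrank ℝ (G.Y g p)
  /-- 3.3 and 4.1 -/
  D : ∀ g p, j1 ≤ p → p ≤ j2 → ∀ i, p ≤ i → i ≤ q → G.D g i ≤ G.Y g p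
  Y : ∀ g p, j1 ≤ p → p ≤ j2 → G.S q g j1 ⊓ G.U g p = G.Y g p
  VY : ∀ g p, j1 ≤ p → p ≤ j2 → G.S q g j1 ≤ G.V g p ⊔ G.Y g p
  /-- 6.1 -/
  kap : ∀ g l, j1 ≤ l → l + 2 ≤ j2 → ∃ κ ε, IsK G g l κ ε ∧
    (∀ y ∈ G.XX q j1, G.F g (G.ρ l • y) = κ (G.F g y)) ∧ ∀ w ∈ G.S q g j1, κ w ∈ G.S q g j1

/-- `E_j(g, g')` -/
def EqI {d k : ℕ} {Γ : Type} [Group Γ] {X : Type} [MulAction Γ X] (G : AGeo d k Γ X) (q j : ℕ)
    (g g' : Γ) : Prop :=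
  ∀ y ∈ G.XX q j, ∀ z ∈ G.XX q j, ⟪G.F g y, G.F g z⟫ = ⟪G.F g' y, G.F g' z⟫

/-- 6, first part: the interval. Use S_PG with `K = 2 * k ^ 2`, `L = 6 * k + 3`, `m = u`. -/
def S_INT : Prop :=
  ∀ (d k : ℕ) (Γ : Type) [Group Γ] (X : Type) [MulAction Γ X] (G : AGeo d k Γ X)
    (u q : ℕ), Win G u q → q = u + (2 * k ^ 2 * (6 * k + 3) + 2 * k + 3) →
    ∃ j1, u ≤ j1 ∧ j1 + (6 * k + 3) + (2 * k + 3) ≤ q ∧
      ∀ j, j1 ≤ j → j ≤ j1 + (6 * k + 3) → (∀ g, G.S q g j = G.S q g j1) ∧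
        ∀ g g', EqI G q j g g' → EqI G q j1 g g'

def M_INT : Prop := FOK.S_PG → S_S2 → S_INT

/-- 6.1. `dimY`: `dim S ≥ d - k + 1`, `S ≤ V_p ⊔ Y_p`, and `dim V_p ≤ p + k - 1` (the dimensions of
`V_i` increase strictly up to `i = d - k + 1`). -/
def S_SUB : Prop :=
  ∀ (d k : ℕ) (Γ : Type) [Group Γ] (X : Type) [MulAction Γ X] (G : AGeo d k Γ X)
    (u q : ℕ), 100 * k ^ 5 ≤ d → Win G u q →
    q = u + (2 * k ^ 2 * (6 * k + 3) + 2 * k + 3) → q + 1 ≤ 48 * k ^ 5 →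
    ∃ j1 j2, Sub G u q j1 j2

def M_SUB : Prop := S_STEP → S_IRR → S_S1 → S_S2 → S_K → S_INT → S_SUB

end

end FOI
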