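import Pool.Agent.FOI.AStmts2
import Pool.Agent.FOI.Defs

/-!
# Statements of the modules, block II: the affine reflections, the lattice, the extension to `Γ`

Paper: `Pool/Agent/FOI/PAPER.md`, section II. `S_X` is the statement of module `X`; the module proves
`theorem t_X : M_X` (or `t_X : S_X` if there is no `M_X`).
-/

namespace FOI

open Lib_helper64.FO FO2 FOK
open scoped RealInnerProductSpace Nat

noncomputable section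

variable {d k : ℕ} {Γ : Type} [Group Γ] {X : Type} [MulAction Γ X]

/-- the space spanned by the roots of the conjugates of `ρ l` under `up i`, in the frame `1` -/
def Sp (G : AGeo d k Γ X) (i l : ℕ) : Submodule ℝ (E d) := Submodule.span ℝ (Ph G 1 i l)

/-! ## II.1 -/

/-- II.1 -/
structure TopI (G : AGeo d k Γ X) (l : ℕ) (g : Γ) (i : ℕ) : Prop where
  TN : TT G i l ⊆ G.Ni i
  rs : IsRS (Ph G g i l)
  irr : IrrRS (Ph G g i l)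
  dim : d ≤ Module.finrank ℝ (Submodule.span ℝ (Ph G g i l)) + i
  perp : Submodule.span ℝ (Ph G g i l) ≤ G.U g i
  root : ∀ x ∈ TT G i l, ∃ a ∈ Ph G g i l, ∀ v, G.R g x v = sref a v
  inv : ∀ n ∈ G.Ni i, ∀ a ∈ Ph G g i l, G.R g n a ∈ Ph G g i l
  trans : ∀ a ∈ Ph G g i l, ∀ b ∈ Ph G g i l, ∃ n ∈ G.Ni i, G.R g n a = b ∨ G.R g n a = -b

/-- II.1, for `i ≥ 1`. Compare `FOK.t_TI` (`Pool/Agent/FOK/TI.lean`). -/
def S_TI : Prop :=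
  ∀ (d k : ℕ) (Γ : Type) [Group Γ] (X : Type) [MulAction Γ X] (G : AGeo d k Γ X)
    (l : ℕ), ATop G l → ∀ g i, 1 ≤ i → i ≤ l → TopI G l g i

/-- II.1, the argument for the strict inclusions: the conjugates of `ρ l` under `up i` do not all
fix the points `F g (a x0)`, `a ∈ dn i`; and they do not after conjugation by `ρ (i - 1)`. (L1; for the
second part first `AGeo.L2`.) -/
def S_TW : Prop :=
  ∀ (d k : ℕ) (Γ : Type) [Group Γ] (X : Type) [MulAction Γ X] (G : AGeo d k Γ X)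
    (l : ℕ), ATop G l → ∀ i, 1 ≤ i → i ≤ l →
    (¬ ∀ x ∈ TT G i l, ∀ a ∈ G.dn i, G.R 1 x (G.F 1 (a • G.x0)) = G.F 1 (a • G.x0)) ∧
    (2 ≤ i → ¬ ∀ x ∈ TT G i l, ∀ a ∈ G.dn (i - 1),
      G.R 1 (G.ρ (i - 1) * x * G.ρ (i - 1)) (G.F 1 (a • G.x0)) = G.F 1 (a • G.x0))

def M_TW : Prop := S_TI → S_TW

/-! ## II.2 -/

/-- the affine isometry given by `n ∈ N` -/
def aff (G : AGeo d k Γ X) (n : Γ) (z : E d) : E d := G.R 1 n (z - G.f G.x0) + G.f (n • G.x0)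

/-- `x` acts as the reflection in the hyperplane `⟪a, z⟫ = h` -/
structure Mir (G : AGeo d k Γ X) (x : Γ) (a : E d) (h : ℝ) : Prop where
  norm : ‖a‖ = 1
  lin : ∀ v, G.R 1 x v = sref a v
  aff : ∀ z, aff G x z = z - (2 * (⟪a, z⟫ - h)) • a

/-- II.2, first part -/
def S_AFF : Prop :=
  ∀ (d k : ℕ) (Γ : Type) [Group Γ] (X : Type) [MulAction Γ X] (G : AGeo d k Γ X),
    (∀ n ∈ G.N, ∀ y, aff G n (G.f y) = G.f (n • y)) ∧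
    (∀ m ∈ G.N, ∀ n ∈ G.N, ∀ z, aff G (m * n) z = aff G m (aff G n z)) ∧
    (∀ n z w, aff G n z - aff G n w = G.R 1 n (z - w)) ∧
    (∀ z, aff G 1 z = z) ∧
    ∀ m ∈ G.N, ∀ n ∈ G.N, (∀ y, aff G m (G.f y) = aff G n (G.f y)) → m = n

/-- II.2, second part. `Γ = N ⟨ρ 0, …, ρ (l - 4)⟩`. -/
def S_MIR : Prop :=
  ∀ (d k : ℕ) (Γ : Type) [Group Γ] (X : Type) [MulAction Γ X] (G : AGeo d k Γ X)
    (l : ℕ), ATop G l →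
    (∀ γ : Γ, ∃ n ∈ G.N, ∃ w ∈ G.dn (l - 3), γ = n * w) ∧
    (∀ x ∈ TT G 0 l, x ∈ G.N ∧ ∃ n ∈ G.N, x = n * G.ρ l * n⁻¹) ∧
    (∀ x ∈ TT G 0 l, ∃ a h, Mir G x a h) ∧
    (∀ x ∈ TT G 0 l, ∀ a, ‖a‖ = 1 → (∀ v, G.R 1 x v = sref a v) → ∃ h, Mir G x a h) ∧
    (∀ x ∈ TT G 1 l, ∀ a h, Mir G x a h → h = ⟪a, G.f G.x0⟫) ∧
    ∀ a, a ∈ Ph G 1 0 l ↔ ∃ x ∈ TT G 0 l, ∃ h, Mir G x a h

def M_MIR : Prop := S_AFF → S_MIR

/-- II.3 -/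
def S_PROP : Prop :=
  ∀ (d k : ℕ) (Γ : Type) [Group Γ] (X : Type) [MulAction Γ X] (G : AGeo d k Γ X) (z : E d)
    (r : ℝ), {n : Γ | n ∈ G.N ∧ ‖aff G n z - z‖ ≤ r}.Finite

def M_PROP : Prop := S_AFF → S_PROP

/-! ## II.4 - II.8 -/

/-- II.4. `FOK.Hom` for `span (Ph G 1 1 l)` and the group of the `R 1 n`, `n ∈ N_1`. -/
def S_CH : Prop :=
  ∀ (d k : ℕ) (Γ : Type) [Group Γ] (X : Type) [MulAction Γ X] (G : AGeo d k Γ X)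
    (l : ℕ), ATop G l → ∀ c ∈ Ph G 1 1 l, ∃ c2 ∈ Ph G 1 1 l, ∃ c3 ∈ Ph G 1 1 l,
    ∃ c4 ∈ Ph G 1 1 l, ∃ c5 ∈ Ph G 1 1 l, ⟪c, c2⟫ ≠ 0 ∧ ⟪c2, c3⟫ ≠ 0 ∧ ⟪c, c4⟫ ≠ 0 ∧ ⟪c4, c5⟫ ≠ 0 ∧
      LinearIndependent ℝ ![c, c2, c3, c4, c5]

def M_CH : Prop := S_TI → S_CH

/-- II.5. Use `FO2.rga`, `FO2.rgb` and an isometry of the span of the component with `E n`. -/
def S_CMP : Prop :=
  ∀ (d : ℕ) (Φ : Set (E d)), IsRS Φ → ∀ c1 ∈ Φ, ∀ c2 ∈ Φ, ∀ c3 ∈ Φ,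
    LinearIndependent ℝ ![c1, c2, c3] → ⟪c1, c2⟫ ≠ 0 → ⟪c2, c3⟫ ≠ 0 → ∀ a ∈ Φ, AS ⟪a, c1⟫

/-- II.6 -/
def S_ASV : Prop :=
  ∀ (d k : ℕ) (Γ : Type) [Group Γ] (X : Type) [MulAction Γ X] (G : AGeo d k Γ X)
    (l : ℕ), ATop G l → ∀ a ∈ Ph G 1 0 l, ∀ c ∈ Ph G 1 1 l, AS ⟪a, c⟫

def M_ASV : Prop := S_TI → S_AFF → S_MIR → S_PROP → S_CH → S_CMP → S_ASV

/-- II.7 -/
def S_FIN : Prop :=
  ∀ (d k : ℕ) (Γ : Type) [Group Γ] (X : Type) [MulAction Γ X] (G : AGeo d k Γ X)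
    (l : ℕ), ATop G l → (Ph G 1 0 l).Finite ∧ {h | ∃ n ∈ G.N, G.R 1 n = h}.Finite

def M_FIN : Prop := S_TI → S_MIR → S_ASV → S_FIN

/-- II.8: the root set of all directions -/
structure DirS (G : AGeo d k Γ X) (l : ℕ) : Prop where
  rs : IsRS (Ph G 1 0 l)
  irr : IrrRS (Ph G 1 0 l)
  sub : Ph G 1 1 l ⊆ Ph G 1 0 l
  inv : ∀ n ∈ G.N, ∀ a ∈ Ph G 1 0 l, G.R 1 n a ∈ Ph G 1 0 l
  trans : ∀ a ∈ Ph G 1 0 l, ∀ b ∈ Ph G 1 0 l, ∃ n ∈ G.N, G.R 1 n a = b ∨ G.R 1 n a = -b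
  dim : d ≤ Module.finrank ℝ (Sp G 0 l) + 1
  alt : Sp G 0 l = ⊤ ∨ Sp G 0 l = Sp G 1 l
  sl : SL (Ph G 1 0 l)
  typ : (∃ v, ModA d (Module.finrank ℝ (Sp G 0 l)) (Sp G 0 l) (Ph G 1 0 l) v) ∨
    ∃ u, ModD d (Module.finrank ℝ (Sp G 0 l)) (Sp G 0 l) (Ph G 1 0 l) u

/-- II.8 -/
def S_DIR : Prop :=
  ∀ (d k : ℕ) (Γ : Type) [Group Γ] (X : Type) [MulAction Γ X] (G : AGeo d k Γ X)
    (l : ℕ), ATop G l → DirS G l

def M_DIR : Prop := S_TI → S_MIR → S_FIN → S_DIR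

/-! ## II.9, II.10: the lattice -/

/-- the elements of `N` with linear part `1` -/
def Kr (G : AGeo d k Γ X) : Subgroup Γ where
  carrier := {n | n ∈ G.N ∧ G.R 1 n = 1}
  mul_mem' := by
    rintro m n ⟨h1, h2⟩ ⟨h3, h4⟩
    exact ⟨mul_mem h1 h3, by rw [G.R_mul 1 h1 h3, h2, h4, one_mul]⟩
  one_mem' := ⟨one_mem _, G.R_one 1⟩
  inv_mem' := by
    rintro n ⟨h1, h2⟩
    exact ⟨inv_mem h1, by rw [G.R_inv 1 h1, h2, inv_one]⟩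

/-- the normal subgroup `L` -/
def Lt (G : AGeo d k Γ X) : Subgroup Γ := (Kr G).normalCore

/-- the translation vector -/
def tau (G : AGeo d k Γ X) (n : Γ) : E d := G.f (n • G.x0) - G.f G.x0

/-- II.9 -/
structure Lat (G : AGeo d k Γ X) : Prop where
  idx : (Lt G).index ≠ 0
  nrm : ∀ γ : Γ, ∀ n ∈ Lt G, γ * n * γ⁻¹ ∈ Lt G
  inN : ∀ n ∈ Lt G, n ∈ G.N ∧ ∀ g, G.R g n = 1
  act : ∀ n ∈ Lt G, ∀ y, G.f (n • y) = G.f y + tau G n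
  add : ∀ m ∈ Lt G, ∀ n ∈ Lt G, tau G (m * n) = tau G m + tau G n
  inj : ∀ n ∈ Lt G, tau G n = 0 → n = 1
  com : ∀ m ∈ Lt G, ∀ n ∈ Lt G, m * n = n * m
  fin : ∀ r : ℝ, {n | n ∈ Lt G ∧ ‖tau G n‖ ≤ r}.Finite
  H : ∀ h ∈ G.H, ∀ n ∈ Lt G, tau G (h * n * h⁻¹) = G.T h (tau G n)

def S_LAT : Prop :=
  ∀ (d k : ℕ) (Γ : Type) [Group Γ] (X : Type) [MulAction Γ X] (G : AGeo d k Γ X)
    (l : ℕ), ATop G l → Lat G

def M_LAT : Prop := S_FIN → S_LAT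

/-- the group `L0` -/
def L0 (G : AGeo d k Γ X) (l : ℕ) : Subgroup Γ := Lt G ⊓ Subgroup.closure (TT G 0 l)

/-- II.10, first part: the elements of the group generated by the reflections move points by vectors
of `I`; commutators. -/
def S_CMM : Prop :=
  ∀ (d k : ℕ) (Γ : Type) [Group Γ] (X : Type) [MulAction Γ X] (G : AGeo d k Γ X)
    (l : ℕ), ATop G l →
    (∀ γ : Γ, ∀ n ∈ Subgroup.closure (TT G 0 l), γ * n * γ⁻¹ ∈ Subgroup.closure (TT G 0 l)) ∧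
    (∀ n ∈ Subgroup.closure (TT G 0 l), n ∈ G.N ∧ ∀ z, aff G n z - z ∈ Sp G 0 l) ∧
    (∀ γ : Γ, ∀ n ∈ L0 G l, γ * n * γ⁻¹ ∈ L0 G l) ∧
    (∀ n ∈ L0 G l, tau G n ∈ Sp G 0 l) ∧
    ∀ x ∈ TT G 0 l, ∀ a, (∀ v, G.R 1 x v = sref a v) → ∀ n ∈ Lt G,
      x * n * x⁻¹ * n⁻¹ ∈ L0 G l ∧ tau G (x * n * x⁻¹ * n⁻¹) = -(2 * ⟪a, tau G n⟫) • a

def M_CMM : Prop := S_AFF → S_MIR → S_LAT → S_CMM

/-- II.10, second part: `R0` is infinite -/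
def S_INF : Prop :=
  ∀ (d k : ℕ) (Γ : Type) [Group Γ] (X : Type) [MulAction Γ X] [Infinite X] (G : AGeo d k Γ X)
    (l : ℕ), ATop G l → Sp G 0 l ≤ Submodule.span ℝ {v | ∃ n ∈ Lt G, tau G n = v}

def M_INF : Prop := S_TI → S_AFF → S_MIR → S_DIR → S_LAT → S_CMM → S_INF

/-- II.10 -/
def S_SPAN : Prop :=
  ∀ (d k : ℕ) (Γ : Type) [Group Γ] (X : Type) [MulAction Γ X] [Infinite X] (G : AGeo d k Γ X)
    (l : ℕ), ATop G l → Submodule.span ℝ {v | ∃ n ∈ L0 G l, tau G n = v} = Sp G 0 l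

def M_SPAN : Prop := S_MIR → S_DIR → S_LAT → S_CMM → S_INF → S_SPAN

/-! ## II.11: the extension of the linear parts to `Γ` -/

/-- An additive map of a lattice extends to a linear map (`IsZLattice`,
`Module.Basis.ofZLatticeBasis`; or: choose a subset of `S` that is a basis of the span, the group
generated by it has finite index in `S`). -/
def S_LEX : Prop :=
  ∀ (d : ℕ) (I : Submodule ℝ (E d)) (S : AddSubgroup (E d)) (p : E d → E d),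
    (∀ r : ℝ, {v | v ∈ S ∧ ‖v‖ ≤ r}.Finite) → Submodule.span ℝ (S : Set (E d)) = I →
    (∀ v ∈ S, ∀ w ∈ S, p (v + w) = p v + p w) →
    ∃ A : E d →ₗ[ℝ] E d, (∀ v ∈ S, A v = p v) ∧ ∀ v ∈ Iᗮ, A v = v

/-- A linear map of finite order that intertwines the reflections of an irreducible root set with
reflections is an isometry. `B(v,w) = ⟪A v, A w⟫` is invariant under the reflections, so
`B(a, w) = B(a, a) ⟪a, w⟫`; `B(a, a) = B(b, b)` if `⟪a, b⟫ ≠ 0`; `B = λ ⟪ , ⟫`, `λ ^ m = 1`. -/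
def S_ORT : Prop :=
  ∀ (d : ℕ) (I : Submodule ℝ (E d)) (Φ : Set (E d)) (A : E d →ₗ[ℝ] E d) (m : ℕ), IsRS Φ →
    IrrRS Φ → Submodule.span ℝ Φ = I → 1 ≤ m → (∀ v ∈ I, A v ∈ I) → (∀ v ∈ I, (A ^ m) v = v) →
    (∀ a ∈ Φ, ∃ a', ‖a'‖ = 1 ∧ ∀ v ∈ I, A (sref a v) = sref a' (A v)) → ∀ v ∈ I, ‖A v‖ = ‖v‖

/-- the extension -/
structure IsExt (G : AGeo d k Γ X) (l : ℕ) (RI : Γ → (E d ≃ₗᵢ[ℝ] E d)) : Prop where
  mul : ∀ γ δ, RI (γ * δ) = RI γ * RI δ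
  perp : ∀ γ, ∀ v ∈ (Sp G 0 l)ᗮ, RI γ v = v
  pres : ∀ γ, ∀ v ∈ Sp G 0 l, RI γ v ∈ Sp G 0 l
  tau : ∀ γ, ∀ n ∈ L0 G l, RI γ (tau G n) = tau G (γ * n * γ⁻¹)
  H : ∀ h ∈ G.H, ∀ v ∈ Sp G 0 l, RI h v = G.T h v
  conj : ∀ γ, ∀ n ∈ G.N, ∀ v ∈ Sp G 0 l, RI γ (G.R 1 n v) = G.R 1 (γ * n * γ⁻¹) (RI γ v)
  root : ∀ γ, ∀ a ∈ Ph G 1 0 l, RI γ a ∈ Ph G 1 0 l
  fin : (Set.range RI).Finite

def S_EXT : Prop :=
  ∀ (d k : ℕ) (Γ : Type) [Group Γ] (X : Type) [MulAction Γ X] [Infinite X] (G : AGeo d k Γ X)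
    (l : ℕ), ATop G l → ∃ RI, IsExt G l RI

def M_EXT : Prop := S_MIR → S_DIR → S_LAT → S_CMM → S_SPAN → S_LEX → S_ORT → S_EXT

/-! ## II.12, II.13 -/

/-- the projection on `I` -/
def pI (G : AGeo d k Γ X) (l : ℕ) (v : E d) : E d := (Sp G 0 l).starProjection v

/-- the translation parts -/
structure IsB (G : AGeo d k Γ X) (l : ℕ) (RI : Γ → (E d ≃ₗᵢ[ℝ] E d)) (b : Γ → E d) : Prop where
  mem : ∀ γ, b γ ∈ Sp G 0 l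
  mul : ∀ γ δ, b (γ * δ) = b γ + RI γ (b δ)
  H : ∀ h ∈ G.H, ∀ y, pI G l (G.f (h • y)) = RI h (pI G l (G.f y)) + b h

/-- II.12. The average over the finite set of orbits of `L` on `X` (`Quotient` of
`MulAction.orbitRel (Lt G) X`), on which `Γ` acts as `L` is normal. -/
def S_AFX : Prop :=
  ∀ (d k : ℕ) (Γ : Type) [Group Γ] (X : Type) [MulAction Γ X] [Infinite X] (G : AGeo d k Γ X)
    (l : ℕ), ATop G l → ∀ RI, IsExt G l RI → ∃ b, IsB G l RI b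

def M_AFX : Prop := S_MIR → S_DIR → S_LAT → S_CMM → S_AFX

/-- II.13, in the form: `P f(γ x0) = β_γ (P f(x0) + ψ)`, and the spaces `V_i` in other frames. -/
def S_PSI : Prop :=
  ∀ (d k : ℕ) (Γ : Type) [Group Γ] (X : Type) [MulAction Γ X] [Infinite X] (G : AGeo d k Γ X)
    (l : ℕ), ATop G l → ∀ RI, IsExt G l RI → ∀ b, IsB G l RI b →
    (∀ γ : Γ, ∃ ψ ∈ G.V 1 1, ψ ∈ Sp G 0 l ∧
      pI G l (G.f (γ • G.x0)) = RI γ (pI G l (G.f G.x0) + ψ) + b γ) ∧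
    ∀ γ i, ∀ v ∈ Sp G 0 l, RI γ v ∈ G.V γ i ↔ v ∈ G.V 1 i

def M_PSI : Prop := S_DIR → S_PSI

end

end FOI
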