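import Pool.Agent.FOI.BStmts
import Pool.Agent.FOI.KK
import Pool.Agent.FOK.SL
import Pool.Agent.FOK.AD

/-!
# Module CH: five linearly independent roots (section II.4)
-/

namespace FOI

open Lib_helper64.FO FO2 FOK
open scoped RealInnerProductSpace Nat

noncomputable section

namespace CH

/-- an injective sequence of seven indices that starts with two given ones -/
theorem sel {n : ℕ} (hn : 7 ≤ n) {i j : Fin n} (hij : i ≠ j) :
    ∃ p : Fin 7 → Fin n, Function.Injective p ∧ p 0 = i ∧ p 1 = j := by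
  set e : Fin 7 → Fin n := Fin.castLE hn with he
  have hei : Function.Injective e := Fin.castLE_injective hn
  set π1 := Equiv.swap (e 0) i with h1
  have hx0 : π1 (e 0) = i := Equiv.swap_apply_left _ _
  have hne : π1 (e 1) ≠ i := by
    intro h
    rw [← hx0] at h
    have := hei (π1.injective h)
    exact absurd this (by decide)
  set π2 := Equiv.swap (π1 (e 1)) j with h2
  refine ⟨fun t => π2 (π1 (e t)), fun a b hab => hei (π1.injective (π2.injective hab)), ?_, ?_⟩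
  · show π2 (π1 (e 0)) = i
    rw [hx0]
    exact Equiv.swap_apply_of_ne_of_ne (Ne.symm hne) hij
  · exact Equiv.swap_apply_left _ _

/-- linear independence of a tree -/
theorem li5 {d : ℕ} {y z : Fin 6 → E d} {κ : ℝ} (hκ : κ ≠ 0)
    (h : ∀ a b, ⟪z b, y a⟫ = if a = b then κ else 0) {s0 s1 s2 s3 s4 : ℝ} (h0 : s0 ≠ 0)
    (h1 : s1 ≠ 0) (h2 : s2 ≠ 0) (h3 : s3 ≠ 0) (h4 : s4 ≠ 0) :
    LinearIndependent ℝ ![s0 • (y 0 - y 1), s1 • (y 1 - y 2), s2 • (y 2 - y 3), s3 • (y 1 - y 4),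
      s4 • (y 4 - y 5)] := by
  rw [Fintype.linearIndependent_iff]
  intro g hg
  rw [Fin.sum_univ_five] at hg
  simp only [Matrix.cons_val] at hg
  have key : ∀ b, ⟪z b, g 0 • s0 • (y 0 - y 1) + g 1 • s1 • (y 1 - y 2) + g 2 • s2 • (y 2 - y 3) +
      g 3 • s3 • (y 1 - y 4) + g 4 • s4 • (y 4 - y 5)⟫ = (0 : ℝ) := by
    intro b
    rw [hg, inner_zero_right]
  simp only [inner_add_right, inner_sub_right, real_inner_smul_right, h] at key
  have k0 := key 0
  have k3 := key 3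
  have k5 := key 5
  have k2 := key 2
  have k4 := key 4
  simp (decide := true) only [if_true, if_false] at k0 k3 k5 k2 k4
  have g0 : g 0 = 0 := by
    have : g 0 * (s0 * κ) = 0 := by linear_combination k0
    exact (mul_eq_zero.1 this).resolve_right (mul_ne_zero h0 hκ)
  have g2 : g 2 = 0 := by
    have : g 2 * (s2 * κ) = 0 := by linear_combination -k3
    exact (mul_eq_zero.1 this).resolve_right (mul_ne_zero h2 hκ)
  have g4 : g 4 = 0 := by
    have : g 4 * (s4 * κ) = 0 := by linear_combination -k5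
    exact (mul_eq_zero.1 this).resolve_right (mul_ne_zero h4 hκ)
  have g1 : g 1 = 0 := by
    rw [g2] at k2
    have : g 1 * (s1 * κ) = 0 := by linear_combination -k2
    exact (mul_eq_zero.1 this).resolve_right (mul_ne_zero h1 hκ)
  have g3 : g 3 = 0 := by
    rw [g4] at k4
    have : g 3 * (s3 * κ) = 0 := by linear_combination -k4
    exact (mul_eq_zero.1 this).resolve_right (mul_ne_zero h3 hκ)
  intro i
  fin_cases i
  · exact g0
  · exact g1
  · exact g2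
  · exact g3
  · exact g4

/-- the conclusion of the module from six vectors -/
theorem concl {d : ℕ} {Φ : Set (E d)} {c : E d} {y z : Fin 6 → E d} {κ : ℝ} (hκ : κ ≠ 0)
    (h : ∀ a b, ⟪z b, y a⟫ = if a = b then κ else 0)
    (hy : ∀ a b e : Fin 6, a ≠ b → b ≠ e → a ≠ e → ⟪y a - y b, y b - y e⟫ ≠ (0 : ℝ))
    (hm : ∀ a b : Fin 6, a ≠ b → ∃ s : ℝ, s ≠ 0 ∧ s • (y a - y b) ∈ Φ) {s0 : ℝ} (h0 : s0 ≠ 0)
    (hc : c = s0 • (y 0 - y 1)) :
    ∃ c2 ∈ Φ, ∃ c3 ∈ Φ, ∃ c4 ∈ Φ, ∃ c5 ∈ Φ, ⟪c, c2⟫ ≠ (0 : ℝ) ∧ ⟪c2, c3⟫ ≠ (0 : ℝ) ∧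
      ⟪c, c4⟫ ≠ (0 : ℝ) ∧ ⟪c4, c5⟫ ≠ (0 : ℝ) ∧ LinearIndependent ℝ ![c, c2, c3, c4, c5] := by
  obtain ⟨s1, n1, m1⟩ := hm 1 2 (by decide)
  obtain ⟨s2, n2, m2⟩ := hm 2 3 (by decide)
  obtain ⟨s3, n3, m3⟩ := hm 1 4 (by decide)
  obtain ⟨s4, n4, m4⟩ := hm 4 5 (by decide)
  have aux : ∀ (s t : ℝ) (a b e : Fin 6), s ≠ 0 → t ≠ 0 → a ≠ b → b ≠ e → a ≠ e →
      ⟪s • (y a - y b), t • (y b - y e)⟫ ≠ (0 : ℝ) := by
    intro s t a b e hs ht hab hbe hae
    rw [real_inner_smul_left, real_inner_smul_right]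
    exact mul_ne_zero hs (mul_ne_zero ht (hy a b e hab hbe hae))
  refine ⟨_, m1, _, m2, _, m3, _, m4, ?_, ?_, ?_, ?_, ?_⟩
  · rw [hc]
    exact aux _ _ _ _ _ h0 n1 (by decide) (by decide) (by decide)
  · exact aux _ _ _ _ _ n1 n2 (by decide) (by decide) (by decide)
  · rw [hc]
    exact aux _ _ _ _ _ h0 n3 (by decide) (by decide) (by decide)
  · exact aux _ _ _ _ _ n3 n4 (by decide) (by decide) (by decide)
  · rw [hc]
    exact li5 hκ h h0 n1 n2 n3 n4

/-- type `A` -/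
theorem caseA {d n : ℕ} {I : Submodule ℝ (E d)} {Φ : Set (E d)} {v : Fin (n + 1) → E d}
    (hn : 6 ≤ n) (hA : ModA d n I Φ v) {c : E d} (hc : c ∈ Φ) :
    ∃ c2 ∈ Φ, ∃ c3 ∈ Φ, ∃ c4 ∈ Φ, ∃ c5 ∈ Φ, ⟪c, c2⟫ ≠ (0 : ℝ) ∧ ⟪c2, c3⟫ ≠ (0 : ℝ) ∧
      ⟪c, c4⟫ ≠ (0 : ℝ) ∧ ⟪c4, c5⟫ ≠ (0 : ℝ) ∧ LinearIndependent ℝ ![c, c2, c3, c4, c5] := by
  obtain ⟨i, j, hij, t, ht, -, hct⟩ := (hA.iff c).1 hc
  obtain ⟨p, hp, hp0, hp1⟩ := sel (n := n + 1) (by omega) hij
  have hn0 : (0 : ℝ) < n := by exact_mod_cast (by omega : 0 < n)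
  have hκ : (1 + 1 / (n : ℝ)) ≠ 0 := by positivity
  have hg : ∀ i j, ⟪v i, v j⟫ = (1 + 1 / (n : ℝ)) * (if i = j then 1 else 0) - 1 / n := by
    intro i j
    rw [hA.gram]
    split_ifs
    · ring
    · ring
  -- the first six indices
  set r : Fin 6 → Fin 7 := Fin.castLE (by omega) with hr
  have hri : Function.Injective r := Fin.castLE_injective _
  have hr6 : ∀ a, r a ≠ 6 := by
    intro a ha
    have h1 : (r a).val = a.val := rfl
    rw [ha] at h1
    have h2 := a.isLt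
    have h3 : ((6 : Fin 7) : ℕ) = 6 := rfl
    omega
  have hpr : ∀ a b, (p (r a) = p (r b)) ↔ a = b := fun a b =>
    ⟨fun hh => hri (hp hh), fun hh => by rw [hh]⟩
  have hp6 : ∀ a, p (r a) ≠ p 6 := fun a hh => hr6 a (hp hh)
  refine concl (y := fun a => v (p (r a))) (z := fun b => v (p (r b)) - v (p 6)) hκ ?_ ?_ ?_
    ht.ne' ?_
  · intro a b
    rw [inner_sub_left, hg, hg, if_neg (hp6 a).symm]
    by_cases hab : a = b
    · rw [if_pos hab, if_pos ((hpr b a).2 hab.symm)]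
      ring
    · rw [if_neg hab, if_neg fun hh => hab ((hpr b a).1 hh).symm]
      ring
  · intro a b e hab hbe hae
    simp only [inner_sub_left, inner_sub_right, hg, hpr, if_neg hab, if_neg hbe, if_neg hae,
      if_true]
    intro hh
    apply hκ
    linear_combination -hh
  · intro a b hab
    have hne : v (p (r a)) - v (p (r b)) ≠ 0 := by
      intro hh
      have h1 : ⟪v (p (r a)) - v (p (r b)), v (p (r a)) - v (p (r b))⟫ = (0 : ℝ) := by
        rw [hh, inner_zero_left]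
      simp only [inner_sub_left, inner_sub_right, hg, hpr, if_neg hab, if_neg (Ne.symm hab),
        if_true] at h1
      apply hκ
      linear_combination h1 / 2
    have hpos : 0 < ‖v (p (r a)) - v (p (r b))‖⁻¹ := inv_pos.2 (norm_pos_iff.2 hne)
    refine ⟨‖v (p (r a)) - v (p (r b))‖⁻¹, hpos.ne', (hA.iff _).2 ⟨p (r a), p (r b),
      fun hh => hab ((hpr a b).1 hh), _, hpos, ?_, rfl⟩⟩
    rw [norm_smul, norm_inv, norm_norm, inv_mul_cancel₀ (norm_ne_zero_iff.2 hne)]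
  · have e0 : r 0 = 0 := rfl
    have e1 : r 1 = 1 := rfl
    simp only [e0, e1, hp0, hp1]
    exact hct

/-- type `D` -/
theorem caseD {d n : ℕ} {I : Submodule ℝ (E d)} {Φ : Set (E d)} {u : Fin n → E d}
    (hn : 7 ≤ n) (hD : ModD d n I Φ u) {c : E d} (hc : c ∈ Φ) :
    ∃ c2 ∈ Φ, ∃ c3 ∈ Φ, ∃ c4 ∈ Φ, ∃ c5 ∈ Φ, ⟪c, c2⟫ ≠ (0 : ℝ) ∧ ⟪c2, c3⟫ ≠ (0 : ℝ) ∧
      ⟪c, c4⟫ ≠ (0 : ℝ) ∧ ⟪c4, c5⟫ ≠ (0 : ℝ) ∧ LinearIndependent ℝ ![c, c2, c3, c4, c5] := by
  obtain ⟨i, j, hij, s, t, hct⟩ := (hD.iff c).1 hc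
  obtain ⟨p, hp, hp0, hp1⟩ := sel hn hij
  have hs2 : (1 / √2 : ℝ) ≠ 0 := by positivity
  set r : Fin 6 → Fin 7 := Fin.castLE (by omega) with hr
  have hri : Function.Injective r := Fin.castLE_injective _
  have hpr : ∀ a b, (p (r a) = p (r b)) ↔ a = b := fun a b =>
    ⟨fun hh => hri (hp hh), fun hh => by rw [hh]⟩
  -- the signs
  set q : Fin 6 → ℤˣ := fun a => if a = 0 then s else -t with hq
  have hsg : ∀ a : ℤˣ, (sg a : ℝ) * sg a = 1 := by
    intro a
    rcases Int.units_eq_one_or a with rfl | rfl <;> simp [sg]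
  have hgr : ∀ a b, ⟪(sg (q b) : ℝ) • u (p (r b)), (sg (q a) : ℝ) • u (p (r a))⟫ =
      if a = b then (1 : ℝ) else 0 := by
    intro a b
    rw [real_inner_smul_left, real_inner_smul_right, orthonormal_iff_ite.1 hD.orth]
    by_cases hab : a = b
    · rw [if_pos hab, hab, if_pos rfl, mul_one, hsg]
    · rw [if_neg hab, if_neg fun hh => hab ((hpr b a).1 hh).symm, mul_zero, mul_zero]
  refine concl (y := fun a => (sg (q a) : ℝ) • u (p (r a)))
    (z := fun b => (sg (q b) : ℝ) • u (p (r b))) one_ne_zero hgr ?_ ?_ hs2 ?_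
  · intro a b e hab hbe hae
    simp only [inner_sub_left, inner_sub_right, hgr, if_neg hab.symm, if_neg hbe.symm,
      if_neg hae.symm, if_true]
    norm_num
  · intro a b hab
    refine ⟨1 / √2, hs2, (hD.iff _).2 ⟨p (r a), p (r b), fun hh => hab ((hpr a b).1 hh), q a, -q b,
      ?_⟩⟩
    have : (sg (-q b) : ℝ) = -sg (q b) := by simp [sg]
    rw [this, neg_smul, sub_eq_add_neg]
  · have e0 : r 0 = 0 := rfl
    have e1 : r 1 = 1 := rfl
    have q0 : q 0 = s := rfl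
    have q1 : q 1 = -t := rfl
    have : (sg (-t) : ℝ) = -sg t := by simp [sg]
    simp only [e0, e1, hp0, hp1, q0, q1, this, neg_smul, sub_neg_eq_add]
    exact hct

/-- the root set is homogeneous -/
theorem hom {d k : ℕ} {Γ : Type} [Group Γ] {X : Type} [MulAction Γ X] (G : AGeo d k Γ X) {l : ℕ}
    {g : Γ} {i : ℕ} (hT : TopI G l g i) :
    Hom d (Submodule.span ℝ (Ph G g i l)) (FOI.KK G g i) (Ph G g i l) := by
  have hpres : ∀ h ∈ FOI.KK G g i, ∀ w ∈ Submodule.span ℝ (Ph G g i l),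
      h w ∈ Submodule.span ℝ (Ph G g i l) := by
    intro h hh w hw
    obtain ⟨n, hn, rfl⟩ := (KK.mem_iff G g i h).1 hh
    refine Submodule.span_induction (p := fun w _ => G.R g n w ∈ Submodule.span ℝ (Ph G g i l))
      ?_ ?_ ?_ ?_ hw
    · intro a ha
      exact Submodule.subset_span (hT.inv n hn a ha)
    · rw [map_zero]
      exact zero_mem _
    · intro a b _ _ ha hb
      rw [map_add]
      exact add_mem ha hb
    · intro c a _ ha
      rw [map_smul]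
      exact Submodule.smul_mem _ _ ha
  refine ⟨hpres, ?_, hT.rs, Submodule.subset_span, ?_, ?_⟩
  · intro B hB hinv
    -- every root is in `B` or orthogonal to it
    have hdi : ∀ a ∈ Ph G g i l, a ∈ B ∨ a ∈ Bᗮ := by
      intro a ha
      obtain ⟨hna, x, hx, hxa⟩ := ha
      by_cases hall : ∀ w ∈ B, ⟪w, a⟫ = (0 : ℝ)
      · right
        exact (Submodule.mem_orthogonal _ _).2 hall
      · left
        push Not at hall
        obtain ⟨w, hw, hwa⟩ := hall
        have h1 := hinv _ ((KK.mem_iff G g i _).2 ⟨x, hT.TN hx, rfl⟩) w hw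
        rw [hxa] at h1
        have h2 : (2 * ⟪a, w⟫) • a ∈ B := by
          have h3 := B.sub_mem hw h1
          rwa [sref, sub_sub_cancel] at h3
        have h4 : (2 * ⟪a, w⟫ : ℝ) ≠ 0 := by
          rw [real_inner_comm] at hwa
          exact mul_ne_zero two_ne_zero hwa
        have h5 := B.smul_mem (2 * ⟪a, w⟫ : ℝ)⁻¹ h2
        rwa [smul_smul, inv_mul_cancel₀ h4, one_smul] at h5
    rcases hT.irr B hdi with h | h
    · right
      exact le_antisymm hB (Submodule.span_le.2 h)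
    · left
      have h1 : B ≤ Bᗮ := hB.trans (Submodule.span_le.2 h)
      rw [eq_bot_iff]
      intro w hw
      have h2 := (Submodule.mem_orthogonal _ _).1 (h1 hw) w hw
      rw [Submodule.mem_bot]
      exact inner_self_eq_zero.1 h2
  · intro h hh b hb
    obtain ⟨n, hn, rfl⟩ := (KK.mem_iff G g i h).1 hh
    exact hT.inv n hn b hb
  · intro b hb c hc
    obtain ⟨n, hn, hh⟩ := hT.trans b hb c hc
    exact ⟨G.R g n, (KK.mem_iff G g i _).2 ⟨n, hn, rfl⟩, hh⟩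

end CH

open CH in
theorem t_CH : M_CH := by
  intro hTI d k Γ _ X _ G l hl c hc
  have hT := hTI d k Γ X G l hl 1 1 le_rfl (by have := hl.l5; omega)
  have hH := CH.hom G hT
  have hdim := hT.dim
  have h5 := hl.l5
  have hld := hl.ld
  have hSL := FOK.t_SL d _ _ _ _ hH rfl (by omega) hT.irr
  rcases FOK.t_AD d _ _ _ _ hH rfl (by omega) hT.irr hSL with ⟨v, hv⟩ | ⟨u, hu⟩
  · exact CH.caseA (by omega) hv hc
  · exact CH.caseD (by omega) hu hc

end

end FOI
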