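import Pool.Agent.FOI.BStmts
import Pool.Agent.FOK.SL

/-!
# FOI, II.5: products with a root in a component of rank at least three
-/

namespace FOI

open Lib_helper64.FO FO2 FOK
open scoped RealInnerProductSpace

noncomputable section

namespace CMP

open FOK.AUT

variable {d n : ℕ} {I : Submodule ℝ (E d)}

/-- the transported root system spans -/
theorem span_top (hI : Module.finrank ℝ I = n) {Φ : Set (E d)}
    (hs : Submodule.span ℝ Φ = I) : Submodule.span ℝ (trS hI Φ) = ⊤ := by
  rw [eq_top_iff]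
  intro x _
  have h1 : ∀ w : E d, w ∈ Submodule.span ℝ Φ → ∀ hw : w ∈ I,
      iso hI ⟨w, hw⟩ ∈ Submodule.span ℝ (trS hI Φ) := by
    intro w hw
    induction hw using Submodule.span_induction with
    | mem x hx => exact fun hw => Submodule.subset_span ((FOK.SL.mem_trS hI _).2 hx)
    | zero =>
      intro hw
      have : (⟨0, hw⟩ : I) = 0 := rfl
      rw [this, map_zero]
      exact zero_mem _
    | add x y hx0 hy0 hx hy =>
      intro hw
      have hxI : x ∈ I := by rw [← hs]; exact hx0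
      have hyI : y ∈ I := by rw [← hs]; exact hy0
      have : (⟨x + y, hw⟩ : I) = ⟨x, hxI⟩ + ⟨y, hyI⟩ := rfl
      rw [this, map_add]
      exact add_mem (hx hxI) (hy hyI)
    | smul c x hx0 hx =>
      intro hw
      have hxI : x ∈ I := by rw [← hs]; exact hx0
      have : (⟨c • x, hw⟩ : I) = c • ⟨x, hxI⟩ := rfl
      rw [this, map_smul]
      exact Submodule.smul_mem _ _ (hx hxI)
  have h2 := h1 ((iso hI).symm x : E d) (by rw [hs]; exact ((iso hI).symm x).2)
    ((iso hI).symm x).2
  have h3 : iso hI ⟨((iso hI).symm x : E d), ((iso hI).symm x).2⟩ = x :=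
    LinearIsometryEquiv.apply_symm_apply (iso hI) x
  rw [h3] at h2
  exact h2

/-- the values of the products in an irreducible root system of rank at least `3` -/
theorem val (hI : Module.finrank ℝ I = n) (hn : 3 ≤ n) {Φ : Set (E d)} (hΦ : IsRS Φ)
    (hirr : IrrRS Φ) (hs : Submodule.span ℝ Φ = I) : ∀ a ∈ Φ, ∀ b ∈ Φ, AS ⟪a, b⟫ := by
  have hsub : Φ ⊆ (I : Set (E d)) := by
    rw [← hs]
    exact Submodule.subset_span
  have h1 := FOK.SL.isRS hI hΦ hsub
  have h2 := FOK.SL.irrRS hI hirr hsub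
  have h3 := rgb n (trS hI Φ) h1 (rga n (trS hI Φ) hn h1 h2 (span_top hI hs))
  intro a ha b hb
  have h4 := h3 (iso hI ⟨a, hsub ha⟩) ((FOK.SL.mem_trS hI _).2 ha) (iso hI ⟨b, hsub hb⟩)
    ((FOK.SL.mem_trS hI _).2 hb)
  have h5 : ⟪iso hI ⟨a, hsub ha⟩, iso hI ⟨b, hsub hb⟩⟫ = ⟪a, b⟫ :=
    (iso hI).inner_map_map ⟨a, hsub ha⟩ ⟨b, hsub hb⟩
  rw [h5] at h4
  exact h4

theorem inner_zero {L : Submodule ℝ (E d)} {a b : E d} (ha : a ∈ L) (hb : b ∈ Lᗮ) :
    ⟪a, b⟫ = (0 : ℝ) := (Submodule.mem_orthogonal L b).1 hb a ha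

/-- a minimal subspace for the component of `c` -/
theorem exists_min (Φ : Set (E d)) (c : E d) : ∃ L : Submodule ℝ (E d),
    (∀ a ∈ Φ, a ∈ L ∨ a ∈ Lᗮ) ∧ c ∈ L ∧
    ∀ L' : Submodule ℝ (E d), (∀ a ∈ Φ, a ∈ L' ∨ a ∈ L'ᗮ) → c ∈ L' → L' ≤ L → L' = L := by
  classical
  have hex : ∃ m : ℕ, ∃ L : Submodule ℝ (E d), (∀ a ∈ Φ, a ∈ L ∨ a ∈ Lᗮ) ∧ c ∈ L ∧
      Module.finrank ℝ L = m :=
    ⟨_, ⊤, fun _ _ => Or.inl trivial, trivial, rfl⟩
  obtain ⟨L, h1, h2, h3⟩ := Nat.find_spec hex
  refine ⟨L, h1, h2, ?_⟩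
  intro L' h1' h2' hle
  have h4 : Nat.find hex ≤ Module.finrank ℝ L' := Nat.find_min' hex ⟨L', h1', h2', rfl⟩
  rw [← h3] at h4
  exact Submodule.eq_of_le_of_finrank_le hle h4

end CMP

open CMP

theorem t_CMP : S_CMP := by
  intro d Φ hΦ c1 h1 c2 h2 c3 h3 hli h12 h23 a ha
  obtain ⟨L, hL, hc1, hmin⟩ := exists_min Φ c1
  have hc2 : c2 ∈ L := by
    rcases hL c2 h2 with h | h
    · exact h
    · exact absurd (inner_zero hc1 h) h12
  have hc3 : c3 ∈ L := by
    rcases hL c3 h3 with h | h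
    · exact h
    · exact absurd (inner_zero hc2 h) h23
  rcases hL a ha with haL | haL
  · -- the component
    let C : Set (E d) := {b | b ∈ Φ ∧ b ∈ L}
    have hC : IsRS C := by
      refine ⟨hΦ.fin.subset fun b hb => hb.1, ⟨c1, h1, hc1⟩, fun b hb => hΦ.norm b hb.1, ?_⟩
      intro b hb c hc
      refine ⟨hΦ.refl b hb.1 c hc.1, ?_⟩
      rw [sref]
      exact sub_mem hc.2 (Submodule.smul_mem _ _ hb.2)
    have hirr : IrrRS C := by
      intro L' hL'
      rcases hL' c1 ⟨h1, hc1⟩ with hc | hc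
      · left
        have he : L ⊓ L' = L := by
          apply hmin
          · intro b hb
            rcases hL b hb with hbL | hbL
            · rcases hL' b ⟨hb, hbL⟩ with hb' | hb'
              · exact Or.inl ⟨hbL, hb'⟩
              · exact Or.inr (Submodule.orthogonal_le inf_le_right hb')
            · exact Or.inr (Submodule.orthogonal_le inf_le_left hbL)
          · exact ⟨hc1, hc⟩
          · exact inf_le_left
        intro b hb
        have : b ∈ L ⊓ L' := by rw [he]; exact hb.2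
        exact this.2
      · right
        have he : L ⊓ L'ᗮ = L := by
          apply hmin
          · intro b hb
            rcases hL b hb with hbL | hbL
            · rcases hL' b ⟨hb, hbL⟩ with hb' | hb'
              · refine Or.inr (Submodule.orthogonal_le inf_le_right ?_)
                exact Submodule.le_orthogonal_orthogonal L' hb'
              · exact Or.inl ⟨hbL, hb'⟩
            · exact Or.inr (Submodule.orthogonal_le inf_le_left hbL)
          · exact ⟨hc1, hc⟩
          · exact inf_le_left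
        intro b hb
        have : b ∈ L ⊓ L'ᗮ := by rw [he]; exact hb.2
        exact this.2
    have hn : 3 ≤ Module.finrank ℝ (Submodule.span ℝ C) := by
      have hr : Submodule.span ℝ (Set.range ![c1, c2, c3]) ≤ Submodule.span ℝ C := by
        apply Submodule.span_mono
        rintro _ ⟨i, rfl⟩
        fin_cases i
        · exact ⟨h1, hc1⟩
        · exact ⟨h2, hc2⟩
        · exact ⟨h3, hc3⟩
      have h4 := finrank_span_eq_card hli
      rw [Fintype.card_fin] at h4
      calc 3 = Module.finrank ℝ (Submodule.span ℝ (Set.range ![c1, c2, c3])) := h4.symm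
        _ ≤ _ := Submodule.finrank_mono hr
    exact val rfl hn hC hirr rfl a ⟨ha, haL⟩ c1 ⟨h1, hc1⟩
  · refine ⟨0, Or.inl rfl, Or.inl ?_⟩
    rw [real_inner_comm]
    exact inner_zero hc1 haL

end

end FOI
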