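import Pool.Agent.FOI.EStmts
import Pool.Agent.FO2.COA

/-!
# COA: cosets of a chain have a common element; flags of the coset poset (no finiteness)
-/

namespace FOI

open Lib_helper64.FO FO2 FOK
open scoped RealInnerProductSpace

noncomputable section

theorem t_COA : S_COA := by
  intro d Y S hd
  refine ⟨?_, FO2.COA.flag_common, ?_, FO2.COA.trans⟩
  · intro s hs
    obtain ⟨g, hg, h⟩ := FO2.COA.common s hs d
    exact ⟨g, hg, fun F hF => h F hF F.rank.isLt⟩
  · intro C i h1 h2
    obtain ⟨g, hg, hC⟩ := FO2.COA.flag_common C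
    rcases eq_or_lt_of_le h1 with h1 | h1
    · exact ⟨⊥, C.bot_mem, h1⟩
    rcases eq_or_lt_of_le h2 with h2 | h2
    · exact ⟨FO2.COA.tp S, FO2.COA.top_mem' C, h2.symm⟩
    · have h3 : i.toNat < d := by omega
      refine ⟨FO2.COA.fc (FO2.COA.cos S ⟨i.toNat, h3⟩ g hg), (hC _).2 (FO2.COA.mem_cos S _ g hg), ?_⟩
      change ((i.toNat : ℕ) : ℤ) = i
      omega

end

end FOI
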