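import Pool.Agent.FOI.EStmts
import Pool.Agent.FO2.COB

/-!
# Module COB: the coset poset of a string C-group is a regular polytope, without finiteness

A copy of `Pool/Agent/FO2/COB.lean` without `Finite Y`.
-/

namespace FOI

open Lib_helper64.FO FO2 FOK
open scoped RealInnerProductSpace

noncomputable section

namespace COB

open FO2.CobAux

variable {d : ℕ} {Y : Type} {S : SGen d Y}

theorem chain3 (hA : S_COA) (hd : 1 ≤ d) {x z y : CPos S} (h1 : x ≤ z)
    (h2 : z ≤ y) : ∃ g : Equiv.Perm Y, Mem g x ∧ Mem g z ∧ Mem g y := by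
  have h3 : ∀ u v : CPos S, (u = x ∨ u = z ∨ u = y) → (v = x ∨ v = z ∨ v = y) →
      u ≤ v ∨ v ≤ u := by
    rintro u v (rfl | rfl | rfl) (rfl | rfl | rfl)
    · exact Or.inl le_rfl
    · exact Or.inl h1
    · exact Or.inl (h1.trans h2)
    · exact Or.inr h1
    · exact Or.inl le_rfl
    · exact Or.inl h2
    · exact Or.inr (h1.trans h2)
    · exact Or.inr h2
    · exact Or.inl le_rfl
  obtain ⟨g, hg, hs⟩ := (hA d Y S hd).1
    {F | (some (some F) : CPos S) = x ∨ (some (some F) : CPos S) = z ∨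
      (some (some F) : CPos S) = y} (by
      intro F hF G hG _
      rcases h3 _ _ hF hG with h | h
      · left
        exact WithTop.coe_le_coe.1 (WithBot.coe_le_coe.1 h)
      · right
        exact WithTop.coe_le_coe.1 (WithBot.coe_le_coe.1 h))
  exact ⟨g, ⟨hg, fun F hF => hs F (Or.inl hF.symm)⟩,
    ⟨hg, fun F hF => hs F (Or.inr (Or.inl hF.symm))⟩,
    ⟨hg, fun F hF => hs F (Or.inr (Or.inr hF.symm))⟩⟩

theorem strict (hA : S_COA) (hd : 1 ≤ d) {x y : CPos S} (h : x < y) :
    rkC x < rkC y := by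
  obtain ⟨g, h1, -, h2⟩ := chain3 hA hd (le_refl x) h.le
  by_contra hcon
  push Not at hcon
  exact absurd (le_of_mem h2 h1 hcon) (not_le_of_gt h)

end COB

open FO2.CobAux in
/-- **COB** -/
theorem t_COB : M_COB := by
  intro h
  intro d Y S hd hS
  have hst : ∀ x y : CPos S, x < y → rkC x < rkC y := fun x y hxy => COB.strict h hd hxy
  refine ⟨⟨none, fun x => bot_le, rfl⟩, ⟨some none, fun x => ?_, rfl⟩, hst,
    (h d Y S hd).2.2.1, ?_, ?_, (h d Y S hd).2.2.2⟩
  · exact (le_top : x ≤ (⊤ : CPos S))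
  · -- diamond
    intro x y hxy hr
    have hx1 := rk_lo x
    have hy1 := rk_hi y
    obtain ⟨n, hn⟩ := Int.eq_ofNat_of_zero_le (show 0 ≤ rkC x + 1 by omega)
    have hnd : n < d := by omega
    obtain ⟨i, hi⟩ : ∃ i : Fin d, i.val = n := ⟨⟨n, hnd⟩, rfl⟩
    have hxi : rkC x = (i.val : ℤ) - 1 := by omega
    have hyi : rkC y = (i.val : ℤ) + 1 := by omega
    obtain ⟨g, hgx, -, hgy⟩ := COB.chain3 h hd (le_refl x) hxy.le
    have hsx : S.σ i ∈ N S (rkC x) := sig_N (by omega)
    have hsy : S.σ i ∈ N S (rkC y) := sig_N (by omega)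
    obtain ⟨z1, hz1, hr1⟩ := exists_face (S := S) hgx.1 (i := (i.val : ℤ)) (by omega) (by omega)
    obtain ⟨z2, hz2, hr2⟩ := exists_face (S := S) (mem_mul hgx hsx).1 (i := (i.val : ℤ)) (by omega)
      (by omega)
    have b1 : x < z1 ∧ z1 < y := ⟨lt_of_mem hgx hz1 (by omega), lt_of_mem hz1 hgy (by omega)⟩
    have b2 : x < z2 ∧ z2 < y :=
      ⟨lt_of_mem (mem_mul hgx hsx) hz2 (by omega), lt_of_mem hz2 (mem_mul hgy hsy) (by omega)⟩
    rw [Nat.card_eq_two_iff]
    refine ⟨⟨z1, b1⟩, ⟨z2, b2⟩, ?_, ?_⟩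
    · intro he
      have he' : z1 = z2 := congrArg Subtype.val he
      rw [← he'] at hz2
      have h3 := mem_div hz1 hz2
      rw [inv_mul_cancel_left, hr1, N_face] at h3
      have h4 : S.σ i ∈ S.par {i} ⊓ S.par {j | j ≠ i} := ⟨sig_mem rfl, h3⟩
      rw [hS.inter] at h4
      have h5 : ({i} ∩ {j | j ≠ i} : Set (Fin d)) = ∅ := by
        ext j
        simp
      rw [h5] at h4
      unfold SGen.par at h4
      rw [Set.image_empty, Subgroup.closure_empty, Subgroup.mem_bot] at h4
      exact hS.ne_one i h4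
    · rw [Set.eq_univ_iff_forall]
      rintro ⟨z, hz⟩
      have r1 := hst x z hz.1
      have r2 := hst z y hz.2
      have hzr : rkC z = (i.val : ℤ) := by omega
      obtain ⟨k, hkx, hkz, hky⟩ := COB.chain3 h hd hz.1.le hz.2.le
      have h1 := mem_div hgx hkx
      have h2 := mem_div hgy hky
      rw [hxi] at h1
      rw [hyi] at h2
      rcases split_mid (inter_N hS _ _ h1 h2) with h3 | h3
      · left
        have h4 : Mem g z := by
          refine mem_of_div hkz ?_
          rw [hzr, N_face]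
          exact h3
        exact Subtype.ext (eq_of_mem h4 hz1 (hzr.trans hr1.symm))
      · right
        have h4 : Mem (g * S.σ i) z := by
          refine mem_of_div hkz ?_
          rw [hzr, N_face, mul_inv_rev, sig_inv, mul_assoc]
          exact h3
        exact Subtype.ext (eq_of_mem h4 hz2 (hzr.trans hr2.symm))
  · -- connected
    intro x y hxy hr z w hxz hzy hxw hwy
    obtain ⟨g, hgx, hgz, hgy⟩ := COB.chain3 h hd hxz.le hzy.le
    obtain ⟨k, hkx, hkw, hky⟩ := COB.chain3 h hd hxw.le hwy.le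
    have h1 := mem_div hgx hkx
    have h2 := mem_div hgy hky
    have h3 := inter_N hS _ _ h1 h2
    have hlo := rk_lo x
    have hhi := rk_hi y
    let R : CPos S → CPos S → Prop := fun a b => x < b ∧ b < y ∧ (a ≤ b ∨ b ≤ a)
    have comp : ∀ (p : Equiv.Perm Y) (a b : CPos S), Mem p a → Mem p b → x < b → b < y → R a b := by
      intro p a b ha hb h4 h5
      refine ⟨h4, h5, ?_⟩
      rcases le_total (rkC a) (rkC b) with h6 | h6
      · exact Or.inl (le_of_mem ha hb h6)
      · exact Or.inr (le_of_mem hb ha h6)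
    have main : ∀ p ∈ S.par ({l : Fin d | (l.val : ℤ) ≠ rkC x} ∩ {l : Fin d | (l.val : ℤ) ≠ rkC y}),
        ∀ w' : CPos S, x < w' → w' < y → Mem (g * p) w' → Relation.ReflTransGen R z w' := by
      have step : ∀ j : Fin d, j ∈ ({l : Fin d | (l.val : ℤ) ≠ rkC x} ∩
          {l : Fin d | (l.val : ℤ) ≠ rkC y}) → ∀ q : Equiv.Perm Y,
          q ∈ S.par ({l : Fin d | (l.val : ℤ) ≠ rkC x} ∩ {l : Fin d | (l.val : ℤ) ≠ rkC y}) →
          (∀ w' : CPos S, x < w' → w' < y → Mem (g * q) w' → Relation.ReflTransGen R z w') →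
          ∀ w' : CPos S, x < w' → w' < y → Mem (g * (q * S.σ j)) w' →
            Relation.ReflTransGen R z w' := by
        intro j hj q hq ih w' hw1 hw2 hw3
        obtain ⟨r, hr1, hr2, hr3⟩ : ∃ r : ℤ, rkC x < r ∧ r < rkC y ∧ (j.val : ℤ) ≠ r := by
          by_cases hjr : (j.val : ℤ) = rkC x + 1
          · exact ⟨rkC x + 2, by omega, by omega, by omega⟩
          · exact ⟨rkC x + 1, by omega, by omega, hjr⟩
        have hqx : Mem (g * q) x := mem_mul hgx (par_mono Set.inter_subset_left hq)
        have hqy : Mem (g * q) y := mem_mul hgy (par_mono Set.inter_subset_right hq)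
        obtain ⟨u, hu, hur⟩ := exists_face (S := S) hqx.1 (i := r) (by omega) (by omega)
        have hxu : x < u := lt_of_mem hqx hu (by omega)
        have huy : u < y := lt_of_mem hu hqy (by omega)
        have hu' : Mem (g * (q * S.σ j)) u := by
          rw [← mul_assoc]
          exact mem_mul hu (sig_N (by rw [hur]; exact hr3))
        exact (ih u hxu huy hu).tail (comp _ u w' hu' hw3 hw1 hw2)
      intro p hp
      unfold SGen.par at hp
      induction hp using Subgroup.closure_induction_right with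
      | one =>
        intro w' hw1 hw2 hw3
        rw [mul_one] at hw3
        exact Relation.ReflTransGen.single (comp g z w' hgz hw3 hw1 hw2)
      | mul_right q hq s hs ih =>
        obtain ⟨j, hj, rfl⟩ := hs
        exact step j hj q hq ih
      | mul_inv_cancel q hq s hs ih =>
        obtain ⟨j, hj, rfl⟩ := hs
        rw [sig_inv]
        exact step j hj q hq ih
    have h4 := main _ h3 w hxw hwy (by rw [mul_inv_cancel_left]; exact hkw)
    exact h4

end

end FOI
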