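import Pool.Agent.FOI.BStmts
import Pool.Agent.FOK.Stmts3

/-!
# Statements of the modules, block III: the two cases, the classification of the linear parts

Paper: `Pool/Agent/FOI/PAPER.md`, section III; for the linear classification (modules `L...`)
`Pool/Agent/FOK/PAPER.md`, 10.5 - 10.8.
-/

namespace FOI

open Lib_helper64.FO FO2 FOK
open scoped RealInnerProductSpace Nat

noncomputable section

/-! ## III.5, III.6: the linear classification in `E n` -/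

/-- the product `P = g_(j-1) ... g_(l-1)` -/
def PP {n : ℕ} (gg : ℕ → (E n ≃ₗᵢ[ℝ] E n)) (j l : ℕ) : E n ≃ₗᵢ[ℝ] E n :=
  ((List.range' (j - 1) (l + 1 - j)).map gg).prod

/-- `(g_l Q)^2` with `Q = P⁻¹ g_j P` -/
def YY {n : ℕ} (gg : ℕ → (E n ≃ₗᵢ[ℝ] E n)) (j l : ℕ) : E n ≃ₗᵢ[ℝ] E n :=
  (gg l * ((PP gg j l)⁻¹ * gg j * PP gg j l)) ^ 2

/-- The linear parts, first half. `j0 = 1` in the case (red), `j0 = 2` in the case (irr). -/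
structure LinB (n l j0 : ℕ) (Φ : Set (E n)) (V : ℕ → Submodule ℝ (E n))
    (gg : ℕ → (E n ≃ₗᵢ[ℝ] E n)) : Prop where
  l4 : 4 ≤ l
  ln : 2 * l + 18 ≤ n
  j01 : j0 = 1 ∨ j0 = 2
  rs : IsRS Φ
  irr : IrrRS Φ
  span : Submodule.span ℝ Φ = ⊤
  typ : (∃ v, IsA Φ v) ∨ ∃ u, IsD Φ u
  mono : ∀ i, i < n → V i ≤ V (i + 1)
  dimV : ∀ i, i ≤ n → Module.finrank ℝ (V i) = i
  pres : ∀ j i v, j < n → i ≤ n → i ≠ j + 1 → v ∈ V i → gg j v ∈ V i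
  moves : ∀ j, j + 1 < n → ∀ e ∈ V (j + 1) ⊓ (V j)ᗮ, e ≠ 0 → gg j e ∉ V (j + 1)
  sq : ∀ j, j < n → ∀ v, gg j (gg j v) = v
  comm : ∀ i j, i + 2 ≤ j → j < n → ∀ v, gg i (gg j v) = gg j (gg i v)
  fix : ∀ j, 1 ≤ j → j < n → ∀ v ∈ V j, gg j v = v
  root : ∀ j, j < n → ∀ a, gg j a ∈ Φ ↔ a ∈ Φ
  scal0 : ∃ ε : ℝ, (ε = 1 ∨ ε = -1) ∧ ∀ v ∈ (V 2)ᗮ, gg 0 v = ε • v
  /-- irreducible subsets of `Φ` in the complements of `V 1` and `V 2` -/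
  sub : ∀ i, 1 ≤ i → i ≤ 2 → ∃ Ψ ⊆ Φ, IrrRS Ψ ∧ Submodule.span ℝ Ψ = (V i)ᗮ
  /-- `g_l` is a reflection -/
  refl : ∃ a ∈ Φ, ∀ v, gg l v = sref a v

/-- the linear parts, second half -/
structure LinX (n l j0 : ℕ) (V : ℕ → Submodule ℝ (E n)) (gg : ℕ → (E n ≃ₗᵢ[ℝ] E n)) :
    Prop where
  ne : ∃ v, gg (n - 1) v ≠ v
  nc : ∃ v, ((gg (n - 4) * gg (n - 3)) ^ 3) v ≠ gg (n - 1) v
  /-- (X2) -/
  x2 : ∀ j, j0 ≤ j → j < l → (∀ v ∈ V l, YY gg j l v = v) →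
    (∀ v, YY gg j l v = v) ∨ ∀ v, YY gg j l v = gg l v
  /-- (X3) -/
  x3 : ∀ j, l < j → j + 2 < n → (∀ v ∈ V (j + 2), ((gg (j - 1) * gg j) ^ 3) v = v) →
    ∀ v, ((gg (j - 1) * gg j) ^ 3) v = v

/-- the linear parts -/
structure Lin (n l j0 : ℕ) (Φ : Set (E n)) (V : ℕ → Submodule ℝ (E n))
    (gg : ℕ → (E n ≃ₗᵢ[ℝ] E n)) : Prop extends LinB n l j0 Φ V gg, LinX n l j0 V gg

/-- `gm` is `gg`, except perhaps for the sign of `g_0` -/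
def SgEq {n : ℕ} (gg gm : ℕ → (E n ≃ₗᵢ[ℝ] E n)) : Prop :=
  (∀ j, 1 ≤ j → gm j = gg j) ∧ ((∀ v, gm 0 v = gg 0 v) ∨ ∀ v, gm 0 v = -gg 0 v)

/-- the sign of `g_0` can be changed (`FOK/GN2.lean`) -/
def S_LSG : Prop :=
  ∀ (n l j0 : ℕ) (Φ : Set (E n)) (V : ℕ → Submodule ℝ (E n)) (gg gm : ℕ → (E n ≃ₗᵢ[ℝ] E n)),
    Lin n l j0 Φ V gg → SgEq gg gm → Lin n l j0 Φ V gm

/-- 10.5 (`FOK/POS.lean`). Import `FOK/VECA.lean`, `FOK/VECD.lean`. -/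
def S_LPOS : Prop :=
  ∀ (n l j0 : ℕ) (Φ : Set (E n)) (V : ℕ → Submodule ℝ (E n)) (gg : ℕ → (E n ≃ₗᵢ[ℝ] E n)),
    Lin n l j0 Φ V gg → ∀ y0 ∈ V 1, ‖y0‖ = 1 →
    (∀ v, IsA Φ v → ∃ i, y0 = v i ∨ y0 = -v i) ∧
    ∀ u, IsD Φ u → (∃ i, y0 = u i ∨ y0 = -u i) ∨ ∀ i, ⟪y0, u i⟫ ^ 2 = (1 / n : ℝ)

/-- 10.6, first part (`FOK/MA1.lean`) -/
def S_LMA1 : Prop :=
  ∀ (n l j0 : ℕ) (Φ : Set (E n)) (V : ℕ → Submodule ℝ (E n)) (gg : ℕ → (E n ≃ₗᵢ[ℝ] E n)),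
    Lin n l j0 Φ V gg → ∀ v, IsA Φ v → (∃ i, v i ∈ V 1) →
    ∃ (gm : ℕ → (E n ≃ₗᵢ[ℝ] E n)) (τ : ℕ → Equiv.Perm (Fin (n + 1))) (B : ℕ → Finset (Fin (n + 1))),
      SgEq gg gm ∧ (∀ j, j < n → ∀ i, gm j (v i) = v (τ j i)) ∧
      (∀ i, i + 1 ≤ n → ∀ p, p ∈ B i ↔ v p ∈ V i) ∧ PrmH (n + 1) τ B

def M_LMA1 : Prop := S_LSG → S_LMA1

/-- 10.6 (`FOK/MA.lean`) -/
def S_LMA : Prop :=
  ∀ (n l j0 : ℕ) (Φ : Set (E n)) (V : ℕ → Submodule ℝ (E n)) (gg : ℕ → (E n ≃ₗᵢ[ℝ] E n)),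
    Lin n l j0 Φ V gg → ∀ v, IsA Φ v → (∃ i, v i ∈ V 1) →
    ∃ v' gm, SgEq gg gm ∧ IsA Φ v' ∧ v' 0 ∈ V 1 ∧
      ∀ (j : Fin n) (i : Fin (n + 1)), gm j (v' i) = v' (Equiv.swap j.castSucc j.succ i)

def M_LMA : Prop := S_LMA1 → S_LMA

/-- 10.7, first part (`FOK/MD1.lean`) -/
def S_LMD1 : Prop :=
  ∀ (n l j0 : ℕ) (Φ : Set (E n)) (V : ℕ → Submodule ℝ (E n)) (gg : ℕ → (E n ≃ₗᵢ[ℝ] E n)),
    Lin n l j0 Φ V gg → ∀ u, IsD Φ u → ∀ y0 ∈ V 1, (∀ i, ⟪y0, u i⟫ ^ 2 = (1 / n : ℝ)) →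
    ∃ (u' : OrthonormalBasis (Fin n) ℝ (E n)) (gm : ℕ → (E n ≃ₗᵢ[ℝ] E n)), SgEq gg gm ∧
      IsD Φ u' ∧ ∑ i, u' i ∈ V 1 ∧
      (∀ j, 1 ≤ j → j < n → ∃ τ : Equiv.Perm (Fin n), ∀ i, gm j (u' i) = u' (τ i)) ∧
      ∃ p, ∀ v, gm 0 v = sref (u' p) v

def M_LMD1 : Prop := S_LSG → S_LMD1

/-- 10.7 (`FOK/MD.lean`) -/
def S_LMD : Prop :=
  ∀ (n l j0 : ℕ) (Φ : Set (E n)) (V : ℕ → Submodule ℝ (E n)) (gg : ℕ → (E n ≃ₗᵢ[ℝ] E n)),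
    Lin n l j0 Φ V gg → ∀ u, IsD Φ u → ∀ y0 ∈ V 1, (∀ i, ⟪y0, u i⟫ ^ 2 = (1 / n : ℝ)) →
    ∃ (u' : OrthonormalBasis (Fin n) ℝ (E n)) (gm : ℕ → (E n ≃ₗᵢ[ℝ] E n)), SgEq gg gm ∧
      IsD Φ u' ∧ ∑ i, u' i ∈ V 1 ∧
      ∀ j i : Fin n, gm j (u' i) =
        if j.val = 0 then (if i = j then - u' i else u' i) else u' (Equiv.swap (prd j) j i)

def M_LMD : Prop := S_LSG → S_LMD1 → S_LMD

/-- The axes `u j` are in the complement of `V j` in `V (j + 1)`, `g_j` exchanges `u j` and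
`u (j + 1)`, fixes the `u i` with `i < j` (for `j ≥ 1`) and is the scalar `ε j` on the `u i` with
`i ≥ j + 2`. -/
structure LAxes {n : ℕ} (V : ℕ → Submodule ℝ (E n)) (gg : ℕ → (E n ≃ₗᵢ[ℝ] E n))
    (u : OrthonormalBasis (Fin n) ℝ (E n)) (ε : ℕ → ℝ) : Prop where
  V : ∀ i, i ≤ n → V i = Submodule.span ℝ (u '' {m | m.val < i})
  low : ∀ j i : Fin n, 1 ≤ j.val → i.val < j.val → gg j (u i) = u i
  sw1 : ∀ i j : Fin n, j.val = i.val + 1 → gg i (u i) = u j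
  sw2 : ∀ i j : Fin n, j.val = i.val + 1 → gg i (u j) = u i
  hi : ∀ j i : Fin n, j.val + 2 ≤ i.val → gg j (u i) = ε j • u i
  sgn : ∀ j, ε j = 1 ∨ ε j = -1
  last : ∀ j : Fin n, j.val + 1 = n → gg j (u j) = - u j

/-- 10.8, first part (`FOK/MC1.lean`) -/
def S_LMC1 : Prop :=
  ∀ (n l j0 : ℕ) (Φ : Set (E n)) (V : ℕ → Submodule ℝ (E n)) (gg : ℕ → (E n ≃ₗᵢ[ℝ] E n)),
    Lin n l j0 Φ V gg → ∀ u, IsD Φ u → (∃ i, u i ∈ V 1) →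
    ∃ (u' : OrthonormalBasis (Fin n) ℝ (E n)) (ε : ℕ → ℝ), IsD Φ u' ∧ LAxes V gg u' ε

/-- 10.8: `ε_l = 1` as `g_l` is a reflection. For `j0 ≤ j < l` and `ε_j = -1`:
`Q = P⁻¹ g_j P` fixes `u_l`, maps `u_(l+1)` to `-u_(l+1)`, and `g_l` commutes with `Q ^ 2 = 1` on the
other axes (`Q` exchanges `u_(j-1)`, `u_j` up to sign and multiplies the other axes by signs; `g_l` fixes
`u_i` for `i < l` and for `i ≥ l + 2`). So `(g_l Q)^2` is `-1` on `u_l`, `u_(l+1)` and `1` on the other axes, in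
particular on `V l`; contradiction to (X2). -/
def S_LMC2 : Prop :=
  ∀ (n l j0 : ℕ) (Φ : Set (E n)) (V : ℕ → Submodule ℝ (E n)) (gg : ℕ → (E n ≃ₗᵢ[ℝ] E n)),
    Lin n l j0 Φ V gg → ∀ u ε, LAxes V gg u ε → ∀ j, j0 ≤ j → j ≤ l → ε j = 1

/-- 10.8: for the smallest `j > l` with `ε_j = -1`: `(g_(j-1) g_j)^3` is `1` on `V (j + 2)` and `-1` on
`u_(j+2)`; contradiction to (X3). -/
def S_LMC3 : Prop :=
  ∀ (n l j0 : ℕ) (Φ : Set (E n)) (V : ℕ → Submodule ℝ (E n)) (gg : ℕ → (E n ≃ₗᵢ[ℝ] E n)),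
    Lin n l j0 Φ V gg → ∀ u ε, LAxes V gg u ε →
    (∀ j, j0 ≤ j → j ≤ l → ε j = 1) → ∀ j, j0 ≤ j → j + 2 < n → ε j = 1

/-- the formula for the generators of the cross-polytope, with a sign for `g_1` -/
def CroF {n : ℕ} (ε : ℝ) (u : OrthonormalBasis (Fin n) ℝ (E n))
    (gm : ℕ → (E n ≃ₗᵢ[ℝ] E n)) : Prop :=
  ∀ j i : Fin n, gm j (u i) =
    if h : j.val + 1 < n then
      (if j.val = 1 ∧ 3 ≤ i.val then ε • u i else u (Equiv.swap j ⟨j.val + 1, h⟩ i))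
    else (if i = j then - u i else u i)

/-- 10.8 (`FOK/MC.lean`): if `ε_0 = -1` change the sign of `g_0` and of all `u i` with `i ≥ 1`; the sign
`ε_1` remains if `j0 = 2`. -/
def S_LMC : Prop :=
  ∀ (n l j0 : ℕ) (Φ : Set (E n)) (V : ℕ → Submodule ℝ (E n)) (gg : ℕ → (E n ≃ₗᵢ[ℝ] E n)),
    Lin n l j0 Φ V gg → ∀ u, IsD Φ u → (∃ i, u i ∈ V 1) →
    ∃ (u' : OrthonormalBasis (Fin n) ℝ (E n)) (gm : ℕ → (E n ≃ₗᵢ[ℝ] E n)) (ε : ℝ), SgEq gg gm ∧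
      IsD Φ u' ∧ (∀ h : 0 < n, u' ⟨0, h⟩ ∈ V 1) ∧ (ε = 1 ∨ ε = -1) ∧ (j0 = 1 → ε = 1) ∧ CroF ε u' gm

def M_LMC : Prop := S_LSG → S_LMC1 → S_LMC2 → S_LMC3 → S_LMC

/-- the conclusion of the classification -/
def Cls {n : ℕ} (j0 : ℕ) (Φ : Set (E n)) (V : ℕ → Submodule ℝ (E n))
    (gg : ℕ → (E n ≃ₗᵢ[ℝ] E n)) : Prop :=
  ∃ gm, SgEq gg gm ∧
    ((∃ v, IsA Φ v ∧ v 0 ∈ V 1 ∧
      ∀ (j : Fin n) (i : Fin (n + 1)), gm j (v i) = v (Equiv.swap j.castSucc j.succ i)) ∨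
    (∃ u : OrthonormalBasis (Fin n) ℝ (E n), IsD Φ u ∧ ∑ i, u i ∈ V 1 ∧
      ∀ j i : Fin n, gm j (u i) =
        if j.val = 0 then (if i = j then - u i else u i) else u (Equiv.swap (prd j) j i)) ∨
    (∃ (u : OrthonormalBasis (Fin n) ℝ (E n)) (ε : ℝ), IsD Φ u ∧ (∀ h : 0 < n, u ⟨0, h⟩ ∈ V 1) ∧
      (ε = 1 ∨ ε = -1) ∧ (j0 = 1 → ε = 1) ∧ CroF ε u gm))

/-- III.6. Assembly. -/
def S_LCLS : Prop :=
  ∀ (n l j0 : ℕ) (Φ : Set (E n)) (V : ℕ → Submodule ℝ (E n)) (gg : ℕ → (E n ≃ₗᵢ[ℝ] E n)),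
    Lin n l j0 Φ V gg → Cls j0 Φ V gg

def M_LCLS : Prop := S_LPOS → S_LMA → S_LMD → S_LMC → S_LCLS

/-- III.7: the root sets of type `A` and `D` are not invariant under the reflection in a vertex of the
simplex, of the cube. (`v 0 - v 1` is mapped to `-(1 + 2/n) v 0 - v 1`; `u 0 + u 1` is mapped to
`u 0 + u 1 - (4/n) ∑ u i`.) -/
def S_NOS : Prop :=
  ∀ (n : ℕ) (Φ : Set (E n)), 5 ≤ n →
    (∀ v, IsA Φ v → ∃ a ∈ Φ, sref (v 0) a ∉ Φ) ∧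
    ∀ u, IsD Φ u → ∃ a ∈ Φ, a - (2 * ⟪∑ i, u i, a⟫ / n) • ∑ i, u i ∉ Φ

/-- FOK 10.4, the argument with eigenvalues: let `e i` be a unit vector in the complement of `W i` in
`W (i + 1)`. Then `A e_i = ε_i e_i`. For `i + 2 ≤ b` the isometry `B i` preserves the plane of
`e i`, `e (i + 1)`, `B_i e_i = α e_i + β e_{i+1}` with `β ≠ 0`, so `ε_i = ε_{i+1}`. -/
def S_EIG : Prop :=
  ∀ (d b : ℕ) (W : ℕ → Submodule ℝ (E d)) (A : E d ≃ₗᵢ[ℝ] E d) (B : ℕ → (E d ≃ₗᵢ[ℝ] E d)),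
    (∀ i, i < b → W i ≤ W (i + 1)) → (∀ i, i ≤ b → Module.finrank ℝ (W i) = i) →
    (∀ i, i ≤ b → ∀ v ∈ W i, A v ∈ W i) → (∀ v ∈ W b, A (A v) = v) →
    (∀ i, i + 2 ≤ b → (∀ v ∈ W b, A (B i v) = B i (A v)) ∧
      (∀ m, m ≤ b → m ≠ i + 1 → ∀ v ∈ W m, B i v ∈ W m) ∧ ∃ v ∈ W (i + 1), B i v ∉ W (i + 1)) →
    ∃ ε : ℝ, (ε = 1 ∨ ε = -1) ∧ ∀ v ∈ W b, A v = ε • v

variable {d k : ℕ} {Γ : Type} [Group Γ] {X : Type} [MulAction Γ X]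

/-! ## III.1, III.2: the case (red) -/

/-- III.1, the unit vector `e0` -/
structure RedE (G : AGeo d k Γ X) (l : ℕ) (e0 : E d) : Prop where
  norm : ‖e0‖ = 1
  I : Sp G 0 l = (ℝ ∙ e0)ᗮ
  I1 : Sp G 1 l = Sp G 0 l
  T : ∀ x ∈ TT G 0 l, G.R 1 x e0 = e0
  N : ∀ n ∈ G.N, G.R 1 n e0 = e0 ∨ G.R 1 n e0 = -e0
  up : ∀ n ∈ G.up (l - 2), G.R 1 n e0 = e0

/-- III.1. For `up`: `f` does not have a constant `e0`-component, `T h` is `1` on the orthogonal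
complement of the differences (`AGeo.perp`). -/
def S_RED1 : Prop :=
  ∀ (d k : ℕ) (Γ : Type) [Group Γ] (X : Type) [MulAction Γ X] (G : AGeo d k Γ X)
    (l : ℕ), ATop G l → Sp G 0 l ≠ ⊤ → ∃ e0, RedE G l e0

def M_RED1 : Prop := S_MIR → S_DIR → S_RED1

/-- III.1, dimensions; `V'_i = V_i ⊓ I` -/
structure RedV (G : AGeo d k Γ X) (l : ℕ) : Prop where
  dimV : ∀ i, 1 ≤ i → i ≤ d →
    Module.finrank ℝ (G.V 1 i ⊓ Sp G 0 l : Submodule ℝ (E d)) + 1 = i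
  Sp : ∀ i, 1 ≤ i → i ≤ l → Sp G i l = (G.V 1 i ⊓ Sp G 0 l : Submodule ℝ (E d))ᗮ ⊓ Sp G 0 l

/-- III.1 -/
def S_RED2 : Prop :=
  ∀ (d k : ℕ) (Γ : Type) [Group Γ] (X : Type) [MulAction Γ X] (G : AGeo d k Γ X)
    (l : ℕ), ATop G l → ∀ e0, RedE G l e0 → RedV G l

def M_RED2 : Prop := S_STEP → S_TI → S_TW → S_MIR → S_DIR → S_RED2

/-- III.1, III.2: the translation parts `b'` and the vector `t = b' (ρ 0)` -/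
structure RedB (G : AGeo d k Γ X) (l : ℕ) (RI : Γ → (E d ≃ₗᵢ[ℝ] E d)) (b : Γ → E d) : Prop where
  mem : ∀ γ, b γ ∈ Sp G 0 l
  mul : ∀ γ δ, b (γ * δ) = b γ + RI γ (b δ)
  up : ∀ γ ∈ G.up 1, b γ = 0
  f : ∀ γ : Γ, pI G l (G.f (γ • G.x0)) = pI G l (G.f G.x0) + b γ
  ne : b (G.ρ 0) ≠ 0
  V : b (G.ρ 0) ∈ G.V 1 2
  ρ0 : RI (G.ρ 0) (b (G.ρ 0)) = -b (G.ρ 0)
  ρj : ∀ j, 2 ≤ j → RI (G.ρ j) (b (G.ρ 0)) = b (G.ρ 0)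

/-- III.1 (end), III.2 (beginning). `V'_1 = 0`, so `ψ = 0` in S_PSI; `b' γ = P f(γ x0) - P f(x0)`. -/
def S_RED3 : Prop :=
  ∀ (d k : ℕ) (Γ : Type) [Group Γ] (X : Type) [MulAction Γ X] [Infinite X] (G : AGeo d k Γ X)
    (l : ℕ), ATop G l → ∀ e0, RedE G l e0 → RedV G l → ∀ RI, IsExt G l RI → ∀ b0, IsB G l RI b0 →
    ∃ b, RedB G l RI b

def M_RED3 : Prop := S_MIR → S_DIR → S_PSI → S_RED3

/-- III.2: properties of the isometries `RI (ρ j)` -/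
structure RedG (G : AGeo d k Γ X) (l : ℕ) (RI : Γ → (E d ≃ₗᵢ[ℝ] E d)) (t : E d) : Prop where
  ρ0 : ∃ δ : ℝ, (δ = 1 ∨ δ = -1) ∧ ∀ v ∈ Sp G 0 l, ⟪t, v⟫ = 0 → RI (G.ρ 0) v = δ • v
  ρ1 : ∃ δ : ℝ, (δ = 1 ∨ δ = -1) ∧
    ∀ v ∈ Sp G 0 l, v ∈ (G.V 1 3 ⊓ Sp G 0 l : Submodule ℝ (E d))ᗮ → RI (G.ρ 1) v = δ • v
  pres : ∀ j i v, i ≠ j + 1 → v ∈ Sp G 0 l → v ∈ G.V 1 i → RI (G.ρ j) v ∈ G.V 1 i
  moves : ∀ j, 1 ≤ j → j + 2 ≤ d → ∃ v ∈ Sp G 0 l, v ∈ G.V 1 (j + 1) ∧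
    RI (G.ρ j) v ∉ G.V 1 (j + 1)

/-- III.2. `RI (ρ j)`, `j = 0, 1`, commutes with the reflections `R 1 x`, `x ∈ TT (j + 2)`, whose roots
form an irreducible set that spans the complement of `V'_{j+2}` (`RedV.Sp`); `V'_2` is the line of
`t`. -/
def S_RED4 : Prop :=
  ∀ (d k : ℕ) (Γ : Type) [Group Γ] (X : Type) [MulAction Γ X] [Infinite X] (G : AGeo d k Γ X)
    (l : ℕ), ATop G l → ∀ e0, RedE G l e0 → RedV G l → ∀ RI, IsExt G l RI → ∀ b0, IsB G l RI b0 →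
    ∀ b, RedB G l RI b → RedG G l RI (b (G.ρ 0))

def M_RED4 : Prop := S_STEP → S_TI → S_TW → S_MIR → S_DIR → S_PSI → S_RED4

/-- III.2, III.3: `RI (ρ j) = 1` on `V'_j` for `j ≥ 2`: S_EIG for `W i = V'_{i+1}`, `b = j - 1`,
`A = RI (ρ j)`, `B i = RI (ρ (i + 1))`; the eigenvalue is `1` as `t ∈ V'_2`. -/
def S_RED5 : Prop :=
  ∀ (d k : ℕ) (Γ : Type) [Group Γ] (X : Type) [MulAction Γ X] (G : AGeo d k Γ X)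
    (l : ℕ), ATop G l → ∀ e0, RedE G l e0 → RedV G l → ∀ RI, IsExt G l RI →
    ∀ b, RedB G l RI b → RedG G l RI (b (G.ρ 0)) →
    ∀ j, 2 ≤ j → j < d → ∀ v ∈ Sp G 0 l, v ∈ G.V 1 j → RI (G.ρ j) v = v

def M_RED5 : Prop := S_EIG → S_RED5

/-- III.5 (red), first half. `typ`: `DirS.typ` transported by `ι`. -/
def S_LR1 : Prop :=
  ∀ (d k : ℕ) (Γ : Type) [Group Γ] (X : Type) [MulAction Γ X] [Infinite X] (G : AGeo d k Γ X)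
    (l : ℕ), ATop G l → ∀ e0, RedE G l e0 → RedV G l → ∀ RI, IsExt G l RI →
    ∀ b, RedB G l RI b → RedG G l RI (b (G.ρ 0)) →
    (∀ j, 2 ≤ j → j < d → ∀ v ∈ Sp G 0 l, v ∈ G.V 1 j → RI (G.ρ j) v = v) →
    ∀ (n : ℕ), n + 1 = d → ∀ (ι : E n →ₗᵢ[ℝ] E d), (∀ v, v ∈ Sp G 0 l ↔ ∃ z, ι z = v) →
    ∀ (gg : ℕ → (E n ≃ₗᵢ[ℝ] E n)), (∀ j z, ι (gg j z) = RI (G.ρ (j + 1)) (ι z)) →
    LinB n (l - 1) 1 {z | ι z ∈ Ph G 1 0 l} (fun i => (G.V 1 (i + 1)).comap ι.toLinearMap) gg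

def M_LR1 : Prop := S_TI → S_MIR → S_DIR → S_LR1

/-- III.5 (red), second half. `RI n = R 1 n` on `I` and `R 1 n e0 = e0` for `n` in the group generated by
`TT G 0 l` and for `n ∈ up (l - 2)`; then `AGeo.mem_up_of_R'`, `AGeo.eq_one_of_R` and
`AGeo.mid_inf_up`. For (X2): `n = (ρ_l q)^2`, `q = w⁻¹ ρ_(j+1) w`, `w = ρ_j ... ρ_(l-1)`. -/
def S_LR2 : Prop :=
  ∀ (d k : ℕ) (Γ : Type) [Group Γ] (X : Type) [MulAction Γ X] [Infinite X] (G : AGeo d k Γ X)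
    (l : ℕ), ATop G l → ∀ e0, RedE G l e0 → RedV G l → ∀ RI, IsExt G l RI →
    ∀ (n : ℕ), n + 1 = d → ∀ (ι : E n →ₗᵢ[ℝ] E d), (∀ v, v ∈ Sp G 0 l ↔ ∃ z, ι z = v) →
    ∀ (gg : ℕ → (E n ≃ₗᵢ[ℝ] E n)), (∀ j z, ι (gg j z) = RI (G.ρ (j + 1)) (ι z)) →
    LinX n (l - 1) 1 (fun i => (G.V 1 (i + 1)).comap ι.toLinearMap) gg

def M_LR2 : Prop := S_MIR → S_DIR → S_LR2

/-! ## III.3, III.4: the case (irr) -/

/-- III.3 -/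
structure IrrD (G : AGeo d k Γ X) (l : ℕ) (RI : Γ → (E d ≃ₗᵢ[ℝ] E d)) (b : Γ → E d) (s : Γ → ℝ)
    (z0 e0 : E d) : Prop where
  norm : ‖e0‖ = 1
  V1 : G.V 1 1 = ℝ ∙ e0
  dimV : ∀ i, 1 ≤ i → i ≤ d → Module.finrank ℝ (G.V 1 i) = i
  mul : ∀ γ δ, b (γ * δ) = b γ + RI γ (b δ)
  up : ∀ γ ∈ G.up 1, b γ = 0
  f : ∀ γ : Γ, G.f (γ • G.x0) = z0 + b γ + s γ • RI γ e0
  H : ∀ h ∈ G.H, ∀ y, G.f (h • y) = z0 + b h + RI h (G.f y - z0)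

/-- III.3. If `V 1 1 = 0` then `f(γ y) = RI γ f(y) + b γ` for all `γ` and `y` by S_PSI, so `H = ⊤` by
`AGeo.noiso`. Dimensions: `ATop.dimV` and S_STEP (`V 1 i < V 1 (i + 1)`). `z0` is the average of
`RI u (f x0) + b0 u`, `u ∈ up 1`; `b γ = RI γ z0 + b0 γ - z0`. -/
def S_IRR1 : Prop :=
  ∀ (d k : ℕ) (Γ : Type) [Group Γ] (X : Type) [MulAction Γ X] [Infinite X] (G : AGeo d k Γ X)
    (l : ℕ), ATop G l → Sp G 0 l = ⊤ → G.H ≠ ⊤ → ∀ RI, IsExt G l RI → ∀ b0, IsB G l RI b0 →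
    ∃ b s z0 e0, IrrD G l RI b s z0 e0

def M_IRR1 : Prop := S_STEP → S_TI → S_DIR → S_PSI → S_IRR1

/-- III.3, III.4: the isometries `RI (ρ j)` and the spaces `V_i` -/
structure IrrG (G : AGeo d k Γ X) (l : ℕ) (RI : Γ → (E d ≃ₗᵢ[ℝ] E d)) : Prop where
  V0 : G.V 1 0 = ⊥
  pres : ∀ j i v, i ≠ j + 1 → v ∈ G.V 1 i → RI (G.ρ j) v ∈ G.V 1 i
  moves : ∀ j, j + 2 ≤ d → ∃ v ∈ G.V 1 (j + 1), RI (G.ρ j) v ∉ G.V 1 (j + 1)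
  scal0 : ∃ δ : ℝ, (δ = 1 ∨ δ = -1) ∧ ∀ v ∈ (G.V 1 2)ᗮ, RI (G.ρ 0) v = δ • v
  Sp : ∀ i, 1 ≤ i → i ≤ l → Sp G i l = (G.V 1 i)ᗮ

/-- III.4. `Sp`: `TopI.perp` and dimensions. `moves` for `j ≥ 1`: S_STEP (third part) and S_PSI (second
part), `V_(j+1)` in the frame `ρ j`; for `j = 0`: otherwise the line `V_1` is invariant under all `RI γ`,
in particular under the reflections with roots in the irreducible spanning set `Ph G 1 0 l`. `scal0`: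
`RI (ρ 0)` commutes with the reflections `R 1 x`, `x ∈ TT G 2 l`. -/
def S_IRR2 : Prop :=
  ∀ (d k : ℕ) (Γ : Type) [Group Γ] (X : Type) [MulAction Γ X] [Infinite X] (G : AGeo d k Γ X)
    (l : ℕ), ATop G l → Sp G 0 l = ⊤ → ∀ RI, IsExt G l RI → ∀ b0, IsB G l RI b0 →
    ∀ b s z0 e0, IrrD G l RI b s z0 e0 → IrrG G l RI

def M_IRR2 : Prop := S_STEP → S_TI → S_DIR → S_PSI → S_IRR2

/-- III.4: the vector `t = b (ρ 0)` -/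
structure IrrT (G : AGeo d k Γ X) (RI : Γ → (E d ≃ₗᵢ[ℝ] E d)) (t : E d) : Prop where
  ne : t ≠ 0
  V : t ∈ G.V 1 2
  ρ0 : RI (G.ρ 0) t = -t
  ρj : ∀ j, 2 ≤ j → RI (G.ρ j) t = t

/-- III.4. If `t = 0` then `b = 0` and `‖f(γ x0) - z0‖` is constant on the `N`-orbits (`IrrD.H`), so
`f` is bounded and `X` is finite by `AGeo.locfin`. -/
def S_IRR3 : Prop :=
  ∀ (d k : ℕ) (Γ : Type) [Group Γ] (X : Type) [MulAction Γ X] [Infinite X] (G : AGeo d k Γ X)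
    (l : ℕ), ATop G l → Sp G 0 l = ⊤ → ∀ RI, IsExt G l RI →
    ∀ b s z0 e0, IrrD G l RI b s z0 e0 → IrrG G l RI → IrrT G RI (b (G.ρ 0))

/-- III.4: the signs. S_EIG for `W i = V_i`, `b = j`, `A = RI (ρ j)`, `B i = RI (ρ i)`. The sign of
`RI (ρ 1)` on `e0` is `-1`: otherwise `z0 + s e0`, for a suitable `s`, is a fixed point of all
`v ↦ z0 + b γ + RI γ (v - z0)`, and `f` is bounded. -/
def S_IRR4 : Prop :=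
  ∀ (d k : ℕ) (Γ : Type) [Group Γ] (X : Type) [MulAction Γ X] [Infinite X] (G : AGeo d k Γ X)
    (l : ℕ), ATop G l → Sp G 0 l = ⊤ → ∀ RI, IsExt G l RI →
    ∀ b s z0 e0, IrrD G l RI b s z0 e0 → IrrG G l RI → IrrT G RI (b (G.ρ 0)) →
    (∀ j, 2 ≤ j → j < d → ∀ v ∈ G.V 1 j, RI (G.ρ j) v = v) ∧ RI (G.ρ 1) e0 = -e0

def M_IRR4 : Prop := S_EIG → S_IRR4

/-- the isometries `gg` in the case (irr) -/
def ggI (G : AGeo d k Γ X) (RI : Γ → (E d ≃ₗᵢ[ℝ] E d)) (j : ℕ) : E d ≃ₗᵢ[ℝ] E d :=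
  if j = 1 then (RI (G.ρ 1)).trans (LinearIsometryEquiv.neg ℝ) else RI (G.ρ j)

/-- III.5 (irr), first half -/
def S_LI1 : Prop :=
  ∀ (d k : ℕ) (Γ : Type) [Group Γ] (X : Type) [MulAction Γ X] [Infinite X] (G : AGeo d k Γ X)
    (l : ℕ), ATop G l → Sp G 0 l = ⊤ → ∀ RI, IsExt G l RI →
    ∀ b s z0 e0, IrrD G l RI b s z0 e0 → IrrG G l RI →
    (∀ j, 2 ≤ j → j < d → ∀ v ∈ G.V 1 j, RI (G.ρ j) v = v) → RI (G.ρ 1) e0 = -e0 →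
    LinB d l 2 (Ph G 1 0 l) (fun i => G.V 1 i) (ggI G RI)

def M_LI1 : Prop := S_TI → S_MIR → S_DIR → S_LI1

/-- III.5 (irr), second half. `RI n = R 1 n` for `n ∈ N`; `AGeo.mem_up_of_R'`, `AGeo.eq_one_of_R` and
`AGeo.mid_inf_up`. For (X2): `n = (ρ_l q)^2`, `q = w⁻¹ ρ_j w`, `w = ρ_(j-1) ... ρ_(l-1)`. -/
def S_LI2 : Prop :=
  ∀ (d k : ℕ) (Γ : Type) [Group Γ] (X : Type) [MulAction Γ X] [Infinite X] (G : AGeo d k Γ X)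
    (l : ℕ), ATop G l → Sp G 0 l = ⊤ → ∀ RI, IsExt G l RI →
    LinX d l 2 (fun i => G.V 1 i) (ggI G RI)

def M_LI2 : Prop := S_MIR → S_LI2

/-! ## III.8: the formula for the vertices -/

/-- the formula in the case (irr) -/
structure WI (G : AGeo d k Γ X) (c y0 t : E d) (s0 : ℤˣ) (ε : ℝ)
    (g : ℕ → (E d ≃ₗᵢ[ℝ] E d)) (q : Γ → ℝ) : Prop where
  eps : ε = 1 ∨ ε = -1
  mod : LinModel d ε ⊤ y0 g
  tne : t ≠ 0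
  tsp : t ∈ Submodule.span ℝ {y0, g 0 y0}
  tg : sg s0 • g 0 t = -t
  qN : ∀ n ∈ G.N, ∀ γ, q (n * γ) = q γ
  qj : ∀ γ j, 1 ≤ j → j < d → q (γ * G.ρ j) = sg (sgI s0 j) * q γ
  f : ∀ w : List (Fin d), G.f ((w.map fun j : Fin d => G.ρ j).prod • G.x0) =
    c + wI s0 g t w + (sg ((w.map fun j : Fin d => sgI s0 j).prod) *
      q ((w.map fun j : Fin d => G.ρ j).prod)) • ((w.map fun j : Fin d => g j).prod y0)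

/-- III.8 (irr). `g j` is `gm j` of `Cls` for `ggI`; `RI (ρ j) = s_j g_j`; `y0` is `v 0`, `∑ u i`,
`u 0`; `e0 = κ y0`, `q γ = κ s γ`. `t ∈ V_2`, which is spanned by `y0` and `RI (ρ 0) y0`. -/
def S_WRI : Prop :=
  ∀ (d k : ℕ) (Γ : Type) [Group Γ] (X : Type) [MulAction Γ X] [Infinite X] (G : AGeo d k Γ X)
    (l : ℕ), ATop G l → Sp G 0 l = ⊤ → ∀ RI, IsExt G l RI →
    ∀ b s z0 e0, IrrD G l RI b s z0 e0 → IrrG G l RI → IrrT G RI (b (G.ρ 0)) →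
    (∀ j, 2 ≤ j → j < d → ∀ v ∈ G.V 1 j, RI (G.ρ j) v = v) → RI (G.ρ 1) e0 = -e0 →
    Cls 2 (Ph G 1 0 l) (fun i => G.V 1 i) (ggI G RI) →
    ∃ c y0 t s0 ε g q, WI G c y0 t s0 ε g q

/-- the formula in the case (red) -/
structure WR (G : AGeo d k Γ X) (l : ℕ) (c e0 y0 t : E d) (b : Bool) (s1 : ℤˣ)
    (g : ℕ → (E d ≃ₗᵢ[ℝ] E d)) (q : Γ → ℝ) : Prop where
  norm : ‖e0‖ = 1
  mod : LinModel (d - 1) 1 (ℝ ∙ e0)ᗮ y0 g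
  cro : b = true → CroM (d - 1) 1 (ℝ ∙ e0)ᗮ y0 g
  tne : t ≠ 0
  tsp : t ∈ Submodule.span ℝ {y0}
  qj : ∀ γ j, 1 ≤ j → q (γ * G.ρ j) = q γ
  ql : ∀ γ δ j, l - 2 ≤ j → q (γ * G.ρ j * δ) = q (γ * δ)
  f : ∀ w : List (Fin d), G.f ((w.map fun j : Fin d => G.ρ j).prod • G.x0) =
    c + wR b s1 g y0 t w + q ((w.map fun j : Fin d => G.ρ j).prod) • e0

/-- III.7, III.8 (red). `c = P f(x0)`, `q γ = ⟪f(γ x0), e0⟫`; `g j = RI (ρ (j + 1))` for `j ≥ 1`,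
`g 0 = ± RI (ρ 1)`; `RI (ρ 0) = -1` on `I` (`b = false`) or the reflection in `t` (`b = true`); the latter
only for the cross-polytope, by S_NOS and `IsExt.root`. For `ql`: `γ ρ_j γ⁻¹ = m ρ_j m⁻¹` with
`m ∈ N` (S_MIR, first part), it acts trivially on `e0` and fixes `γ x0`. -/
def S_WRR : Prop :=
  ∀ (d k : ℕ) (Γ : Type) [Group Γ] (X : Type) [MulAction Γ X] [Infinite X] (G : AGeo d k Γ X)
    (l : ℕ), ATop G l → ∀ e0, RedE G l e0 → RedV G l → ∀ RI, IsExt G l RI →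
    ∀ b, RedB G l RI b → RedG G l RI (b (G.ρ 0)) →
    ∀ (n : ℕ), n + 1 = d → ∀ (ι : E n →ₗᵢ[ℝ] E d), (∀ v, v ∈ Sp G 0 l ↔ ∃ z, ι z = v) →
    ∀ (gg : ℕ → (E n ≃ₗᵢ[ℝ] E n)), (∀ j z, ι (gg j z) = RI (G.ρ (j + 1)) (ι z)) →
    Cls 1 {z | ι z ∈ Ph G 1 0 l} (fun i => (G.V 1 (i + 1)).comap ι.toLinearMap) gg →
    ∃ c y0 t b' s1 g q, WR G l c e0 y0 t b' s1 g q

def M_WRR : Prop := S_MIR → S_DIR → S_NOS → S_WRR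

end

end FOI
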