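import Pool.Agent.FOI.DStmts

/-!
# CTI: the index of the symmetry group in the case (irr)
-/

namespace FOI

open Lib_helper64.FO FO2 FOK
open scoped RealInnerProductSpace Nat

noncomputable section

namespace CTI

/-! ### words in involutions -/

theorem rev_prod {G : Type*} [Group G] {d : ℕ} {p : Fin d → G} (hp : ∀ j, p j * p j = 1)
    (w : List (Fin d)) : (w.reverse.map p).prod = ((w.map p).prod)⁻¹ := by
  induction w with
  | nil => simp
  | cons j w ih =>
    have h1 : (p j)⁻¹ = p j := inv_eq_of_mul_eq_one_right (hp j)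
    rw [List.reverse_cons, List.map_append, List.prod_append, ih]
    simp only [List.map_cons, List.map_nil, List.prod_cons, List.prod_nil, mul_one, mul_inv_rev, h1]

theorem exists_word {G : Type*} [Group G] {d : ℕ} {p : Fin d → G} (hp : ∀ j, p j * p j = 1) {x : G}
    (hx : x ∈ Subgroup.closure (Set.range p)) : ∃ w : List (Fin d), (w.map p).prod = x := by
  induction hx using Subgroup.closure_induction with
  | mem x hx =>
    obtain ⟨j, rfl⟩ := hx
    exact ⟨[j], by simp⟩
  | one => exact ⟨[], by simp⟩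
  | mul x y _ _ hx hy =>
    obtain ⟨w, rfl⟩ := hx
    obtain ⟨w', rfl⟩ := hy
    exact ⟨w ++ w', by rw [List.map_append, List.prod_append]⟩
  | inv x _ hx =>
    obtain ⟨w, rfl⟩ := hx
    exact ⟨w.reverse, rev_prod hp w⟩

/-! ### signs -/

theorem sg_one : sg 1 = 1 := by simp [sg]

theorem sg_mul (a b : ℤˣ) : sg (a * b) = sg a * sg b := by
  simp only [sg, Units.val_mul, Int.cast_mul]

theorem sg_sq (a : ℤˣ) : sg a * sg a = 1 := by
  rw [← sg_mul, Int.units_mul_self, sg_one]

theorem sg_or (a : ℤˣ) : sg a = 1 ∨ sg a = -1 := by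
  rcases Int.units_eq_one_or a with rfl | rfl <;> simp [sg]

theorem smul_mem_S {d : ℕ} {S : Set (E d)} (hneg : ∀ v ∈ S, -v ∈ S) (a : ℤˣ) {v : E d} (hv : v ∈ S) :
    sg a • v ∈ S := by
  rcases sg_or a with h | h
  · rw [h, one_smul]; exact hv
  · rw [h, neg_one_smul]; exact hneg v hv

/-- the isometry `sg a • L` -/
def sm {d : ℕ} (a : ℤˣ) (L : E d ≃ₗᵢ[ℝ] E d) : E d ≃ₗᵢ[ℝ] E d :=
  if a = 1 then L else L.trans (LinearIsometryEquiv.neg ℝ)

theorem sm_apply {d : ℕ} (a : ℤˣ) (L : E d ≃ₗᵢ[ℝ] E d) (v : E d) : sm a L v = sg a • L v := by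
  unfold sm
  rcases Int.units_eq_one_or a with rfl | rfl
  · simp [sg]
  · rw [if_neg (by decide)]
    simp [sg]

/-- the isometry with centre `c`, linear part `L` and translation part `b` -/
def iso {d : ℕ} (c b : E d) (L : E d ≃ₗᵢ[ℝ] E d) : E d ≃ᵢ E d :=
  (IsometryEquiv.subRight c).trans (L.toIsometryEquiv.trans (IsometryEquiv.addLeft (c + b)))

theorem iso_apply {d : ℕ} (c b : E d) (L : E d ≃ₗᵢ[ℝ] E d) (v : E d) :
    iso c b L v = c + b + L (v - c) := rfl

section main

variable {d : ℕ} (s0 : ℤˣ) (g : ℕ → (E d ≃ₗᵢ[ℝ] E d)) (t : E d)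

/-- the linear parts `s_j g_j` -/
def hh (j : Fin d) : E d ≃ₗᵢ[ℝ] E d := sm (sgI s0 j) (g j)

/-- the translation parts -/
def tt (j : Fin d) : E d := if j.val = 0 then t else 0

/-- the sign of a word -/
def sw (w : List (Fin d)) : ℤˣ := (w.map fun j : Fin d => sgI s0 j).prod

theorem hh_apply (j : Fin d) (v : E d) : hh s0 g j v = sg (sgI s0 j) • g j v := sm_apply _ _ _

theorem bw_eq (w : List (Fin d)) : bw (hh s0 g) (tt t) w = wI s0 g t w := by
  induction w with
  | nil => rfl
  | cons j w ih =>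
    change hh s0 g j (bw (hh s0 g) (tt t) w) + tt t j =
      sg (sgI s0 j) • g j (wI s0 g t w) + if j.val = 0 then t else 0
    rw [ih, hh_apply]
    rfl

theorem bw_append {D m : ℕ} (h : Fin m → (E D ≃ₗᵢ[ℝ] E D)) (t : Fin m → E D) (u w : List (Fin m)) :
    bw h t (u ++ w) = (u.map h).prod (bw h t w) + bw h t u := by
  induction u with
  | nil =>
    change bw h t w = bw h t w + 0
    rw [add_zero]
  | cons j u ih =>
    change h j (bw h t (u ++ w)) + t j = ((j :: u).map h).prod (bw h t w) + (h j (bw h t u) + t j)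
    rw [ih, map_add, List.map_cons, List.prod_cons, add_assoc]
    rfl

theorem hh_prod (w : List (Fin d)) (v : E d) :
    (w.map (hh s0 g)).prod v = sg (sw s0 w) • (w.map fun j : Fin d => g j).prod v := by
  induction w with
  | nil =>
    change v = sg 1 • v
    rw [sg_one, one_smul]
  | cons j w ih =>
    have h1 : ((j :: w).map (hh s0 g)).prod v = hh s0 g j ((w.map (hh s0 g)).prod v) := by
      rw [List.map_cons, List.prod_cons]
      rfl
    have h2 : ((j :: w).map fun j : Fin d => g j).prod v =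
        g j ((w.map fun j : Fin d => g j).prod v) := by
      rw [List.map_cons, List.prod_cons]
      rfl
    have h3 : sw s0 (j :: w) = sgI s0 j * sw s0 w := by
      unfold sw
      rw [List.map_cons, List.prod_cons]
    rw [h1, ih, h2, h3, hh_apply, map_smul, smul_smul, sg_mul]

theorem q_prod {A : Type} (M : Datum d A) (w : List (Fin d)) :
    (w.map fun j : Fin d => ((M.π j, sgI s0 j) : Equiv.Perm A × ℤˣ)).prod =
      ((w.map M.π).prod, sw s0 w) := by
  induction w with
  | nil => rfl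
  | cons j w ih =>
    rw [List.map_cons, List.prod_cons, ih]
    unfold sw
    rw [List.map_cons, List.prod_cons, List.map_cons, List.prod_cons]
    rfl

end main

/-- the facts on the model -/
theorem model (h1 : S_MOS) (h2 : S_MOC) (h3 : S_MOX) {d l : ℕ} {ε : ℝ} {y0 : E d}
    {g : ℕ → (E d ≃ₗᵢ[ℝ] E d)} (hd : 6 ≤ d) (hε : ε = 1 ∨ ε = -1) (hL : LinModel d ε ⊤ y0 g)
    (hl : 2 ≤ l) (hl' : l + 2 ≤ d) : ∃ S Ψ a, MoG d l ⊤ y0 g S Ψ a := by
  obtain ⟨hdim, h | h | h⟩ := hL
  · exact h1 d d l ⊤ y0 g hdim hd hl hl' h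
  · exact h2 d d l ⊤ y0 g hdim hd hl hl' h
  · obtain ⟨_, S, Ψ, a, hM, _⟩ := h3 d d l ε ⊤ y0 g hdim hd hl hl' hε h
    exact ⟨S, Ψ, a, hM⟩

/-- the translations -/
theorem trans_span (h0 : S_TRN) {d : ℕ} {l : Fin d} {y0 t : E d} {s0 : ℤˣ}
    {g : ℕ → (E d ≃ₗᵢ[ℝ] E d)} {A : Type} {M : Datum d A} {S Ψ : Set (E d)} {a : E d}
    (hd : 6 ≤ d) (hM : MoG d l ⊤ y0 g S Ψ a) (ht : t ≠ 0) (hgt : sg s0 • g 0 t = -t)
    (hl : 2 ≤ l.val) (hπ : M.π l = 1) :
    Submodule.span ℝ {τ | ∃ u : List (Fin d), (u.map M.π).prod = 1 ∧ sw s0 u = 1 ∧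
      (∀ v, (u.map (hh s0 g)).prod v = v) ∧ bw (hh s0 g) (tt t) u = τ} = ⊤ := by
  have hs2 : ∀ j : ℕ, 2 ≤ j → sgI s0 j = 1 := by
    intro j hj
    unfold sgI
    rw [if_neg (by omega), if_neg (by omega)]
  have hneg : ∀ j : Fin d, ∀ v ∈ S, hh s0 g j v ∈ S := by
    intro j v hv
    rw [hh_apply]
    exact smul_mem_S hM.neg _ (hM.gS j j.2 v hv)
  have hsq : ∀ j : Fin d, ∀ v ∈ (⊤ : Submodule ℝ (E d)), hh s0 g j (hh s0 g j v) = v := by
    intro j v hv
    rw [hh_apply, hh_apply, map_smul, smul_smul, sg_sq, one_smul]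
    exact hM.sq j j.2 v hv
  have htj : ∀ j : Fin d, hh s0 g j (tt t j) = -tt t j := by
    intro j
    unfold tt
    split_ifs with hj
    · rw [hh_apply, hj]
      have : sgI s0 0 = s0 := rfl
      rw [this]
      exact hgt
    · rw [map_zero, neg_zero]
  have hq : ∀ j : Fin d, ((M.π j, sgI s0 j) : Equiv.Perm A × ℤˣ) * (M.π j, sgI s0 j) = 1 := by
    intro j
    exact Prod.ext (M.sq j) (Int.units_mul_self _)
  have hql : ((M.π l, sgI s0 l) : Equiv.Perm A × ℤˣ) = 1 := by
    rw [hπ, hs2 l hl]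
    rfl
  have htl : tt t l = 0 := by
    unfold tt
    rw [if_neg (by omega)]
  have hrefl : ∀ v ∈ (⊤ : Submodule ℝ (E d)), hh s0 g l v = sref a v := by
    intro v hv
    rw [hh_apply, hs2 l hl, sg_one, one_smul]
    exact hM.refl v hv
  have horb : ∀ b ∈ Ψ, ∃ w : List (Fin d),
      b = (w.map (hh s0 g)).prod a ∨ b = -(w.map (hh s0 g)).prod a := by
    intro b hb
    obtain ⟨w, hw, hwb⟩ := hM.orb b hb
    obtain ⟨w', rfl⟩ : ∃ w' : List (Fin d), w'.map (fun j : Fin d => j.val) = w := by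
      clear hwb
      induction w with
      | nil => exact ⟨[], rfl⟩
      | cons j w ih =>
        obtain ⟨w', hw'⟩ := ih fun i hi => hw i (List.mem_cons_of_mem _ hi)
        exact ⟨⟨j, hw j (by simp)⟩ :: w', by rw [List.map_cons, hw']⟩
    refine ⟨w', ?_⟩
    rw [List.map_map] at hwb
    change b = (w'.map fun j : Fin d => g j).prod a ∨
      b = -(w'.map fun j : Fin d => g j).prod a at hwb
    rw [hh_prod]
    rcases sg_or (sw s0 w') with h | h <;> rw [h]
    · rw [one_smul]; exact hwb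
    · rw [neg_one_smul, neg_neg]; exact hwb.symm
  have hfix : ∀ v ∈ (⊤ : Submodule ℝ (E d)), ∃ j : Fin d, hh s0 g j v + tt t j ≠ v := by
    intro v hv
    by_contra hcon
    push Not at hcon
    have hv0 : v = 0 := by
      refine hM.f1 v hv ?_ ?_
      · intro j hj hjd
        have := hcon ⟨j, hjd⟩
        rw [hh_apply, hs2 j hj, sg_one, one_smul] at this
        unfold tt at this
        rw [if_neg (by change ¬ j = 0; omega), add_zero] at this
        exact this
      · have := hcon ⟨1, by omega⟩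
        rw [hh_apply] at this
        have h1 : sgI s0 (⟨1, by omega⟩ : Fin d) = -1 := by
          unfold sgI
          rw [if_neg (by change ¬ 1 = 0; omega), if_pos rfl]
        rw [h1] at this
        have h2 : sg (-1) = -1 := by simp [sg]
        unfold tt at this
        rw [h2, if_neg (by change ¬ 1 = 0; omega), add_zero, neg_one_smul] at this
        change -(g 1 v) = v at this
        rw [← this, neg_neg]
        rw [this]
    have := hcon ⟨0, by omega⟩
    rw [hv0, map_zero, zero_add] at this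
    unfold tt at this
    rw [if_pos rfl] at this
    exact ht this
  have key := h0 d d ⊤ (hh s0 g) (tt t) (Equiv.Perm A × ℤˣ)
    (fun j : Fin d => (M.π j, sgI s0 j)) l a S Ψ hM.fin hM.span hneg (fun _ => trivial) hsq htj hq
    hql htl hM.norm hM.aI hrefl hM.irr hM.spΨ horb hfix
  rw [← key]
  congr 1
  ext τ
  constructor
  · rintro ⟨u, hu1, hu2, hu3, hu4⟩
    refine ⟨u, ?_, fun v _ => hu3 v, hu4⟩
    rw [q_prod, hu1, hu2]
    rfl
  · rintro ⟨u, hu1, hu3, hu4⟩
    rw [q_prod] at hu1
    exact ⟨u, congrArg Prod.fst hu1, congrArg Prod.snd hu1, fun v => hu3 v trivial, hu4⟩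

section key

variable {d : ℕ} {Γ : Type} [Group Γ] {X : Type} [MulAction Γ X] {ρ : Fin d → Γ}
  {x0 : X} {f : X → E d} {c y0 t : E d} {s0 : ℤˣ} {g : ℕ → (E d ≃ₗᵢ[ℝ] E d)} {A : Type}
  {M : Datum d A}

/-- the formula for a product of two words -/
theorem hww (hf : ∀ w : List (Fin d), f ((w.map ρ).prod • x0) =
      c + bw (hh s0 g) (tt t) w +
        M.r ((w.map M.π).prod M.a0) • ((w.map fun j : Fin d => g j).prod y0))
    (w w' : List (Fin d)) : f ((w.map ρ).prod • (w'.map ρ).prod • x0) =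
      c + ((w.map (hh s0 g)).prod (bw (hh s0 g) (tt t) w') + bw (hh s0 g) (tt t) w) +
      M.r ((w.map M.π).prod ((w'.map M.π).prod M.a0)) •
        ((w.map fun j : Fin d => g j).prod ((w'.map fun j : Fin d => g j).prod y0)) := by
  have := hf (w ++ w')
  rw [bw_append, List.map_append, List.map_append, List.map_append, List.prod_append,
    List.prod_append, List.prod_append, mul_smul] at this
  exact this

/-- from the function `r` to an isometry -/
theorem key1 (hs : ∀ x : X, ∃ w : List (Fin d), x = (w.map ρ).prod • x0)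
    (hf : ∀ w : List (Fin d), f ((w.map ρ).prod • x0) =
      c + bw (hh s0 g) (tt t) w +
        M.r ((w.map M.π).prod M.a0) • ((w.map fun j : Fin d => g j).prod y0))
    (w : List (Fin d)) (h : ∀ a, M.r ((w.map M.π).prod a) = sg (sw s0 w) * M.r a) :
    ∃ T : E d ≃ᵢ E d, ∀ x, T (f x) = f ((w.map ρ).prod • x) := by
  refine ⟨iso c (bw (hh s0 g) (tt t) w) (w.map (hh s0 g)).prod, fun x => ?_⟩
  obtain ⟨w', rfl⟩ := hs x
  rw [hww hf, hf, iso_apply, h]
  have e : c + bw (hh s0 g) (tt t) w' +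
      M.r ((w'.map M.π).prod M.a0) • ((w'.map fun j : Fin d => g j).prod y0) - c =
      bw (hh s0 g) (tt t) w' +
      M.r ((w'.map M.π).prod M.a0) • ((w'.map fun j : Fin d => g j).prod y0) := by abel
  rw [e, map_add, map_smul, hh_prod s0 g w ((w'.map fun j : Fin d => g j).prod y0), smul_smul,
    mul_comm (M.r _)]
  abel

/-- from an isometry to the function `r` -/
theorem key2 (hind : LinearIndependent ℝ ![y0, g 0 y0]) (hd : 0 < d)
    (hf : ∀ w : List (Fin d), f ((w.map ρ).prod • x0) =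
      c + bw (hh s0 g) (tt t) w +
        M.r ((w.map M.π).prod M.a0) • ((w.map fun j : Fin d => g j).prod y0))
    (hT : Submodule.span ℝ {τ | ∃ u : List (Fin d), (u.map M.π).prod = 1 ∧ sw s0 u = 1 ∧
      (∀ v, (u.map (hh s0 g)).prod v = v) ∧ bw (hh s0 g) (tt t) u = τ} = ⊤)
    (w : List (Fin d)) (h : ∃ T : E d ≃ᵢ E d, ∀ x, T (f x) = f ((w.map ρ).prod • x)) (a : A) :
    M.r ((w.map M.π).prod a) = sg (sw s0 w) * M.r a := by
  obtain ⟨T, hTf⟩ := h
  set L := T.toRealAffineIsometryEquiv.linearIsometryEquiv with hL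
  have hLT : ∀ u v : E d, L (u - v) = T u - T v := by
    intro u v
    have := T.toRealAffineIsometryEquiv.map_vsub u v
    rw [T.coeFn_toRealAffineIsometryEquiv] at this
    exact this
  have hwT : ∀ w' : List (Fin d), T (f ((w'.map ρ).prod • x0)) =
      c + ((w.map (hh s0 g)).prod (bw (hh s0 g) (tt t) w') + bw (hh s0 g) (tt t) w) +
      M.r ((w.map M.π).prod ((w'.map M.π).prod M.a0)) •
        ((w.map fun j : Fin d => g j).prod ((w'.map fun j : Fin d => g j).prod y0)) := by
    intro w'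
    rw [hTf, hww hf]
  have hlin : ∀ v : E d, L v = (w.map (hh s0 g)).prod v := by
    intro v
    have e : (L.toLinearEquiv : E d →ₗ[ℝ] E d) =
        ((w.map (hh s0 g)).prod.toLinearEquiv : E d →ₗ[ℝ] E d) := by
      refine LinearMap.ext_on hT ?_
      rintro τ ⟨u, hu1, hu2, hu3, rfl⟩
      have hgu : (u.map fun j : Fin d => g j).prod y0 = y0 := by
        have := hu3 y0
        rw [hh_prod, hu2, sg_one, one_smul] at this
        exact this
      have e1 := hwT u
      have e2 := hwT []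
      rw [hf, hu1] at e1
      rw [hf] at e2
      rw [hgu] at e1
      have e3 := hLT (c + bw (hh s0 g) (tt t) u + M.r ((1 : Equiv.Perm A) M.a0) • y0)
        (c + bw (hh s0 g) (tt t) [] + M.r ((1 : Equiv.Perm A) M.a0) • y0)
      change T (c + bw (hh s0 g) (tt t) [] + M.r ((1 : Equiv.Perm A) M.a0) • y0) =
        c + ((w.map (hh s0 g)).prod (0 : E d) + bw (hh s0 g) (tt t) w) +
        M.r ((w.map M.π).prod ((1 : Equiv.Perm A) M.a0)) •
          ((w.map fun j : Fin d => g j).prod y0) at e2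
      rw [e1, e2, map_zero] at e3
      have e4 : c + bw (hh s0 g) (tt t) u + M.r ((1 : Equiv.Perm A) M.a0) • y0 -
          (c + bw (hh s0 g) (tt t) [] + M.r ((1 : Equiv.Perm A) M.a0) • y0) =
          bw (hh s0 g) (tt t) u := by
        change c + bw (hh s0 g) (tt t) u + M.r ((1 : Equiv.Perm A) M.a0) • y0 -
          (c + 0 + M.r ((1 : Equiv.Perm A) M.a0) • y0) = bw (hh s0 g) (tt t) u
        abel
      rw [e4] at e3
      change L (bw (hh s0 g) (tt t) u) = (w.map (hh s0 g)).prod (bw (hh s0 g) (tt t) u)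
      rw [e3]
      abel
    exact LinearMap.congr_fun e v
  set δ : A → ℝ := fun a => M.r ((w.map M.π).prod a) - sg (sw s0 w) * M.r a with hδ
  have hconst : ∀ w' : List (Fin d),
      δ ((w'.map M.π).prod M.a0) • ((w'.map fun j : Fin d => g j).prod y0) = δ M.a0 • y0 := by
    intro w'
    have e1 := hwT w'
    have e2 := hwT []
    change T (f ((([] : List (Fin d)).map ρ).prod • x0)) =
        c + ((w.map (hh s0 g)).prod (0 : E d) + bw (hh s0 g) (tt t) w) +
        M.r ((w.map M.π).prod M.a0) •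
          ((w.map fun j : Fin d => g j).prod y0) at e2
    have e3 := hLT (f ((w'.map ρ).prod • x0)) (f ((([] : List (Fin d)).map ρ).prod • x0))
    rw [e1, e2, hf, hf, hlin, map_zero] at e3
    change (w.map (hh s0 g)).prod (c + bw (hh s0 g) (tt t) w' +
      M.r ((w'.map M.π).prod M.a0) • ((w'.map fun j : Fin d => g j).prod y0) -
      (c + 0 + M.r M.a0 • y0)) = _ at e3
    have e4 : c + bw (hh s0 g) (tt t) w' +
      M.r ((w'.map M.π).prod M.a0) • ((w'.map fun j : Fin d => g j).prod y0) -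
      (c + 0 + M.r M.a0 • y0) = bw (hh s0 g) (tt t) w' +
        (M.r ((w'.map M.π).prod M.a0) • ((w'.map fun j : Fin d => g j).prod y0) -
          M.r M.a0 • y0) := by abel
    rw [e4, map_add, hh_prod s0 g w (M.r ((w'.map M.π).prod M.a0) •
      ((w'.map fun j : Fin d => g j).prod y0) - M.r M.a0 • y0)] at e3
    apply (w.map fun j : Fin d => g j).prod.injective
    rw [hδ, map_smul, map_smul]
    rw [map_sub, map_smul, map_smul] at e3
    simp only [sub_smul, mul_smul]
    rw [smul_sub] at e3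
    have e5 : ∀ p q b s m m' n n' : E d, p + (m - n) = c + (p + b) + m' - (c + (q + b) + n') →
        q = 0 → m' - m = n' - n := by
      intro p q b s m m' n n' h1 h2
      rw [h2] at h1
      have h3 : m - n = m' - n' := by
        have : p + (m - n) = p + (m' - n') := by
          rw [h1]
          abel
        exact add_left_cancel this
      have h4 : m' - m - (n' - n) = (m' - n') - (m - n) := by abel
      rw [← sub_eq_zero, h4, h3, sub_self]
    exact e5 _ 0 _ 0 _ _ _ _ e3 rfl
  have h00 : δ M.a0 = 0 := by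
    have e := hconst [⟨0, hd⟩]
    simp only [List.map_cons, List.map_nil, List.prod_cons, List.prod_nil, mul_one] at e
    have e1 : (-δ M.a0) • y0 + δ (M.π ⟨0, hd⟩ M.a0) • g 0 y0 = 0 := by
      rw [neg_smul]
      rw [← sub_eq_zero] at e
      rw [← e]
      abel
    have e2 := LinearIndependent.pair_iff.1 hind _ _ e1
    linarith [e2.1]
  have hy0 : y0 ≠ 0 := by
    have := hind.ne_zero 0
    simpa using this
  have hall : ∀ w' : List (Fin d), δ ((w'.map M.π).prod M.a0) = 0 := by
    intro w'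
    have e := hconst w'
    rw [h00, zero_smul] at e
    rcases smul_eq_zero.1 e with h | h
    · exact h
    · exfalso
      apply hy0
      have := (w'.map fun j : Fin d => g j).prod.norm_map y0
      rw [h, norm_zero] at this
      exact norm_eq_zero.1 this.symm
  obtain ⟨q, hq, rfl⟩ := M.trans a
  obtain ⟨w', rfl⟩ := exists_word M.sq hq
  have := hall w'
  rw [hδ] at this
  linarith [this]

end key

end CTI

open CTI in
theorem t_CTI : M_CTI := by
  intro hTRN hMOS hMOC hMOX hIXW d Γ _ X _ ρ x0 f c y0 t s0 ε g A M H hd hε hL ht hgt hl hgen hρ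
    htr hf hH
  obtain ⟨l, hl2, hld, hπ⟩ := hl
  obtain ⟨S, Ψ, a, hM⟩ := model hMOS hMOC hMOX hd hε hL hl2 hld
  have hT := trans_span (M := M) hTRN hd hM ht hgt hl2 hπ
  have hf' : ∀ w : List (Fin d), f ((w.map ρ).prod • x0) =
      c + bw (hh s0 g) (tt t) w +
        M.r ((w.map M.π).prod M.a0) • ((w.map fun j : Fin d => g j).prod y0) := by
    intro w
    rw [bw_eq]
    exact hf w
  have hs : ∀ x : X, ∃ w : List (Fin d), x = (w.map ρ).prod • x0 := by
    intro x
    obtain ⟨γ, rfl⟩ := htr x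
    obtain ⟨w, hw⟩ := exists_word hρ (x := γ) (by rw [hgen]; trivial)
    exact ⟨w, by rw [hw]⟩
  have hq : ∀ j : Fin d, ((M.π j, sgI s0 j) : Equiv.Perm A × ℤˣ) * (M.π j, sgI s0 j) = 1 := by
    intro j
    exact Prod.ext (M.sq j) (Int.units_mul_self _)
  refine hIXW d Γ (Equiv.Perm A × ℤˣ) ρ (fun j : Fin d => (M.π j, sgI s0 j)) H M.HI hgen hρ hq
    fun w => ?_
  rw [hH, q_prod]
  constructor
  · intro h a'
    exact key2 hM.ind (by omega) hf' hT w h a'
  · intro h
    exact key1 hs hf' w h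

end

end FOI
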