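import Pool.Agent.FOI.DStmts

/-!
# Module CTR: the count in the case (red), section IV.2
-/

namespace FOI

open Lib_helper64.FO FO2 FOK
open scoped RealInnerProductSpace Nat

noncomputable section

namespace CTR

variable {d : ℕ}

theorem sref_fix {a v : E d} (h : ⟪a, v⟫ = 0) : sref a v = v := by
  rw [sref, h, mul_zero, zero_smul, sub_zero]

/-- the reflection as an isometry -/
def srefE (a : E d) (h : ‖a‖ = 1) : E d ≃ₗᵢ[ℝ] E d :=
  LinearIsometryEquiv.mk
    { toFun := sref a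
      map_add' := sref_add a
      map_smul' := fun c v => sref_smul a v c
      invFun := sref a
      left_inv := sref_sref h
      right_inv := sref_sref h }
    (fun v => by
      have h1 : ⟪sref a v, sref a v⟫ = ⟪v, v⟫ := inner_sref h v v
      rw [real_inner_self_eq_norm_sq, real_inner_self_eq_norm_sq] at h1
      exact (pow_left_inj₀ (norm_nonneg _) (norm_nonneg _) two_ne_zero).1 h1)

theorem srefE_apply (a : E d) (h : ‖a‖ = 1) (v : E d) : srefE a h v = sref a v := rfl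

theorem mem_perp {e0 v : E d} : v ∈ (ℝ ∙ e0)ᗮ ↔ ⟪e0, v⟫ = 0 :=
  Submodule.mem_orthogonal_singleton_iff_inner_right

theorem surj_of_pres (I : Submodule ℝ (E d)) (g : E d ≃ₗᵢ[ℝ] E d) (hg : ∀ v ∈ I, g v ∈ I)
    {w : E d} (hw : w ∈ I) : ∃ u ∈ I, g u = w := by
  have h1 : I.map g.toLinearEquiv.toLinearMap ≤ I := by
    rintro _ ⟨v, hv, rfl⟩
    exact hg v hv
  have h2 : I.map g.toLinearEquiv.toLinearMap = I :=
    Submodule.eq_of_le_of_finrank_eq h1 (LinearEquiv.finrank_map_eq g.toLinearEquiv I)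
  rw [← h2] at hw
  obtain ⟨u, hu, e⟩ := hw
  exact ⟨u, hu, e⟩

/-- an isometry that preserves the complement of `e0` maps `e0` to `± e0` -/
theorem map_e0 {e0 : E d} (he : ‖e0‖ = 1) (g : E d ≃ₗᵢ[ℝ] E d)
    (hg : ∀ v ∈ (ℝ ∙ e0)ᗮ, g v ∈ (ℝ ∙ e0)ᗮ) : g e0 = e0 ∨ g e0 = -e0 := by
  have he2 : ⟪e0, e0⟫ = (1 : ℝ) := by rw [real_inner_self_eq_norm_sq, he]; norm_num
  have h1 : g e0 - (⟪e0, g e0⟫ : ℝ) • e0 ∈ (ℝ ∙ e0)ᗮ := by
    rw [mem_perp, inner_sub_right, inner_smul_right, he2, mul_one, sub_self]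
  obtain ⟨u, hu, hu2⟩ := surj_of_pres _ g hg h1
  have h2 : ⟪g u, g e0⟫ = (0 : ℝ) := by
    rw [g.inner_map_map, real_inner_comm]
    exact mem_perp.1 hu
  have h3 : ⟪g u, e0⟫ = (0 : ℝ) := by
    rw [real_inner_comm]
    exact mem_perp.1 (hg u hu)
  have h4 : ⟪g u, g u⟫ = (0 : ℝ) := by
    conv_lhs => rw [hu2]
    rw [← hu2]
    have h5 : ⟪g u, g e0 - (⟪e0, g e0⟫ : ℝ) • e0⟫ = (0 : ℝ) := by
      rw [inner_sub_right, inner_smul_right, h2, h3, mul_zero, sub_zero]
    rw [← hu2] at h5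
    exact h5
  have h5 : g u = 0 := inner_self_eq_zero.1 h4
  rw [h5] at hu2
  have h6 : g e0 = (⟪e0, g e0⟫ : ℝ) • e0 := (sub_eq_zero.1 hu2.symm)
  have h7 : |(⟪e0, g e0⟫ : ℝ)| = 1 := by
    have := congrArg norm h6
    rw [g.norm_map, norm_smul, he, mul_one, Real.norm_eq_abs] at this
    exact this.symm
  rcases (abs_eq (by norm_num : (0 : ℝ) ≤ 1)).1 h7 with h8 | h8
  · left
    rw [h6, h8, one_smul]
  · right
    rw [h6, h8, neg_one_smul]

/-- the extension of an isometry of the complement of `e0` with a prescribed sign on `e0` -/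
theorem exists_ext {e0 : E d} (he : ‖e0‖ = 1) (g : E d ≃ₗᵢ[ℝ] E d)
    (hg : ∀ v ∈ (ℝ ∙ e0)ᗮ, g v ∈ (ℝ ∙ e0)ᗮ) {s : ℝ} (hs : s = 1 ∨ s = -1) :
    ∃ L : E d ≃ₗᵢ[ℝ] E d, (∀ v ∈ (ℝ ∙ e0)ᗮ, L v = g v) ∧ L e0 = s • e0 := by
  have h1 : ∀ v ∈ (ℝ ∙ e0)ᗮ, ((srefE e0 he).trans g) v = g v := by
    intro v hv
    rw [LinearIsometryEquiv.trans_apply, srefE_apply, sref_fix (mem_perp.1 hv)]
  have h2 : ((srefE e0 he).trans g) e0 = -g e0 := by
    rw [LinearIsometryEquiv.trans_apply, srefE_apply, sref_self he, map_neg]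
  rcases map_e0 he g hg with h3 | h3 <;> rcases hs with rfl | rfl
  · exact ⟨g, fun v _ => rfl, by rw [h3, one_smul]⟩
  · exact ⟨_, h1, by rw [h2, h3, neg_one_smul]⟩
  · exact ⟨_, h1, by rw [h2, h3, neg_neg, one_smul]⟩
  · exact ⟨g, fun v _ => rfl, by rw [h3, neg_one_smul]⟩

theorem pres_span {S : Set (E d)} {I : Submodule ℝ (E d)} (hS : Submodule.span ℝ S = I)
    (h : E d ≃ₗᵢ[ℝ] E d) (hh : ∀ v ∈ S, h v ∈ S) : ∀ v ∈ I, h v ∈ I := by
  intro v hv
  rw [← hS] at hv ⊢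
  induction hv using Submodule.span_induction with
  | mem x hx => exact Submodule.subset_span (hh x hx)
  | zero => rw [map_zero]; exact zero_mem _
  | add x y _ _ hx hy => rw [map_add]; exact add_mem hx hy
  | smul c x _ hx => rw [map_smul]; exact Submodule.smul_mem _ c hx

/-! ### words -/

section words

variable {m : ℕ} (h : Fin m → (E d ≃ₗᵢ[ℝ] E d)) (t : Fin m → E d)

theorem prod_pres {I : Submodule ℝ (E d)} (hI : ∀ j, ∀ v ∈ I, h j v ∈ I) (w : List (Fin m)) :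
    ∀ v ∈ I, (w.map h).prod v ∈ I := by
  induction w with
  | nil =>
    intro v hv
    exact hv
  | cons j w ih =>
    intro v hv
    rw [List.map_cons, List.prod_cons]
    exact hI j _ (ih v hv)

theorem bw_mem {I : Submodule ℝ (E d)} (hI : ∀ j, ∀ v ∈ I, h j v ∈ I) (tI : ∀ j, t j ∈ I)
    (w : List (Fin m)) : bw h t w ∈ I := by
  induction w with
  | nil => exact zero_mem _
  | cons j w ih =>
    rw [bw]
    exact add_mem (hI j _ ih) (tI j)

theorem bw_append (u v : List (Fin m)) :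
    bw h t (u ++ v) = (u.map h).prod (bw h t v) + bw h t u := by
  induction u with
  | nil =>
    rw [List.nil_append, List.map_nil, List.prod_nil, bw, add_zero]
    rfl
  | cons j u ih =>
    rw [List.cons_append, bw, ih, List.map_cons, List.prod_cons, bw, map_add]
    rw [← add_assoc]
    rfl

theorem prod_append' (u v : List (Fin m)) (x : E d) :
    ((u ++ v).map h).prod x = (u.map h).prod ((v.map h).prod x) := by
  rw [List.map_append, List.prod_append]
  rfl

end words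

theorem exists_word {Q : Type} [Group Q] {m : ℕ} (q : Fin m → Q) (hq : ∀ j, q j * q j = 1)
    {x : Q} (hx : x ∈ Subgroup.closure (Set.range q)) : ∃ w : List (Fin m), (w.map q).prod = x := by
  induction hx using Subgroup.closure_induction with
  | mem x hx =>
    obtain ⟨j, rfl⟩ := hx
    exact ⟨[j], by simp⟩
  | one => exact ⟨[], rfl⟩
  | mul x y _ _ hx hy =>
    obtain ⟨u, rfl⟩ := hx
    obtain ⟨v, rfl⟩ := hy
    exact ⟨u ++ v, by rw [List.map_append, List.prod_append]⟩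
  | inv x _ hx =>
    obtain ⟨u, rfl⟩ := hx
    refine ⟨u.reverse, ?_⟩
    have h1 : ∀ j, (q j)⁻¹ = q j := fun j => inv_eq_of_mul_eq_one_left (hq j)
    rw [List.prod_inv_reverse, List.map_map, ← List.map_reverse]
    congr 1
    refine List.map_congr_left fun j _ => ?_
    rw [Function.comp_apply, h1]

/-- the linear parts of the maps `β_j` -/
def hh (s1 : ℤˣ) (g : ℕ → (E d ≃ₗᵢ[ℝ] E d)) (h0 : E d ≃ₗᵢ[ℝ] E d) (j : ℕ) : E d ≃ₗᵢ[ℝ] E d :=
  if j = 0 then h0 else if j = 1 then (if s1 = 1 then g 0 else (g 0).trans (LinearIsometryEquiv.neg ℝ))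
  else g (j - 1)

theorem hh_zero (s1 : ℤˣ) (g : ℕ → (E d ≃ₗᵢ[ℝ] E d)) (h0 : E d ≃ₗᵢ[ℝ] E d) : hh s1 g h0 0 = h0 := by
  rw [hh, if_pos rfl]

theorem hh_pos (s1 : ℤˣ) (g : ℕ → (E d ≃ₗᵢ[ℝ] E d)) (h0 : E d ≃ₗᵢ[ℝ] E d) {j : ℕ} (hj : j ≠ 0)
    (v : E d) : hh s1 g h0 j v = (if j = 1 then sg s1 else 1) • g (j - 1) v := by
  rw [hh, if_neg hj]
  by_cases h1 : j = 1
  · subst h1
    rw [if_pos rfl, if_pos rfl]
    rcases Int.units_eq_one_or s1 with rfl | rfl
    · rw [if_pos rfl]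
      simp [sg]
    · rw [if_neg (by decide)]
      simp [sg]
  · rw [if_neg h1, if_neg h1, one_smul]

theorem hh_two (s1 : ℤˣ) (g : ℕ → (E d ≃ₗᵢ[ℝ] E d)) (h0 : E d ≃ₗᵢ[ℝ] E d) {j : ℕ} (hj : 2 ≤ j) :
    hh s1 g h0 j = g (j - 1) := by
  rw [hh, if_neg (by omega), if_neg (by omega)]

theorem sg_sq (s : ℤˣ) : sg s * sg s = 1 := by
  rcases Int.units_eq_one_or s with rfl | rfl <;> simp [sg]

theorem sg_or' (s : ℤˣ) : sg s = 1 ∨ sg s = -1 := by
  rcases Int.units_eq_one_or s with rfl | rfl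
  · left; simp [sg]
  · right; simp [sg]

theorem wR_eq (b : Bool) (s1 : ℤˣ) (g : ℕ → (E d ≃ₗᵢ[ℝ] E d)) (y0 t : E d)
    (h0 : E d ≃ₗᵢ[ℝ] E d) (hh0 : ∀ v, h0 v = if b then sref y0 v else -v) (w : List (Fin d)) :
    wR b s1 g y0 t w =
      bw (fun j : Fin d => hh s1 g h0 j.val) (fun j : Fin d => if j.val = 0 then t else 0) w := by
  induction w with
  | nil => rfl
  | cons j w ih =>
    rw [wR, bw, ← ih]
    by_cases hj : j.val = 0
    · rw [if_pos hj, if_pos hj, hj, hh_zero, hh0]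
    · rw [if_neg hj, if_neg hj, hh_pos s1 g h0 hj, add_zero]

/-- the words in the `g j` are words in the `h j`, up to sign -/
theorem orb_word (s1 : ℤˣ) (g : ℕ → (E d ≃ₗᵢ[ℝ] E d)) (h0 : E d ≃ₗᵢ[ℝ] E d) (a : E d)
    (w : List ℕ) (hw : ∀ j ∈ w, j < d - 1) : ∃ w' : List (Fin d),
      (w'.map fun j : Fin d => hh s1 g h0 j.val).prod a = (w.map g).prod a ∨
      (w'.map fun j : Fin d => hh s1 g h0 j.val).prod a = -(w.map g).prod a := by
  induction w with
  | nil => exact ⟨[], Or.inl rfl⟩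
  | cons j w ih =>
    obtain ⟨w', h1⟩ := ih fun i hi => hw i (List.mem_cons_of_mem _ hi)
    have hj : j < d - 1 := hw j List.mem_cons_self
    refine ⟨⟨j + 1, by omega⟩ :: w', ?_⟩
    rw [List.map_cons, List.prod_cons, List.map_cons, List.prod_cons]
    change hh s1 g h0 (j + 1) ((w'.map fun j : Fin d => hh s1 g h0 j.val).prod a) =
      g j ((w.map g).prod a) ∨ hh s1 g h0 (j + 1) ((w'.map fun j : Fin d => hh s1 g h0 j.val).prod a) =
      -g j ((w.map g).prod a)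
    rw [hh_pos s1 g h0 (by omega : j + 1 ≠ 0), Nat.add_sub_cancel]
    have h2 : (if j + 1 = 1 then sg s1 else (1 : ℝ)) = 1 ∨
        (if j + 1 = 1 then sg s1 else (1 : ℝ)) = -1 := by
      split_ifs
      · exact sg_or' s1
      · exact Or.inl rfl
    rcases h1 with h1 | h1 <;> rcases h2 with h2 | h2 <;> rw [h1, h2]
    · left; rw [one_smul]
    · right; rw [neg_one_smul]
    · right; rw [one_smul, map_neg]
    · left; rw [neg_one_smul, map_neg, neg_neg]

/-- the facts on the model -/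
theorem model (hS : S_MOS) (hC : S_MOC) (hX : S_MOX) {e0 y0 : E d} {b : Bool}
    {g : ℕ → (E d ≃ₗᵢ[ℝ] E d)} {l : ℕ} (hd : 7 ≤ d)
    (hm : LinModel (d - 1) 1 (ℝ ∙ e0)ᗮ y0 g)
    (hb : b = true → CroM (d - 1) 1 (ℝ ∙ e0)ᗮ y0 g) (h1 : 3 ≤ l) (h2 : l + 2 ≤ d) :
    ∃ S Ψ a, MoG (d - 1) (l - 1) (ℝ ∙ e0)ᗮ y0 g S Ψ a ∧
      (b = true → ‖y0‖ = 1 ∧ ∀ v ∈ S, sref y0 v ∈ S) := by
  obtain ⟨hf, h3⟩ := hm
  cases b with
  | true =>
    obtain ⟨h4, S, Ψ, a, h5, h6⟩ := hX d (d - 1) (l - 1) 1 (ℝ ∙ e0)ᗮ y0 g hf (by omega) (by omega)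
      (by omega) (Or.inl rfl) (hb rfl)
    exact ⟨S, Ψ, a, h5, fun _ => ⟨h4, h6⟩⟩
  | false =>
    rcases h3 with h3 | h3 | h3
    · obtain ⟨S, Ψ, a, h5⟩ := hS d (d - 1) (l - 1) (ℝ ∙ e0)ᗮ y0 g hf (by omega) (by omega)
        (by omega) h3
      exact ⟨S, Ψ, a, h5, fun h => absurd h (by decide)⟩
    · obtain ⟨S, Ψ, a, h5⟩ := hC d (d - 1) (l - 1) (ℝ ∙ e0)ᗮ y0 g hf (by omega) (by omega)
        (by omega) h3
      exact ⟨S, Ψ, a, h5, fun h => absurd h (by decide)⟩
    · obtain ⟨h4, S, Ψ, a, h5, h6⟩ := hX d (d - 1) (l - 1) 1 (ℝ ∙ e0)ᗮ y0 g hf (by omega)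
        (by omega) (by omega) (Or.inl rfl) h3
      exact ⟨S, Ψ, a, h5, fun h => absurd h (by decide)⟩

/-- the key equivalence -/
theorem key {Γ : Type} [Group Γ] {X : Type} [MulAction Γ X] {ρ : Fin d → Γ} {x0 : X}
    {f : X → E d} {c e0 : E d} {A : Type} {M : Datum d A} {H : Subgroup Γ}
    {h : Fin d → (E d ≃ₗᵢ[ℝ] E d)} {tt : Fin d → E d} (he : ‖e0‖ = 1)
    (hI : ∀ j, ∀ v ∈ (ℝ ∙ e0)ᗮ, h j v ∈ (ℝ ∙ e0)ᗮ) (tI : ∀ j, tt j ∈ (ℝ ∙ e0)ᗮ)
    (hw : ∀ γ : Γ, ∃ w : List (Fin d), (w.map ρ).prod = γ)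
    (htr : ∀ x : X, ∃ γ : Γ, γ • x0 = x)
    (hf : ∀ w : List (Fin d), f ((w.map ρ).prod • x0) =
      c + bw h tt w + M.r ((w.map M.π).prod M.a0) • e0)
    (hH : ∀ γ : Γ, γ ∈ H ↔ ∃ T : E d ≃ᵢ E d, ∀ x, T (f x) = f (γ • x))
    (hT : Submodule.span ℝ {τ | ∃ w : List (Fin d), (w.map M.π).prod = 1 ∧
      (∀ v ∈ (ℝ ∙ e0)ᗮ, (w.map h).prod v = v) ∧ bw h tt w = τ} = (ℝ ∙ e0)ᗮ)
    (w : List (Fin d)) : (w.map ρ).prod ∈ H ↔ (w.map M.π).prod ∈ M.HR := by
  have hbI : ∀ w, bw h tt w ∈ (ℝ ∙ e0)ᗮ := bw_mem h tt hI tI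
  have hf2 : ∀ u v : List (Fin d), f ((u.map ρ).prod • (v.map ρ).prod • x0) =
      c + ((u.map h).prod (bw h tt v) + bw h tt u) +
        M.r ((u.map M.π).prod ((v.map M.π).prod M.a0)) • e0 := by
    intro u v
    rw [← mul_smul, ← List.prod_append, ← List.map_append, hf, bw_append, List.map_append,
      List.prod_append]
    rfl
  constructor
  · intro hmem
    obtain ⟨T, hTf⟩ := (hH _).1 hmem
    -- the linear part
    let L : E d ≃ₗᵢ[ℝ] E d := T.toRealAffineIsometryEquiv.linearIsometryEquiv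
    have hL : ∀ z z' : E d, L (z - z') = T z - T z' := by
      intro z z'
      have := T.toRealAffineIsometryEquiv.map_vsub z z'
      exact this
    have hLτ : ∀ v ∈ (ℝ ∙ e0)ᗮ, L v = (w.map h).prod v := by
      intro v hv
      rw [← hT] at hv
      induction hv using Submodule.span_induction with
      | mem x hx =>
        obtain ⟨u, hu1, hu2, rfl⟩ := hx
        have e1 := hTf ((u.map ρ).prod • x0)
        have e2 := hTf x0
        have e3 : f x0 = c + M.r M.a0 • e0 := by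
          have := hf []
          simpa [bw] using this
        have e4 : f ((w.map ρ).prod • x0) = c + bw h tt w + M.r ((w.map M.π).prod M.a0) • e0 := hf w
        have e5 : f ((u.map ρ).prod • x0) = c + bw h tt u + M.r M.a0 • e0 := by
          rw [hf u, hu1]
          rfl
        have e6 := hf2 w u
        rw [hu1] at e6
        have e7 : bw h tt u = f ((u.map ρ).prod • x0) - f x0 := by
          rw [e5, e3]
          abel
        have e8 : L (bw h tt u) = T (f ((u.map ρ).prod • x0)) - T (f x0) := by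
          rw [← hL, ← e7]
        rw [e8, e1, e2, e6, e4, Equiv.Perm.one_apply]
        abel
      | zero => rw [map_zero, map_zero]
      | add x y _ _ hx hy => rw [map_add, map_add, hx, hy]
      | smul r x _ hx => rw [map_smul, map_smul, hx]
    have hLI : ∀ v ∈ (ℝ ∙ e0)ᗮ, L v ∈ (ℝ ∙ e0)ᗮ := by
      intro v hv
      rw [hLτ v hv]
      exact prod_pres h hI w v hv
    have hσ : ∃ σ : ℝ, (σ = 1 ∨ σ = -1) ∧ L e0 = σ • e0 := by
      rcases map_e0 he L hLI with h1 | h1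
      · exact ⟨1, Or.inl rfl, by rw [h1, one_smul]⟩
      · exact ⟨-1, Or.inr rfl, by rw [h1, neg_one_smul]⟩
    obtain ⟨σ, hσ1, hσ2⟩ := hσ
    refine ⟨σ, M.r ((w.map M.π).prod M.a0) - σ * M.r M.a0, hσ1, fun a => ?_⟩
    obtain ⟨q, hq, rfl⟩ := M.trans a
    obtain ⟨v, rfl⟩ := exists_word M.π M.sq hq
    have e1 := hTf ((v.map ρ).prod • x0)
    have e2 := hTf x0
    have e3 : f x0 = c + M.r M.a0 • e0 := by
      have := hf []
      simpa [bw] using this
    have e4 : f ((w.map ρ).prod • x0) = c + bw h tt w + M.r ((w.map M.π).prod M.a0) • e0 := hf w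
    have e5 := hf v
    have e6 := hf2 w v
    have e7 : bw h tt v + (M.r ((v.map M.π).prod M.a0) - M.r M.a0) • e0 =
        f ((v.map ρ).prod • x0) - f x0 := by
      rw [e5, e3, sub_smul]
      abel
    have e8 : L (bw h tt v + (M.r ((v.map M.π).prod M.a0) - M.r M.a0) • e0) =
        T (f ((v.map ρ).prod • x0)) - T (f x0) := by
      rw [← hL, ← e7]
    rw [map_add, map_smul, hσ2, hLτ _ (hbI v), e1, e2, e6, e4] at e8
    have e9 : (M.r ((w.map M.π).prod ((v.map M.π).prod M.a0)) - M.r ((w.map M.π).prod M.a0) -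
        (M.r ((v.map M.π).prod M.a0) - M.r M.a0) * σ) • e0 = 0 := by
      have h9 : (M.r ((w.map M.π).prod ((v.map M.π).prod M.a0)) - M.r ((w.map M.π).prod M.a0) -
        (M.r ((v.map M.π).prod M.a0) - M.r M.a0) * σ) • e0 =
        (c + ((w.map h).prod (bw h tt v) + bw h tt w) +
          M.r ((w.map M.π).prod ((v.map M.π).prod M.a0)) • e0 -
          (c + bw h tt w + M.r ((w.map M.π).prod M.a0) • e0)) -
        ((w.map h).prod (bw h tt v) + (M.r ((v.map M.π).prod M.a0) - M.r M.a0) • σ • e0) := by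
        module
      rw [h9, ← e8, sub_self]
    have he0 : e0 ≠ 0 := by
      intro h0
      rw [h0, norm_zero] at he
      exact zero_ne_one he
    rcases smul_eq_zero.1 e9 with h10 | h10
    · linarith
    · exact absurd h10 he0
  · rintro ⟨s, c', hs, hr⟩
    rw [hH]
    obtain ⟨L, hL1, hL2⟩ := exists_ext he (w.map h).prod (prod_pres h hI w) hs
    refine ⟨(IsometryEquiv.addRight (-c)).trans (L.toIsometryEquiv.trans
      (IsometryEquiv.addRight (c + bw h tt w + c' • e0))), fun x => ?_⟩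
    obtain ⟨γ, rfl⟩ := htr x
    obtain ⟨u, rfl⟩ := hw γ
    rw [hf2 w u, hr, hf u]
    change L (c + bw h tt u + M.r ((u.map M.π).prod M.a0) • e0 + -c) +
      (c + bw h tt w + c' • e0) = _
    have h1 : c + bw h tt u + M.r ((u.map M.π).prod M.a0) • e0 + -c =
      bw h tt u + M.r ((u.map M.π).prod M.a0) • e0 := by abel
    rw [h1, map_add, map_smul, hL1 _ (hbI u), hL2]
    module

end CTR

open CTR in
theorem t_CTR : M_CTR := by
  intro hTRN hMOS hMOC hMOX hIXW
  intro d Γ _ X _ ρ x0 f c e0 y0 t b s1 g A M H hd he hm hb ht0 ht hl hcl hρ htr hf hH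
  obtain ⟨l, hl1, hl2, hl3⟩ := hl
  obtain ⟨S, Ψ, a, hG, hsr⟩ := model hMOS hMOC hMOX hd hm hb hl1 hl2
  have hex : ∃ h0 : E d ≃ₗᵢ[ℝ] E d, ∀ v, h0 v = if b then sref y0 v else -v := by
    cases b with
    | true =>
      obtain ⟨h1, _⟩ := hsr rfl
      exact ⟨srefE y0 h1, fun v => by rw [srefE_apply, if_pos rfl]⟩
    | false => exact ⟨LinearIsometryEquiv.neg ℝ, fun v => by simp⟩
  obtain ⟨h0, hh0⟩ := hex
  set h : Fin d → (E d ≃ₗᵢ[ℝ] E d) := fun j : Fin d => hh s1 g h0 j.val with hh_def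
  set tt : Fin d → E d := fun j : Fin d => if j.val = 0 then t else 0 with htt
  have hf' : ∀ w : List (Fin d), f ((w.map ρ).prod • x0) =
      c + bw h tt w + M.r ((w.map M.π).prod M.a0) • e0 := by
    intro w
    rw [hf w, wR_eq b s1 g y0 t h0 hh0 w]
  have htI : t ∈ (ℝ ∙ e0)ᗮ := by
    have h1 : Submodule.span ℝ {y0} ≤ (ℝ ∙ e0)ᗮ := by
      rw [Submodule.span_le, Set.singleton_subset_iff]
      exact hG.y0I
    exact h1 ht
  have ttI : ∀ j, tt j ∈ (ℝ ∙ e0)ᗮ := by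
    intro j
    rw [htt]
    change (if j.val = 0 then t else 0) ∈ _
    split_ifs
    · exact htI
    · exact zero_mem _
  have hSS : ∀ j, ∀ v ∈ S, h j v ∈ S := by
    intro j v hv
    change hh s1 g h0 j.val v ∈ S
    have hjd := j.isLt
    by_cases hj : j.val = 0
    · rw [hj, hh_zero, hh0]
      cases b with
      | true =>
        rw [if_pos rfl]
        exact (hsr rfl).2 v hv
      | false => simpa using hG.neg v hv
    · rw [hh_pos s1 g h0 hj]
      have h1 : g (j.val - 1) v ∈ S := hG.gS _ (by omega) v hv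
      split_ifs
      · rcases sg_or' s1 with h2 | h2
        · rw [h2, one_smul]; exact h1
        · rw [h2, neg_one_smul]; exact hG.neg _ h1
      · rw [one_smul]; exact h1
  have hI : ∀ j, ∀ v ∈ (ℝ ∙ e0)ᗮ, h j v ∈ (ℝ ∙ e0)ᗮ := fun j => pres_span hG.span (h j) (hSS j)
  have hinv : ∀ j, ∀ v ∈ (ℝ ∙ e0)ᗮ, h j (h j v) = v := by
    intro j v hv
    change hh s1 g h0 j.val (hh s1 g h0 j.val v) = v
    have hjd := j.isLt
    by_cases hj : j.val = 0
    · rw [hj, hh_zero, hh0, hh0]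
      cases b with
      | true =>
        rw [if_pos rfl, if_pos rfl]
        exact sref_sref (hsr rfl).1 v
      | false => simp
    · rw [hh_pos s1 g h0 hj, hh_pos s1 g h0 hj, map_smul, hG.sq _ (by omega) v hv, smul_smul]
      split_ifs
      · rw [sg_sq, one_smul]
      · rw [mul_one, one_smul]
  have hht : ∀ j, h j (tt j) = -tt j := by
    intro j
    change hh s1 g h0 j.val (if j.val = 0 then t else 0) = -(if j.val = 0 then t else 0)
    by_cases hj : j.val = 0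
    · rw [if_pos hj, hj, hh_zero, hh0]
      cases b with
      | true =>
        rw [if_pos rfl]
        obtain ⟨r, rfl⟩ := Submodule.mem_span_singleton.1 ht
        rw [sref_smul, sref_self (hsr rfl).1, smul_neg]
      | false => simp
    · rw [if_neg hj, map_zero, neg_zero]
  have hfix : ∀ v ∈ (ℝ ∙ e0)ᗮ, ∃ j, h j v + tt j ≠ v := by
    intro v hv
    by_contra hcon
    push Not at hcon
    have h1 : ∀ i, 1 ≤ i → i < d - 1 → g i v = v := by
      intro i hi hi'
      have h2 := hcon ⟨i + 1, by omega⟩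
      change hh s1 g h0 (i + 1) v + (if i + 1 = 0 then t else 0) = v at h2
      rw [if_neg (by omega), add_zero, hh_two s1 g h0 (by omega), Nat.add_sub_cancel] at h2
      exact h2
    have h3 : g 0 v = v ∨ g 0 v = -v := by
      have h2 := hcon ⟨1, by omega⟩
      change hh s1 g h0 1 v + (if 1 = 0 then t else 0) = v at h2
      rw [if_neg (by omega), add_zero, hh_pos s1 g h0 (by omega), if_pos rfl] at h2
      change sg s1 • g 0 v = v at h2
      rcases sg_or' s1 with h4 | h4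
      · rw [h4, one_smul] at h2
        exact Or.inl h2
      · rw [h4, neg_one_smul] at h2
        exact Or.inr (neg_eq_iff_eq_neg.1 h2)
    have h5 : v = 0 := hG.f2 v hv h1 h3
    have h6 := hcon ⟨0, by omega⟩
    change hh s1 g h0 0 v + (if 0 = 0 then t else 0) = v at h6
    rw [if_pos rfl, h5, map_zero, zero_add] at h6
    exact ht0 h6
  have hspan := hTRN d d (ℝ ∙ e0)ᗮ h tt (Equiv.Perm A) M.π l a S Ψ hG.fin hG.span hSS ttI hinv hht
    M.sq hl3 (by
      change (if l.val = 0 then t else 0) = 0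
      rw [if_neg (by omega)]) hG.norm hG.aI (fun v hv => by
        change hh s1 g h0 l.val v = sref a v
        rw [hh_two s1 g h0 (by omega)]
        exact hG.refl v hv) hG.irr hG.spΨ (fun β hβ => by
        obtain ⟨w, hw1, hw2⟩ := hG.orb β hβ
        obtain ⟨w', hw'⟩ := orb_word s1 g h0 a w hw1
        refine ⟨w', ?_⟩
        rcases hw2 with hw2 | hw2 <;> rcases hw' with hw' | hw'
        · left; rw [hw2]; exact hw'.symm
        · right; rw [hw2]
          change _ = -((w'.map fun j : Fin d => hh s1 g h0 j.val).prod a)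
          rw [hw', neg_neg]
        · right; rw [hw2]
          change _ = -((w'.map fun j : Fin d => hh s1 g h0 j.val).prod a)
          rw [hw']
        · left; rw [hw2]; exact hw'.symm) hfix
  have hword : ∀ γ : Γ, ∃ w : List (Fin d), (w.map ρ).prod = γ := by
    intro γ
    exact exists_word ρ hρ (by rw [hcl]; trivial)
  exact hIXW d Γ (Equiv.Perm A) ρ M.π H M.HR hcl hρ M.sq
    (key he hI ttI hword htr hf' hH hspan)

end

end FOI
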