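import Pool.Agent.FOI.CStmts
import Pool.Agent.FOK.Stmts4

/-!
# Statements of the modules, block IV: the data, the count, the polytopes

Paper: `Pool/Agent/FOI/PAPER.md`, section IV.
-/

namespace FOI

open Lib_helper64.FO FO2 FOK
open scoped RealInnerProductSpace Nat

noncomputable section

/-! ## IV.1: data -/

/-- IV.1. `A` is the set of the functions `a_w : v ↦ r (v ++ w)` (a subtype of
`List (Fin d) → ℝ`), `π j (a_w) = a_(j :: w)`, `a0 = a_[]`, `M.r a = a []`. -/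
def S_NER : Prop :=
  ∀ (d : ℕ) (r : List (Fin d) → ℝ),
    (∀ (v w : List (Fin d)) (j : Fin d), r (v ++ j :: j :: w) = r (v ++ w)) →
    (∀ (v w : List (Fin d)) (i j : Fin d), i.val + 2 ≤ j.val → r (v ++ i :: j :: w) = r (v ++ j :: i :: w)) →
    (∀ (v : List (Fin d)) (j : Fin d), 1 ≤ j.val → r (v ++ [j]) = r v) →
    ∃ (A : Type) (M : Datum d A), (∀ w, M.r ((w.map M.π).prod M.a0) = r w) ∧
      (∀ j : Fin d, (∀ v w : List (Fin d), r (v ++ j :: w) = r (v ++ w)) → M.π j = 1) ∧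
      ∀ (κ : Type) [Finite κ] (c : List (Fin d) → κ),
        (∀ w w', c w = c w' → ∀ v : List (Fin d), r (v ++ w) = r (v ++ w')) → Finite A

variable {d k : ℕ} {Γ : Type} [Group Γ] {X : Type} [MulAction Γ X]

/-- the algebraic form of `MixedI` without the count -/
def ConclI (G : AGeo d k Γ X) : Prop :=
  ∃ (c y0 t : E d) (s0 : ℤˣ) (ε : ℝ) (g : ℕ → (E d ≃ₗᵢ[ℝ] E d)) (A : Type) (M : Datum d A),
    Finite A ∧ (∀ j : Fin d, 48 * k ^ 5 + 3 ≤ j.val → M.π j = 1) ∧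
    (ε = 1 ∨ ε = -1) ∧ LinModel d ε ⊤ y0 g ∧
    t ≠ 0 ∧ t ∈ Submodule.span ℝ {y0, g 0 y0} ∧ sg s0 • g 0 t = -t ∧
    ∀ w : List (Fin d), G.f ((w.map fun j : Fin d => G.ρ j).prod • G.x0) =
      c + wI s0 g t w + M.r ((w.map M.π).prod M.a0) • ((w.map fun j : Fin d => g j).prod y0)

/-- the algebraic form of `MixedR` without the count -/
def ConclR (G : AGeo d k Γ X) : Prop :=
  ∃ (c e0 y0 t : E d) (b : Bool) (s1 : ℤˣ) (g : ℕ → (E d ≃ₗᵢ[ℝ] E d)) (A : Type) (M : Datum d A),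
    (∀ j : Fin d, 48 * k ^ 5 + 3 ≤ j.val → M.π j = 1) ∧
    ‖e0‖ = 1 ∧ LinModel (d - 1) 1 (ℝ ∙ e0)ᗮ y0 g ∧
    (b = true → CroM (d - 1) 1 (ℝ ∙ e0)ᗮ y0 g) ∧
    t ≠ 0 ∧ t ∈ Submodule.span ℝ {y0} ∧
    ∀ w : List (Fin d), G.f ((w.map fun j : Fin d => G.ρ j).prod • G.x0) =
      c + wR b s1 g y0 t w + M.r ((w.map M.π).prod M.a0) • e0

/-- (irr). S_NER for `r w = s_w q(ρ_w)`; finiteness with the classes `(s_w, ρ_w N)`; `π j = 1` for
`j ≥ l`, as `ρ j ∈ N`. -/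
def S_ACI : Prop :=
  ∀ (d k : ℕ) (Γ : Type) [Group Γ] (X : Type) [MulAction Γ X] (G : AGeo d k Γ X)
    (l : ℕ), ATop G l → ∀ c y0 t s0 ε g q, WI G c y0 t s0 ε g q → ConclI G

def M_ACI : Prop := S_NER → S_ACI

/-- (red). S_NER for `r w = q(ρ_w)`. -/
def S_ACR : Prop :=
  ∀ (d k : ℕ) (Γ : Type) [Group Γ] (X : Type) [MulAction Γ X] (G : AGeo d k Γ X)
    (l : ℕ), ATop G l → ∀ c e0 y0 t b s1 g q, WR G l c e0 y0 t b s1 g q → ConclR G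

def M_ACR : Prop := S_NER → S_ACR

/-- the algebraic part of the theorem -/
def S_ACON : Prop :=
  ∀ (d k : ℕ) (Γ : Type) [Group Γ] (X : Type) [MulAction Γ X] [Infinite X] (G : AGeo d k Γ X),
    100 * k ^ 5 ≤ d → G.H ≠ ⊤ → ConclI G ∨ ConclR G

/-- Assembly: S_ATOP, S_EXT, S_AFX; if `Sp G 0 l = ⊤` S_IRR1 - S_IRR4, S_LI1, S_LI2, S_LCLS, S_WRI, S_ACI;
otherwise S_RED1 - S_RED5, an isometry `ι : E (d - 1) →ₗᵢ E d` with range `Sp G 0 l` and the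
isometries `gg j`, S_LR1, S_LR2, S_LCLS, S_WRR, S_ACR. -/
def M_ACON : Prop := S_ATOP → S_EXT → S_AFX → S_IRR1 → S_IRR2 → S_IRR3 → S_IRR4 → S_LI1 → S_LI2 →
  S_LCLS → S_WRI → S_ACI → S_RED1 → S_RED2 → S_RED3 → S_RED4 → S_RED5 → S_LR1 → S_LR2 →
  S_WRR → S_ACR → S_ACON

/-! ## IV.2: the count -/

/-- the image of `0` under the product of the affine maps `v ↦ h j v + t j` -/
def bw {D m : ℕ} (h : Fin m → (E D ≃ₗᵢ[ℝ] E D)) (t : Fin m → E D) : List (Fin m) → E D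
  | [] => 0
  | j :: w => h j (bw h t w) + t j

/-- IV.2: translations. Write `β_w` for the product of the maps `β_j v = h j v + t j` of `I`, a word
`w`; `β_w v = h_w v + bw w`. Let `K` be the set of the products of words `w ++ l :: reverse w`; for
`u ∈ K` `π_u = 1`, `β_u` is in the normal closure of `β_l`. The linear parts `h_u` on `I` are finitely
many, as they permute `S`. If all translations `β_u`, `u ∈ K`, were trivial, there would be finitely many `β_u`,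
`u ∈ K`, and the average `p` of the points `bw u` would be a fixed point of all `β_u`; the fixed point is
unique as the roots `h_w a` of the reflections `β_(w l w⁻¹)` span `I`; so `β_j p = p` for all `j`,
contradiction. The span `T` of the translation vectors `bw u`, `u ∈ K`, `h_u = 1`, is not `0` and is
invariant under the reflections with root in `Ψ`, so by `IrrRS Ψ` it is `I`. -/
def S_TRN : Prop :=
  ∀ (D m : ℕ) (I : Submodule ℝ (E D)) (h : Fin m → (E D ≃ₗᵢ[ℝ] E D)) (t : Fin m → E D)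
    (Q : Type) [Group Q] (π : Fin m → Q) (l : Fin m) (a : E D) (S Ψ : Set (E D)),
    S.Finite → Submodule.span ℝ S = I → (∀ j, ∀ v ∈ S, h j v ∈ S) → (∀ j, t j ∈ I) →
    (∀ j, ∀ v ∈ I, h j (h j v) = v) → (∀ j, h j (t j) = -t j) → (∀ j, π j * π j = 1) →
    π l = 1 → t l = 0 → ‖a‖ = 1 → a ∈ I → (∀ v ∈ I, h l v = sref a v) →
    IrrRS Ψ → Submodule.span ℝ Ψ = I →
    (∀ b ∈ Ψ, ∃ w : List (Fin m), b = (w.map h).prod a ∨ b = -(w.map h).prod a) →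
    (∀ v ∈ I, ∃ j, h j v + t j ≠ v) →
    Submodule.span ℝ {τ | ∃ w : List (Fin m), (w.map π).prod = 1 ∧
      (∀ v ∈ I, (w.map h).prod v = v) ∧ bw h t w = τ} = I

/-- the facts on the models that are used for the count -/
structure MoG {D : ℕ} (n l : ℕ) (I : Submodule ℝ (E D)) (y0 : E D) (g : ℕ → (E D ≃ₗᵢ[ℝ] E D))
    (S Ψ : Set (E D)) (a : E D) : Prop where
  fin : S.Finite
  span : Submodule.span ℝ S = I
  neg : ∀ v ∈ S, -v ∈ S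
  gS : ∀ j, j < n → ∀ v ∈ S, g j v ∈ S
  sq : ∀ j, j < n → ∀ v ∈ I, g j (g j v) = v
  norm : ‖a‖ = 1
  aI : a ∈ I
  refl : ∀ v ∈ I, g l v = sref a v
  irr : IrrRS Ψ
  spΨ : Submodule.span ℝ Ψ = I
  orb : ∀ b ∈ Ψ, ∃ w : List ℕ, (∀ j ∈ w, j < n) ∧ (b = (w.map g).prod a ∨ b = -(w.map g).prod a)
  f1 : ∀ v ∈ I, (∀ j, 2 ≤ j → j < n → g j v = v) → g 1 v = -v → v = 0
  f2 : ∀ v ∈ I, (∀ j, 1 ≤ j → j < n → g j v = v) → (g 0 v = v ∨ g 0 v = -v) → v = 0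
  y0I : y0 ∈ I
  ind : LinearIndependent ℝ ![y0, g 0 y0]

/-- simplex: `S = {± v i}`, `Ψ` the unit multiples of the `v i - v j` -/
def S_MOS : Prop :=
  ∀ (D n l : ℕ) (I : Submodule ℝ (E D)) (y0 : E D) (g : ℕ → (E D ≃ₗᵢ[ℝ] E D)),
    Module.finrank ℝ I = n → 6 ≤ n → 2 ≤ l → l + 2 ≤ n → SimM n I y0 g →
    ∃ S Ψ a, MoG n l I y0 g S Ψ a

/-- cube: `S = {± u i}`, `Ψ = {(± u i ± u j) / √2}` -/
def S_MOC : Prop :=
  ∀ (D n l : ℕ) (I : Submodule ℝ (E D)) (y0 : E D) (g : ℕ → (E D ≃ₗᵢ[ℝ] E D)),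
    Module.finrank ℝ I = n → 6 ≤ n → 2 ≤ l → l + 2 ≤ n → CubM n I y0 g →
    ∃ S Ψ a, MoG n l I y0 g S Ψ a

/-- cross-polytope: `S = {± u i}`, `Ψ = {(± u i ± u j) / √2}` -/
def S_MOX : Prop :=
  ∀ (D n l : ℕ) (ε : ℝ) (I : Submodule ℝ (E D)) (y0 : E D) (g : ℕ → (E D ≃ₗᵢ[ℝ] E D)),
    Module.finrank ℝ I = n → 6 ≤ n → 2 ≤ l → l + 2 ≤ n → (ε = 1 ∨ ε = -1) → CroM n ε I y0 g →
    ‖y0‖ = 1 ∧ ∃ S Ψ a, MoG n l I y0 g S Ψ a ∧ ∀ v ∈ S, sref y0 v ∈ S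

/-- The index. The cosets `ρ_w H` correspond to the cosets of `H'` in the group generated by the
`q j`; every element of the two groups is given by a word; `(w.map ρ).prod⁻¹` is the product of the
reversed word. -/
def S_IXW : Prop :=
  ∀ (m : ℕ) (Γ Q : Type) [Group Γ] [Group Q] (ρ : Fin m → Γ) (q : Fin m → Q) (H : Subgroup Γ)
    (H' : Subgroup Q), Subgroup.closure (Set.range ρ) = ⊤ → (∀ j, ρ j * ρ j = 1) →
    (∀ j, q j * q j = 1) → (∀ w : List (Fin m), (w.map ρ).prod ∈ H ↔ (w.map q).prod ∈ H') →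
    H.index = H'.relIndex (Subgroup.closure (Set.range q))

/-- IV.2 (irr). KEY: `ρ_w ∈ H ↔ (π_w, s_w) ∈ HI`. S_TRN for `h j = s_j g_j`, `π j = (M.π j, s_j)`.
`←`: `T z = c + b_w + s_w g_w (z - c)`. `→`: for the translations `(τ, u)` of S_TRN
`f(ρ_u x) = f(x) + τ` and `f(ρ_w ρ_u x) = f(ρ_w x) + s_w g_w τ`, so the linear part of `T` is `s_w g_w`;
then `(s_w r(π_w a) - r(a)) g_v y0` is a constant vector for all words `v`, `a = π_v a0`, it is `0` since `y0` and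
`g_0 y0` are linearly independent. Then S_IXW. -/
def S_CTI : Prop :=
  ∀ (d : ℕ) (Γ : Type) [Group Γ] (X : Type) [MulAction Γ X] (ρ : Fin d → Γ) (x0 : X)
    (f : X → E d) (c y0 t : E d) (s0 : ℤˣ) (ε : ℝ) (g : ℕ → (E d ≃ₗᵢ[ℝ] E d)) (A : Type)
    (M : Datum d A) (H : Subgroup Γ),
    6 ≤ d → (ε = 1 ∨ ε = -1) → LinModel d ε ⊤ y0 g → t ≠ 0 → sg s0 • g 0 t = -t →
    (∃ l : Fin d, 2 ≤ l.val ∧ l.val + 2 ≤ d ∧ M.π l = 1) →
    Subgroup.closure (Set.range ρ) = ⊤ → (∀ j, ρ j * ρ j = 1) → (∀ x : X, ∃ γ : Γ, γ • x0 = x) →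
    (∀ w : List (Fin d), f ((w.map ρ).prod • x0) =
      c + wI s0 g t w + M.r ((w.map M.π).prod M.a0) • ((w.map fun j : Fin d => g j).prod y0)) →
    (∀ γ : Γ, γ ∈ H ↔ ∃ T : E d ≃ᵢ E d, ∀ x, T (f x) = f (γ • x)) →
    H.index = M.HI.relIndex (M.CI s0)

def M_CTI : Prop := S_TRN → S_MOS → S_MOC → S_MOX → S_IXW → S_CTI

/-- IV.2 (red). KEY: `ρ_w ∈ H ↔ π_w ∈ HR`. S_TRN for `I = e0ᗮ`, `h 0 = -1` or the reflection in `y0`,
`h 1 = s1 g 0`, `h j = g (j - 1)`. `←`: `T (c + v + x e0) = c + β_w v + (s x + c') e0` for `v ∈ I`. `→`: the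
linear part of `T` is `h_w` on `I` (translations), so it is `σ = ± 1` on `e0`. Then S_IXW. -/
def S_CTR : Prop :=
  ∀ (d : ℕ) (Γ : Type) [Group Γ] (X : Type) [MulAction Γ X] (ρ : Fin d → Γ) (x0 : X)
    (f : X → E d) (c e0 y0 t : E d) (b : Bool) (s1 : ℤˣ) (g : ℕ → (E d ≃ₗᵢ[ℝ] E d)) (A : Type)
    (M : Datum d A) (H : Subgroup Γ),
    7 ≤ d → ‖e0‖ = 1 → LinModel (d - 1) 1 (ℝ ∙ e0)ᗮ y0 g →
    (b = true → CroM (d - 1) 1 (ℝ ∙ e0)ᗮ y0 g) → t ≠ 0 → t ∈ Submodule.span ℝ {y0} →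
    (∃ l : Fin d, 3 ≤ l.val ∧ l.val + 2 ≤ d ∧ M.π l = 1) →
    Subgroup.closure (Set.range ρ) = ⊤ → (∀ j, ρ j * ρ j = 1) → (∀ x : X, ∃ γ : Γ, γ • x0 = x) →
    (∀ w : List (Fin d), f ((w.map ρ).prod • x0) =
      c + wR b s1 g y0 t w + M.r ((w.map M.π).prod M.a0) • e0) →
    (∀ γ : Γ, γ ∈ H ↔ ∃ T : E d ≃ᵢ E d, ∀ x, T (f x) = f (γ • x)) →
    H.index = M.HR.relIndex M.C

def M_CTR : Prop := S_TRN → S_MOS → S_MOC → S_MOX → S_IXW → S_CTR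

end

end FOI
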