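import Pool.Agent.FOI.EStmts
import Pool.Agent.FOK.QEC
import Pool.Agent.FO2.INT
import Pool.Agent.FO2.ADJ

/-!
# The intersection property for the mix of the cubical tessellation with the `m`-gon

Paper: `Pool/Agent/FOI/PAPER.md`, V.2.
-/

namespace FOI

open Lib_helper64.FO FO2 FOK Equiv
open FOK.QEC (om ng fl om_apply ng_apply ng_ng ng_inv fl_one fl_two fl_pos par_congr par_empty)
open scoped RealInnerProductSpace

noncomputable section

namespace EC6

variable {n m : ℕ}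

/-- the action of a permutation of the coordinates and a permutation of `ℤ/m` -/
def ph (π : Perm (Fin n)) (e : Perm (ZMod m)) : Perm ((Fin n → ℤ) × ZMod m) :=
  Equiv.prodCongr (Equiv.arrowCongr π (Equiv.refl ℤ)) e

theorem ph_apply (π : Perm (Fin n)) (e : Perm (ZMod m)) (z : Fin n → ℤ) (a : ZMod m) :
    ph π e (z, a) = (fun i => z (π⁻¹ i), e a) := rfl

theorem ph_mul (π π' : Perm (Fin n)) (e e' : Perm (ZMod m)) :
    ph π e * ph π' e' = ph (π * π') (e * e') := by
  ext1 x; rfl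

theorem ph_one : ph (1 : Perm (Fin n)) (1 : Perm (ZMod m)) = 1 := by
  ext1 x; rfl

/-- signed permutations of the coordinates `z` -/
def W1 (g : Perm ((Fin n → ℤ) × ZMod m)) (π : Perm (Fin n)) (s : Fin n → ℤˣ)
    (q : Perm (ZMod m)) : Prop :=
  ∀ z a, (∀ i, (g (z, a)).1 i = (s i : ℤ) * z (π i)) ∧ (g (z, a)).2 = q a

/-- signed permutations of the coordinates `2 z - 1` -/
def W4 (g : Perm ((Fin n → ℤ) × ZMod m)) (π : Perm (Fin n)) (s : Fin n → ℤˣ)
    (q : Perm (ZMod m)) : Prop :=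
  ∀ z a, (∀ i, 2 * (g (z, a)).1 i - 1 = (s i : ℤ) * (2 * z (π i) - 1)) ∧ (g (z, a)).2 = q a

theorem W1.one : W1 (1 : Perm ((Fin n → ℤ) × ZMod m)) 1 1 1 := by
  intro z a
  refine ⟨fun i => ?_, rfl⟩
  simp

theorem W4.one : W4 (1 : Perm ((Fin n → ℤ) × ZMod m)) 1 1 1 := by
  intro z a
  refine ⟨fun i => ?_, rfl⟩
  simp

variable {g g' : Perm ((Fin n → ℤ) × ZMod m)} {π π' : Perm (Fin n)} {s s' : Fin n → ℤˣ}
  {q q' : Perm (ZMod m)}

theorem W1.mul (h : W1 g π s q) (h' : W1 g' π' s' q') :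
    W1 (g * g') (π' * π) (fun i => s i * s' (π i)) (q * q') := by
  intro z a
  obtain ⟨h1, h2⟩ := h' z a
  obtain ⟨h3, h4⟩ := h (g' (z, a)).1 (g' (z, a)).2
  refine ⟨fun i => ?_, ?_⟩
  · rw [Perm.mul_apply]
    have h5 := h3 i
    rw [Prod.mk.eta, h1] at h5
    rw [h5, Perm.mul_apply, Units.val_mul]
    ring
  · rw [Perm.mul_apply, Perm.mul_apply, ← h2]
    exact h4

theorem W4.mul (h : W4 g π s q) (h' : W4 g' π' s' q') :
    W4 (g * g') (π' * π) (fun i => s i * s' (π i)) (q * q') := by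
  intro z a
  obtain ⟨h1, h2⟩ := h' z a
  obtain ⟨h3, h4⟩ := h (g' (z, a)).1 (g' (z, a)).2
  refine ⟨fun i => ?_, ?_⟩
  · rw [Perm.mul_apply]
    have h5 := h3 i
    rw [Prod.mk.eta, h1] at h5
    rw [h5, Perm.mul_apply, Units.val_mul]
    ring
  · rw [Perm.mul_apply, Perm.mul_apply, ← h2]
    exact h4

theorem inv_pair (g : Perm ((Fin n → ℤ) × ZMod m)) (z : Fin n → ℤ) (a : ZMod m) :
    g ((g⁻¹ (z, a)).1, (g⁻¹ (z, a)).2) = (z, a) := by
  rw [Prod.mk.eta]
  exact g.apply_symm_apply (z, a)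

theorem unit_sq (u : ℤˣ) : (u : ℤ) * u = 1 := by
  rcases Int.units_eq_one_or u with rfl | rfl <;> simp

theorem W1.inv (h : W1 g π s q) : W1 g⁻¹ π⁻¹ (fun i => s (π⁻¹ i)) q⁻¹ := by
  intro z a
  obtain ⟨h3, h4⟩ := h (g⁻¹ (z, a)).1 (g⁻¹ (z, a)).2
  rw [inv_pair] at h3 h4
  refine ⟨fun i => ?_, ?_⟩
  · have h5 := h3 (π⁻¹ i)
    have h6 : π (π⁻¹ i) = i := π.apply_symm_apply i
    rw [h6] at h5
    change z (π⁻¹ i) = _ at h5
    rw [h5, ← mul_assoc, unit_sq, one_mul]
  · change a = _ at h4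
    rw [eq_comm, Perm.inv_eq_iff_eq]
    exact h4

theorem W4.inv (h : W4 g π s q) : W4 g⁻¹ π⁻¹ (fun i => s (π⁻¹ i)) q⁻¹ := by
  intro z a
  obtain ⟨h3, h4⟩ := h (g⁻¹ (z, a)).1 (g⁻¹ (z, a)).2
  rw [inv_pair] at h3 h4
  refine ⟨fun i => ?_, ?_⟩
  · have h5 := h3 (π⁻¹ i)
    have h6 : π (π⁻¹ i) = i := π.apply_symm_apply i
    rw [h6] at h5
    change 2 * z (π⁻¹ i) - 1 = _ at h5
    rw [h5, ← mul_assoc, unit_sq, one_mul]
  · change a = _ at h4
    rw [eq_comm, Perm.inv_eq_iff_eq]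
    exact h4

/-- an element of both kinds is a permutation of the coordinates -/
theorem combine (h : W4 g π s q) (h' : W1 g π' s' q') :
    s = 1 ∧ π = π' ∧ q = q' ∧ g = ph π⁻¹ q := by
  have hs : s = 1 := by
    funext i
    have h1 := (h 0 0).1 i
    rw [(h' 0 0).1 i] at h1
    simp only [Pi.zero_apply, mul_zero] at h1
    apply Units.ext
    change (s i : ℤ) = 1
    linarith
  subst hs
  have h2 : ∀ z a i, (g (z, a)).1 i = z (π i) := by
    intro z a i
    have h1 := (h z a).1 i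
    simp only [Pi.one_apply, Units.val_one] at h1
    linarith
  have hπ : π = π' := by
    ext1 i
    by_contra hne
    have h1 := (h' (Pi.single (π i) 1) 0).1 i
    rw [h2, Pi.single_eq_same, Pi.single_eq_of_ne (Ne.symm hne), mul_zero] at h1
    exact one_ne_zero h1
  have hq : q = q' := by
    ext1 a
    rw [← (h 0 a).2, ← (h' 0 a).2]
  refine ⟨rfl, hπ, hq, ?_⟩
  ext1 ⟨z, a⟩
  rw [ph_apply, inv_inv]
  refine Prod.ext ?_ (h z a).2
  funext i
  exact h2 z a i

/-! ### the generators -/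

theorem σ_apply (j : Fin (n + 1)) (z : Fin n → ℤ) (a : ZMod m) :
    (S6 m n).σ j (z, a) = (c6 j.val z, q6 j.val a) := rfl

theorem q6_fl (j : Fin (n + 1)) (a : ZMod m) : q6 j.val a = fl j a := by
  unfold q6 fl
  by_cases h : j.val = 0
  · simp only [h, if_true]; rfl
  · by_cases h' : j.val = 1
    · simp only [h', if_true]; rfl
    · simp only [h, h', if_false]; rfl

theorem gen0 (j : Fin (n + 1)) (h : j.val = 0) :
    W4 ((S6 m n).σ j) 1 (fun i => if i.val = 0 then -1 else 1) (fl j) := by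
  intro z a
  rw [σ_apply]
  refine ⟨fun i => ?_, q6_fl j a⟩
  change 2 * c6 j.val z i - 1 = _
  unfold c6
  rw [if_pos h]
  by_cases hi : i.val = 0
  · simp only [hi, if_true, Perm.one_apply, Units.val_neg, Units.val_one]; ring
  · simp only [hi, if_false, Perm.one_apply, Units.val_one]; ring

theorem gen_mid (j : Fin (n + 1)) (h : j.val ≠ 0) (h' : j.val < n) (z : Fin n → ℤ) (i : Fin n) :
    c6 j.val z i = z (Equiv.swap ⟨j.val - 1, by omega⟩ ⟨j.val, h'⟩ i) := by
  unfold c6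
  rw [if_neg h, dif_pos h']

theorem gen4 (j : Fin (n + 1)) (h : j.val ≠ 0) (h' : j.val < n) :
    W4 ((S6 m n).σ j) (Equiv.swap ⟨j.val - 1, by omega⟩ ⟨j.val, h'⟩) 1 (fl j) := by
  intro z a
  rw [σ_apply]
  refine ⟨fun i => ?_, q6_fl j a⟩
  change 2 * c6 j.val z i - 1 = _
  rw [gen_mid j h h']
  simp

theorem gen1 (j : Fin (n + 1)) (h : j.val ≠ 0) (h' : j.val < n) :
    W1 ((S6 m n).σ j) (Equiv.swap ⟨j.val - 1, by omega⟩ ⟨j.val, h'⟩) 1 (fl j) := by
  intro z a
  rw [σ_apply]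
  refine ⟨fun i => ?_, q6_fl j a⟩
  change c6 j.val z i = _
  rw [gen_mid j h h']
  simp

theorem genn (hn : 3 ≤ n) (j : Fin (n + 1)) (h : ¬ j.val < n) :
    W1 ((S6 m n).σ j) 1 (fun i => if i.val + 1 = n then -1 else 1) (fl j) := by
  intro z a
  rw [σ_apply]
  refine ⟨fun i => ?_, q6_fl j a⟩
  change c6 j.val z i = _
  unfold c6
  rw [if_neg (by omega), dif_neg h]
  by_cases hi : i.val + 1 = n
  · simp only [hi, if_true, Perm.one_apply, Units.val_neg, Units.val_one]; ring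
  · simp only [hi, if_false, Perm.one_apply, Units.val_one]; ring

theorem σ_eq (j : Fin (n + 1)) (h : j.val ≠ 0) (h' : j.val < n) :
    (S6 m n).σ j = ph (Equiv.swap ⟨j.val - 1, by omega⟩ ⟨j.val, h'⟩) (fl j) := by
  have h1 := (combine (gen4 (m := m) j h h') (gen1 j h h')).2.2.2
  rw [h1, Equiv.swap_inv]

/-! ### normal forms -/

/-- the generators `j ≥ b + 1` -/
theorem fwd1 (hn : 3 ≤ n) (b : ℕ) (g : Perm ((Fin n → ℤ) × ZMod m))
    (hg : g ∈ (S6 m n).par {j | b + 1 ≤ j.val}) :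
    ∃ π s q, W1 g π s q ∧ (∀ i : Fin n, i.val < b → π i = i ∧ s i = 1) ∧ (q = 1 ∨ q = ng) ∧
      (1 ≤ b → q = 1) := by
  refine Subgroup.closure_induction (p := fun g _ => ∃ π s q, W1 g π s q ∧
    (∀ i : Fin n, i.val < b → π i = i ∧ s i = 1) ∧ (q = 1 ∨ q = ng) ∧ (1 ≤ b → q = 1))
    ?_ ?_ ?_ ?_ hg
  · rintro _ ⟨j, hj, rfl⟩
    have hj' : b + 1 ≤ j.val := hj
    by_cases h : j.val < n
    · refine ⟨_, _, _, gen1 j (by omega) h, ?_, fl_pos (by omega), fun hb => fl_two (by omega)⟩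
      intro i hi
      refine ⟨Equiv.swap_apply_of_ne_of_ne ?_ ?_, rfl⟩
      · rw [Ne, Fin.ext_iff]; dsimp only; omega
      · rw [Ne, Fin.ext_iff]; dsimp only; omega
    · refine ⟨_, _, _, genn hn j h, ?_, fl_pos (by omega), fun hb => fl_two (by omega)⟩
      intro i hi
      have hjn := j.isLt
      refine ⟨rfl, ?_⟩
      rw [if_neg (by omega)]
  · exact ⟨1, 1, 1, W1.one, fun _ _ => ⟨rfl, rfl⟩, Or.inl rfl, fun _ => rfl⟩
  · rintro x y - - ⟨π, s, q, h, h1, h2, h3⟩ ⟨π', s', q', h', h1', h2', h3'⟩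
    refine ⟨_, _, _, h.mul h', ?_, ?_, ?_⟩
    · intro i hi
      rw [Perm.mul_apply, (h1 i hi).1, (h1' i hi).1, (h1 i hi).2, (h1' i hi).2]
      exact ⟨rfl, one_mul _⟩
    · rcases h2 with h | h <;> rcases h2' with h' | h'
      · left; rw [h, h', one_mul]
      · right; rw [h, h', one_mul]
      · right; rw [h, h', mul_one]
      · left; rw [h, h', ng_ng]
    · intro hb
      rw [h3 hb, h3' hb, one_mul]
  · rintro x - ⟨π, s, q, h, h1, h2, h3⟩
    refine ⟨_, _, _, h.inv, ?_, ?_, ?_⟩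
    · intro i hi
      have h4 : π⁻¹ i = i := by rw [Perm.inv_eq_iff_eq, (h1 i hi).1]
      rw [h4]
      exact ⟨rfl, (h1 i hi).2⟩
    · rcases h2 with h | h
      · left; rw [h, inv_one]
      · right; rw [h, ng_inv]
    · intro hb
      rw [h3 hb, inv_one]

/-- the generators `t ≤ j < l`, `l ≤ n` -/
theorem fwd4 (t l : ℕ) (hl : l ≤ n) (g : Perm ((Fin n → ℤ) × ZMod m))
    (hg : g ∈ (S6 m n).par {j | t ≤ j.val ∧ j.val < l}) :
    ∃ π s q, W4 g π s q ∧ ∀ i : Fin n, l ≤ i.val → π i = i := by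
  refine Subgroup.closure_induction (p := fun g _ => ∃ π s q, W4 g π s q ∧
    ∀ i : Fin n, l ≤ i.val → π i = i) ?_ ?_ ?_ ?_ hg
  · rintro _ ⟨j, ⟨-, hj⟩, rfl⟩
    by_cases h0 : j.val = 0
    · exact ⟨_, _, _, gen0 j h0, fun _ _ => rfl⟩
    · refine ⟨_, _, _, gen4 j h0 (by omega), ?_⟩
      intro i hi
      refine Equiv.swap_apply_of_ne_of_ne ?_ ?_
      · rw [Ne, Fin.ext_iff]; dsimp only; omega
      · rw [Ne, Fin.ext_iff]; dsimp only; omega
  · exact ⟨1, 1, 1, W4.one, fun _ _ => rfl⟩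
  · rintro x y - - ⟨π, s, q, h, h1⟩ ⟨π', s', q', h', h1'⟩
    refine ⟨_, _, _, h.mul h', ?_⟩
    intro i hi
    rw [Perm.mul_apply, h1 i hi, h1' i hi]
  · rintro x - ⟨π, s, q, h, h1⟩
    refine ⟨_, _, _, h.inv, ?_⟩
    intro i hi
    rw [Perm.inv_eq_iff_eq, h1 i hi]

/-- the determinant as an element of `ℤ/m` -/
def dt (π : Perm (Fin n)) (s : Fin n → ℤˣ) : ZMod m :=
  (((Perm.sign π * ∏ i, s i : ℤˣ) : ℤ) : ZMod m)

theorem dt_mul (π π' : Perm (Fin n)) (s s' : Fin n → ℤˣ) :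
    (dt (π' * π) (fun i => s i * s' (π i)) : ZMod m) = dt π s * dt π' s' := by
  unfold dt
  rw [← Int.cast_mul, ← Units.val_mul]
  congr 2
  rw [Finset.prod_mul_distrib, Equiv.prod_comp π s', Perm.sign_mul]
  ac_rfl

theorem dt_inv (π : Perm (Fin n)) (s : Fin n → ℤˣ) :
    (dt π⁻¹ (fun i => s (π⁻¹ i)) : ZMod m) = dt π s := by
  unfold dt
  rw [Equiv.prod_comp π⁻¹ s, Perm.sign_inv]

theorem dt_sq (π : Perm (Fin n)) (s : Fin n → ℤˣ) : (dt π s : ZMod m) * dt π s = 1 := by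
  unfold dt
  rw [← Int.cast_mul, unit_sq, Int.cast_one]

theorem dt_one : (dt (1 : Perm (Fin n)) (1 : Fin n → ℤˣ) : ZMod m) = 1 := by
  unfold dt
  simp

/-- in the group of the first two generators the second coordinate is determined by the
determinant of the first up to a translation -/
theorem fwd2 (hn : 3 ≤ n) (g : Perm ((Fin n → ℤ) × ZMod m))
    (hg : g ∈ (S6 m n).par {j | j.val < 2}) :
    ∃ π s q, W4 g π s q ∧ ∃ c : ZMod m, ∀ a, q a = dt π s * a + c := by
  refine Subgroup.closure_induction (p := fun g _ => ∃ π s q, W4 g π s q ∧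
    ∃ c : ZMod m, ∀ a, q a = dt π s * a + c) ?_ ?_ ?_ ?_ hg
  · rintro _ ⟨j, hj, rfl⟩
    have hj' : j.val < 2 := hj
    by_cases h0 : j.val = 0
    · refine ⟨_, _, _, gen0 j h0, 1, fun a => ?_⟩
      have hp : ∏ i : Fin n, (if i.val = 0 then (-1 : ℤˣ) else 1) = -1 := by
        rw [Finset.prod_eq_single (⟨0, by omega⟩ : Fin n)]
        · simp
        · intro b _ hb
          rw [if_neg]
          intro h
          exact hb (Fin.ext h)
        · intro h
          exact absurd (Finset.mem_univ _) h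
      unfold dt fl
      rw [hp, if_pos h0, om_apply]
      simp
      ring
    · refine ⟨_, _, _, gen4 j h0 (by omega), 0, fun a => ?_⟩
      have hs : Perm.sign (Equiv.swap (⟨j.val - 1, by omega⟩ : Fin n) ⟨j.val, by omega⟩) = -1 := by
        apply Perm.sign_swap
        rw [Ne, Fin.ext_iff]
        dsimp only
        omega
      rw [fl_one (by omega), ng_apply]
      unfold dt
      rw [hs]
      simp
  · refine ⟨1, 1, 1, W4.one, 0, fun a => ?_⟩
    rw [dt_one, one_mul, add_zero]; rfl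
  · rintro x y - - ⟨π, s, q, h, c, hc⟩ ⟨π', s', q', h', c', hc'⟩
    refine ⟨_, _, _, h.mul h', dt π s * c' + c, fun a => ?_⟩
    rw [Perm.mul_apply, hc, hc', dt_mul]
    ring
  · rintro x - ⟨π, s, q, h, c, hc⟩
    refine ⟨_, _, _, h.inv, - (dt π s * c), fun a => ?_⟩
    rw [Perm.inv_eq_iff_eq, hc, dt_inv]
    have h2 := dt_sq (m := m) π s
    calc a = (dt π s * dt π s) * a - (dt π s * dt π s) * c + c := by rw [h2]; ring
      _ = _ := by ring

/-! ### the converse -/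

/-- the homomorphism `π ↦ ph π 1` -/
def phi : Perm (Fin n) →* Perm ((Fin n → ℤ) × ZMod m) where
  toFun π := ph π 1
  map_one' := ph_one
  map_mul' π π' := by rw [ph_mul, one_mul]

theorem phi_apply (π : Perm (Fin n)) : (phi π : Perm ((Fin n → ℤ) × ZMod m)) = ph π 1 := rfl

theorem bwd (a b : ℕ) (hab : a ≤ b) (hb : b < n)
    (K : Subgroup (Perm ((Fin n → ℤ) × ZMod m)))
    (hK : ∀ j : ℕ, a ≤ j → j < b → ph (adj n j) 1 ∈ K)
    (π : Perm (Fin n)) (hπ : ∀ t : Fin n, (t.val < a ∨ b < t.val) → π t = t) :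
    ph π 1 ∈ K := by
  have h := adjT n a b hab hb π hπ
  have h2 : Subgroup.closure (adj n '' {j | a ≤ j ∧ j < b}) ≤ K.comap phi := by
    rw [Subgroup.closure_le]
    rintro _ ⟨j, ⟨hj1, hj2⟩, rfl⟩
    rw [SetLike.mem_coe, Subgroup.mem_comap, phi_apply]
    exact hK j hj1 hj2
  exact h2 h

theorem adj_σ (j : ℕ) (h : j + 1 < n) :
    ph (adj n j) (fl (⟨j + 1, by omega⟩ : Fin (n + 1)) : Perm (ZMod m)) =
      (S6 m n).σ ⟨j + 1, by omega⟩ := by
  rw [σ_eq ⟨j + 1, by omega⟩ (Nat.succ_ne_zero j) h]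
  congr 1
  unfold adj
  rw [dif_pos h]
  rfl

/-- (A) -/
theorem bwdA (t l : ℕ) (h1 : 1 ≤ t) (hab : t < l) (hl : l ≤ n)
    (π : Perm (Fin n)) (hπ : ∀ i : Fin n, (i.val < t ∨ l ≤ i.val) → π i = i) :
    ph π 1 ∈ (S6 m n).par {j | t + 1 ≤ j.val ∧ j.val < l} := by
  refine bwd t (l - 1) (by omega) (by omega) _ ?_ π fun i hi => hπ i (by omega)
  intro j hj1 hj2
  have h2 := adj_σ (n := n) (m := m) j (by omega)
  rw [fl_two (show 2 ≤ (⟨j + 1, by omega⟩ : Fin (n + 1)).val from by change 2 ≤ j + 1; omega)]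
    at h2
  rw [h2]
  refine Subgroup.subset_closure ⟨_, ⟨?_, ?_⟩, rfl⟩
  · change t + 1 ≤ j + 1
    omega
  · change j + 1 < l
    omega

/-- the map `(1, neg)` is in the group -/
theorem neg_mem (l : ℕ) (hl : 3 ≤ l) (hn : 3 ≤ n) : ph (1 : Perm (Fin n)) ng ∈
    (S6 m n).par {j | 1 ≤ j.val ∧ j.val < l} := by
  set j0 : Fin (n + 1) := ⟨1, by omega⟩ with hj0
  set j1 : Fin (n + 1) := ⟨2, by omega⟩ with hj1
  have m0 : (S6 m n).σ j0 ∈ (S6 m n).par {j | 1 ≤ j.val ∧ j.val < l} :=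
    Subgroup.subset_closure ⟨j0, ⟨le_rfl, by change 1 < l; omega⟩, rfl⟩
  have m1 : (S6 m n).σ j1 ∈ (S6 m n).par {j | 1 ≤ j.val ∧ j.val < l} :=
    Subgroup.subset_closure ⟨j1, ⟨by change 1 ≤ 2; omega, by change 2 < l; omega⟩, rfl⟩
  have key : ph (1 : Perm (Fin n)) ng =
      (S6 m n).σ j0 * (S6 m n).σ j1 * ((S6 m n).σ j0 * (S6 m n).σ j1 *
        ((S6 m n).σ j0 * (S6 m n).σ j1)) := by
    rw [σ_eq j0 (show (1 : ℕ) ≠ 0 by omega) (show 1 < n by omega),
      σ_eq j1 (show (2 : ℕ) ≠ 0 by omega) (show 2 < n by omega),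
      fl_two (show 2 ≤ j1.val from le_rfl), fl_one (show j0.val = 1 from rfl),
      ph_mul, ph_mul, ph_mul]
    congr 1
    · have hab : (⟨j0.val - 1, by omega⟩ : Fin n) ≠ ⟨j0.val, by change 1 < n; omega⟩ := by
        rw [Ne, Fin.ext_iff]; change ¬ (1 - 1 = 1); omega
      have hac : (⟨j0.val - 1, by omega⟩ : Fin n) ≠ ⟨j1.val, by change 2 < n; omega⟩ := by
        rw [Ne, Fin.ext_iff]; change ¬ (1 - 1 = 2); omega
      have hbc : (⟨j0.val, by change 1 < n; omega⟩ : Fin n) ≠ ⟨j1.val, by change 2 < n; omega⟩ := by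
        rw [Ne, Fin.ext_iff]; change ¬ (1 = 2); omega
      have hs1 : (⟨j1.val - 1, by omega⟩ : Fin n) = ⟨j0.val, by change 1 < n; omega⟩ := by
        apply Fin.ext; rfl
      rw [hs1]
      generalize (⟨j0.val - 1, _⟩ : Fin n) = a at hab hac
      generalize (⟨j0.val, _⟩ : Fin n) = b at hab hbc
      generalize (⟨j1.val, _⟩ : Fin n) = c at hac hbc
      ext1 x
      simp only [Perm.mul_apply, Perm.one_apply]
      by_cases ha : x = a
      · subst ha
        simp [Equiv.swap_apply_def, hab, hac, hab.symm, hac.symm, hbc.symm]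
      · by_cases hb : x = b
        · subst hb
          simp [Equiv.swap_apply_def, hab, hac, hbc, hab.symm, hac.symm, hbc.symm]
        · by_cases hc : x = c
          · subst hc
            simp [Equiv.swap_apply_def, hab, hac, hbc, hab.symm, hac.symm, hbc.symm]
          · simp [Equiv.swap_apply_def, ha, hb, hc]
    · rw [mul_one, ng_ng, mul_one]
  rw [key]
  exact mul_mem (mul_mem m0 m1) (mul_mem (mul_mem m0 m1) (mul_mem m0 m1))

/-- (B) -/
theorem bwdB (l : ℕ) (hl3 : 3 ≤ l) (hl : l ≤ n)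
    (π : Perm (Fin n)) (hπ : ∀ i : Fin n, l ≤ i.val → π i = i) (e : Perm (ZMod m))
    (he : e = 1 ∨ e = ng) :
    ph π e ∈ (S6 m n).par {j | 1 ≤ j.val ∧ j.val < l} := by
  have hng := neg_mem (m := m) l hl3 (hl3.trans hl)
  have h1 : ph π (1 : Perm (ZMod m)) ∈ (S6 m n).par {j | 1 ≤ j.val ∧ j.val < l} := by
    refine bwd 0 (l - 1) (by omega) (by omega) _ ?_ π fun i hi => hπ i (by omega)
    intro j hj1 hj2
    have hm : (S6 m n).σ ⟨j + 1, by omega⟩ ∈ (S6 m n).par {j | 1 ≤ j.val ∧ j.val < l} := by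
      refine Subgroup.subset_closure ⟨_, ⟨?_, ?_⟩, rfl⟩
      · change 1 ≤ j + 1
        omega
      · change j + 1 < l
        omega
    have h2 := adj_σ (n := n) (m := m) j (by omega)
    by_cases h : j = 0
    · rw [fl_one (show (⟨j + 1, by omega⟩ : Fin (n + 1)).val = 1 from by
        change j + 1 = 1; omega)] at h2
      have e2 : ph (adj n j) (1 : Perm (ZMod m)) = (S6 m n).σ ⟨j + 1, by omega⟩ * ph 1 ng := by
        rw [← h2, ph_mul, mul_one, ng_ng]
      rw [e2]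
      exact mul_mem hm hng
    · rw [fl_two (show 2 ≤ (⟨j + 1, by omega⟩ : Fin (n + 1)).val from by
        change 2 ≤ j + 1; omega)] at h2
      rw [h2]
      exact hm
  rcases he with rfl | rfl
  · exact h1
  · have : ph π (ng : Perm (ZMod m)) = ph π 1 * ph 1 ng := by
      rw [ph_mul, mul_one, one_mul]
    rw [this]
    exact mul_mem h1 hng

/-- a permutation that fixes all `i ≥ 2` -/
theorem two_cases (hn : 3 ≤ n) (π : Perm (Fin n)) (hπ : ∀ i : Fin n, 2 ≤ i.val → π i = i) :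
    π = 1 ∨ π = Equiv.swap ⟨0, by omega⟩ ⟨1, by omega⟩ := by
  have hlt : ∀ i : Fin n, i.val < 2 → (π i).val < 2 := by
    intro i hi
    by_contra hcon
    have h1 := hπ (π i) (by omega)
    have h2 := π.injective h1
    rw [h2] at hcon
    omega
  have h0 := hlt ⟨0, by omega⟩ (by dsimp only; omega)
  have h1 := hlt ⟨1, by omega⟩ (by dsimp only; omega)
  have hne : (π ⟨0, by omega⟩).val ≠ (π ⟨1, by omega⟩).val := by
    intro h
    have := π.injective (Fin.ext h)
    rw [Fin.ext_iff] at this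
    dsimp only at this
    omega
  by_cases h2 : (π ⟨0, by omega⟩).val = 0
  · left
    ext1 i
    rw [Perm.one_apply]
    by_cases hi0 : i.val = 0
    · have : i = ⟨0, by omega⟩ := Fin.ext hi0
      rw [this]
      exact Fin.ext h2
    · by_cases hi1 : i.val = 1
      · have : i = ⟨1, by omega⟩ := Fin.ext hi1
        rw [this]
        apply Fin.ext
        dsimp only
        omega
      · exact hπ i (by omega)
  · right
    ext1 i
    by_cases hi0 : i.val = 0
    · have : i = ⟨0, by omega⟩ := Fin.ext hi0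
      rw [this, Equiv.swap_apply_left]
      apply Fin.ext
      dsimp only
      omega
    · by_cases hi1 : i.val = 1
      · have : i = ⟨1, by omega⟩ := Fin.ext hi1
        rw [this, Equiv.swap_apply_right]
        apply Fin.ext
        dsimp only
        omega
      · rw [Equiv.swap_apply_of_ne_of_ne]
        · exact hπ i (by omega)
        · rw [Ne, Fin.ext_iff]; exact hi0
        · rw [Ne, Fin.ext_iff]; exact hi1

theorem stab0 (hn : 3 ≤ n) (l : ℕ) (hl : l ≤ n)
    (g : Perm ((Fin n → ℤ) × ZMod m))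
    (h1 : g ∈ (S6 m n).par {j | 0 ≤ j.val ∧ j.val < l})
    (h2 : g ∈ (S6 m n).par {j | 0 + 1 ≤ j.val}) :
    g ∈ (S6 m n).par {j | 0 + 1 ≤ j.val ∧ j.val < l} := by
  obtain ⟨π, s, q, h4, hπ⟩ := fwd4 0 l hl g h1
  obtain ⟨π', s', q', h1', -, hq, -⟩ := fwd1 hn 0 g h2
  obtain ⟨rfl, rfl, rfl, hg⟩ := combine h4 h1'
  have hπi : ∀ i : Fin n, l ≤ i.val → π⁻¹ i = i := by
    intro i hi
    rw [Perm.inv_eq_iff_eq, hπ i hi]
  rcases Nat.lt_or_ge l 3 with h3 | h3
  · have h5 : g ∈ (S6 m n).par {j | j.val < 2} := by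
      refine Subgroup.closure_mono (Set.image_mono ?_) h1
      intro j hj
      have : j.val < l := hj.2
      change j.val < 2
      omega
    obtain ⟨π2, s2, q2, h6, c, hc⟩ := fwd2 hn g h5
    obtain ⟨rfl, rfl, rfl, -⟩ := combine h6 h1'
    have hc0 : c = 0 := by
      have h7 := hc 0
      rw [mul_zero, zero_add] at h7
      rw [← h7]
      rcases hq with hq | hq
      · rw [hq]; rfl
      · rw [hq, ng_apply, neg_zero]
    subst hc0
    rcases two_cases hn π2 (fun i hi => hπ i (by omega)) with hp | hp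
    · have hq1 : q2 = 1 := by
        ext1 a
        rw [hc a, hp, dt_one, one_mul, add_zero]; rfl
      rw [hg, hp, hq1, inv_one, ph_one]
      exact one_mem _
    · have hl2 : l = 2 := by
        by_contra hne
        have h8 := hπ ⟨1, by omega⟩ (by dsimp only; omega)
        rw [hp, Equiv.swap_apply_right, Fin.ext_iff] at h8
        dsimp only at h8
        omega
      have hs : (dt π2 (1 : Fin n → ℤˣ) : ZMod m) = -1 := by
        unfold dt
        rw [hp, Perm.sign_swap]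
        · simp
        · rw [Ne, Fin.ext_iff]
          dsimp only
          omega
      have hqn : q2 = ng := by
        ext1 a
        rw [hc a, hs, ng_apply]
        ring
      have hσ : g = (S6 m n).σ ⟨1, by omega⟩ := by
        rw [hg, σ_eq ⟨1, by omega⟩ (show (1 : ℕ) ≠ 0 by omega) (show 1 < n by omega),
          fl_one rfl, hqn, hp, Equiv.swap_inv]
        rfl
      rw [hσ]
      refine Subgroup.subset_closure ⟨_, ⟨?_, ?_⟩, rfl⟩
      · change 0 + 1 ≤ 1
        omega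
      · change 1 < l
        omega
  · rw [hg]
    exact bwdB l h3 hl _ hπi q hq

theorem stabCond (hn : 3 ≤ n) (t l : ℕ) (hl : l ≤ n + 1) (g : Perm ((Fin n → ℤ) × ZMod m))
    (h1 : g ∈ (S6 m n).par {j | t ≤ j.val ∧ j.val < l})
    (h2 : g ∈ (S6 m n).par {j | t + 1 ≤ j.val}) :
    g ∈ (S6 m n).par {j | t + 1 ≤ j.val ∧ j.val < l} := by
  rcases Nat.lt_or_ge n l with hln | hln
  · refine Subgroup.closure_mono (Set.image_mono ?_) h2
    intro j hj
    have h3 : t + 1 ≤ j.val := hj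
    have h4 := j.isLt
    exact ⟨h3, by omega⟩
  rcases Nat.lt_or_ge t l with hk | hk
  · rcases Nat.eq_zero_or_pos t with h0 | h0
    · subst h0
      exact stab0 hn l hln g h1 h2
    · obtain ⟨π, s, q, h4, hπ⟩ := fwd4 t l hln g h1
      obtain ⟨π', s', q', h1', hπ', -, hq⟩ := fwd1 hn t g h2
      obtain ⟨rfl, rfl, rfl, hg⟩ := combine h4 h1'
      rw [hg, hq h0]
      refine bwdA t l h0 hk hln _ ?_
      intro i hi
      rw [Perm.inv_eq_iff_eq]
      rcases hi with hi | hi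
      · exact ((hπ' i hi).1).symm
      · exact (hπ i hi).symm
  · have : ({j | t ≤ j.val ∧ j.val < l} : Set (Fin (n + 1))) = ∅ := by
      ext j; simp; omega
    rw [par_congr _ this, par_empty, Subgroup.mem_bot] at h1
    rw [h1]
    exact one_mem _

theorem interAll (hn : 3 ≤ n) (p : ℕ) : ∀ t, t + p = n + 1 →
    ∀ I J : Set (Fin (n + 1)), I ⊆ {j | t ≤ j.val} → J ⊆ {j | t ≤ j.val} →
      (S6 m n).par I ⊓ (S6 m n).par J = (S6 m n).par (I ∩ J) := by
  induction p with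
  | zero =>
    intro t hk I J hI' hJ'
    have h1 : I = ∅ := by
      rw [Set.eq_empty_iff_forall_notMem]
      intro j hj
      have : t ≤ j.val := hI' hj
      omega
    rw [h1, Set.empty_inter, par_empty, bot_inf_eq]
  | succ p ih =>
    intro t hk
    exact int (n + 1) _ (S6 m n) t (fun I J => ih (t + 1) (by omega) I J)
      (fun l hl g h1 h2 => stabCond hn t l hl g h1 h2)

end EC6

theorem t_EC6 : S_EC6 := by
  intro m n hm hn
  constructor
  · intro j h
    by_cases h0 : j.val = 0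
    · have h1 := (EC6.gen0 (m := m) j h0 0 0).1 ⟨0, by omega⟩
      rw [h] at h1
      simp at h1
    · by_cases h' : j.val < n
      · have h1 := (EC6.gen1 (m := m) j h0 h' (Pi.single ⟨j.val, h'⟩ 1) 0).1 ⟨j.val, h'⟩
        rw [h, Equiv.swap_apply_right] at h1
        have hne : (⟨j.val - 1, by omega⟩ : Fin n) ≠ ⟨j.val, h'⟩ := by
          rw [Ne, Fin.ext_iff]
          dsimp only
          omega
        rw [Pi.single_eq_of_ne hne, mul_zero] at h1
        simp at h1
      · have h1 := (EC6.genn (m := m) hn j h' 1 0).1 ⟨n - 1, by omega⟩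
        rw [h] at h1
        have h2 : n - 1 + 1 = n := by omega
        simp [h2] at h1
  · intro I J
    exact EC6.interAll hn (n + 1) 0 (by omega) I J (fun j _ => Nat.zero_le _)
      (fun j _ => Nat.zero_le _)

end

end FOI
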