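import Pool.Agent.FOI.EStmts

/-!
# V.6: the vertices form a discrete set, the coset poset is infinite
-/

namespace FOI

open Lib_helper64.FO FO2 FOK
open scoped RealInnerProductSpace

noncomputable section

namespace ED6

/-! ### discreteness -/

theorem gap {m : ℕ} (hm : 3 ≤ m) (r : ZMod m → ℝ) :
    ∃ δ : ℝ, 0 < δ ∧ ∀ a b : ZMod m, r a ≠ r b → δ ≤ |r a - r b| := by
  have : NeZero m := ⟨by omega⟩
  rcases Set.eq_empty_or_nonempty {p : ZMod m × ZMod m | r p.1 ≠ r p.2} with he | hne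
  · refine ⟨1, one_pos, fun a b hab => ?_⟩
    have h1 : (a, b) ∈ {p : ZMod m × ZMod m | r p.1 ≠ r p.2} := hab
    rw [he] at h1
    exact absurd h1 (Set.notMem_empty _)
  · obtain ⟨p, hp, hmin⟩ := Set.exists_min_image _ (fun p : ZMod m × ZMod m => |r p.1 - r p.2|)
      (Set.toFinite {p : ZMod m × ZMod m | r p.1 ≠ r p.2}) hne
    exact ⟨|r p.1 - r p.2|, abs_pos.2 (sub_ne_zero.2 hp), fun a b hab => hmin (a, b) hab⟩

theorem coord_le {n : ℕ} (x y : E n) (i : Fin n) : |x i - y i| ≤ dist x y := by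
  rw [dist_eq_norm]
  have h := PiLp.norm_apply_le (x - y) i
  rw [PiLp.sub_apply, Real.norm_eq_abs] at h
  exact h

theorem sep {m n : ℕ} (r : ZMod m → ℝ) {δ : ℝ}
    (hδ' : ∀ a b : ZMod m, r a ≠ r b → δ ≤ |r a - r b|) (x y : (Fin n → ℤ) × ZMod m)
    (h : F6 n r x ≠ F6 n r y) : min 1 δ ≤ dist (F6 n r x) (F6 n r y) := by
  by_cases hz : x.1 = y.1
  · have hr : r x.2 ≠ r y.2 := by
      intro e
      apply h
      rw [F6, F6]
      congr 1
      funext i
      rw [hz, e]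
    refine (min_le_right _ _).trans ((hδ' _ _ hr).trans ?_)
    have h1 := coord_le (F6 n r x) (F6 n r y) (Fin.last n)
    have e1 : ∀ w : (Fin n → ℤ) × ZMod m, F6 n r w (Fin.last n) = r w.2 := by
      intro w
      show (if h : (Fin.last n).val < n then (w.1 ⟨(Fin.last n).val, h⟩ : ℝ) else r w.2) = _
      rw [dif_neg (by simp)]
    rw [e1, e1] at h1
    exact h1
  · obtain ⟨i, hi⟩ := Function.ne_iff.1 hz
    refine (min_le_left _ _).trans ?_
    have h1 := coord_le (F6 n r x) (F6 n r y) ⟨i.val, by omega⟩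
    have e1 : ∀ w : (Fin n → ℤ) × ZMod m, F6 n r w ⟨i.val, by omega⟩ = (w.1 i : ℝ) := by
      intro w
      show (if h : i.val < n then (w.1 ⟨i.val, h⟩ : ℝ) else r w.2) = _
      rw [dif_pos i.isLt]
    rw [e1, e1] at h1
    refine le_trans ?_ h1
    have h2 : (1 : ℤ) ≤ |x.1 i - y.1 i| := Int.one_le_abs (sub_ne_zero.2 hi)
    have h3 : ((1 : ℤ) : ℝ) ≤ ((|x.1 i - y.1 i| : ℤ) : ℝ) := Int.cast_le.2 h2
    rw [Int.cast_one, Int.cast_abs, Int.cast_sub] at h3
    exact h3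

/-! ### the orbit of `(0, 0)` -/

variable {m n : ℕ}

/-- the first coordinates of the orbit of `(0, 0)` -/
def Orb (m n : ℕ) (z : Fin n → ℤ) : Prop :=
  ∃ g ∈ (S6 m n).par Set.univ, (g (0, 0)).1 = z

theorem orb_zero : Orb m n 0 := ⟨1, one_mem _, rfl⟩

theorem orb_c6 {z : Fin n → ℤ} (h : Orb m n z) (j : ℕ) (hj : j ≤ n) : Orb m n (c6 j z) := by
  obtain ⟨g, hg, rfl⟩ := h
  refine ⟨(S6 m n).σ ⟨j, by omega⟩ * g, mul_mem (Subgroup.subset_closure ⟨_, trivial, rfl⟩) hg, ?_⟩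
  rfl

theorem single_up (i : ℕ) (hi : i + 1 < n) (k : ℤ) :
    c6 (i + 1) (Pi.single (⟨i, by omega⟩ : Fin n) k) = Pi.single (⟨i + 1, hi⟩ : Fin n) k := by
  funext p
  have e : c6 (i + 1) (Pi.single (⟨i, by omega⟩ : Fin n) k) p =
      (Pi.single (⟨i, by omega⟩ : Fin n) k : Fin n → ℤ) (Equiv.swap ⟨i, by omega⟩ ⟨i + 1, hi⟩ p) := by
    simp [c6, hi]
  rw [e, Pi.single_apply, Pi.single_apply]
  have h1 : (Equiv.swap (⟨i, by omega⟩ : Fin n) ⟨i + 1, hi⟩ p = ⟨i, by omega⟩) ↔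
      p = ⟨i + 1, hi⟩ := by
    rw [Equiv.swap_apply_eq_iff, Equiv.swap_apply_left]
  by_cases hp : p = ⟨i + 1, hi⟩
  · rw [if_pos (h1.2 hp), if_pos hp]
  · rw [if_neg fun h => hp (h1.1 h), if_neg hp]

theorem single_down (i : ℕ) (hi : i + 1 < n) (k : ℤ) :
    c6 (i + 1) (Pi.single (⟨i + 1, hi⟩ : Fin n) k) = Pi.single (⟨i, by omega⟩ : Fin n) k := by
  rw [← single_up i hi k, c6_c6]

theorem orb_up {k : ℤ} (h0 : 0 < n) (h : Orb m n (Pi.single (⟨0, h0⟩ : Fin n) k)) (i : ℕ)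
    (hi : i < n) : Orb m n (Pi.single (⟨i, hi⟩ : Fin n) k) := by
  induction i with
  | zero => exact h
  | succ i ih =>
    rw [← single_up i hi k]
    exact orb_c6 (ih (by omega)) (i + 1) (by omega)

theorem orb_down {k : ℤ} (h0 : 0 < n) (i : ℕ)
    (hi : i < n) (h : Orb m n (Pi.single (⟨i, hi⟩ : Fin n) k)) :
    Orb m n (Pi.single (⟨0, h0⟩ : Fin n) k) := by
  induction i with
  | zero => exact h
  | succ i ih =>
    apply ih (by omega)
    rw [← single_down i hi k]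
    exact orb_c6 h (i + 1) (by omega)

theorem single_neg (h0 : 0 < n) (k : ℤ) :
    c6 n (Pi.single (⟨n - 1, by omega⟩ : Fin n) k) = Pi.single (⟨n - 1, by omega⟩ : Fin n) (-k) := by
  funext p
  have hn : n ≠ 0 := by omega
  have e : c6 n (Pi.single (⟨n - 1, by omega⟩ : Fin n) k) p =
      if p.val + 1 = n then - (Pi.single (⟨n - 1, by omega⟩ : Fin n) k : Fin n → ℤ) p
      else (Pi.single (⟨n - 1, by omega⟩ : Fin n) k : Fin n → ℤ) p := by
    simp [c6, hn]
  rw [e, Pi.single_apply, Pi.single_apply]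
  by_cases hp : p = ⟨n - 1, by omega⟩
  · have h1 : p.val + 1 = n := by
      rw [hp]
      show n - 1 + 1 = n
      omega
    rw [if_pos h1, if_pos hp, if_pos hp]
  · have h1 : ¬ p.val + 1 = n := by
      intro h
      apply hp
      apply Fin.ext
      show p.val = n - 1
      omega
    rw [if_neg h1, if_neg hp, if_neg hp]

theorem single_c0 (h0 : 0 < n) (k : ℤ) :
    c6 0 (Pi.single (⟨0, h0⟩ : Fin n) (-k)) = Pi.single (⟨0, h0⟩ : Fin n) (k + 1) := by
  funext p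
  have e : c6 0 (Pi.single (⟨0, h0⟩ : Fin n) (-k)) p =
      if p.val = 0 then 1 - (Pi.single (⟨0, h0⟩ : Fin n) (-k) : Fin n → ℤ) p
      else (Pi.single (⟨0, h0⟩ : Fin n) (-k) : Fin n → ℤ) p := by
    simp [c6]
  rw [e, Pi.single_apply, Pi.single_apply]
  by_cases hp : p = ⟨0, h0⟩
  · have h1 : p.val = 0 := by rw [hp]
    rw [if_pos h1, if_pos hp, if_pos hp]
    ring
  · have h1 : ¬ p.val = 0 := fun h => hp (Fin.ext h)
    rw [if_neg h1, if_neg hp, if_neg hp]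

theorem orb_nat (h0 : 0 < n) (k : ℕ) : Orb m n (Pi.single (⟨0, h0⟩ : Fin n) (k : ℤ)) := by
  induction k with
  | zero =>
    rw [Nat.cast_zero, Pi.single_zero]
    exact orb_zero
  | succ k ih =>
    have h1 := orb_up h0 ih (n - 1) (by omega)
    have h2 := orb_c6 h1 n le_rfl
    rw [single_neg h0] at h2
    have h3 := orb_c6 (orb_down h0 (n - 1) (by omega) h2) 0 (by omega)
    rw [single_c0] at h3
    rw [Nat.cast_succ]
    exact h3

/-- the stabiliser of the base vertex -/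
theorem fix0 {h : Equiv.Perm ((Fin n → ℤ) × ZMod m)} (hh : h ∈ (S6 m n).par {j | j ≠ 0}) :
    h (0, 0) = (0, 0) := by
  refine Subgroup.closure_induction (p := fun h _ => h (0, 0) = (0, 0)) ?_ rfl ?_ ?_ hh
  · rintro _ ⟨j, hj, rfl⟩
    have hj0 : j.val ≠ 0 := fun e => hj (Fin.ext e)
    show m6 m j (0, 0) = (0, 0)
    rw [m6]
    refine Prod.ext ?_ ?_
    · funext p
      show c6 j.val 0 p = 0
      by_cases h1 : j.val < n
      · simp [c6, hj0, h1]
      · by_cases h2 : p.val + 1 = n <;> simp [c6, hj0, h1, h2]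
    · show q6 j.val 0 = 0
      by_cases h1 : j.val = 1 <;> simp [q6, hj0, h1]
  · intro a b _ _ ha hb
    rw [Equiv.Perm.mul_apply, hb, ha]
  · intro a _ ha
    rw [Equiv.Perm.inv_eq_iff_eq]
    exact ha.symm

theorem infinite (h0 : 0 < n) : Infinite (CPos (S6 m n)) := by
  choose g hg hk using fun k : ℕ => orb_nat (m := m) h0 k
  let F : ℕ → CFace (S6 m n) := fun k =>
    ⟨0, {p | ∃ h ∈ (S6 m n).par {j | j ≠ 0}, p = g k * h}, g k, hg k, rfl⟩
  refine Infinite.of_injective (fun k => (some (some (F k)) : CPos (S6 m n))) ?_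
  intro k l hkl
  have h1 : F k = F l := Option.some_injective _ (Option.some_injective _ hkl)
  have h2 : g k ∈ (F l).coset := by
    rw [← h1]
    exact ⟨1, one_mem _, (mul_one _).symm⟩
  obtain ⟨h, hh, e⟩ := h2
  have h3 : g k (0, 0) = g l (0, 0) := by
    rw [e, Equiv.Perm.mul_apply, fix0 hh]
  have h4 : (Pi.single (⟨0, h0⟩ : Fin n) (k : ℤ) : Fin n → ℤ) = Pi.single ⟨0, h0⟩ (l : ℤ) := by
    rw [← hk k, ← hk l, h3]
  exact Int.ofNat.inj (Pi.single_injective _ h4)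

end ED6

theorem t_ED6 : S_ED6 := by
  intro m n hm hn
  refine ⟨fun r s hs => ?_, ED6.infinite (by omega)⟩
  obtain ⟨δ, hδ, hδ'⟩ := ED6.gap hm r
  refine DiscreteTopology.of_forall_le_dist (r := min 1 δ) (lt_min one_pos hδ) ?_
  intro x y hxy
  obtain ⟨a, ha⟩ := hs x.2
  obtain ⟨b, hb⟩ := hs y.2
  have hne : F6 n r a ≠ F6 n r b := by
    rw [ha, hb]
    exact fun e => hxy (Subtype.ext e)
  have h := ED6.sep r hδ' a b hne
  rw [ha, hb] at h
  exact h

end

end FOI
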