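import Pool.Agent.FOI.CStmts

/-!
# Module EIG: eigenvalues along a chain of subspaces

`A` is a scalar on the line `W 1`; if `A` is the scalar `ε` on `W (i + 1)` and `B_i v` is not in
`W (i + 1)`, `v ∈ W (i + 1)`, then `A (B_i v) = B_i (A v) = ε B_i v`, and `W (i + 2)` is the sum of
`W (i + 1)` and the line of `B_i v`.
-/

namespace FOI

open Lib_helper64.FO FO2 FOK
open scoped RealInnerProductSpace

namespace EIG

/-- an involution that preserves a line is `1` or `-1` on it -/
theorem line {d : ℕ} {W : Submodule ℝ (E d)} (h : Module.finrank ℝ W = 1) {A : E d ≃ₗᵢ[ℝ] E d}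
    (hA : ∀ v ∈ W, A v ∈ W) (hA2 : ∀ v ∈ W, A (A v) = v) :
    ∃ ε : ℝ, (ε = 1 ∨ ε = -1) ∧ ∀ v ∈ W, A v = ε • v := by
  obtain ⟨v, hv0, hv⟩ := finrank_eq_one_iff'.1 h
  obtain ⟨c, hc⟩ := hv ⟨A v, hA v v.2⟩
  have hc' : A v = c • (v : E d) := (congrArg Subtype.val hc).symm
  have h2 : A (A v) = (c * c) • (v : E d) := by rw [hc', map_smul, hc', smul_smul]
  rw [hA2 v v.2] at h2
  have hcc : c * c = 1 := by
    have h3 : (1 - c * c) • (v : E d) = 0 := by rw [sub_smul, one_smul, ← h2, sub_self]
    rcases smul_eq_zero.1 h3 with h4 | h4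
    · linarith
    · exact absurd (Subtype.ext h4) hv0
  refine ⟨c, mul_self_eq_one_iff.1 hcc, fun w hw => ?_⟩
  obtain ⟨e, he⟩ := hv ⟨w, hw⟩
  have he' : w = e • (v : E d) := (congrArg Subtype.val he).symm
  rw [he', map_smul, hc', smul_comm]

end EIG

/-- S_EIG -/
theorem t_EIG : S_EIG := by
  intro d b W A B hmono hdim hA hA2 hB
  have mono' : ∀ n i, i + n = b → W i ≤ W b := by
    intro n
    induction n with
    | zero =>
      intro i hi
      rw [Nat.add_zero] at hi
      rw [hi]
    | succ n ih =>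
      intro i hi
      exact (hmono i (by omega)).trans (ih (i + 1) (by omega))
  have mono : ∀ i, i ≤ b → W i ≤ W b := fun i hi => mono' (b - i) i (by omega)
  have key : ∀ m, m ≤ b → ∃ ε : ℝ, (ε = 1 ∨ ε = -1) ∧ ∀ v ∈ W m, A v = ε • v := by
    intro m
    induction m with
    | zero =>
      intro _
      refine ⟨1, Or.inl rfl, fun v hv => ?_⟩
      have h0 : W 0 = ⊥ := Submodule.finrank_eq_zero.1 (hdim 0 (Nat.zero_le b))
      rw [h0, Submodule.mem_bot] at hv
      rw [hv, map_zero, smul_zero]
    | succ m ih =>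
      intro hm
      rcases Nat.eq_zero_or_pos m with rfl | hpos
      · exact EIG.line (hdim _ hm) (hA _ hm) fun v hv => hA2 v (mono _ hm hv)
      · obtain ⟨ε, h1, h2⟩ := ih (by omega)
        refine ⟨ε, h1, ?_⟩
        obtain ⟨i, rfl⟩ : ∃ i, m = i + 1 := ⟨m - 1, by omega⟩
        obtain ⟨hc, hp, v, hv, hBv⟩ := hB i hm
        have hv2 : B i v ∈ W (i + 1 + 1) :=
          hp (i + 1 + 1) hm (by omega) v (hmono (i + 1) (by omega) hv)
        have hABv : A (B i v) = ε • B i v := by
          rw [hc v (mono (i + 1) (by omega) hv), h2 v hv, map_smul]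
        have hle : W (i + 1) ⊔ Submodule.span ℝ {B i v} ≤ W (i + 1 + 1) :=
          sup_le (hmono (i + 1) (by omega))
            ((Submodule.span_singleton_le_iff_mem _ _).2 hv2)
        have hlt : W (i + 1) < W (i + 1) ⊔ Submodule.span ℝ {B i v} := by
          refine lt_of_le_of_ne le_sup_left fun he => hBv ?_
          rw [he]
          exact Submodule.mem_sup_right (Submodule.mem_span_singleton_self _)
        have hfr := Submodule.finrank_lt_finrank_of_lt hlt
        rw [hdim (i + 1) (by omega)] at hfr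
        have heq : W (i + 1) ⊔ Submodule.span ℝ {B i v} = W (i + 1 + 1) := by
          apply Submodule.eq_of_le_of_finrank_le hle
          rw [hdim (i + 1 + 1) hm]
          omega
        intro w hw
        rw [← heq, Submodule.mem_sup] at hw
        obtain ⟨y, hy, z, hz, rfl⟩ := hw
        obtain ⟨c, rfl⟩ := Submodule.mem_span_singleton.1 hz
        rw [map_add, map_smul, h2 y hy, hABv, smul_add, smul_comm]
  exact key b le_rfl

end FOI
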