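import Pool.Agent.FOI.EStmts

/-!
# Module EM6: the model and the formula for the vertices
-/

namespace FOI

open Lib_helper64.FO FO2 FOK
open scoped RealInnerProductSpace

noncomputable section

namespace EM6

/-- the exchange of two coordinates -/
def ex {D : ℕ} (p q : Fin D) : E D ≃ₗᵢ[ℝ] E D :=
  LinearIsometryEquiv.piLpCongrLeft 2 ℝ ℝ (Equiv.swap p q)

theorem ex_apply {D : ℕ} (p q : Fin D) (v : E D) (i : Fin D) :
    ex p q v i = v (Equiv.swap p q i) := by
  simp [ex, LinearIsometryEquiv.piLpCongrLeft_apply, Equiv.piCongrLeft'_apply]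

/-- the change of the sign of a coordinate -/
def sc {D : ℕ} (p : Fin D) : E D ≃ₗᵢ[ℝ] E D :=
  LinearIsometryEquiv.piLpCongrRight 2
    (fun i => if i = p then LinearIsometryEquiv.neg ℝ else LinearIsometryEquiv.refl ℝ ℝ)

theorem sc_apply {D : ℕ} (p : Fin D) (v : E D) (i : Fin D) :
    sc p v i = if i = p then - v i else v i := by
  by_cases h : i = p
  · simp [sc, LinearIsometryEquiv.piLpCongrRight_apply, h]
  · simp [sc, LinearIsometryEquiv.piLpCongrRight_apply, h]

/-- the generators -/
def gg (n j : ℕ) : E (n + 1) ≃ₗᵢ[ℝ] E (n + 1) :=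
  if h : j + 1 < n then ex ⟨j, by omega⟩ ⟨j + 1, by omega⟩
  else if h' : j + 1 = n then sc ⟨j, by omega⟩ else LinearIsometryEquiv.refl ℝ _

/-- basis vector -/
def bs {D : ℕ} (i : Fin D) : E D := EuclideanSpace.single i (1 : ℝ)

theorem bs_apply {D : ℕ} (i k : Fin D) : bs i k = if k = i then (1 : ℝ) else 0 := by
  simp [bs]

theorem in_bs {D : ℕ} (i : Fin D) (v : E D) : (⟪bs i, v⟫ : ℝ) = v i := by
  rw [bs, EuclideanSpace.inner_single_left]
  simp

theorem norm_bs {D : ℕ} (i : Fin D) : ‖bs i‖ = 1 := by
  rw [bs, EuclideanSpace.norm_single]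
  simp

theorem cro (n : ℕ) : CroM n 1 (ℝ ∙ bs (Fin.last n))ᗮ (bs (0 : Fin (n + 1))) (gg n) := by
  refine ⟨fun i => bs i.castSucc, ?_, ?_, ?_, ?_⟩
  · intro i
    rw [Submodule.mem_orthogonal_singleton_iff_inner_right, in_bs, bs_apply, if_neg]
    intro h
    have := congrArg Fin.val h
    simp only [Fin.val_last, Fin.val_castSucc] at this
    omega
  · rw [orthonormal_iff_ite]
    intro i j
    rw [in_bs, bs_apply]
    by_cases h : i = j
    · rw [if_pos h, if_pos (by rw [h])]
    · rw [if_neg h, if_neg (fun e => h (Fin.castSucc_injective _ e))]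
  · intro h
    rfl
  · intro j i
    by_cases h : j.val + 1 < n
    · rw [dif_pos h]
      have e : gg n j = ex ⟨j, by omega⟩ ⟨j.val + 1, by omega⟩ := by
        rw [gg, dif_pos h]
      rw [e]
      have key : ∀ k : Fin (n + 1), ex ⟨j, by omega⟩ ⟨j.val + 1, by omega⟩ (bs i.castSucc) k =
          bs (Equiv.swap j ⟨j.val + 1, h⟩ i).castSucc k := by
        intro k
        rw [ex_apply, bs_apply, bs_apply]
        have h2 : (Equiv.swap (⟨j, by omega⟩ : Fin (n + 1)) ⟨j.val + 1, by omega⟩ k = i.castSucc) ↔
            k = (Equiv.swap j ⟨j.val + 1, h⟩ i).castSucc := by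
          rw [Equiv.apply_eq_iff_eq_symm_apply, Equiv.symm_swap]
          have h3 : Equiv.swap (⟨j, by omega⟩ : Fin (n + 1)) ⟨j.val + 1, by omega⟩ i.castSucc =
              (Equiv.swap j ⟨j.val + 1, h⟩ i).castSucc := by
            rcases eq_or_ne i j with e | e
            · subst e
              rw [Equiv.swap_apply_left]
              exact Equiv.swap_apply_left _ _
            · rcases eq_or_ne i ⟨j.val + 1, h⟩ with e' | e'
              · subst e'
                rw [Equiv.swap_apply_right]
                exact Equiv.swap_apply_right _ _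
              · rw [Equiv.swap_apply_of_ne_of_ne e e']
                apply Equiv.swap_apply_of_ne_of_ne
                · intro he
                  apply e
                  apply Fin.ext
                  have := congrArg Fin.val he
                  simpa using this
                · intro he
                  apply e'
                  apply Fin.ext
                  have := congrArg Fin.val he
                  simpa using this
          rw [h3]
        by_cases h4 : k = (Equiv.swap j ⟨j.val + 1, h⟩ i).castSucc
        · rw [if_pos h4, if_pos (h2.2 h4)]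
        · rw [if_neg h4, if_neg (fun h5 => h4 (h2.1 h5))]
      by_cases h1 : j.val = 1 ∧ 3 ≤ i.val
      · rw [if_pos h1, one_smul]
        have h5 : Equiv.swap j ⟨j.val + 1, h⟩ i = i := by
          apply Equiv.swap_apply_of_ne_of_ne
          · intro he
            rw [he] at h1
            omega
          · intro he
            rw [he] at h1
            simp only at h1
            omega
        ext k
        rw [key k, h5]
      · rw [if_neg h1]
        ext k
        exact key k
    · rw [dif_neg h]
      have hj : j.val + 1 = n := by omega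
      have e : gg n j = sc ⟨j, by omega⟩ := by
        rw [gg, dif_neg h, dif_pos hj]
      rw [e]
      ext k
      rw [sc_apply]
      by_cases h1 : i = j
      · rw [if_pos h1]
        subst h1
        rw [PiLp.neg_apply]
        by_cases h2 : k = ⟨i, by omega⟩
        · rw [if_pos h2]
        · rw [if_neg h2, bs_apply, if_neg, neg_zero]
          intro h3
          exact h2 (by rw [h3]; rfl)
      · rw [if_neg h1]
        by_cases h2 : k = ⟨j, by omega⟩
        · rw [if_pos h2, bs_apply, if_neg, neg_zero]
          intro h3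
          apply h1
          rw [h2] at h3
          have := congrArg Fin.val h3
          simp only [Fin.val_castSucc] at this
          exact (Fin.ext this).symm
        · rw [if_neg h2]

/-- the first `n` coordinates -/
def io {n : ℕ} (z : Fin n → ℤ) : E (n + 1) :=
  WithLp.toLp 2 fun i : Fin (n + 1) => if h : i.val < n then (z ⟨i.val, h⟩ : ℝ) else 0

theorem io_apply {n : ℕ} (z : Fin n → ℤ) (i : Fin (n + 1)) :
    io z i = if h : i.val < n then (z ⟨i.val, h⟩ : ℝ) else 0 := rfl

theorem F6_eq {n m : ℕ} (r : ZMod m → ℝ) (x : (Fin n → ℤ) × ZMod m) :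
    F6 n r x = io x.1 + r x.2 • bs (Fin.last n) := by
  ext i
  rw [PiLp.add_apply, PiLp.smul_apply, io_apply, bs_apply]
  change (if h : i.val < n then (x.1 ⟨i.val, h⟩ : ℝ) else r x.2) = _
  by_cases h : i.val < n
  · rw [dif_pos h, dif_pos h, if_neg, smul_zero, add_zero]
    intro e
    rw [e] at h
    simp at h
  · have e : i = Fin.last n := by
      apply Fin.ext
      simp only [Fin.val_last]
      omega
    rw [dif_neg h, dif_neg h, if_pos e, zero_add, smul_eq_mul, mul_one]

theorem io_c6_0 {n : ℕ} (hn : 3 ≤ n) (z : Fin n → ℤ) :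
    io (c6 0 z) = sref (bs (0 : Fin (n + 1))) (io z) + bs 0 := by
  ext i
  rw [PiLp.add_apply, sref, PiLp.sub_apply, PiLp.smul_apply, in_bs, io_apply, io_apply, io_apply,
    bs_apply]
  by_cases h0 : i = 0
  · subst h0
    have h : ((0 : Fin (n + 1)).val) < n := by
      change 0 < n
      omega
    rw [dif_pos h, dif_pos h, if_pos rfl]
    have e : c6 0 z ⟨(0 : Fin (n + 1)).val, h⟩ = 1 - z ⟨(0 : Fin (n + 1)).val, h⟩ := by
      simp [c6]
    rw [e]
    push_cast
    rw [smul_eq_mul]
    ring
  · rw [if_neg h0, smul_zero, sub_zero, add_zero]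
    by_cases h : i.val < n
    · rw [dif_pos h, dif_pos h]
      have e : c6 0 z ⟨i.val, h⟩ = z ⟨i.val, h⟩ := by
        have : ¬ i.val = 0 := fun e => h0 (Fin.ext e)
        simp [c6, this]
      rw [e]
    · rw [dif_neg h, dif_neg h]

theorem io_c6_s {n : ℕ} (j : ℕ) (h0 : j ≠ 0) (hj : j ≤ n) (z : Fin n → ℤ) :
    io (c6 j z) = gg n (j - 1) (io z) := by
  by_cases h1 : j < n
  · have e : gg n (j - 1) = ex ⟨j - 1, by omega⟩ ⟨j, by omega⟩ := by
      rw [gg, dif_pos (by omega)]
      have : (⟨j - 1 + 1, by omega⟩ : Fin (n + 1)) = ⟨j, by omega⟩ := Fin.ext (by simp only; omega)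
      rw [this]
    rw [e]
    ext i
    rw [ex_apply, io_apply, io_apply]
    by_cases h : i.val < n
    · have hs : Equiv.swap (⟨j - 1, by omega⟩ : Fin (n + 1)) ⟨j, by omega⟩ i =
          (Equiv.swap (⟨j - 1, by omega⟩ : Fin n) ⟨j, h1⟩ ⟨i.val, h⟩).castSucc := by
        obtain ⟨i, hi⟩ := i
        simp only at h
        by_cases e : i = j - 1
        · subst e
          rw [Equiv.swap_apply_left]
          have := Equiv.swap_apply_left (⟨j - 1, by omega⟩ : Fin n) ⟨j, h1⟩
          rw [this]
          rfl
        · by_cases e' : i = j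
          · subst e'
            rw [Equiv.swap_apply_right]
            have := Equiv.swap_apply_right (⟨i - 1, by omega⟩ : Fin n) ⟨i, h1⟩
            rw [this]
            rfl
          · have f1 := Equiv.swap_apply_of_ne_of_ne (a := (⟨j - 1, by omega⟩ : Fin (n + 1)))
              (b := ⟨j, by omega⟩) (x := ⟨i, hi⟩) (fun he => e (congrArg Fin.val he))
              (fun he => e' (congrArg Fin.val he))
            have f2 := Equiv.swap_apply_of_ne_of_ne (a := (⟨j - 1, by omega⟩ : Fin n))
              (b := ⟨j, h1⟩) (x := ⟨i, h⟩) (fun he => e (congrArg Fin.val he))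
              (fun he => e' (congrArg Fin.val he))
            rw [f1, f2]
            rfl
      have h2 : (Equiv.swap (⟨j - 1, by omega⟩ : Fin (n + 1)) ⟨j, by omega⟩ i).val < n := by
        rw [hs, Fin.val_castSucc]
        exact Fin.is_lt _
      rw [dif_pos h, dif_pos h2]
      have e1 : c6 j z ⟨i.val, h⟩ = z (Equiv.swap ⟨j - 1, by omega⟩ ⟨j, h1⟩ ⟨i.val, h⟩) := by
        simp only [c6]
        rw [if_neg h0, dif_pos h1]
      have e2 : (⟨(Equiv.swap (⟨j - 1, by omega⟩ : Fin (n + 1)) ⟨j, by omega⟩ i).val, h2⟩ : Fin n) =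
          Equiv.swap ⟨j - 1, by omega⟩ ⟨j, h1⟩ ⟨i.val, h⟩ := by
        apply Fin.ext
        simp only
        rw [hs, Fin.val_castSucc]
      rw [e1, e2]
    · have hs : Equiv.swap (⟨j - 1, by omega⟩ : Fin (n + 1)) ⟨j, by omega⟩ i = i := by
        apply Equiv.swap_apply_of_ne_of_ne
        · intro e
          rw [e] at h
          simp only at h
          omega
        · intro e
          rw [e] at h
          simp only at h
          omega
      rw [hs, dif_neg h, dif_neg h]
  · have hj' : j = n := by omega
    subst hj'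
    have e : gg j (j - 1) = sc ⟨j - 1, by omega⟩ := by
      rw [gg, dif_neg (by omega), dif_pos (by omega)]
    rw [e]
    ext i
    rw [sc_apply, io_apply, io_apply]
    by_cases h : i.val < j
    · rw [dif_pos h, dif_pos h]
      have e1 : c6 j z ⟨i.val, h⟩ = if i.val + 1 = j then - z ⟨i.val, h⟩ else z ⟨i.val, h⟩ := by
        simp only [c6]
        rw [if_neg h0, dif_neg h1]
      rw [e1]
      by_cases h2 : i.val + 1 = j
      · rw [if_pos h2, if_pos (Fin.ext (by simp only; omega))]
        push_cast
        rfl
      · rw [if_neg h2, if_neg]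
        intro h3
        apply h2
        have := congrArg Fin.val h3
        simp only at this
        omega
    · rw [dif_neg h, dif_neg h]
      split_ifs
      · rw [neg_zero]
      · rfl

theorem formula {n : ℕ} (hn : 3 ≤ n) (m : ℕ) (w : List (Fin (n + 1))) :
    io ((w.map (S6 m n).σ).prod (0, 0)).1 = wR true 1 (gg n) (bs 0) (bs 0) w := by
  induction w with
  | nil =>
    change io (0 : Fin n → ℤ) = 0
    ext i
    rw [io_apply]
    split_ifs
    · simp
    · rfl
  | cons j w ih =>
    rw [List.map_cons, List.prod_cons, Equiv.Perm.mul_apply]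
    have h1 : ((S6 m n).σ j ((w.map (S6 m n).σ).prod (0, 0))).1 =
        c6 j.val ((w.map (S6 m n).σ).prod (0, 0)).1 := rfl
    rw [h1, wR]
    by_cases h0 : j.val = 0
    · rw [if_pos h0, h0, io_c6_0 hn, ih]
      rfl
    · rw [if_neg h0, io_c6_s j.val h0 (by omega), ih]
      have h2 : (if j.val = 1 then sg 1 else (1 : ℝ)) = 1 := by
        split_ifs
        · simp [Lib_helper64.FO.sg]
        · rfl
      rw [h2, one_smul]

end EM6

open EM6 in
theorem t_EM6 : S_EM6 := by
  intro n hn
  refine ⟨bs (Fin.last n), bs 0, gg n, norm_bs _, ?_, cro n, ?_⟩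
  · intro h
    have := norm_bs (0 : Fin (n + 1))
    rw [h, norm_zero] at this
    exact zero_ne_one this
  · intro m r w
    rw [F6_eq, formula hn]

end

end FOI
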