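import Pool.Agent.FOI.EStmts
import Pool.Agent.FOK.QEN

/-!
# FOI, module EN6: the data of the polygons and their indices
-/

set_option autoImplicit false

namespace FOI

open Lib_helper64.FO FO2 FOK FOK.QEN
open scoped RealInnerProductSpace

noncomputable section

namespace EN6

variable {k d : ℕ}

/-- the datum -/
def mk [NeZero k] (hd : 2 ≤ d) (r : ZMod k → ℝ) : Datum d (ZMod k) where
  π := p k
  a0 := 0
  r := r
  sq j := Equiv.ext fun a => q_q j a
  comm i j hij := by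
    ext a
    rw [Equiv.Perm.mul_apply, Equiv.Perm.mul_apply, p_apply j, p_apply j]
    have h0 : j.val ≠ 0 := by omega
    have h1 : j.val ≠ 1 := by omega
    simp only [q, if_neg h0, if_neg h1]
  fix j hj := by
    have h0 : j.val ≠ 0 := by omega
    rw [p_apply, q, if_neg h0]
    split_ifs
    · exact neg_zero
    · rfl
  trans a := ⟨T a, T_mem hd a, by rw [T_apply, zero_add]⟩

theorem mk_C [NeZero k] (hd : 2 ≤ d) (r : ZMod k → ℝ) (u : Equiv.Perm (ZMod k)) :
    u ∈ (mk hd r).C ↔ QEN.G u := by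
  constructor
  · intro h
    exact G_of_mem (d := d) h
  · rintro (⟨c, rfl⟩ | ⟨c, rfl⟩)
    · exact T_mem hd c
    · exact S_mem hd c

theorem is6 [NeZero k] (hd : 2 ≤ d) (r : ZMod k → ℝ) : Is6 r (mk hd r) :=
  ⟨rfl, rfl, fun _ _ => rfl⟩

theorem card_C [NeZero k] (hk : 3 ≤ k) (hd : 2 ≤ d) (r : ZMod k → ℝ) :
    Nat.card (mk hd r).C = k * 2 := by
  have hc : Nat.card (ZMod k × Bool) = k * 2 := by
    rw [Nat.card_prod, Nat.card_zmod, Nat.card_eq_fintype_card, Fintype.card_bool]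
  rw [← hc]
  symm
  refine Nat.card_congr (Equiv.ofBijective (fun x : ZMod k × Bool =>
    (⟨if x.2 then T x.1 else QEN.S x.1, ?_⟩ : (mk hd r).C)) ⟨?_, ?_⟩)
  · rw [mk_C]
    cases x.2
    · exact Or.inr ⟨x.1, rfl⟩
    · exact Or.inl ⟨x.1, rfl⟩
  · rintro ⟨c, b⟩ ⟨c', b'⟩ h
    have h' := congrArg Subtype.val h
    cases b <;> cases b'
    · exact Prod.ext (S_inj h') rfl
    · exact absurd h'.symm (T_ne_S hk _ _)
    · exact absurd h' (T_ne_S hk _ _)
    · exact Prod.ext (T_inj h') rfl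
  · rintro ⟨u, hu⟩
    have hu' := hu
    rw [mk_C] at hu'
    rcases hu' with ⟨c, rfl⟩ | ⟨c, rfl⟩
    · exact ⟨(c, true), rfl⟩
    · exact ⟨(c, false), rfl⟩

/-- the sum of an antisymmetric function is `0` -/
theorem sum_zero [NeZero k] {r : ZMod k → ℝ} (hr : ∀ a, r (1 - a) = - r a) : ∑ a, r a = 0 := by
  have h1 : ∑ a, r (1 - a) = ∑ a, r a := Equiv.sum_comp (Equiv.subLeft (1 : ZMod k)) r
  have h2 : ∑ a, r (1 - a) = - ∑ a, r a := by
    rw [← Finset.sum_neg_distrib]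
    exact Finset.sum_congr rfl fun a _ => hr a
  linarith

theorem HR_iff [NeZero k] (hd : 2 ≤ d) {r : ZMod k → ℝ} (hr : ∀ a, r (1 - a) = - r a)
    (u : Equiv.Perm (ZMod k)) :
    u ∈ (mk hd r).HR ↔ (∀ a, r (u a) = r a) ∨ ∀ a, r (u a) = - r a := by
  constructor
  · rintro ⟨s, c, hs, h⟩
    have h0 : ∀ a, r (u a) = s * r a + c := h
    have h1 := sum_zero hr
    have h2 : ∑ a, r (u a) = 0 := by
      rw [Equiv.sum_comp u r, h1]
    have hk : (0 : ℝ) < k := by
      have := Nat.pos_of_ne_zero (NeZero.ne k)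
      exact_mod_cast this
    have hc : c = 0 := by
      rw [Finset.sum_congr rfl fun a _ => h0 a, Finset.sum_add_distrib, ← Finset.mul_sum, h1,
        mul_zero, zero_add, Finset.sum_const, Finset.card_univ, ZMod.card, nsmul_eq_mul,
        mul_eq_zero] at h2
      exact h2.resolve_left hk.ne'
    rcases hs with rfl | rfl
    · left
      intro a
      rw [h0, hc, one_mul, add_zero]
    · right
      intro a
      rw [h0, hc, add_zero, neg_one_mul]
  · rintro (h | h)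
    · exact ⟨1, 0, Or.inl rfl, fun a => by rw [one_mul, add_zero]; exact h a⟩
    · exact ⟨-1, 0, Or.inr rfl, fun a => by rw [neg_one_mul, add_zero]; exact h a⟩

/-! ### `k ≥ 3` -/

/-- the function `r` -/
def rb (k : ℕ) (a : ZMod k) : ℝ :=
  if a.val = 0 then -1 else if a.val = 1 then 1 else 2 * (2 * (a.val : ℝ) - k - 1)

theorem val_sub [NeZero k] (hk : 3 ≤ k) (a : ZMod k) :
    (1 - a).val = if a.val = 0 then 1 else if a.val = 1 then 0 else k + 1 - a.val := by
  have hlt : a.val < k := ZMod.val_lt a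
  have ha : a = ((a.val : ℕ) : ZMod k) := (ZMod.natCast_zmod_val a).symm
  split_ifs with h0 h1
  · have : a = 0 := by rw [ha, h0, Nat.cast_zero]
    rw [this, sub_zero]
    have h1 : ((1 : ℕ) : ZMod k).val = 1 := ZMod.val_natCast_of_lt (by omega)
    rwa [Nat.cast_one] at h1
  · have : a = 1 := by rw [ha, h1, Nat.cast_one]
    rw [this, sub_self, ZMod.val_zero]
  · have h2 : (1 - a : ZMod k) = ((k + 1 - a.val : ℕ) : ZMod k) := by
      rw [Nat.cast_sub (by omega), ← ha]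
      push_cast
      rw [ZMod.natCast_self, zero_add]
    rw [h2]
    exact ZMod.val_natCast_of_lt (by omega)

theorem rb_neg [NeZero k] (hk : 3 ≤ k) (a : ZMod k) : rb k (1 - a) = - rb k a := by
  have hlt : a.val < k := ZMod.val_lt a
  rw [rb, rb, val_sub hk]
  by_cases h0 : a.val = 0
  · simp [h0]
  · by_cases h1 : a.val = 1
    · simp [h1]
    · rw [if_neg h0, if_neg h1, if_neg h0, if_neg h1, if_neg (by omega), if_neg (by omega),
        Nat.cast_sub (by omega)]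
      push_cast
      ring

theorem rb_inj [NeZero k] : Function.Injective (rb k) := by
  intro a b h
  apply ZMod.val_injective k
  -- the values are odd or even
  have key : ∀ x y : ℤ, (2 * (2 * (x : ℝ) - k - 1) = 2 * (2 * (y : ℝ) - k - 1)) → x = y := by
    intro x y e
    have : (x : ℝ) = y := by linarith
    exact_mod_cast this
  have k1 : ∀ v : ℕ, 2 * (2 * (v : ℝ) - k - 1) ≠ 1 := by
    intro v e
    have : (2 * (2 * (v : ℤ) - k - 1) : ℤ) = 1 := by exact_mod_cast e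
    omega
  have k2 : ∀ v : ℕ, 2 * (2 * (v : ℝ) - k - 1) ≠ -1 := by
    intro v e
    have : (2 * (2 * (v : ℤ) - k - 1) : ℤ) = -1 := by exact_mod_cast e
    omega
  rw [rb, rb] at h
  split_ifs at h with h0 h1 h2 h3 h4 h5 h6 h7
  all_goals first
    | omega
    | (exfalso; norm_num at h; done)
    | exact absurd h (k1 _)
    | exact absurd h (k2 _)
    | exact absurd h.symm (k1 _)
    | exact absurd h.symm (k2 _)
    | skip
  have : ((a.val : ℕ) : ℝ) = b.val := by linarith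
  exact_mod_cast this

theorem big (hk : 3 ≤ k) (hd : 2 ≤ d) : ∃ (m : ℕ) (r : ZMod m → ℝ) (M : Datum d (ZMod m)),
    3 ≤ m ∧ InjP r ∧ Is6 r M ∧ M.HR.relIndex M.C = k := by
  have : NeZero k := ⟨by omega⟩
  refine ⟨k, rb k, mk hd (rb k), hk, fun a b h _ => rb_inj h, is6 hd _, ?_⟩
  have h1 := Subgroup.card_mul_index ((mk hd (rb k)).HR.subgroupOf (mk hd (rb k)).C)
  rw [card_C hk hd] at h1
  have hmem : ∀ u : (mk hd (rb k)).C, u ∈ (mk hd (rb k)).HR.subgroupOf (mk hd (rb k)).C ↔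
      u.1 = T 0 ∨ u.1 = QEN.S 1 := by
    intro u
    rw [Subgroup.mem_subgroupOf, HR_iff hd (rb_neg hk)]
    constructor
    · rintro (h | h)
      · left
        ext a
        rw [rb_inj (h a), T_apply, add_zero]
      · right
        ext a
        have h2 := h a
        rw [← rb_neg hk] at h2
        rw [rb_inj h2, S_apply]
    · rintro (h | h)
      · left
        intro a
        rw [h, T_apply, add_zero]
      · right
        intro a
        rw [h, S_apply, rb_neg hk]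
  have hT : (T 0 : Equiv.Perm (ZMod k)) ∈ (mk hd (rb k)).C := T_mem hd 0
  have hS : (QEN.S 1 : Equiv.Perm (ZMod k)) ∈ (mk hd (rb k)).C := S_mem hd 1
  have h2 : ((mk hd (rb k)).HR.subgroupOf (mk hd (rb k)).C : Set (mk hd (rb k)).C) =
      {⟨T 0, hT⟩, ⟨QEN.S 1, hS⟩} := by
    ext u
    rw [SetLike.mem_coe, hmem, Set.mem_insert_iff, Set.mem_singleton_iff, Subtype.ext_iff,
      Subtype.ext_iff]
  have h3 : Nat.card ((mk hd (rb k)).HR.subgroupOf (mk hd (rb k)).C) = 2 := by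
    have h4 : Nat.card ((mk hd (rb k)).HR.subgroupOf (mk hd (rb k)).C) =
        Set.ncard ((mk hd (rb k)).HR.subgroupOf (mk hd (rb k)).C : Set (mk hd (rb k)).C) := rfl
    rw [h4, h2, Set.ncard_pair]
    intro e
    exact T_ne_S hk _ _ (congrArg Subtype.val e)
  rw [h3] at h1
  change ((mk hd (rb k)).HR.subgroupOf (mk hd (rb k)).C).index = k
  omega

/-! ### `k = 2` -/

/-- the set where `r` is positive -/
def P4 (a : ZMod 4) : Prop := a = 0 ∨ a = 3

instance : DecidablePred P4 := fun a => inferInstanceAs (Decidable (a = 0 ∨ a = 3))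

/-- the function `r` -/
def r4 (a : ZMod 4) : ℝ := if P4 a then 1 else -1

theorem r4_eq (a b : ZMod 4) : r4 a = r4 b ↔ (P4 a ↔ P4 b) := by
  rw [r4, r4]
  split_ifs with h1 h2 h2
  · simp [h1, h2]
  · simp only [h1, h2, iff_false, not_true_eq_false, iff_false]
    norm_num
  · simp only [h1, h2, iff_true]
    norm_num
  · simp [h1, h2]

theorem r4_eq_neg (a b : ZMod 4) : r4 a = - r4 b ↔ (P4 a ↔ ¬ P4 b) := by
  rw [r4, r4]
  split_ifs with h1 h2 h2
  · simp only [h1, h2, not_true_eq_false, iff_false]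
    norm_num
  · simp [h1, h2]
  · simp [h1, h2]
  · simp only [h1, h2, not_false_eq_true, iff_true]
    norm_num

theorem r4_neg (a : ZMod 4) : r4 (1 - a) = - r4 a := by
  rw [r4_eq_neg]
  revert a
  decide

theorem dec1 : ∀ a b : ZMod 4, (P4 a ↔ P4 b) →
    ZMod.castHom (by norm_num : 2 ∣ 4) (ZMod 2) a = ZMod.castHom (by norm_num : 2 ∣ 4) (ZMod 2) b →
    a = b := by
  decide

theorem dec2 : ∀ c : ZMod 4, ((∀ a, P4 (a + c) ↔ P4 a) ∨ (∀ a, P4 (a + c) ↔ ¬ P4 a)) ↔
    (c = 0 ∨ c = 2) := by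
  decide

theorem dec3 : ∀ c : ZMod 4, ((∀ a, P4 (c - a) ↔ P4 a) ∨ (∀ a, P4 (c - a) ↔ ¬ P4 a)) ↔
    ¬ (c = 0 ∨ c = 2) := by
  decide

theorem T_mem_HR (hd : 2 ≤ d) (c : ZMod 4) : T c ∈ (mk hd r4).HR ↔ (c = 0 ∨ c = 2) := by
  rw [HR_iff hd r4_neg, ← dec2]
  simp only [T_apply, r4_eq, r4_eq_neg]

theorem S_mem_HR (hd : 2 ≤ d) (c : ZMod 4) : QEN.S c ∈ (mk hd r4).HR ↔ ¬ (c = 0 ∨ c = 2) := by
  rw [HR_iff hd r4_neg, ← dec3]
  simp only [S_apply, r4_eq, r4_eq_neg]

theorem two (hd : 2 ≤ d) : ∃ (m : ℕ) (r : ZMod m → ℝ) (M : Datum d (ZMod m)),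
    3 ≤ m ∧ InjP r ∧ Is6 r M ∧ M.HR.relIndex M.C = 2 := by
  refine ⟨4, r4, mk hd r4, by norm_num, ?_, is6 hd _, ?_⟩
  · intro a b h h'
    exact dec1 a b ((r4_eq a b).1 h) (h' (by norm_num))
  · change ((mk hd r4).HR.subgroupOf (mk hd r4).C).index = 2
    rw [Subgroup.index_eq_two_iff]
    refine ⟨⟨QEN.S 0, S_mem hd 0⟩, ?_⟩
    rintro ⟨u, hu⟩
    rw [Subgroup.mem_subgroupOf, Subgroup.mem_subgroupOf]
    have hu' := hu
    rw [mk_C] at hu'
    rcases hu' with ⟨c, rfl⟩ | ⟨c, rfl⟩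
    · have e : (T c * QEN.S 0 : Equiv.Perm (ZMod 4)) = QEN.S c := by rw [T_mul_S, add_zero]
      change Xor (T c * QEN.S 0 ∈ (mk hd r4).HR) (T c ∈ (mk hd r4).HR)
      rw [e, T_mem_HR hd, S_mem_HR hd]
      by_cases h : c = 0 ∨ c = 2
      · exact Or.inr ⟨h, fun h' => h' h⟩
      · exact Or.inl ⟨h, h⟩
    · have e : (QEN.S c * QEN.S 0 : Equiv.Perm (ZMod 4)) = T c := by rw [S_mul_S, sub_zero]
      change Xor (QEN.S c * QEN.S 0 ∈ (mk hd r4).HR) (QEN.S c ∈ (mk hd r4).HR)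
      rw [e, T_mem_HR hd, S_mem_HR hd]
      by_cases h : c = 0 ∨ c = 2
      · exact Or.inl ⟨h, fun h' => h' h⟩
      · exact Or.inr ⟨h, h⟩

end EN6

theorem t_EN6 : S_EN6 := by
  intro k d hk hd
  rcases Nat.eq_or_lt_of_le hk with rfl | h
  · exact EN6.two hd
  · exact EN6.big h hd

end

end FOI
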