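import Pool.Agent.FOI.EStmts
import Pool.Agent.FO2.ADJ

/-!
# The mix of the cubical tessellation with a polygon: the conditions for faithfulness (V.3)
-/

namespace FOI

open Lib_helper64.FO FO2 FOK Equiv
open scoped RealInnerProductSpace

noncomputable section

namespace ER6

variable {n m : ℕ}

theorem aiv {α : Type} (π : Perm α) (i : α) : π (π⁻¹ i) = i := Equiv.apply_symm_apply π i

theorem iav {α : Type} (π : Perm α) (i : α) : π⁻¹ (π i) = i := Equiv.symm_apply_apply π i

/-- the space on which the generators act -/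
abbrev Y6 (n m : ℕ) : Type := (Fin n → ℤ) × ZMod m

/-- signed permutation of the coordinates -/
def sp (π : Perm (Fin n)) (ε : Fin n → ℤˣ) : Perm (Y6 n m) where
  toFun x := (fun i => (ε i : ℤ) * x.1 (π i), x.2)
  invFun x := (fun i => (ε (π⁻¹ i) : ℤ) * x.1 (π⁻¹ i), x.2)
  left_inv x := by
    obtain ⟨z, a⟩ := x
    refine Prod.ext ?_ rfl
    funext i
    simp only [aiv]
    rw [← mul_assoc, ← Units.val_mul, Int.units_mul_self]
    simp
  right_inv x := by
    obtain ⟨z, a⟩ := x
    refine Prod.ext ?_ rfl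
    funext i
    simp only [iav]
    rw [← mul_assoc, ← Units.val_mul, Int.units_mul_self]
    simp

theorem sp_apply (π : Perm (Fin n)) (ε : Fin n → ℤˣ) (z : Fin n → ℤ) (a : ZMod m) :
    sp π ε (z, a) = (fun i => (ε i : ℤ) * z (π i), a) := rfl

/-- `(1, neg)` -/
def ngp : Perm (Y6 n m) where
  toFun x := (x.1, - x.2)
  invFun x := (x.1, - x.2)
  left_inv x := by simp
  right_inv x := by simp

theorem ngp_apply (z : Fin n → ℤ) (a : ZMod m) : ngp (z, a) = (z, - a) := rfl

theorem ngp_ngp : (ngp : Perm (Y6 n m)) * ngp = 1 := by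
  ext1 x
  obtain ⟨z, a⟩ := x
  rw [Perm.mul_apply, ngp_apply, ngp_apply, neg_neg]
  rfl

/-- the homomorphism `π ↦ sp π⁻¹ 1` -/
def ps : Perm (Fin n) →* Perm (Y6 n m) where
  toFun π := sp π⁻¹ 1
  map_one' := by
    ext1 x
    obtain ⟨z, a⟩ := x
    rw [sp_apply]
    simp
  map_mul' π π' := by
    ext1 x
    obtain ⟨z, a⟩ := x
    rw [Perm.mul_apply, sp_apply, sp_apply, sp_apply]
    simp

theorem ps_apply (π : Perm (Fin n)) : (ps π : Perm (Y6 n m)) = sp π⁻¹ 1 := rfl

/-- the homomorphism `ε ↦ sp 1 ε` -/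
def ns : (Fin n → ℤˣ) →* Perm (Y6 n m) where
  toFun ε := sp 1 ε
  map_one' := by
    ext1 x
    obtain ⟨z, a⟩ := x
    rw [sp_apply]
    simp
  map_mul' ε ε' := by
    ext1 x
    obtain ⟨z, a⟩ := x
    rw [Perm.mul_apply, sp_apply, sp_apply, sp_apply]
    simp [mul_assoc]

theorem ns_apply (ε : Fin n → ℤˣ) : (ns ε : Perm (Y6 n m)) = sp 1 ε := rfl

theorem sp_eq (π : Perm (Fin n)) (ε : Fin n → ℤˣ) :
    (sp π ε : Perm (Y6 n m)) = ns ε * ps π⁻¹ := by
  ext1 x
  obtain ⟨z, a⟩ := x
  rw [Perm.mul_apply, ps_apply, ns_apply, sp_apply, sp_apply, sp_apply]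
  simp

/-- normal form -/
def NF (t : ℕ) (g : Perm (Y6 n m)) : Prop :=
  ∃ (π : Perm (Fin n)) (ε : Fin n → ℤˣ) (c : Fin n → ℤ) (u : ℤˣ) (c' : ZMod m),
    (∀ z a, g (z, a) = (fun i => (ε i : ℤ) * z (π i) + c i, ((u : ℤ) : ZMod m) * a + c')) ∧
    (1 ≤ t → c = 0 ∧ c' = 0) ∧ (2 ≤ t → u = 1) ∧ (∀ i : Fin n, i.val + 1 < t → π i = i ∧ ε i = 1)

theorem NF_one (t : ℕ) : NF t (1 : Perm (Y6 n m)) :=
  ⟨1, 1, 0, 1, 0, fun z a => by simp, fun _ => ⟨rfl, rfl⟩, fun _ => rfl, fun _ _ => ⟨rfl, rfl⟩⟩

theorem NF_mul {t : ℕ} {g g' : Perm (Y6 n m)} (h : NF t g) (h' : NF t g') : NF t (g * g') := by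
  obtain ⟨π, ε, c, u, e, h1, h2, h3, h4⟩ := h
  obtain ⟨π', ε', c', u', e', h1', h2', h3', h4'⟩ := h'
  refine ⟨π' * π, fun i => ε i * ε' (π i), fun i => (ε i : ℤ) * c' (π i) + c i, u * u',
    ((u : ℤ) : ZMod m) * e' + e, ?_, ?_, ?_, ?_⟩
  · intro z a
    rw [Perm.mul_apply, h1', h1]
    refine Prod.ext ?_ ?_
    · funext i
      simp only [Units.val_mul, Perm.mul_apply]
      ring
    · simp only [Units.val_mul, Int.cast_mul]
      ring
  · intro ht
    obtain ⟨rfl, rfl⟩ := h2 ht
    obtain ⟨rfl, rfl⟩ := h2' ht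
    refine ⟨?_, by simp⟩
    funext i
    simp
  · intro ht
    rw [h3 ht, h3' ht, mul_one]
  · intro i hi
    obtain ⟨a1, a2⟩ := h4 i hi
    obtain ⟨b1, b2⟩ := h4' i hi
    exact ⟨by rw [Perm.mul_apply, a1, b1], by simp only; rw [a1, a2, b2, mul_one]⟩

theorem NF_inv {t : ℕ} {g : Perm (Y6 n m)} (h : NF t g) : NF t g⁻¹ := by
  obtain ⟨π, ε, c, u, e, h1, h2, h3, h4⟩ := h
  refine ⟨π⁻¹, fun i => ε (π⁻¹ i), fun i => - ((ε (π⁻¹ i) : ℤ) * c (π⁻¹ i)), u,
    - (((u : ℤ) : ZMod m) * e), ?_, ?_, h3, ?_⟩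
  · intro z a
    rw [Perm.inv_eq_iff_eq, h1]
    refine Prod.ext ?_ ?_
    · funext i
      simp only [iav]
      have : ((ε i : ℤˣ) : ℤ) * (ε i : ℤ) = 1 := by
        rw [← Units.val_mul, Int.units_mul_self]; rfl
      calc z i = (((ε i : ℤˣ) : ℤ) * (ε i : ℤ)) * z i - (((ε i : ℤˣ) : ℤ) * (ε i : ℤ)) * c i + c i := by
            rw [this]; ring
        _ = _ := by ring
    · have : (((u : ℤ) : ZMod m)) * ((u : ℤ) : ZMod m) = 1 := by
        rw [← Int.cast_mul, ← Units.val_mul, Int.units_mul_self]; simp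
      calc a = (((u : ℤ) : ZMod m)) * ((u : ℤ) : ZMod m) * a -
            (((u : ℤ) : ZMod m)) * ((u : ℤ) : ZMod m) * e + e := by rw [this]; ring
        _ = _ := by ring
  · intro ht
    obtain ⟨rfl, rfl⟩ := h2 ht
    refine ⟨?_, by simp⟩
    funext i
    simp
  · intro i hi
    obtain ⟨a1, a2⟩ := h4 i hi
    have : π⁻¹ i = i := by rw [Perm.inv_eq_iff_eq, a1]
    exact ⟨this, by simp only; rw [this, a2]⟩

/-- the generators -/
theorem σ_apply (j : Fin (n + 1)) (z : Fin n → ℤ) (a : ZMod m) :
    (S6 m n).σ j (z, a) = (c6 j.val z, q6 j.val a) := rfl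

theorem σ_zero (j : Fin (n + 1)) (hj : j.val = 0) (z : Fin n → ℤ) (a : ZMod m) :
    (S6 m n).σ j (z, a) = (fun i => if i.val = 0 then 1 - z i else z i, 1 - a) := by
  rw [σ_apply, hj]
  refine Prod.ext ?_ ?_
  · funext i
    simp [c6]
  · simp [q6]

theorem σ_mid (j : Fin (n + 1)) (h0 : j.val ≠ 0) (hj : j.val < n) (z : Fin n → ℤ) (a : ZMod m) :
    (S6 m n).σ j (z, a) = (fun i => z (Equiv.swap ⟨j.val - 1, by omega⟩ ⟨j.val, hj⟩ i),
      if j.val = 1 then - a else a) := by
  rw [σ_apply]
  refine Prod.ext ?_ ?_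
  · funext i
    simp [c6, h0, hj]
  · simp [q6, h0]

theorem σ_last (hn : 3 ≤ n) (j : Fin (n + 1)) (hj : j.val = n) (z : Fin n → ℤ) (a : ZMod m) :
    (S6 m n).σ j (z, a) = (fun i => if i.val + 1 = n then - z i else z i, a) := by
  rw [σ_apply, hj]
  have h0 : n ≠ 0 := by omega
  have h1 : n ≠ 1 := by omega
  refine Prod.ext ?_ ?_
  · funext i
    simp [c6, h0]
  · simp [q6, h0, h1]

theorem NF_σ (hn : 3 ≤ n) {t : ℕ} (j : Fin (n + 1)) (hj : t ≤ j.val) : NF t ((S6 m n).σ j) := by
  by_cases h0 : j.val = 0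
  · refine ⟨1, fun i => if i.val = 0 then -1 else 1, fun i => if i.val = 0 then 1 else 0, -1, 1,
      ?_, fun h => by omega, fun h => by omega, fun i hi => by omega⟩
    intro z a
    rw [σ_zero j h0]
    refine Prod.ext ?_ ?_
    · funext i
      by_cases hi : i.val = 0
      · simp [hi]; ring
      · simp [hi]
    · simp; ring
  · by_cases h1 : j.val < n
    · refine ⟨Equiv.swap ⟨j.val - 1, by omega⟩ ⟨j.val, h1⟩, 1, 0, if j.val = 1 then -1 else 1, 0,
        ?_, fun _ => ⟨rfl, rfl⟩, ?_, ?_⟩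
      · intro z a
        rw [σ_mid j h0 h1]
        refine Prod.ext ?_ ?_
        · funext i
          simp
        · by_cases h2 : j.val = 1 <;> simp [h2]
      · intro ht
        rw [if_neg (by omega)]
      · intro i hi
        refine ⟨?_, rfl⟩
        apply Equiv.swap_apply_of_ne_of_ne
        · intro h
          have := congrArg Fin.val h
          simp only at this
          omega
        · intro h
          have := congrArg Fin.val h
          simp only at this
          omega
    · refine ⟨1, fun i => if i.val + 1 = n then -1 else 1, 0, 1, 0, ?_, fun _ => ⟨rfl, rfl⟩,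
        fun _ => rfl, ?_⟩
      · intro z a
        rw [σ_last hn j (by omega)]
        refine Prod.ext ?_ ?_
        · funext i
          by_cases hi : i.val + 1 = n
          · simp [hi]
          · simp [hi]
        · simp
      · intro i hi
        refine ⟨rfl, ?_⟩
        simp only
        rw [if_neg (by omega)]

theorem fwd (hn : 3 ≤ n) (t : ℕ) (g : Perm (Y6 n m)) {I : Set (Fin (n + 1))}
    (hI : ∀ j ∈ I, t ≤ j.val) (hg : g ∈ (S6 m n).par I) : NF t g := by
  refine Subgroup.closure_induction (p := fun g _ => NF t g) ?_ (NF_one t)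
    (fun x y _ _ h h' => NF_mul h h') (fun x _ h => NF_inv h) hg
  rintro _ ⟨j, hj, rfl⟩
  exact NF_σ hn j (hI j hj)

/-- a subgroup that contains the exchanges of neighbours and the last change of sign -/
theorem bwd (t : ℕ) (ht : 1 ≤ t) (K : Subgroup (Perm (Y6 n m)))
    (hK : ∀ (j : ℕ) (hj : j + 1 < n), t ≤ j + 1 → ps (Equiv.swap ⟨j, by omega⟩ ⟨j + 1, hj⟩) ∈ K)
    (hL : ∀ i : Fin n, i.val + 1 = n → t ≤ n → ns (Pi.mulSingle i (-1)) ∈ K)
    (π : Perm (Fin n)) (ε : Fin n → ℤˣ)
    (h : ∀ i : Fin n, i.val + 1 < t → π i = i ∧ ε i = 1) : sp π ε ∈ K := by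
  rcases Nat.lt_or_ge n t with hnt | hnt
  · -- nothing moves
    have h1 : π = 1 := Equiv.ext fun i => (h i (by omega)).1
    have h2 : ε = 1 := funext fun i => (h i (by omega)).2
    rw [h1, h2]
    have : sp (1 : Perm (Fin n)) 1 = (1 : Perm (Y6 n m)) := by
      have := map_one (ns : (Fin n → ℤˣ) →* Perm (Y6 n m))
      rwa [ns_apply] at this
    rw [this]
    exact one_mem _
  · rcases Nat.eq_zero_or_pos n with hn0 | hn0
    · omega
    have hP : ∀ ρ : Perm (Fin n), (∀ i : Fin n, i.val + 1 < t → ρ i = i) → ps ρ ∈ K := by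
      intro ρ hρ
      have h1 := adjT n (t - 1) (n - 1) (by omega) (by omega) ρ (by
        intro k hk
        apply hρ
        omega)
      have h2 : Subgroup.closure (adj n '' {j | t - 1 ≤ j ∧ j < n - 1}) ≤
          K.comap (ps : Perm (Fin n) →* Perm (Y6 n m)) := by
        rw [Subgroup.closure_le]
        rintro _ ⟨j, ⟨hj1, hj2⟩, rfl⟩
        rw [SetLike.mem_coe, Subgroup.mem_comap]
        unfold adj
        rw [dif_pos (by omega)]
        exact hK j (by omega) (by omega)
      exact h2 h1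
    rw [sp_eq]
    refine mul_mem ?_ (hP _ ?_)
    · -- the signs
      have h3 : ε = ∏ i, Pi.mulSingle i (ε i) := (Finset.univ_prod_mulSingle ε).symm
      have h4 : ε ∈ K.comap (ns : (Fin n → ℤˣ) →* Perm (Y6 n m)) := by
        rw [h3]
        refine Subgroup.prod_mem _ ?_
        intro i _
        rcases Int.units_eq_one_or (ε i) with h5 | h5
        · rw [h5, Pi.mulSingle_one]
          exact one_mem _
        · rw [h5, Subgroup.mem_comap]
          have hi : t ≤ i.val + 1 := by
            by_contra hc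
            have := (h i (by omega)).2
            rw [h5] at this
            exact absurd this (by decide)
          set l : Fin n := ⟨n - 1, by omega⟩ with hl
          have h6 := hP (Equiv.swap i l) (by
            intro k hk
            apply Equiv.swap_apply_of_ne_of_ne
            · intro e
              rw [e] at hk
              omega
            · intro e
              rw [e] at hk
              simp only [hl] at hk
              omega)
          have h7 := hL l (by simp only [hl]; omega) hnt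
          have h8 : (ns (Pi.mulSingle i (-1)) : Perm (Y6 n m)) =
              ps (Equiv.swap i l) * ns (Pi.mulSingle l (-1)) * ps (Equiv.swap i l) := by
            ext1 x
            obtain ⟨z, a⟩ := x
            rw [Perm.mul_apply, Perm.mul_apply, ps_apply, ns_apply, ns_apply, sp_apply, sp_apply,
              sp_apply, sp_apply, Equiv.swap_inv]
            refine Prod.ext ?_ rfl
            funext k
            simp only [Pi.one_apply, Units.val_one, one_mul, Perm.one_apply, Equiv.swap_apply_self]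
            congr 2
            rcases eq_or_ne k i with e | e
            · rw [e, Equiv.swap_apply_left, Pi.mulSingle_eq_same, Pi.mulSingle_eq_same]
            · rw [Pi.mulSingle_eq_of_ne e, Pi.mulSingle_eq_of_ne]
              intro e2
              apply e
              rw [← Equiv.swap_apply_self i l k, e2, Equiv.swap_apply_right]
          rw [h8]
          exact mul_mem (mul_mem h6 h7) h6
      exact h4
    · intro i hi
      rw [Perm.inv_eq_iff_eq, (h i hi).1]

theorem mem_σ {I : Set (Fin (n + 1))} {j : Fin (n + 1)} (hj : j ∈ I) :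
    (S6 m n).σ j ∈ (S6 m n).par I := Subgroup.subset_closure ⟨j, hj, rfl⟩

theorem σ_ps (j : Fin (n + 1)) (h0 : 2 ≤ j.val) (hj : j.val < n) :
    (S6 m n).σ j = ps (Equiv.swap ⟨j.val - 1, by omega⟩ ⟨j.val, hj⟩) := by
  ext1 x
  obtain ⟨z, a⟩ := x
  rw [σ_mid j (by omega) hj, ps_apply, sp_apply, if_neg (by omega), Equiv.swap_inv]
  refine Prod.ext ?_ rfl
  funext i
  simp

theorem σ_ps1 (j : Fin (n + 1)) (h0 : j.val = 1) (hj : j.val < n) :
    (S6 m n).σ j = ps (Equiv.swap ⟨j.val - 1, by omega⟩ ⟨j.val, hj⟩) * ngp := by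
  ext1 x
  obtain ⟨z, a⟩ := x
  rw [σ_mid j (by omega) hj, Perm.mul_apply, ngp_apply, ps_apply, sp_apply, if_pos h0,
    Equiv.swap_inv]
  refine Prod.ext ?_ rfl
  funext i
  simp

theorem σ_ns (hn : 3 ≤ n) (j : Fin (n + 1)) (hj : j.val = n) (i : Fin n) (hi : i.val + 1 = n) :
    (S6 m n).σ j = ns (Pi.mulSingle i (-1)) := by
  ext1 x
  obtain ⟨z, a⟩ := x
  rw [σ_last hn j hj, ns_apply, sp_apply]
  refine Prod.ext ?_ rfl
  funext k
  simp only [Perm.one_apply]
  rcases eq_or_ne k i with e | e
  · rw [e, Pi.mulSingle_eq_same, if_pos hi]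
    simp
  · rw [Pi.mulSingle_eq_of_ne e, if_neg]
    · simp
    · intro h
      apply e
      apply Fin.ext
      omega

/-- (C) -/
theorem bwd2 (hn : 3 ≤ n) (t : ℕ) (ht : 2 ≤ t) (π : Perm (Fin n)) (ε : Fin n → ℤˣ)
    (h : ∀ i : Fin n, i.val + 1 < t → π i = i ∧ ε i = 1) :
    sp π ε ∈ (S6 m n).par {j | t ≤ j.val} := by
  refine bwd t (by omega) _ ?_ ?_ π ε h
  · intro j hj htj
    have h1 := σ_ps (m := m) (⟨j + 1, by omega⟩ : Fin (n + 1)) (by change 2 ≤ j + 1; omega) hj
    have h2 : (⟨(j + 1) - 1, by omega⟩ : Fin n) = ⟨j, by omega⟩ := Fin.ext (by simp)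
    have h3 : (ps (Equiv.swap ⟨j, by omega⟩ ⟨j + 1, hj⟩) : Perm (Y6 n m)) =
        (S6 m n).σ ⟨j + 1, by omega⟩ := by
      rw [h1]
      simp only [Nat.add_sub_cancel]
    rw [h3]
    exact mem_σ htj
  · intro i hi htn
    rw [← σ_ns hn (⟨n, by omega⟩ : Fin (n + 1)) rfl i hi]
    exact mem_σ htn

theorem ngp_comm (π : Perm (Fin n)) (ε : Fin n → ℤˣ) :
    (ngp : Perm (Y6 n m)) * sp π ε = sp π ε * ngp := by
  ext1 x
  obtain ⟨z, a⟩ := x
  rfl

/-- the map `(1, neg)` is in the group -/
theorem ngp_mem (hn : 3 ≤ n) : (ngp : Perm (Y6 n m)) ∈ (S6 m n).par {j | 1 ≤ j.val} := by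
  set j0 : Fin (n + 1) := ⟨1, by omega⟩ with hj0
  set j1 : Fin (n + 1) := ⟨2, by omega⟩ with hj1
  have m0 : (S6 m n).σ j0 ∈ (S6 m n).par {j | 1 ≤ j.val} := mem_σ (show 1 ≤ 1 from le_rfl)
  have m1 : (S6 m n).σ j1 ∈ (S6 m n).par {j | 1 ≤ j.val} := mem_σ (show 1 ≤ 2 by omega)
  have e0 := σ_ps1 (m := m) j0 rfl (show 1 < n by omega)
  have e1 := σ_ps (m := m) j1 le_rfl (show 2 < n by omega)
  set a : Fin n := ⟨0, by omega⟩ with ha
  set b : Fin n := ⟨1, by omega⟩ with hb
  set c : Fin n := ⟨2, by omega⟩ with hc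
  have hab : a ≠ b := by
    intro h; have := congrArg Fin.val h; simp [ha, hb] at this
  have hac : a ≠ c := by
    intro h; have := congrArg Fin.val h; simp [ha, hc] at this
  have hbc : b ≠ c := by
    intro h; have := congrArg Fin.val h; simp [hb, hc] at this
  have e0' : (S6 m n).σ j0 = ps (Equiv.swap a b) * ngp := e0
  have e1' : (S6 m n).σ j1 = ps (Equiv.swap b c) := e1
  have cm : ∀ π : Perm (Fin n), (ngp : Perm (Y6 n m)) * ps π = ps π * ngp := fun π => by
    rw [ps_apply, ngp_comm]
  have key : Equiv.swap a b * Equiv.swap b c * Equiv.swap a b =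
      Equiv.swap b c * Equiv.swap a b * Equiv.swap b c := by
    have h1 := Equiv.swap_mul_swap_mul_swap (x := a) (y := b) (z := c) hab hac
    have h2 := Equiv.swap_mul_swap_mul_swap (x := c) (y := b) (z := a) hbc.symm hac.symm
    rw [h1]
    rw [Equiv.swap_comm b a, Equiv.swap_comm c b] at h2
    rw [h2, Equiv.swap_comm]
  have f1 : (S6 m n).σ j0 * (S6 m n).σ j1 * (S6 m n).σ j0 =
      ps (Equiv.swap a b * Equiv.swap b c * Equiv.swap a b) := by
    rw [e0', e1', map_mul, map_mul]
    calc ps (Equiv.swap a b) * ngp * ps (Equiv.swap b c) * (ps (Equiv.swap a b) * ngp)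
        = ps (Equiv.swap a b) * (ngp * ps (Equiv.swap b c)) * (ps (Equiv.swap a b) * ngp) := by
          simp only [mul_assoc]
      _ = ps (Equiv.swap a b) * (ps (Equiv.swap b c)) * (ngp * ps (Equiv.swap a b)) * ngp := by
          rw [cm]; simp only [mul_assoc]
      _ = ps (Equiv.swap a b) * (ps (Equiv.swap b c)) * ps (Equiv.swap a b) * (ngp * ngp) := by
          rw [cm]; simp only [mul_assoc]
      _ = _ := by rw [ngp_ngp, mul_one]
  have f2 : (S6 m n).σ j1 * (S6 m n).σ j0 * (S6 m n).σ j1 =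
      ps (Equiv.swap a b * Equiv.swap b c * Equiv.swap a b) * ngp := by
    rw [key, e0', e1', map_mul, map_mul]
    calc ps (Equiv.swap b c) * (ps (Equiv.swap a b) * ngp) * ps (Equiv.swap b c)
        = ps (Equiv.swap b c) * ps (Equiv.swap a b) * (ngp * ps (Equiv.swap b c)) := by
          simp only [mul_assoc]
      _ = _ := by rw [cm]; simp only [mul_assoc]
  have f3 : (ngp : Perm (Y6 n m)) = ((S6 m n).σ j0 * (S6 m n).σ j1 * (S6 m n).σ j0)⁻¹ *
      ((S6 m n).σ j1 * (S6 m n).σ j0 * (S6 m n).σ j1) := by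
    rw [f1, f2, inv_mul_cancel_left]
  rw [f3]
  exact mul_mem (inv_mem (mul_mem (mul_mem m0 m1) m0)) (mul_mem (mul_mem m1 m0) m1)

/-- (B) -/
theorem bwd1 (hn : 3 ≤ n) (π : Perm (Fin n)) (ε : Fin n → ℤˣ) :
    sp π ε ∈ (S6 m n).par {j | 1 ≤ j.val} := by
  refine bwd 1 le_rfl _ ?_ ?_ π ε (fun i hi => by omega)
  · intro j hj htj
    rcases Nat.eq_zero_or_pos j with h0 | h0
    · subst h0
      have h1 := σ_ps1 (m := m) (⟨1, by omega⟩ : Fin (n + 1)) rfl (show 1 < n by omega)
      have h3 : (ps (Equiv.swap ⟨0, by omega⟩ ⟨0 + 1, hj⟩) : Perm (Y6 n m)) =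
          (S6 m n).σ ⟨1, by omega⟩ * ngp := by
        rw [h1, mul_assoc, ngp_ngp, mul_one]
        rfl
      rw [h3]
      exact mul_mem (mem_σ (show 1 ≤ 1 from le_rfl)) (ngp_mem hn)
    · have h1 := σ_ps (m := m) (⟨j + 1, by omega⟩ : Fin (n + 1)) (by change 2 ≤ j + 1; omega) hj
      have h3 : (ps (Equiv.swap ⟨j, by omega⟩ ⟨j + 1, hj⟩) : Perm (Y6 n m)) =
          (S6 m n).σ ⟨j + 1, by omega⟩ := by
        rw [h1]
        simp only [Nat.add_sub_cancel]
      rw [h3]
      exact mem_σ htj
  · intro i hi htn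
    rw [← σ_ns hn (⟨n, by omega⟩ : Fin (n + 1)) rfl i hi]
    exact mem_σ htn

/-- the parity -/
def Par (h : 2 ∣ m) (x : Y6 n m) : Prop :=
  ZMod.castHom h (ZMod 2) x.2 = ((∑ i, x.1 i : ℤ) : ZMod 2)

theorem par_σ (hn : 3 ≤ n) (h : 2 ∣ m) (j : Fin (n + 1)) (x : Y6 n m) :
    Par h ((S6 m n).σ j x) ↔ Par h x := by
  obtain ⟨z, a⟩ := x
  unfold Par
  by_cases h0 : j.val = 0
  · rw [σ_zero j h0]
    simp only
    have e1 : (∑ i : Fin n, (if i.val = 0 then 1 - z i else z i)) =
        (∑ i : Fin n, z i) + (1 - 2 * z ⟨0, by omega⟩) := by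
      have : ∀ i : Fin n, (if i.val = 0 then 1 - z i else z i) =
          z i + (if i = ⟨0, by omega⟩ then 1 - 2 * z ⟨0, by omega⟩ else 0) := by
        intro i
        by_cases hi : i.val = 0
        · have : i = ⟨0, by omega⟩ := Fin.ext hi
          rw [if_pos hi, if_pos this, this]; ring
        · rw [if_neg hi, if_neg (fun e => hi (by rw [e])), add_zero]
      simp only [this]
      rw [Finset.sum_add_distrib, Finset.sum_ite_eq' Finset.univ (⟨0, by omega⟩ : Fin n)]
      simp
    rw [e1, map_sub, map_one]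
    push_cast
    have e2 : (2 : ZMod 2) = 0 := by decide
    rw [e2, zero_mul, sub_zero]
    generalize (ZMod.castHom h (ZMod 2)) a = p
    generalize (∑ i : Fin n, ((z i : ℤ) : ZMod 2)) = q
    revert p q
    decide
  · by_cases h1 : j.val < n
    · rw [σ_mid j h0 h1]
      simp only
      have e1 := Equiv.sum_comp (Equiv.swap (⟨j.val - 1, by omega⟩ : Fin n) ⟨j.val, h1⟩) z
      rw [e1]
      by_cases h2 : j.val = 1
      · rw [if_pos h2, map_neg, ZMod.neg_eq_self_mod_two]
      · rw [if_neg h2]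
    · rw [σ_last hn j (by omega)]
      simp only
      have e1 : (((∑ i : Fin n, (if i.val + 1 = n then - z i else z i)) : ℤ) : ZMod 2) =
          ((∑ i : Fin n, z i : ℤ) : ZMod 2) := by
        push_cast
        refine Finset.sum_congr rfl ?_
        intro i _
        by_cases hi : i.val + 1 = n
        · rw [if_pos hi, ZMod.neg_eq_self_mod_two]
        · rw [if_neg hi]
      rw [e1]

theorem par_all (hn : 3 ≤ n) (h : 2 ∣ m) (g : Perm (Y6 n m)) (hg : g ∈ (S6 m n).par Set.univ) :
    ∀ x, Par h (g x) ↔ Par h x := by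
  refine Subgroup.closure_induction (p := fun g _ => ∀ x, Par h (g x) ↔ Par h x) ?_ ?_ ?_ ?_ hg
  · rintro _ ⟨j, -, rfl⟩ x
    exact par_σ hn h j x
  · intro x
    rfl
  · intro g g' _ _ h1 h2 x
    rw [Perm.mul_apply, h1, h2]
  · intro g _ h1 x
    rw [← h1, aiv]

theorem par_congr {d : ℕ} {X : Type} (S : SGen d X) {I J : Set (Fin d)} (h : I = J) :
    S.par I = S.par J := by rw [h]

end ER6

open ER6

theorem t_ER6 : S_ER6 := by
  intro m n hm hn r hr
  constructor
  · -- stab
    intro g hg h0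
    obtain ⟨π, ε, c, u, c', h1, -, -, -⟩ := ER6.fwd hn 0 g (fun j _ => Nat.zero_le _) hg
    rw [h1] at h0
    have hc : c = 0 := by
      funext i
      have := congrFun (congrArg Prod.fst h0) i
      simpa using this
    have hc' : c' = 0 := by
      have := congrArg Prod.snd h0
      simpa using this
    subst hc
    subst hc'
    have e1 : ({j | j.val ≠ 0} : Set (Fin (n + 1))) = {j | 1 ≤ j.val} := by
      ext j
      simp only [Set.mem_ofPred_eq]
      omega
    rw [ER6.par_congr _ e1]
    rcases Int.units_eq_one_or u with h5 | h5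
    · have : g = sp π ε := by
        ext1 x
        obtain ⟨z, a⟩ := x
        rw [h1, sp_apply, h5]
        simp
      rw [this]
      exact bwd1 hn π ε
    · have : g = sp π ε * ngp := by
        ext1 x
        obtain ⟨z, a⟩ := x
        rw [h1, Perm.mul_apply, ngp_apply, sp_apply, h5]
        simp
      rw [this]
      exact mul_mem (bwd1 hn π ε) (ngp_mem hn)
  · -- stab'
    intro j hj
    by_cases h1 : j.val < n
    · rw [σ_mid j hj h1]
      refine Prod.ext ?_ ?_
      · funext i
        rfl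
      · simp
    · rw [σ_last hn j (by omega)]
      refine Prod.ext ?_ rfl
      funext i
      simp
  · -- inj
    intro g hg h hh hgh
    have key : ∀ i : Fin (n + 1), (F6 n r (g (0, 0))) i = (F6 n r (h (0, 0))) i := fun i => by
      rw [hgh]
    have k1 : (g (0, 0)).1 = (h (0, 0)).1 := by
      funext i
      have := key ⟨i.val, by omega⟩
      simp only [F6] at this
      rw [dif_pos i.isLt, dif_pos i.isLt] at this
      exact_mod_cast this
    have k2 : r (g (0, 0)).2 = r (h (0, 0)).2 := by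
      have := key ⟨n, by omega⟩
      simp only [F6] at this
      rw [dif_neg (lt_irrefl n), dif_neg (lt_irrefl n)] at this
      exact this
    refine Prod.ext k1 (hr _ _ k2 ?_)
    intro h2
    have p0 : Par h2 ((0, 0) : (Fin n → ℤ) × ZMod m) := by
      unfold Par
      simp
    have p1 := (par_all hn h2 g hg (0, 0)).2 p0
    have p2 := (par_all hn h2 h hh (0, 0)).2 p0
    unfold Par at p1 p2
    rw [p1, p2, k1]
  · -- edge
    intro t ht g hg hc
    have hl : ∀ j ∈ ({j | t ≤ j} : Set (Fin (n + 1))), t.val ≤ j.val := fun j hj => hj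
    have e2 : ({j | t < j} : Set (Fin (n + 1))) = {j | t.val + 1 ≤ j.val} := by
      ext j
      simp only [Set.mem_ofPred_eq, Fin.lt_def]
      omega
    rw [ER6.par_congr _ e2]
    obtain ⟨π, ε, c, u, c', h1, h2, h3, h4⟩ := ER6.fwd hn t.val g hl hg
    obtain ⟨π', ε', d, v, d', h1', h2', h3', h4'⟩ := ER6.fwd hn t.val _ hl hc
    obtain ⟨rfl, rfl⟩ := h2 ht
    obtain ⟨rfl, rfl⟩ := h2' ht
    rcases Nat.lt_or_ge t.val 2 with ht2 | ht2
    · -- `t = 1`
      have ht1 : t.val = 1 := by omega
      have hp : (prd t).val = 0 := by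
        change t.val - 1 = 0
        omega
      have a1 := h1' 0 0
      have a2 : g ((S6 m n).σ (prd t) (0, 0)) = (S6 m n).σ (prd t) (0, 0) := by
        have : (S6 m n).σ (prd t) (g ((S6 m n).σ (prd t) (0, 0))) = (0, 0) := by
          have a3 : ((S6 m n).σ (prd t) * g * (S6 m n).σ (prd t)) (0, 0) = (0, 0) := by
            rw [a1]
            refine Prod.ext ?_ ?_
            · funext i
              simp
            · simp
          exact a3
        have b := congrArg ((S6 m n).σ (prd t)) this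
        rw [← Perm.mul_apply, (S6 m n).sq, Perm.one_apply] at b
        exact b
      rw [σ_zero _ hp, h1] at a2
      have b1 := congrArg Prod.snd a2
      have b2 := congrFun (congrArg Prod.fst a2) (⟨0, by omega⟩ : Fin n)
      simp only [Pi.zero_apply, sub_zero, add_zero, mul_one] at b1 b2
      have hu : u = 1 := by
        rcases Int.units_eq_one_or u with h5 | h5
        · exact h5
        · exfalso
          rw [h5] at b1
          have b3 : ((2 : ℕ) : ZMod m) = 0 := by
            have : (2 : ZMod m) = 0 := by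
              have b4 : (-1 : ZMod m) = 1 := by simpa using b1
              calc (2 : ZMod m) = 1 - (-1) := by ring
                _ = 0 := by rw [b4]; ring
            exact_mod_cast this
          rw [ZMod.natCast_eq_zero_iff] at b3
          exact absurd (Nat.le_of_dvd (by norm_num) b3) (by omega)
      have hπ : (π ⟨0, by omega⟩).val = 0 := by
        by_contra hcon
        rw [if_neg hcon] at b2
        simp at b2
      have hε : ε ⟨0, by omega⟩ = 1 := by
        rw [if_pos hπ] at b2
        simp only [if_true, mul_one] at b2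
        exact Units.ext b2
      have hg' : g = sp π ε := by
        ext1 x
        obtain ⟨z, a⟩ := x
        rw [h1, sp_apply, hu]
        simp
      rw [hg']
      refine bwd2 hn (t.val + 1) (by omega) π ε ?_
      intro i hi
      have : i = ⟨0, by omega⟩ := Fin.ext (by simp only; omega)
      rw [this]
      exact ⟨Fin.ext hπ, hε⟩
    · -- `t ≥ 2`
      have hu : u = 1 := h3 ht2
      have hg' : g = sp π ε := by
        ext1 x
        obtain ⟨z, a⟩ := x
        rw [h1, sp_apply, hu]
        simp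
      rw [hg']
      refine bwd2 hn (t.val + 1) (by omega) π ε ?_
      intro i hi
      rcases Nat.lt_or_ge (i.val + 1) t.val with hit | hit
      · exact h4 i hit
      · have hi1 : i.val = t.val - 1 := by omega
        have hp0 : (prd t).val ≠ 0 := by
          change t.val - 1 ≠ 0
          omega
        have hpn : (prd t).val < n := by
          change t.val - 1 < n
          omega
        set q : Fin n := ⟨t.val - 2, by omega⟩ with hq
        have hsw : (Equiv.swap (⟨(prd t).val - 1, by omega⟩ : Fin n) ⟨(prd t).val, hpn⟩) =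
            Equiv.swap q i := by
          have x1 : (⟨(prd t).val - 1, by omega⟩ : Fin n) = q := Fin.ext (by
            change t.val - 1 - 1 = t.val - 2
            omega)
          have x2 : (⟨(prd t).val, hpn⟩ : Fin n) = i := Fin.ext (by
            change t.val - 1 = i.val
            omega)
          rw [x1, x2]
        -- the conjugate fixes the coordinate `q`
        obtain ⟨y1, y2⟩ := h4' q (by simp only [hq]; omega)
        have z1 : ∀ z : Fin n → ℤ, (ε i : ℤ) * z (Equiv.swap q i (π i)) = z q := by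
          intro z
          have w1 := congrFun (congrArg Prod.fst (h1' z 0)) q
          rw [Perm.mul_apply, Perm.mul_apply, σ_mid _ hp0 hpn, h1, σ_mid _ hp0 hpn] at w1
          simp only [hsw, y1, y2, Equiv.swap_apply_left, Pi.zero_apply, add_zero, Units.val_one,
            one_mul] at w1
          exact w1
        have z2 := z1 (Pi.single q 1)
        rw [Pi.single_eq_same] at z2
        have z3 : Equiv.swap q i (π i) = q := by
          by_contra hcon
          rw [Pi.single_eq_of_ne hcon, mul_zero] at z2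
          exact absurd z2 (by norm_num)
        rw [z3, Pi.single_eq_same, mul_one] at z2
        refine ⟨?_, Units.ext z2⟩
        rw [← Equiv.swap_apply_self q i (π i), z3, Equiv.swap_apply_left]

end

end FOI
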