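import Pool.Agent.FOI.DStmts

/-!
# Existence for infinite polytopes and all `k ≥ 2`

Paper: `Pool/Agent/FOI/PAPER.md`, section V. The polytope is the mix of the cubical tessellation of
`E n` (rank `n + 1`) with an `m`-gon.
-/

namespace FOI

open Lib_helper64.FO FO2 FOK
open scoped RealInnerProductSpace

noncomputable section

/-! ## V.1: coset posets without finiteness -/

/-- `FO2.StmtCosA` without finiteness (`FO2/COA.lean`) -/
def S_COA : Prop :=
  ∀ (d : ℕ) (Y : Type) (S : SGen d Y), 1 ≤ d →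
    (∀ s : Set (CFace S), IsChain (· ≤ ·) s → ∃ g ∈ S.par Set.univ, ∀ F ∈ s, g ∈ F.coset) ∧
    (∀ C : Flag (CPos S), ∃ g ∈ S.par Set.univ, ∀ F : CFace S,
      (some (some F) : CPos S) ∈ C ↔ g ∈ F.coset) ∧
    (∀ (C : Flag (CPos S)) (i : ℤ), -1 ≤ i → i ≤ d → ∃ x ∈ C, rkC x = i) ∧
    (∀ C D : Flag (CPos S), ∃ γ : CPos S ≃o CPos S, γ • C = D)

/-- `FO2.StmtCosB` without finiteness (`FO2/COB.lean`) -/
def S_COB : Prop :=
  ∀ (d : ℕ) (Y : Type) (S : SGen d Y), 1 ≤ d → StrC S → IsRegularPolytope d (rkC (S := S))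

def M_COB : Prop := S_COA → S_COB

/-- Conditions under which the coset poset with vertex map `F` is a faithful realization.
(`FOK.FaiC` without transitivity on `Y`; `F` is injective on the orbit of `y0`.) -/
structure FaiI {d : ℕ} {Y : Type} (S : SGen d Y) (y0 : Y) (F : Y → E d) : Prop where
  stab : ∀ g ∈ S.par Set.univ, g y0 = y0 → g ∈ S.par {j | j.val ≠ 0}
  stab' : ∀ j : Fin d, j.val ≠ 0 → S.σ j y0 = y0
  inj : ∀ g ∈ S.par Set.univ, ∀ h ∈ S.par Set.univ, F (g y0) = F (h y0) → g y0 = h y0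
  edge : ∀ m : Fin d, 1 ≤ m.val → ∀ g ∈ S.par {j | m ≤ j},
    S.σ (prd m) * g * S.σ (prd m) ∈ S.par {j | m ≤ j} → g ∈ S.par {j | m < j}

/-- `FOK.StmtQEF` without finiteness (`FOK/QEF.lean`) -/
def S_XF : Prop :=
  ∀ (d : ℕ) (Y : Type) (S : SGen d Y) (y0 : Y) (F : Y → E d), 1 ≤ d → StrC S →
    FaiI S y0 F → ∀ (P : Type) [PartialOrder P] (rk : P → ℤ),
    IsRegularPolytope d rk → ∀ f : P → E d, Match rk f S y0 F → Faithful rk f

/-- `FOK.StmtQEG` without finiteness (`FOK/QEG.lean`) -/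
def S_XG : Prop :=
  ∀ (d : ℕ) (Y : Type) (S : SGen d Y) (y0 : Y) (F : Y → E d), 1 ≤ d → StrC S →
    FaiI S y0 F → ∃ (f : CPos S → E d) (C : Flag (CPos S)) (ρ : Fin d → (CPos S ≃o CPos S))
      (F0 : CPos S), Match rkC f S y0 F ∧ IsGens rkC C ρ ∧ F0 ∈ C ∧ rkC F0 = 0 ∧
      (∀ w : List (Fin d), f ((w.map ρ).prod F0) = F ((w.map S.σ).prod y0)) ∧
      ∀ x : CPos S, rkC x = 0 → ∃ g ∈ S.par Set.univ, f x = F (g y0)

/-! ## V.2: the mix of the cubical tessellation with an `m`-gon -/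

/-- the map `j` of the coordinates: `z 0 ↦ 1 - z 0` for `j = 0`, the exchange of `z (j - 1)` and `z j`
for `1 ≤ j < n`, `z (n - 1) ↦ - z (n - 1)` for `j = n` -/
def c6 {n : ℕ} (j : ℕ) (z : Fin n → ℤ) (i : Fin n) : ℤ :=
  if j = 0 then (if i.val = 0 then 1 - z i else z i)
  else if h : j < n then z (Equiv.swap ⟨j - 1, by omega⟩ ⟨j, h⟩ i)
  else (if i.val + 1 = n then - z i else z i)

/-- the map `j` of the polygon -/
def q6 {m : ℕ} (j : ℕ) (a : ZMod m) : ZMod m := if j = 0 then 1 - a else if j = 1 then - a else a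

theorem c6_c6 {n : ℕ} (j : ℕ) (z : Fin n → ℤ) : c6 j (c6 j z) = z := by
  funext i
  by_cases h0 : j = 0
  · subst h0
    by_cases h : i.val = 0 <;> simp [c6, h]
  · by_cases h1 : j < n
    · simp [c6, h0, h1, Equiv.swap_apply_self]
    · by_cases h : i.val + 1 = n <;> simp [c6, h0, h1, h]

theorem q6_q6 {m : ℕ} (j : ℕ) (a : ZMod m) : q6 j (q6 j a) = a := by
  by_cases h : j = 0
  · simp [q6, h]
  · by_cases h' : j = 1 <;> simp [q6, h, h']

theorem c6_comm {n : ℕ} (i j : ℕ) (hij : i + 2 ≤ j) (hj : j ≤ n) (z : Fin n → ℤ) :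
    c6 i (c6 j z) = c6 j (c6 i z) := by
  funext p
  have hj0 : j ≠ 0 := by omega
  by_cases h1 : j < n
  · -- `j` is an exchange
    by_cases h0 : i = 0
    · subst h0
      have e1 : ∀ y : Fin n → ℤ, ∀ p, c6 j y p = y (Equiv.swap ⟨j - 1, by omega⟩ ⟨j, h1⟩ p) := by
        intro y p
        simp [c6, hj0, h1]
      have e0 : ∀ y : Fin n → ℤ, ∀ p, c6 0 y p = if p.val = 0 then 1 - y p else y p := by
        intro y p
        simp [c6]
      rw [e1, e0, e0, e1]
      by_cases hp : p.val = 0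
      · have h2 : Equiv.swap (⟨j - 1, by omega⟩ : Fin n) ⟨j, h1⟩ p = p := by
          apply Equiv.swap_apply_of_ne_of_ne
          · intro e
            have := congrArg Fin.val e
            simp only at this
            omega
          · intro e
            have := congrArg Fin.val e
            simp only at this
            omega
        rw [h2]
      · have h2 : (Equiv.swap (⟨j - 1, by omega⟩ : Fin n) ⟨j, h1⟩ p).val ≠ 0 := by
          rcases eq_or_ne p ⟨j - 1, by omega⟩ with e | e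
          · rw [e, Equiv.swap_apply_left]
            exact hj0
          · rcases eq_or_ne p ⟨j, h1⟩ with e' | e'
            · rw [e', Equiv.swap_apply_right]
              change j - 1 ≠ 0
              omega
            · rw [Equiv.swap_apply_of_ne_of_ne e e']
              exact hp
        rw [if_neg hp, if_neg h2]
    · have e1 : ∀ y : Fin n → ℤ, ∀ p, c6 j y p = y (Equiv.swap ⟨j - 1, by omega⟩ ⟨j, h1⟩ p) := by
        intro y p
        simp [c6, hj0, h1]
      have hi : i < n := by omega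
      have e0 : ∀ y : Fin n → ℤ, ∀ p, c6 i y p = y (Equiv.swap ⟨i - 1, by omega⟩ ⟨i, hi⟩ p) := by
        intro y p
        simp [c6, h0, hi]
      rw [e1, e0, e0, e1]
      congr 1
      apply swap_comm' <;> (intro h; have := congrArg Fin.val h; simp only at this; omega)
  · -- `j = n` is a change of sign
    have e1 : ∀ y : Fin n → ℤ, ∀ p, c6 j y p = if p.val + 1 = n then - y p else y p := by
      intro y p
      simp [c6, hj0, h1]
    by_cases h0 : i = 0
    · subst h0
      have e0 : ∀ y : Fin n → ℤ, ∀ p, c6 0 y p = if p.val = 0 then 1 - y p else y p := by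
        intro y p
        simp [c6]
      rw [e0, e1, e1, e0]
      by_cases hp : p.val = 0
      · have h2 : ¬ p.val + 1 = n := by omega
        rw [if_pos hp, if_neg h2, if_neg h2, if_pos hp]
      · rw [if_neg hp, if_neg hp]
    · have hi : i < n := by omega
      have e0 : ∀ y : Fin n → ℤ, ∀ p, c6 i y p = y (Equiv.swap ⟨i - 1, by omega⟩ ⟨i, hi⟩ p) := by
        intro y p
        simp [c6, h0, hi]
      rw [e0, e1, e1, e0]
      by_cases hp : p.val + 1 = n
      · have h2 : Equiv.swap (⟨i - 1, by omega⟩ : Fin n) ⟨i, hi⟩ p = p := by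
          apply Equiv.swap_apply_of_ne_of_ne
          · intro e
            have := congrArg Fin.val e
            simp only at this
            omega
          · intro e
            have := congrArg Fin.val e
            simp only at this
            omega
        rw [h2]
      · have h2 : ¬ (Equiv.swap (⟨i - 1, by omega⟩ : Fin n) ⟨i, hi⟩ p).val + 1 = n := by
          rcases eq_or_ne p ⟨i - 1, by omega⟩ with e | e
          · rw [e, Equiv.swap_apply_left]
            change ¬ i + 1 = n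
            omega
          · rcases eq_or_ne p ⟨i, hi⟩ with e' | e'
            · rw [e', Equiv.swap_apply_right]
              change ¬ i - 1 + 1 = n
              omega
            · rw [Equiv.swap_apply_of_ne_of_ne e e']
              exact hp
        rw [if_neg hp, if_neg h2]

theorem q6_comm {m : ℕ} (i j : ℕ) (hij : i + 2 ≤ j) (a : ZMod m) : q6 i (q6 j a) = q6 j (q6 i a) := by
  have h0 : j ≠ 0 := by omega
  have h1 : j ≠ 1 := by omega
  simp [q6, h0, h1]

/-- the generators -/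
def m6 {n : ℕ} (m : ℕ) (j : Fin (n + 1)) (x : (Fin n → ℤ) × ZMod m) : (Fin n → ℤ) × ZMod m :=
  (c6 j.val x.1, q6 j.val x.2)

theorem m6_m6 {n m : ℕ} (j : Fin (n + 1)) (x : (Fin n → ℤ) × ZMod m) : m6 m j (m6 m j x) = x := by
  obtain ⟨z, a⟩ := x
  simp only [m6, c6_c6, q6_q6]

/-- The string of generators of the mix of the cubical tessellation with an `m`-gon. -/
def S6 (m n : ℕ) : SGen (n + 1) ((Fin n → ℤ) × ZMod m) where
  σ j := Function.Involutive.toPerm (m6 m j) (m6_m6 j)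
  sq j := Equiv.ext fun x => m6_m6 j x
  comm i j hij := Equiv.ext fun x => by
    change m6 m i (m6 m j x) = m6 m j (m6 m i x)
    simp only [m6]
    rw [c6_comm i.val j.val hij (by omega), q6_comm i.val j.val hij]

/-- V.2. The intersection property. -/
def S_EC6 : Prop := ∀ m n : ℕ, 1 ≤ m → 3 ≤ n → StrC (S6 m n)

/-- the vertex map -/
def F6 {m : ℕ} (n : ℕ) (r : ZMod m → ℝ) (x : (Fin n → ℤ) × ZMod m) : E (n + 1) :=
  WithLp.toLp 2 fun i : Fin (n + 1) => if h : i.val < n then (x.1 ⟨i.val, h⟩ : ℝ) else r x.2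

/-- `r` is injective on the classes of even and of odd elements, if `m` is even -/
def InjP {m : ℕ} (r : ZMod m → ℝ) : Prop :=
  ∀ a b : ZMod m, r a = r b →
    (∀ h : 2 ∣ m, ZMod.castHom h (ZMod 2) a = ZMod.castHom h (ZMod 2) b) → a = b

/-- V.3. For even `m` the parity of `∑ z i` is that of `a` on the orbit of `(0, 0)`. -/
def S_ER6 : Prop := ∀ m n : ℕ, 3 ≤ m → 3 ≤ n → ∀ r : ZMod m → ℝ, InjP r →
  FaiI (S6 m n) (0, 0) (F6 n r)

/-! ## V.4: the datum -/

/-- the datum of the `m`-gon -/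
structure Is6 {m d : ℕ} (r : ZMod m → ℝ) (M : Datum d (ZMod m)) : Prop where
  a0 : M.a0 = 0
  r : M.r = r
  π : ∀ (j : Fin d) (a : ZMod m), M.π j a = q6 j.val a

/-- V.4. For `k ≥ 3`: `m = k`, `r a = 0` if `2 a = 1` and `r a = 2 * a.valMinAbs - 1` otherwise; for `k = 2`:
`m = 4`, `r a = 1` for `a = 0, 3`, `r a = -1` for `a = 1, 2`. -/
def S_EN6 : Prop :=
  ∀ k d : ℕ, 2 ≤ k → 2 ≤ d → ∃ (m : ℕ) (r : ZMod m → ℝ) (M : Datum d (ZMod m)),
    3 ≤ m ∧ InjP r ∧ Is6 r M ∧ M.HR.relIndex M.C = k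

/-- V.5. The model: `y0` the first, `e0` the last vector of the standard basis `u` of `E (n + 1)`;
`g j` for `j + 1 < n` exchanges `u j` and `u (j + 1)`, `g (n - 1)` changes the sign of `u (n - 1)`. -/
def S_EM6 : Prop :=
  ∀ n : ℕ, 3 ≤ n → ∃ (e0 y0 : E (n + 1)) (g : ℕ → (E (n + 1) ≃ₗᵢ[ℝ] E (n + 1))), ‖e0‖ = 1 ∧
    y0 ≠ 0 ∧ CroM n 1 (ℝ ∙ e0)ᗮ y0 g ∧
    ∀ (m : ℕ) (r : ZMod m → ℝ) (w : List (Fin (n + 1))),
      F6 n r ((w.map (S6 m n).σ).prod (0, 0)) =
        wR true 1 g y0 y0 w + r ((w.map (S6 m n).σ).prod (0, 0)).2 • e0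

/-- V.6. The values of `F6` form a discrete set, and so do subsets; `CPos (S6 m n)` is infinite. -/
def S_ED6 : Prop :=
  ∀ m n : ℕ, 3 ≤ m → 3 ≤ n → (∀ r : ZMod m → ℝ, ∀ s : Set (E (n + 1)), s ⊆ Set.range (F6 n r) →
    DiscreteTopology s) ∧ Infinite (CPos (S6 m n))

/-- existence -/
def ExistI : Prop :=
  ∀ k d : ℕ, 2 ≤ k → 7 ≤ d →
    ∃ (P : Type) (_ : PartialOrder P) (_ : Infinite P) (rk : P → ℤ) (f : P → E d),
      IsRegularPolytope d rk ∧ Discr rk f ∧ IsOrbitRealization rk f k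

/-- V.7. Assembly. `S_CTR` for `c = 0`, `t = y0`, `b = true`, `s1 = 1`, `l = 3` and the action on the
vertices; `PolyGroup` and the index of `symGroup` from `FOI/Poset.lean`. -/
def M_EXI : Prop := S_COB → S_XF → S_XG → S_EC6 → S_ER6 → S_EN6 → S_EM6 → S_ED6 → S_CTR → ExistI

end

end FOI
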