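import Pool.Agent.FOI.EStmts
import Pool.Agent.FOI.Poset

/-!
# EXI: existence of k-orbit realizations of infinite regular polytopes
-/

namespace FOI

open Lib_helper64.FO FO2 FOK
open scoped RealInnerProductSpace

namespace EXI

/-- the action of the automorphisms on the vertices -/
@[reducible] def act {P : Type} [PartialOrder P] (rk : P → ℤ)
    (h : ∀ (γ : P ≃o P) (x : P), rk (γ x) = rk x) : MulAction (P ≃o P) {v : P // rk v = 0} where
  smul γ v := ⟨γ v.1, by rw [h, v.2]⟩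
  one_smul _ := rfl
  mul_smul _ _ _ := rfl

theorem word {m n : ℕ} {r : ZMod m → ℝ} {M : Datum (n + 1) (ZMod m)} (hM : Is6 r M)
    (w : List (Fin (n + 1))) :
    ((w.map (S6 m n).σ).prod (0, 0)).2 = (w.map M.π).prod M.a0 := by
  induction w with
  | nil => exact hM.a0.symm
  | cons j w ih =>
    rw [List.map_cons, List.map_cons, List.prod_cons, List.prod_cons]
    show q6 j.val ((w.map (S6 m n).σ).prod (0, 0)).2 = M.π j ((w.map M.π).prod M.a0)
    rw [ih, hM.π]

theorem finrank_perp {n : ℕ} (e0 : E (n + 1)) (he : ‖e0‖ = 1) :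
    Module.finrank ℝ ((ℝ ∙ e0)ᗮ : Submodule ℝ (E (n + 1))) = n := by
  have h0 : e0 ≠ 0 := by
    rintro rfl
    simp at he
  have h1 := Submodule.finrank_add_finrank_orthogonal (ℝ ∙ e0)
  rw [finrank_span_singleton h0] at h1
  have h2 : Module.finrank ℝ (E (n + 1)) = n + 1 := by simp
  omega

end EXI

theorem t_EXI : M_EXI := by
  intro hCo hXF hXG hEC hER hEN hEM hED hCT k d hk hd
  obtain ⟨n, rfl⟩ : ∃ n, d = n + 1 := ⟨d - 1, by omega⟩
  obtain ⟨m, r, M, hm, hr, hM, hidx⟩ := hEN k (n + 1) hk (by omega)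
  obtain ⟨e0, y0, g, he0, hy0, hCro, hform⟩ := hEM n (by omega)
  have hS : StrC (S6 m n) := hEC m n (by omega) (by omega)
  have hFa := hER m n hm (by omega) r hr
  have hP : IsRegularPolytope (n + 1) (rkC (S := S6 m n)) := hCo (n + 1) _ (S6 m n) (by omega) hS
  obtain ⟨f, C, ρ, F0, hMa, hgen, hF0, hr0, hw, hvert⟩ :=
    hXG (n + 1) _ (S6 m n) (0, 0) _ (by omega) hS hFa
  have hFai : Faithful rkC f := hXF (n + 1) _ (S6 m n) (0, 0) _ (by omega) hS hFa _ rkC hP f hMa
  obtain ⟨hdis, hinf⟩ := hED m n hm (by omega)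
  have hPG := gens (n + 1) _ rkC hP C ρ hgen
  obtain ⟨hF1, -, hF3, hF4, -⟩ := flag (n + 1) _ rkC hP
  have hex : ∀ j : Fin (n + 1), exG ρ j.val = ρ j := fun j => by
    rw [exG, dif_pos j.isLt]
  refine ⟨CPos (S6 m n), inferInstance, hinf, rkC, f, hP, ?_, hFai, ?_⟩
  · refine hdis r _ ?_
    rintro _ ⟨x, hx, rfl⟩
    obtain ⟨q, -, hq⟩ := hvert x hx
    exact ⟨_, hq.symm⟩
  · rw [idxI (n + 1) _ rkC hP f]
    let _ := EXI.act (rkC (S := S6 m n)) hF3
    rw [← hidx]
    refine hCT (n + 1) (CPos (S6 m n) ≃o CPos (S6 m n)) {v : CPos (S6 m n) // rkC v = 0} ρ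
      ⟨F0, hr0⟩ (fun x => f x.1) 0 e0 y0 y0 true 1 g (ZMod m) M (symGroup rkC f) hd he0
      ⟨EXI.finrank_perp e0 he0, Or.inr (Or.inr hCro)⟩ (fun _ => hCro) hy0
      (Submodule.mem_span_singleton_self y0)
      ⟨⟨3, by omega⟩, le_rfl, by show 3 + 2 ≤ n + 1; omega, ?_⟩ ?_ ?_ ?_ ?_ ?_
    · ext1 a
      rw [hM.π]
      rfl
    · have h1 : gpar (exG ρ) Set.univ ≤ Subgroup.closure (Set.range ρ) := by
        rw [gpar, Subgroup.closure_le]
        rintro _ ⟨i, -, rfl⟩
        by_cases h : i < n + 1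
        · rw [exG, dif_pos h]
          exact Subgroup.subset_closure ⟨_, rfl⟩
        · rw [exG, dif_neg h]
          exact one_mem _
      rw [hPG.gen] at h1
      exact top_le_iff.1 h1
    · intro j
      have := hPG.sq j.val
      rwa [hex] at this
    · intro x
      obtain ⟨D, hD⟩ := hF4 {x.1} (by simp)
      obtain ⟨γ, hγ⟩ := hP.regular C D
      refine ⟨γ, Subtype.ext ?_⟩
      show γ F0 = x.1
      apply hF1 D
      · rw [← hγ, ← SetLike.mem_coe, Flag.coe_smul, Set.mem_smul_set]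
        exact ⟨F0, hF0, rfl⟩
      · exact hD rfl
      · rw [hF3, hr0, x.2]
    · intro w
      show f ((w.map ρ).prod F0) = _
      rw [hw, hform, zero_add, EXI.word hM w, hM.r]
    · intro γ
      constructor
      · rintro ⟨-, T, hT⟩
        exact ⟨T, fun x => hT x.1 x.2⟩
      · rintro ⟨T, hT⟩
        exact ⟨hF3 γ, T, fun v hv => hT ⟨v, hv⟩⟩

end FOI
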