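import Pool.Agent.FOI.BStmts

/-!
# II.11: the extension of the linear parts to `Γ`
-/

namespace FOI

open Lib_helper64.FO FO2 FOK
open scoped RealInnerProductSpace Nat

noncomputable section

namespace EXT

/-- a unit vector that is turned into its negative by the reflection in `a` -/
theorem unit_eq {d : ℕ} {a b : E d} (ha : ‖a‖ = 1) (hb : ‖b‖ = 1) (h : sref a b = -b) :
    b = a ∨ b = -a := by
  have h1 : b = ⟪a, b⟫ • a := by
    have h2 : (2 : ℝ) • b = (2 : ℝ) • (⟪a, b⟫ • a) := by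
      rw [sref] at h
      rw [smul_smul, two_smul]
      have h3 : b - (2 * ⟪a, b⟫) • a + b = 0 := by rw [h, neg_add_cancel]
      rw [sub_add_eq_add_sub] at h3
      exact sub_eq_zero.1 h3
    exact smul_right_injective _ (two_ne_zero (α := ℝ)) h2
  have h4 : |⟪a, b⟫| = 1 := by
    have h5 : ‖b‖ = |⟪a, b⟫| * ‖a‖ := by
      conv_lhs => rw [h1, norm_smul, Real.norm_eq_abs]
    rw [hb, ha, mul_one] at h5
    exact h5.symm
  rcases (abs_eq zero_le_one).1 h4 with h5 | h5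
  · left
    rw [h5, one_smul] at h1
    exact h1
  · right
    rw [h5, neg_smul, one_smul] at h1
    exact h1

/-- linear maps that agree on a spanning set of `I` and on the complement of `I` -/
theorem ext_lin {d : ℕ} {I : Submodule ℝ (E d)} {A B : E d →ₗ[ℝ] E d} {s : Set (E d)}
    (hs : Submodule.span ℝ s = I) (h1 : ∀ v ∈ s, A v = B v) (h2 : ∀ v ∈ Iᗮ, A v = B v) :
    A = B := by
  have h3 : ∀ v ∈ I, A v = B v := by
    intro v hv
    rw [← hs] at hv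
    induction hv using Submodule.span_induction with
    | mem x hx => exact h1 x hx
    | zero => rw [map_zero, map_zero]
    | add x y _ _ hx hy => rw [map_add, map_add, hx, hy]
    | smul c x _ hx => rw [map_smul, map_smul, hx]
  ext1 v
  obtain ⟨y, hy, z, hz, rfl⟩ := Submodule.exists_add_mem_mem_orthogonal (K := I) v
  rw [map_add, map_add, h3 y hy, h2 z hz]

variable {d k : ℕ} {Γ : Type} [Group Γ] {X : Type} [MulAction Γ X] (G : AGeo d k Γ X) (l : ℕ)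

theorem L0_le : L0 G l ≤ Lt G := inf_le_left

theorem tau_one : tau G 1 = 0 := by
  rw [tau, one_smul, sub_self]

variable {G}

theorem tau_inv (hL : Lat G) {n : Γ} (hn : n ∈ Lt G) : tau G n⁻¹ = -tau G n := by
  have h := hL.add n hn n⁻¹ (inv_mem hn)
  rw [mul_inv_cancel, tau_one] at h
  exact eq_neg_of_add_eq_zero_right h.symm

theorem tau_inj (hL : Lat G) {m n : Γ} (hm : m ∈ Lt G) (hn : n ∈ Lt G)
    (h : tau G m = tau G n) : m = n := by
  have h1 : tau G (m * n⁻¹) = 0 := by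
    rw [hL.add m hm _ (inv_mem hn), tau_inv hL hn, h, add_neg_cancel]
  exact mul_inv_eq_one.1 (hL.inj _ (mul_mem hm (inv_mem hn)) h1)

variable (G)

/-- the set of the translation vectors of `L0` -/
def SV : Set (E d) := {v | ∃ n ∈ L0 G l, tau G n = v}

variable {G}

/-- the lattice -/
def SS (hL : Lat G) : AddSubgroup (E d) where
  carrier := SV G l
  add_mem' := by
    rintro _ _ ⟨m, hm, rfl⟩ ⟨n, hn, rfl⟩
    exact ⟨m * n, mul_mem hm hn, hL.add m (L0_le G l hm) n (L0_le G l hn)⟩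
  zero_mem' := ⟨1, one_mem _, tau_one G⟩
  neg_mem' := by
    rintro _ ⟨n, hn, rfl⟩
    exact ⟨n⁻¹, inv_mem hn, tau_inv hL (L0_le G l hn)⟩

open Classical in
/-- the action of `γ` on the lattice -/
def pp (G : AGeo d k Γ X) (l : ℕ) (γ : Γ) (v : E d) : E d :=
  if h : ∃ n ∈ L0 G l, tau G n = v then tau G (γ * h.choose * γ⁻¹) else 0

theorem pp_tau (hL : Lat G) (γ : Γ) {n : Γ} (hn : n ∈ L0 G l) :
    pp G l γ (tau G n) = tau G (γ * n * γ⁻¹) := by
  have h : ∃ m ∈ L0 G l, tau G m = tau G n := ⟨n, hn, rfl⟩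
  rw [pp, dif_pos h]
  have h1 := h.choose_spec
  rw [tau_inj hL (L0_le G l h1.1) (L0_le G l hn) h1.2]

/-- the linear map of `γ` -/
structure IsA (G : AGeo d k Γ X) (l : ℕ) (γ : Γ) (A : E d →ₗ[ℝ] E d) : Prop where
  tau : ∀ n ∈ L0 G l, A (tau G n) = tau G (γ * n * γ⁻¹)
  perp : ∀ v ∈ (Sp G 0 l)ᗮ, A v = v

theorem conj_add (hL : Lat G) (γ : Γ) {m n : Γ} (hm : m ∈ Lt G) (hn : n ∈ Lt G) :
    tau G (γ * (m * n) * γ⁻¹) = tau G (γ * m * γ⁻¹) + tau G (γ * n * γ⁻¹) := by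
  rw [← hL.add _ (hL.nrm γ m hm) _ (hL.nrm γ n hn)]
  congr 1
  group

theorem exists_A (hL : Lat G) (hX : S_LEX)
    (hS : Submodule.span ℝ {v | ∃ n ∈ L0 G l, tau G n = v} = Sp G 0 l) (γ : Γ) :
    ∃ A, IsA G l γ A := by
  obtain ⟨A, h1, h2⟩ := hX d (Sp G 0 l) (SS l hL) (pp G l γ) (by
    intro r
    refine ((hL.fin r).image (tau G)).subset ?_
    rintro v ⟨⟨n, hn, rfl⟩, hr⟩
    exact ⟨n, ⟨L0_le G l hn, hr⟩, rfl⟩) hS (by
    rintro _ ⟨m, hm, rfl⟩ _ ⟨n, hn, rfl⟩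
    rw [← hL.add m (L0_le G l hm) n (L0_le G l hn), pp_tau l hL γ (mul_mem hm hn),
      pp_tau l hL γ hm, pp_tau l hL γ hn, conj_add hL γ (L0_le G l hm) (L0_le G l hn)])
  exact ⟨A, fun n hn => by rw [h1 _ ⟨n, hn, rfl⟩, pp_tau l hL γ hn], h2⟩

section main

variable {l} {hL : Lat G} {A : Γ → (E d →ₗ[ℝ] E d)} (hA : ∀ γ, IsA G l γ (A γ))
  (hS : Submodule.span ℝ {v | ∃ n ∈ L0 G l, tau G n = v} = Sp G 0 l)
  (hN : ∀ γ : Γ, ∀ n ∈ L0 G l, γ * n * γ⁻¹ ∈ L0 G l)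

include hA hS hN in
theorem A_mul (γ δ : Γ) : A (γ * δ) = A γ ∘ₗ A δ := by
  apply ext_lin hS
  · rintro _ ⟨n, hn, rfl⟩
    rw [(hA _).tau n hn, LinearMap.comp_apply, (hA δ).tau n hn, (hA γ).tau _ (hN δ n hn)]
    congr 1
    group
  · intro v hv
    rw [(hA _).perp v hv, LinearMap.comp_apply, (hA δ).perp v hv, (hA γ).perp v hv]

include hA hS in
theorem A_triv {γ : Γ} (h : ∀ n ∈ L0 G l, γ * n * γ⁻¹ = n) : A γ = LinearMap.id := by
  apply ext_lin hS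
  · rintro _ ⟨n, hn, rfl⟩
    rw [(hA _).tau n hn, h n hn, LinearMap.id_apply]
  · intro v hv
    rw [(hA _).perp v hv, LinearMap.id_apply]

include hA hS in
theorem A_one : A 1 = LinearMap.id := A_triv hA hS fun n _ => by group

include hA hS in
theorem A_Lt (hL : Lat G) {γ : Γ} (hγ : γ ∈ Lt G) : A γ = LinearMap.id :=
  A_triv hA hS fun n hn => by rw [hL.com γ hγ n (L0_le G l hn), mul_inv_cancel_right]

include hA hS hN in
theorem A_pow (γ : Γ) (m : ℕ) : A (γ ^ m) = A γ ^ m := by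
  induction m with
  | zero => rw [pow_zero, pow_zero, A_one hA hS]; rfl
  | succ m ih => rw [pow_succ, pow_succ, A_mul hA hS hN, ih]; rfl

include hA hS hN in
theorem A_pres (hT : ∀ n ∈ L0 G l, tau G n ∈ Sp G 0 l) (γ : Γ) (v : E d) (hv : v ∈ Sp G 0 l) :
    A γ v ∈ Sp G 0 l := by
  rw [← hS] at hv
  induction hv using Submodule.span_induction with
  | mem x hx =>
    obtain ⟨n, hn, rfl⟩ := hx
    rw [(hA γ).tau n hn]
    exact hT _ (hN γ n hn)
  | zero => rw [map_zero]; exact zero_mem _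
  | add x y _ _ hx hy => rw [map_add]; exact add_mem hx hy
  | smul c x _ hx => rw [map_smul]; exact Submodule.smul_mem _ c hx

include hA hS in
theorem A_H (hL : Lat G) {h : Γ} (hh : h ∈ G.H) (v : E d) (hv : v ∈ Sp G 0 l) :
    A h v = G.T h v := by
  rw [← hS] at hv
  induction hv using Submodule.span_induction with
  | mem x hx =>
    obtain ⟨n, hn, rfl⟩ := hx
    rw [(hA h).tau n hn, hL.H h hh n (L0_le G l hn)]
  | zero => rw [map_zero, map_zero]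
  | add x y _ _ hx hy => rw [map_add, map_add, hx, hy]
  | smul c x _ hx => rw [map_smul, map_smul, hx]

theorem R_one_eq {n : Γ} (v : E d) : G.R 1 n v = G.T n v := by
  rw [AGeo.R, one_mul, inv_one, mul_one]

theorem tau_N (hL : Lat G) {m n : Γ} (hm : m ∈ G.N) (hn : n ∈ Lt G) :
    tau G (m * n * m⁻¹) = G.R 1 m (tau G n) := by
  rw [R_one_eq, hL.H m (G.N_le hm) n hn]

include hA hS hN in
theorem A_conj (hL : Lat G) (γ : Γ) {n : Γ} (hn : n ∈ G.N) (v : E d) (hv : v ∈ Sp G 0 l) :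
    A γ (G.R 1 n v) = G.R 1 (γ * n * γ⁻¹) (A γ v) := by
  rw [← hS] at hv
  induction hv using Submodule.span_induction with
  | mem x hx =>
    obtain ⟨m, hm, rfl⟩ := hx
    rw [← tau_N hL hn (L0_le G l hm), (hA γ).tau _ (hN n m hm), (hA γ).tau m hm,
      ← tau_N hL (G.conj_mem_N γ hn) (L0_le G l (hN γ m hm))]
    congr 1
    group
  | zero => simp only [map_zero]
  | add x y _ _ hx hy => simp only [map_add, hx, hy]
  | smul c x _ hx => simp only [map_smul, hx]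

end main

theorem TT_conj0 {γ x : Γ} (hx : x ∈ TT G 0 l) : γ * x * γ⁻¹ ∈ TT G 0 l := by
  obtain ⟨δ, -, rfl⟩ := hx
  exact ⟨γ * δ, G.mem_up_zero _, by group⟩

theorem norm_add_orth {I : Submodule ℝ (E d)} {y z : E d} (hy : y ∈ I) (hz : z ∈ Iᗮ) :
    ‖y + z‖ * ‖y + z‖ = ‖y‖ * ‖y‖ + ‖z‖ * ‖z‖ :=
  norm_add_sq_eq_norm_sq_add_norm_sq_of_inner_eq_zero y z
    (Submodule.inner_right_of_mem_orthogonal hy hz)

end EXT

theorem t_EXT : M_EXT := by
  intro hM hD hLt hC hSp hX hO d k Γ _ X _ _ G l hG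
  obtain ⟨-, hM2, hM3, -, -, -⟩ := hM d k Γ X G l hG
  have D := hD d k Γ X G l hG
  have L := hLt d k Γ X G l hG
  obtain ⟨-, -, hN, hT, -⟩ := hC d k Γ X G l hG
  have hS := hSp d k Γ X G l hG
  choose A hA using fun γ => EXT.exists_A l L hX hS γ
  -- the map of `γ` intertwines reflections
  have hrefl : ∀ γ : Γ, ∀ a ∈ Ph G 1 0 l, ∃ a', ‖a'‖ = 1 ∧ (∃ y ∈ TT G 0 l, ∀ v, G.R 1 y v =
      sref a' v) ∧ ∀ v ∈ Sp G 0 l, A γ (sref a v) = sref a' (A γ v) := by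
    intro γ a ha
    obtain ⟨-, x, hx, hxa⟩ := ha
    have hy := EXT.TT_conj0 (G := G) l (γ := γ) hx
    obtain ⟨a', h, hm⟩ := hM3 _ hy
    refine ⟨a', hm.norm, ⟨_, hy, hm.lin⟩, fun v hv => ?_⟩
    rw [← hxa, EXT.A_conj hA hS hN L γ (hM2 x hx).1 v hv, hm.lin]
  have hpres := EXT.A_pres hA hS hN hT
  have hnorm : ∀ γ : Γ, ∀ v ∈ Sp G 0 l, ‖A γ v‖ = ‖v‖ := by
    intro γ
    obtain ⟨m, hm, -, hmL⟩ := Subgroup.exists_pow_mem_of_index_ne_zero L.idx γ
    apply hO d (Sp G 0 l) (Ph G 1 0 l) (A γ) m D.rs D.irr rfl hm (hpres γ)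
    · intro v _
      rw [← EXT.A_pow hA hS hN γ m, EXT.A_Lt hA hS L hmL, LinearMap.id_apply]
    · intro a ha
      obtain ⟨a', h1, -, h2⟩ := hrefl γ a ha
      exact ⟨a', h1, h2⟩
  have hnorm2 : ∀ γ : Γ, ∀ v, ‖A γ v‖ = ‖v‖ := by
    intro γ v
    obtain ⟨y, hy, z, hz, rfl⟩ := Submodule.exists_add_mem_mem_orthogonal (K := Sp G 0 l) v
    have h1 : ‖A γ (y + z)‖ * ‖A γ (y + z)‖ = ‖y + z‖ * ‖y + z‖ := by
      rw [map_add, (hA γ).perp z hz, EXT.norm_add_orth (hpres γ y hy) hz,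
        EXT.norm_add_orth hy hz, hnorm γ y hy]
    exact (mul_self_inj (norm_nonneg _) (norm_nonneg _)).1 h1
  have hinv : ∀ γ : Γ, A γ ∘ₗ A γ⁻¹ = LinearMap.id := by
    intro γ
    rw [← EXT.A_mul hA hS hN, mul_inv_cancel, EXT.A_one hA hS]
  have hinv' : ∀ γ : Γ, A γ⁻¹ ∘ₗ A γ = LinearMap.id := by
    intro γ
    rw [← EXT.A_mul hA hS hN, inv_mul_cancel, EXT.A_one hA hS]
  let RI : Γ → (E d ≃ₗᵢ[ℝ] E d) := fun γ =>
    { toLinearEquiv := LinearEquiv.ofLinearMap (A γ) (A γ⁻¹) (hinv γ) (hinv' γ)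
      norm_map' := hnorm2 γ }
  have hRI : ∀ γ v, RI γ v = A γ v := fun _ _ => rfl
  have hmul : ∀ γ δ, RI (γ * δ) = RI γ * RI δ := by
    intro γ δ
    ext1 v
    rw [hRI, EXT.A_mul hA hS hN]
    rfl
  have hone : ∀ γ ∈ Lt G, RI γ = 1 := by
    intro γ hγ
    ext1 v
    rw [hRI, EXT.A_Lt hA hS L hγ]
    rfl
  refine ⟨RI, ?_⟩
  constructor
  · exact hmul
  · intro γ v hv
    exact (hA γ).perp v hv
  · exact hpres
  · intro γ n hn
    exact (hA γ).tau n hn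
  · intro h hh v hv
    exact EXT.A_H hA hS L hh v hv
  · intro γ n hn v hv
    exact EXT.A_conj hA hS hN L γ hn v hv
  · intro γ a ha
    obtain ⟨a', h1, ⟨y, hy, hya⟩, h2⟩ := hrefl γ a ha
    have h3 : a ∈ Sp G 0 l := Submodule.subset_span ha
    have h4 := h2 a h3
    rw [sref_self ha.1, map_neg] at h4
    have h5 : ‖A γ a‖ = 1 := by rw [hnorm2, ha.1]
    refine ⟨by rw [hRI]; exact h5, y, hy, fun v => ?_⟩
    rw [hya, hRI]
    rcases EXT.unit_eq h1 h5 h4.symm with h6 | h6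
    · rw [h6]
    · rw [h6, sref_neg]
  · have hf : Finite (Γ ⧸ Lt G) := Nat.finite_of_card_ne_zero L.idx
    refine (Set.finite_range fun q : Γ ⧸ Lt G => RI q.out).subset ?_
    rintro _ ⟨γ, rfl⟩
    refine ⟨(γ : Γ ⧸ Lt G), ?_⟩
    have h1 : ((γ : Γ ⧸ Lt G).out : Γ ⧸ Lt G) = γ := QuotientGroup.out_eq' _
    have h2 := QuotientGroup.eq.1 h1
    have h3 : γ = (γ : Γ ⧸ Lt G).out * ((γ : Γ ⧸ Lt G).out⁻¹ * γ) := by group
    show RI (γ : Γ ⧸ Lt G).out = RI γ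
    conv_rhs => rw [h3]
    rw [hmul, hone _ h2, mul_one]

end

end FOI
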