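import Pool.Agent.FOI.BStmts

/-!
# Section II.10, second part: the translations span the space of the directions
-/

namespace FOI

open Lib_helper64.FO FO2 FOK
open scoped RealInnerProductSpace Nat

noncomputable section

namespace INF

variable {d k : ℕ} {Γ : Type} [Group Γ] {X : Type} [MulAction Γ X]

theorem tau_one (G : AGeo d k Γ X) : tau G 1 = 0 := by
  rw [tau, one_smul, sub_self]

theorem aff_base (G : AGeo d k Γ X) (n : Γ) : aff G n (G.f G.x0) - G.f G.x0 = tau G n := by
  rw [aff, sub_self, map_zero, zero_add, tau]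

/-- the linear part of `m` applied to the vector `f (n x0) - f x0` -/
theorem R_tau (G : AGeo d k Γ X) {m : Γ} (hm : m ∈ G.N) (n : Γ) :
    G.R 1 m (tau G n) = tau G (m * n) - tau G m := by
  have h := G.R_F0 1 hm (n • G.x0)
  rw [AGeo.F, AGeo.F, AGeo.F] at h
  simp only [one_smul] at h
  rw [tau, tau, tau, mul_smul, h]

/-- the centre of gravity of the orbit of the base point, as a vector -/
def cen (G : AGeo d k Γ X) (R0 : Subgroup Γ) [Fintype R0] : E d :=
  (Fintype.card R0 : ℝ)⁻¹ • ∑ n : R0, tau G n.1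

theorem R_cen (G : AGeo d k Γ X) (R0 : Subgroup Γ) [Fintype R0] {m : Γ} (hm : m ∈ G.N)
    (hm' : m ∈ R0) : G.R 1 m (cen G R0) + tau G m = cen G R0 := by
  have hc : (Fintype.card R0 : ℝ) ≠ 0 := by
    have : Fintype.card R0 ≠ 0 := Fintype.card_ne_zero
    exact_mod_cast this
  have h1 : ∑ n : R0, tau G (m * n.1) = ∑ n : R0, tau G n.1 :=
    Fintype.sum_equiv (Equiv.mulLeft (⟨m, hm'⟩ : R0)) _ _ fun n => rfl
  have h2 : ∑ n : R0, G.R 1 m (tau G n.1) = ∑ n : R0, tau G n.1 - (Fintype.card R0 : ℝ) • tau G m := by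
    rw [Finset.sum_congr rfl fun n _ => R_tau G hm n.1, Finset.sum_sub_distrib, h1,
      Finset.sum_const, Finset.card_univ, Nat.cast_smul_eq_nsmul]
  rw [cen, map_smul, map_sum, h2, smul_sub, smul_smul, inv_mul_cancel₀ hc, one_smul,
    sub_add_cancel]

/-- a subgroup that meets a subgroup of finite index trivially is finite -/
theorem finite_of_inf {L R0 : Subgroup Γ} (hL : L.index ≠ 0) (h : ∀ n ∈ R0, n ∈ L → n = 1) :
    Finite R0 := by
  have hfi : L.FiniteIndex := ⟨hL⟩
  have hq : Finite (Γ ⧸ L) := Subgroup.finiteIndex_iff_finite_quotient.1 hfi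
  refine Finite.of_injective (fun n : R0 => (QuotientGroup.mk n.1 : Γ ⧸ L)) fun m n hmn => ?_
  have h1 : m.1⁻¹ * n.1 ∈ L := QuotientGroup.eq.1 hmn
  have h2 := h _ (R0.mul_mem (R0.inv_mem m.2) n.2) h1
  exact Subtype.ext (inv_mul_eq_one.1 h2)

end INF

open INF in
theorem t_INF : M_INF := by
  intro _ _ hMIR hDIR hLAT hCMM d k Γ _ X _ _ G l hT
  obtain ⟨-, hM2, -, -, -, -⟩ := hMIR d k Γ X G l hT
  have hD := hDIR d k Γ X G l hT
  have hL := hLAT d k Γ X G l hT
  obtain ⟨hC1, hC2, -, hC4, hC5⟩ := hCMM d k Γ X G l hT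
  set W : Submodule ℝ (E d) := Submodule.span ℝ {v | ∃ n ∈ Lt G, tau G n = v} with hW
  have hroot : ∀ a ∈ Ph G 1 0 l, a ∈ W ∨ a ∈ Wᗮ := by
    rintro a ⟨-, x, hx, hxa⟩
    by_cases h : ∀ n ∈ Lt G, ⟪a, tau G n⟫ = (0 : ℝ)
    · right
      rw [Submodule.mem_orthogonal']
      intro w hw
      rw [hW] at hw
      induction hw using Submodule.span_induction with
      | mem v hv =>
        obtain ⟨n, hn, rfl⟩ := hv
        exact h n hn
      | zero => exact inner_zero_right _
      | add v w _ _ hv hw => rw [inner_add_right, hv, hw, add_zero]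
      | smul c v _ hv => rw [inner_smul_right, hv, mul_zero]
    · left
      push Not at h
      obtain ⟨n, hn, hne⟩ := h
      obtain ⟨h1, h2⟩ := hC5 x hx a hxa n hn
      have h3 : tau G (x * n * x⁻¹ * n⁻¹) ∈ W := Submodule.subset_span ⟨_, h1.1, rfl⟩
      rw [h2] at h3
      have h4 : -(2 * ⟪a, tau G n⟫) ≠ (0 : ℝ) := neg_ne_zero.2 (mul_ne_zero two_ne_zero hne)
      exact (Submodule.smul_mem_iff W h4).1 h3
  rcases hD.irr W hroot with h | h
  · rw [Sp, Submodule.span_le]
    exact h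
  exfalso
  have hIW : Sp G 0 l ≤ Wᗮ := by
    rw [Sp, Submodule.span_le]
    exact h
  have hld := hT.ld
  have hρ : G.ρ l ∈ TT G 0 l := ⟨1, one_mem _, by group⟩
  set R0 : Subgroup Γ := Subgroup.closure (TT G 0 l) with hR0
  have hρR : G.ρ l ∈ R0 := Subgroup.subset_closure hρ
  have hcap : ∀ n ∈ R0, n ∈ Lt G → n = 1 := by
    intro n hn hnL
    have h1 : tau G n ∈ Sp G 0 l := hC4 n ⟨hnL, hn⟩
    have h2 : tau G n ∈ W := Submodule.subset_span ⟨n, hnL, rfl⟩
    have h3 : ⟪tau G n, tau G n⟫ = (0 : ℝ) := (Submodule.mem_orthogonal _ _).1 (hIW h1) _ h2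
    exact hL.inj n hnL (inner_self_eq_zero.1 h3)
  have hfin : Finite R0 := finite_of_inf hL.idx hcap
  rcases hD.alt with hI | hI
  · -- `Γ` is finite
    have hLt : ∀ n ∈ Lt G, n = 1 := by
      intro n hn
      have h2 : tau G n ∈ W := Submodule.subset_span ⟨n, hn, rfl⟩
      have h1 : tau G n ∈ Wᗮ := hIW (by rw [hI]; trivial)
      have h3 : ⟪tau G n, tau G n⟫ = (0 : ℝ) := (Submodule.mem_orthogonal _ _).1 h1 _ h2
      exact hL.inj n hn (inner_self_eq_zero.1 h3)
    have hfinT : Finite (⊤ : Subgroup Γ) := finite_of_inf hL.idx fun n _ hn => hLt n hn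
    have hfinX : Finite X := by
      refine Finite.of_surjective (fun g : (⊤ : Subgroup Γ) => g.1 • G.x0) fun x => ?_
      obtain ⟨g, hg⟩ := G.trans x
      exact ⟨⟨g, trivial⟩, hg⟩
    exact not_finite X
  · -- the centre of gravity
    have hfty : Fintype R0 := Fintype.ofFinite R0
    have hcI : cen G R0 ∈ Sp G 1 l := by
      rw [← hI, cen]
      refine Submodule.smul_mem _ _ (Submodule.sum_mem _ fun n _ => ?_)
      have := (hC2 n.1 n.2).2 (G.f G.x0)
      rwa [aff_base] at this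
    have hperp : ∀ a ∈ Ph G 1 1 l, ⟪a, cen G R0⟫ = (0 : ℝ) := by
      rintro a ⟨hna, x, ⟨γ, hγ, rfl⟩, hxa⟩
      have hx0 : γ * G.ρ l * γ⁻¹ ∈ TT G 0 l := ⟨γ, G.mem_up_zero γ, rfl⟩
      have hx1 : γ * G.ρ l * γ⁻¹ ∈ G.up 1 :=
        mul_mem (mul_mem hγ (G.ρ_mem_up (by have := hT.l5; omega))) (inv_mem hγ)
      have h1 := R_cen G R0 (hM2 _ hx0).1 (Subgroup.subset_closure hx0)
      have h2 : tau G (γ * G.ρ l * γ⁻¹) = 0 := by
        rw [tau, G.up_fix_x0 hx1, sub_self]
      rw [h2, add_zero, hxa, sref, sub_eq_self] at h1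
      have ha0 : a ≠ 0 := by
        rintro rfl
        rw [norm_zero] at hna
        exact zero_ne_one hna
      have h3 := (smul_eq_zero.1 h1).resolve_right ha0
      exact (mul_eq_zero.1 h3).resolve_left two_ne_zero
    have hc0 : cen G R0 = 0 := by
      have h1 : Sp G 1 l ≤ (Submodule.span ℝ {cen G R0})ᗮ := by
        rw [Sp, Submodule.span_le]
        intro a ha
        rw [SetLike.mem_coe, Submodule.mem_orthogonal_singleton_iff_inner_left]
        exact hperp a ha
      have h2 := (Submodule.mem_orthogonal_singleton_iff_inner_left).1 (h1 hcI)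
      exact inner_self_eq_zero.1 h2
    have hfix : ∀ n ∈ R0, n • G.x0 = G.x0 := by
      intro n hn
      have h1 := R_cen G R0 (hC2 n hn).1 hn
      rw [hc0, map_zero, zero_add, tau, sub_eq_zero] at h1
      exact G.inj h1
    have hup : R0 ≤ G.up (0 + 1) := by
      intro n hn
      refine G.mem_up_of_fix fun a ha => ?_
      have ha1 : a = 1 := by
        have h0 : {j : ℕ | j < 0} = ∅ := by
          ext j
          simp
        rw [AGeo.dn, h0, gpar, Set.image_empty, Subgroup.closure_empty, Subgroup.mem_bot] at ha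
        exact ha
      rw [ha1, one_smul]
      exact hfix n hn
    have hbot : R0 = ⊥ := G.L1 (i := 0) hup fun γ _ m hm => hC1 γ m hm
    rw [hbot, Subgroup.mem_bot] at hρR
    exact G.ne_one l (by omega) hρR

end

end FOI
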