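import Pool.Agent.FOI.CStmts

/-!
# Module IRR1: the case (irr), the centre `z0` and the dimensions of the `V_i`

Paper: `Pool/Agent/FOI/PAPER.md`, III.3.
-/

namespace FOI

open Lib_helper64.FO FO2 FOK
open scoped RealInnerProductSpace

noncomputable section

namespace IRR1

variable {d k : ℕ} {Γ : Type} [Group Γ] {X : Type} [MulAction Γ X]

/-- if the roots span everything, the projection is the identity -/
theorem pI_id (G : AGeo d k Γ X) (l : ℕ) (hI : Sp G 0 l = ⊤) (v : E d) : pI G l v = v := by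
  rw [pI]
  exact Submodule.starProjection_eq_self_iff.2 (by rw [hI]; trivial)

/-- `V_1` is not zero if there is more than one orbit -/
theorem V_ne_bot (G : AGeo d k Γ X) (RI : Γ → (E d ≃ₗᵢ[ℝ] E d)) (b0 : Γ → E d)
    (hRI : ∀ γ δ, RI (γ * δ) = RI γ * RI δ) (hb : ∀ γ δ, b0 (γ * δ) = b0 γ + RI γ (b0 δ))
    (hpsi : ∀ γ : Γ, ∃ ψ ∈ G.V 1 1, G.f (γ • G.x0) = RI γ (G.f G.x0 + ψ) + b0 γ)
    (hH : G.H ≠ ⊤) : G.V 1 1 ≠ ⊥ := by
  intro h0
  apply hH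
  have h1 : ∀ γ : Γ, G.f (γ • G.x0) = RI γ (G.f G.x0) + b0 γ := by
    intro γ
    obtain ⟨ψ, h2, h3⟩ := hpsi γ
    rw [h0, Submodule.mem_bot] at h2
    rw [h3, h2, add_zero]
  have h4 : ∀ (γ : Γ) (y : X), G.f (γ • y) = RI γ (G.f y) + b0 γ := by
    intro γ y
    obtain ⟨δ, rfl⟩ := G.trans y
    rw [← mul_smul, h1, h1, hRI, hb, map_add]
    change RI γ (RI δ (G.f G.x0)) + _ = _
    abel
  rw [eq_top_iff]
  intro γ _
  by_contra hγ
  apply G.noiso γ hγ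
  refine ⟨RI γ, fun x y => ?_⟩
  rw [h4, h4, map_sub]
  abel

/-- the dimension of `V_1` -/
theorem V_dim_le (G : AGeo d k Γ X) (l : ℕ) (hT : ATop G l) (hTI : S_TI) :
    Module.finrank ℝ (G.V 1 1) ≤ 1 := by
  have h5 := hT.l5
  have hl := hT.ld
  have h1 : TopI G l 1 1 := hTI d k Γ X G l hT 1 1 le_rfl (by omega)
  have h2 := h1.dim
  have h3 := Submodule.finrank_mono h1.perp
  have h4 := Submodule.finrank_add_finrank_orthogonal (G.V 1 1)
  rw [finrank_euclideanSpace_fin] at h4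
  have h6 : Module.finrank ℝ (G.U 1 1) = Module.finrank ℝ ((G.V 1 1)ᗮ : Submodule ℝ (E d)) := rfl
  omega

/-- the dimensions of the `V_i` -/
theorem V_dim (G : AGeo d k Γ X) (l : ℕ) (hT : ATop G l) (hS : S_STEP)
    (h1 : Module.finrank ℝ (G.V 1 1) = 1) :
    ∀ i, 1 ≤ i → i ≤ d → Module.finrank ℝ (G.V 1 i) = i := by
  intro i hi
  induction i, hi using Nat.le_induction with
  | base => intro _; exact h1
  | succ i hi ih =>
    intro hd
    have h2 := ih (by omega)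
    have h3 := (hS d k Γ X G 1).2.1 i hi (hT.nz i hi (by omega))
    have h4 := Submodule.finrank_lt_finrank_of_lt h3
    have h5 := (hT.dimV 1 (i + 1) (by omega) hd).2
    omega

/-- a unit vector that spans `V_1` -/
theorem ex_unit (V : Submodule ℝ (E d)) (h : Module.finrank ℝ V = 1) :
    ∃ e : E d, ‖e‖ = 1 ∧ V = ℝ ∙ e := by
  obtain ⟨v, hv, h1⟩ := finrank_eq_one_iff'.1 h
  have hv' : (v : E d) ≠ 0 := fun h2 => hv (Subtype.ext h2)
  have hn : ‖(v : E d)‖ ≠ 0 := norm_ne_zero_iff.2 hv'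
  refine ⟨‖(v : E d)‖⁻¹ • (v : E d), ?_, ?_⟩
  · rw [norm_smul, norm_inv, norm_norm, inv_mul_cancel₀ hn]
  · have h3 : (ℝ ∙ (‖(v : E d)‖⁻¹ • (v : E d))) = ℝ ∙ (v : E d) :=
      Submodule.span_singleton_smul_eq (IsUnit.mk0 _ (inv_ne_zero hn)) _
    rw [h3]
    apply le_antisymm
    · intro w hw
      obtain ⟨c, hc⟩ := h1 ⟨w, hw⟩
      rw [Submodule.mem_span_singleton]
      exact ⟨c, congrArg Subtype.val hc⟩
    · rw [Submodule.span_singleton_le_iff_mem]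
      exact v.2

/-- the fixed point of the affine maps of `up 1` -/
theorem ex_fixed (G : AGeo d k Γ X) (RI : Γ → (E d ≃ₗᵢ[ℝ] E d)) (b0 : Γ → E d)
    (hRI : ∀ γ δ, RI (γ * δ) = RI γ * RI δ) (hb : ∀ γ δ, b0 (γ * δ) = b0 γ + RI γ (b0 δ))
    (hpsi : ∀ γ : Γ, ∃ ψ ∈ G.V 1 1, G.f (γ • G.x0) = RI γ (G.f G.x0 + ψ) + b0 γ)
    (hV : ∀ γ ∈ G.up 1, ∀ v ∈ G.V 1 1, RI γ v ∈ G.V 1 1) :
    ∃ z0 : E d, (∀ u ∈ G.up 1, RI u z0 + b0 u = z0) ∧ G.f G.x0 - z0 ∈ G.V 1 1 := by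
  have hfin : Finite (G.up 1) := G.finite_up le_rfl
  letI : Fintype (G.up 1) := Fintype.ofFinite _
  set N : ℝ := (Fintype.card (G.up 1) : ℝ) with hN
  have hN0 : N ≠ 0 := by
    rw [hN]
    exact_mod_cast Fintype.card_ne_zero
  refine ⟨N⁻¹ • ∑ u : G.up 1, (RI u (G.f G.x0) + b0 u), ?_, ?_⟩
  · intro v hv
    have h1 : ∑ u : G.up 1, (RI v (RI u (G.f G.x0) + b0 u) + b0 v) =
        ∑ u : G.up 1, (RI u (G.f G.x0) + b0 u) := by
      have h2 : ∀ u : G.up 1, RI v (RI u (G.f G.x0) + b0 u) + b0 v =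
          RI ((⟨v, hv⟩ * u : G.up 1) : Γ) (G.f G.x0) + b0 ((⟨v, hv⟩ * u : G.up 1) : Γ) := by
        intro u
        change _ = RI (v * u) (G.f G.x0) + b0 (v * u)
        rw [hRI, hb, map_add]
        change _ = RI v (RI u (G.f G.x0)) + _
        abel
      rw [Finset.sum_congr rfl fun u _ => h2 u]
      exact Equiv.sum_comp (Equiv.mulLeft (⟨v, hv⟩ : G.up 1))
        (fun u : G.up 1 => RI u (G.f G.x0) + b0 u)
    have h3 : ∑ _u : G.up 1, b0 v = N • b0 v := by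
      rw [Finset.sum_const, Finset.card_univ, hN, Nat.cast_smul_eq_nsmul]
    rw [Finset.sum_add_distrib, h3, ← map_sum] at h1
    rw [map_smul]
    have h4 : b0 v = N⁻¹ • (N • b0 v) := by rw [smul_smul, inv_mul_cancel₀ hN0, one_smul]
    nth_rewrite 1 [h4]
    rw [← smul_add, h1]
  · have h1 : ∀ u : G.up 1, G.f G.x0 - (RI u (G.f G.x0) + b0 u) ∈ G.V 1 1 := by
      intro u
      obtain ⟨ψ, h2, h3⟩ := hpsi u
      rw [G.up_fix_x0 u.2] at h3
      have h4 : G.f G.x0 - (RI u (G.f G.x0) + b0 u) = RI u ψ := by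
        nth_rewrite 1 [h3]
        rw [map_add]
        abel
      rw [h4]
      exact hV u u.2 ψ h2
    have h2 : G.f G.x0 - N⁻¹ • ∑ u : G.up 1, (RI u (G.f G.x0) + b0 u) =
        N⁻¹ • ∑ u : G.up 1, (G.f G.x0 - (RI u (G.f G.x0) + b0 u)) := by
      rw [Finset.sum_sub_distrib, Finset.sum_const, Finset.card_univ, ← Nat.cast_smul_eq_nsmul ℝ,
        ← hN, smul_sub, smul_smul, inv_mul_cancel₀ hN0, one_smul]
    rw [h2]
    exact Submodule.smul_mem _ _ (Submodule.sum_mem _ fun u _ => h1 u)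

end IRR1

open IRR1 in
theorem t_IRR1 : M_IRR1 := by
  intro hS hTI _ hP d k Γ _ X _ _ G l hT hI hH RI hE b0 hb
  obtain ⟨hp1, hp2⟩ := hP d k Γ X G l hT RI hE b0 hb
  have hpsi : ∀ γ : Γ, ∃ ψ ∈ G.V 1 1, G.f (γ • G.x0) = RI γ (G.f G.x0 + ψ) + b0 γ := by
    intro γ
    obtain ⟨ψ, h1, _, h3⟩ := hp1 γ
    rw [pI_id G l hI, pI_id G l hI] at h3
    exact ⟨ψ, h1, h3⟩
  have hV : ∀ γ ∈ G.up 1, ∀ v ∈ G.V 1 1, RI γ v ∈ G.V 1 1 := by
    intro γ hγ v hv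
    have h1 := (hp2 γ 1 v (by rw [hI]; trivial)).2 hv
    have h2 := G.V_frame_up (g := 1) (i := 1) hγ
    rw [one_mul] at h2
    rwa [h2] at h1
  have h0 := V_ne_bot G RI b0 hE.mul hb.mul hpsi hH
  have h1 := V_dim_le G l hT hTI
  have h2 : Module.finrank ℝ (G.V 1 1) = 1 := by
    have h3 : Module.finrank ℝ (G.V 1 1) ≠ 0 := fun h4 => h0 (Submodule.finrank_eq_zero.1 h4)
    omega
  obtain ⟨e0, he, hVe⟩ := ex_unit (G.V 1 1) h2
  obtain ⟨z0, hz, hz'⟩ := ex_fixed G RI b0 hE.mul hb.mul hpsi hV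
  have hs : ∀ γ : Γ, ∃ s : ℝ, G.f (γ • G.x0) = z0 + (RI γ z0 + b0 γ - z0) + s • RI γ e0 := by
    intro γ
    obtain ⟨ψ, h3, h4⟩ := hpsi γ
    have h5 : (G.f G.x0 - z0) + ψ ∈ G.V 1 1 := add_mem hz' h3
    rw [hVe, Submodule.mem_span_singleton] at h5
    obtain ⟨s, h6⟩ := h5
    refine ⟨s, ?_⟩
    rw [← map_smul, h6, h4, map_add, map_add, map_sub]
    abel
  choose s hs using hs
  refine ⟨fun γ => RI γ z0 + b0 γ - z0, s, z0, e0, he, hVe, V_dim G l hT hS h2, ?_, ?_, hs, ?_⟩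
  · intro γ δ
    rw [hE.mul, hb.mul, map_sub, map_add]
    change RI γ (RI δ z0) + _ - _ = _
    abel
  · intro γ hγ
    rw [hz γ hγ, sub_self]
  · intro h hh y
    have h3 := hb.H h hh y
    rw [pI_id G l hI, pI_id G l hI] at h3
    rw [h3, map_sub]
    abel

end

end FOI
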