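import Pool.Agent.FOI.CStmts

/-!
# III.4: the isometries `RI (ρ j)` and the spaces `V_i` in the case (irr)
-/

namespace FOI

open Lib_helper64.FO FO2 FOK
open scoped RealInnerProductSpace Nat

noncomputable section

namespace IRR2

variable {d k : ℕ} {Γ : Type} [Group Γ] {X : Type} [MulAction Γ X]

theorem TT_N {G : AGeo d k Γ X} {l : ℕ} (hT : ATop G l) {i : ℕ} {x : Γ} (hx : x ∈ TT G i l) :
    x ∈ G.N := by
  obtain ⟨γ, _, rfl⟩ := hx
  exact G.conj_mem_N γ (hT.up (G.ρ_mem_up (Nat.sub_le l 3)))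

/-- a vector fixed by the reflection in `a` is orthogonal to `a` -/
theorem perp_of_fix {a v : E d} (ha : ‖a‖ = 1) (h : sref a v = v) : ⟪a, v⟫ = 0 := by
  have h1 : (2 * ⟪a, v⟫) • a = 0 := by
    have h2 := h
    rw [sref, sub_eq_self] at h2
    exact h2
  have ha0 : a ≠ 0 := by
    rintro rfl
    rw [norm_zero] at ha
    exact zero_ne_one ha
  rcases smul_eq_zero.1 h1 with h2 | h2
  · linarith
  · exact absurd h2 ha0

/-- `span Ph = ⊤` -/
theorem eq_zero_of_perp {Φ : Set (E d)} (hs : Submodule.span ℝ Φ = ⊤) {v : E d}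
    (h : ∀ a ∈ Φ, ⟪a, v⟫ = 0) : v = 0 := by
  have h1 : v ∈ (Submodule.span ℝ Φ)ᗮ := by
    rw [Submodule.mem_orthogonal]
    intro u hu
    induction hu using Submodule.span_induction with
    | mem x hx => exact h x hx
    | zero => exact inner_zero_left _
    | add x y _ _ hx hy => rw [inner_add_left, hx, hy, add_zero]
    | smul c x _ hx => rw [inner_smul_left, hx, mul_zero]
  rw [hs, Submodule.top_orthogonal_eq_bot, Submodule.mem_bot] at h1
  exact h1

theorem RI_sq {G : AGeo d k Γ X} {l : ℕ} {RI : Γ → (E d ≃ₗᵢ[ℝ] E d)} (hR : IsExt G l RI) (j : ℕ)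
    (v : E d) : RI (G.ρ j) (RI (G.ρ j) v) = v := by
  have h1 : RI 1 = 1 := by
    have h := hR.mul 1 1
    rw [one_mul] at h
    exact mul_eq_left.1 h.symm
  have h2 := hR.mul (G.ρ j) (G.ρ j)
  rw [G.sq, h1] at h2
  calc RI (G.ρ j) (RI (G.ρ j) v) = (RI (G.ρ j) * RI (G.ρ j)) v := rfl
    _ = (1 : E d ≃ₗᵢ[ℝ] E d) v := by rw [← h2]
    _ = v := rfl

/-- a subspace that is invariant under the `RI (ρ j)` is invariant under all `RI γ` -/
theorem inv_all {G : AGeo d k Γ X} {l : ℕ} {RI : Γ → (E d ≃ₗᵢ[ℝ] E d)} (hR : IsExt G l RI)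
    {L : Submodule ℝ (E d)} (h : ∀ j, ∀ v ∈ L, RI (G.ρ j) v ∈ L) (γ : Γ) :
    ∀ v ∈ L, RI γ v ∈ L := by
  have hγ : γ ∈ Subgroup.closure (G.ρ '' Set.univ) := by
    have h1 := G.gen
    rw [gpar] at h1
    rw [h1]
    trivial
  have h1 : RI 1 = 1 := by
    have h := hR.mul 1 1
    rw [one_mul] at h
    exact mul_eq_left.1 h.symm
  have key : ∀ δ ∈ Subgroup.closure (G.ρ '' Set.univ), (∀ v ∈ L, RI δ v ∈ L) ∧
      ∀ v ∈ L, RI δ⁻¹ v ∈ L := by
    intro δ hδ
    induction hδ using Subgroup.closure_induction with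
    | mem x hx =>
      obtain ⟨j, _, rfl⟩ := hx
      refine ⟨h j, ?_⟩
      rw [G.inv_ρ]
      exact h j
    | one =>
      rw [inv_one, h1]
      exact ⟨fun v hv => hv, fun v hv => hv⟩
    | mul x y _ _ hx hy =>
      refine ⟨?_, ?_⟩
      · intro v hv
        rw [hR.mul]
        exact hx.1 _ (hy.1 v hv)
      · intro v hv
        rw [mul_inv_rev, hR.mul]
        exact hy.2 _ (hx.2 v hv)
    | inv x _ hx =>
      rw [inv_inv]
      exact ⟨hx.2, hx.1⟩
  exact (key γ hγ).1

end IRR2

open IRR2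

theorem t_IRR2 : M_IRR2 := by
  intro hSTEP hTI hDIR hPSI d k Γ _ X _ _ G l hT hSp RI hR b0 hB b s z0 e0 hD
  have hl5 : 5 ≤ l := hT.l5
  have hld : 2 * l + 20 ≤ d := hT.ld
  have hdir : DirS G l := hDIR d k Γ X G l hT
  have hspan : Submodule.span ℝ (Ph G 1 0 l) = ⊤ := hSp
  have hin : ∀ v : E d, v ∈ Sp G 0 l := by
    intro v
    rw [hSp]
    trivial
  have hpsi : ∀ γ i, ∀ v : E d, RI γ v ∈ G.V γ i ↔ v ∈ G.V 1 i := by
    intro γ i v
    exact (hPSI d k Γ X G l hT RI hR b0 hB).2 γ i v (hin v)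
  have hpres : ∀ j i v, i ≠ j + 1 → v ∈ G.V 1 i → RI (G.ρ j) v ∈ G.V 1 i := by
    intro j i v hij hv
    have h1 := (hpsi (G.ρ j) i v).2 hv
    have h2 := G.V_frame_ρ (g := 1) hij
    rw [one_mul] at h2
    rw [h2] at h1
    exact h1
  have hSpi : ∀ i, 1 ≤ i → i ≤ l → Sp G i l = (G.V 1 i)ᗮ := by
    intro i h1 h2
    have hTop := hTI d k Γ X G l hT 1 i h1 h2
    apply Submodule.eq_of_le_of_finrank_le
    · exact hTop.perp
    · have h3 := hTop.dim
      have h4 := (G.V 1 i).finrank_add_finrank_orthogonal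
      have h5 : Module.finrank ℝ (E d) = d := finrank_euclideanSpace_fin
      rw [hD.dimV i h1 (by omega), h5] at h4
      have h6 : Module.finrank ℝ (Sp G i l) =
        Module.finrank ℝ (Submodule.span ℝ (Ph G 1 i l)) := rfl
      omega
  refine ⟨?_, hpres, ?_, ?_, hSpi⟩
  · -- V0
    rw [Submodule.eq_bot_iff]
    intro v hv
    apply eq_zero_of_perp hspan
    rintro a ⟨ha, x, hx, hax⟩
    apply perp_of_fix ha
    rw [← hax v]
    exact hv x ⟨TT_N hT hx, G.mem_up_zero x⟩
  · -- moves
    intro j hj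
    by_contra hcon
    push Not at hcon
    rcases Nat.eq_zero_or_pos j with hj0 | hj0
    · subst hj0
      have hall : ∀ j, ∀ v ∈ G.V 1 1, RI (G.ρ j) v ∈ G.V 1 1 := by
        intro j v hv
        rcases Nat.eq_zero_or_pos j with h0 | h0
        · subst h0
          exact hcon v hv
        · exact hpres j 1 v (by omega) hv
      have hinv := inv_all hR hall
      have hirr := hdir.irr (ℝ ∙ e0) ?_
      · rcases hirr with h | h
        · have h1 : Submodule.span ℝ (Ph G 1 0 l) ≤ ℝ ∙ e0 := Submodule.span_le.2 h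
          rw [hspan] at h1
          have h2 := Submodule.finrank_mono h1
          have h3 : Module.finrank ℝ (E d) = d := finrank_euclideanSpace_fin
          rw [finrank_top, h3] at h2
          have h4 : Module.finrank ℝ (ℝ ∙ e0 : Submodule ℝ (E d)) ≤ 1 := by
            refine (finrank_span_le_card ({e0} : Set (E d))).trans ?_
            simp
          omega
        · have h1 : e0 = 0 := by
            apply eq_zero_of_perp hspan
            intro a ha
            have h2 := h a ha
            rw [Submodule.mem_orthogonal_singleton_iff_inner_left] at h2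
            exact h2
          have h2 := hD.norm
          rw [h1, norm_zero] at h2
          exact zero_ne_one h2
      · rintro a ⟨ha, x, hx, hax⟩
        have he : e0 ∈ G.V 1 1 := by
          rw [hD.V1]
          exact Submodule.mem_span_singleton_self e0
        have h1 := hinv x e0 he
        have h2 : RI x e0 = sref a e0 := by
          rw [hR.H x (G.N_le (TT_N hT hx)) e0 (hin e0), ← hax e0, AGeo.R, one_mul, inv_one, mul_one]
        rw [h2, hD.V1, sref] at h1
        have h3 : (2 * ⟪a, e0⟫) • a ∈ (ℝ ∙ e0 : Submodule ℝ (E d)) := by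
          have h4 := Submodule.sub_mem _ (Submodule.mem_span_singleton_self e0) h1
          rw [sub_sub_cancel] at h4
          exact h4
        by_cases h0 : ⟪a, e0⟫ = 0
        · right
          rw [Submodule.mem_orthogonal_singleton_iff_inner_left]
          exact h0
        · left
          have h5 : (2 * ⟪a, e0⟫) ≠ 0 := mul_ne_zero two_ne_zero h0
          exact (Submodule.smul_mem_iff _ h5).1 h3
    · have h1 := (hSTEP d k Γ X G 1).2.2.1 j hj0 (hT.nz (j + 1) (by omega) (by omega))
      apply h1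
      rw [one_mul]
      apply le_antisymm
      · intro w hw
        have h2 := (hpsi (G.ρ j) (j + 1) (RI (G.ρ j) w)).1
          (by rw [RI_sq hR]; exact hw)
        have h3 := hcon _ h2
        rw [RI_sq hR] at h3
        exact h3
      · intro v hv
        have h2 := (hpsi (G.ρ j) (j + 1) (RI (G.ρ j) v)).2 (hcon v hv)
        rw [RI_sq hR] at h2
        exact h2
  · -- scal0
    have hTop := hTI d k Γ X G l hT 1 2 (by norm_num) (by omega)
    have hpm : ∀ a ∈ Ph G 1 2 l, RI (G.ρ 0) a = a ∨ RI (G.ρ 0) a = -a := by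
      rintro a ⟨ha, x, hx, hax⟩
      have hxN := TT_N hT hx
      have hxu : x ∈ G.up 2 := by
        obtain ⟨γ, hγ, rfl⟩ := hx
        exact mul_mem (mul_mem hγ (G.ρ_mem_up (by omega))) (inv_mem hγ)
      have hc : G.ρ 0 * x * (G.ρ 0)⁻¹ = x := by
        rw [G.comm_up (i := 0) (j := 2) (by norm_num) hxu, mul_assoc, mul_inv_cancel, mul_one]
      have h1 := hR.conj (G.ρ 0) x hxN a (hin a)
      rw [hc, hax, hax, sref_self ha, map_neg, sref] at h1
      have h2 : RI (G.ρ 0) a = ⟪a, RI (G.ρ 0) a⟫ • a := by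
        have h3 : (2 : ℝ) • RI (G.ρ 0) a = (2 : ℝ) • (⟪a, RI (G.ρ 0) a⟫ • a) := by
          have h4 : RI (G.ρ 0) a + RI (G.ρ 0) a = (2 * ⟪a, RI (G.ρ 0) a⟫) • a := by
            have h5 := congrArg (fun z => RI (G.ρ 0) a - z) h1
            simp only [sub_neg_eq_add, sub_sub_cancel] at h5
            exact h5
          rw [two_smul, h4, smul_smul]
        exact smul_right_injective _ (two_ne_zero) h3
      have h3 : ‖RI (G.ρ 0) a‖ = 1 := by
        rw [LinearIsometryEquiv.norm_map, ha]
      rw [h2, norm_smul, ha, mul_one, Real.norm_eq_abs] at h3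
      rcases (abs_eq (by norm_num : (0 : ℝ) ≤ 1)).1 h3 with h4 | h4
      · left
        rw [h4, one_smul] at h2
        exact h2
      · right
        rw [h4, neg_smul, one_smul] at h2
        exact h2
    have hext : ∀ δ : ℝ, (∀ a ∈ Ph G 1 2 l, RI (G.ρ 0) a = δ • a) →
        ∀ v ∈ (G.V 1 2)ᗮ, RI (G.ρ 0) v = δ • v := by
      intro δ h v hv
      rw [← hSpi 2 (by norm_num) (by omega)] at hv
      have hv' : v ∈ Submodule.span ℝ (Ph G 1 2 l) := hv
      induction hv' using Submodule.span_induction with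
      | mem x hx => exact h x hx
      | zero => rw [map_zero, smul_zero]
      | add x y hx' hy' hx hy => rw [map_add, hx hx', hy hy', smul_add]
      | smul c x hx' hx => rw [map_smul, hx hx', smul_comm]
    let L : Submodule ℝ (E d) :=
      { carrier := {v | RI (G.ρ 0) v = v}
        add_mem' := by
          intro a b ha hb
          change RI (G.ρ 0) (a + b) = a + b
          rw [map_add, ha, hb]
        zero_mem' := map_zero _
        smul_mem' := by
          intro c a ha
          change RI (G.ρ 0) (c • a) = c • a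
          rw [map_smul, ha] }
    have hL : ∀ v, v ∈ L ↔ RI (G.ρ 0) v = v := fun v => Iff.rfl
    have hLirr : ∀ a ∈ Ph G 1 2 l, a ∈ L ∨ a ∈ Lᗮ := by
      intro a ha
      rcases hpm a ha with h1 | h1
      · exact Or.inl h1
      · right
        rw [Submodule.mem_orthogonal]
        intro u hu
        have h2 : ⟪RI (G.ρ 0) u, RI (G.ρ 0) a⟫ = ⟪u, a⟫ := LinearIsometryEquiv.inner_map_map _ _ _
        rw [(hL u).1 hu, h1, inner_neg_right] at h2
        linarith
    rcases hTop.irr L hLirr with h | h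
    · refine ⟨1, Or.inl rfl, hext 1 ?_⟩
      intro a ha
      rw [one_smul]
      exact h a ha
    · refine ⟨-1, Or.inr rfl, hext (-1) ?_⟩
      intro a ha
      rw [neg_smul, one_smul]
      rcases hpm a ha with h1 | h1
      · exfalso
        have h2 : ⟪a, a⟫ = 0 := Submodule.inner_right_of_mem_orthogonal ((hL a).2 h1) (h a ha)
        rw [inner_self_eq_zero] at h2
        have h3 := ha.1
        rw [h2, norm_zero] at h3
        exact zero_ne_one h3
      · exact h1

end

end FOI
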