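import Pool.Agent.FOI.CStmts

/-!
# III.4: the vector `t = b (ρ 0)` in the case (irr)
-/

namespace FOI

open Lib_helper64.FO FO2 FOK
open scoped RealInnerProductSpace Nat

noncomputable section

namespace IRR3

variable {d k : ℕ} {Γ : Type} [Group Γ] {X : Type} [MulAction Γ X] {G : AGeo d k Γ X} {l : ℕ}
  {RI : Γ → (E d ≃ₗᵢ[ℝ] E d)} {b : Γ → E d} {s : Γ → ℝ} {z0 e0 : E d}

theorem b_one (hI : IrrD G l RI b s z0 e0) : b 1 = 0 := hI.up 1 (one_mem _)

/-- elements of `up 2` fix the vector `t` -/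
theorem fix_t (hI : IrrD G l RI b s z0 e0) {n : Γ} (hn : n ∈ G.up 2) :
    RI n (b (G.ρ 0)) = b (G.ρ 0) := by
  have h1 := hI.mul n (G.ρ 0)
  have h2 := hI.mul (G.ρ 0) n
  have h3 : b n = 0 := hI.up n (G.up_anti (by omega) hn)
  rw [h3, zero_add] at h1
  rw [h3, map_zero, add_zero] at h2
  rw [← h1, ← h2, G.comm_up (i := 0) (j := 2) (by omega) hn]

/-- if `t = 0` then `b = 0` -/
theorem b_zero (hI : IrrD G l RI b s z0 e0) (h0 : b (G.ρ 0) = 0) (γ : Γ) : b γ = 0 := by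
  have hg : γ ∈ gpar G.ρ Set.univ := by rw [G.gen]; trivial
  refine Subgroup.closure_induction (p := fun γ _ => b γ = 0) ?_ (b_one hI) ?_ ?_ hg
  · rintro _ ⟨j, -, rfl⟩
    rcases Nat.eq_zero_or_pos j with rfl | hj
    · exact h0
    · exact hI.up _ (G.ρ_mem_up hj)
  · intro a c _ _ ha hc
    rw [hI.mul, ha, hc, map_zero, add_zero]
  · intro a _ ha
    have h1 := hI.mul a⁻¹ a
    rw [inv_mul_cancel, b_one hI, ha, map_zero, add_zero] at h1
    exact h1.symm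

/-- `f` is bounded if `b = 0` -/
theorem bounded (hI : IrrD G l RI b s z0 e0) (h0 : ∀ γ, b γ = 0) :
    ∃ r : ℝ, ∀ x : X, ‖G.f x - z0‖ ≤ r := by
  have : G.H.FiniteIndex := ⟨G.idx0⟩
  have : Finite (Γ ⧸ G.H) := Subgroup.finite_quotient_of_finiteIndex
  obtain ⟨r, hr⟩ := (Set.finite_range
    (fun q : Γ ⧸ G.H => ‖G.f ((Quotient.out q)⁻¹ • G.x0) - z0‖)).bddAbove
  refine ⟨r, fun x => ?_⟩
  obtain ⟨γ, rfl⟩ := G.trans x
  have h1 : (Quotient.out (QuotientGroup.mk (s := G.H) γ⁻¹))⁻¹ * γ⁻¹ ∈ G.H :=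
    QuotientGroup.eq.1 (QuotientGroup.out_eq' _)
  have h2 : γ * Quotient.out (QuotientGroup.mk (s := G.H) γ⁻¹) ∈ G.H := by
    have := inv_mem h1
    rwa [mul_inv_rev, inv_inv, inv_inv] at this
  have h3 := hI.H _ h2 ((Quotient.out (QuotientGroup.mk (s := G.H) γ⁻¹))⁻¹ • G.x0)
  rw [← mul_smul, mul_inv_cancel_right, h0, add_zero] at h3
  rw [h3, add_sub_cancel_left, LinearIsometryEquiv.norm_map]
  exact hr ⟨_, rfl⟩

end IRR3

open IRR3 in
theorem t_IRR3 : S_IRR3 := by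
  intro d k Γ _ X _ _ G l _ hSp RI hE b s z0 e0 hI _
  refine ⟨?_, ?_, ?_, ?_⟩
  · intro h0
    obtain ⟨r, hr⟩ := bounded hI (b_zero hI h0)
    have hfin := G.locfin (r + r)
    have huniv : {x : X | ‖G.f x - G.f G.x0‖ ≤ r + r} = Set.univ := by
      refine Set.eq_univ_of_forall fun x => ?_
      have e : G.f x - G.f G.x0 = (G.f x - z0) - (G.f G.x0 - z0) := by abel
      show ‖G.f x - G.f G.x0‖ ≤ r + r
      rw [e]
      exact (norm_sub_le _ _).trans (add_le_add (hr x) (hr _))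
    rw [huniv] at hfin
    exact Set.infinite_univ hfin
  · intro n hn
    have h1 : G.R 1 n = G.T n := by rw [AGeo.R, one_mul, inv_one, mul_one]
    rw [h1, ← hE.H n (G.N_le hn.1) _ (by rw [hSp]; trivial)]
    exact fix_t hI hn.2
  · have h1 := hI.mul (G.ρ 0) (G.ρ 0)
    rw [G.sq, b_one hI] at h1
    exact (neg_eq_of_add_eq_zero_right h1.symm).symm
  · intro j hj
    exact fix_t hI (G.ρ_mem_up hj)

end

end FOI
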