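import Pool.Agent.FOI.CStmts

/-!
# III.4: the signs in the case (irr)
-/

namespace FOI

open Lib_helper64.FO FO2 FOK
open scoped RealInnerProductSpace Nat

noncomputable section

namespace IRR4

variable {d k : ℕ} {Γ : Type} [Group Γ] {X : Type} [MulAction Γ X] {G : AGeo d k Γ X} {l : ℕ}
  {RI : Γ → (E d ≃ₗᵢ[ℝ] E d)} {b : Γ → E d} {s : Γ → ℝ} {z0 e0 : E d}

theorem RI_one (hE : IsExt G l RI) : RI 1 = 1 := by
  have h2 : RI 1 * RI 1 = RI 1 := by rw [← hE.mul, one_mul]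
  exact mul_eq_left.1 h2

theorem RI_mul_apply (hE : IsExt G l RI) (γ δ : Γ) (v : E d) : RI (γ * δ) v = RI γ (RI δ v) := by
  rw [hE.mul]; rfl

theorem RI_sq (hE : IsExt G l RI) (j : ℕ) (v : E d) : RI (G.ρ j) (RI (G.ρ j) v) = v := by
  rw [← RI_mul_apply hE, G.sq, RI_one hE]; rfl

theorem b_one (hI : IrrD G l RI b s z0 e0) : b 1 = 0 := hI.up 1 (one_mem _)

/-- a common fixed point of the affine maps -/
theorem fixed (hE : IsExt G l RI) (hI : IrrD G l RI b s z0 e0) {q : E d}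
    (h0 : b (G.ρ 0) + RI (G.ρ 0) q = q) (h1 : ∀ j, 1 ≤ j → RI (G.ρ j) q = q) (γ : Γ) :
    b γ + RI γ q = q := by
  have hg : γ ∈ gpar G.ρ Set.univ := by rw [G.gen]; trivial
  refine Subgroup.closure_induction (p := fun γ _ => b γ + RI γ q = q) ?_ ?_ ?_ ?_ hg
  · rintro _ ⟨j, -, rfl⟩
    rcases Nat.eq_zero_or_pos j with rfl | hj
    · exact h0
    · show b (G.ρ j) + RI (G.ρ j) q = q
      rw [hI.up _ (G.ρ_mem_up hj), h1 j hj, zero_add]
  · rw [b_one hI, RI_one hE, zero_add]; rfl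
  · intro a c _ _ ha hc
    rw [hI.mul, RI_mul_apply hE, add_assoc, ← map_add, hc, ha]
  · intro a _ ha
    have h2 := hI.mul a⁻¹ a
    rw [inv_mul_cancel, b_one hI] at h2
    have h3 : RI a⁻¹ (b a + RI a q) = RI a⁻¹ q := by rw [ha]
    rw [map_add, ← RI_mul_apply hE, inv_mul_cancel, RI_one hE] at h3
    have h4 : RI a⁻¹ (b a) + q = RI a⁻¹ q := h3
    rw [← h4, ← add_assoc, ← h2, zero_add]

/-- `f` is bounded if the affine maps have a common fixed point -/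
theorem bounded (hI : IrrD G l RI b s z0 e0) {q : E d}
    (h0 : ∀ γ, b γ + RI γ q = q) : ∃ r : ℝ, ∀ x : X, ‖G.f x - (z0 + q)‖ ≤ r := by
  have : G.H.FiniteIndex := ⟨G.idx0⟩
  have : Finite (Γ ⧸ G.H) := Subgroup.finite_quotient_of_finiteIndex
  obtain ⟨r, hr⟩ := (Set.finite_range
    (fun c : Γ ⧸ G.H => ‖G.f ((Quotient.out c)⁻¹ • G.x0) - (z0 + q)‖)).bddAbove
  refine ⟨r, fun x => ?_⟩
  obtain ⟨γ, rfl⟩ := G.trans x
  have h1 : (Quotient.out (QuotientGroup.mk (s := G.H) γ⁻¹))⁻¹ * γ⁻¹ ∈ G.H :=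
    QuotientGroup.eq.1 (QuotientGroup.out_eq' _)
  have h2 : γ * Quotient.out (QuotientGroup.mk (s := G.H) γ⁻¹) ∈ G.H := by
    have := inv_mem h1
    rwa [mul_inv_rev, inv_inv, inv_inv] at this
  have h3 := hI.H _ h2 ((Quotient.out (QuotientGroup.mk (s := G.H) γ⁻¹))⁻¹ • G.x0)
  have h4 := h0 (γ * Quotient.out (QuotientGroup.mk (s := G.H) γ⁻¹))
  rw [← mul_smul, mul_inv_cancel_right] at h3
  have h5 : G.f (γ • G.x0) - (z0 + q) =
      RI (γ * Quotient.out (QuotientGroup.mk (s := G.H) γ⁻¹))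
        (G.f ((Quotient.out (QuotientGroup.mk (s := G.H) γ⁻¹))⁻¹ • G.x0) - (z0 + q)) := by
    generalize γ * Quotient.out (QuotientGroup.mk (s := G.H) γ⁻¹) = δ at h3 h4 ⊢
    generalize G.f ((Quotient.out (QuotientGroup.mk (s := G.H) γ⁻¹))⁻¹ • G.x0) = w at h3 ⊢
    have h6 : w - (z0 + q) = (w - z0) - q := by abel
    have h7 : b δ = q - RI δ q := eq_sub_of_add_eq h4
    rw [h3, h6, map_sub (RI δ) (w - z0) q, h7]
    abel
  rw [h5, LinearIsometryEquiv.norm_map]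
  exact hr ⟨_, rfl⟩

/-- the direction of `t` -/
theorem dir (hE : IsExt G l RI) (hI : IrrD G l RI b s z0 e0) (hG : IrrG G l RI)
    (hT : IrrT G RI (b (G.ρ 0))) (hd : 2 ≤ d) :
    ∃ c : ℝ, c • (e0 - RI (G.ρ 0) e0) = b (G.ρ 0) := by
  have he0 : e0 ∈ G.V 1 1 := by rw [hI.V1]; exact Submodule.mem_span_singleton_self e0
  have he2 : e0 ∈ G.V 1 2 := G.V_mono 1 (by omega) he0
  -- the line `V_1` is not invariant
  have hmv : ∀ c : ℝ, RI (G.ρ 0) e0 ≠ c • e0 := by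
    intro c hc
    obtain ⟨v, hv, hv'⟩ := hG.moves 0 (by omega)
    rw [zero_add, hI.V1] at hv hv'
    obtain ⟨α, rfl⟩ := Submodule.mem_span_singleton.1 hv
    apply hv'
    rw [map_smul, hc]
    exact Submodule.smul_mem _ _ (Submodule.smul_mem _ _ (Submodule.mem_span_singleton_self e0))
  have hx0 : e0 - RI (G.ρ 0) e0 ≠ 0 := by
    intro h
    exact hmv 1 (by rw [one_smul]; exact (sub_eq_zero.1 h).symm)
  have hx2 : e0 - RI (G.ρ 0) e0 ∈ G.V 1 2 :=
    Submodule.sub_mem _ he2 (hG.pres 0 2 e0 (by omega) he2)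
  have hxρ : RI (G.ρ 0) (e0 - RI (G.ρ 0) e0) = -(e0 - RI (G.ρ 0) e0) := by
    rw [map_sub, RI_sq hE, neg_sub]
  by_contra hcon
  push Not at hcon
  have hli : LinearIndependent ℝ ![e0 - RI (G.ρ 0) e0, b (G.ρ 0)] :=
    (LinearIndependent.pair_iff' hx0).2 hcon
  have h1 := finrank_span_eq_card hli
  have hr : Set.range ![e0 - RI (G.ρ 0) e0, b (G.ρ 0)] = {e0 - RI (G.ρ 0) e0, b (G.ρ 0)} := by
    simp [Set.pair_comm]
  rw [hr, Fintype.card_fin] at h1
  have h2 : Submodule.span ℝ {e0 - RI (G.ρ 0) e0, b (G.ρ 0)} ≤ G.V 1 2 := by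
    rw [Submodule.span_le]
    rintro v (rfl | hv)
    · exact hx2
    · rw [Set.mem_singleton_iff] at hv
      rw [hv]
      exact hT.V
  have h3 := Submodule.eq_of_le_of_finrank_eq h2 (by rw [h1, hI.dimV 2 (by omega) hd])
  rw [← h3] at he2
  obtain ⟨α, β, h4⟩ := Submodule.mem_span_pair.1 he2
  have h5 : RI (G.ρ 0) e0 = -e0 := by
    rw [← h4, map_add, map_smul, map_smul, hxρ, hT.ρ0]
    module
  exact hmv (-1) (by rw [h5, neg_one_smul])

end IRR4

open IRR4 in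
theorem t_IRR4 : M_IRR4 := by
  intro hEIG d k Γ _ X _ _ G l hA hSp RI hE b s z0 e0 hI hG hT
  have hd : 2 ≤ d := by
    have := hA.ld
    omega
  have hdimV : ∀ i, i ≤ d → Module.finrank ℝ (G.V 1 i) = i := by
    intro i hi
    rcases Nat.eq_zero_or_pos i with rfl | h0
    · rw [hG.V0]; exact finrank_bot ℝ _
    · exact hI.dimV i h0 hi
  have key : ∀ j, 1 ≤ j → j < d → ∃ ε : ℝ, (ε = 1 ∨ ε = -1) ∧
      ∀ v ∈ G.V 1 j, RI (G.ρ j) v = ε • v := by
    intro j hj hjd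
    refine hEIG d j (fun i => G.V 1 i) (RI (G.ρ j)) (fun i => RI (G.ρ i))
      (fun i _ => G.V_mono 1 (Nat.le_succ _)) (fun i hi => hdimV i (by omega))
      (fun i hi v hv => hG.pres j i v (by omega) hv) (fun v _ => RI_sq hE j v) ?_
    intro i hi
    refine ⟨fun v _ => ?_, fun m _ hmi v hv => hG.pres i m v hmi hv, hG.moves i (by omega)⟩
    rw [← RI_mul_apply hE, ← RI_mul_apply hE, G.comm i j hi]
  have p1 : ∀ j, 2 ≤ j → j < d → ∀ v ∈ G.V 1 j, RI (G.ρ j) v = v := by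
    intro j hj hjd v hv
    obtain ⟨ε, -, h1⟩ := key j (by omega) hjd
    have h3 := h1 _ (G.V_mono 1 hj hT.V)
    rw [hT.ρj j hj] at h3
    have h4 : ε = 1 := by
      have h5 : (ε - 1) • b (G.ρ 0) = 0 := by rw [sub_smul, one_smul, ← h3, sub_self]
      rcases smul_eq_zero.1 h5 with h6 | h6
      · linarith
      · exact absurd h6 hT.ne
    rw [h1 v hv, h4, one_smul]
  refine ⟨p1, ?_⟩
  have he0 : e0 ∈ G.V 1 1 := by rw [hI.V1]; exact Submodule.mem_span_singleton_self e0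
  obtain ⟨ε, hε, h1⟩ := key 1 le_rfl (by omega)
  rcases hε with rfl | rfl
  · exfalso
    have h2 : ∀ j, 1 ≤ j → RI (G.ρ j) e0 = e0 := by
      intro j hj
      rcases Nat.lt_or_ge j d with hjd | hjd
      · rcases Nat.eq_or_lt_of_le hj with rfl | hj2
        · rw [h1 e0 he0, one_smul]
        · exact p1 j hj2 hjd e0 (G.V_mono 1 hj he0)
      · rw [G.one_of_ge j hjd, RI_one hE]; rfl
    obtain ⟨c, hc⟩ := dir hE hI hG hT hd
    obtain ⟨r, hr⟩ := bounded hI (fixed hE hI (q := c • e0)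
      (by rw [← hc, map_smul, smul_sub, sub_add_cancel])
      (fun j hj => by rw [map_smul, h2 j hj]))
    have hfin := G.locfin (r + r)
    have huniv : {x : X | ‖G.f x - G.f G.x0‖ ≤ r + r} = Set.univ := by
      refine Set.eq_univ_of_forall fun x => ?_
      have e : G.f x - G.f G.x0 = (G.f x - (z0 + c • e0)) - (G.f G.x0 - (z0 + c • e0)) := by abel
      show ‖G.f x - G.f G.x0‖ ≤ r + r
      rw [e]
      exact (norm_sub_le _ _).trans (add_le_add (hr x) (hr _))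
    rw [huniv] at hfin
    exact Set.infinite_univ hfin
  · rw [h1 e0 he0, neg_one_smul]

end

end FOI
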