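import Pool.Agent.FOI.DStmts

namespace FOI
namespace IXW

variable {m : ℕ}

theorem inv_prod {G : Type} [Group G] (f : Fin m → G) (hf : ∀ j, f j * f j = 1)
    (w : List (Fin m)) : (w.map f).prod⁻¹ = (w.reverse.map f).prod := by
  induction w with
  | nil => simp
  | cons a w ih =>
    have ha : (f a)⁻¹ = f a := inv_eq_of_mul_eq_one_left (hf a)
    simp only [List.map_cons, List.prod_cons, mul_inv_rev, ih, List.reverse_cons, List.map_append,
      List.map_nil, List.prod_append, List.prod_nil, mul_one, ha]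

theorem word {G : Type} [Group G] (f : Fin m → G) (hf : ∀ j, f j * f j = 1) (x : G)
    (hx : x ∈ Subgroup.closure (Set.range f)) : ∃ w : List (Fin m), (w.map f).prod = x := by
  induction hx using Subgroup.closure_induction with
  | mem x hx =>
    obtain ⟨j, rfl⟩ := hx
    exact ⟨[j], by simp⟩
  | one => exact ⟨[], by simp⟩
  | mul x y _ _ ihx ihy =>
    obtain ⟨w, rfl⟩ := ihx
    obtain ⟨v, rfl⟩ := ihy
    exact ⟨w ++ v, by simp⟩
  | inv x _ ih =>
    obtain ⟨w, rfl⟩ := ih
    exact ⟨w.reverse, (inv_prod f hf w).symm⟩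

theorem prod_mem {G : Type} [Group G] (f : Fin m → G) (w : List (Fin m)) :
    (w.map f).prod ∈ Subgroup.closure (Set.range f) := by
  apply Subgroup.list_prod_mem
  intro x hx
  obtain ⟨j, _, rfl⟩ := List.mem_map.1 hx
  exact Subgroup.subset_closure ⟨j, rfl⟩

theorem card_eq {A B C : Type} (F : A → B) (K : A → C) (hF : Function.Surjective F)
    (hK : Function.Surjective K) (h : ∀ a b, F a = F b ↔ K a = K b) : Nat.card B = Nat.card C := by
  have e : Setoid.ker F = Setoid.ker K := by
    ext a b
    exact h a b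
  have e1 := Setoid.quotientKerEquivOfSurjective F hF
  have e2 := Setoid.quotientKerEquivOfSurjective K hK
  rw [← e] at e2
  exact Nat.card_congr (e1.symm.trans e2)

end IXW

theorem t_IXW : S_IXW := by
  intro m Γ Q _ _ ρ q H H' hgen hρ hq hw
  have key : ∀ w v : List (Fin m), (w.map ρ).prod⁻¹ * (v.map ρ).prod ∈ H ↔
      (w.map q).prod⁻¹ * (v.map q).prod ∈ H' := by
    intro w v
    have := hw (w.reverse ++ v)
    rw [List.map_append, List.prod_append, List.map_append, List.prod_append,
      ← IXW.inv_prod ρ hρ, ← IXW.inv_prod q hq] at this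
    exact this
  unfold Subgroup.relIndex Subgroup.index
  refine IXW.card_eq (A := List (Fin m)) (fun w => ((w.map ρ).prod : Γ ⧸ H))
    (fun w => ((⟨(w.map q).prod, IXW.prod_mem q w⟩ : Subgroup.closure (Set.range q)) :
      (Subgroup.closure (Set.range q)) ⧸ (H'.subgroupOf (Subgroup.closure (Set.range q)))))
    ?_ ?_ ?_
  · intro x
    obtain ⟨y, rfl⟩ := QuotientGroup.mk_surjective x
    obtain ⟨w, hw⟩ := IXW.word ρ hρ y (by rw [hgen]; exact Subgroup.mem_top y)
    exact ⟨w, by simp only [hw]⟩
  · intro x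
    obtain ⟨⟨y, hy⟩, rfl⟩ := QuotientGroup.mk_surjective x
    obtain ⟨w, hw⟩ := IXW.word q hq y hy
    exact ⟨w, by simp only [hw]⟩
  · intro w v
    simp only [QuotientGroup.eq]
    rw [key w v, Subgroup.mem_subgroupOf]
    rfl

end FOI
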