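import Pool.Agent.FOI.CStmts

/-!
# Module LCLS: assembly of the linear classification
-/

namespace FOI

open Lib_helper64.FO FO2 FOK
open scoped RealInnerProductSpace Nat

theorem LCLS.unit_vec {n : ℕ} (W : Submodule ℝ (E n)) (h : Module.finrank ℝ W = 1) :
    ∃ y ∈ W, ‖y‖ = 1 := by
  have hne : W ≠ ⊥ := by
    intro h0
    rw [h0, finrank_bot] at h
    exact zero_ne_one h
  obtain ⟨x, hx, hx0⟩ := Submodule.exists_mem_ne_zero_of_ne_bot hne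
  refine ⟨(‖x‖⁻¹ : ℝ) • x, W.smul_mem _ hx, ?_⟩
  exact norm_smul_inv_norm (𝕜 := ℝ) hx0

theorem LCLS.mem_of {n : ℕ} {W : Submodule ℝ (E n)} {y x : E n} (hy : y ∈ W)
    (h : y = x ∨ y = -x) : x ∈ W := by
  rcases h with h | h
  · rw [← h]; exact hy
  · rw [h] at hy
    exact (Submodule.neg_mem_iff W).1 hy

theorem t_LCLS : M_LCLS := by
  intro hPOS hMA hMD hMC n l j0 Φ V gg hL
  obtain ⟨y0, hy0, hn0⟩ := LCLS.unit_vec (V 1) (hL.dimV 1 (by have := hL.ln; omega))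
  obtain ⟨hA, hD⟩ := hPOS n l j0 Φ V gg hL y0 hy0 hn0
  rcases hL.typ with ⟨v, hv⟩ | ⟨u, hu⟩
  · obtain ⟨i, hi⟩ := hA v hv
    obtain ⟨v', gm, hs, hv', h0, hf⟩ := hMA n l j0 Φ V gg hL v hv ⟨i, LCLS.mem_of hy0 hi⟩
    exact ⟨gm, hs, Or.inl ⟨v', hv', h0, hf⟩⟩
  · rcases hD u hu with ⟨i, hi⟩ | hi
    · obtain ⟨u', gm, ε, hs, hu', h0, he, he1, hc⟩ :=
        hMC n l j0 Φ V gg hL u hu ⟨i, LCLS.mem_of hy0 hi⟩
      exact ⟨gm, hs, Or.inr (Or.inr ⟨u', ε, hu', h0, he, he1, hc⟩)⟩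
    · obtain ⟨u', gm, hs, hu', h0, hf⟩ := hMD n l j0 Φ V gg hL u hu y0 hy0 hi
      exact ⟨gm, hs, Or.inr (Or.inl ⟨u', hu', h0, hf⟩)⟩

end FOI
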