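import Pool.Agent.FOI.BStmts
import Mathlib.Algebra.Module.ZLattice.Basic

/-!
# LEX: an additive map of a lattice extends to a linear map
-/

namespace FOI

open Lib_helper64.FO FO2 FOK
open scoped RealInnerProductSpace Nat

noncomputable section

namespace LEX

variable {d : ℕ}

/-- the part of `S` in `I`, as a `ℤ`-submodule of `I` -/
def Lat (I : Submodule ℝ (E d)) (S : AddSubgroup (E d)) : Submodule ℤ I where
  carrier := {x | (x : E d) ∈ S}
  add_mem' := by
    intro a b ha hb
    exact S.add_mem ha hb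
  zero_mem' := S.zero_mem
  smul_mem' := by
    intro c x hx
    change ((c • x : I) : E d) ∈ S
    have : ((c • x : I) : E d) = c • (x : E d) := rfl
    rw [this]
    exact S.zsmul_mem hx c

theorem mem_Lat {I : Submodule ℝ (E d)} {S : AddSubgroup (E d)} (x : I) :
    x ∈ Lat I S ↔ (x : E d) ∈ S := Iff.rfl

theorem Lat_discrete {I : Submodule ℝ (E d)} {S : AddSubgroup (E d)}
    (hS : ∀ r : ℝ, {v | v ∈ S ∧ ‖v‖ ≤ r}.Finite) : DiscreteTopology (Lat I S) := by
  apply discreteTopology_of_isOpen_singleton_zero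
  have hfin : {x : Lat I S | ‖x‖ ≤ 1}.Finite := by
    apply Set.Finite.of_finite_image (f := fun x : Lat I S => ((x : I) : E d))
    · apply (hS 1).subset
      rintro _ ⟨x, hx, rfl⟩
      exact ⟨x.2, hx⟩
    · intro x _ y _ hxy
      exact Subtype.ext (Subtype.ext hxy)
  have h0 : ({0} : Set (Lat I S)) =
      Metric.ball (0 : Lat I S) 1 ∩ ({x : Lat I S | ‖x‖ ≤ 1} \ {0})ᶜ := by
    ext x
    constructor
    · intro hx
      rw [Set.mem_singleton_iff] at hx
      subst hx
      refine ⟨Metric.mem_ball_self one_pos, ?_⟩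
      intro h
      exact h.2 rfl
    · rintro ⟨h1, h2⟩
      by_contra h3
      apply h2
      refine ⟨?_, h3⟩
      rw [mem_ball_zero_iff] at h1
      exact h1.le
  rw [h0]
  exact Metric.isOpen_ball.inter (hfin.subset Set.sdiff_subset).isClosed.isOpen_compl

theorem Lat_span {I : Submodule ℝ (E d)} {S : AddSubgroup (E d)}
    (hI : Submodule.span ℝ (S : Set (E d)) = I) :
    Submodule.span ℝ ((Lat I S : Submodule ℤ I) : Set I) = ⊤ := by
  have h1 : ((Lat I S : Submodule ℤ I) : Set I) = (I.subtype) ⁻¹' (S : Set (E d)) := rfl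
  rw [h1]
  subst hI
  exact Submodule.span_span_coe_preimage

theorem main (I : Submodule ℝ (E d)) (S : AddSubgroup (E d)) (p : E d → E d)
    (hS : ∀ r : ℝ, {v | v ∈ S ∧ ‖v‖ ≤ r}.Finite)
    (hI : Submodule.span ℝ (S : Set (E d)) = I)
    (hp : ∀ v ∈ S, ∀ w ∈ S, p (v + w) = p v + p w) :
    ∃ g : I →ₗ[ℝ] E d, ∀ v : I, (v : E d) ∈ S → g v = p v := by
  have hd : DiscreteTopology (Lat I S) := Lat_discrete hS
  have hz : IsZLattice ℝ (Lat I S) := ⟨Lat_span hI⟩
  have : Module.Finite ℤ (Lat I S) := ZLattice.module_finite ℝ (Lat I S)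
  have : Module.Free ℤ (Lat I S) := ZLattice.module_free ℝ (Lat I S)
  let b := Module.Free.chooseBasis ℤ (Lat I S)
  let B := b.ofZLatticeBasis ℝ (Lat I S)
  let g : I →ₗ[ℝ] E d := B.constr ℝ (fun i => p ((b i : I) : E d))
  refine ⟨g, ?_⟩
  let P : Lat I S →+ E d :=
    AddMonoidHom.mk' (fun x => p ((x : I) : E d)) (fun x y => hp _ x.2 _ y.2)
  let Q : Lat I S →+ E d := g.toAddMonoidHom.comp (Lat I S).toAddSubgroup.subtype
  have hPQ : Q.toIntLinearMap = P.toIntLinearMap := by
    apply b.ext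
    intro i
    change g (b i : I) = p ((b i : I) : E d)
    have h1 : (b i : I) = B i := (b.ofZLatticeBasis_apply ℝ (Lat I S) i).symm
    rw [h1]
    change B.constr ℝ (fun i => p ((b i : I) : E d)) (B i) = _
    rw [Module.Basis.constr_basis, ← h1]
  intro v hv
  have := LinearMap.congr_fun hPQ (⟨v, hv⟩ : Lat I S)
  exact this

end LEX

theorem t_LEX : S_LEX := by
  intro d I S p hS hI hp
  obtain ⟨g, hg⟩ := LEX.main I S p hS hI hp
  refine ⟨g.comp (I.orthogonalProjectionOnto : E d →ₗ[ℝ] I) +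
    (LinearMap.id - I.subtype.comp (I.orthogonalProjectionOnto : E d →ₗ[ℝ] I)), ?_, ?_⟩
  · intro v hv
    have hvI : v ∈ I := by
      rw [← hI]
      exact Submodule.subset_span hv
    have h1 : I.orthogonalProjectionOnto v = ⟨v, hvI⟩ :=
      Submodule.orthogonalProjectionOnto_mem_subspace_eq_self (K := I) ⟨v, hvI⟩
    change g (I.orthogonalProjectionOnto v) + (v - (I.orthogonalProjectionOnto v : E d)) = p v
    rw [h1, hg _ hv]
    simp
  · intro v hv
    have h1 : I.orthogonalProjectionOnto v = 0 :=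
      Submodule.orthogonalProjectionOnto_apply_of_mem_orthogonal hv
    change g (I.orthogonalProjectionOnto v) + (v - (I.orthogonalProjectionOnto v : E d)) = v
    rw [h1]
    simp

end

end FOI
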