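import Pool.Agent.FOI.CStmts

/-!
# III.5 (irr), second half: the structure `LinX`
-/

namespace FOI

open Lib_helper64.FO FO2 FOK
open scoped RealInnerProductSpace

noncomputable section

namespace LI2

variable {d k : ℕ} {Γ : Type} [Group Γ] {X : Type} [MulAction Γ X] (G : AGeo d k Γ X)

/-- the extension as a homomorphism -/
def hom {l : ℕ} {RI : Γ → (E d ≃ₗᵢ[ℝ] E d)} (h : IsExt G l RI) : Γ →* (E d ≃ₗᵢ[ℝ] E d) :=
  MonoidHom.mk' RI h.mul

theorem hom_apply {l : ℕ} {RI : Γ → (E d ≃ₗᵢ[ℝ] E d)} (h : IsExt G l RI) (γ : Γ) :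
    hom G h γ = RI γ := rfl

/-- minus one -/
def nn : E d ≃ₗᵢ[ℝ] E d := LinearIsometryEquiv.neg ℝ

theorem nn_comm (A : E d ≃ₗᵢ[ℝ] E d) : nn * A = A * nn := by
  ext1 v
  change -(A v) = A (-v)
  rw [map_neg]

theorem gg_eq {RI : Γ → (E d ≃ₗᵢ[ℝ] E d)} {j : ℕ} (h : j ≠ 1) : ggI G RI j = RI (G.ρ j) := by
  rw [ggI, if_neg h]

theorem gg_or (RI : Γ → (E d ≃ₗᵢ[ℝ] E d)) (j : ℕ) :
    ggI G RI j = RI (G.ρ j) ∨ ggI G RI j = nn * RI (G.ρ j) := by
  by_cases h : j = 1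
  · right
    subst h
    rw [ggI, if_pos rfl]
    rfl
  · left
    exact gg_eq G h

theorem prod_or {l : ℕ} {RI : Γ → (E d ≃ₗᵢ[ℝ] E d)} (h : IsExt G l RI) (L : List ℕ) :
    (L.map (ggI G RI)).prod = RI (L.map G.ρ).prod ∨
      (L.map (ggI G RI)).prod = nn * RI (L.map G.ρ).prod := by
  have hnn : (nn : E d ≃ₗᵢ[ℝ] E d) * nn = 1 := by
    ext1 v
    change -(-v) = v
    rw [neg_neg]
  induction L with
  | nil =>
    left
    rw [List.map_nil, List.map_nil, List.prod_nil, List.prod_nil]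
    exact (map_one (hom G h)).symm
  | cons a L ih =>
    rw [List.map_cons, List.map_cons, List.prod_cons, List.prod_cons, h.mul]
    rcases gg_or G RI a with h1 | h1 <;> rcases ih with h2 | h2 <;> rw [h1, h2]
    · exact Or.inl rfl
    · right
      rw [← mul_assoc, ← nn_comm, mul_assoc]
    · right
      rw [mul_assoc]
    · left
      rw [nn_comm (RI (G.ρ a)), mul_assoc, ← mul_assoc nn nn, hnn, one_mul]

theorem lprod_mem (L : List ℕ) (S : Subgroup Γ) (h : ∀ a ∈ L, G.ρ a ∈ S) :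
    (L.map G.ρ).prod ∈ S := by
  apply Subgroup.list_prod_mem
  intro x hx
  obtain ⟨a, ha, rfl⟩ := List.mem_map.1 hx
  exact h a ha

/-- `RI n = R 1 n` -/
theorem RI_eq {l : ℕ} {RI : Γ → (E d ≃ₗᵢ[ℝ] E d)} (h : IsExt G l RI) (hS : Sp G 0 l = ⊤)
    {n : Γ} (hn : n ∈ G.N) (v : E d) : RI n v = G.R 1 n v := by
  rw [h.H n (G.N_le hn) v (by rw [hS]; trivial), AGeo.R, one_mul, inv_one, mul_one]

theorem eq_one {l : ℕ} {RI : Γ → (E d ≃ₗᵢ[ℝ] E d)} (h : IsExt G l RI) (hS : Sp G 0 l = ⊤)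
    {n : Γ} (hn : n ∈ G.N) (hu : n ∈ G.up 1) (h1 : ∀ v, RI n v = v) : n = 1 := by
  apply G.eq_one_of_R (g := 1) hn (G.up_fix_x0 hu)
  intro y
  rw [← RI_eq G h hS hn, h1]

/-- an element of `N` in `mid a b` that fixes `V_i` is in `mid i b` -/
theorem mem_mid {l : ℕ} {RI : Γ → (E d ≃ₗᵢ[ℝ] E d)} (h : IsExt G l RI) (hS : Sp G 0 l = ⊤)
    {n : Γ} (hn : n ∈ G.N) {a b i : ℕ} (ha : 1 ≤ a) (hi : a ≤ i) (hm : n ∈ G.mid a b)
    (h1 : ∀ v ∈ G.V 1 i, RI n v = v) : n ∈ G.mid i b := by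
  refine G.mid_inf_up hm ?_ hi
  obtain ⟨i', rfl⟩ : ∃ i', i = i' + 1 := ⟨i - 1, by omega⟩
  apply G.mem_up_of_R' (g := 1) hn (G.up_fix_x0 (G.up_anti ha (G.mid_le_up a b hm)))
  intro v hv
  rw [← RI_eq G h hS hn, h1 v hv]

/-- the group generated by one generator -/
theorem mid_one {i : ℕ} {γ : Γ} (h : γ ∈ G.mid i (i + 1)) : γ = 1 ∨ γ = G.ρ i := by
  have hle : G.mid i (i + 1) ≤ Subgroup.zpowers (G.ρ i) := by
    rw [AGeo.mid, gpar, Subgroup.closure_le]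
    rintro _ ⟨j, hj, rfl⟩
    have hj' : j = i := by
      have h1 : i ≤ j ∧ j < i + 1 := hj
      omega
    rw [hj']
    exact Subgroup.mem_zpowers _
  obtain ⟨m, rfl⟩ := Subgroup.mem_zpowers_iff.1 (hle h)
  have h2 : G.ρ i ^ (2 : ℤ) = 1 := by
    rw [zpow_two, G.sq]
  rcases Int.even_or_odd' m with ⟨c, rfl | rfl⟩
  · left
    rw [zpow_mul, h2, one_zpow]
  · right
    rw [zpow_add, zpow_mul, h2, one_zpow, one_mul, zpow_one]

end LI2

open LI2 in
theorem t_LI2 : M_LI2 := by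
  intro _ d k Γ _ X _ _ G l hT hS RI h
  have hl5 := hT.l5
  have hld := hT.ld
  have hN : ∀ j, l - 3 ≤ j → G.ρ j ∈ G.N := fun j hj => hT.up (G.ρ_mem_up hj)
  have hpow : ∀ a b : ℕ, a ≠ 1 → b ≠ 1 →
      (ggI G RI a * ggI G RI b) ^ 3 = RI ((G.ρ a * G.ρ b) ^ 3) := by
    intro a b ha hb
    rw [gg_eq G ha, gg_eq G hb, ← h.mul]
    exact (map_pow (hom G h) (G.ρ a * G.ρ b) 3).symm
  have hone : RI 1 = 1 := map_one (hom G h)
  refine ⟨?_, ?_, ?_, ?_⟩
  · by_contra hcon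
    push Not at hcon
    rw [gg_eq G (by omega)] at hcon
    exact G.ne_one (d - 1) (by omega)
      (eq_one G h hS (hN _ (by omega)) (G.ρ_mem_up (by omega)) hcon)
  · by_contra hcon
    push Not at hcon
    rw [hpow _ _ (by omega) (by omega), gg_eq G (by omega)] at hcon
    have hmN : (G.ρ (d - 4) * G.ρ (d - 3)) ^ 3 ∈ G.N :=
      pow_mem (mul_mem (hN _ (by omega)) (hN _ (by omega))) 3
    have hmM : (G.ρ (d - 4) * G.ρ (d - 3)) ^ 3 ∈ G.mid (d - 4) (d - 2) :=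
      pow_mem (mul_mem (G.ρ_mem_mid (by omega) (by omega)) (G.ρ_mem_mid (by omega) (by omega))) 3
    have h1 : (G.ρ (d - 4) * G.ρ (d - 3)) ^ 3 * G.ρ (d - 1) = 1 := by
      apply eq_one G h hS (mul_mem hmN (hN _ (by omega)))
        (mul_mem (G.up_anti (by omega) (G.mid_le_up _ _ hmM)) (G.ρ_mem_up (by omega)))
      intro v
      have e1 : RI (G.ρ (d - 1)) * RI (G.ρ (d - 1)) = 1 := by
        rw [← h.mul, G.sq, hone]
      rw [h.mul]
      change RI ((G.ρ (d - 4) * G.ρ (d - 3)) ^ 3) (RI (G.ρ (d - 1)) v) = v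
      rw [hcon]
      exact congrArg (fun e : E d ≃ₗᵢ[ℝ] E d => e v) e1
    have h2 : (G.ρ (d - 4) * G.ρ (d - 3)) ^ 3 = G.ρ (d - 1) := by
      rw [← G.inv_ρ (d - 1)]
      exact eq_inv_of_mul_eq_one_left h1
    rw [h2] at hmM
    have h3 := G.mid_inf_up hmM (G.ρ_mem_up (le_refl (d - 1))) (by omega)
    exact G.ne_one (d - 1) (by omega) (G.mid_eq_bot (by omega) h3)
  · intro j hj hjl hV
    -- the element of `Γ`
    set W : Γ := ((List.range' (j - 1) (l + 1 - j)).map G.ρ).prod with hW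
    have hWm : W ∈ G.mid (j - 1) (l + 1) := by
      apply lprod_mem G
      intro a ha
      rw [List.mem_range'_1] at ha
      exact G.ρ_mem_mid ha.1 (by omega)
    set q : Γ := W⁻¹ * G.ρ j * W with hq
    have hPP : (PP (ggI G RI) j l)⁻¹ * ggI G RI j * PP (ggI G RI) j l = RI q := by
      have e1 : RI q = (RI W)⁻¹ * RI (G.ρ j) * RI W := by
        rw [hq, h.mul, h.mul]
        congr 2
        exact map_inv (hom G h) W
      rw [e1, gg_eq G (by omega : j ≠ 1), PP]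
      rcases prod_or G h (List.range' (j - 1) (l + 1 - j)) with h1 | h1
      · rw [h1]
      · rw [h1, ← hW, nn_comm, mul_inv_rev]
        have e2 : (nn : E d ≃ₗᵢ[ℝ] E d)⁻¹ * (RI W)⁻¹ * RI (G.ρ j) * (RI W * nn) =
            nn⁻¹ * (((RI W)⁻¹ * RI (G.ρ j) * RI W) * nn) := by
          simp only [mul_assoc]
        rw [e2, ← nn_comm, inv_mul_cancel_left]
    have hYY : YY (ggI G RI) j l = RI ((G.ρ l * q) ^ 2) := by
      rw [YY, hPP, gg_eq G (by omega : l ≠ 1), ← h.mul]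
      exact (map_pow (hom G h) (G.ρ l * q) 2).symm
    have hqq : q * q = 1 := by
      rw [hq]
      have e : W⁻¹ * G.ρ j * W * (W⁻¹ * G.ρ j * W) = W⁻¹ * (G.ρ j * G.ρ j) * W := by group
      rw [e, G.sq, mul_one, inv_mul_cancel]
    have hqi : q⁻¹ = q := by
      rw [inv_eq_iff_mul_eq_one]
      exact hqq
    have hqm : q ∈ G.mid (j - 1) (l + 1) :=
      mul_mem (mul_mem (inv_mem hWm) (G.ρ_mem_mid (by omega) (by omega))) hWm
    have hyN : (G.ρ l * q) ^ 2 ∈ G.N := by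
      have e : (G.ρ l * q) ^ 2 = G.ρ l * (q * G.ρ l * q⁻¹) := by
        rw [hqi, pow_two]
        simp only [mul_assoc]
      rw [e]
      exact mul_mem (hN l (by omega)) (G.conj_mem_N q (hN l (by omega)))
    have hym : (G.ρ l * q) ^ 2 ∈ G.mid (j - 1) (l + 1) :=
      pow_mem (mul_mem (G.ρ_mem_mid (by omega) (by omega)) hqm) 2
    rw [hYY] at hV ⊢
    have h1 := mem_mid G h hS hyN (by omega) (by omega : j - 1 ≤ l) hym hV
    rcases mid_one G h1 with h2 | h2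
    · left
      intro v
      rw [h2, hone]
      rfl
    · right
      intro v
      rw [h2, gg_eq G (by omega : l ≠ 1)]
  · intro j hlj hjd hV
    rw [hpow _ _ (by omega) (by omega)] at hV ⊢
    have hmN : (G.ρ (j - 1) * G.ρ j) ^ 3 ∈ G.N :=
      pow_mem (mul_mem (hN _ (by omega)) (hN _ (by omega))) 3
    have hmM : (G.ρ (j - 1) * G.ρ j) ^ 3 ∈ G.mid (j - 1) (j + 1) :=
      pow_mem (mul_mem (G.ρ_mem_mid (by omega) (by omega)) (G.ρ_mem_mid (by omega) (by omega))) 3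
    have h1 := mem_mid G h hS hmN (by omega) (by omega : j - 1 ≤ j + 2) hmM hV
    have h2 := G.mid_eq_bot (by omega) h1
    intro v
    rw [h2, hone]
    rfl

end

end FOI
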