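import Pool.Agent.FOI.CStmts
import Pool.Agent.FOK.MC1
import Pool.Agent.FO2.E3

/-!
# LMC: the cross-polytope, assembly (III.6)
-/

namespace FOI

open Lib_helper64.FO FO2 FOK
open scoped RealInnerProductSpace Nat

namespace LMC

variable {n : ℕ}

/-- the formula of the cross-polytope from its parts -/
lemma cross (gm : ℕ → (E n ≃ₗᵢ[ℝ] E n)) (u : Fin n → E n) (ε : ℝ)
    (low : ∀ j i : Fin n, i.val < j.val → gm j (u i) = u i)
    (sw1 : ∀ i j : Fin n, j.val = i.val + 1 → gm i (u i) = u j)
    (sw2 : ∀ i j : Fin n, j.val = i.val + 1 → gm i (u j) = u i)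
    (hi : ∀ j i : Fin n, j.val + 2 ≤ i.val → j.val ≠ 1 → gm j (u i) = u i)
    (hi1 : ∀ j i : Fin n, j.val = 1 → 3 ≤ i.val → gm j (u i) = ε • u i)
    (last : ∀ j : Fin n, j.val + 1 = n → gm j (u j) = - u j) (j i : Fin n) :
    gm j (u i) =
      if h : j.val + 1 < n then
        (if j.val = 1 ∧ 3 ≤ i.val then ε • u i else u (Equiv.swap j ⟨j.val + 1, h⟩ i))
      else (if i = j then - u i else u i) := by
  split_ifs with h h0 hij
  · exact hi1 j i h0.1 h0.2
  · rcases lt_trichotomy i.val j.val with h1 | h1 | h1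
    · rw [Equiv.swap_apply_of_ne_of_ne, low j i h1]
      · intro h2
        rw [h2] at h1
        exact lt_irrefl _ h1
      · intro h2
        have h3 : i.val = j.val + 1 := by rw [h2]
        omega
    · have h2 : i = j := Fin.ext h1
      subst h2
      rw [Equiv.swap_apply_left]
      exact sw1 i ⟨i.val + 1, h⟩ rfl
    · by_cases h2 : i.val = j.val + 1
      · have h3 : i = ⟨j.val + 1, h⟩ := Fin.ext h2
        rw [← h3, Equiv.swap_apply_right]
        exact sw2 j i h2
      · rw [Equiv.swap_apply_of_ne_of_ne, hi j i (by omega)]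
        · intro h3
          exact h0 ⟨h3, by omega⟩
        · intro h3
          rw [h3] at h1
          exact lt_irrefl _ h1
        · intro h3
          have h4 : i.val = j.val + 1 := by rw [h3]
          exact h2 h4
  · subst hij
    exact last i (by have := i.isLt; omega)
  · have h1 : i.val ≠ j.val := fun h2 => hij (Fin.ext h2)
    exact low j i (by have := i.isLt; omega)

end LMC

theorem t_LMC : M_LMC := by
  intro _ h1 h2 h3 n l j0 Φ V gg hL u hu hex
  obtain ⟨u', ε, hD, hA⟩ := h1 n l j0 Φ V gg hL u hu hex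
  have hl := hL.l4
  have hln := hL.ln
  have hj0 := hL.j01
  have e2 := h2 n l j0 Φ V gg hL u' ε hA
  have e3 := h3 n l j0 Φ V gg hL u' ε hA e2
  have hV1 : ∀ h : 0 < n, u' ⟨0, h⟩ ∈ V 1 := by
    intro h
    rw [hA.V 1 (by omega)]
    exact Submodule.subset_span ⟨⟨0, h⟩, by simp, rfl⟩
  have hj1 : j0 = 1 → ε 1 = 1 := fun h => e3 1 (by omega) (by omega)
  rcases hA.sgn 0 with h0 | h0
  · refine ⟨u', gg, ε 1, ⟨fun _ _ => rfl, Or.inl fun _ => rfl⟩, hD, hV1, hA.sgn 1, hj1,
      LMC.cross gg u' (ε 1) ?_ hA.sw1 hA.sw2 ?_ ?_ hA.last⟩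
    · intro j i hij
      exact hA.low j i (by omega) hij
    · intro j i hij hj1'
      have hj : ε j = 1 := by
        rcases Nat.eq_zero_or_pos j.val with h4 | h4
        · rw [h4]; exact h0
        · exact e3 j.val (by omega) (by have := i.isLt; omega)
      rw [hA.hi j i hij, hj, one_smul]
    · intro j i hj hi
      rw [hA.hi j i (by omega), hj]
  · obtain ⟨gm, hgm⟩ : ∃ gm : ℕ → (E n ≃ₗᵢ[ℝ] E n), gm =
      (fun j => if j = 0 then (gg 0).trans (LinearIsometryEquiv.neg ℝ) else gg j) := ⟨_, rfl⟩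
    have g0 : ∀ v, gm 0 v = - gg 0 v := by
      intro v
      rw [hgm]
      simp
    have gj : ∀ j, 1 ≤ j → gm j = gg j := by
      intro j hj
      rw [hgm]
      have : j ≠ 0 := by omega
      simp [this]
    obtain ⟨s, hs⟩ : ∃ s : Fin n → ℤˣ, s = fun i => if i.val = 0 then 1 else -1 := ⟨_, rfl⟩
    have s0 : ∀ i : Fin n, i.val = 0 → s i = 1 := by
      intro i hi
      rw [hs]
      simp [hi]
    have s1 : ∀ i : Fin n, 1 ≤ i.val → s i = -1 := by
      intro i hi
      rw [hs]
      have : i.val ≠ 0 := by omega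
      simp [this]
    obtain ⟨w, hw⟩ : ∃ w : OrthonormalBasis (Fin n) ℝ (E n), w = u'.map (E3.sgn u' s) := ⟨_, rfl⟩
    have hw' : ∀ i, w i = sg (s i) • u' i := by
      intro i
      rw [hw, OrthonormalBasis.map_apply, E3.sgn_apply]
    have w0 : ∀ i : Fin n, i.val = 0 → w i = u' i := by
      intro i hi
      rw [hw', s0 i hi]
      simp [sg]
    have w1 : ∀ i : Fin n, 1 ≤ i.val → w i = - u' i := by
      intro i hi
      rw [hw', s1 i hi]
      simp [sg]
    refine ⟨w, gm, ε 1, ⟨gj, Or.inr g0⟩, MC1.isD_perm hD id s hw', ?_, hA.sgn 1, hj1,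
      LMC.cross gm w (ε 1) ?_ ?_ ?_ ?_ ?_ ?_⟩
    · intro h
      rw [w0 _ rfl]
      exact hV1 h
    · intro j i hij
      rw [gj j.val (by omega)]
      have h4 := hA.low j i (by omega) hij
      rcases Nat.eq_zero_or_pos i.val with h5 | h5
      · rw [w0 i h5, h4]
      · rw [w1 i h5, map_neg, h4]
    · intro i j hij
      have h4 := hA.sw1 i j hij
      rw [w1 j (by omega)]
      rcases Nat.eq_zero_or_pos i.val with h5 | h5
      · rw [h5] at h4 ⊢
        rw [w0 i h5, g0, h4]
      · rw [gj i.val h5, w1 i h5, map_neg, h4]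
    · intro i j hij
      have h4 := hA.sw2 i j hij
      rw [w1 j (by omega)]
      rcases Nat.eq_zero_or_pos i.val with h5 | h5
      · rw [h5] at h4 ⊢
        rw [w0 i h5, g0, map_neg, neg_neg, h4]
      · rw [gj i.val h5, w1 i h5, map_neg, h4]
    · intro j i hij hj1'
      have h4 := hA.hi j i hij
      rw [w1 i (by omega)]
      rcases Nat.eq_zero_or_pos j.val with h5 | h5
      · rw [h5, h0, neg_one_smul] at h4
        rw [h5, g0, map_neg, neg_neg, h4]
      · rw [e3 j.val (by omega) (by have := i.isLt; omega), one_smul] at h4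
        rw [gj j.val h5, map_neg, h4]
    · intro j i hj hi
      have h4 := hA.hi j i (by omega)
      rw [hj] at h4 ⊢
      rw [w1 i (by omega), gj 1 le_rfl, map_neg, h4, smul_neg]
    · intro j hj
      have h4 := hA.last j hj
      have h5 : 1 ≤ j.val := by omega
      rw [gj j.val h5, w1 j h5, map_neg, h4]

end FOI
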