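import Pool.Agent.FOI.CStmts
import Pool.Agent.FOK.PRM

/-!
# FOI, module LMD: 10.7 for the linear parts, the model of the cube
-/

namespace FOI

open Lib_helper64.FO FO2 FOK
open scoped RealInnerProductSpace Nat

noncomputable section

namespace LMD

variable {n l j0 : ℕ} {Φ : Set (E n)} {V : ℕ → Submodule ℝ (E n)} {gg : ℕ → (E n ≃ₗᵢ[ℝ] E n)}

theorem inner_u (u : OrthonormalBasis (Fin n) ℝ (E n)) (i j : Fin n) :
    ⟪u i, u j⟫ = if i = j then (1 : ℝ) else 0 :=
  orthonormal_iff_ite.1 u.orthonormal i j

theorem inner_u_sum (u : OrthonormalBasis (Fin n) ℝ (E n)) (i : Fin n) :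
    ⟪u i, ∑ j, u j⟫ = (1 : ℝ) := by
  rw [_root_.inner_sum]
  simp [inner_u]

theorem u_inj (u : OrthonormalBasis (Fin n) ℝ (E n)) {i j : Fin n} (h : u i = u j) : i = j :=
  u.orthonormal.linearIndependent.injective h

theorem ext_u (u : OrthonormalBasis (Fin n) ℝ (E n)) {g h : E n ≃ₗᵢ[ℝ] E n}
    (H : ∀ i, g (u i) = h (u i)) (v : E n) : g v = h v := by
  have h1 : g.toLinearEquiv.toLinearMap = h.toLinearEquiv.toLinearMap := by
    apply u.toBasis.ext
    intro i
    rw [OrthonormalBasis.coe_toBasis]
    exact H i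
  exact congrArg (fun f : E n →ₗ[ℝ] E n => f v) h1

theorem finrank_E : Module.finrank ℝ (E n) = n := finrank_euclideanSpace_fin

/-- the dimension of the span of `∑ u i` and the `u p` for `p ∈ B` -/
theorem finrank_span (u : OrthonormalBasis (Fin n) ℝ (E n)) (B : Finset (Fin n)) {q : Fin n}
    (hq : q ∉ B) :
    Module.finrank ℝ (Submodule.span ℝ (insert (∑ i, u i) (u '' (B : Set (Fin n))))) =
      B.card + 1 := by
  have hli : LinearIndependent ℝ (fun p : B => u p) :=
    u.orthonormal.linearIndependent.comp _ Subtype.val_injective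
  have hno : (∑ i, u i) ∉ Submodule.span ℝ (Set.range (fun p : B => u p)) := by
    intro h
    have h1 : Submodule.span ℝ (Set.range (fun p : B => u p)) ≤ (Submodule.span ℝ {u q})ᗮ := by
      rw [Submodule.span_le]
      rintro _ ⟨p, rfl⟩
      rw [SetLike.mem_coe, Submodule.mem_orthogonal_singleton_iff_inner_right, inner_u,
        if_neg]
      intro e
      exact hq (e ▸ p.2)
    have h2 := h1 h
    rw [Submodule.mem_orthogonal_singleton_iff_inner_right, inner_u_sum] at h2
    exact one_ne_zero h2
  have h3 := linearIndependent_option'.2 ⟨hli, hno⟩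
  have h4 := finrank_span_eq_card h3
  have h5 : Set.range (fun o : Option B => Option.casesOn' o (∑ i, u i) (fun p : B => u p)) =
      insert (∑ i, u i) (u '' (B : Set (Fin n))) := by
    ext w
    constructor
    · rintro ⟨o, rfl⟩
      rcases o with _ | p
      · exact Or.inl rfl
      · exact Or.inr ⟨p, p.2, rfl⟩
    · rintro (rfl | ⟨p, hp, rfl⟩)
      · exact ⟨none, rfl⟩
      · exact ⟨some ⟨p, hp⟩, rfl⟩
  rw [h5] at h4
  rw [h4]
  simp

lemma V_mono (h : Lin n l j0 Φ V gg) {i j : ℕ} (hij : i ≤ j) (hj : j ≤ n) : V i ≤ V j := by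
  induction j, hij using Nat.le_induction with
  | base => exact le_rfl
  | succ m hm ih => exact (ih (by omega)).trans (h.mono m (by omega))

theorem exists_D (h : Lin n l j0 Φ V gg) {i : ℕ} (hi : i < n) :
    ∃ e ∈ V (i + 1) ⊓ (V i)ᗮ, e ≠ 0 := by
  by_contra hcon
  push Not at hcon
  have h1 : V (i + 1) ⊓ (V i)ᗮ = ⊥ := by
    rw [eq_bot_iff]
    intro e he
    exact hcon e he
  have h2 := Submodule.sup_orthogonal_inf_of_hasOrthogonalProjection (h.mono i hi)
  have h3 : (V i)ᗮ ⊓ V (i + 1) = ⊥ := by
    rw [inf_comm]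
    exact h1
  have h4 : V i = V (i + 1) := by
    rw [h3, sup_bot_eq] at h2
    exact h2
  have h5 := h.dimV i (by omega)
  have h6 := h.dimV (i + 1) (by omega)
  rw [h4, h6] at h5
  omega

/-- the span of the sum and of the basis vectors in `V (i + 1)` -/
def SS (V : ℕ → Submodule ℝ (E n)) (u : OrthonormalBasis (Fin n) ℝ (E n)) (i : ℕ) :
    Submodule ℝ (E n) :=
  Submodule.span ℝ (insert (∑ i, u i) {w | ∃ p, u p ∈ V (i + 1) ∧ u p = w})

theorem SS_le (h : Lin n l j0 Φ V gg) {u : OrthonormalBasis (Fin n) ℝ (E n)}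
    (hy : ∑ i, u i ∈ V 1) (i : ℕ) (hi : i + 1 ≤ n) : SS V u i ≤ V (i + 1) := by
  rw [SS, Submodule.span_le]
  rintro w (rfl | ⟨p, hp, rfl⟩)
  · exact V_mono h (by omega) hi hy
  · exact hp

theorem sum_ne {u : OrthonormalBasis (Fin n) ℝ (E n)} (i : Fin n) : ∑ i, u i ≠ 0 := by
  intro h
  have := inner_u_sum u i
  rw [h, inner_zero_right] at this
  exact zero_ne_one this

theorem V_one (h : Lin n l j0 Φ V gg) {u : OrthonormalBasis (Fin n) ℝ (E n)}
    (hy : ∑ i, u i ∈ V 1) : Submodule.span ℝ {∑ i, u i} = V 1 := by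
  have hd := h.ln
  apply Submodule.eq_of_le_of_finrank_eq
  · rw [Submodule.span_le]
    rintro w hw
    rw [Set.mem_singleton_iff] at hw
    rw [hw]
    exact hy
  · rw [h.dimV 1 (by omega), finrank_span_singleton]
    exact sum_ne ⟨0, by omega⟩

theorem root_mem (h : Lin n l j0 Φ V gg)
    {u : OrthonormalBasis (Fin n) ℝ (E n)} {p : Fin n} (hp : ∀ v, gg 0 v = sref (u p) v) :
    u p ∈ V 2 := by
  have hd := h.ln
  have hl := h.l4
  obtain ⟨ε, hε, hs⟩ := h.scal0
  have hdim : Module.finrank ℝ (V 2) + Module.finrank ℝ (V 2)ᗮ = n := by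
    rw [Submodule.finrank_add_finrank_orthogonal, finrank_E]
  rw [h.dimV 2 (by omega)] at hdim
  rcases hε with rfl | rfl
  · have h1 : u p ∈ (V 2)ᗮᗮ := by
      rw [Submodule.mem_orthogonal]
      intro v hv
      have h2 := hs v hv
      rw [hp, sref, one_smul, sub_eq_self, smul_eq_zero] at h2
      rcases h2 with h2 | h2
      · rw [real_inner_comm]
        linarith
      · exact absurd h2 (u.orthonormal.ne_zero p)
    rw [Submodule.orthogonal_orthogonal] at h1
    exact h1
  · exfalso
    have h1 : (V 2)ᗮ ≤ Submodule.span ℝ {u p} := by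
      intro v hv
      have h2 := hs v hv
      rw [hp, sref] at h2
      rw [Submodule.mem_span_singleton]
      refine ⟨⟪u p, v⟫, ?_⟩
      have h3 : (2 : ℝ) • v = (2 : ℝ) • (⟪u p, v⟫ • u p) := by
        rw [smul_smul, ← sub_eq_zero, ← sub_eq_zero.2 h2]
        module
      exact ((smul_right_injective (E n) (two_ne_zero' ℝ)) h3).symm
    have h2 := Submodule.finrank_mono h1
    have h3 := finrank_span_le_card (R := ℝ) ({u p} : Set (E n))
    rw [Set.toFinset_singleton, Finset.card_singleton] at h3
    omega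

theorem SS_eq (h : Lin n l j0 Φ V gg)
    {u : OrthonormalBasis (Fin n) ℝ (E n)} (hy : ∑ i, u i ∈ V 1)
    (hperm : ∀ j, 1 ≤ j → j < n → ∃ τ : Equiv.Perm (Fin n), ∀ i, gg j (u i) = u (τ i))
    {p : Fin n} (hp : ∀ v, gg 0 v = sref (u p) v) :
    ∀ i, i + 1 ≤ n → SS V u i = V (i + 1) := by
  have hd := h.ln
  have hl := h.l4
  have hp2 := root_mem h hp
  intro i
  induction i with
  | zero =>
    intro _
    refine le_antisymm (SS_le h hy 0 (by omega)) ?_
    rw [zero_add, ← V_one h hy, SS]
    exact Submodule.span_mono (Set.singleton_subset_iff.2 (Set.mem_insert _ _))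
  | succ i ih =>
    intro hi
    have ih' := ih (by omega)
    -- a further basis vector
    have key : ∃ q, u q ∈ V (i + 2) ∧ u q ∉ V (i + 1) := by
      rcases Nat.eq_zero_or_pos i with h0 | h0
      · subst h0
        refine ⟨p, hp2, ?_⟩
        rw [zero_add, ← V_one h hy, Submodule.mem_span_singleton]
        rintro ⟨c, hc⟩
        obtain ⟨q, hq⟩ : ∃ q : Fin n, q ≠ p := by
          by_cases h : p.val = 0
          · exact ⟨⟨1, by omega⟩, fun e => by rw [← e] at h; exact one_ne_zero h⟩
          · exact ⟨⟨0, by omega⟩, fun e => h (by rw [← e])⟩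
        have h1 := inner_u u q p
        rw [if_neg hq, ← hc, inner_smul_right, inner_u_sum, mul_one] at h1
        rw [h1, zero_smul] at hc
        exact u.orthonormal.ne_zero p hc.symm
      · obtain ⟨τ, hτ⟩ := hperm i h0 (by omega)
        by_contra hcon
        push Not at hcon
        obtain ⟨e, he, he0⟩ := exists_D h (i := i) (by omega)
        apply h.moves i (by omega) e he he0
        have h1 : SS V u i ≤ (V (i + 1)).comap (gg i).toLinearEquiv.toLinearMap := by
          rw [SS, Submodule.span_le]
          rintro w (rfl | ⟨q, hq, rfl⟩)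
          · rw [SetLike.mem_coe, Submodule.mem_comap]
            have h2 : (gg i).toLinearEquiv.toLinearMap (∑ i, u i) = ∑ i, u i := by
              rw [map_sum]
              rw [← Equiv.sum_comp τ (fun j => u j)]
              exact Finset.sum_congr rfl fun j _ => hτ j
            rw [h2]
            exact V_mono h (by omega) (by omega) hy
          · rw [SetLike.mem_coe, Submodule.mem_comap]
            have h2 : (gg i).toLinearEquiv.toLinearMap (u q) = u (τ q) := hτ q
            rw [h2]
            apply hcon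
            rw [← hτ]
            exact h.pres i (i + 2) _ (by omega) (by omega) (by omega)
              (V_mono h (by omega) (by omega) hq)
        exact h1 (ih' ▸ he.1)
    obtain ⟨q, hq1, hq2⟩ := key
    apply Submodule.eq_of_le_of_finrank_le (SS_le h hy (i + 1) (by omega))
    rw [h.dimV (i + 1 + 1) (by omega)]
    have h1 : SS V u i < SS V u (i + 1) := by
      refine lt_of_le_of_ne ?_ ?_
      · rw [SS, SS]
        apply Submodule.span_mono
        apply Set.insert_subset_insert
        rintro w ⟨r, hr, rfl⟩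
        exact ⟨r, V_mono h (by omega) (by omega) hr, rfl⟩
      · intro e
        apply hq2
        rw [← ih', e, SS]
        exact Submodule.subset_span (Or.inr ⟨q, hq1, rfl⟩)
    have h2 := Submodule.finrank_lt_finrank_of_lt h1
    rw [ih', h.dimV (i + 1) (by omega)] at h2
    omega

end LMD

theorem t_LMD : M_LMD := by
  intro hLSG hMD1 n l j0 Φ V gg hgg u hu y0 hy0 hy
  obtain ⟨u', gm, hS, hIsD, hsum, hperm, p, hp⟩ := hMD1 n l j0 Φ V gg hgg u hu y0 hy0 hy
  have hG : Lin n l j0 Φ V gm := hLSG n l j0 Φ V gg gm hgg hS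
  have hd := hG.ln
  have hl := hG.l4
  have hSS := LMD.SS_eq hG hsum hperm hp
  have hex : ∀ j, ∃ τ : Equiv.Perm (Fin n), j + 2 ≤ n → ∀ i, gm (j + 1) (u' i) = u' (τ i) := by
    intro j
    by_cases h : j + 2 ≤ n
    · obtain ⟨τ, hτ⟩ := hperm (j + 1) (by omega) (by omega)
      exact ⟨τ, fun _ => hτ⟩
    · exact ⟨1, fun h' => absurd h' h⟩
  choose τ hτ using hex
  classical
  let B : ℕ → Finset (Fin n) := fun i => Finset.univ.filter (fun p => u' p ∈ V (i + 1))
  have memB : ∀ i q, q ∈ B i ↔ u' q ∈ V (i + 1) := by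
    intro i q
    simp [B]
  have hP : PrmH n τ B := by
    refine ⟨?_, ?_, ?_, ?_, ?_, ?_, ?_, ?_, ?_⟩
    · -- card
      intro i hi
      have h1 := hSS i (by omega)
      have h2 : LMD.SS V u' i =
          Submodule.span ℝ (insert (∑ i, u' i) (u' '' (B i : Set (Fin n)))) := by
        rw [LMD.SS]
        congr 2
        ext w
        constructor
        · rintro ⟨q, hq, rfl⟩
          exact ⟨q, (memB i q).2 hq, rfl⟩
        · rintro ⟨q, hq, rfl⟩
          exact ⟨q, (memB i q).1 hq, rfl⟩
      have h3 := hG.dimV (i + 1) (by omega)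
      have h4 : ∃ q, q ∉ B i := by
        by_contra hcon
        push Not at hcon
        have h5 : V (i + 1) = ⊤ := by
          rw [eq_top_iff, ← u'.toBasis.span_eq, Submodule.span_le]
          rintro _ ⟨q, rfl⟩
          rw [OrthonormalBasis.coe_toBasis]
          exact (memB i q).1 (hcon q)
        rw [h5, finrank_top, LMD.finrank_E] at h3
        omega
      obtain ⟨q, hq⟩ := h4
      rw [← h1, h2, LMD.finrank_span u' (B i) hq] at h3
      omega
    · intro i hi q hq
      rw [memB] at hq ⊢
      exact LMD.V_mono hG (by omega) (by omega) hq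
    · intro j i hj hi hij q hq
      rw [memB] at hq ⊢
      rw [← hτ j hj]
      exact hG.pres (j + 1) (i + 1) _ (by omega) (by omega) (by omega) hq
    · intro j hj q hq
      rw [memB] at hq
      apply LMD.u_inj u'
      rw [← hτ j hj]
      exact hG.fix (j + 1) (by omega) (by omega) _ hq
    · intro j hj
      by_contra hcon
      push Not at hcon
      obtain ⟨e, he, he0⟩ := LMD.exists_D hG (i := j + 1) (by omega)
      apply hG.moves (j + 1) (by omega) e he he0
      have h1 : LMD.SS V u' (j + 1) ≤
          (V (j + 1 + 1)).comap (gm (j + 1)).toLinearEquiv.toLinearMap := by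
        rw [LMD.SS, Submodule.span_le]
        rintro w (rfl | ⟨q, hq, rfl⟩)
        · rw [SetLike.mem_coe, Submodule.mem_comap]
          have h2 : (gm (j + 1)).toLinearEquiv.toLinearMap (∑ i, u' i) = ∑ i, u' i := by
            rw [map_sum]
            rw [← Equiv.sum_comp (τ j) (fun j => u' j)]
            exact Finset.sum_congr rfl fun i _ => hτ j (by omega) i
          rw [h2]
          exact LMD.V_mono hG (by omega) (by omega) hsum
        · rw [SetLike.mem_coe, Submodule.mem_comap]
          have h2 : (gm (j + 1)).toLinearEquiv.toLinearMap (u' q) = u' (τ j q) :=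
            hτ j (by omega) q
          rw [h2]
          exact (memB (j + 1) _).1 (hcon q ((memB (j + 1) q).2 hq))
      exact h1 (hSS (j + 1) (by omega) ▸ he.1)
    · intro j hj
      ext i : 1
      apply LMD.u_inj u'
      rw [Equiv.Perm.mul_apply, ← hτ j hj, ← hτ j hj]
      exact hG.sq (j + 1) (by omega) _
    · intro i j hij hj
      ext q : 1
      apply LMD.u_inj u'
      rw [Equiv.Perm.mul_apply, Equiv.Perm.mul_apply, ← hτ i (by omega), ← hτ j hj,
        ← hτ j hj, ← hτ i (by omega)]
      exact hG.comm (i + 1) (j + 1) (by omega) (by omega) _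
    · intro h
      obtain ⟨v, hv⟩ := hG.ne
      apply hv
      have h3 : ∀ i, gm (n - 1) (u' i) = (LinearIsometryEquiv.refl ℝ (E n)) (u' i) := by
        intro i
        have h4 := hτ (n - 2) (by omega) i
        have e : n - 2 + 1 = n - 1 := by omega
        rw [e, h] at h4
        exact h4
      exact LMD.ext_u u' h3 _
    · intro h
      obtain ⟨v, hv⟩ := hG.nc
      apply hv
      have h3 : ∀ i, (gm (n - 4) * gm (n - 3)) (u' i) = u' ((τ (n - 5) * τ (n - 4)) i) := by
        intro i
        rw [Equiv.Perm.mul_apply]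
        have h4 := hτ (n - 4) (by omega) i
        have e : n - 4 + 1 = n - 3 := by omega
        rw [e] at h4
        have h5 := hτ (n - 5) (by omega) (τ (n - 4) i)
        have e' : n - 5 + 1 = n - 4 := by omega
        rw [e'] at h5
        rw [← h5, ← h4]
        rfl
      have h6 : ∀ i, ((gm (n - 4) * gm (n - 3)) ^ 3) (u' i) = gm (n - 1) (u' i) := by
        intro i
        have h4 := hτ (n - 2) (by omega) i
        have e : n - 2 + 1 = n - 1 := by omega
        rw [e, ← h, pow_succ, pow_two] at h4
        rw [h4, pow_succ, pow_two]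
        have h7 : ∀ (a b : E n ≃ₗᵢ[ℝ] E n) (w : E n), (a * b) w = a (b w) := fun _ _ _ => rfl
        rw [h7 ((gm (n - 4) * gm (n - 3)) * (gm (n - 4) * gm (n - 3))), h3,
          h7 (gm (n - 4) * gm (n - 3)), h3, h3]
        rfl
      exact LMD.ext_u u' h6 _
  obtain ⟨e, einj, eB, eτ⟩ := t_PRM n τ B (by omega) hP
  have hinj : Function.Injective (fun i : Fin n => e i.val) := fun i j h =>
    Fin.ext (einj i.val j.val i.isLt j.isLt h)
  let π : Equiv.Perm (Fin n) :=
    Equiv.ofBijective (fun i : Fin n => e i.val) (Finite.injective_iff_bijective.1 hinj)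
  have hu'' : ∀ i, u'.reindex π.symm i = u' (e i.val) := by
    intro i
    rw [OrthonormalBasis.reindex_apply, Equiv.symm_symm]
    rfl
  have hpe : p = e 0 := by
    have h1 : p ∈ B 1 := by
      rw [memB]
      exact LMD.root_mem hG hp
    obtain ⟨m, hm, hm'⟩ := (eB 1 (by omega) p).1 h1
    obtain rfl : m = 0 := by omega
    exact hm'.symm
  refine ⟨u'.reindex π.symm, gm, hS, ?_, ?_, ?_⟩
  · intro a
    rw [hIsD a]
    constructor
    · rintro ⟨i, j, hij, s, t, rfl⟩
      exact ⟨π.symm i, π.symm j, fun e => hij (π.symm.injective e), s, t, by simp⟩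
    · rintro ⟨i, j, hij, s, t, rfl⟩
      exact ⟨π i, π j, fun e => hij (π.injective e), s, t, by simp⟩
  · have h1 : ∑ i, u'.reindex π.symm i = ∑ i, u' i := by
      rw [← Equiv.sum_comp π (fun j => u' j)]
      exact Finset.sum_congr rfl fun i _ => hu'' i
    rw [h1]
    exact hsum
  · intro j i
    split_ifs with h1 h2
    · subst h2
      rw [h1, hp, hu'', h1, hpe]
      exact sref_self (u'.orthonormal.norm_eq_one _)
    · rw [h1, hp, hu'', hpe, sref, LMD.inner_u, if_neg]
      · simp
      · intro h3
        apply h2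
        apply Fin.ext
        rw [h1]
        exact (einj 0 i.val (by omega) i.isLt h3).symm
    · have h2 : j.val - 1 + 1 = j.val := by omega
      have h3 := hτ (j.val - 1) (by omega) (e i.val)
      rw [h2, eτ (j.val - 1) (by omega), h2] at h3
      have h4 : Equiv.swap (e (j.val - 1)) (e j.val) (e i.val) =
          e (Equiv.swap (prd j) j i).val :=
        hinj.swap_apply (prd j) j i
      rw [h4] at h3
      rw [hu'', hu'']
      exact h3

end

end FOI
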