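import Pool.Agent.FOI.CStmts

/-!
# Module LSG (section III.6): the sign of `g_0` can be changed
-/

namespace FOI

open Lib_helper64.FO FO2 FOK
open scoped RealInnerProductSpace Nat

namespace LSG

variable {n : ℕ} {gg gm : ℕ → (E n ≃ₗᵢ[ℝ] E n)}

theorem pm (h : SgEq gg gm) (j : ℕ) :
    ∃ ε : ℝ, (ε = 1 ∨ ε = -1) ∧ ∀ v, gm j v = ε • gg j v := by
  by_cases hj : j = 0
  · subst hj
    rcases h.2 with h1 | h1
    · exact ⟨1, Or.inl rfl, fun v => by rw [h1, one_smul]⟩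
    · exact ⟨-1, Or.inr rfl, fun v => by rw [h1, neg_one_smul]⟩
  · exact ⟨1, Or.inl rfl, fun v => by rw [h.1 j (by omega), one_smul]⟩

theorem prod_pm (h : SgEq gg gm) (w : List ℕ) :
    ∃ ε : ℝ, (ε = 1 ∨ ε = -1) ∧ ∀ v, (w.map gm).prod v = ε • (w.map gg).prod v := by
  induction w with
  | nil => exact ⟨1, Or.inl rfl, fun v => by simp⟩
  | cons a w ih =>
    obtain ⟨ε, hε, h2⟩ := ih
    obtain ⟨δ, hδ, h'⟩ := pm h a
    refine ⟨δ * ε, ?_, fun v => ?_⟩
    · rcases hε with rfl | rfl <;> rcases hδ with rfl | rfl <;> norm_num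
    · rw [List.map_cons, List.map_cons, List.prod_cons, List.prod_cons]
      change gm a ((w.map gm).prod v) = (δ * ε) • gg a ((w.map gg).prod v)
      rw [h', h2, map_smul, smul_smul]

theorem YY_eq (h : SgEq gg gm) {j l : ℕ} (hj : 1 ≤ j) (hl : 1 ≤ l) : YY gm j l = YY gg j l := by
  obtain ⟨ε, hε, hP⟩ := prod_pm h (List.range' (j - 1) (l + 1 - j))
  have hP' : ∀ v, PP gm j l v = ε • PP gg j l v := hP
  have hεε : ε * ε = 1 := by rcases hε with rfl | rfl <;> norm_num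
  have hinv : ∀ v, (PP gm j l)⁻¹ v = ε • (PP gg j l)⁻¹ v := by
    intro v
    apply (PP gm j l).injective
    have e1 : PP gm j l ((PP gm j l)⁻¹ v) = v := (PP gm j l).apply_symm_apply v
    have e2 : PP gg j l ((PP gg j l)⁻¹ v) = v := (PP gg j l).apply_symm_apply v
    rw [e1, hP', map_smul, e2, smul_smul, hεε, one_smul]
  have hQ : (PP gm j l)⁻¹ * gm j * PP gm j l = (PP gg j l)⁻¹ * gg j * PP gg j l := by
    ext1 v
    change (PP gm j l)⁻¹ (gm j (PP gm j l v)) = (PP gg j l)⁻¹ (gg j (PP gg j l v))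
    rw [h.1 j hj, hinv, hP', map_smul, map_smul, smul_smul, hεε, one_smul]
  rw [YY, YY, hQ, h.1 l hl]

end LSG

theorem t_LSG : S_LSG := by
  intro n l j0 Φ V gg gm hL h
  have hneg : ∀ a, -a ∈ Φ ↔ a ∈ Φ := fun a =>
    ⟨fun h1 => by simpa using hL.rs.neg_mem h1, fun h1 => hL.rs.neg_mem h1⟩
  have hl4 := hL.l4
  have hln := hL.ln
  have hj01 := hL.j01
  refine ⟨⟨hL.l4, hL.ln, hL.j01, hL.rs, hL.irr, hL.span, hL.typ, hL.mono, hL.dimV, ?_, ?_, ?_, ?_,
    ?_, ?_, ?_, hL.sub, ?_⟩, ⟨?_, ?_, ?_, ?_⟩⟩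
  · intro j i v hj hi hij hv
    obtain ⟨ε, _, h1⟩ := LSG.pm h j
    rw [h1]
    exact Submodule.smul_mem _ _ (hL.pres j i v hj hi hij hv)
  · intro j hj e he hne hc
    apply hL.moves j hj e he hne
    obtain ⟨ε, hε, h1⟩ := LSG.pm h j
    rw [h1] at hc
    rcases hε with rfl | rfl
    · rwa [one_smul] at hc
    · rw [neg_one_smul] at hc
      exact (Submodule.neg_mem_iff _).1 hc
  · intro j hj v
    obtain ⟨ε, hε, h1⟩ := LSG.pm h j
    rw [h1, h1, map_smul, hL.sq j hj v, smul_smul]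
    rcases hε with rfl | rfl <;> simp
  · intro i j hij hj v
    rw [h.1 j (by omega)]
    obtain ⟨ε, _, h1⟩ := LSG.pm h i
    rw [h1, h1, map_smul, hL.comm i j hij hj v]
  · intro j h1 hj v hv
    rw [h.1 j h1]
    exact hL.fix j h1 hj v hv
  · intro j hj a
    obtain ⟨ε, hε, h1⟩ := LSG.pm h j
    rw [h1]
    rcases hε with rfl | rfl
    · rw [one_smul]
      exact hL.root j hj a
    · rw [neg_one_smul, hneg]
      exact hL.root j hj a
  · obtain ⟨δ, hδ, h2⟩ := hL.scal0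
    obtain ⟨ε, hε, h1⟩ := LSG.pm h 0
    refine ⟨ε * δ, ?_, fun v hv => ?_⟩
    · rcases hε with rfl | rfl <;> rcases hδ with rfl | rfl <;> norm_num
    · rw [h1, h2 v hv, smul_smul]
  · rw [h.1 l (by omega)]
    exact hL.refl
  · rw [h.1 (n - 1) (by omega)]
    exact hL.ne
  · rw [h.1 (n - 1) (by omega), h.1 (n - 4) (by omega), h.1 (n - 3) (by omega)]
    exact hL.nc
  · intro j hj hjl
    rw [LSG.YY_eq h (by omega) (by omega), h.1 l (by omega)]
    exact hL.x2 j hj hjl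
  · intro j hj hjn
    rw [h.1 (j - 1) (by omega), h.1 j (by omega)]
    exact hL.x3 j hj hjn

end FOI
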