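import Pool.Agent.FOI.AGeo

/-!
# Linear parts, local finiteness, finite stabiliser

Data: a group `Γ` acting on a set `X` (finite or infinite), `f : X → E d`, a subgroup `H` of elements
that are induced by isometries.
-/

namespace FOI

open Lib_helper64.FO FO2
open scoped RealInnerProductSpace

noncomputable section

namespace LINI

variable {d : ℕ} {Γ : Type} [Group Γ] {X : Type} [MulAction Γ X] (f : X → E d)

/-- the span of the differences -/
def W : Submodule ℝ (E d) := Submodule.span ℝ {v | ∃ x y, f x - f y = v}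

theorem sub_mem_W (x y : X) : f x - f y ∈ W f := Submodule.subset_span ⟨x, y, rfl⟩

theorem exists_lin (h : Γ) (hT : ∃ T : E d ≃ᵢ E d, ∀ x, T (f x) = f (h • x)) :
    ∃ L : E d ≃ₗᵢ[ℝ] E d, ∀ x y, L (f x - f y) = f (h • x) - f (h • y) := by
  obtain ⟨T, hT⟩ := hT
  set A := T.toRealAffineIsometryEquiv with hA
  have hAT : ∀ v, A v = T v := fun v => by rw [hA]; rfl
  have hvs : ∀ v w : E d, A.linearIsometryEquiv (v - w) = A v - A w := fun v w => A.map_vsub v w
  refine ⟨A.linearIsometryEquiv, fun x y => ?_⟩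
  rw [hvs, hAT, hAT, hT x, hT y]

theorem mem_W {h : Γ} {L : E d ≃ₗᵢ[ℝ] E d} (hL : ∀ x y, L (f x - f y) = f (h • x) - f (h • y))
    {v : E d} (hv : v ∈ W f) : L v ∈ W f := by
  have h1 : W f ≤ (W f).comap (L.toLinearEquiv : E d →ₗ[ℝ] E d) := by
    refine Submodule.span_le.2 ?_
    rintro _ ⟨x, y, rfl⟩
    show L (f x - f y) ∈ W f
    rw [hL x y]
    exact sub_mem_W f _ _
  exact h1 hv

theorem eq_on_W {L L' : E d →ₗ[ℝ] E d} (hL : ∀ x y, L (f x - f y) = L' (f x - f y)) {v : E d}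
    (hv : v ∈ W f) : L v = L' v := by
  have h1 : Set.EqOn L L' (W f : Set (E d)) := by
    refine LinearMap.eqOn_span ?_
    rintro _ ⟨x, y, rfl⟩
    exact hL x y
  exact h1 hv

/-- the linear map which is `L` on `W` and `1` on the orthogonal complement -/
def mk (L : E d ≃ₗᵢ[ℝ] E d) : E d →ₗ[ℝ] E d :=
  (L.toLinearEquiv : E d →ₗ[ℝ] E d) ∘ₗ ((W f).starProjection : E d →ₗ[ℝ] E d) +
    (LinearMap.id - ((W f).starProjection : E d →ₗ[ℝ] E d))

theorem mk_apply (L : E d ≃ₗᵢ[ℝ] E d) (v : E d) :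
    mk f L v = L ((W f).starProjection v) + (v - (W f).starProjection v) := rfl

theorem mk_of_mem (L : E d ≃ₗᵢ[ℝ] E d) {v : E d} (hv : v ∈ W f) : mk f L v = L v := by
  rw [mk_apply, Submodule.starProjection_eq_self_iff.2 hv, sub_self, add_zero]

theorem norm_mk {h : Γ} {L : E d ≃ₗᵢ[ℝ] E d} (hL : ∀ x y, L (f x - f y) = f (h • x) - f (h • y))
    (v : E d) : ‖mk f L v‖ = ‖v‖ := by
  have h0 : (W f).starProjection v ∈ W f := Submodule.starProjection_apply_mem _ _
  have h1 : L ((W f).starProjection v) ∈ W f := mem_W f hL h0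
  have h2 : v - (W f).starProjection v ∈ (W f)ᗮ := Submodule.sub_starProjection_mem_orthogonal _
  have h3 : ⟪L ((W f).starProjection v), v - (W f).starProjection v⟫ = 0 :=
    Submodule.inner_right_of_mem_orthogonal h1 h2
  have h4 : ⟪(W f).starProjection v, v - (W f).starProjection v⟫ = 0 :=
    Submodule.inner_right_of_mem_orthogonal h0 h2
  have h5 := norm_add_sq_eq_norm_sq_add_norm_sq_real h3
  have h6 := norm_add_sq_eq_norm_sq_add_norm_sq_real h4
  rw [L.norm_map] at h5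
  rw [add_sub_cancel] at h6
  have h7 : ‖mk f L v‖ * ‖mk f L v‖ = ‖v‖ * ‖v‖ := by rw [mk_apply, h5, h6]
  nlinarith [norm_nonneg (mk f L v), norm_nonneg v, mul_self_eq_mul_self_iff.1 h7,
    (mul_self_inj (norm_nonneg _) (norm_nonneg _)).1 h7]

end LINI

open LINI in
/-- the linear parts -/
theorem linI {d : ℕ} {Γ : Type} [Group Γ] {X : Type} [MulAction Γ X] (f : X → E d)
    (H : Subgroup Γ) (hH : ∀ h ∈ H, ∃ T : E d ≃ᵢ E d, ∀ x, T (f x) = f (h • x)) :
    ∃ T : Γ → (E d ≃ₗᵢ[ℝ] E d), (∀ g ∈ H, ∀ h ∈ H, T (g * h) = T g * T h) ∧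
      (∀ h ∈ H, ∀ x y, T h (f x - f y) = f (h • x) - f (h • y)) ∧
      ∀ h ∈ H, ∀ v : E d, (∀ x y, ⟪f x - f y, v⟫ = 0) → T h v = v := by
  have h1 : ∀ h ∈ H, ∃ L : E d ≃ₗᵢ[ℝ] E d, ∀ x y, L (f x - f y) = f (h • x) - f (h • y) :=
    fun h hh => exists_lin f h (hH h hh)
  choose! L hL using h1
  have h2 : ∀ h ∈ H, ∃ M : E d ≃ₗᵢ[ℝ] E d, ∀ v, M v = mk f (L h) v := by
    intro h hh
    let M0 : E d →ₗᵢ[ℝ] E d := ⟨mk f (L h), norm_mk f (hL h hh)⟩
    exact ⟨M0.toLinearIsometryEquiv rfl, fun v => rfl⟩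
  choose! M hM using h2
  refine ⟨M, ?_, ?_, ?_⟩
  · intro g hg h hh
    have hgh : g * h ∈ H := H.mul_mem hg hh
    ext1 v
    show M (g * h) v = M g (M h v)
    rw [hM _ hgh, hM _ hh, hM _ hg]
    set p := (W f).starProjection v with hp
    have h0 : p ∈ W f := Submodule.starProjection_apply_mem _ _
    have h3 : v - p ∈ (W f)ᗮ := Submodule.sub_starProjection_mem_orthogonal _
    have e1 : mk f (L g) (v - p) = v - p := by
      rw [mk_apply, (Submodule.starProjection_apply_eq_zero_iff _).2 h3, map_zero, sub_zero,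
        zero_add]
    have e2 : mk f (L h) v = L h p + (v - p) := mk_apply f _ v
    have e3 : mk f (L (g * h)) v = L (g * h) p + (v - p) := mk_apply f _ v
    rw [e2, e3, map_add, e1, mk_of_mem f _ (mem_W f (hL h hh) h0)]
    congr 1
    refine eq_on_W f (L := ((L (g * h)).toLinearEquiv : E d →ₗ[ℝ] E d))
      (L' := ((L g).toLinearEquiv : E d →ₗ[ℝ] E d) ∘ₗ ((L h).toLinearEquiv : E d →ₗ[ℝ] E d))
      (fun x y => ?_) h0
    show L (g * h) (f x - f y) = L g (L h (f x - f y))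
    rw [hL _ hgh, hL _ hh, hL _ hg, mul_smul, mul_smul]
  · intro h hh x y
    rw [hM _ hh, mk_of_mem f _ (sub_mem_W f x y), hL h hh]
  · intro h hh v hv
    have h3 : v ∈ (W f)ᗮ := by
      rw [Submodule.mem_orthogonal]
      intro u hu
      refine Submodule.span_induction (p := fun u _ => ⟪u, v⟫ = 0) ?_ ?_ ?_ ?_ hu
      · rintro _ ⟨x, y, rfl⟩
        exact hv x y
      · exact inner_zero_left _
      · intro a b _ _ ha hb
        rw [inner_add_left, ha, hb, add_zero]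
      · intro a b _ hb
        rw [inner_smul_left, hb, mul_zero]
    rw [hM _ hh, mk_apply, (Submodule.starProjection_apply_eq_zero_iff _).2 h3, map_zero, sub_zero,
      zero_add]

/-- A discrete image on which a group of isometries has finitely many orbits is locally finite. -/
theorem locfinI {d : ℕ} {Γ : Type} [Group Γ] {X : Type} [MulAction Γ X] (f : X → E d)
    (hf : Function.Injective f) (x0 : X) (htr : ∀ x : X, ∃ g : Γ, g • x0 = x) (H : Subgroup Γ)
    (hH : ∀ h ∈ H, ∃ T : E d ≃ᵢ E d, ∀ x, T (f x) = f (h • x)) (hi : H.index ≠ 0)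
    (hD : DiscreteTopology (Set.range f)) (r : ℝ) : {x : X | ‖f x - f x0‖ ≤ r}.Finite := by
  classical
  have h1 : ∀ x : X, ∃ ε > 0, ∀ y, dist (f x) (f y) < ε → x = y := by
    intro x
    have h2 : IsOpen ({⟨f x, x, rfl⟩} : Set (Set.range f)) := isOpen_discrete _
    rw [Metric.isOpen_iff] at h2
    obtain ⟨ε, hε, h3⟩ := h2 ⟨f x, x, rfl⟩ rfl
    refine ⟨ε, hε, fun y hy => ?_⟩
    have h4 : (⟨f y, y, rfl⟩ : Set.range f) ∈ Metric.ball (⟨f x, x, rfl⟩ : Set.range f) ε := by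
      rw [Metric.mem_ball, dist_comm]
      exact hy
    have h5 := h3 h4
    exact (hf (congrArg Subtype.val h5)).symm
  choose ε hε0 hε using h1
  have : H.FiniteIndex := ⟨hi⟩
  have : Finite (Γ ⧸ H) := H.finite_quotient_of_finiteIndex
  have _ : Fintype (Γ ⧸ H) := Fintype.ofFinite _
  have : Nonempty (Γ ⧸ H) := ⟨((1 : Γ) : Γ ⧸ H)⟩
  set s : Finset ℝ := Finset.univ.image fun c : Γ ⧸ H => ε ((c.out)⁻¹ • x0) with hs
  have hsn : s.Nonempty := by
    rw [hs, Finset.image_nonempty]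
    exact Finset.univ_nonempty
  set δ := s.min' hsn with hδ
  have hδ0 : 0 < δ := by
    obtain ⟨c, -, hc⟩ := Finset.mem_image.1 (s.min'_mem hsn)
    rw [hδ, ← hc]
    exact hε0 _
  have key : ∀ x y : X, x ≠ y → δ ≤ dist (f x) (f y) := by
    intro x y hxy
    by_contra hlt
    rw [not_le] at hlt
    apply hxy
    obtain ⟨g, rfl⟩ := htr x
    -- g⁻¹ = c.out * h
    obtain ⟨h, hh⟩ := QuotientGroup.mk_out_eq_mul H g⁻¹
    set c : Γ ⧸ H := ((g⁻¹ : Γ) : Γ ⧸ H) with hc
    have e1 : (c.out)⁻¹ = (h : Γ)⁻¹ * g := by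
      rw [hc, hh, mul_inv_rev, inv_inv]
    obtain ⟨T, hT⟩ := hH ((h : Γ)⁻¹) (inv_mem h.2)
    have e2 : dist (f ((c.out)⁻¹ • x0)) (f ((h : Γ)⁻¹ • y)) = dist (f (g • x0)) (f y) := by
      rw [e1, mul_smul, ← hT, ← hT, T.dist_eq]
    have h6 : δ ≤ ε ((c.out)⁻¹ • x0) := by
      rw [hδ]
      exact s.min'_le _ (Finset.mem_image.2 ⟨c, Finset.mem_univ _, rfl⟩)
    have h7 := hε ((c.out)⁻¹ • x0) ((h : Γ)⁻¹ • y) (by rw [e2]; exact lt_of_lt_of_le hlt h6)
    rw [e1, mul_smul] at h7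
    exact MulAction.injective _ h7
  have hcl : IsClosed (Set.range f) := by
    refine Metric.isClosed_of_pairwise_le_dist hδ0 ?_
    rintro _ ⟨x, rfl⟩ _ ⟨y, rfl⟩ hne
    exact key x y (fun e => hne (by rw [e]))
  have hfin := Metric.finite_isBounded_inter_isClosed (K := Metric.closedBall (f x0) r)
    ⟨hD⟩ Metric.isBounded_closedBall hcl
  refine Set.Finite.of_finite_image (f := f) (hfin.subset ?_) hf.injOn
  rintro _ ⟨x, hx, rfl⟩
  refine ⟨?_, x, rfl⟩
  rw [Metric.mem_closedBall, dist_eq_norm]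
  exact hx

open LINI in
/-- The stabiliser of a vertex is finite. -/
theorem stabI {d : ℕ} {Γ : Type} [Group Γ] {X : Type} [MulAction Γ X] (f : X → E d)
    (hf : Function.Injective f) (x0 : X) (H : Subgroup Γ)
    (hH : ∀ h ∈ H, ∃ T : E d ≃ᵢ E d, ∀ x, T (f x) = f (h • x)) (hi : H.index ≠ 0)
    (hfa : ∀ g : Γ, (∀ x : X, g • x = x) → g = 1)
    (hlf : ∀ r : ℝ, {x : X | ‖f x - f x0‖ ≤ r}.Finite) (U : Subgroup Γ)
    (hU : ∀ u ∈ U, u • x0 = x0) : Finite U := by
  classical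
  obtain ⟨T, hT1, hT2, -⟩ := linI f H hH
  -- a finite set of vertices that determines the linear parts
  obtain ⟨B, hB, hBs⟩ : ∃ B : Finset X, True ∧ W f ≤ Submodule.span ℝ {v | ∃ x ∈ B, f x - f x0 = v} := by
    have h1 : (W f).FG := IsNoetherian.noetherian _
    have h2 : W f = Submodule.span ℝ (Set.range fun x => f x - f x0) := by
      apply le_antisymm
      · rw [W, Submodule.span_le]
        rintro _ ⟨x, y, rfl⟩
        have : f x - f y = (f x - f x0) - (f y - f x0) := by abel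
        rw [this]
        exact Submodule.sub_mem _ (Submodule.subset_span ⟨x, rfl⟩) (Submodule.subset_span ⟨y, rfl⟩)
      · rw [Submodule.span_le]
        rintro _ ⟨x, rfl⟩
        exact sub_mem_W f _ _
    obtain ⟨t, ht, hts⟩ : ∃ t : Finset (E d), (t : Set (E d)) ⊆ (Set.range fun x => f x - f x0) ∧
        Submodule.span ℝ (t : Set (E d)) = Submodule.span ℝ (Set.range fun x => f x - f x0) := by
      obtain ⟨t, ht, hts⟩ := (Submodule.fg_span_iff_fg_span_finset_subset _).1 (h2 ▸ h1)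
      exact ⟨t, ht, hts.symm⟩
    have : Nonempty X := ⟨x0⟩
    choose! p hp using fun v (hv : v ∈ t) => ht hv
    refine ⟨t.image p, trivial, ?_⟩
    rw [h2, ← hts, Submodule.span_le]
    intro v hv
    refine Submodule.subset_span ⟨p v, Finset.mem_image_of_mem p hv, hp v hv⟩
  obtain ⟨r, hr⟩ : ∃ r : ℝ, ∀ x ∈ B, ‖f x - f x0‖ ≤ r := by
    refine ⟨∑ x ∈ B, ‖f x - f x0‖, fun x hx => ?_⟩
    exact Finset.single_le_sum (f := fun x => ‖f x - f x0‖) (fun y _ => norm_nonneg _) hx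
  have hSf : Finite {x : X | ‖f x - f x0‖ ≤ r} := hlf r
  have hfix : ∀ u ∈ U ⊓ H, ∀ x ∈ B, ‖f (u • x) - f x0‖ ≤ r := by
    rintro u ⟨hu1, hu2⟩ x hx
    have := hT2 u hu2 x x0
    rw [hU u hu1] at this
    rw [← this, (T u).norm_map]
    exact hr x hx
  have hUH : Finite (U ⊓ H : Subgroup Γ) := by
    refine Finite.of_injective (β := B → {x : X | ‖f x - f x0‖ ≤ r})
      (fun u x => ⟨u.1 • x.1, hfix u.1 u.2 x.1 x.2⟩) ?_
    rintro ⟨u, hu1, hu2⟩ ⟨v, hv1, hv2⟩ huv
    apply Subtype.ext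
    have h3 : ∀ x ∈ B, u • x = v • x := by
      intro x hx
      have := congrFun huv ⟨x, hx⟩
      exact congrArg Subtype.val this
    have h4 : ∀ w ∈ W f, T u w = T v w := by
      intro w hw
      have h5 := hBs hw
      refine Submodule.span_induction (p := fun w _ => T u w = T v w) ?_ ?_ ?_ ?_ h5
      · rintro _ ⟨x, hx, rfl⟩
        rw [hT2 u hu2, hT2 v hv2, h3 x hx, hU u hu1, hU v hv1]
      · rw [map_zero, map_zero]
      · intro a b _ _ ha hb
        rw [map_add, map_add, ha, hb]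
      · intro a b _ hb
        rw [map_smul, map_smul, hb]
    have h6 : ∀ x : X, u • x = v • x := by
      intro x
      apply hf
      have h7 := h4 _ (sub_mem_W f x x0)
      rw [hT2 u hu2, hT2 v hv2, hU u hu1, hU v hv1] at h7
      exact sub_left_injective h7
    have h8 : v⁻¹ * u = 1 := hfa _ fun x => by rw [mul_smul, h6, inv_smul_smul]
    exact (inv_mul_eq_one.1 h8).symm
  have : H.FiniteIndex := ⟨hi⟩
  have h9 : (H.subgroupOf U).index ≠ 0 := by
    have : (H.subgroupOf U).FiniteIndex := inferInstance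
    exact this.index_ne_zero
  have hK : Finite (H.subgroupOf U) := by
    refine Finite.of_injective (β := (U ⊓ H : Subgroup Γ)) (fun u => ⟨u.1.1, u.1.2, u.2⟩) ?_
    intro u v huv
    have := congrArg Subtype.val huv
    exact Subtype.ext (Subtype.ext this)
  have : Finite (U ⧸ H.subgroupOf U) := by
    have : (H.subgroupOf U).FiniteIndex := ⟨h9⟩
    exact Subgroup.finite_quotient_of_finiteIndex
  exact Finite.of_equiv _ (Subgroup.groupEquivQuotientProdSubgroup (s := H.subgroupOf U)).symm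

end

end FOI
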