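import Pool.Agent.FOI.DStmts

/-!
# Block IV: the facts on the cube that are used for the count
-/

namespace FOI

open Lib_helper64.FO FO2 FOK
open scoped RealInnerProductSpace Nat

noncomputable section

namespace MOC

section basic

variable {D n : ℕ} {I : Submodule ℝ (E D)} {u : Fin n → E D}

theorem span_u (hI : Module.finrank ℝ I = n) (hu : ∀ i, u i ∈ I) (ho : Orthonormal ℝ u) :
    Submodule.span ℝ (Set.range u) = I := by
  refine Submodule.eq_of_le_of_finrank_le (Submodule.span_le.2 ?_) ?_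
  · rintro _ ⟨i, rfl⟩
    exact hu i
  · rw [hI, finrank_span_eq_card ho.linearIndependent, Fintype.card_fin]

theorem ind_I (hs : Submodule.span ℝ (Set.range u) = I) {p : E D → Prop} (h0 : p 0)
    (h1 : ∀ i, p (u i)) (h2 : ∀ v w, p v → p w → p (v + w)) (h3 : ∀ (c : ℝ) v, p v → p (c • v)) :
    ∀ v ∈ I, p v := by
  intro v hv
  rw [← hs] at hv
  induction hv using Submodule.span_induction with
  | mem v hv =>
    obtain ⟨i, rfl⟩ := hv
    exact h1 i
  | zero => exact h0
  | add v w _ _ hv hw => exact h2 v w hv hw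
  | smul c v _ hv => exact h3 c v hv

theorem eq_zero (hs : Submodule.span ℝ (Set.range u) = I) {v : E D} (hv : v ∈ I)
    (h : ∀ i, ⟪u i, v⟫ = (0 : ℝ)) : v = 0 := by
  have h1 : ∀ w ∈ I, ⟪w, v⟫ = (0 : ℝ) :=
    ind_I hs (inner_zero_left _) h (fun a b ha hb => by rw [inner_add_left, ha, hb, add_zero])
      fun c a ha => by rw [inner_smul_left, ha, mul_zero]
  exact inner_self_eq_zero.1 (h1 v hv)

/-- the reflection in a multiple of a vector of length `√2` -/
theorem sref_a (a v : E D) : sref ((1 / √2 : ℝ) • a) v = v - (⟪a, v⟫ : ℝ) • a := by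
  have h2 : (1 / √2 : ℝ) * (1 / √2) = 1 / 2 := by
    rw [div_mul_div_comm, one_mul, Real.mul_self_sqrt (by norm_num)]
  have h3 : (2 * ⟪(1 / √2 : ℝ) • a, v⟫ : ℝ) • ((1 / √2 : ℝ) • a) = (⟪a, v⟫ : ℝ) • a := by
    rw [real_inner_smul_left, smul_smul]
    congr 1
    calc 2 * ((1 / √2 : ℝ) * ⟪a, v⟫) * (1 / √2) = 2 * ((1 / √2 : ℝ) * (1 / √2)) * ⟪a, v⟫ := by ring
      _ = ⟪a, v⟫ := by rw [h2]; ring
  rw [sref, h3]

end basic

/-- the set of the vectors `± u i` -/
def SS {D n : ℕ} (u : Fin n → E D) : Set (E D) := {v | ∃ i, v = u i ∨ v = -u i}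

/-- the set of the vectors `(± u i ± u j) / √2` -/
def PS {D n : ℕ} (u : Fin n → E D) : Set (E D) :=
  {b | ∃ i j, i ≠ j ∧ ∃ s t : ℝ, (s = 1 ∨ s = -1) ∧ (t = 1 ∨ t = -1) ∧
    b = (1 / √2 : ℝ) • (s • u i + t • u j)}

section sets

variable {D n : ℕ} {I : Submodule ℝ (E D)} {u : Fin n → E D}

theorem SS_fin (u : Fin n → E D) : (SS u).Finite := by
  have h : SS u ⊆ Set.range u ∪ Set.range (fun i => -u i) := by
    rintro v ⟨i, rfl | rfl⟩
    · exact Or.inl ⟨i, rfl⟩
    · exact Or.inr ⟨i, rfl⟩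
  exact ((Set.finite_range u).union (Set.finite_range _)).subset h

theorem SS_span (hs : Submodule.span ℝ (Set.range u) = I) : Submodule.span ℝ (SS u) = I := by
  apply le_antisymm
  · rw [Submodule.span_le]
    rintro v ⟨i, h⟩
    have hi : u i ∈ I := by
      rw [← hs]
      exact Submodule.subset_span ⟨i, rfl⟩
    rcases h with rfl | rfl
    · exact hi
    · exact neg_mem hi
  · rw [← hs, Submodule.span_le]
    rintro _ ⟨i, rfl⟩
    exact Submodule.subset_span ⟨i, Or.inl rfl⟩

theorem exists_ne2 (hn : 3 ≤ n) (i j : Fin n) : ∃ m, m ≠ i ∧ m ≠ j := by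
  have h : ∃ m : Fin n, m ∉ ({i, j} : Finset (Fin n)) := by
    by_contra hcon
    push Not at hcon
    have h1 : (Finset.univ : Finset (Fin n)) ⊆ {i, j} := fun m _ => hcon m
    have h2 := Finset.card_le_card h1
    rw [Finset.card_univ, Fintype.card_fin] at h2
    have h3 := Finset.card_le_two (a := i) (b := j)
    omega
  obtain ⟨m, hm⟩ := h
  refine ⟨m, fun h => hm ?_, fun h => hm ?_⟩
  · rw [h]
    exact Finset.mem_insert_self _ _
  · rw [h]
    exact Finset.mem_insert_of_mem (Finset.mem_singleton_self _)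

theorem sqrt2_ne : (1 / √2 : ℝ) ≠ 0 := by positivity

theorem PS_irr (hn : 3 ≤ n) (ho : Orthonormal ℝ u) : IrrRS (PS u) := by
  intro L hL
  have hin : ∀ i j, ⟪u i, u j⟫ = if i = j then (1 : ℝ) else 0 := orthonormal_iff_ite.1 ho
  have hmem : ∀ i j, i ≠ j → ∀ s t : ℝ, (s = 1 ∨ s = -1) → (t = 1 ∨ t = -1) →
      s • u i + t • u j ∈ L ∨ s • u i + t • u j ∈ Lᗮ := by
    intro i j hij s t hs ht
    rcases hL _ ⟨i, j, hij, s, t, hs, ht, rfl⟩ with h | h
    · exact Or.inl ((Submodule.smul_mem_iff L sqrt2_ne).1 h)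
    · exact Or.inr ((Submodule.smul_mem_iff Lᗮ sqrt2_ne).1 h)
  have horth : ∀ v ∈ L, ∀ w ∈ Lᗮ, ⟪v, w⟫ = (0 : ℝ) := fun v hv w hw =>
    (Submodule.mem_orthogonal _ _).1 hw v hv
  have hpair : ∀ i j, i ≠ j → (u i ∈ L ∧ u j ∈ L) ∨ (u i ∈ Lᗮ ∧ u j ∈ Lᗮ) := by
    intro i j hij
    have e1 : u i = (1 / 2 : ℝ) • (((1 : ℝ) • u i + (1 : ℝ) • u j) +
        ((1 : ℝ) • u i + (-1 : ℝ) • u j)) := by
      module
    have e2 : u j = (1 / 2 : ℝ) • (((1 : ℝ) • u i + (1 : ℝ) • u j) -
        ((1 : ℝ) • u i + (-1 : ℝ) • u j)) := by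
      module
    obtain ⟨m, hmi, hmj⟩ := exists_ne2 hn i j
    have hr := hmem i m hmi.symm 1 1 (Or.inl rfl) (Or.inl rfl)
    have hp := hmem i j hij 1 1 (Or.inl rfl) (Or.inl rfl)
    have hq := hmem i j hij 1 (-1) (Or.inl rfl) (Or.inr rfl)
    have i1 : ⟪(1 : ℝ) • u i + (1 : ℝ) • u m, (1 : ℝ) • u i + (1 : ℝ) • u j⟫ = (1 : ℝ) := by
      simp only [inner_add_left, inner_add_right, one_smul, hin, if_true,
        if_neg hij, if_neg hmi, if_neg hmj]
      norm_num
    have i2 : ⟪(1 : ℝ) • u i + (1 : ℝ) • u m, (1 : ℝ) • u i + (-1 : ℝ) • u j⟫ = (1 : ℝ) := by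
      simp only [inner_add_left, inner_add_right, one_smul, neg_smul, inner_neg_right, hin, if_true,
        if_neg hij, if_neg hmi, if_neg hmj]
      norm_num
    rcases hp with hp | hp <;> rcases hq with hq | hq
    · left
      refine ⟨?_, ?_⟩
      · rw [e1]
        exact Submodule.smul_mem _ _ (add_mem hp hq)
      · rw [e2]
        exact Submodule.smul_mem _ _ (sub_mem hp hq)
    · exfalso
      rcases hr with hr | hr
      · rw [horth _ hr _ hq] at i2
        exact zero_ne_one i2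
      · rw [real_inner_comm, horth _ hp _ hr] at i1
        exact zero_ne_one i1
    · exfalso
      rcases hr with hr | hr
      · rw [horth _ hr _ hp] at i1
        exact zero_ne_one i1
      · rw [real_inner_comm, horth _ hq _ hr] at i2
        exact zero_ne_one i2
    · right
      refine ⟨?_, ?_⟩
      · rw [e1]
        exact Submodule.smul_mem _ _ (add_mem hp hq)
      · rw [e2]
        exact Submodule.smul_mem _ _ (sub_mem hp hq)
  let z : Fin n := ⟨0, by omega⟩
  have hfin : ∀ M : Submodule ℝ (E D), (∀ i, u i ∈ M) → ∀ a ∈ PS u, a ∈ M := by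
    rintro M hM a ⟨i, j, -, s, t, -, -, rfl⟩
    exact Submodule.smul_mem _ _ (add_mem (Submodule.smul_mem _ _ (hM i))
      (Submodule.smul_mem _ _ (hM j)))
  by_cases hz : u z ∈ L
  · left
    refine hfin L fun i => ?_
    by_cases hi : i = z
    · rw [hi]
      exact hz
    · rcases hpair i z hi with h | h
      · exact h.1
      · exfalso
        have h1 := horth _ hz _ h.2
        rw [hin, if_pos rfl] at h1
        exact one_ne_zero h1
  · right
    refine hfin Lᗮ fun i => ?_
    by_cases hi : i = z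
    · obtain ⟨m, hm, -⟩ := exists_ne2 hn z z
      rcases hpair m z hm with h | h
      · exact absurd h.2 hz
      · rw [hi]
        exact h.2
    · rcases hpair i z hi with h | h
      · exact absurd h.2 hz
      · exact h.1

theorem PS_span (hn : 3 ≤ n) (hs : Submodule.span ℝ (Set.range u) = I) :
    Submodule.span ℝ (PS u) = I := by
  have hu : ∀ i, u i ∈ I := fun i => by
    rw [← hs]
    exact Submodule.subset_span ⟨i, rfl⟩
  apply le_antisymm
  · rw [Submodule.span_le]
    rintro a ⟨i, j, -, s, t, -, -, rfl⟩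
    exact Submodule.smul_mem _ _ (add_mem (Submodule.smul_mem _ _ (hu i))
      (Submodule.smul_mem _ _ (hu j)))
  · rw [← hs, Submodule.span_le]
    rintro _ ⟨i, rfl⟩
    obtain ⟨j, hj, -⟩ := exists_ne2 hn i i
    have h1 : (1 / √2 : ℝ) • ((1 : ℝ) • u i + (1 : ℝ) • u j) ∈ Submodule.span ℝ (PS u) :=
      Submodule.subset_span ⟨i, j, hj.symm, 1, 1, Or.inl rfl, Or.inl rfl, rfl⟩
    have h2 : (1 / √2 : ℝ) • ((1 : ℝ) • u i + (-1 : ℝ) • u j) ∈ Submodule.span ℝ (PS u) :=
      Submodule.subset_span ⟨i, j, hj.symm, 1, -1, Or.inl rfl, Or.inr rfl, rfl⟩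
    have h3 := (Submodule.smul_mem_iff _ sqrt2_ne).1 h1
    have h4 := (Submodule.smul_mem_iff _ sqrt2_ne).1 h2
    have e1 : u i = (1 / 2 : ℝ) • (((1 : ℝ) • u i + (1 : ℝ) • u j) +
        ((1 : ℝ) • u i + (-1 : ℝ) • u j)) := by
      module
    rw [SetLike.mem_coe, e1]
    exact Submodule.smul_mem _ _ (add_mem h3 h4)

/-- the norm of a root -/
theorem norm_root (ho : Orthonormal ℝ u) {i j : Fin n} (hij : i ≠ j) :
    ‖(1 / √2 : ℝ) • (u i - u j)‖ = 1 := by
  have hin : ∀ i j, ⟪u i, u j⟫ = if i = j then (1 : ℝ) else 0 := orthonormal_iff_ite.1 ho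
  have h1 : ‖u i - u j‖ ^ 2 = 2 := by
    rw [← real_inner_self_eq_norm_sq]
    simp only [inner_sub_left, inner_sub_right, hin, if_true, if_neg hij, if_neg hij.symm]
    norm_num
  have h2 : ‖u i - u j‖ = √2 := by
    rw [← h1, Real.sqrt_sq (norm_nonneg _)]
  rw [norm_smul, h2, Real.norm_of_nonneg (by positivity)]
  field_simp

end sets

/-! ### words -/

section words

variable {D m : ℕ} {u : Fin (m + 1) → E D} {g : ℕ → (E D ≃ₗᵢ[ℝ] E D)}

theorem perm_word (hg : ∀ j i : Fin (m + 1), j.val ≠ 0 → g j (u i) = u (Equiv.swap (prd j) j i))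
    (σ : Equiv.Perm (Fin (m + 1))) :
    ∃ w : List ℕ, (∀ j ∈ w, j < m + 1) ∧ ∀ i, (w.map g).prod (u i) = u (σ i) := by
  have hσ : σ ∈ Submonoid.closure (Set.range fun i : Fin m => Equiv.swap i.castSucc i.succ) := by
    rw [Equiv.Perm.mclosure_swap_castSucc_succ]
    trivial
  induction hσ using Submonoid.closure_induction with
  | mem σ hσ =>
    obtain ⟨j, rfl⟩ := hσ
    have e : prd j.succ = j.castSucc := by
      apply Fin.ext
      simp [prd]
    refine ⟨[j.val + 1], ?_, fun i => ?_⟩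
    · intro x hx
      rw [List.mem_singleton] at hx
      omega
    · have h1 := hg j.succ i (by simp)
      rw [e] at h1
      simpa using h1
  | one => exact ⟨[], by simp, fun i => rfl⟩
  | mul σ τ _ _ ih1 ih2 =>
    obtain ⟨w1, h1, h2⟩ := ih1
    obtain ⟨w2, h3, h4⟩ := ih2
    refine ⟨w1 ++ w2, ?_, fun i => ?_⟩
    · intro x hx
      rcases List.mem_append.1 hx with h | h
      · exact h1 x h
      · exact h3 x h
    · rw [List.map_append, List.prod_append]
      change (w1.map g).prod ((w2.map g).prod (u i)) = _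
      rw [h4, h2]
      rfl

/-- two different indices can be moved to two different indices -/
theorem exists_perm {α : Type} [DecidableEq α] {a b i i' : α} (hab : a ≠ b) (h : i ≠ i') :
    ∃ σ : Equiv.Perm α, σ a = i ∧ σ b = i' := by
  have hne : Equiv.swap a i b ≠ i := by
    intro e
    apply hab
    have := congrArg (Equiv.swap a i) e
    rw [Equiv.swap_apply_self, Equiv.swap_apply_right] at this
    exact this.symm
  refine ⟨Equiv.swap (Equiv.swap a i b) i' * Equiv.swap a i, ?_, ?_⟩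
  · rw [Equiv.Perm.mul_apply, Equiv.swap_apply_left,
      Equiv.swap_apply_of_ne_of_ne hne.symm h]
  · rw [Equiv.Perm.mul_apply, Equiv.swap_apply_left]

theorem orb_word (hg : ∀ j i : Fin (m + 1), g j (u i) =
      if j.val = 0 then (if i = j then - u i else u i) else u (Equiv.swap (prd j) j i))
    {p q : Fin (m + 1)} (hpq : p ≠ q) (hm : 1 ≤ m) {b : E D} (hb : b ∈ PS u) :
    ∃ w : List ℕ, (∀ j ∈ w, j < m + 1) ∧
      (b = (w.map g).prod ((1 / √2 : ℝ) • (u p - u q)) ∨
        b = -(w.map g).prod ((1 / √2 : ℝ) • (u p - u q))) := by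
  have hg1 : ∀ j i : Fin (m + 1), j.val ≠ 0 → g j (u i) = u (Equiv.swap (prd j) j i) :=
    fun j i hj => by rw [hg, if_neg hj]
  obtain ⟨i, j, hij, s, t, hs, ht, rfl⟩ := hb
  -- the difference
  have hdiff : ∀ i j : Fin (m + 1), i ≠ j → ∃ w : List ℕ, (∀ j ∈ w, j < m + 1) ∧
      (w.map g).prod ((1 / √2 : ℝ) • (u p - u q)) = (1 / √2 : ℝ) • (u i - u j) := by
    intro i j hij
    obtain ⟨σ, e1, e2⟩ := exists_perm hpq hij
    obtain ⟨w, h1, h2⟩ := perm_word hg1 σ
    exact ⟨w, h1, by rw [map_smul, map_sub, h2, h2, e1, e2]⟩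
  -- the sum
  have hsum : ∃ w : List ℕ, (∀ j ∈ w, j < m + 1) ∧
      (w.map g).prod ((1 / √2 : ℝ) • (u p - u q)) = -((1 / √2 : ℝ) • (u i + u j)) := by
    have hz : (0 : Fin (m + 1)) ≠ ⟨1, by omega⟩ := by
      intro h
      have := congrArg Fin.val h
      simp at this
    obtain ⟨w1, h1, h2⟩ := hdiff 0 ⟨1, by omega⟩ hz
    obtain ⟨σ, e1, e2⟩ := exists_perm hz hij
    obtain ⟨w, h3, h4⟩ := perm_word hg1 σ
    refine ⟨w ++ 0 :: w1, ?_, ?_⟩
    · intro x hx
      rcases List.mem_append.1 hx with h | h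
      · exact h3 x h
      · rcases List.mem_cons.1 h with rfl | h
        · omega
        · exact h1 x h
    · rw [List.map_append, List.prod_append, List.map_cons, List.prod_cons]
      change (w.map g).prod (g 0 ((w1.map g).prod _)) = _
      have g0 : g 0 (u 0) = -u 0 := by
        have := hg 0 0
        simpa using this
      have g1 : g 0 (u ⟨1, by omega⟩) = u ⟨1, by omega⟩ := by
        have := hg 0 ⟨1, by omega⟩
        simpa [hz.symm] using this
      rw [h2, map_smul, map_sub, g0, g1, map_smul, map_sub, map_neg, h4, h4, e1, e2]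
      module
  rcases hs with rfl | rfl <;> rcases ht with rfl | rfl
  · obtain ⟨w, h1, h2⟩ := hsum
    refine ⟨w, h1, Or.inr ?_⟩
    rw [h2, neg_neg, one_smul, one_smul]
  · obtain ⟨w, h1, h2⟩ := hdiff i j hij
    refine ⟨w, h1, Or.inl ?_⟩
    rw [h2]
    module
  · obtain ⟨w, h1, h2⟩ := hdiff i j hij
    refine ⟨w, h1, Or.inr ?_⟩
    rw [h2]
    module
  · obtain ⟨w, h1, h2⟩ := hsum
    refine ⟨w, h1, Or.inl ?_⟩
    rw [h2]
    module

end words

end MOC

open MOC in
theorem t_MOC : S_MOC := by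
  intro D n l I y0 g hI hn hl hln hmod
  obtain ⟨u, hu, ho, hy0, hg⟩ := hmod
  have hs := span_u hI hu ho
  have hin : ∀ i j, ⟪u i, u j⟫ = if i = j then (1 : ℝ) else 0 := orthonormal_iff_ite.1 ho
  obtain ⟨m, rfl⟩ : ∃ m, n = m + 1 := ⟨n - 1, by omega⟩
  let q : Fin (m + 1) := ⟨l, by omega⟩
  have hq0 : q.val ≠ 0 := by change l ≠ 0; omega
  have hpq : prd q ≠ q := by
    intro e
    have := congrArg Fin.val e
    change l - 1 = l at this
    omega
  let a : E D := (1 / √2 : ℝ) • (u (prd q) - u q)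
  -- inner products
  have hcoord : ∀ (j : Fin (m + 1)), j.val ≠ 0 → ∀ (i : Fin (m + 1)) (v : E D),
      ⟪u (Equiv.swap (prd j) j i), g j v⟫ = (⟪u i, v⟫ : ℝ) := by
    intro j hj i v
    have h1 := hg j i
    rw [if_neg hj] at h1
    rw [← h1, LinearIsometryEquiv.inner_map_map]
  let z0 : Fin (m + 1) := ⟨0, by omega⟩
  let z1 : Fin (m + 1) := ⟨1, by omega⟩
  have hz : z1 ≠ z0 := by
    intro h
    have := congrArg Fin.val h
    simp [z0, z1] at this
  have hg00 : g 0 (u z0) = -u z0 := by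
    have := hg z0 z0
    rwa [if_pos rfl, if_pos rfl] at this
  have hg0i : ∀ i, i ≠ z0 → g 0 (u i) = u i := by
    intro i hi
    have := hg z0 i
    rwa [if_pos rfl, if_neg hi] at this
  have hc00 : ∀ v : E D, ⟪u z0, g 0 v⟫ = (-⟪u z0, v⟫ : ℝ) := by
    intro v
    have h1 : ⟪g 0 (u z0), g 0 v⟫ = (⟪u z0, v⟫ : ℝ) := LinearIsometryEquiv.inner_map_map _ _ _
    rw [hg00, inner_neg_left] at h1
    linarith
  have hc0i : ∀ i, i ≠ z0 → ∀ v : E D, ⟪u i, g 0 v⟫ = (⟪u i, v⟫ : ℝ) := by
    intro i hi v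
    have h1 : ⟪g 0 (u i), g 0 v⟫ = (⟪u i, v⟫ : ℝ) := LinearIsometryEquiv.inner_map_map _ _ _
    rwa [hg0i i hi] at h1
  refine ⟨SS u, PS u, a, ?_⟩
  refine
    { fin := SS_fin u
      span := SS_span hs
      neg := ?_
      gS := ?_
      sq := ?_
      norm := norm_root ho hpq
      aI := Submodule.smul_mem _ _ (sub_mem (hu _) (hu _))
      refl := ?_
      irr := PS_irr (by omega) ho
      spΨ := PS_span (by omega) hs
      orb := fun b hb => orb_word hg hpq (by omega) hb
      f1 := ?_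
      f2 := ?_
      y0I := ?_
      ind := ?_ }
  · rintro v ⟨i, rfl | rfl⟩
    · exact ⟨i, Or.inr rfl⟩
    · exact ⟨i, Or.inl (neg_neg _)⟩
  · intro j hj v hv
    have key : ∀ i, g j (u i) ∈ SS u := by
      intro i
      have h1 := hg ⟨j, hj⟩ i
      change g j (u i) = _ at h1
      rw [h1]
      split_ifs
      · exact ⟨i, Or.inr rfl⟩
      · exact ⟨i, Or.inl rfl⟩
      · exact ⟨_, Or.inl rfl⟩
    obtain ⟨i, rfl | rfl⟩ := hv
    · exact key i
    · rw [map_neg]
      obtain ⟨i', h | h⟩ := key i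
      · exact ⟨i', Or.inr (by rw [h])⟩
      · exact ⟨i', Or.inl (by rw [h, neg_neg])⟩
  · intro j hj
    refine ind_I hs (by rw [map_zero, map_zero]) (fun i => ?_)
      (fun v w hv hw => by rw [map_add, map_add, hv, hw])
      fun c v hv => by rw [map_smul, map_smul, hv]
    have h1 : ∀ i, g j (u i) = if j = 0 then (if i = (⟨j, hj⟩ : Fin (m + 1)) then - u i else u i)
        else u (Equiv.swap (prd ⟨j, hj⟩) ⟨j, hj⟩ i) := fun i => hg ⟨j, hj⟩ i
    by_cases hj0 : j = 0
    · by_cases hi : i = (⟨j, hj⟩ : Fin (m + 1))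
      · have h2 := h1 i
        rw [if_pos hj0, if_pos hi] at h2
        rw [h2, map_neg, h2, neg_neg]
      · have h2 := h1 i
        rw [if_pos hj0, if_neg hi] at h2
        rw [h2, h2]
    · rw [h1 i, if_neg hj0, h1, if_neg hj0, Equiv.swap_apply_self]
  · refine ind_I hs ?_ (fun i => ?_) (fun v w hv hw => ?_) fun c v hv => ?_
    · rw [map_zero, sref, inner_zero_right, mul_zero, zero_smul, sub_zero]
    · have h1 := hg q i
      change g l (u i) = _ at h1
      rw [if_neg hq0] at h1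
      rw [h1, sref_a, inner_sub_left, hin, hin]
      by_cases hi : i = prd q
      · subst hi
        rw [Equiv.swap_apply_left, if_pos rfl, if_neg hpq.symm]
        module
      · by_cases hi' : i = q
        · rw [hi', Equiv.swap_apply_right, if_neg hpq, if_pos rfl]
          module
        · rw [Equiv.swap_apply_of_ne_of_ne hi hi', if_neg (Ne.symm hi), if_neg (Ne.symm hi')]
          module
    · rw [map_add, hv, hw, sref_a, sref_a, sref_a, inner_add_right]
      module
    · rw [map_smul, hv, sref_a, sref_a, inner_smul_right]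
      module
  · -- f1
    intro v hv h2 h1
    have x2 : ∀ i : Fin (m + 1), 2 ≤ i.val → ⟪u i, v⟫ = (0 : ℝ) := by
      intro i hi
      have h3 := hcoord z1 (by simp [z1]) i v
      have e1 : prd z1 = z0 := rfl
      have e2 : i ≠ z0 := by
        intro h
        have h4 : i.val = 0 := congrArg Fin.val h
        omega
      have e3 : i ≠ z1 := by
        intro h
        have h4 : i.val = 1 := congrArg Fin.val h
        omega
      rw [e1, Equiv.swap_apply_of_ne_of_ne e2 e3] at h3
      change ⟪u i, g 1 v⟫ = _ at h3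
      rw [h1, inner_neg_right] at h3
      linarith
    have x1 : ⟪u z1, v⟫ = (0 : ℝ) := by
      let z2 : Fin (m + 1) := ⟨2, by omega⟩
      have h3 := hcoord z2 (by simp [z2]) z2 v
      have e1 : prd z2 = z1 := rfl
      rw [e1, Equiv.swap_apply_right] at h3
      change ⟪u z1, g 2 v⟫ = _ at h3
      rw [h2 2 le_rfl (by omega)] at h3
      rw [h3]
      exact x2 z2 le_rfl
    have x0 : ⟪u z0, v⟫ = (0 : ℝ) := by
      have h3 := hcoord z1 (by simp [z1]) z0 v
      have e1 : prd z1 = z0 := rfl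
      rw [e1, Equiv.swap_apply_left] at h3
      change ⟪u z1, g 1 v⟫ = _ at h3
      rw [h1, inner_neg_right, x1, neg_zero] at h3
      exact h3.symm
    refine eq_zero hs hv fun i => ?_
    rcases Nat.lt_or_ge i.val 2 with hi | hi
    · have : i.val = 0 ∨ i.val = 1 := by omega
      rcases this with h | h
      · have e : i = z0 := Fin.ext h
        rw [e]
        exact x0
      · have e : i = z1 := Fin.ext h
        rw [e]
        exact x1
    · exact x2 i hi
  · -- f2
    intro v hv h1 h0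
    have hstep : ∀ j : Fin (m + 1), j.val ≠ 0 → ⟪u (prd j), v⟫ = (⟪u j, v⟫ : ℝ) := by
      intro j hj
      have h3 := hcoord j hj j v
      rw [Equiv.swap_apply_right, h1 j.val (by omega) j.isLt] at h3
      exact h3
    have x01 : ⟪u z0, v⟫ = (⟪u z1, v⟫ : ℝ) := hstep z1 (by simp [z1])
    have x0 : ⟪u z0, v⟫ = (0 : ℝ) := by
      rcases h0 with h0 | h0
      · have h3 := hc00 v
        rw [h0] at h3
        linarith
      · have h3 := hc0i z1 hz v
        rw [h0, inner_neg_right] at h3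
        linarith
    have hall : ∀ (c : ℕ) (hc : c < m + 1), ⟪u ⟨c, hc⟩, v⟫ = (0 : ℝ) := by
      intro c
      induction c with
      | zero => intro hc; exact x0
      | succ c ih =>
        intro hc
        have h3 := hstep ⟨c + 1, hc⟩ (by simp)
        have e : prd (⟨c + 1, hc⟩ : Fin (m + 1)) = ⟨c, by omega⟩ := by
          apply Fin.ext
          simp [prd]
        rw [e, ih (by omega)] at h3
        exact h3.symm
    exact eq_zero hs hv fun i => hall i.val i.isLt
  · rw [hy0]
    exact Submodule.sum_mem _ fun i _ => hu i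
  · rw [LinearIndependent.pair_iff]
    intro s t hst
    have hyi : ∀ i, ⟪u i, y0⟫ = (1 : ℝ) := by
      intro i
      rw [hy0, inner_sum]
      simp [hin]
    have h1 : ⟪u z1, s • y0 + t • g 0 y0⟫ = (0 : ℝ) := by rw [hst, inner_zero_right]
    have h2 : ⟪u z0, s • y0 + t • g 0 y0⟫ = (0 : ℝ) := by rw [hst, inner_zero_right]
    rw [inner_add_right, inner_smul_right, inner_smul_right, hyi, hc0i z1 hz, hyi] at h1
    rw [inner_add_right, inner_smul_right, inner_smul_right, hyi, hc00, hyi] at h2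
    constructor <;> linarith

end

end FOI
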