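import Pool.Agent.FOI.DStmts
import Pool.Agent.FOK.EA
import Pool.Agent.FOK.QRS

/-!
# Module MOS: the facts on the simplex
-/

namespace FOI

open Lib_helper64.FO FO2 FOK
open scoped RealInnerProductSpace Nat

namespace MOS

variable {D n : ℕ} {v : Fin (n + 1) → E D}

theorem in3 (hg : ∀ i j, ⟪v i, v j⟫ = if i = j then (1 : ℝ) else -1 / n) (i j k l : Fin (n + 1)) :
    (⟪v i - v j, v k - v l⟫ : ℝ) = (1 + 1 / n) *
      (((if i = k then 1 else 0) - (if i = l then 1 else 0)) -
        ((if j = k then 1 else 0) - (if j = l then 1 else 0))) := by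
  rw [inner_sub_left, EA.in2 hg, EA.in2 hg]
  ring

theorem sum_zero (hg : ∀ i j, ⟪v i, v j⟫ = if i = j then (1 : ℝ) else -1 / n) (hn : 1 ≤ n) :
    ∑ i, v i = 0 := by
  have h1 : ∀ j, (⟪∑ i, v i, v j⟫ : ℝ) = 0 := by
    intro j
    rw [sum_inner]
    have h2 : ∀ i, (⟪v i, v j⟫ : ℝ) = (-1 / n) + (if i = j then (1 + 1 / n : ℝ) else 0) := by
      intro i
      rw [hg]
      split_ifs
      · ring
      · ring
    rw [Finset.sum_congr rfl fun i _ => h2 i, Finset.sum_add_distrib, Finset.sum_ite_eq',
      if_pos (Finset.mem_univ _), Finset.sum_const, Finset.card_univ, Fintype.card_fin, nsmul_eq_mul]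
    have h3 : (n : ℝ) ≠ 0 := by
      have : (1 : ℝ) ≤ n := by exact_mod_cast hn
      linarith
    push_cast
    field_simp
    ring
  have h2 : (⟪∑ i, v i, ∑ i, v i⟫ : ℝ) = 0 := by
    rw [inner_sum]
    exact Finset.sum_eq_zero fun j _ => h1 j
  exact inner_self_eq_zero.1 h2

theorem span_d (hg : ∀ i j, ⟪v i, v j⟫ = if i = j then (1 : ℝ) else -1 / n)
    {I : Submodule ℝ (E D)} (hI : Module.finrank ℝ I = n) (hv : ∀ i, v i ∈ I) :
    Submodule.span ℝ (Set.range fun i : Fin n => v i.succ - v 0) = I := by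
  have h1 : LinearIndependent ℝ (fun i : Fin n => v i.succ - v 0) := by
    apply EA.li_dual (y := fun j : Fin n => v j.succ)
    · intro i j hij
      have e : j.succ ≠ i.succ := fun h => hij (Fin.succ_injective _ h).symm
      rw [real_inner_comm, EA.in2 hg, if_neg e, if_neg (Fin.succ_ne_zero j)]
      ring
    · intro i
      rw [real_inner_comm, EA.in2 hg, if_pos rfl, if_neg (Fin.succ_ne_zero i)]
      have := EA.c_pos n
      nlinarith
  have h2 := finrank_span_eq_card h1
  rw [Fintype.card_fin] at h2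
  apply Submodule.eq_of_le_of_finrank_le
  · rw [Submodule.span_le]
    rintro _ ⟨i, rfl⟩
    exact sub_mem (hv _) (hv _)
  · rw [h2]
    exact hI.le

/-- two linear maps that agree on the vertices agree on the space -/
theorem ext_v (hg : ∀ i j, ⟪v i, v j⟫ = if i = j then (1 : ℝ) else -1 / n)
    {I : Submodule ℝ (E D)} (hI : Module.finrank ℝ I = n) (hv : ∀ i, v i ∈ I)
    {p q : E D → E D} (pa : ∀ x y, p (x + y) = p x + p y) (ps : ∀ (c : ℝ) x, p (c • x) = c • p x)
    (qa : ∀ x y, q (x + y) = q x + q y) (qs : ∀ (c : ℝ) x, q (c • x) = c • q x)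
    (h : ∀ i, p (v i) = q (v i)) {x : E D} (hx : x ∈ I) : p x = q x := by
  rw [← EA.span_v hg hI hv] at hx
  induction hx using Submodule.span_induction with
  | mem x hx =>
    obtain ⟨i, rfl⟩ := hx
    exact h i
  | zero =>
    have h1 := ps 0 0
    have h2 := qs 0 0
    rw [zero_smul, zero_smul] at h1 h2
    rw [h1, h2]
  | add x y _ _ hx hy => rw [pa, qa, hx, hy]
  | smul c x _ hx => rw [ps, qs, hx]

end MOS

open MOS in
theorem t_MOS : S_MOS := by
  intro D n l I y0 g hI hn hl hln hS
  obtain ⟨v, hv, hg, hy0, hgv⟩ := hS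
  have hnR : (6 : ℝ) ≤ n := by exact_mod_cast hn
  have hcp := EA.c_pos n
  set C : ℝ := 1 + 1 / n with hC
  have hgv' : ∀ (j : ℕ) (hj : j < n) (i : Fin (n + 1)), g j (v i) =
      v (Equiv.swap (⟨j, hj⟩ : Fin n).castSucc (⟨j, hj⟩ : Fin n).succ i) := fun j hj i =>
    hgv ⟨j, hj⟩ i
  let L : Fin n := ⟨l, by omega⟩
  have hLne : L.castSucc ≠ L.succ := by
    intro h0
    have := congrArg Fin.val h0
    simp at this
  let c : ℝ := (√(2 * C))⁻¹
  have h2C : (0 : ℝ) < 2 * C := by linarith
  have hc2 : c * c * (2 * C) = 1 := by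
    have h1 : √(2 * C) * √(2 * C) = 2 * C := Real.mul_self_sqrt h2C.le
    have h2 : √(2 * C) ≠ 0 := (Real.sqrt_pos.2 h2C).ne'
    have h3 : (√(2 * C))⁻¹ * (√(2 * C))⁻¹ * (√(2 * C) * √(2 * C)) = 1 := by
      generalize √(2 * C) = s at h2
      field_simp
    rw [h1] at h3
    exact h3
  have hc0 : c ≠ 0 := by
    intro h
    rw [h] at hc2
    norm_num at hc2
  let a : E D := c • (v L.castSucc - v L.succ)
  have hS : ∀ i j : Fin (n + 1), i ≠ j → (⟪v i - v j, v i - v j⟫ : ℝ) = 2 * C := by
    intro i j hij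
    rw [in3 hg, if_pos rfl, if_neg hij, if_neg hij.symm, if_pos rfl, ← hC]
    ring
  have hna : ‖a‖ = 1 := by
    have h1 : (⟪a, a⟫ : ℝ) = 1 := by
      change (⟪c • (v L.castSucc - v L.succ), c • (v L.castSucc - v L.succ)⟫ : ℝ) = 1
      rw [real_inner_smul_left, real_inner_smul_right, hS _ _ hLne]
      linarith
    rw [real_inner_self_eq_norm_sq] at h1
    nlinarith [norm_nonneg a]
  have coord : ∀ (j : ℕ) (hj : j < n) (x : E D) (i : Fin (n + 1)),
      (⟪g j x, v (Equiv.swap (⟨j, hj⟩ : Fin n).castSucc (⟨j, hj⟩ : Fin n).succ i)⟫ : ℝ) =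
        ⟪x, v i⟫ := by
    intro j hj x i
    rw [← hgv', LinearIsometryEquiv.inner_map_map]
  have cst : ∀ (j : ℕ) (hj : j < n) (x : E D), g j x = x →
      (⟪x, v (⟨j, hj⟩ : Fin n).castSucc⟫ : ℝ) = ⟪x, v (⟨j, hj⟩ : Fin n).succ⟫ := by
    intro j hj x hx
    have h1 := coord j hj x (⟨j, hj⟩ : Fin n).succ
    rw [Equiv.swap_apply_right, hx] at h1
    exact h1
  -- equal coordinates from `a` on
  have eqc : ∀ (m : ℕ) (x : E D), (∀ j, m ≤ j → j < n → g j x = x) →
      ∀ i (hi : i < n + 1), m ≤ i → (⟪x, v ⟨i, hi⟩⟫ : ℝ) = ⟪x, v (Fin.last n)⟫ := by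
    intro m x hx
    have h1 : ∀ s i (hi : i < n + 1), m ≤ i → i + s = n →
        (⟪x, v ⟨i, hi⟩⟫ : ℝ) = ⟪x, v (Fin.last n)⟫ := by
      intro s
      induction s with
      | zero =>
        intro i hi hmi his
        have e : (⟨i, hi⟩ : Fin (n + 1)) = Fin.last n := Fin.ext (by simpa using his)
        rw [e]
      | succ s ih =>
        intro i hi hmi his
        have hin : i < n := by omega
        have h2 := cst i hin x (hx i hmi hin)
        have h3 := ih (i + 1) (by omega) (by omega) (by omega)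
        rw [← h3]
        exact h2
    intro i hi hmi
    exact h1 (n - i) i hi hmi (by omega)
  have zero_of : ∀ x ∈ I, (∀ i, (⟪x, v i⟫ : ℝ) = 0) → x = 0 := fun x hx h =>
    EA.perp_v hg hI hv hx h
  have prodv : ∀ (w : List (Fin n)) (i : Fin (n + 1)),
      (((w.map fun j : Fin n => j.val).map g).prod) (v i) = v ((w.map QRS.tr).prod i) := by
    intro w i
    induction w with
    | nil => rfl
    | cons j w ih =>
      rw [List.map_cons, List.map_cons, List.prod_cons, List.map_cons, List.prod_cons,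
        Equiv.Perm.mul_apply]
      change g j ((((w.map fun j : Fin n => j.val).map g).prod) (v i)) = _
      rw [ih, hgv]
      rfl
  refine ⟨{x | ∃ i, x = v i ∨ x = -v i}, {b | ∃ i j, i ≠ j ∧ b = c • (v i - v j)}, a, ?_⟩
  refine ⟨?_, ?_, ?_, ?_, ?_, hna, ?_, ?_, ?_, ?_, ?_, ?_, ?_, ?_, ?_⟩
  · -- finite
    have h1 : {x : E D | ∃ i, x = v i ∨ x = -v i} ⊆
        Set.range v ∪ Set.range (fun i => -v i) := by
      rintro x ⟨i, rfl | rfl⟩
      · exact Or.inl ⟨i, rfl⟩
      · exact Or.inr ⟨i, rfl⟩
    exact ((Set.finite_range v).union (Set.finite_range _)).subset h1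
  · -- span
    apply le_antisymm
    · rw [Submodule.span_le]
      rintro x ⟨i, rfl | rfl⟩
      · exact hv i
      · exact neg_mem (hv i)
    · rw [← EA.span_v hg hI hv]
      apply Submodule.span_mono
      rintro x ⟨i, rfl⟩
      exact ⟨i, Or.inl rfl⟩
  · rintro x ⟨i, rfl | rfl⟩
    · exact ⟨i, Or.inr rfl⟩
    · exact ⟨i, Or.inl (neg_neg _)⟩
  · rintro j hj x ⟨i, rfl | rfl⟩
    · exact ⟨_, Or.inl (hgv' j hj i)⟩
    · exact ⟨_, Or.inr (by rw [map_neg, hgv' j hj i])⟩
  · intro j hj x hx
    refine ext_v hg hI hv (p := fun x => g j (g j x)) (q := fun x => x) ?_ ?_ ?_ ?_ ?_ hx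
    · intro x y
      simp only [map_add]
    · intro c x
      simp only [map_smul]
    · intro x y
      rfl
    · intro c x
      rfl
    · intro i
      change g j (g j (v i)) = v i
      rw [hgv' j hj, hgv' j hj, Equiv.swap_apply_self]
  · exact Submodule.smul_mem _ _ (sub_mem (hv _) (hv _))
  · -- reflection
    intro x hx
    refine ext_v hg hI hv (p := fun x => g l x) (q := fun x => sref a x) ?_ ?_ ?_ ?_ ?_ hx
    · intro x y
      simp only [map_add]
    · intro c x
      simp only [map_smul]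
    · intro x y
      exact sref_add a x y
    · intro c x
      exact sref_smul a x c
    · intro i
      change g l (v i) = sref a (v i)
      have h1 : g l (v i) = v (Equiv.swap L.castSucc L.succ i) := hgv' l (by omega) i
      have h2 : (⟪a, v i⟫ : ℝ) =
          c * (C * ((if i = L.castSucc then 1 else 0) - (if i = L.succ then 1 else 0))) := by
        change (⟪c • (v L.castSucc - v L.succ), v i⟫ : ℝ) = _
        rw [real_inner_smul_left, real_inner_comm, EA.in2 hg]
      have h3 : (2 * ⟪a, v i⟫ : ℝ) • a =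
          ((if i = L.castSucc then (1 : ℝ) else 0) - (if i = L.succ then 1 else 0)) •
            (v L.castSucc - v L.succ) := by
        rw [h2]
        change _ • (c • (v L.castSucc - v L.succ)) = _
        rw [smul_smul]
        congr 1
        have : ∀ z : ℝ, 2 * (c * (C * z)) * c = (c * c * (2 * C)) * z := fun z => by ring
        rw [this, hc2, one_mul]
      rw [h1, sref, h3]
      by_cases e1 : i = L.castSucc
      · subst e1
        rw [Equiv.swap_apply_left, if_pos rfl, if_neg hLne, sub_zero, one_smul, sub_sub_cancel]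
      · by_cases e2 : i = L.succ
        · subst e2
          rw [Equiv.swap_apply_right, if_neg hLne.symm, if_pos rfl, zero_sub, neg_smul, one_smul]
          abel
        · rw [Equiv.swap_apply_of_ne_of_ne e1 e2, if_neg e1, if_neg e2, sub_zero, zero_smul,
            sub_zero]
  · -- irreducible
    intro M hM
    have hne : ∀ i j k : Fin (n + 1), i ≠ j → i ≠ k → c • (v i - v j) ∈ M →
        c • (v i - v k) ∈ M := by
      intro i j k hij hik h
      rcases hM (c • (v i - v k)) ⟨i, k, hik, rfl⟩ with h1 | h1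
      · exact h1
      · exfalso
        have h2 := (Submodule.mem_orthogonal _ _).1 h1 _ h
        rw [real_inner_smul_left, real_inner_smul_right, in3 hg, if_pos rfl, if_neg hik,
          if_neg hij.symm, ← hC] at h2
        have h3 := (mul_eq_zero.1 ((mul_eq_zero.1 h2).resolve_left hc0)).resolve_left hc0
        split_ifs at h3 <;> nlinarith
    by_cases hex : ∃ i j, i ≠ j ∧ c • (v i - v j) ∈ M
    · left
      obtain ⟨i, j, hij, h⟩ := hex
      rintro b ⟨k, m, hkm, rfl⟩
      have h1 : ∀ k, c • (v i - v k) ∈ M := by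
        intro k
        by_cases hik : i = k
        · rw [hik, sub_self, smul_zero]
          exact zero_mem _
        · exact hne i j k hij hik h
      have h2 : c • (v k - v m) = c • (v i - v m) - c • (v i - v k) := by
        rw [← smul_sub]
        congr 1
        abel
      rw [h2]
      exact sub_mem (h1 _) (h1 _)
    · right
      rintro b ⟨i, j, hij, rfl⟩
      rcases hM _ ⟨i, j, hij, rfl⟩ with h1 | h1
      · exact absurd ⟨i, j, hij, h1⟩ hex
      · exact h1
  · -- span of the roots
    apply le_antisymm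
    · rw [Submodule.span_le]
      rintro x ⟨i, j, -, rfl⟩
      exact Submodule.smul_mem _ _ (sub_mem (hv _) (hv _))
    · rw [← span_d hg hI hv, Submodule.span_le]
      rintro x ⟨i, rfl⟩
      have h1 : v i.succ - v 0 = c⁻¹ • (c • (v i.succ - v 0)) := by
        rw [smul_smul, inv_mul_cancel₀ hc0, one_smul]
      change v i.succ - v 0 ∈ Submodule.span ℝ _
      rw [h1]
      apply Submodule.smul_mem
      exact Submodule.subset_span ⟨i.succ, 0, Fin.succ_ne_zero i, rfl⟩
  · -- orbits
    rintro b ⟨i, j, hij, rfl⟩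
    obtain ⟨τ, h1, h2⟩ := QRS.exists_perm hLne hij
    obtain ⟨w, hw⟩ := QRS.exists_tr_word τ
    refine ⟨w.map fun j : Fin n => j.val, ?_, Or.inl ?_⟩
    · intro j hj
      rw [List.mem_map] at hj
      obtain ⟨k, -, rfl⟩ := hj
      exact k.2
    · have h3 : (((w.map fun j : Fin n => j.val).map g).prod) (c • (v L.castSucc - v L.succ)) =
          c • (v i - v j) := by
        rw [map_smul, map_sub, prodv, prodv, hw, h1, h2]
      exact h3.symm
  · -- f1
    intro x hx h1 h2
    apply zero_of x hx
    have h3 := eqc 2 x h1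
    have h4 : ∀ i : Fin (n + 1),
        (⟪x, v (Equiv.swap (⟨1, by omega⟩ : Fin n).castSucc (⟨1, by omega⟩ : Fin n).succ i)⟫ : ℝ) =
          -⟪x, v i⟫ := by
      intro i
      have h5 := coord 1 (by omega) x i
      rw [h2, inner_neg_left] at h5
      linarith
    have hlast : (⟪x, v (Fin.last n)⟫ : ℝ) = 0 := by
      have h5 := h4 (Fin.last n)
      rw [Equiv.swap_apply_of_ne_of_ne] at h5
      · linarith
      · intro h
        have := congrArg Fin.val h
        simp at this
        omega
      · intro h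
        have := congrArg Fin.val h
        simp at this
        omega
    intro i
    obtain ⟨i, hi⟩ := i
    rcases Nat.lt_or_ge i 2 with h5 | h5
    · have h6 : i = 0 ∨ i = 1 := by omega
      rcases h6 with rfl | rfl
      · have h7 := h4 ⟨0, hi⟩
        rw [Equiv.swap_apply_of_ne_of_ne] at h7
        · linarith
        · intro h
          have := congrArg Fin.val h
          simp at this
        · intro h
          have := congrArg Fin.val h
          simp at this
      · have h7 := h4 (⟨1, by omega⟩ : Fin n).castSucc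
        rw [Equiv.swap_apply_left] at h7
        have h8 := h3 2 (by omega) le_rfl
        have h9 : (⟪x, v (⟨1, by omega⟩ : Fin n).succ⟫ : ℝ) = ⟪x, v ⟨2, by omega⟩⟫ := rfl
        have h10 : (⟪x, v (⟨1, by omega⟩ : Fin n).castSucc⟫ : ℝ) = ⟪x, v ⟨1, hi⟩⟫ := rfl
        rw [h9, h8, hlast, h10] at h7
        linarith
    · rw [h3 i hi h5, hlast]
  · -- f2
    intro x hx h1 h2
    apply zero_of x hx
    have h3 := eqc 1 x h1
    have h0 : ∀ i : Fin (n + 1), i ≠ 0 → (⟪x, v i⟫ : ℝ) = ⟪x, v (Fin.last n)⟫ := by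
      intro i hi
      obtain ⟨i, hi'⟩ := i
      apply h3 i hi'
      rcases Nat.eq_zero_or_pos i with h | h
      · exact absurd (Fin.ext h) hi
      · exact h
    rcases h2 with h2 | h2
    · have h4 := cst 0 (by omega) x h2
      have h5 : (⟪x, v 0⟫ : ℝ) = ⟪x, v (Fin.last n)⟫ := by
        have h6 : (⟪x, v (⟨0, by omega⟩ : Fin n).castSucc⟫ : ℝ) = ⟪x, v 0⟫ := rfl
        rw [← h6, h4]
        exact h0 _ (Fin.succ_ne_zero _)
      have h6 : ∀ i, (⟪x, v i⟫ : ℝ) = ⟪x, v (Fin.last n)⟫ := by
        intro i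
        by_cases hi : i = 0
        · rw [hi, h5]
        · exact h0 i hi
      have h7 : (⟪x, ∑ i, v i⟫ : ℝ) = 0 := by rw [sum_zero hg (by omega), inner_zero_right]
      rw [inner_sum, Finset.sum_congr rfl fun i _ => h6 i, Finset.sum_const, Finset.card_univ,
        Fintype.card_fin, nsmul_eq_mul] at h7
      have h8 : ((n + 1 : ℕ) : ℝ) ≠ 0 := by positivity
      intro i
      rw [h6 i]
      exact (mul_eq_zero.1 h7).resolve_left h8
    · have h4 : ∀ i : Fin (n + 1),
          (⟪x, v (Equiv.swap (⟨0, by omega⟩ : Fin n).castSucc (⟨0, by omega⟩ : Fin n).succ i)⟫ : ℝ) =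
            -⟪x, v i⟫ := by
        intro i
        have h5 := coord 0 (by omega) x i
        rw [h2, inner_neg_left] at h5
        linarith
      have hlast : (⟪x, v (Fin.last n)⟫ : ℝ) = 0 := by
        have h5 := h4 (Fin.last n)
        rw [Equiv.swap_apply_of_ne_of_ne] at h5
        · linarith
        · intro h
          have := congrArg Fin.val h
          simp at this
          omega
        · intro h
          have := congrArg Fin.val h
          simp at this
          omega
      intro i
      by_cases hi : i = 0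
      · have h5 := h4 (⟨0, by omega⟩ : Fin n).castSucc
        rw [Equiv.swap_apply_left, h0 _ (Fin.succ_ne_zero _), hlast] at h5
        have h6 : (⟪x, v (⟨0, by omega⟩ : Fin n).castSucc⟫ : ℝ) = ⟪x, v 0⟫ := rfl
        rw [h6] at h5
        rw [hi]
        linarith
      · rw [h0 i hi, hlast]
  · rw [hy0]
    exact hv 0
  · -- independent
    have e1 : g 0 y0 = v (⟨0, by omega⟩ : Fin n).succ := by
      rw [hy0]
      have h1 := hgv' 0 (by omega) 0
      rw [h1]
      exact congrArg v (Equiv.swap_apply_left _ _)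
    have hne01 : (0 : Fin (n + 1)) ≠ (⟨0, by omega⟩ : Fin n).succ := (Fin.succ_ne_zero _).symm
    have hne0l : (0 : Fin (n + 1)) ≠ Fin.last n := by
      intro h
      have := congrArg Fin.val h
      simp at this
      omega
    have hne1l : (⟨0, by omega⟩ : Fin n).succ ≠ Fin.last n := by
      intro h
      have := congrArg Fin.val h
      simp at this
      omega
    rw [e1, hy0]
    apply EA.li_dual (y := ![v 0 - v (Fin.last n), v (⟨0, by omega⟩ : Fin n).succ - v (Fin.last n)])
    · intro i j hij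
      fin_cases i <;> fin_cases j
      · exact absurd rfl hij
      · change (⟪v 0, v (⟨0, by omega⟩ : Fin n).succ - v (Fin.last n)⟫ : ℝ) = 0
        rw [EA.in2 hg, if_neg hne01, if_neg hne0l]
        ring
      · change (⟪v (⟨0, by omega⟩ : Fin n).succ, v 0 - v (Fin.last n)⟫ : ℝ) = 0
        rw [EA.in2 hg, if_neg hne01.symm, if_neg hne1l]
        ring
      · exact absurd rfl hij
    · intro i
      fin_cases i
      · change (⟪v 0, v 0 - v (Fin.last n)⟫ : ℝ) ≠ 0
        rw [EA.in2 hg, if_pos rfl, if_neg hne0l, ← hC]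
        nlinarith
      · change (⟪v (⟨0, by omega⟩ : Fin n).succ, v (⟨0, by omega⟩ : Fin n).succ -
          v (Fin.last n)⟫ : ℝ) ≠ 0
        rw [EA.in2 hg, if_pos rfl, if_neg hne1l, ← hC]
        nlinarith

end FOI
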