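import Pool.Agent.FOI.DStmts

/-!
# Block IV: the facts on the cross-polytope that are used for the count
-/

namespace FOI

open Lib_helper64.FO FO2 FOK
open scoped RealInnerProductSpace Nat

noncomputable section

namespace MOX

section basic

variable {D n : ℕ} {I : Submodule ℝ (E D)} {u : Fin n → E D}

theorem span_u (hI : Module.finrank ℝ I = n) (hu : ∀ i, u i ∈ I) (ho : Orthonormal ℝ u) :
    Submodule.span ℝ (Set.range u) = I := by
  refine Submodule.eq_of_le_of_finrank_le (Submodule.span_le.2 ?_) ?_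
  · rintro _ ⟨i, rfl⟩
    exact hu i
  · rw [hI, finrank_span_eq_card ho.linearIndependent, Fintype.card_fin]

theorem ind_I (hs : Submodule.span ℝ (Set.range u) = I) {p : E D → Prop} (h0 : p 0)
    (h1 : ∀ i, p (u i)) (h2 : ∀ v w, p v → p w → p (v + w)) (h3 : ∀ (c : ℝ) v, p v → p (c • v)) :
    ∀ v ∈ I, p v := by
  intro v hv
  rw [← hs] at hv
  induction hv using Submodule.span_induction with
  | mem v hv =>
    obtain ⟨i, rfl⟩ := hv
    exact h1 i
  | zero => exact h0
  | add v w _ _ hv hw => exact h2 v w hv hw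
  | smul c v _ hv => exact h3 c v hv

theorem eq_zero (hs : Submodule.span ℝ (Set.range u) = I) {v : E D} (hv : v ∈ I)
    (h : ∀ i, ⟪u i, v⟫ = (0 : ℝ)) : v = 0 := by
  have h1 : ∀ w ∈ I, ⟪w, v⟫ = (0 : ℝ) :=
    ind_I hs (inner_zero_left _) h (fun a b ha hb => by rw [inner_add_left, ha, hb, add_zero])
      fun c a ha => by rw [inner_smul_left, ha, mul_zero]
  exact inner_self_eq_zero.1 (h1 v hv)

/-- the reflection in a multiple of a vector of length `√2` -/
theorem sref_a (a v : E D) : sref ((1 / √2 : ℝ) • a) v = v - (⟪a, v⟫ : ℝ) • a := by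
  have h2 : (1 / √2 : ℝ) * (1 / √2) = 1 / 2 := by
    rw [div_mul_div_comm, one_mul, Real.mul_self_sqrt (by norm_num)]
  have h3 : (2 * ⟪(1 / √2 : ℝ) • a, v⟫ : ℝ) • ((1 / √2 : ℝ) • a) = (⟪a, v⟫ : ℝ) • a := by
    rw [real_inner_smul_left, smul_smul]
    congr 1
    calc 2 * ((1 / √2 : ℝ) * ⟪a, v⟫) * (1 / √2) = 2 * ((1 / √2 : ℝ) * (1 / √2)) * ⟪a, v⟫ := by ring
      _ = ⟪a, v⟫ := by rw [h2]; ring
  rw [sref, h3]

end basic

/-- the set of the vectors `± u i` -/
def SS {D n : ℕ} (u : Fin n → E D) : Set (E D) := {v | ∃ i, v = u i ∨ v = -u i}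

/-- the set of the vectors `(± u i ± u j) / √2` -/
def PS {D n : ℕ} (u : Fin n → E D) : Set (E D) :=
  {b | ∃ i j, i ≠ j ∧ ∃ s t : ℝ, (s = 1 ∨ s = -1) ∧ (t = 1 ∨ t = -1) ∧
    b = (1 / √2 : ℝ) • (s • u i + t • u j)}

section sets

variable {D n : ℕ} {I : Submodule ℝ (E D)} {u : Fin n → E D}

theorem SS_fin (u : Fin n → E D) : (SS u).Finite := by
  have h : SS u ⊆ Set.range u ∪ Set.range (fun i => -u i) := by
    rintro v ⟨i, rfl | rfl⟩
    · exact Or.inl ⟨i, rfl⟩
    · exact Or.inr ⟨i, rfl⟩
  exact ((Set.finite_range u).union (Set.finite_range _)).subset h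

theorem SS_span (hs : Submodule.span ℝ (Set.range u) = I) : Submodule.span ℝ (SS u) = I := by
  apply le_antisymm
  · rw [Submodule.span_le]
    rintro v ⟨i, h⟩
    have hi : u i ∈ I := by
      rw [← hs]
      exact Submodule.subset_span ⟨i, rfl⟩
    rcases h with rfl | rfl
    · exact hi
    · exact neg_mem hi
  · rw [← hs, Submodule.span_le]
    rintro _ ⟨i, rfl⟩
    exact Submodule.subset_span ⟨i, Or.inl rfl⟩

theorem exists_ne2 (hn : 3 ≤ n) (i j : Fin n) : ∃ m, m ≠ i ∧ m ≠ j := by
  have h : ∃ m : Fin n, m ∉ ({i, j} : Finset (Fin n)) := by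
    by_contra hcon
    push Not at hcon
    have h1 : (Finset.univ : Finset (Fin n)) ⊆ {i, j} := fun m _ => hcon m
    have h2 := Finset.card_le_card h1
    rw [Finset.card_univ, Fintype.card_fin] at h2
    have h3 := Finset.card_le_two (a := i) (b := j)
    omega
  obtain ⟨m, hm⟩ := h
  refine ⟨m, fun h => hm ?_, fun h => hm ?_⟩
  · rw [h]
    exact Finset.mem_insert_self _ _
  · rw [h]
    exact Finset.mem_insert_of_mem (Finset.mem_singleton_self _)

theorem sqrt2_ne : (1 / √2 : ℝ) ≠ 0 := by positivity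

theorem PS_irr (hn : 3 ≤ n) (ho : Orthonormal ℝ u) : IrrRS (PS u) := by
  intro L hL
  have hin : ∀ i j, ⟪u i, u j⟫ = if i = j then (1 : ℝ) else 0 := orthonormal_iff_ite.1 ho
  have hmem : ∀ i j, i ≠ j → ∀ s t : ℝ, (s = 1 ∨ s = -1) → (t = 1 ∨ t = -1) →
      s • u i + t • u j ∈ L ∨ s • u i + t • u j ∈ Lᗮ := by
    intro i j hij s t hs ht
    rcases hL _ ⟨i, j, hij, s, t, hs, ht, rfl⟩ with h | h
    · exact Or.inl ((Submodule.smul_mem_iff L sqrt2_ne).1 h)
    · exact Or.inr ((Submodule.smul_mem_iff Lᗮ sqrt2_ne).1 h)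
  have horth : ∀ v ∈ L, ∀ w ∈ Lᗮ, ⟪v, w⟫ = (0 : ℝ) := fun v hv w hw =>
    (Submodule.mem_orthogonal _ _).1 hw v hv
  have hpair : ∀ i j, i ≠ j → (u i ∈ L ∧ u j ∈ L) ∨ (u i ∈ Lᗮ ∧ u j ∈ Lᗮ) := by
    intro i j hij
    have e1 : u i = (1 / 2 : ℝ) • (((1 : ℝ) • u i + (1 : ℝ) • u j) +
        ((1 : ℝ) • u i + (-1 : ℝ) • u j)) := by
      module
    have e2 : u j = (1 / 2 : ℝ) • (((1 : ℝ) • u i + (1 : ℝ) • u j) -
        ((1 : ℝ) • u i + (-1 : ℝ) • u j)) := by
      module
    obtain ⟨m, hmi, hmj⟩ := exists_ne2 hn i j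
    have hr := hmem i m hmi.symm 1 1 (Or.inl rfl) (Or.inl rfl)
    have hp := hmem i j hij 1 1 (Or.inl rfl) (Or.inl rfl)
    have hq := hmem i j hij 1 (-1) (Or.inl rfl) (Or.inr rfl)
    have i1 : ⟪(1 : ℝ) • u i + (1 : ℝ) • u m, (1 : ℝ) • u i + (1 : ℝ) • u j⟫ = (1 : ℝ) := by
      simp only [inner_add_left, inner_add_right, one_smul, hin, if_true,
        if_neg hij, if_neg hmi, if_neg hmj]
      norm_num
    have i2 : ⟪(1 : ℝ) • u i + (1 : ℝ) • u m, (1 : ℝ) • u i + (-1 : ℝ) • u j⟫ = (1 : ℝ) := by
      simp only [inner_add_left, inner_add_right, one_smul, neg_smul, inner_neg_right, hin, if_true,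
        if_neg hij, if_neg hmi, if_neg hmj]
      norm_num
    rcases hp with hp | hp <;> rcases hq with hq | hq
    · left
      refine ⟨?_, ?_⟩
      · rw [e1]
        exact Submodule.smul_mem _ _ (add_mem hp hq)
      · rw [e2]
        exact Submodule.smul_mem _ _ (sub_mem hp hq)
    · exfalso
      rcases hr with hr | hr
      · rw [horth _ hr _ hq] at i2
        exact zero_ne_one i2
      · rw [real_inner_comm, horth _ hp _ hr] at i1
        exact zero_ne_one i1
    · exfalso
      rcases hr with hr | hr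
      · rw [horth _ hr _ hp] at i1
        exact zero_ne_one i1
      · rw [real_inner_comm, horth _ hq _ hr] at i2
        exact zero_ne_one i2
    · right
      refine ⟨?_, ?_⟩
      · rw [e1]
        exact Submodule.smul_mem _ _ (add_mem hp hq)
      · rw [e2]
        exact Submodule.smul_mem _ _ (sub_mem hp hq)
  let z : Fin n := ⟨0, by omega⟩
  have hfin : ∀ M : Submodule ℝ (E D), (∀ i, u i ∈ M) → ∀ a ∈ PS u, a ∈ M := by
    rintro M hM a ⟨i, j, -, s, t, -, -, rfl⟩
    exact Submodule.smul_mem _ _ (add_mem (Submodule.smul_mem _ _ (hM i))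
      (Submodule.smul_mem _ _ (hM j)))
  by_cases hz : u z ∈ L
  · left
    refine hfin L fun i => ?_
    by_cases hi : i = z
    · rw [hi]
      exact hz
    · rcases hpair i z hi with h | h
      · exact h.1
      · exfalso
        have h1 := horth _ hz _ h.2
        rw [hin, if_pos rfl] at h1
        exact one_ne_zero h1
  · right
    refine hfin Lᗮ fun i => ?_
    by_cases hi : i = z
    · obtain ⟨m, hm, -⟩ := exists_ne2 hn z z
      rcases hpair m z hm with h | h
      · exact absurd h.2 hz
      · rw [hi]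
        exact h.2
    · rcases hpair i z hi with h | h
      · exact absurd h.2 hz
      · exact h.1

theorem PS_span (hn : 3 ≤ n) (hs : Submodule.span ℝ (Set.range u) = I) :
    Submodule.span ℝ (PS u) = I := by
  have hu : ∀ i, u i ∈ I := fun i => by
    rw [← hs]
    exact Submodule.subset_span ⟨i, rfl⟩
  apply le_antisymm
  · rw [Submodule.span_le]
    rintro a ⟨i, j, -, s, t, -, -, rfl⟩
    exact Submodule.smul_mem _ _ (add_mem (Submodule.smul_mem _ _ (hu i))
      (Submodule.smul_mem _ _ (hu j)))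
  · rw [← hs, Submodule.span_le]
    rintro _ ⟨i, rfl⟩
    obtain ⟨j, hj, -⟩ := exists_ne2 hn i i
    have h1 : (1 / √2 : ℝ) • ((1 : ℝ) • u i + (1 : ℝ) • u j) ∈ Submodule.span ℝ (PS u) :=
      Submodule.subset_span ⟨i, j, hj.symm, 1, 1, Or.inl rfl, Or.inl rfl, rfl⟩
    have h2 : (1 / √2 : ℝ) • ((1 : ℝ) • u i + (-1 : ℝ) • u j) ∈ Submodule.span ℝ (PS u) :=
      Submodule.subset_span ⟨i, j, hj.symm, 1, -1, Or.inl rfl, Or.inr rfl, rfl⟩
    have h3 := (Submodule.smul_mem_iff _ sqrt2_ne).1 h1
    have h4 := (Submodule.smul_mem_iff _ sqrt2_ne).1 h2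
    have e1 : u i = (1 / 2 : ℝ) • (((1 : ℝ) • u i + (1 : ℝ) • u j) +
        ((1 : ℝ) • u i + (-1 : ℝ) • u j)) := by
      module
    rw [SetLike.mem_coe, e1]
    exact Submodule.smul_mem _ _ (add_mem h3 h4)

/-- the norm of a root -/
theorem norm_root (ho : Orthonormal ℝ u) {i j : Fin n} (hij : i ≠ j) :
    ‖(1 / √2 : ℝ) • (u i - u j)‖ = 1 := by
  have hin : ∀ i j, ⟪u i, u j⟫ = if i = j then (1 : ℝ) else 0 := orthonormal_iff_ite.1 ho
  have h1 : ‖u i - u j‖ ^ 2 = 2 := by
    rw [← real_inner_self_eq_norm_sq]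
    simp only [inner_sub_left, inner_sub_right, hin, if_true, if_neg hij, if_neg hij.symm]
    norm_num
  have h2 : ‖u i - u j‖ = √2 := by
    rw [← h1, Real.sqrt_sq (norm_nonneg _)]
  rw [norm_smul, h2, Real.norm_of_nonneg (by positivity)]
  field_simp

end sets

/-! ### words -/

section words

variable {D n : ℕ} {u : Fin n → E D} {g : ℕ → (E D ≃ₗᵢ[ℝ] E D)}

/-- two different indices can be moved to two different indices -/
theorem exists_perm {α : Type} [DecidableEq α] {a b i i' : α} (hab : a ≠ b) (h : i ≠ i') :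
    ∃ σ : Equiv.Perm α, σ a = i ∧ σ b = i' := by
  have hne : Equiv.swap a i b ≠ i := by
    intro e
    apply hab
    have := congrArg (Equiv.swap a i) e
    rw [Equiv.swap_apply_self, Equiv.swap_apply_right] at this
    exact this.symm
  refine ⟨Equiv.swap (Equiv.swap a i b) i' * Equiv.swap a i, ?_, ?_⟩
  · rw [Equiv.Perm.mul_apply, Equiv.swap_apply_left,
      Equiv.swap_apply_of_ne_of_ne hne.symm h]
  · rw [Equiv.Perm.mul_apply, Equiv.swap_apply_left]

/-- the orbit of `a`, up to sign -/
def OrbX (n : ℕ) (g : ℕ → (E D ≃ₗᵢ[ℝ] E D)) (a b : E D) : Prop :=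
  ∃ w : List ℕ, (∀ j ∈ w, j < n) ∧ (b = (w.map g).prod a ∨ b = -(w.map g).prod a)

theorem OrbX.neg {a b : E D} (h : OrbX n g a b) : OrbX n g a (-b) := by
  obtain ⟨w, h1, h2 | h2⟩ := h
  · exact ⟨w, h1, Or.inr (by rw [h2])⟩
  · exact ⟨w, h1, Or.inl (by rw [h2, neg_neg])⟩

theorem OrbX.smul {a b : E D} (h : OrbX n g a b) {s : ℝ} (hs : s = 1 ∨ s = -1) :
    OrbX n g a (s • b) := by
  rcases hs with rfl | rfl
  · rwa [one_smul]
  · rw [neg_smul, one_smul]
    exact h.neg

theorem OrbX.step {a b : E D} (h : OrbX n g a b) {j : ℕ} (hj : j < n) : OrbX n g a (g j b) := by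
  obtain ⟨w, h1, h2⟩ := h
  refine ⟨j :: w, ?_, ?_⟩
  · intro x hx
    rcases List.mem_cons.1 hx with rfl | hx
    · exact hj
    · exact h1 x hx
  · rw [List.map_cons, List.prod_cons]
    rcases h2 with h2 | h2
    · left
      rw [h2]
      rfl
    · right
      rw [h2, map_neg]
      rfl

/-- the root `(u i + s u i') / √2` is in the orbit -/
def PX (n : ℕ) (g : ℕ → (E D ≃ₗᵢ[ℝ] E D)) (u : Fin n → E D) (a : E D) (i i' : Fin n)
    (s : ℝ) : Prop := OrbX n g a ((1 / √2 : ℝ) • (u i + s • u i'))

theorem PX_step {a : E D} {i i' k k' : Fin n} {s x x' : ℝ} {j : ℕ} (hj : j < n)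
    (h : PX n g u a i i' s) (h1 : g j (u i) = x • u k) (h2 : g j (u i') = x' • u k')
    (hx : x = 1 ∨ x = -1) : PX n g u a k k' (s * x * x') := by
  have h3 := (OrbX.step h hj).smul hx
  have e : x • g j ((1 / √2 : ℝ) • (u i + s • u i')) =
      (1 / √2 : ℝ) • (u k + (s * x * x') • u k') := by
    rw [map_smul, map_add, map_smul, h1, h2]
    have hxx : x * x = 1 := by rcases hx with h | h <;> rw [h] <;> norm_num
    calc x • (1 / √2 : ℝ) • (x • u k + s • x' • u k')
        = (1 / √2 : ℝ) • ((x * x) • u k + (s * x * x') • u k') := by module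
      _ = _ := by rw [hxx, one_smul]
  rw [e] at h3
  exact h3

end words

end MOX

open MOX in
theorem t_MOX : S_MOX := by
  intro D n l ε I y0 g hI hn hl hln hε hmod
  obtain ⟨u, hu, ho, hy0, hg⟩ := hmod
  have hs := span_u hI hu ho
  have hin : ∀ i j, ⟪u i, u j⟫ = if i = j then (1 : ℝ) else 0 := orthonormal_iff_ite.1 ho
  obtain ⟨m, rfl⟩ : ∃ m, n = m + 1 := ⟨n - 1, by omega⟩
  have hεε : ε * ε = 1 := by rcases hε with h | h <;> rw [h] <;> norm_num
  have hy : y0 = u 0 := by
    rw [hy0 (by omega)]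
    rfl
  -- the generators
  have gsw : ∀ (j : ℕ) (hj : j + 1 < m + 1) (i : Fin (m + 1)), ¬ (j = 1 ∧ 3 ≤ i.val) →
      g j (u i) = u (Equiv.swap ⟨j, by omega⟩ ⟨j + 1, hj⟩ i) := by
    intro j hj i hi
    have h1 := hg ⟨j, by omega⟩ i
    rw [dif_pos hj, if_neg hi] at h1
    exact h1
  have gep : ∀ i : Fin (m + 1), 3 ≤ i.val → g 1 (u i) = ε • u i := by
    intro i hi
    have h1 := hg ⟨1, by omega⟩ i
    rw [dif_pos (by change 1 + 1 < m + 1; omega), if_pos ⟨rfl, hi⟩] at h1
    exact h1
  have gla : g m (u (Fin.last m)) = -u (Fin.last m) := by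
    have h1 := hg (Fin.last m) (Fin.last m)
    rw [dif_neg (by simp), if_pos rfl] at h1
    exact h1
  have gli : ∀ i : Fin (m + 1), i ≠ Fin.last m → g m (u i) = u i := by
    intro i hi
    have h1 := hg (Fin.last m) i
    rw [dif_neg (by simp), if_neg hi] at h1
    exact h1
  have gall : ∀ (j : ℕ) (hj : j + 1 < m + 1) (i : Fin (m + 1)), ∃ x : ℝ, (x = 1 ∨ x = -1) ∧
      g j (u i) = x • u (Equiv.swap ⟨j, by omega⟩ ⟨j + 1, hj⟩ i) := by
    intro j hj i
    by_cases h : j = 1 ∧ 3 ≤ i.val
    · refine ⟨ε, hε, ?_⟩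
      obtain ⟨rfl, h⟩ := h
      rw [gep i h, Equiv.swap_apply_of_ne_of_ne]
      · intro e
        have h4 : i.val = 1 := congrArg Fin.val e
        omega
      · intro e
        have h4 : i.val = 1 + 1 := congrArg Fin.val e
        omega
    · exact ⟨1, Or.inl rfl, by rw [gsw j hj i h, one_smul]⟩
  let p : Fin (m + 1) := ⟨l, by omega⟩
  let q : Fin (m + 1) := ⟨l + 1, by omega⟩
  have hpq : p ≠ q := by
    intro e
    have : l = l + 1 := congrArg Fin.val e
    omega
  let a : E D := (1 / √2 : ℝ) • (u p - u q)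
  -- the orbit
  have hQ : ∀ i i' : Fin (m + 1), i ≠ i' → ∀ s : ℝ, s = 1 ∨ s = -1 →
      PX (m + 1) g u a i i' s := by
    have h0 : ∀ c, (hc : l + 1 + c < m + 1) → PX (m + 1) g u a p ⟨l + 1 + c, hc⟩ (-1) := by
      intro c
      induction c with
      | zero =>
        intro hc
        refine ⟨[], by simp, Or.inl ?_⟩
        simp only [List.map_nil, List.prod_nil]
        change _ = (1 / √2 : ℝ) • (u p - u q)
        rw [neg_smul, one_smul, ← sub_eq_add_neg]
      | succ c ih =>
        intro hc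
        have h1 := ih (by omega)
        have e1 : g (l + 1 + c) (u p) = (1 : ℝ) • u p := by
          rw [gsw (l + 1 + c) (by omega) p (by omega), Equiv.swap_apply_of_ne_of_ne, one_smul]
          · intro e
            have : l = l + 1 + c := congrArg Fin.val e
            omega
          · intro e
            have : l = l + 1 + c + 1 := congrArg Fin.val e
            omega
        have e2 : g (l + 1 + c) (u ⟨l + 1 + c, by omega⟩) =
            (1 : ℝ) • u ⟨l + 1 + (c + 1), hc⟩ := by
          rw [gsw (l + 1 + c) (by omega) _ (by omega), Equiv.swap_apply_left, one_smul]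
          rfl
        have h2 := PX_step (by omega) h1 e1 e2 (Or.inl rfl)
        rwa [mul_one, mul_one] at h2
    have hla : p ≠ Fin.last m := by
      intro e
      have : l = m := congrArg Fin.val e
      omega
    have h1 : PX (m + 1) g u a p (Fin.last m) (-1) := by
      have h2 := h0 (m - (l + 1)) (by omega)
      have e : (⟨l + 1 + (m - (l + 1)), by omega⟩ : Fin (m + 1)) = Fin.last m := by
        apply Fin.ext
        change l + 1 + (m - (l + 1)) = m
        omega
      rwa [e] at h2
    have h2 : PX (m + 1) g u a p (Fin.last m) 1 := by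
      have h3 := PX_step (x := 1) (x' := -1) (k := p) (k' := Fin.last m) (by omega : m < m + 1)
        h1 (by rw [gli p hla, one_smul]) (by rw [gla, neg_smul, one_smul]) (Or.inl rfl)
      have e : (-1 : ℝ) * 1 * -1 = 1 := by norm_num
      rwa [e] at h3
    have hboth : ∀ s : ℝ, s = 1 ∨ s = -1 → PX (m + 1) g u a p (Fin.last m) s := by
      rintro s (rfl | rfl)
      · exact h2
      · exact h1
    -- all permutations
    have hperm : ∀ σ : Equiv.Perm (Fin (m + 1)), ∀ i i' : Fin (m + 1),
        (∀ s : ℝ, s = 1 ∨ s = -1 → PX (m + 1) g u a i i' s) →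
        ∀ s : ℝ, s = 1 ∨ s = -1 → PX (m + 1) g u a (σ i) (σ i') s := by
      intro σ
      have hσ : σ ∈ Submonoid.closure
          (Set.range fun i : Fin m => Equiv.swap i.castSucc i.succ) := by
        rw [Equiv.Perm.mclosure_swap_castSucc_succ]
        trivial
      induction hσ using Submonoid.closure_induction with
      | mem σ hσ =>
        obtain ⟨j, rfl⟩ := hσ
        intro i i' h s hs'
        obtain ⟨x, hx, e1⟩ := gall j.val (by omega) i
        obtain ⟨x', hx', e2⟩ := gall j.val (by omega) i'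
        have hc : s * x * x' = 1 ∨ s * x * x' = -1 := by
          rcases hs' with h | h <;> rcases hx with h' | h' <;> rcases hx' with h'' | h'' <;>
            rw [h, h', h''] <;> norm_num
        have h3 := PX_step (by omega) (h _ hc) e1 e2 hx
        have hxx : x * x = 1 := by rcases hx with h | h <;> rw [h] <;> norm_num
        have hxx' : x' * x' = 1 := by rcases hx' with h | h <;> rw [h] <;> norm_num
        have e3 : s * x * x' * x * x' = s := by
          calc s * x * x' * x * x' = s * (x * x) * (x' * x') := by ring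
            _ = s := by rw [hxx, hxx', mul_one, mul_one]
        rw [e3] at h3
        exact h3
      | one => exact fun i i' h => h
      | mul σ τ _ _ ih1 ih2 =>
        intro i i' h
        exact ih1 _ _ (ih2 _ _ h)
    intro i i' hii
    obtain ⟨σ, e1, e2⟩ := exists_perm hla hii
    have := hperm σ _ _ hboth
    rwa [e1, e2] at this
  have hinn : ∀ (j : ℕ) (i k : Fin (m + 1)) (v : E D), g j (u i) = u k →
      ⟪u k, g j v⟫ = (⟪u i, v⟫ : ℝ) := by
    intro j i k v h
    rw [← h, LinearIsometryEquiv.inner_map_map]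
  -- coordinates with index at least two
  have htail : ∀ v : E D, (∀ j, 2 ≤ j → j < m + 1 → g j v = v) →
      ∀ (c : ℕ) (hc : c ≤ m), 2 ≤ m - c → ⟪u ⟨m - c, by omega⟩, v⟫ = (0 : ℝ) := by
    intro v hv c
    induction c with
    | zero =>
      intro hc h2
      have h1 : ⟪g m (u (Fin.last m)), g m v⟫ = (⟪u (Fin.last m), v⟫ : ℝ) :=
        LinearIsometryEquiv.inner_map_map _ _ _
      rw [gla, hv m (by omega) (by omega), inner_neg_left] at h1
      change ⟪u (Fin.last m), v⟫ = (0 : ℝ)
      linarith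
    | succ c ih =>
      intro hc h2
      have h1 := ih (by omega) (by omega)
      have e1 : g (m - (c + 1)) (u ⟨m - (c + 1), by omega⟩) = u ⟨m - c, by omega⟩ := by
        rw [gsw (m - (c + 1)) (by omega) _ (by omega), Equiv.swap_apply_left]
        congr 1
        apply Fin.ext
        change m - (c + 1) + 1 = m - c
        omega
      have h3 := hinn _ _ _ v e1
      rw [hv _ h2 (by omega), h1] at h3
      exact h3.symm
  have htail' : ∀ v : E D, (∀ j, 2 ≤ j → j < m + 1 → g j v = v) →
      ∀ i : Fin (m + 1), 2 ≤ i.val → ⟪u i, v⟫ = (0 : ℝ) := by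
    intro v hv i hi
    have h1 := htail v hv (m - i.val) (by omega) (by omega)
    have e : (⟨m - (m - i.val), by omega⟩ : Fin (m + 1)) = i := by
      apply Fin.ext
      change m - (m - i.val) = i.val
      omega
    rwa [e] at h1
  let z0 : Fin (m + 1) := ⟨0, by omega⟩
  let z1 : Fin (m + 1) := ⟨1, by omega⟩
  let z2 : Fin (m + 1) := ⟨2, by omega⟩
  have g10 : g 1 (u z0) = u z0 := by
    rw [gsw 1 (by omega) z0 (by simp [z0]), Equiv.swap_apply_of_ne_of_ne]
    · intro e
      have : (0 : ℕ) = 1 := congrArg Fin.val e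
      omega
    · intro e
      have : (0 : ℕ) = 2 := congrArg Fin.val e
      omega
  have g11 : g 1 (u z1) = u z2 := by
    rw [gsw 1 (by omega) z1 (by simp [z1])]
    exact congrArg u (Equiv.swap_apply_left _ _)
  have g00 : g 0 (u z0) = u z1 := by
    rw [gsw 0 (by omega) z0 (by simp)]
    exact congrArg u (Equiv.swap_apply_left _ _)
  have hzero : ∀ v ∈ I, (∀ i : Fin (m + 1), 2 ≤ i.val → ⟪u i, v⟫ = (0 : ℝ)) →
      ⟪u z0, v⟫ = (0 : ℝ) → ⟪u z1, v⟫ = (0 : ℝ) → v = 0 := by
    intro v hv h2 h0 h1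
    refine eq_zero hs hv fun i => ?_
    rcases Nat.lt_or_ge i.val 2 with hi | hi
    · have : i.val = 0 ∨ i.val = 1 := by omega
      rcases this with h | h
      · have e : i = z0 := Fin.ext h
        rw [e]
        exact h0
      · have e : i = z1 := Fin.ext h
        rw [e]
        exact h1
    · exact h2 i hi
  have hy' : y0 = u z0 := hy
  refine ⟨by rw [hy]; exact ho.1 _, SS u, PS u, a, ?_, ?_⟩
  swap
  · rintro v ⟨i, hv⟩
    have h1 : sref y0 (u i) = u i ∨ sref y0 (u i) = -u i := by
      rw [hy', sref, hin]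
      by_cases hi : z0 = i
      · right
        rw [if_pos hi, hi]
        module
      · left
        rw [if_neg hi]
        module
    rcases hv with rfl | rfl
    · rcases h1 with h | h
      · exact ⟨i, Or.inl h⟩
      · exact ⟨i, Or.inr h⟩
    · have h2 : sref y0 (-u i) = -sref y0 (u i) := by
        rw [sref, sref, inner_neg_right]
        module
      rw [h2]
      rcases h1 with h | h
      · exact ⟨i, Or.inr (by rw [h])⟩
      · exact ⟨i, Or.inl (by rw [h, neg_neg])⟩
  refine
    { fin := SS_fin u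
      span := SS_span hs
      neg := ?_
      gS := ?_
      sq := ?_
      norm := norm_root ho hpq
      aI := Submodule.smul_mem _ _ (sub_mem (hu _) (hu _))
      refl := ?_
      irr := PS_irr (by omega) ho
      spΨ := PS_span (by omega) hs
      orb := ?_
      f1 := ?_
      f2 := ?_
      y0I := by rw [hy]; exact hu _
      ind := ?_ }
  · rintro v ⟨i, rfl | rfl⟩
    · exact ⟨i, Or.inr rfl⟩
    · exact ⟨i, Or.inl (neg_neg _)⟩
  · intro j hj v hv
    have key : ∀ i, g j (u i) ∈ SS u := by
      intro i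
      by_cases hj1 : j + 1 < m + 1
      · obtain ⟨x, hx, e⟩ := gall j hj1 i
        rw [e]
        rcases hx with rfl | rfl
        · exact ⟨_, Or.inl (one_smul _ _)⟩
        · exact ⟨_, Or.inr (by rw [neg_smul, one_smul])⟩
      · obtain rfl : j = m := by omega
        by_cases hi : i = Fin.last j
        · rw [hi, gla]
          exact ⟨_, Or.inr rfl⟩
        · rw [gli i hi]
          exact ⟨_, Or.inl rfl⟩
    obtain ⟨i, rfl | rfl⟩ := hv
    · exact key i
    · rw [map_neg]
      obtain ⟨i', h | h⟩ := key i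
      · exact ⟨i', Or.inr (by rw [h])⟩
      · exact ⟨i', Or.inl (by rw [h, neg_neg])⟩
  · intro j hj
    refine ind_I hs (by rw [map_zero, map_zero]) (fun i => ?_)
      (fun v w hv hw => by rw [map_add, map_add, hv, hw])
      fun c v hv => by rw [map_smul, map_smul, hv]
    by_cases hj1 : j + 1 < m + 1
    · by_cases h : j = 1 ∧ 3 ≤ i.val
      · obtain ⟨rfl, h⟩ := h
        rw [gep i h, map_smul, gep i h, smul_smul, hεε, one_smul]
      · rw [gsw j hj1 i h, gsw j hj1, Equiv.swap_apply_self]
        rintro ⟨rfl, h3⟩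
        apply h
        refine ⟨rfl, ?_⟩
        by_contra h4
        have hi : i.val = 0 ∨ i.val = 1 ∨ i.val = 2 := by omega
        rcases hi with hi | hi | hi
        · rw [Equiv.swap_apply_of_ne_of_ne] at h3
          · omega
          · intro e
            have : i.val = 1 := congrArg Fin.val e
            omega
          · intro e
            have : i.val = 1 + 1 := congrArg Fin.val e
            omega
        · have e : i = ⟨1, by omega⟩ := Fin.ext hi
          rw [e, Equiv.swap_apply_left] at h3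
          change 3 ≤ 1 + 1 at h3
          omega
        · have e : i = ⟨1 + 1, by omega⟩ := Fin.ext hi
          rw [e, Equiv.swap_apply_right] at h3
          change 3 ≤ 1 at h3
          omega
    · obtain rfl : j = m := by omega
      by_cases hi : i = Fin.last j
      · rw [hi, gla, map_neg, gla, neg_neg]
      · rw [gli i hi, gli i hi]
  · refine ind_I hs ?_ (fun i => ?_) (fun v w hv hw => ?_) fun c v hv => ?_
    · rw [map_zero, sref, inner_zero_right, mul_zero, zero_smul, sub_zero]
    · rw [gsw l (by omega) i (by omega), sref_a, inner_sub_left, hin, hin]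
      by_cases hi : i = p
      · subst hi
        rw [if_pos rfl, if_neg hpq.symm]
        have e : Equiv.swap (⟨l, by omega⟩ : Fin (m + 1)) ⟨l + 1, by omega⟩ p = q :=
          Equiv.swap_apply_left _ _
        rw [e]
        module
      · by_cases hi' : i = q
        · have e : Equiv.swap (⟨l, by omega⟩ : Fin (m + 1)) ⟨l + 1, by omega⟩ q = p :=
            Equiv.swap_apply_right _ _
          rw [hi', e, if_neg hpq, if_pos rfl]
          module
        · rw [Equiv.swap_apply_of_ne_of_ne hi hi', if_neg (Ne.symm hi), if_neg (Ne.symm hi')]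
          module
    · rw [map_add, hv, hw, sref_a, sref_a, sref_a, inner_add_right]
      module
    · rw [map_smul, hv, sref_a, sref_a, inner_smul_right]
      module
  · -- orb
    rintro b ⟨i, j, hij, s, t, hs', ht, rfl⟩
    have hst : s * t = 1 ∨ s * t = -1 := by
      rcases hs' with h | h <;> rcases ht with h' | h' <;> rw [h, h'] <;> norm_num
    have h1 := (hQ i j hij _ hst).smul hs'
    have hss : s * s = 1 := by rcases hs' with h | h <;> rw [h] <;> norm_num
    have e : s • (1 / √2 : ℝ) • (u i + (s * t) • u j) =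
        (1 / √2 : ℝ) • (s • u i + t • u j) := by
      calc s • (1 / √2 : ℝ) • (u i + (s * t) • u j)
          = (1 / √2 : ℝ) • (s • u i + ((s * s) * t) • u j) := by module
        _ = _ := by rw [hss, one_mul]
    rw [e] at h1
    exact h1
  · -- f1
    intro v hv h2 h1
    have x2 := htail' v h2
    apply hzero v hv x2
    · have h3 := hinn 1 _ _ v g10
      rw [h1, inner_neg_right] at h3
      linarith
    · have h3 := hinn 1 _ _ v g11
      rw [h1, inner_neg_right, x2 z2 le_rfl, neg_zero] at h3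
      exact h3.symm
  · -- f2
    intro v hv h1 h0
    have x2 := htail' v fun j hj => h1 j (by omega)
    have x1 : ⟪u z1, v⟫ = (0 : ℝ) := by
      have h3 := hinn 1 _ _ v g11
      rw [h1 1 le_rfl (by omega), x2 z2 le_rfl] at h3
      exact h3.symm
    apply hzero v hv x2 _ x1
    have h3 := hinn 0 _ _ v g00
    rcases h0 with h0 | h0
    · rw [h0, x1] at h3
      exact h3.symm
    · rw [h0, inner_neg_right, x1, neg_zero] at h3
      exact h3.symm
  · rw [LinearIndependent.pair_iff]
    intro s t hst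
    rw [hy', g00] at hst
    have hz : z0 ≠ z1 := by
      intro h
      have : (0 : ℕ) = 1 := congrArg Fin.val h
      omega
    have h1 : ⟪u z0, s • u z0 + t • u z1⟫ = (0 : ℝ) := by rw [hst, inner_zero_right]
    have h2 : ⟪u z1, s • u z0 + t • u z1⟫ = (0 : ℝ) := by rw [hst, inner_zero_right]
    rw [inner_add_right, inner_smul_right, inner_smul_right, hin, hin, if_pos rfl,
      if_neg hz] at h1
    rw [inner_add_right, inner_smul_right, inner_smul_right, hin, hin, if_pos rfl,
      if_neg hz.symm] at h2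
    constructor <;> linarith

end

end FOI
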