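import Pool.Agent.FOI.DStmts

/-!
# IV.1: a datum from a function on words
-/

namespace FOI

open Lib_helper64.FO FO2 FOK
open scoped RealInnerProductSpace

noncomputable section

namespace NER

variable {d : ℕ}

/-- the functions `v ↦ r (v ++ w)` -/
def Car (r : List (Fin d) → ℝ) : Type :=
  {a : List (Fin d) → ℝ // ∃ w : List (Fin d), a = fun v => r (v ++ w)}

/-- the element of the word `w` -/
def el (r : List (Fin d) → ℝ) (w : List (Fin d)) : Car r := ⟨fun v => r (v ++ w), w, rfl⟩

theorem el_surj (r : List (Fin d) → ℝ) (a : Car r) : ∃ w, a = el r w := by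
  obtain ⟨a, w, h⟩ := a
  exact ⟨w, Subtype.ext h⟩

theorem el_eq (r : List (Fin d) → ℝ) {w w' : List (Fin d)}
    (h : ∀ v, r (v ++ w) = r (v ++ w')) : el r w = el r w' :=
  Subtype.ext (funext h)

/-- the shift -/
def sh (r : List (Fin d) → ℝ) (j : Fin d) (a : Car r) : Car r :=
  ⟨fun v => a.1 (v ++ [j]), by
    obtain ⟨w, h⟩ := a.2
    refine ⟨j :: w, ?_⟩
    funext v
    rw [h]
    simp⟩

theorem sh_el (r : List (Fin d) → ℝ) (j : Fin d) (w : List (Fin d)) :
    sh r j (el r w) = el r (j :: w) := by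
  apply Subtype.ext
  funext v
  change r (v ++ [j] ++ w) = r (v ++ j :: w)
  simp

theorem sh_sh (r : List (Fin d) → ℝ)
    (h : ∀ (v w : List (Fin d)) (j : Fin d), r (v ++ j :: j :: w) = r (v ++ w))
    (j : Fin d) (a : Car r) : sh r j (sh r j a) = a := by
  obtain ⟨w, rfl⟩ := el_surj r a
  rw [sh_el, sh_el]
  exact el_eq r fun v => h v w j

/-- the permutation -/
def pe (r : List (Fin d) → ℝ)
    (h : ∀ (v w : List (Fin d)) (j : Fin d), r (v ++ j :: j :: w) = r (v ++ w))
    (j : Fin d) : Equiv.Perm (Car r) where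
  toFun := sh r j
  invFun := sh r j
  left_inv := sh_sh r h j
  right_inv := sh_sh r h j

theorem pe_el (r : List (Fin d) → ℝ)
    (h : ∀ (v w : List (Fin d)) (j : Fin d), r (v ++ j :: j :: w) = r (v ++ w))
    (j : Fin d) (w : List (Fin d)) : pe r h j (el r w) = el r (j :: w) := sh_el r j w

theorem prod_el (r : List (Fin d) → ℝ)
    (h : ∀ (v w : List (Fin d)) (j : Fin d), r (v ++ j :: j :: w) = r (v ++ w))
    (w : List (Fin d)) : (w.map (pe r h)).prod (el r []) = el r w := by
  induction w with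
  | nil => rfl
  | cons j w ih => rw [List.map_cons, List.prod_cons, Equiv.Perm.mul_apply, ih, pe_el]

/-- the datum -/
def dat (r : List (Fin d) → ℝ)
    (h1 : ∀ (v w : List (Fin d)) (j : Fin d), r (v ++ j :: j :: w) = r (v ++ w))
    (h2 : ∀ (v w : List (Fin d)) (i j : Fin d), i.val + 2 ≤ j.val →
      r (v ++ i :: j :: w) = r (v ++ j :: i :: w))
    (h3 : ∀ (v : List (Fin d)) (j : Fin d), 1 ≤ j.val → r (v ++ [j]) = r v) :
    Datum d (Car r) where
  π := pe r h1
  a0 := el r []
  r := fun a => a.1 []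
  sq := fun j => Equiv.ext fun a => sh_sh r h1 j a
  comm := fun i j hij => by
    apply Equiv.ext
    intro a
    obtain ⟨w, rfl⟩ := el_surj r a
    rw [Equiv.Perm.mul_apply, Equiv.Perm.mul_apply, pe_el, pe_el, pe_el, pe_el]
    exact el_eq r fun v => h2 v w i j hij
  fix := fun j hj => by
    rw [pe_el]
    exact el_eq r fun v => by rw [h3 v j hj, List.append_nil]
  trans := fun a => by
    obtain ⟨w, rfl⟩ := el_surj r a
    refine ⟨(w.map (pe r h1)).prod, ?_, prod_el r h1 w⟩
    apply Subgroup.list_prod_mem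
    intro x hx
    obtain ⟨j, _, rfl⟩ := List.mem_map.1 hx
    exact Subgroup.subset_closure ⟨j, rfl⟩

end NER

open NER in
theorem t_NER : S_NER := by
  intro d r h1 h2 h3
  refine ⟨Car r, dat r h1 h2 h3, ?_, ?_, ?_⟩
  · intro w
    change ((w.map (pe r h1)).prod (el r [])).1 [] = r w
    rw [prod_el]
    rfl
  · intro j hj
    apply Equiv.ext
    intro a
    obtain ⟨w, rfl⟩ := el_surj r a
    change pe r h1 j (el r w) = el r w
    rw [pe_el]
    exact el_eq r fun v => hj v w
  · intro κ _ c hc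
    choose W hW using el_surj r
    refine Finite.of_injective (fun a => c (W a)) ?_
    intro a b hab
    rw [hW a, hW b]
    exact el_eq r (hc _ _ hab)

end

end FOI
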