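import Pool.Agent.FOI.CStmts

/-!
# III.7: root systems and the reflections in a vertex
-/

namespace FOI

open Lib_helper64.FO FO2 FOK
open scoped RealInnerProductSpace

noncomputable section

namespace NOS

theorem exists_ne4 {m : ℕ} (hm : 5 ≤ m) (a b c d : Fin m) :
    ∃ k, k ≠ a ∧ k ≠ b ∧ k ≠ c ∧ k ≠ d := by
  by_contra h
  have hsub : (Finset.univ : Finset (Fin m)) ⊆ {a, b, c, d} := by
    intro k _
    by_contra hk
    simp only [Finset.mem_insert, Finset.mem_singleton, not_or] at hk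
    exact h ⟨k, hk.1, hk.2.1, hk.2.2.1, hk.2.2.2⟩
  have h1 := Finset.card_le_card hsub
  have h2 : ({a, b, c, d} : Finset (Fin m)).card ≤ 4 := Finset.card_le_four
  rw [Finset.card_univ, Fintype.card_fin] at h1
  omega

theorem caseA {n : ℕ} {Φ : Set (E n)} (hn : 5 ≤ n) (v : Fin (n + 1) → E n) (h : IsA Φ v) :
    ∃ a ∈ Φ, sref (v 0) a ∉ Φ := by
  obtain ⟨hv, hΦ⟩ := h
  have hn0 : (0 : ℝ) < n := by
    have : (5 : ℝ) ≤ n := by exact_mod_cast hn
    linarith
  have hc : (0 : ℝ) < 1 / n := by positivity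
  have hneg : (-1 / n : ℝ) = -(1 / n) := by ring
  set i1 : Fin (n + 1) := ⟨1, by omega⟩ with hi1
  have h01 : (0 : Fin (n + 1)) ≠ i1 := by
    intro h0
    have := congrArg Fin.val h0
    simp [hi1] at this
  have hne : v 0 - v i1 ≠ 0 := by
    intro h0
    have h1 : ⟪v 0, v 0 - v i1⟫ = 0 := by rw [h0, inner_zero_right]
    rw [inner_sub_right, hv, hv, if_pos rfl, if_neg h01, hneg] at h1
    linarith
  set t : ℝ := ‖v 0 - v i1‖⁻¹ with ht
  have htpos : 0 < t := inv_pos.2 (norm_pos_iff.2 hne)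
  refine ⟨t • (v 0 - v i1), ?_, ?_⟩
  · rw [hΦ]
    refine ⟨0, i1, h01, t, htpos, ?_, rfl⟩
    rw [norm_smul, Real.norm_of_nonneg htpos.le, ht]
    exact inv_mul_cancel₀ (norm_ne_zero_iff.2 hne)
  · rw [hΦ]
    rintro ⟨i, j, hij, s, hs, -, he⟩
    obtain ⟨k, hk0, hk1, hki, hkj⟩ := exists_ne4 (m := n + 1) (by omega) 0 i1 i j
    have h2 : ⟪v k, sref (v 0) (t • (v 0 - v i1))⟫ = 0 := by
      rw [he, inner_smul_right, inner_sub_right, hv, hv, if_neg hki, if_neg hkj]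
      ring
    have h3 : ⟪v 0, t • (v 0 - v i1)⟫ = t * (1 + 1 / n) := by
      rw [inner_smul_right, inner_sub_right, hv, hv, if_pos rfl, if_neg h01]
      ring
    have h4 : ⟪v k, t • (v 0 - v i1)⟫ = 0 := by
      rw [inner_smul_right, inner_sub_right, hv, hv, if_neg hk0, if_neg hk1]
      ring
    unfold sref at h2
    rw [h3, inner_sub_right, h4, inner_smul_right, hv, if_neg hk0, hneg] at h2
    have h5 : 0 < 2 * (t * (1 + 1 / (n : ℝ))) * (1 / n) := by positivity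
    linarith

theorem caseD {n : ℕ} {Φ : Set (E n)} (hn : 5 ≤ n) (u : OrthonormalBasis (Fin n) ℝ (E n))
    (h : IsD Φ u) : ∃ a ∈ Φ, a - (2 * ⟪∑ i, u i, a⟫ / n) • ∑ i, u i ∉ Φ := by
  have hn0 : (0 : ℝ) < n := by
    have : (5 : ℝ) ≤ n := by exact_mod_cast hn
    linarith
  have hu : ∀ i j, ⟪u i, u j⟫ = if i = j then (1 : ℝ) else 0 := by
    intro i j
    exact (orthonormal_iff_ite.1 u.orthonormal) i j
  set i0 : Fin n := ⟨0, by omega⟩ with hi0
  set i1 : Fin n := ⟨1, by omega⟩ with hi1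
  have h01 : i0 ≠ i1 := by
    intro h0
    have := congrArg Fin.val h0
    simp [hi0, hi1] at this
  have hs : ∀ k, ⟪u k, ∑ i, u i⟫ = 1 := by
    intro k
    rw [inner_sum, Finset.sum_congr rfl fun i _ => hu k i, Finset.sum_ite_eq,
      if_pos (Finset.mem_univ _)]
  have hr : (0 : ℝ) < 1 / √2 := by positivity
  refine ⟨(1 / √2 : ℝ) • (u i0 + u i1), ?_, ?_⟩
  · rw [h]
    exact ⟨i0, i1, h01, 1, 1, by simp [sg]⟩
  · rw [h]
    rintro ⟨i, j, hij, s, t, he⟩
    obtain ⟨k, hk0, hk1, hki, hkj⟩ := exists_ne4 hn i0 i1 i j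
    have h1 : ⟪∑ i, u i, (1 / √2 : ℝ) • (u i0 + u i1)⟫ = (1 / √2) * 2 := by
      rw [inner_smul_right, inner_add_right, real_inner_comm, hs, real_inner_comm (u i1), hs]
      norm_num
    have h2 : ⟪u k, (1 / √2 : ℝ) • (u i0 + u i1) -
        (2 * ⟪∑ i, u i, (1 / √2 : ℝ) • (u i0 + u i1)⟫ / n) • ∑ i, u i⟫ =
        ⟪u k, (1 / √2 : ℝ) • (sg s • u i + sg t • u j)⟫ := by rw [he]
    rw [h1, inner_sub_right, inner_smul_right, inner_smul_right, inner_add_right, hu, hu,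
      if_neg hk0, if_neg hk1, hs, inner_smul_right, inner_add_right, inner_smul_right,
      inner_smul_right, hu, hu, if_neg hki, if_neg hkj] at h2
    have h5 : 0 < 2 * ((1 / √2) * 2) / (n : ℝ) := by positivity
    linarith

end NOS

theorem t_NOS : S_NOS := fun _ _ hn => ⟨fun v hv => NOS.caseA hn v hv, fun u hu => NOS.caseD hn u hu⟩

end

end FOI
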