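import Pool.Agent.FOI.BStmts

/-!
# FOI, II.11: an intertwining map of finite order is an isometry (helper63)
-/

namespace FOI

open Lib_helper64.FO FO2 FOK
open scoped RealInnerProductSpace Nat

noncomputable section

namespace ORT

theorem inner_sref {d : ℕ} {a : E d} (ha : ‖a‖ = 1) (x y : E d) :
    ⟪sref a x, sref a y⟫ = ⟪x, y⟫ := by
  have h : ⟪a, a⟫ = (1 : ℝ) := by rw [real_inner_self_eq_norm_sq, ha]; norm_num
  have h2 : ⟪x, a⟫ = ⟪a, x⟫ := real_inner_comm _ _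
  simp only [sref, inner_sub_left, inner_sub_right, inner_smul_left, inner_smul_right, h, h2,
    conj_trivial]
  ring

variable {d : ℕ} {I : Submodule ℝ (E d)} {Φ : Set (E d)} {A : E d →ₗ[ℝ] E d}

theorem step1 (hR : IsRS Φ) (hs : Submodule.span ℝ Φ = I)
    (h : ∀ a ∈ Φ, ∃ a', ‖a'‖ = 1 ∧ ∀ v ∈ I, A (sref a v) = sref a' (A v))
    {a : E d} (ha : a ∈ Φ) {w : E d} (hw : w ∈ I) : ⟪A a, A w⟫ = ⟪a, w⟫ * ⟪A a, A a⟫ := by
  obtain ⟨a', h1, h2⟩ := h a ha
  have haI : a ∈ I := hs ▸ Submodule.subset_span ha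
  have e1 : sref a' (A a) = -A a := by
    rw [← h2 a haI, sref_self (hR.norm a ha), map_neg]
  have e2 : sref a' (A w) = A w - (2 * ⟪a, w⟫) • A a := by
    rw [← h2 w hw, sref, map_sub, map_smul]
  have e3 := inner_sref h1 (A a) (A w)
  rw [e1, e2, inner_neg_left, inner_sub_right, inner_smul_right] at e3
  linarith

theorem step3 (hR : IsRS Φ) (hI : IrrRS Φ) (hs : Submodule.span ℝ Φ = I)
    (h : ∀ a ∈ Φ, ∃ a', ‖a'‖ = 1 ∧ ∀ v ∈ I, A (sref a v) = sref a' (A v))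
    {a0 : E d} (ha0 : a0 ∈ Φ) {a : E d} (ha : a ∈ Φ) : ⟪A a, A a⟫ = ⟪A a0, A a0⟫ := by
  have two : ∀ a ∈ Φ, ∀ b ∈ Φ, ⟪a, b⟫ ≠ (0 : ℝ) → ⟪A a, A a⟫ = ⟪A b, A b⟫ := by
    intro a ha b hb hab
    have haI : a ∈ I := hs ▸ Submodule.subset_span ha
    have hbI : b ∈ I := hs ▸ Submodule.subset_span hb
    have e1 := step1 hR hs h ha hbI
    have e2 := step1 hR hs h hb haI
    rw [real_inner_comm, e1, real_inner_comm] at e2
    exact mul_left_cancel₀ (by rwa [real_inner_comm] at hab) e2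
  set L : Submodule ℝ (E d) := Submodule.span ℝ {b | b ∈ Φ ∧ ⟪A b, A b⟫ = ⟪A a0, A a0⟫} with hL
  have hperp : ∀ a ∈ Φ, ⟪A a, A a⟫ ≠ ⟪A a0, A a0⟫ → a ∈ Lᗮ := by
    intro a ha hne
    rw [hL, Submodule.mem_orthogonal]
    intro u hu
    induction hu using Submodule.span_induction with
    | mem b hb =>
      by_contra hc
      exact hne ((two a ha b hb.1 (by rwa [real_inner_comm])).trans hb.2)
    | zero => exact inner_zero_left _
    | add x y _ _ hx hy => rw [inner_add_left, hx, hy, add_zero]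
    | smul c x _ hx => rw [inner_smul_left, hx, mul_zero]
  have hmem : ∀ a ∈ Φ, ⟪A a, A a⟫ = ⟪A a0, A a0⟫ → a ∈ L := fun a ha he =>
    Submodule.subset_span ⟨ha, he⟩
  have hzero : ∀ a ∈ Φ, a ∈ L → a ∈ Lᗮ → False := by
    intro a ha h1 h2
    have h3 : ⟪a, a⟫ = (0 : ℝ) := (Submodule.mem_orthogonal _ _).1 h2 a h1
    rw [real_inner_self_eq_norm_sq, hR.norm a ha] at h3
    norm_num at h3
  by_contra hne
  rcases hI L (fun b hb => by
    by_cases he : ⟪A b, A b⟫ = ⟪A a0, A a0⟫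
    · exact Or.inl (hmem b hb he)
    · exact Or.inr (hperp b hb he)) with h1 | h1
  · exact hzero a ha (h1 a ha) (hperp a ha hne)
  · exact hzero a0 ha0 (hmem a0 ha0 rfl) (h1 a0 ha0)

end ORT

open ORT in
theorem t_ORT : S_ORT := by
  intro d I Φ A m hR hI hs hm hpres hfin h v hv
  obtain ⟨a0, ha0⟩ := hR.ne
  set c : ℝ := ⟪A a0, A a0⟫ with hc
  have hc0 : 0 ≤ c := real_inner_self_nonneg
  have key : ∀ w ∈ I, ∀ v ∈ I, ⟪A v, A w⟫ = c * ⟪v, w⟫ := by
    intro w hw v hv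
    rw [← hs] at hv
    induction hv using Submodule.span_induction with
    | mem b hb => rw [step1 hR hs h hb hw, step3 hR hI hs h ha0 hb, mul_comm]
    | zero => rw [map_zero, inner_zero_left, inner_zero_left, mul_zero]
    | add x y _ _ hx hy => rw [map_add, inner_add_left, inner_add_left, hx, hy, mul_add]
    | smul t x _ hx =>
      rw [map_smul, inner_smul_left, inner_smul_left, hx]
      ring
  have hpow : ∀ n : ℕ, ∀ v ∈ I, (A ^ n) v ∈ I ∧ ⟪(A ^ n) v, (A ^ n) v⟫ = c ^ n * ⟪v, v⟫ := by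
    intro n
    induction n with
    | zero => intro v hv; simpa using hv
    | succ n ih =>
      intro v hv
      obtain ⟨h1, h2⟩ := ih v hv
      have e : (A ^ (n + 1)) v = A ((A ^ n) v) := by rw [pow_succ']; rfl
      rw [e]
      refine ⟨hpres _ h1, ?_⟩
      rw [key _ h1 _ h1, h2]
      ring
  have ha0I : a0 ∈ I := hs ▸ Submodule.subset_span ha0
  have h1 := (hpow m a0 ha0I).2
  rw [hfin a0 ha0I, real_inner_self_eq_norm_sq, hR.norm a0 ha0] at h1
  have h2 : c ^ m = 1 := by linarith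
  have h3 : c = 1 := (pow_eq_one_iff_of_nonneg hc0 (by omega)).1 h2
  have h4 := key v hv v hv
  rw [h3, one_mul, real_inner_self_eq_norm_sq, real_inner_self_eq_norm_sq] at h4
  exact (pow_left_inj₀ (norm_nonneg _) (norm_nonneg _) two_ne_zero).1 h4

end

end FOI
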