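import Pool.Agent.FOI.BStmts

/-!
# II.3: the group `N` acts properly discontinuously
-/

namespace FOI

open Lib_helper64.FO FO2 FOK
open scoped RealInnerProductSpace Nat

noncomputable section

namespace PROP

variable {d k : ℕ} {Γ : Type} [Group Γ] {X : Type} [MulAction Γ X]

/-- the vertices in a ball about any point are finite in number -/
theorem ball_fin (G : AGeo d k Γ X) (z : E d) (r : ℝ) : {y : X | ‖G.f y - z‖ ≤ r}.Finite := by
  refine (G.locfin (r + ‖z - G.f G.x0‖)).subset fun y hy => ?_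
  have hy' : ‖G.f y - z‖ ≤ r := hy
  show ‖G.f y - G.f G.x0‖ ≤ r + ‖z - G.f G.x0‖
  have h1 : G.f y - G.f G.x0 = (G.f y - z) + (z - G.f G.x0) := by abel
  rw [h1]
  exact (norm_add_le _ _).trans (by linarith)

/-- an element of the set moves a vertex into a ball -/
theorem move (G : AGeo d k Γ X)
    (h1 : ∀ n ∈ G.N, ∀ y, aff G n (G.f y) = G.f (n • y))
    (h3 : ∀ n z w, aff G n z - aff G n w = G.R 1 n (z - w))
    (z : E d) (r : ℝ) (n : Γ) (hn : n ∈ G.N) (hr : ‖aff G n z - z‖ ≤ r) (y : X) :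
    ‖G.f (n • y) - z‖ ≤ ‖G.f y - z‖ + r := by
  rw [← h1 n hn y]
  have h2 : aff G n (G.f y) - z = (aff G n (G.f y) - aff G n z) + (aff G n z - z) := by abel
  rw [h2, h3 n]
  refine (norm_add_le _ _).trans ?_
  rw [LinearIsometryEquiv.norm_map]
  linarith

end PROP

open PROP in
/-- II.3 -/
theorem t_PROP : M_PROP := by
  intro hA d k Γ _ X _ G z r
  obtain ⟨h1, -, h3, -, h5⟩ := hA d k Γ X G
  obtain ⟨b, hb, hsp, hli⟩ := exists_linearIndependent ℝ
    (Set.range fun y : X => G.f y - G.f G.x0)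
  have hbf : Finite b := hli.finite
  have hch : ∀ v : b, ∃ y : X, G.f y - G.f G.x0 = (v : E d) := fun v => hb v.2
  choose q hq using hch
  have hfin : ((({y : X | ‖G.f y - z‖ ≤ ‖G.f G.x0 - z‖ + r}) : Set X) ×ˢ
      {g : b → X | ∀ v, g v ∈ {y : X | ‖G.f y - z‖ ≤ ‖G.f (q v) - z‖ + r}}).Finite :=
    (ball_fin G z _).prod (Set.Finite.pi' fun v => ball_fin G z _)
  refine Set.Finite.of_injOn (f := fun n : Γ => (n • G.x0, fun v : b => n • q v)) ?_ ?_ hfin
  · rintro n ⟨hn, hr⟩
    exact ⟨move G h1 h3 z r n hn hr G.x0, fun v => move G h1 h3 z r n hn hr (q v)⟩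
  · rintro m ⟨hm, -⟩ n ⟨hn, -⟩ hmn
    have e0 : m • G.x0 = n • G.x0 := congrArg Prod.fst hmn
    have e1 : ∀ v : b, m • q v = n • q v := fun v => congrFun (congrArg Prod.snd hmn) v
    refine h5 m hm n hn fun y => ?_
    have a0 : aff G m (G.f G.x0) = aff G n (G.f G.x0) := by rw [h1 m hm, h1 n hn, e0]
    have a1 : ∀ v ∈ Submodule.span ℝ b, G.R 1 m v = G.R 1 n v := by
      intro v hv
      induction hv using Submodule.span_induction with
      | mem v hv =>
        have e2 := hq ⟨v, hv⟩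
        simp only at e2
        rw [← e2, ← h3 m, ← h3 n, h1 m hm, h1 n hn, h1 m hm, h1 n hn, e0, e1]
      | zero => rw [map_zero, map_zero]
      | add v w _ _ hv hw => rw [map_add, map_add, hv, hw]
      | smul c v _ hv => rw [map_smul, map_smul, hv]
    have a2 : G.R 1 m (G.f y - G.f G.x0) = G.R 1 n (G.f y - G.f G.x0) := by
      refine a1 _ ?_
      rw [hsp]
      exact Submodule.subset_span ⟨y, rfl⟩
    rw [← h3 m, ← h3 n, a0] at a2
    exact sub_left_injective a2

end

end FOI
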