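import Pool.Agent.FOI.BStmts

/-!
# II.13: the vectors `ψ` and the spaces `V_i` in other frames
-/

namespace FOI

open Lib_helper64.FO FO2 FOK
open scoped RealInnerProductSpace Nat

namespace PSI

section

variable {d k : ℕ} {Γ : Type} [Group Γ] {X : Type} [MulAction Γ X] {G : AGeo d k Γ X} {l : ℕ}
  {RI : Γ → (E d ≃ₗᵢ[ℝ] E d)}

theorem RI_one (h : IsExt G l RI) : RI 1 = 1 := by
  have h1 := h.mul 1 1
  rw [one_mul] at h1
  exact mul_eq_left.1 h1.symm

theorem RI_mul (h : IsExt G l RI) (γ δ : Γ) (v : E d) : RI (γ * δ) v = RI γ (RI δ v) := by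
  rw [h.mul]; rfl

theorem RI_inv (h : IsExt G l RI) (γ : Γ) (v : E d) : RI γ (RI γ⁻¹ v) = v := by
  rw [← RI_mul h, mul_inv_cancel, RI_one h]; rfl

theorem pI_mem (v : E d) : pI G l v ∈ Sp G 0 l := Submodule.starProjection_apply_mem _ v

theorem R_eq (h : IsExt G l RI) {n : Γ} (hn : n ∈ G.N) {v : E d} (hv : v ∈ Sp G 0 l) :
    G.R 1 n v = RI n v := by
  rw [AGeo.R, one_mul, inv_one, mul_one, h.H n (G.N_le hn) v hv]

end

end PSI

open PSI in
theorem t_PSI : M_PSI := by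
  intro _ d k Γ _ X _ _ G l _ RI hRI b hb
  refine ⟨fun γ => ?_, fun γ i v hv => ?_⟩
  · refine ⟨RI γ⁻¹ (pI G l (G.f (γ • G.x0)) - b γ) - pI G l (G.f G.x0), ?_, ?_, ?_⟩
    · rw [AGeo.mem_V]
      intro n hn
      have hmem : RI γ⁻¹ (pI G l (G.f (γ • G.x0)) - b γ) - pI G l (G.f G.x0) ∈ Sp G 0 l :=
        sub_mem (hRI.pres _ _ (sub_mem (pI_mem _) (hb.mem γ))) (pI_mem _)
      rw [R_eq hRI hn.1 hmem, map_sub]
      have hx0 : n • G.x0 = G.x0 := G.Ni_fix le_rfl hn
      -- the second term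
      have e1 : RI n (pI G l (G.f G.x0)) = pI G l (G.f G.x0) - b n := by
        have h1 := hb.H n (G.N_le hn.1) G.x0
        rw [hx0] at h1
        rw [eq_sub_iff_add_eq]
        exact h1.symm
      -- the first term
      obtain ⟨m, hm⟩ : ∃ m, m = γ * n * γ⁻¹ := ⟨_, rfl⟩
      have hmN : m ∈ G.N := by rw [hm]; exact G.conj_mem_N γ hn.1
      have hmγ : m * γ = γ * n := by rw [hm]; group
      have hnm : n * γ⁻¹ = γ⁻¹ * m := by rw [hm]; group
      have e2 : RI m (pI G l (G.f (γ • G.x0))) = pI G l (G.f (γ • G.x0)) - b m := by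
        have h1 := hb.H m (G.N_le hmN) (γ • G.x0)
        rw [← mul_smul, hmγ, mul_smul, hx0] at h1
        rw [eq_sub_iff_add_eq]
        exact h1.symm
      have e3 : RI m (b γ) = b γ + RI γ (b n) - b m := by
        have h1 := hb.mul m γ
        rw [hmγ, hb.mul γ n] at h1
        rw [h1]; abel
      have e4 : RI n (RI γ⁻¹ (pI G l (G.f (γ • G.x0)) - b γ)) =
          RI γ⁻¹ (pI G l (G.f (γ • G.x0)) - b γ) - b n := by
        rw [← RI_mul hRI, hnm, RI_mul hRI, map_sub (RI m), e2, e3]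
        have e5 : pI G l (G.f (γ • G.x0)) - b m - (b γ + RI γ (b n) - b m) =
            (pI G l (G.f (γ • G.x0)) - b γ) - RI γ (b n) := by abel
        rw [e5, map_sub (RI γ⁻¹)]
        congr 1
        rw [← RI_mul hRI, inv_mul_cancel, RI_one hRI]; rfl
      rw [e1, e4]
      abel
    · exact sub_mem (hRI.pres _ _ (sub_mem (pI_mem _) (hb.mem γ))) (pI_mem _)
    · rw [add_sub_cancel, RI_inv hRI, sub_add_cancel]
  · rw [AGeo.mem_V, AGeo.mem_V]
    have key : ∀ n ∈ G.Ni i, G.R γ n (RI γ v) = RI γ (G.R 1 n v) := by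
      intro n hn
      have h1 := hRI.conj γ n hn.1 v hv
      rw [h1, AGeo.R, AGeo.R, one_mul, inv_one, mul_one]
    constructor
    · intro h n hn
      have h1 := h n hn
      rw [key n hn] at h1
      exact (RI γ).injective h1
    · intro h n hn
      rw [key n hn, h n hn]

end FOI
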