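import Pool.Agent.FOI.DStmts

/-!
# FOI, section IV.3: the stabiliser of a vertex is finite

`t_QF1 : S_QF1`. `K ⊓ H` has finite index in `K`. Its elements preserve the distances from `f x0`, so
they map a finite set `F ⊆ X`, such that the differences `f x - f x0`, `x ∈ F`, span all differences,
into a finite set, and they are determined by the images of the points of `F`.
-/

namespace FOI

open Lib_helper64.FO FO2 FOK
open scoped RealInnerProductSpace

noncomputable section

namespace QF1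

theorem exists_F {d : ℕ} {X : Type} (f : X → E d) (x0 : X) : ∃ F : Set X, F.Finite ∧
    ∀ x, f x - f x0 ∈ Submodule.span ℝ ((fun x => f x - f x0) '' F) := by
  obtain ⟨b, hb, hs, hl⟩ := exists_linearIndependent ℝ (Set.range fun x => f x - f x0)
  have hfin : b.Finite := hl.setFinite
  choose g hg using fun v : b => hb v.2
  have : Finite b := hfin
  refine ⟨Set.range g, Set.finite_range g, fun x => ?_⟩
  have h1 : f x - f x0 ∈ Submodule.span ℝ (Set.range fun x => f x - f x0) :=
    Submodule.subset_span ⟨x, rfl⟩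
  rw [← hs] at h1
  refine Submodule.span_mono ?_ h1
  intro v hv
  exact ⟨g ⟨v, hv⟩, ⟨⟨v, hv⟩, rfl⟩, hg ⟨v, hv⟩⟩

theorem fix_all {d : ℕ} {X : Type} (f : X → E d) (x0 : X) (F : Set X)
    (hF : ∀ x, f x - f x0 ∈ Submodule.span ℝ ((fun x => f x - f x0) '' F)) (T : E d ≃ᵢ E d)
    (h0 : T (f x0) = f x0) (h : ∀ x ∈ F, T (f x) = f x) (x : X) : T (f x) = f x := by
  have hA : ∀ p, T.toRealAffineIsometryEquiv p = T p := fun p => rfl
  have hlin : ∀ y, T.toRealAffineIsometryEquiv.linearIsometryEquiv (f y - f x0) =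
      T (f y) - T (f x0) := by
    intro y
    have := T.toRealAffineIsometryEquiv.map_vsub (f y) (f x0)
    rw [vsub_eq_sub, vsub_eq_sub, hA, hA] at this
    exact this
  have key : ∀ v ∈ Submodule.span ℝ ((fun x => f x - f x0) '' F),
      T.toRealAffineIsometryEquiv.linearIsometryEquiv v = v := by
    intro v hv
    induction hv using Submodule.span_induction with
    | mem v hv =>
      obtain ⟨y, hy, rfl⟩ := hv
      show T.toRealAffineIsometryEquiv.linearIsometryEquiv (f y - f x0) = f y - f x0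
      rw [hlin, h y hy, h0]
    | zero => rw [map_zero]
    | add a b _ _ ha hb => rw [map_add, ha, hb]
    | smul c a _ ha => rw [map_smul, ha]
  have h1 := key _ (hF x)
  rw [hlin, h0] at h1
  exact sub_left_injective h1

end QF1

open QF1 in
theorem t_QF1 : S_QF1 := by
  intro d Γ _ X _ f H K x0 hK hfaith hidx hiso hinj hlf
  obtain ⟨F, hF, hspan⟩ := exists_F f x0
  have : Finite F := hF
  -- a bound of the distances
  obtain ⟨r, hr⟩ : ∃ r : ℝ, ∀ x ∈ F, ‖f x - f x0‖ ≤ r := by
    obtain ⟨r, hr⟩ := (hF.image fun x => ‖f x - f x0‖).bddAbove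
    exact ⟨r, fun x hx => hr ⟨x, hx, rfl⟩⟩
  have hB := hlf r
  have : Finite {x : X | ‖f x - f x0‖ ≤ r} := hB
  have hmap : ∀ γ ∈ K, γ ∈ H → ∀ x ∈ F, γ • x ∈ {x : X | ‖f x - f x0‖ ≤ r} := by
    intro γ hγ hγ' x hx
    obtain ⟨T, hT⟩ := hiso γ hγ'
    show ‖f (γ • x) - f x0‖ ≤ r
    have e : f x0 = T (f x0) := by rw [hT, hK γ hγ]
    rw [← hT, e, ← dist_eq_norm, T.dist_eq, dist_eq_norm]
    exact hr x hx
  have hfin : Finite (H.subgroupOf K) := by
    let m : H.subgroupOf K → F → {x : X | ‖f x - f x0‖ ≤ r} := fun γ x =>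
      ⟨(γ.1.1 : Γ) • (x.1 : X), hmap γ.1.1 γ.1.2 (Subgroup.mem_subgroupOf.1 γ.2) x.1 x.2⟩
    apply Finite.of_injective m
    intro a b hab
    have h1 : ∀ x ∈ F, a.1.1 • x = b.1.1 • x := by
      intro x hx
      have := congrFun hab ⟨x, hx⟩
      exact congrArg Subtype.val this
    have ha : a.1.1 ∈ H := Subgroup.mem_subgroupOf.1 a.2
    have hb : b.1.1 ∈ H := Subgroup.mem_subgroupOf.1 b.2
    have hc : (b.1.1)⁻¹ * a.1.1 ∈ H := mul_mem (inv_mem hb) ha
    have hc' : (b.1.1)⁻¹ * a.1.1 ∈ K := mul_mem (inv_mem b.1.2) a.1.2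
    obtain ⟨T, hT⟩ := hiso _ hc
    have h2 : (b.1.1)⁻¹ * a.1.1 = 1 := by
      apply hfaith
      intro x
      apply hinj
      rw [← hT]
      apply fix_all f x0 F hspan T
      · rw [hT, hK _ hc']
      · intro y hy
        rw [hT, mul_smul, h1 y hy, inv_smul_smul]
    have h3 : a.1.1 = b.1.1 := by
      have := inv_mul_eq_one.1 h2
      exact this.symm
    exact Subtype.ext (Subtype.ext h3)
  have : H.FiniteIndex := ⟨hidx⟩
  have hi : (H.subgroupOf K).index ≠ 0 := Subgroup.FiniteIndex.index_ne_zero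
  have hcard : Nat.card K ≠ 0 := by
    rw [← Subgroup.card_mul_index (H.subgroupOf K)]
    exact mul_ne_zero Nat.card_pos.ne' hi
  exact Nat.finite_of_card_ne_zero hcard

end

end FOI
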