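import Pool.Agent.FOI.CStmts

/-!
# Module RED1: the case (red), the unit vector orthogonal to all directions (III.1)
-/

namespace FOI

open Lib_helper64.FO FO2 FOK
open scoped RealInnerProductSpace Nat

noncomputable section

namespace RED1

variable {d k : ℕ} {Γ : Type} [Group Γ] {X : Type} [MulAction Γ X] {G : AGeo d k Γ X} {l : ℕ}

/-- a unit vector whose orthogonal complement is the given hyperplane -/
theorem exists_unit (I : Submodule ℝ (E d)) (h1 : d ≤ Module.finrank ℝ I + 1) (h2 : I ≠ ⊤) :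
    ∃ e0 : E d, ‖e0‖ = 1 ∧ I = (ℝ ∙ e0)ᗮ := by
  have hE : Module.finrank ℝ (E d) = d := finrank_euclideanSpace_fin
  have h3 : Module.finrank ℝ I < d := by
    have := Submodule.finrank_lt h2
    rwa [hE] at this
  have h4 : Module.finrank ℝ I + Module.finrank ℝ Iᗮ = d := by
    have := I.finrank_add_finrank_orthogonal
    rwa [hE] at this
  have h5 : Module.finrank ℝ Iᗮ = 1 := by omega
  obtain ⟨⟨v, hv⟩, hv0, hall⟩ := finrank_eq_one_iff'.1 h5
  have hv0' : v ≠ 0 := fun h => hv0 (Subtype.ext h)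
  have hn : ‖v‖ ≠ 0 := norm_ne_zero_iff.2 hv0'
  refine ⟨(‖v‖)⁻¹ • v, ?_, ?_⟩
  · rw [norm_smul, norm_inv, norm_norm, inv_mul_cancel₀ hn]
  · have h6 : Iᗮ = ℝ ∙ ((‖v‖)⁻¹ • v) := by
      apply le_antisymm
      · intro w hw
        obtain ⟨c, hc⟩ := hall ⟨w, hw⟩
        have hc' : c • v = w := congrArg Subtype.val hc
        rw [Submodule.mem_span_singleton]
        refine ⟨c * ‖v‖, ?_⟩
        rw [smul_smul, mul_assoc, mul_inv_cancel₀ hn, mul_one, hc']
      · rw [Submodule.span_singleton_le_iff_mem]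
        exact Submodule.smul_mem _ _ hv
    rw [← h6, Submodule.orthogonal_orthogonal]

/-- vectors of the line -/
theorem pm_of_norm {e0 w : E d} (h0 : ‖e0‖ = 1) (h1 : ‖w‖ = 1) (h2 : w ∈ ℝ ∙ e0) :
    w = e0 ∨ w = -e0 := by
  obtain ⟨c, rfl⟩ := Submodule.mem_span_singleton.1 h2
  rw [norm_smul, h0, mul_one, Real.norm_eq_abs] at h1
  rcases abs_eq (zero_le_one' ℝ) |>.1 h1 with h | h
  · left; rw [h, one_smul]
  · right; rw [h, neg_one_smul]

/-- `N` preserves the line -/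
theorem N_line (hD : DirS G l) {e0 : E d} (h0 : ‖e0‖ = 1) (hI : Sp G 0 l = (ℝ ∙ e0)ᗮ) {n : Γ}
    (hn : n ∈ G.N) : G.R 1 n e0 = e0 ∨ G.R 1 n e0 = -e0 := by
  apply pm_of_norm h0 (by rw [LinearIsometryEquiv.norm_map, h0])
  have h1 : (ℝ ∙ e0 : Submodule ℝ (E d)) = (Sp G 0 l)ᗮ := by
    rw [hI, Submodule.orthogonal_orthogonal]
  rw [h1, Sp, Submodule.mem_orthogonal]
  intro u hu
  induction hu using Submodule.span_induction with
  | mem a ha =>
    have h2 : G.R 1 n⁻¹ a ∈ Sp G 0 l := Submodule.subset_span (hD.inv n⁻¹ (inv_mem hn) a ha)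
    rw [hI, Submodule.mem_orthogonal] at h2
    have h3 := h2 e0 (Submodule.mem_span_singleton_self e0)
    rw [← LinearIsometryEquiv.inner_map_map (G.R 1 n), G.R_inv_apply 1 hn] at h3
    rw [real_inner_comm]
    exact h3
  | zero => exact inner_zero_left _
  | add x y _ _ hx hy => rw [inner_add_left, hx, hy, add_zero]
  | smul c x _ hx => rw [inner_smul_left, hx, mul_zero]

/-- if all edges are orthogonal to `e` then `f` has a constant component -/
theorem const_of_edge {e : E d}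
    (h : ∀ γ : Γ, ⟪G.f (γ • G.ρ 0 • G.x0) - G.f (γ • G.x0), e⟫ = 0) (x y : X) :
    ⟪G.f x - G.f y, e⟫ = 0 := by
  have key : ∀ γ : Γ, ∀ δ : Γ, ⟪G.f (δ • γ • G.x0) - G.f (δ • G.x0), e⟫ = 0 := by
    intro γ
    have hγ : γ ∈ Subgroup.closure (G.ρ '' Set.univ) := by
      have h1 := G.gen
      rw [gpar] at h1
      rw [h1]
      trivial
    induction hγ using Subgroup.closure_induction with
    | mem z hz =>
      obtain ⟨j, -, rfl⟩ := hz
      intro δ
      rcases Nat.eq_zero_or_pos j with rfl | hj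
      · exact h δ
      · rw [G.stab j hj, sub_self, inner_zero_left]
    | one =>
      intro δ
      rw [one_smul, sub_self, inner_zero_left]
    | mul a b _ _ ha hb =>
      intro δ
      have h1 := ha δ
      have h2 := hb (δ * a)
      rw [mul_smul, mul_smul] at h2
      rw [mul_smul]
      have e1 : G.f (δ • a • b • G.x0) - G.f (δ • G.x0) =
          (G.f (δ • a • b • G.x0) - G.f (δ • a • G.x0)) +
            (G.f (δ • a • G.x0) - G.f (δ • G.x0)) := by abel
      rw [e1, inner_add_left, h1, h2, add_zero]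
    | inv a _ ha =>
      intro δ
      have h1 := ha (δ * a⁻¹)
      rw [mul_smul, mul_smul, inv_smul_smul] at h1
      have e1 : G.f (δ • a⁻¹ • G.x0) - G.f (δ • G.x0) =
          -(G.f (δ • G.x0) - G.f (δ • a⁻¹ • G.x0)) := by abel
      rw [e1, inner_neg_left, h1, neg_zero]
  obtain ⟨g, rfl⟩ := G.trans x
  obtain ⟨g', rfl⟩ := G.trans y
  have h1 := key g 1
  have h2 := key g' 1
  rw [one_smul, one_smul] at h1 h2
  have e1 : G.f (g • G.x0) - G.f (g' • G.x0) =
      (G.f (g • G.x0) - G.f G.x0) - (G.f (g' • G.x0) - G.f G.x0) := by abel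
  rw [e1, inner_sub_left, h1, h2, sub_zero]

theorem up_line (hT : ATop G l) (hdec : ∀ γ : Γ, ∃ n ∈ G.N, ∃ w ∈ G.dn (l - 3), γ = n * w)
    {e0 : E d} (hN : ∀ n ∈ G.N, G.R 1 n e0 = e0 ∨ G.R 1 n e0 = -e0) {n : Γ}
    (hn : n ∈ G.up (l - 2)) : G.R 1 n e0 = e0 := by
  have hl5 := hT.l5
  have hnN : n ∈ G.N := hT.up (G.up_anti (by omega) hn)
  rcases hN n hnN with h1 | h1
  · exact h1
  -- every conjugate acts as `-1`
  have hconj : ∀ γ : Γ, G.R 1 (γ * n * γ⁻¹) e0 = -e0 := by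
    intro γ
    obtain ⟨m, hm, w, hw, rfl⟩ := hdec γ
    have e1 : m * w * n * (m * w)⁻¹ = m * n * m⁻¹ := by
      have e2 : w * n = n * w := G.comm_dn_up (by omega) hw hn
      rw [mul_assoc m w n, e2]
      group
    rw [e1, G.R_mul_apply 1 (mul_mem hm hnN) (inv_mem hm), G.R_mul_apply 1 hm hnN]
    have h3 := G.R_inv_apply 1 hm e0
    rcases hN m⁻¹ (inv_mem hm) with h2 | h2
    · rw [h2] at h3 ⊢
      rw [h1, map_neg, h3]
    · rw [h2] at h3 ⊢
      rw [map_neg, h1, neg_neg]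
      rw [map_neg] at h3
      rw [← neg_eq_iff_eq_neg]
      exact h3
  have hedge : ∀ γ : Γ, ⟪G.f (γ • G.ρ 0 • G.x0) - G.f (γ • G.x0), e0⟫ = 0 := by
    intro γ
    have hH : γ * n * γ⁻¹ ∈ G.H := G.N_le (G.conj_mem_N γ hnN)
    have hx0 : n • G.x0 = G.x0 := G.up_fix_x0 (G.up_anti (by omega) hn)
    have hc : G.ρ 0 * n = n * G.ρ 0 := G.comm_up (by omega) hn
    have h2 := G.equiv _ hH (γ • G.ρ 0 • G.x0) (γ • G.x0)
    have e1 : (γ * n * γ⁻¹) • γ • G.ρ 0 • G.x0 = γ • G.ρ 0 • G.x0 := by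
      rw [mul_smul, inv_smul_smul, mul_smul, ← mul_smul n, ← hc, mul_smul, hx0]
    have e2 : (γ * n * γ⁻¹) • γ • G.x0 = γ • G.x0 := by
      rw [mul_smul, inv_smul_smul, mul_smul, hx0]
    rw [e1, e2] at h2
    have h3 : G.T (γ * n * γ⁻¹) e0 = -e0 := by
      have := hconj γ
      rw [AGeo.R, one_mul, inv_one, mul_one] at this
      exact this
    have h4 := LinearIsometryEquiv.inner_map_map (G.T (γ * n * γ⁻¹))
      (G.f (γ • G.ρ 0 • G.x0) - G.f (γ • G.x0)) e0
    rw [h2, h3, inner_neg_right] at h4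
    linarith
  have h5 := G.perp _ (G.N_le hnN) e0 (const_of_edge hedge)
  rw [AGeo.R, one_mul, inv_one, mul_one]
  exact h5

end RED1

open RED1 in
theorem t_RED1 : M_RED1 := by
  intro hMIR hDIR d k Γ _ X _ G l hT hne
  obtain ⟨m1, m2, m3, m4, m5, m6⟩ := hMIR d k Γ X G l hT
  have hD := hDIR d k Γ X G l hT
  obtain ⟨e0, h0, hI⟩ := exists_unit _ hD.dim hne
  have hN : ∀ n ∈ G.N, G.R 1 n e0 = e0 ∨ G.R 1 n e0 = -e0 := fun n hn => N_line hD h0 hI hn
  refine ⟨e0, h0, hI, ?_, ?_, hN, ?_⟩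
  · rcases hD.alt with h | h
    · exact absurd h hne
    · exact h.symm
  · intro x hx
    obtain ⟨a, h, hm⟩ := m3 x hx
    have ha : a ∈ Sp G 0 l := Submodule.subset_span ((m6 a).2 ⟨x, hx, h, hm⟩)
    rw [hI, Submodule.mem_orthogonal] at ha
    have h1 := ha e0 (Submodule.mem_span_singleton_self e0)
    rw [hm.lin, sref, real_inner_comm, h1, mul_zero, zero_smul, sub_zero]
  · exact fun n hn => up_line hT m1 hN hn

end

end FOI
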