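import Pool.Agent.FOI.CStmts
import Pool.Agent.FO2.FR2

/-!
# Module RED2: the case (red), dimensions (III.1)
-/

namespace FOI

open Lib_helper64.FO FO2 FOK
open scoped RealInnerProductSpace Nat

noncomputable section

namespace RED2

variable {d k : ℕ} {Γ : Type} [Group Γ] {X : Type} [MulAction Γ X] {G : AGeo d k Γ X} {l : ℕ}
  {e0 : E d}

theorem fin_E : Module.finrank ℝ (E d) = d := finrank_euclideanSpace_fin

/-- the projection on the complement of `e0` -/
def pr (e0 v : E d) : E d := v - ⟪e0, v⟫ • e0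

theorem inner_pr (hn : ‖e0‖ = 1) (v : E d) : ⟪e0, pr e0 v⟫ = 0 := by
  rw [pr, inner_sub_right, inner_smul_right, real_inner_self_eq_norm_sq, hn]
  ring

theorem mem_I (hE : RedE G l e0) {v : E d} : v ∈ Sp G 0 l ↔ ⟪e0, v⟫ = 0 := by
  rw [hE.I, Submodule.mem_orthogonal_singleton_iff_inner_right]

theorem pr_mem (hE : RedE G l e0) (v : E d) : pr e0 v ∈ Sp G 0 l :=
  (mem_I hE).2 (inner_pr hE.norm v)

theorem Sp_le (i : ℕ) : Sp G i l ≤ Sp G 0 l := by
  apply Submodule.span_mono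
  rintro a ⟨h1, x, ⟨γ, hγ, rfl⟩, h2⟩
  exact ⟨h1, _, ⟨γ, G.mem_up_zero γ, rfl⟩, h2⟩

theorem Sp_anti {i j : ℕ} (h : i ≤ j) : Sp G j l ≤ Sp G i l := by
  apply Submodule.span_mono
  rintro a ⟨h1, x, ⟨γ, hγ, rfl⟩, h2⟩
  exact ⟨h1, _, ⟨γ, G.up_anti h hγ, rfl⟩, h2⟩

/-- the projection of a fixed vector is fixed -/
theorem R_pr (hE : RedE G l e0) {n : Γ} (hn : n ∈ G.N) {v : E d} (hv : G.R 1 n v = v) :
    G.R 1 n (pr e0 v) = pr e0 v := by
  rw [pr, map_sub, map_smul, hv]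
  rcases hE.N n hn with h | h
  · rw [h]
  · have h1 : ⟪e0, v⟫ = -⟪e0, v⟫ := by
      have h2 : ⟪G.R 1 n e0, G.R 1 n v⟫ = ⟪e0, v⟫ := LinearIsometryEquiv.inner_map_map _ _ _
      rw [h, hv, inner_neg_left] at h2
      exact h2.symm
    have h3 : ⟪e0, v⟫ = 0 := by linarith
    rw [h3, zero_smul, zero_smul]

/-- the span of the projections of the vertices of the base face -/
def W' (G : AGeo d k Γ X) (e0 : E d) (i : ℕ) : Submodule ℝ (E d) :=
  Submodule.span ℝ {w | ∃ a ∈ G.dn i, pr e0 (G.F 1 (a • G.x0)) = w}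

/-- `V'_i` -/
def V' (G : AGeo d k Γ X) (l i : ℕ) : Submodule ℝ (E d) := G.V 1 i ⊓ Sp G 0 l

/-- `A_i` -/
def A (G : AGeo d k Γ X) (l i : ℕ) : Submodule ℝ (E d) := (Sp G i l)ᗮ ⊓ Sp G 0 l

theorem W'_le (hE : RedE G l e0) (i : ℕ) : W' G e0 i ≤ V' G l (i + 1) := by
  rw [W', Submodule.span_le]
  rintro _ ⟨a, ha, rfl⟩
  refine ⟨fun n hn => R_pr hE hn.1 (G.F_mem_V 1 ha n hn), pr_mem hE _⟩

theorem W'_mono {i j : ℕ} (h : i ≤ j) : W' G e0 i ≤ W' G e0 j := by
  apply Submodule.span_mono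
  rintro _ ⟨a, ha, rfl⟩
  exact ⟨a, G.dn_mono h ha, rfl⟩

theorem V'_le {i : ℕ} (hI : TopI G l 1 i) : V' G l i ≤ A G l i := by
  refine inf_le_inf ?_ le_rfl
  rw [← Submodule.orthogonal_orthogonal (G.V 1 i)]
  exact Submodule.orthogonal_le hI.perp

theorem not_W'_le (hTW : S_TW) (hT : ATop G l) (hE : RedE G l e0) {i : ℕ} (hi : 1 ≤ i)
    (hil : i ≤ l) (hI : TopI G l 1 i) : ¬ W' G e0 i ≤ A G l i := by
  intro h
  refine (hTW d k Γ X G l hT i hi hil).1 fun x hx a ha => ?_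
  obtain ⟨c, hc, h2⟩ := hI.root x hx
  have hcS : c ∈ Sp G i l := Submodule.subset_span hc
  have h3 : pr e0 (G.F 1 (a • G.x0)) ∈ A G l i := h (Submodule.subset_span ⟨a, ha, rfl⟩)
  have h4 : ⟪c, pr e0 (G.F 1 (a • G.x0))⟫ = 0 := (Submodule.mem_orthogonal _ _).1 h3.1 c hcS
  have h5 : ⟪e0, c⟫ = 0 := (mem_I hE).1 (Sp_le i hcS)
  have h6 : ⟪c, e0⟫ = 0 := by rw [real_inner_comm]; exact h5
  rw [pr, inner_sub_right, inner_smul_right, h6, mul_zero, sub_zero] at h4
  rw [h2]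
  exact FR2.sref_eq_self h4

theorem W'_lt (hTW : S_TW) (hT : ATop G l) (hE : RedE G l e0) {i : ℕ} (hi : 1 ≤ i)
    (hil : i ≤ l) (hI : TopI G l 1 i) : W' G e0 (i - 1) < W' G e0 i := by
  refine lt_of_le_not_ge (W'_mono (by omega)) fun h => not_W'_le hTW hT hE hi hil hI ?_
  have h1 := W'_le hE (G := G) (l := l) (i - 1)
  rw [Nat.sub_add_cancel hi] at h1
  exact h.trans (h1.trans (V'_le hI))

theorem dim_W' (hTI : S_TI) (hTW : S_TW) (hT : ATop G l) (hE : RedE G l e0) :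
    ∀ i, i ≤ l → i ≤ Module.finrank ℝ (W' G e0 i) := by
  intro i
  induction i with
  | zero => intro _; exact Nat.zero_le _
  | succ i ih =>
    intro hi
    have h1 := W'_lt hTW hT hE (i := i + 1) (by omega) hi
      (hTI d k Γ X G l hT 1 (i + 1) (by omega) hi)
    rw [Nat.add_sub_cancel] at h1
    have h2 := Submodule.finrank_lt_finrank_of_lt h1
    have h3 := ih (by omega)
    omega

theorem e0_ne (hE : RedE G l e0) : e0 ≠ 0 := by
  intro h
  have := hE.norm
  rw [h, norm_zero] at this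
  exact zero_ne_one this

theorem dim_I (hE : RedE G l e0) : Module.finrank ℝ (Sp G 0 l) + 1 = d := by
  have h1 := Submodule.finrank_add_finrank_orthogonal (ℝ ∙ e0)
  rw [finrank_span_singleton (e0_ne hE), fin_E, ← hE.I] at h1
  omega

theorem dim_A (i : ℕ) : Module.finrank ℝ (Sp G i l) + Module.finrank ℝ (A G l i) =
    Module.finrank ℝ (Sp G 0 l) := Submodule.finrank_add_inf_finrank_orthogonal (Sp_le i)

theorem dim_A_le (hE : RedE G l e0) {i : ℕ} (hI : TopI G l 1 i) :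
    Module.finrank ℝ (A G l i) + 1 ≤ i := by
  have h1 := dim_A (G := G) (l := l) i
  have h2 : d ≤ Module.finrank ℝ (Sp G i l) + i := hI.dim
  have h3 := dim_I hE
  omega

/-- `V'_i = A_i` has dimension `i - 1` for `i ≤ l` -/
theorem low (hTI : S_TI) (hTW : S_TW) (hT : ATop G l) (hE : RedE G l e0) {i : ℕ} (hi : 1 ≤ i)
    (hil : i ≤ l) : V' G l i = A G l i ∧ Module.finrank ℝ (V' G l i) + 1 = i := by
  have hI := hTI d k Γ X G l hT 1 i hi hil
  have h1 := dim_W' hTI hTW hT hE (i - 1) (by omega)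
  have h2 := W'_le hE (G := G) (l := l) (i - 1)
  rw [Nat.sub_add_cancel hi] at h2
  have h3 := Submodule.finrank_mono h2
  have h4 := Submodule.finrank_mono (V'_le hI)
  have h5 := dim_A_le hE hI
  exact ⟨Submodule.eq_of_le_of_finrank_le (V'_le hI) (by omega), by omega⟩

/-- if `e0` is in `V_i` -/
theorem dim_V' (hE : RedE G l e0) {i : ℕ} (h : e0 ∈ G.V 1 i) :
    Module.finrank ℝ (V' G l i) + 1 = Module.finrank ℝ (G.V 1 i) := by
  have h1 : (ℝ ∙ e0) ≤ G.V 1 i := by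
    rw [Submodule.span_singleton_le_iff_mem]
    exact h
  have h2 := Submodule.finrank_add_inf_finrank_orthogonal h1
  rw [finrank_span_singleton (e0_ne hE), ← hE.I, inf_comm] at h2
  rw [V']
  omega

theorem high (hST : S_STEP) (hTI : S_TI) (hTW : S_TW) (hT : ATop G l) (hE : RedE G l e0) :
    ∀ m, l + m ≤ d → l + m ≤ Module.finrank ℝ (G.V 1 (l + m)) := by
  have h5 := hT.l5
  intro m
  induction m with
  | zero =>
    intro _
    have h1 := (low hTI hTW hT hE (i := l) (by omega) le_rfl).2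
    have h2 := dim_V' hE (i := l) (fun n hn => hE.up n (G.up_anti (by omega) hn.2))
    rw [Nat.add_zero]
    omega
  | succ m ih =>
    intro hm
    have h1 := ih (by omega)
    have h2 := (hST d k Γ X G 1).2.1 (l + m) (by omega) (hT.nz (l + m) (by omega) (by omega))
    have h3 := Submodule.finrank_lt_finrank_of_lt h2
    rw [← Nat.add_assoc]
    omega

end RED2

open RED2 in
/-- III.1 -/
theorem t_RED2 : M_RED2 := by
  intro hST hTI hTW _ _ d k Γ _ X _ G l hT e0 hE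
  have h5 := hT.l5
  refine ⟨?_, ?_⟩
  · intro i hi hid
    rcases Nat.lt_or_ge l i with h | h
    · obtain ⟨m, rfl⟩ : ∃ m, i = l + m := ⟨i - l, by omega⟩
      have h1 := high hST hTI hTW hT hE m hid
      have h2 := dim_V' hE (i := l + m) (fun n hn => hE.up n (G.up_anti (by omega) hn.2))
      have h3 := (hT.dimV 1 (l + m) hi hid).2
      change Module.finrank ℝ (V' G l (l + m)) + 1 = l + m
      omega
    · exact (low hTI hTW hT hE hi h).2
  · intro i hi hil
    change Sp G i l = (V' G l i)ᗮ ⊓ Sp G 0 l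
    rw [(low hTI hTW hT hE hi hil).1]
    refine Submodule.eq_of_le_of_finrank_le (le_inf ?_ (Sp_le i)) ?_
    · have h1 : A G l i ≤ (Sp G i l)ᗮ := inf_le_left
      rw [← Submodule.orthogonal_orthogonal (Sp G i l)]
      exact Submodule.orthogonal_le h1
    · have h1 := dim_A (G := G) (l := l) i
      have h2 : A G l i ≤ Sp G 0 l := inf_le_right
      have h3 := Submodule.finrank_add_inf_finrank_orthogonal h2
      omega

end

end FOI
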