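import Pool.Agent.FOI.CStmts

/-!
# Module RED3: the translation parts in the case (red) (sections III.1, III.2)
-/

namespace FOI

open Lib_helper64.FO FO2 FOK
open scoped RealInnerProductSpace Nat

noncomputable section

namespace RED3

variable {d k : ℕ} {Γ : Type} [Group Γ] {X : Type} [MulAction Γ X] (G : AGeo d k Γ X)

theorem pI_mem (l : ℕ) (v : E d) : pI G l v ∈ Sp G 0 l :=
  Submodule.starProjection_apply_mem _ _

/-- the projections of two vectors agree iff the difference is orthogonal to the subspace -/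
theorem sub_mem_orth {l : ℕ} {v w : E d} (h : pI G l v = pI G l w) : v - w ∈ (Sp G 0 l)ᗮ := by
  have h1 : pI G l (v - w) = 0 := by
    rw [pI, map_sub]
    exact sub_eq_zero.2 h
  have h2 := Submodule.sub_starProjection_mem_orthogonal (K := Sp G 0 l) (v - w)
  rw [pI] at h1
  rwa [h1, sub_zero] at h2

/-- a map to `E d` that satisfies the cocycle identity and is `0` on the generators is `0` -/
theorem cocycle_zero {b : Γ → E d} {RI : Γ → (E d ≃ₗᵢ[ℝ] E d)}
    (hmul : ∀ γ δ, b (γ * δ) = b γ + RI γ (b δ)) (h : ∀ j, b (G.ρ j) = 0) (γ : Γ) : b γ = 0 := by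
  have h1 : b 1 = 0 := by
    have h2 := hmul 1 1
    rw [mul_one] at h2
    have h3 : RI 1 (b 1) = 0 := by
      have h4 := congrArg (fun z => z - b 1) h2
      simpa using h4.symm
    exact (RI 1).map_eq_zero_iff.1 h3
  have hγ : γ ∈ G.up 0 := G.mem_up_zero γ
  refine Subgroup.closure_induction (p := fun γ _ => b γ = 0) ?_ h1 ?_ ?_ hγ
  · rintro _ ⟨j, -, rfl⟩
    exact h j
  · intro a c _ _ ha hc
    rw [hmul, ha, hc, map_zero, zero_add]
  · intro a _ ha
    have h5 := hmul a a⁻¹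
    rw [mul_inv_cancel, h1, ha, zero_add] at h5
    exact (RI a).map_eq_zero_iff.1 h5.symm

end RED3

open RED3 in
theorem t_RED3 : M_RED3 := by
  intro _ _ hPSI d k Γ _ X _ _ G l hl e0 hE hV RI hRI b0 hb0
  have hl5 := hl.l5
  have hld := hl.ld
  -- `V'_1 = 0`
  have hV1 : ∀ v ∈ G.V 1 1, v ∈ Sp G 0 l → v = 0 := by
    intro v hv hv'
    have h1 := hV.dimV 1 le_rfl (by omega)
    have h2 : (G.V 1 1 ⊓ Sp G 0 l : Submodule ℝ (E d)) = ⊥ :=
      Submodule.finrank_eq_zero.1 (by omega)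
    have h3 : v ∈ (G.V 1 1 ⊓ Sp G 0 l : Submodule ℝ (E d)) := ⟨hv, hv'⟩
    rw [h2] at h3
    exact (Submodule.mem_bot ℝ).1 h3
  have key : ∀ γ : Γ, pI G l (G.f (γ • G.x0)) = RI γ (pI G l (G.f G.x0)) + b0 γ := by
    intro γ
    obtain ⟨ψ, h1, h2, h3⟩ := (hPSI d k Γ X G l hl RI hRI b0 hb0).1 γ
    rw [h3, hV1 ψ h1 h2, add_zero]
  set b : Γ → E d := fun γ => pI G l (G.f (γ • G.x0)) - pI G l (G.f G.x0) with hb
  have hmem : ∀ γ, b γ ∈ Sp G 0 l := fun γ => sub_mem (pI_mem G l _) (pI_mem G l _)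
  have hmul : ∀ γ δ, b (γ * δ) = b γ + RI γ (b δ) := by
    intro γ δ
    simp only [hb]
    rw [key, key, key, hRI.mul, hb0.mul, map_sub, map_add]
    show RI γ (RI δ _) + _ - _ = _
    abel
  have hup : ∀ γ ∈ G.up 1, b γ = 0 := by
    intro γ hγ
    simp only [hb]
    rw [G.up_fix_x0 hγ, sub_self]
  have hne : b (G.ρ 0) ≠ 0 := by
    intro h0
    have hall : ∀ γ, b γ = 0 := cocycle_zero G hmul (by
      intro j
      rcases Nat.eq_zero_or_pos j with rfl | hj
      · exact h0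
      · exact hup _ (G.ρ_mem_up hj))
    -- the differences are orthogonal to `I`
    have hdiff : ∀ y, G.f y - G.f G.x0 ∈ (Sp G 0 l)ᗮ := by
      intro y
      obtain ⟨γ, rfl⟩ := G.trans y
      refine sub_mem_orth G ?_
      exact sub_eq_zero.1 (hall γ)
    obtain ⟨a, hna, ha⟩ := hl.refl 1
    have haI : a ∈ Sp G 0 l := by
      refine Submodule.subset_span ⟨hna, G.ρ l, ⟨1, one_mem _, by group⟩, ha⟩
    have hfix : G.ρ l • G.x0 = G.x0 := G.stab l (by omega)
    have hN : G.ρ l ∈ G.N := hl.up (G.ρ_mem_up (by omega))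
    have h1 : G.ρ l = 1 := by
      apply G.eq_one_of_fix
      intro y
      apply G.inj
      have h2 := G.R_F 1 hN hfix y
      rw [ha] at h2
      simp only [AGeo.F, one_smul] at h2
      have h3 : ⟪a, G.f y - G.f G.x0⟫ = (0 : ℝ) := (Submodule.mem_orthogonal _ _).1 (hdiff y) a haI
      rw [sref, h3, mul_zero, zero_smul, sub_zero] at h2
      exact (sub_left_injective h2).symm
    exact G.ne_one l (by omega) h1
  -- elements of `up 2`
  have hup2 : ∀ γ ∈ G.up 2, RI γ (b (G.ρ 0)) = b (G.ρ 0) := by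
    intro γ hγ
    have h1 := hmul γ (G.ρ 0)
    have h2 := hmul (G.ρ 0) γ
    have h3 := hup γ (G.up_anti (by omega) hγ)
    rw [h3, zero_add] at h1
    rw [h3, map_zero, add_zero] at h2
    rw [← h1, ← h2, G.comm_up (i := 0) le_rfl hγ]
  refine ⟨b, hmem, hmul, hup, ?_, hne, ?_, ?_, ?_⟩
  · intro γ
    simp only [hb]
    abel
  · intro n hn
    have h1 := hup2 n hn.2
    rw [hRI.H n (G.N_le hn.1) _ (hmem _)] at h1
    show G.T (1 * n * 1⁻¹) _ = _
    rw [one_mul, inv_one, mul_one]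
    exact h1
  · have h1 := hmul (G.ρ 0) (G.ρ 0)
    rw [G.sq] at h1
    have h2 : b 1 = 0 := hup 1 (one_mem _)
    rw [h2] at h1
    exact (neg_eq_of_add_eq_zero_right h1.symm).symm
  · intro j hj
    exact hup2 _ (G.ρ_mem_up hj)

end

end FOI
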