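import Pool.Agent.FOI.CStmts

/-!
# III.2: properties of the isometries `RI (ρ j)` in the case (red)
-/

namespace FOI

open Lib_helper64.FO FO2 FOK
open scoped RealInnerProductSpace Nat

noncomputable section

namespace RED4

variable {d k : ℕ} {Γ : Type} [Group Γ] {X : Type} [MulAction Γ X]

theorem TT_mono (G : AGeo d k Γ X) {i j l : ℕ} (h : i ≤ j) : TT G j l ⊆ TT G i l := by
  rintro x ⟨γ, hγ, rfl⟩
  exact ⟨γ, G.up_anti h hγ, rfl⟩

theorem Ph_mono (G : AGeo d k Γ X) (g : Γ) {i j l : ℕ} (h : i ≤ j) : Ph G g j l ⊆ Ph G g i l := by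
  rintro a ⟨h1, x, hx, hx2⟩
  exact ⟨h1, x, TT_mono G h hx, hx2⟩

theorem Ph_mem (G : AGeo d k Γ X) {i l : ℕ} {a : E d} (ha : a ∈ Ph G 1 i l) : a ∈ Sp G 0 l :=
  Submodule.subset_span (Ph_mono G 1 (Nat.zero_le i) ha)

/-- an isometry that commutes with the reflections of an irreducible set is `± 1` on its span -/
theorem scal_of_comm {Φ : Set (E d)} (hn : ∀ a ∈ Φ, ‖a‖ = 1) (hirr : IrrRS Φ)
    (A : E d ≃ₗᵢ[ℝ] E d) (hc : ∀ a ∈ Φ, A (sref a a) = sref a (A a)) :
    ∃ δ : ℝ, (δ = 1 ∨ δ = -1) ∧ ∀ v ∈ Submodule.span ℝ Φ, A v = δ • v := by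
  have h1 : ∀ a ∈ Φ, A a = a ∨ A a = -a := by
    intro a ha
    have h2 := hc a ha
    have haa : ⟪a, a⟫ = (1 : ℝ) := by
      rw [real_inner_self_eq_norm_sq, hn a ha]; norm_num
    rw [sref_self (hn a ha), map_neg] at h2
    have h3 : A a = ⟪a, A a⟫ • a := by
      have h4 : (2 : ℝ) • A a = (2 : ℝ) • (⟪a, A a⟫ • a) := by
        have h5 : sref a (A a) = A a - (2 * ⟪a, A a⟫) • a := rfl
        rw [h5] at h2
        have h6 : A a + A a = (2 * ⟪a, A a⟫) • a := by
          have h7 : A a - (2 * ⟪a, A a⟫) • a + A a = 0 := by rw [← h2]; abel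
          have h8 : A a + A a - (2 * ⟪a, A a⟫) • a = 0 := by rw [← h7]; abel
          exact sub_eq_zero.1 h8
        rw [two_smul, h6, smul_smul]
      exact smul_right_injective (E d) (two_ne_zero) h4
    have h4 : ⟪a, A a⟫ * ⟪a, A a⟫ = (1 : ℝ) := by
      have h5 : ⟪A a, A a⟫ = (1 : ℝ) := by rw [LinearIsometryEquiv.inner_map_map, haa]
      rw [h3, inner_smul_left, inner_smul_right, haa] at h5
      simpa using h5
    rcases mul_self_eq_one_iff.1 h4 with h5 | h5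
    · left; rw [h3, h5, one_smul]
    · right; rw [h3, h5, neg_one_smul]
  let L : Submodule ℝ (E d) :=
    { carrier := {v | A v = v}
      add_mem' := by
        intro a b ha hb
        change A (a + b) = a + b
        rw [map_add, show A a = a from ha, show A b = b from hb]
      zero_mem' := map_zero _
      smul_mem' := by
        intro c a ha
        change A (c • a) = c • a
        rw [map_smul, show A a = a from ha] }
  have hL : ∀ v, v ∈ L ↔ A v = v := fun v => Iff.rfl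
  have h2 : ∀ a ∈ Φ, a ∈ L ∨ a ∈ Lᗮ := by
    intro a ha
    rcases h1 a ha with h | h
    · exact Or.inl h
    · right
      rw [Submodule.mem_orthogonal]
      intro v hv
      have h3 : ⟪A v, A a⟫ = ⟪v, a⟫ := LinearIsometryEquiv.inner_map_map A v a
      rw [(hL v).1 hv, h, inner_neg_right] at h3
      linarith
  rcases hirr L h2 with h3 | h3
  · refine ⟨1, Or.inl rfl, fun v hv => ?_⟩
    have h4 : Submodule.span ℝ Φ ≤ L := Submodule.span_le.2 h3
    rw [one_smul]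
    exact h4 hv
  · refine ⟨-1, Or.inr rfl, fun v hv => ?_⟩
    induction hv using Submodule.span_induction with
    | mem a ha =>
      rcases h1 a ha with h | h
      · exfalso
        have h4 := (Submodule.mem_orthogonal _ _).1 (h3 a ha) a h
        rw [real_inner_self_eq_norm_sq, hn a ha] at h4
        norm_num at h4
      · rw [h, neg_one_smul]
    | zero => rw [map_zero, smul_zero]
    | add x y _ _ hx hy => rw [map_add, hx, hy, smul_add]
    | smul c x _ hx => rw [map_smul, hx, smul_comm]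

theorem mem_up_of_TT (G : AGeo d k Γ X) {i l : ℕ} (h : i ≤ l) {x : Γ} (hx : x ∈ TT G i l) :
    x ∈ G.up i := by
  obtain ⟨γ, hγ, rfl⟩ := hx
  exact mul_mem (mul_mem hγ (G.ρ_mem_up h)) (inv_mem hγ)

/-- `RI (ρ j)` is `± 1` on `Sp G i l` for `i ≥ j + 2` -/
theorem scal_Sp (G : AGeo d k Γ X) {l : ℕ} {RI : Γ → (E d ≃ₗᵢ[ℝ] E d)} (hE : IsExt G l RI)
    {i j : ℕ} (hij : j + 2 ≤ i) (hil : i ≤ l) (hT : TopI G l 1 i) :
    ∃ δ : ℝ, (δ = 1 ∨ δ = -1) ∧ ∀ v ∈ Sp G i l, RI (G.ρ j) v = δ • v := by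
  refine scal_of_comm (Φ := Ph G 1 i l) (fun a ha => ha.1) hT.irr (RI (G.ρ j)) ?_
  intro a ha
  obtain ⟨h1, x, hx, hxa⟩ := ha
  have hxN : x ∈ G.N := (hT.TN hx).1
  have h2 := hE.conj (G.ρ j) x hxN a (Ph_mem G ⟨h1, x, hx, hxa⟩)
  have h3 : G.ρ j * x * (G.ρ j)⁻¹ = x := by
    rw [G.comm_up hij (mem_up_of_TT G hil hx), mul_inv_cancel_right]
  rw [h3, hxa, hxa] at h2
  exact h2

theorem RI_one (G : AGeo d k Γ X) {l : ℕ} {RI : Γ → (E d ≃ₗᵢ[ℝ] E d)} (hE : IsExt G l RI) :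
    RI 1 = 1 := by
  have h := hE.mul 1 1
  rw [one_mul] at h
  exact mul_eq_left.1 h.symm

theorem RI_invol (G : AGeo d k Γ X) {l : ℕ} {RI : Γ → (E d ≃ₗᵢ[ℝ] E d)} (hE : IsExt G l RI)
    (j : ℕ) (v : E d) : RI (G.ρ j) (RI (G.ρ j) v) = v := by
  have h : RI (G.ρ j) * RI (G.ρ j) = 1 := by
    rw [← hE.mul, G.sq, RI_one G hE]
  exact congrArg (fun e : E d ≃ₗᵢ[ℝ] E d => e v) h

end RED4

open RED4

theorem t_RED4 : M_RED4 := by
  intro hSTEP hTI hTW hMIR hDIR hPSI d k Γ _ X _ _ G l hA e0 hRE hRV RI hE b0 hB0 b hB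
  obtain ⟨hpsi1, hpsi2⟩ := hPSI d k Γ X G l hA RI hE b0 hB0
  have hl5 := hA.l5
  have hld := hA.ld
  have hTop : ∀ i, 1 ≤ i → i ≤ l → TopI G l 1 i := fun i h1 h2 => hTI d k Γ X G l hA 1 i h1 h2
  have hpres : ∀ j i v, i ≠ j + 1 → v ∈ Sp G 0 l → v ∈ G.V 1 i → RI (G.ρ j) v ∈ G.V 1 i := by
    intro j i v hij hv hvi
    have h1 := (hpsi2 (G.ρ j) i v hv).2 hvi
    have h2 : G.V (1 * G.ρ j) i = G.V 1 i := by
      rcases Nat.lt_or_ge j i with h | h
      · exact G.V_frame_dn (j := j + 1) (G.ρ_mem_dn (Nat.lt_succ_self j)) (by omega)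
      · exact G.V_frame_up (G.ρ_mem_up h)
    rw [one_mul] at h2
    rw [← h2]
    exact h1
  have he0 : ⟪e0, e0⟫ = (1 : ℝ) := by
    rw [real_inner_self_eq_norm_sq, hRE.norm]; norm_num
  -- decomposition with respect to `e0`
  have hperp : ∀ w : E d, w - ⟪e0, w⟫ • e0 ∈ Sp G 0 l := by
    intro w
    rw [hRE.I, Submodule.mem_orthogonal_singleton_iff_inner_right, inner_sub_right,
      inner_smul_right, he0, mul_one, sub_self]
  have hIe : ∀ w ∈ Sp G 0 l, ⟪e0, w⟫ = (0 : ℝ) := by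
    intro w hw
    rw [hRE.I, Submodule.mem_orthogonal_singleton_iff_inner_right] at hw
    exact hw
  refine ⟨?_, ?_, hpres, ?_⟩
  · -- `ρ 0`
    obtain ⟨δ, hδ, h1⟩ := scal_Sp G hE (i := 2) (j := 0) (by omega) (by omega)
      (hTop 2 (by omega) (by omega))
    refine ⟨δ, hδ, fun v hv hvt => h1 v ?_⟩
    rw [hRV.Sp 2 (by omega) (by omega)]
    refine Submodule.mem_inf.2 ⟨?_, hv⟩
    have hf := hRV.dimV 2 (by omega) (by omega)
    have hf1 : Module.finrank ℝ (G.V 1 2 ⊓ Sp G 0 l : Submodule ℝ (E d)) = 1 := by omega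
    have ht : b (G.ρ 0) ∈ (G.V 1 2 ⊓ Sp G 0 l : Submodule ℝ (E d)) := ⟨hB.V, hB.mem _⟩
    have ht0 : (⟨b (G.ρ 0), ht⟩ : (G.V 1 2 ⊓ Sp G 0 l : Submodule ℝ (E d))) ≠ 0 := by
      intro h
      exact hB.ne (congrArg Subtype.val h)
    have h3 := (finrank_eq_one_iff_of_nonzero' _ ht0).1 hf1
    rw [Submodule.mem_orthogonal]
    intro w hw
    obtain ⟨c, hc⟩ := h3 ⟨w, hw⟩
    have hc' : c • b (G.ρ 0) = w := congrArg Subtype.val hc
    rw [← hc', inner_smul_left, hvt, mul_zero]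
  · -- `ρ 1`
    obtain ⟨δ, hδ, h1⟩ := scal_Sp G hE (i := 3) (j := 1) (by omega) (by omega)
      (hTop 3 (by omega) (by omega))
    refine ⟨δ, hδ, fun v hv hv3 => h1 v ?_⟩
    rw [hRV.Sp 3 (by omega) (by omega)]
    exact ⟨hv3, hv⟩
  · -- moves
    intro j hj hjd
    by_contra hcon
    push Not at hcon
    have hcon' : ∀ v ∈ Sp G 0 l, v ∈ G.V 1 (j + 1) → RI (G.ρ j) v ∈ G.V 1 (j + 1) :=
      fun v h1 h2 => hcon v h1 h2
    rcases Nat.lt_or_ge l (j + 1) with hlj | hlj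
    · -- `l < j + 1`: the third part of STEP
      have hst := (hSTEP d k Γ X G 1).2.2.1 j hj (hA.nz (j + 1) (by omega) (by omega))
      apply hst
      rw [one_mul]
      have he1 : e0 ∈ G.V 1 (j + 1) := by
        intro n hn
        exact hRE.up n (G.up_anti (by omega) hn.2)
      have he2 : e0 ∈ G.V (G.ρ j) (j + 1) := by
        intro n hn
        have h1 : G.R (1 * G.ρ j) n = G.R 1 (G.ρ j * n * (G.ρ j)⁻¹) := G.R_mul_right 1 (G.ρ j) n
        rw [one_mul] at h1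
        rw [h1]
        apply hRE.up
        have h2 : G.ρ j ∈ G.up (l - 2) := G.ρ_mem_up (by omega)
        exact mul_mem (mul_mem h2 (G.up_anti (by omega) hn.2)) (inv_mem h2)
      apply le_antisymm
      · intro v hv
        have e : v = (v - ⟪e0, v⟫ • e0) + ⟪e0, v⟫ • e0 := by abel
        have hw : v - ⟪e0, v⟫ • e0 ∈ G.V (G.ρ j) (j + 1) :=
          Submodule.sub_mem _ hv (Submodule.smul_mem _ _ he2)
        have hwI := hperp v
        rw [e]
        refine Submodule.add_mem _ ?_ (Submodule.smul_mem _ _ he1)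
        generalize v - ⟪e0, v⟫ • e0 = w at hw hwI ⊢
        have hv1 : RI (G.ρ j) w ∈ G.V 1 (j + 1) := by
          have h3 := hpsi2 (G.ρ j) (j + 1) (RI (G.ρ j) w) (hE.pres _ _ hwI)
          rw [RI_invol G hE] at h3
          exact h3.1 hw
        have h4 := hcon' _ (hE.pres _ _ hwI) hv1
        rw [RI_invol G hE] at h4
        exact h4
      · intro v hv
        have e : v = (v - ⟪e0, v⟫ • e0) + ⟪e0, v⟫ • e0 := by abel
        have hw : v - ⟪e0, v⟫ • e0 ∈ G.V 1 (j + 1) :=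
          Submodule.sub_mem _ hv (Submodule.smul_mem _ _ he1)
        have hwI := hperp v
        rw [e]
        refine Submodule.add_mem _ ?_ (Submodule.smul_mem _ _ he2)
        generalize v - ⟪e0, v⟫ • e0 = w at hw hwI ⊢
        have h4 := hcon' w hwI hw
        have h3 := hpsi2 (G.ρ j) (j + 1) (RI (G.ρ j) w) (hE.pres _ _ hwI)
        rw [RI_invol G hE] at h3
        exact h3.2 h4
    · -- `j + 1 ≤ l`: S_TW
      have htw := (hTW d k Γ X G l hA (j + 1) (by omega) hlj).2 (by omega)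
      apply htw
      rw [Nat.add_sub_cancel]
      intro x hx a ha
      have hT1 := hTop (j + 1) (by omega) hlj
      have hxN : x ∈ G.Ni (j + 1) := hT1.TN hx
      have hc : G.ρ j * x * G.ρ j = G.ρ j * x * (G.ρ j)⁻¹ := by rw [G.inv_ρ]
      have hcT : G.ρ j * x * G.ρ j ∈ TT G 0 l := by
        obtain ⟨γ, hγ, rfl⟩ := hx
        refine ⟨G.ρ j * γ, G.mem_up_zero _, ?_⟩
        rw [mul_inv_rev, G.inv_ρ]
        simp only [mul_assoc]
      have hw := G.F_mem_V 1 ha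
      generalize G.F 1 (a • G.x0) = w at hw ⊢
      have hwI := hperp w
      -- the `I`-component is in `V 1 (j + 1)`
      have hwV : w - ⟪e0, w⟫ • e0 ∈ G.V 1 (j + 1) := by
        intro n hn
        have h1 := hw n hn
        have h2 : ⟪e0, w⟫ • G.R 1 n e0 = ⟪e0, w⟫ • e0 := by
          rcases hRE.N n hn.1 with h | h
          · rw [h]
          · have h3 : ⟪e0, w⟫ = (0 : ℝ) := by
              have h4 : ⟪G.R 1 n e0, G.R 1 n w⟫ = ⟪e0, w⟫ := LinearIsometryEquiv.inner_map_map _ _ _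
              rw [h, h1, inner_neg_left] at h4
              linarith
            rw [h3, zero_smul, zero_smul]
        rw [map_sub, map_smul, h1, h2]
      have e : w = (w - ⟪e0, w⟫ • e0) + ⟪e0, w⟫ • e0 := by abel
      have key : G.R 1 (G.ρ j * x * G.ρ j) (w - ⟪e0, w⟫ • e0) = w - ⟪e0, w⟫ • e0 := by
        generalize w - ⟪e0, w⟫ • e0 = z at hwI hwV ⊢
        have h5 := hcon' z hwI hwV
        have h6 := hE.conj (G.ρ j) x hxN.1 (RI (G.ρ j) z) (hE.pres _ _ hwI)
        rw [RI_invol G hE, ← hc, h5 x hxN, RI_invol G hE] at h6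
        exact h6.symm
      calc G.R 1 (G.ρ j * x * G.ρ j) w
          = G.R 1 (G.ρ j * x * G.ρ j) ((w - ⟪e0, w⟫ • e0) + ⟪e0, w⟫ • e0) := by rw [← e]
        _ = w := by rw [map_add, map_smul, key, hRE.T _ hcT, ← e]

end

end FOI
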