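import Pool.Agent.FOI.BStmts

/-!
# FOI.SPAN: the translation vectors of `L0` span the space of the reflections (II.10, last part)

`t_SPAN : M_SPAN`. The inclusion of the left side in `Sp G 0 l` is part of `S_CMM`. For the other
inclusion let `a ∈ Ph G 1 0 l`. By `S_INF` the vector `a` is in the span of the translation vectors of
`Lt G`, so it is not orthogonal to all of them, and for `n ∈ Lt G` with `⟪a, tau G n⟫ ≠ 0` the
commutator of `S_CMM` is an element of `L0 G l` with translation vector a nonzero multiple of `a`.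
-/

namespace FOI

open Lib_helper64.FO FO2 FOK
open scoped RealInnerProductSpace Nat

namespace SPAN

/-- a vector in the span of a set that is orthogonal to the set is zero -/
theorem eq_zero_of_perp {d : ℕ} {S : Set (E d)} {a : E d} (ha : a ∈ Submodule.span ℝ S)
    (h : ∀ v ∈ S, ⟪a, v⟫ = 0) : a = 0 := by
  have h1 : ∀ w ∈ Submodule.span ℝ S, ⟪a, w⟫ = 0 := by
    intro w hw
    induction hw using Submodule.span_induction with
    | mem x hx => exact h x hx
    | zero => exact inner_zero_right _
    | add x y _ _ hx hy => rw [inner_add_right, hx, hy, add_zero]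
    | smul c x _ hx => rw [real_inner_smul_right, hx, mul_zero]
  exact inner_self_eq_zero.1 (h1 a ha)

end SPAN

theorem t_SPAN : M_SPAN := by
  intro hMIR hDIR hLAT hCMM hINF d k Γ _ X _ _ G l hA
  have hC := hCMM d k Γ X G l hA
  have hI := hINF d k Γ X G l hA
  apply le_antisymm
  · rw [Submodule.span_le]
    rintro v ⟨n, hn, rfl⟩
    exact hC.2.2.2.1 n hn
  · rw [Sp, Submodule.span_le]
    rintro a ha
    have ha' := ha
    obtain ⟨hna, x, hx, hR⟩ := ha'
    have h1 : a ∈ Submodule.span ℝ {v | ∃ n ∈ Lt G, tau G n = v} :=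
      hI (Submodule.subset_span ha)
    have h2 : ∃ n ∈ Lt G, ⟪a, tau G n⟫ ≠ 0 := by
      by_contra hcon
      push Not at hcon
      have h3 : a = 0 := by
        refine SPAN.eq_zero_of_perp h1 ?_
        rintro v ⟨n, hn, rfl⟩
        exact hcon n hn
      rw [h3, norm_zero] at hna
      exact zero_ne_one hna
    obtain ⟨n, hn, hne⟩ := h2
    obtain ⟨h4, h5⟩ := hC.2.2.2.2 x hx a hR n hn
    have h6 : -(2 * ⟪a, tau G n⟫) • a ∈ Submodule.span ℝ {v | ∃ n ∈ L0 G l, tau G n = v} :=
      Submodule.subset_span ⟨_, h4, h5⟩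
    have h7 : (-(2 * ⟪a, tau G n⟫)) ≠ 0 := neg_ne_zero.2 (mul_ne_zero two_ne_zero hne)
    exact (Submodule.smul_mem_iff _ h7).1 h6

end FOI
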