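import Pool.Agent.FOI.DStmts

/-!
# IV.2: translations in a group of affine isometries given by words
-/

namespace FOI

open Lib_helper64.FO FO2 FOK
open scoped RealInnerProductSpace Nat

noncomputable section

namespace TRN

variable {D m : ℕ} {I : Submodule ℝ (E D)} (h : Fin m → (E D ≃ₗᵢ[ℝ] E D)) (t : Fin m → E D)

/-- the linear part of a word -/
def Hw (w : List (Fin m)) : E D ≃ₗᵢ[ℝ] E D := (w.map h).prod

theorem Hw_nil (v : E D) : Hw h [] v = v := rfl

theorem Hw_cons (j : Fin m) (w : List (Fin m)) (v : E D) : Hw h (j :: w) v = h j (Hw h w v) := by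
  rw [Hw, List.map_cons, List.prod_cons]
  rfl

theorem Hw_append (w w' : List (Fin m)) (v : E D) :
    Hw h (w ++ w') v = Hw h w (Hw h w' v) := by
  rw [Hw, List.map_append, List.prod_append]
  rfl

/-- the affine map of a word -/
def be (w : List (Fin m)) (v : E D) : E D := Hw h w v + bw h t w

theorem be_nil (v : E D) : be h t [] v = v := by
  rw [be, Hw_nil, bw, add_zero]

theorem be_cons (j : Fin m) (w : List (Fin m)) (v : E D) :
    be h t (j :: w) v = h j (be h t w v) + t j := by
  rw [be, Hw_cons, bw, be, map_add, add_assoc]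

theorem be_append (w w' : List (Fin m)) (v : E D) :
    be h t (w ++ w') v = be h t w (be h t w' v) := by
  induction w with
  | nil => rw [List.nil_append, be_nil]
  | cons j w ih => rw [List.cons_append, be_cons, be_cons, ih]

theorem be_zero (w : List (Fin m)) : be h t w 0 = bw h t w := by
  rw [be, map_zero, zero_add]

theorem be_sub (w : List (Fin m)) (x y : E D) : be h t w x - be h t w y = Hw h w (x - y) := by
  rw [be, be, map_sub]
  abel

section mem

variable (hI : ∀ j, ∀ v ∈ I, h j v ∈ I)

include hI in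
theorem Hw_mem (w : List (Fin m)) {v : E D} (hv : v ∈ I) : Hw h w v ∈ I := by
  induction w with
  | nil => exact hv
  | cons j w ih => rw [Hw_cons]; exact hI j _ ih

include hI in
theorem be_mem (ht : ∀ j, t j ∈ I) (w : List (Fin m)) {v : E D} (hv : v ∈ I) :
    be h t w v ∈ I := by
  induction w with
  | nil => rw [be_nil]; exact hv
  | cons j w ih => rw [be_cons]; exact add_mem (hI j _ ih) (ht j)

include hI in
theorem Hw_rev (h2 : ∀ j, ∀ v ∈ I, h j (h j v) = v) (w : List (Fin m)) {v : E D} (hv : v ∈ I) :
    Hw h w.reverse (Hw h w v) = v := by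
  induction w with
  | nil => rfl
  | cons j w ih =>
    rw [List.reverse_cons, Hw_append, Hw_cons, Hw_cons, Hw_nil, h2 j _ (Hw_mem h hI w hv), ih]

include hI in
theorem be_rev (ht : ∀ j, t j ∈ I) (h2 : ∀ j, ∀ v ∈ I, h j (h j v) = v)
    (h3 : ∀ j, h j (t j) = -t j) (w : List (Fin m)) {v : E D} (hv : v ∈ I) :
    be h t w.reverse (be h t w v) = v := by
  induction w with
  | nil => rw [List.reverse_nil, be_nil, be_nil]
  | cons j w ih =>
    rw [List.reverse_cons, be_append, be_cons, be_cons, be_nil, map_add,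
      h2 j _ (be_mem h t hI ht w hv), h3, neg_add_cancel_right, ih]

end mem

/-- the image of a word in `Q` -/
def Pw {Q : Type} [Group Q] (π : Fin m → Q) (w : List (Fin m)) : Q := (w.map π).prod

theorem Pw_append {Q : Type} [Group Q] (π : Fin m → Q) (w w' : List (Fin m)) :
    Pw π (w ++ w') = Pw π w * Pw π w' := by
  rw [Pw, List.map_append, List.prod_append]
  rfl

theorem Pw_single {Q : Type} [Group Q] (π : Fin m → Q) (j : Fin m) : Pw π [j] = π j := by
  rw [Pw, List.map_cons, List.map_nil, List.prod_cons, List.prod_nil, mul_one]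

theorem Pw_rev {Q : Type} [Group Q] (π : Fin m → Q) (hπ : ∀ j, π j * π j = 1)
    (w : List (Fin m)) : Pw π w * Pw π w.reverse = 1 := by
  induction w with
  | nil => rw [List.reverse_nil, Pw, List.map_nil, List.prod_nil, mul_one]
  | cons j w ih =>
    have e : j :: w = [j] ++ w := rfl
    rw [List.reverse_cons, Pw_append, e, Pw_append, Pw_single]
    rw [mul_assoc, ← mul_assoc (Pw π w), ih, one_mul, hπ]

theorem Pw_conj {Q : Type} [Group Q] (π : Fin m → Q) (hπ : ∀ j, π j * π j = 1)
    (w u : List (Fin m)) (hu : Pw π u = 1) : Pw π (w ++ (u ++ w.reverse)) = 1 := by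
  rw [Pw_append, Pw_append, hu, one_mul, Pw_rev π hπ]

theorem map_span {S : Set (E D)} (hS : Submodule.span ℝ S = I) (g : E D ≃ₗᵢ[ℝ] E D)
    (hg : ∀ v ∈ S, g v ∈ S) (v : E D) (hv : v ∈ I) : g v ∈ I := by
  rw [← hS] at hv ⊢
  induction hv using Submodule.span_induction with
  | mem x hx => exact Submodule.subset_span (hg x hx)
  | zero => rw [map_zero]; exact zero_mem _
  | add x y _ _ hx hy => rw [map_add]; exact add_mem hx hy
  | smul c x _ hx => rw [map_smul]; exact Submodule.smul_mem _ c hx

theorem eq_span {S : Set (E D)} (hS : Submodule.span ℝ S = I) (g g' : E D ≃ₗᵢ[ℝ] E D)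
    (hg : ∀ v ∈ S, g v = g' v) (v : E D) (hv : v ∈ I) : g v = g' v := by
  rw [← hS] at hv
  induction hv using Submodule.span_induction with
  | mem x hx => exact hg x hx
  | zero => rw [map_zero, map_zero]
  | add x y _ _ hx hy => rw [map_add, map_add, hx, hy]
  | smul c x _ hx => rw [map_smul, map_smul, hx]

/-- a vector fixed by a reflection is orthogonal to the root -/
theorem inner_of_fix {b x : E D} (hb : ‖b‖ = 1) (hx : sref b x = x) : ⟪b, x⟫ = (0 : ℝ) := by
  rw [sref, sub_eq_self, smul_eq_zero] at hx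
  rcases hx with hx | hx
  · linarith
  · rw [hx, norm_zero] at hb
    norm_num at hb

/-- a finite set that is mapped to itself by an affine isometry contains its centre in the fixed
points -/
theorem avg (P : Finset (E D)) (hP : P.Nonempty) :
    ∃ p : E D, (∀ J : Submodule ℝ (E D), (∀ x ∈ P, x ∈ J) → p ∈ J) ∧
      ∀ (g : E D ≃ₗᵢ[ℝ] E D) (c : E D), (∀ x ∈ P, g x + c ∈ P) → g p + c = p := by
  classical
  have hc : (P.card : ℝ) ≠ 0 := by
    have := hP.card_pos
    positivity
  refine ⟨(P.card : ℝ)⁻¹ • ∑ x ∈ P, x, fun J hJ => ?_, fun g c hg => ?_⟩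
  · exact J.smul_mem _ (J.sum_mem hJ)
  · have hinj : Set.InjOn (fun x => g x + c) (P : Set (E D)) := by
      intro x _ y _ hxy
      exact g.injective (add_right_cancel hxy)
    have him : P.image (fun x => g x + c) = P := by
      apply Finset.eq_of_subset_of_card_le
      · intro y hy
        obtain ⟨x, hx, rfl⟩ := Finset.mem_image.1 hy
        exact hg x hx
      · rw [Finset.card_image_of_injOn hinj]
    have h1 : ∑ x ∈ P, (g x + c) = ∑ x ∈ P, x := by
      conv_rhs => rw [← him]
      rw [Finset.sum_image hinj]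
    rw [Finset.sum_add_distrib, Finset.sum_const, ← map_sum] at h1
    rw [map_smul]
    have h2 : c = (P.card : ℝ)⁻¹ • (P.card • c) := by
      rw [← Nat.cast_smul_eq_nsmul ℝ, smul_smul, inv_mul_cancel₀ hc, one_smul]
    conv_lhs => rw [h2]
    rw [← smul_add, h1]

end TRN

open TRN in
theorem t_TRN : S_TRN := by
  intro D m I h t Q _ π l a S Ψ hSf hSs hS ht h2 h3 hπ hπl htl ha haI hl hirr hΨ hroot hfix
  classical
  have hI : ∀ j, ∀ v ∈ I, h j v ∈ I := fun j v hv => map_span hSs (h j) (hS j) v hv
  -- the words over the reflections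
  have hrefl : ∀ w : List (Fin m), ∀ v ∈ I,
      Hw h (w ++ ([l] ++ w.reverse)) v = sref (Hw h w a) v := by
    intro w v hv
    have hv' := Hw_mem h hI w.reverse hv
    rw [Hw_append, Hw_append, Hw_cons, Hw_nil, hl _ hv', map_sref]
    have := Hw_rev h hI h2 w.reverse hv
    rw [List.reverse_reverse] at this
    rw [this]
  have hreflP : ∀ w : List (Fin m), Pw π (w ++ ([l] ++ w.reverse)) = 1 := fun w =>
    Pw_conj π hπ w [l] (by rw [Pw_single, hπl])
  have hnorm : ∀ w : List (Fin m), ‖Hw h w a‖ = 1 := fun w => by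
    rw [LinearIsometryEquiv.norm_map, ha]
  -- there is a translation
  have hex : ∃ u : List (Fin m), Pw π u = 1 ∧ (∀ v ∈ I, Hw h u v = v) ∧ bw h t u ≠ 0 := by
    by_contra hcon
    push Not at hcon
    have hSw : ∀ (w : List (Fin m)), ∀ v ∈ S, Hw h w v ∈ S := by
      intro w
      induction w with
      | nil => exact fun v hv => hv
      | cons j w ih => exact fun v hv => by rw [Hw_cons]; exact hS j _ (ih v hv)
    let lin : List (Fin m) → (S → S) := fun w v => ⟨Hw h w v.1, hSw w v.1 v.2⟩
    have hlin : ∀ u u', Pw π u = 1 → Pw π u' = 1 → lin u = lin u' → bw h t u' = bw h t u := by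
      intro u u' hu hu' he
      have h4 : ∀ v ∈ I, Hw h u' v = Hw h u v := by
        intro v hv
        refine eq_span hSs _ _ (fun x hx => ?_) v hv
        have := congrFun he ⟨x, hx⟩
        exact (congrArg Subtype.val this).symm
      have h5 : bw h t (u.reverse ++ u') = 0 := by
        apply hcon
        · have := Pw_rev π hπ u
          rw [hu, one_mul] at this
          rw [Pw_append, this, hu', one_mul]
        · intro v hv
          rw [Hw_append, h4 v hv, Hw_rev h hI h2 u hv]
      rw [← be_zero, be_append] at h5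
      have h6 := be_rev h t hI ht h2 h3 u.reverse (be_mem h t hI ht u' (zero_mem I))
      rw [List.reverse_reverse, h5, be_zero, be_zero] at h6
      exact h6.symm
    have hSf' : Finite S := hSf
    have hfin : {p | ∃ u, Pw π u = 1 ∧ bw h t u = p}.Finite := by
      refine (Set.finite_range fun f : S → S =>
        if hf : ∃ u, Pw π u = 1 ∧ lin u = f then bw h t hf.choose else 0).subset ?_
      rintro _ ⟨u, hu, rfl⟩
      refine ⟨lin u, ?_⟩
      have hf : ∃ u', Pw π u' = 1 ∧ lin u' = lin u := ⟨u, hu, rfl⟩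
      show (if hf : ∃ u', Pw π u' = 1 ∧ lin u' = lin u then bw h t hf.choose else 0) = _
      rw [dif_pos hf]
      exact hlin u _ hu hf.choose_spec.1 hf.choose_spec.2.symm
    obtain ⟨p, hp1, hp2⟩ := avg hfin.toFinset ⟨0, by
      rw [Set.Finite.mem_toFinset]
      exact ⟨[], rfl, rfl⟩⟩
    have hpI : p ∈ I := by
      apply hp1
      intro x hx
      rw [Set.Finite.mem_toFinset] at hx
      obtain ⟨u, -, rfl⟩ := hx
      rw [← be_zero]
      exact be_mem h t hI ht u (zero_mem I)
    have hpu : ∀ u, Pw π u = 1 → be h t u p = p := by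
      intro u hu
      apply hp2 (Hw h u) (bw h t u)
      intro x hx
      rw [Set.Finite.mem_toFinset] at hx ⊢
      obtain ⟨u', hu', rfl⟩ := hx
      refine ⟨u ++ u', by rw [Pw_append, hu, hu', one_mul], ?_⟩
      rw [← be_zero, be_append, be_zero]
      rfl
    obtain ⟨j, hj⟩ := hfix p hpI
    apply hj
    have hq : be h t [j] p = h j p + t j := by rw [be_cons, be_nil]
    have hqI : be h t [j] p ∈ I := be_mem h t hI ht _ hpI
    -- the image of `p` is fixed
    have hqu : ∀ u, Pw π u = 1 → be h t u (be h t [j] p) = be h t [j] p := by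
      intro u hu
      have h4 := hpu ([j] ++ (u ++ [j].reverse)) (Pw_conj π hπ [j] u hu)
      rw [be_append, be_append, List.reverse_singleton] at h4
      have h5 := be_rev h t hI ht h2 h3 [j] (be_mem h t hI ht u hqI)
      rw [List.reverse_singleton, h4] at h5
      exact h5.symm
    have hd : ∀ b ∈ Ψ, ⟪b, be h t [j] p - p⟫ = (0 : ℝ) := by
      intro b hb
      have h4 : ∀ w, ⟪Hw h w a, be h t [j] p - p⟫ = (0 : ℝ) := by
        intro w
        apply inner_of_fix (hnorm w)
        rw [← hrefl w _ (sub_mem hqI hpI), ← be_sub h t, hqu _ (hreflP w), hpu _ (hreflP w)]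
      obtain ⟨w, hw | hw⟩ := hroot b hb
      · rw [hw]
        exact h4 w
      · rw [hw, inner_neg_left]
        exact neg_eq_zero.2 (h4 w)
    have h6 : be h t [j] p - p ∈ Iᗮ := by
      rw [← hΨ, Submodule.mem_orthogonal]
      intro x hx
      induction hx using Submodule.span_induction with
      | mem x hx => exact hd x hx
      | zero => exact inner_zero_left _
      | add x y _ _ hx hy => rw [inner_add_left, hx, hy, add_zero]
      | smul c x _ hx => rw [inner_smul_left, hx, mul_zero]
    have h7 : be h t [j] p - p = 0 := by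
      have := Submodule.inner_right_of_mem_orthogonal (sub_mem hqI hpI) h6
      exact inner_self_eq_zero.1 this
    rw [← hq]
    exact sub_eq_zero.1 h7
  -- the span
  set T : Submodule ℝ (E D) := Submodule.span ℝ {τ | ∃ w : List (Fin m), (w.map π).prod = 1 ∧
      (∀ v ∈ I, (w.map h).prod v = v) ∧ bw h t w = τ} with hT
  have hTI : T ≤ I := by
    rw [hT, Submodule.span_le]
    rintro _ ⟨w, -, -, rfl⟩
    rw [← be_zero]
    exact be_mem h t hI ht w (zero_mem I)
  have hinv : ∀ w : List (Fin m), ∀ v ∈ T, Hw h w v ∈ T := by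
    intro w v hv
    rw [hT] at hv ⊢
    induction hv using Submodule.span_induction with
    | mem x hx =>
      obtain ⟨u, hu1, hu2, rfl⟩ := hx
      have hu2' : ∀ v ∈ I, Hw h u v = v := hu2
      apply Submodule.subset_span
      refine ⟨w ++ (u ++ w.reverse), Pw_conj π hπ w u hu1, ?_, ?_⟩
      · intro v hv
        show Hw h (w ++ (u ++ w.reverse)) v = v
        rw [Hw_append, Hw_append, hu2' _ (Hw_mem h hI w.reverse hv)]
        have := Hw_rev h hI h2 w.reverse hv
        rwa [List.reverse_reverse] at this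
      · have h4 := be_mem h t hI ht w.reverse (zero_mem I)
        have h5 := be_rev h t hI ht h2 h3 w.reverse (zero_mem I)
        rw [List.reverse_reverse] at h5
        have h6 : be h t u (be h t w.reverse 0) = be h t w.reverse 0 + bw h t u := by
          rw [be, hu2' _ h4]
        rw [← be_zero, be_append, be_append, h6]
        have h7 := be_sub h t w (be h t w.reverse 0 + bw h t u) (be h t w.reverse 0)
        rw [h5, sub_zero, add_sub_cancel_left] at h7
        exact h7
    | zero => rw [map_zero]; exact zero_mem _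
    | add x y _ _ hx hy => rw [map_add]; exact add_mem hx hy
    | smul c x _ hx => rw [map_smul]; exact Submodule.smul_mem _ c hx
  have hsr : ∀ b ∈ Ψ, ∀ v ∈ T, sref b v ∈ T := by
    intro b hb v hv
    obtain ⟨w, hw | hw⟩ := hroot b hb
    · have := hinv (w ++ ([l] ++ w.reverse)) v hv
      rw [hrefl w v (hTI hv)] at this
      rw [hw]
      exact this
    · have := hinv (w ++ ([l] ++ w.reverse)) v hv
      rw [hrefl w v (hTI hv)] at this
      rw [hw, sref_neg]
      exact this
  have hdich : ∀ b ∈ Ψ, b ∈ T ∨ b ∈ Tᗮ := by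
    intro b hb
    by_cases h4 : ∃ v ∈ T, ⟪b, v⟫ ≠ (0 : ℝ)
    · left
      obtain ⟨v, hv, h5⟩ := h4
      have h6 := sub_mem hv (hsr b hb v hv)
      rw [sref, sub_sub_cancel] at h6
      have h7 : (2 * ⟪b, v⟫ : ℝ) ≠ 0 := mul_ne_zero two_ne_zero h5
      exact (Submodule.smul_mem_iff _ h7).1 h6
    · right
      push Not at h4
      rw [Submodule.mem_orthogonal]
      intro v hv
      rw [real_inner_comm]
      exact h4 v hv
  apply le_antisymm hTI
  rcases hirr T hdich with h4 | h4
  · rw [← hΨ, Submodule.span_le]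
    exact h4
  · exfalso
    have h5 : I ≤ Tᗮ := by
      rw [← hΨ, Submodule.span_le]
      exact h4
    obtain ⟨u, hu1, hu2, hu3⟩ := hex
    have h6 : bw h t u ∈ T := Submodule.subset_span ⟨u, hu1, hu2, rfl⟩
    have h7 := Submodule.inner_right_of_mem_orthogonal h6 (h5 (hTI h6))
    exact hu3 (inner_self_eq_zero.1 h7)

end

end FOI
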