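import Pool.Agent.FOI.UDefs
import Pool.Agent.FOI.DStmts
import Pool.Agent.FOI.AOf
import Pool.Agent.FOK.QAS

/-!
# The unified statement: words, models, the count for an arbitrary regular polytope
-/

namespace FOI

open Lib_helper64.FO FO2 FOK
open scoped RealInnerProductSpace

noncomputable section

/-! ### words -/

theorem wa_nil {m : ℕ} {α : Type} (φ : Fin m → α → α) (x : α) : wa φ [] x = x := rfl

theorem wa_cons {m : ℕ} {α : Type} (φ : Fin m → α → α) (j : Fin m) (w : List (Fin m)) (x : α) :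
    wa φ (j :: w) x = φ j (wa φ w x) := rfl

theorem wa_rho {d : ℕ} {P : Type} [PartialOrder P] (ρ : Fin d → (P ≃o P)) (w : List (Fin d))
    (F0 : P) : wa (fun j => ρ j) w F0 = (w.map ρ).prod F0 := by
  induction w with
  | nil => rfl
  | cons j w ih =>
    rw [wa_cons, ih, List.map_cons, List.prod_cons]
    rfl

theorem wa_pi {d : ℕ} {A : Type} (π : Fin d → Equiv.Perm A) (w : List (Fin d)) (a : A) :
    wa (fun j => π j) w a = (w.map π).prod a := by
  induction w with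
  | nil => rfl
  | cons j w ih =>
    rw [wa_cons, ih, List.map_cons, List.prod_cons]
    rfl

theorem wa_g {d D : ℕ} (g : ℕ → (E D ≃ₗᵢ[ℝ] E D)) (w : List (Fin d)) (y : E D) :
    wa (fun j : Fin d => g j) w y = (w.map fun j : Fin d => g j).prod y := by
  induction w with
  | nil => rfl
  | cons j w ih =>
    rw [wa_cons, ih, List.map_cons, List.prod_cons]
    rfl

theorem wa_bI {d : ℕ} (s0 : ℤˣ) (g : ℕ → (E d ≃ₗᵢ[ℝ] E d)) (l : ℝ) (y : E d)
    (w : List (Fin d)) :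
    wa (bI s0 g (l • y)) w 0 = wI s0 g (l • (y - sg s0 • g 0 y)) w := by
  induction w with
  | nil => rfl
  | cons j w ih =>
    rw [wa_cons, ih]
    by_cases h : j.val = 0
    · have e : (j : ℕ) = 0 := h
      simp only [bI, wI, h, if_true, abt, sgI, map_sub, map_smul]
      module
    · simp only [bI, wI, h, if_false, add_zero]

theorem wa_bR {d : ℕ} (b : Bool) (s1 : ℤˣ) (g : ℕ → (E d ≃ₗᵢ[ℝ] E d)) (l : ℝ) (y : E d)
    (hy : b = true → ‖y‖ = 1) (w : List (Fin d)) :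
    wa (bR b s1 g y (l • y)) w 0 = wR b s1 g y ((2 * l) • y) w := by
  induction w with
  | nil => rfl
  | cons j w ih =>
    rw [wa_cons, ih]
    by_cases h : j.val = 0
    · simp only [bR, wR, h, if_true, abt]
      cases b with
      | true =>
        have h1 : ⟪y, y⟫ = (1 : ℝ) := by rw [real_inner_self_eq_norm_sq, hy rfl]; norm_num
        simp only [if_true, sref, inner_sub_right, inner_smul_right, h1]
        module
      | false =>
        simp only [Bool.false_eq_true, if_false]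
        module
    · simp only [bR, wR, h, if_false]

/-! ### facts on the models -/

theorem mod_gg {D n : ℕ} {ε : ℝ} {I : Submodule ℝ (E D)} {y : E D} {g : ℕ → (E D ≃ₗᵢ[ℝ] E D)}
    (hn : 2 ≤ n) (h : LinModel n ε I y g) : g 0 (g 0 y) = y := by
  obtain ⟨-, h | h | h⟩ := h
  · obtain ⟨v, -, -, rfl, hg⟩ := h
    have := hg ⟨0, by omega⟩
    simp only at this
    rw [this, this, Equiv.swap_apply_self]
  · obtain ⟨u, -, -, rfl, hg⟩ := h
    rw [map_sum, map_sum]
    refine Finset.sum_congr rfl fun i _ => ?_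
    have := hg ⟨0, by omega⟩
    simp only [if_true] at this
    by_cases hi : i = ⟨0, by omega⟩
    · rw [this, if_pos hi, map_neg, this, if_pos hi, neg_neg]
    · rw [this, if_neg hi, this, if_neg hi]
  · obtain ⟨u, -, -, hy, hg⟩ := h
    rw [hy (by omega)]
    have h0 : (0 : ℕ) + 1 < n := by omega
    have := hg ⟨0, by omega⟩
    simp only [h0, dif_pos, zero_ne_one, false_and, if_false] at this
    rw [this, this, Equiv.swap_apply_self]

theorem mod_ne {D n : ℕ} {ε : ℝ} {I : Submodule ℝ (E D)} {y : E D} {g : ℕ → (E D ≃ₗᵢ[ℝ] E D)}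
    (hn : 2 ≤ n) (h : LinModel n ε I y g) (s : ℤˣ) : y - sg s • g 0 y ≠ 0 := by
  have hs : sg s = 1 ∨ sg s = -1 := by
    rcases Int.units_eq_one_or s with rfl | rfl <;> simp [sg]
  obtain ⟨-, h | h | h⟩ := h
  · obtain ⟨v, -, hv, rfl, hg⟩ := h
    have h1 := hg ⟨0, by omega⟩ 0
    have e1 : Equiv.swap (⟨0, by omega⟩ : Fin n).castSucc (⟨0, by omega⟩ : Fin n).succ 0 = 1 := by
      have e2 : (0 : Fin (n + 1)) = (⟨0, by omega⟩ : Fin n).castSucc := rfl
      rw [e2, Equiv.swap_apply_left]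
      ext
      simp
      rw [Nat.mod_eq_of_lt (by omega)]
    rw [e1] at h1
    change g 0 (v 0) = v 1 at h1
    rw [h1]
    intro h2
    have h3 : ⟪v 0, v 0 - sg s • v 1⟫ = (0 : ℝ) := by rw [h2, inner_zero_right]
    have hne : (0 : Fin (n + 1)) ≠ 1 := by
      intro e
      have := congrArg Fin.val e
      simp at this
      omega
    rw [inner_sub_right, inner_smul_right, hv, hv, if_pos rfl, if_neg hne] at h3
    have hn' : (2 : ℝ) ≤ n := by exact_mod_cast hn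
    have hn0 : (n : ℝ) ≠ 0 := by linarith
    rcases hs with e | e <;> rw [e] at h3 <;> field_simp at h3 <;> linarith
  · obtain ⟨u, -, hu, rfl, hg⟩ := h
    have h0 := hg ⟨0, by omega⟩
    simp only [if_true] at h0
    intro h2
    have h3 : ∀ i, ⟪u i, ∑ i, u i - sg s • g 0 (∑ i, u i)⟫ = (0 : ℝ) := fun i => by
      rw [h2, inner_zero_right]
    have h4 : ∀ i, ⟪u i, ∑ j, u j⟫ = (1 : ℝ) := by
      intro i
      rw [inner_sum]
      simp [orthonormal_iff_ite.1 hu]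
    have h5 : ∀ i, ⟪u i, g 0 (∑ j, u j)⟫ = if i = ⟨0, by omega⟩ then (-1 : ℝ) else 1 := by
      intro i
      rw [map_sum, inner_sum]
      rw [Finset.sum_eq_single i]
      · rw [h0]
        by_cases hi : i = ⟨0, by omega⟩
        · rw [if_pos hi, if_pos hi, inner_neg_right, orthonormal_iff_ite.1 hu, if_pos rfl]
        · rw [if_neg hi, if_neg hi, orthonormal_iff_ite.1 hu, if_pos rfl]
      · intro j _ hj
        rw [h0]
        by_cases hj' : j = ⟨0, by omega⟩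
        · rw [if_pos hj', inner_neg_right, orthonormal_iff_ite.1 hu, if_neg hj.symm, neg_zero]
        · rw [if_neg hj', orthonormal_iff_ite.1 hu, if_neg hj.symm]
      · intro h
        exact absurd (Finset.mem_univ _) h
    have h6 := h3 ⟨0, by omega⟩
    have h7 := h3 ⟨1, by omega⟩
    rw [inner_sub_right, inner_smul_right, h4, h5, if_pos rfl] at h6
    rw [inner_sub_right, inner_smul_right, h4, h5, if_neg (by
      intro e
      have := congrArg Fin.val e
      simp at this)] at h7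
    linarith
  · obtain ⟨u, -, hu, hy, hg⟩ := h
    have h0 : (0 : ℕ) + 1 < n := by omega
    have h1 := hg ⟨0, by omega⟩ ⟨0, by omega⟩
    simp only [h0, dif_pos, zero_ne_one, false_and, if_false, Equiv.swap_apply_left] at h1
    rw [hy (by omega), h1]
    intro h2
    have h3 : ⟪u ⟨0, by omega⟩, u ⟨0, by omega⟩ - sg s • u ⟨0 + 1, h0⟩⟫ = (0 : ℝ) := by
      rw [h2, inner_zero_right]
    rw [inner_sub_right, inner_smul_right, orthonormal_iff_ite.1 hu, orthonormal_iff_ite.1 hu,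
      if_pos rfl, if_neg (by
        intro e
        have := congrArg Fin.val e
        simp at this)] at h3
    linarith

theorem mod_y_ne {D n : ℕ} {ε : ℝ} {I : Submodule ℝ (E D)} {y : E D}
    {g : ℕ → (E D ≃ₗᵢ[ℝ] E D)} (hn : 2 ≤ n) (h : LinModel n ε I y g) : y ≠ 0 := by
  intro e
  apply mod_ne hn h 1
  rw [e, map_zero, smul_zero, sub_zero]

theorem cro_norm {D n : ℕ} {ε : ℝ} {I : Submodule ℝ (E D)} {y : E D}
    {g : ℕ → (E D ≃ₗᵢ[ℝ] E D)} (hn : 1 ≤ n) (h : CroM n ε I y g) : ‖y‖ = 1 := by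
  obtain ⟨u, -, hu, hy, -⟩ := h
  rw [hy hn]
  exact hu.1 _

/-- the translation vector in the first affine kind -/
theorem exists_l {D n : ℕ} {ε : ℝ} {I : Submodule ℝ (E D)} {y t : E D} {s0 : ℤˣ}
    {g : ℕ → (E D ≃ₗᵢ[ℝ] E D)} (hn : 2 ≤ n) (h : LinModel n ε I y g) (ht : t ≠ 0)
    (hsp : t ∈ Submodule.span ℝ {y, g 0 y}) (hg : sg s0 • g 0 t = -t) :
    ∃ l : ℝ, l ≠ 0 ∧ t = l • (y - sg s0 • g 0 y) := by
  have hgg := mod_gg hn h
  have hs : sg s0 * sg s0 = 1 := by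
    rcases Int.units_eq_one_or s0 with rfl | rfl <;> simp [sg]
  obtain ⟨α, β, rfl⟩ := Submodule.mem_span_pair.1 hsp
  -- `2 t = t - s g t`
  have h1 : (2 : ℝ) • (α • y + β • g 0 y) =
      (α - sg s0 * β) • (y - sg s0 • g 0 y) := by
    have h2 : (2 : ℝ) • (α • y + β • g 0 y) =
        (α • y + β • g 0 y) - sg s0 • g 0 (α • y + β • g 0 y) := by
      rw [hg]
      module
    rw [h2, map_add, map_smul, map_smul, hgg]
    have h3 : (sg s0 * β * sg s0) = β := by
      calc sg s0 * β * sg s0 = (sg s0 * sg s0) * β := by ring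
        _ = β := by rw [hs, one_mul]
    have h4 : (α - sg s0 * β) • (y - sg s0 • g 0 y) =
        α • y - (sg s0 * α) • g 0 y - (sg s0 * β) • y + (sg s0 * β * sg s0) • g 0 y := by
      module
    rw [h4, h3]
    module
  have h5 : α • y + β • g 0 y = ((α - sg s0 * β) / 2) • (y - sg s0 • g 0 y) := by
    have : α • y + β • g 0 y = (1 / 2 : ℝ) • ((2 : ℝ) • (α • y + β • g 0 y)) := by
      rw [smul_smul]
      norm_num
    rw [this, h1, smul_smul]
    congr 1
    ring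
  refine ⟨(α - sg s0 * β) / 2, ?_, h5⟩
  intro e
  rw [e, zero_smul] at h5
  exact ht h5

/-! ### the count for an arbitrary regular polytope -/

/-- what is needed of the action of the automorphism group on the vertices -/
theorem act_data {d : ℕ} {P : Type} [PartialOrder P] {rk : P → ℤ}
    (hP : IsRegularPolytope d rk) (f : P → E d) (C : Flag P) (ρ : Fin d → (P ≃o P))
    (hρ : IsGens rk C ρ) {F0 : P} (hF0 : F0 ∈ C) (hr : rk F0 = 0) :
    ∃ _ : MulAction (P ≃o P) {v : P // rk v = 0},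
      (∀ (γ : P ≃o P) (x : {v : P // rk v = 0}), (γ • x).1 = γ x.1) ∧
      Subgroup.closure (Set.range ρ) = ⊤ ∧ (∀ j, ρ j * ρ j = 1) ∧
      (∀ x : {v : P // rk v = 0}, ∃ γ : P ≃o P, γ • (⟨F0, hr⟩ : {v : P // rk v = 0}) = x) ∧
      (∀ γ : P ≃o P, γ ∈ symGroup rk f ↔
        ∃ T : E d ≃ᵢ E d, ∀ x : {v : P // rk v = 0}, T (f x.1) = f (γ • x).1) := by
  obtain ⟨hF1, -, hF3, hF4, -⟩ := flag d P rk hP
  have hPG := gens d P rk hP C ρ hρ
  let _ := GE1.act hF3
  have hsm : ∀ (γ : P ≃o P) (x : {v : P // rk v = 0}), (γ • x).1 = γ x.1 := fun _ _ => rfl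
  have hex : ∀ j : Fin d, exG ρ j.val = ρ j := fun j => by
    rw [exG, dif_pos j.isLt]
  refine ⟨inferInstance, hsm, ?_, ?_, ?_, ?_⟩
  · have h1 : gpar (exG ρ) Set.univ ≤ Subgroup.closure (Set.range ρ) := by
      rw [gpar, Subgroup.closure_le]
      rintro _ ⟨i, -, rfl⟩
      by_cases h : i < d
      · rw [exG, dif_pos h]
        exact Subgroup.subset_closure ⟨_, rfl⟩
      · rw [exG, dif_neg h]
        exact one_mem _
    rw [hPG.gen] at h1
    exact top_le_iff.1 h1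
  · intro j
    have := hPG.sq j.val
    rwa [hex] at this
  · intro x
    obtain ⟨D, hD⟩ := hF4 {x.1} (by simp)
    obtain ⟨γ, hγ⟩ := hP.regular C D
    refine ⟨γ, Subtype.ext ?_⟩
    rw [hsm]
    apply hF1 D
    · rw [← hγ, ← SetLike.mem_coe, Flag.coe_smul, Set.mem_smul_set]
      exact ⟨F0, hF0, rfl⟩
    · exact hD rfl
    · rw [hF3, hr, x.2]
  · intro γ
    constructor
    · rintro ⟨-, T, hT⟩
      exact ⟨T, fun x => hT x.1 x.2⟩
    · rintro ⟨T, hT⟩
      exact ⟨hF3 γ, T, fun v hv => hT ⟨v, hv⟩⟩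

theorem word_smul {d : ℕ} {P : Type} [PartialOrder P] {rk : P → ℤ}
    [MulAction (P ≃o P) {v : P // rk v = 0}]
    (h : ∀ (γ : P ≃o P) (x : {v : P // rk v = 0}), (γ • x).1 = γ x.1) (ρ : Fin d → (P ≃o P))
    (w : List (Fin d)) (x : {v : P // rk v = 0}) :
    ((w.map ρ).prod • x).1 = (w.map ρ).prod x.1 := h _ _

theorem countI (hCT : S_CTI) {d : ℕ} (hd : 6 ≤ d) {P : Type} [PartialOrder P] {rk : P → ℤ}
    (hP : IsRegularPolytope d rk) (f : P → E d) (C : Flag P) (ρ : Fin d → (P ≃o P))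
    (hρ : IsGens rk C ρ) {F0 : P} (hF0 : F0 ∈ C) (hr : rk F0 = 0) (c y0 t : E d) (s0 : ℤˣ)
    (ε : ℝ) (g : ℕ → (E d ≃ₗᵢ[ℝ] E d)) (A : Type) (M : Datum d A) (hε : ε = 1 ∨ ε = -1)
    (hM : LinModel d ε ⊤ y0 g) (ht : t ≠ 0) (hgt : sg s0 • g 0 t = -t)
    (hl : ∃ l : Fin d, 2 ≤ l.val ∧ l.val + 2 ≤ d ∧ M.π l = 1)
    (hw : ∀ w : List (Fin d), f ((w.map ρ).prod F0) =
      c + wI s0 g t w + M.r ((w.map M.π).prod M.a0) • ((w.map fun j : Fin d => g j).prod y0)) :
    (symGroup rk f).index = M.HI.relIndex (M.CI s0) := by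
  obtain ⟨_, h1, h2, h3, h4, h5⟩ := act_data hP f C ρ hρ hF0 hr
  refine hCT d (P ≃o P) {v : P // rk v = 0} ρ ⟨F0, hr⟩ (fun x => f x.1) c y0 t s0 ε g A M
    (symGroup rk f) hd hε hM ht hgt hl h2 h3 h4 (fun w => ?_) h5
  rw [word_smul h1]
  exact hw w

theorem countR (hCT : S_CTR) {d : ℕ} (hd : 7 ≤ d) {P : Type} [PartialOrder P] {rk : P → ℤ}
    (hP : IsRegularPolytope d rk) (f : P → E d) (C : Flag P) (ρ : Fin d → (P ≃o P))
    (hρ : IsGens rk C ρ) {F0 : P} (hF0 : F0 ∈ C) (hr : rk F0 = 0) (c e0 y0 t : E d) (b : Bool)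
    (s1 : ℤˣ) (g : ℕ → (E d ≃ₗᵢ[ℝ] E d)) (A : Type) (M : Datum d A) (he : ‖e0‖ = 1)
    (hM : LinModel (d - 1) 1 (ℝ ∙ e0)ᗮ y0 g) (hb : b = true → CroM (d - 1) 1 (ℝ ∙ e0)ᗮ y0 g)
    (ht : t ≠ 0) (hsp : t ∈ Submodule.span ℝ {y0})
    (hl : ∃ l : Fin d, 3 ≤ l.val ∧ l.val + 2 ≤ d ∧ M.π l = 1)
    (hw : ∀ w : List (Fin d), f ((w.map ρ).prod F0) =
      c + wR b s1 g y0 t w + M.r ((w.map M.π).prod M.a0) • e0) :
    (symGroup rk f).index = M.HR.relIndex M.C := by
  obtain ⟨_, h1, h2, h3, h4, h5⟩ := act_data hP f C ρ hρ hF0 hr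
  refine hCT d (P ≃o P) {v : P // rk v = 0} ρ ⟨F0, hr⟩ (fun x => f x.1) c e0 y0 t b s1 g A M
    (symGroup rk f) hd he hM hb ht hsp hl h2 h3 h4 (fun w => ?_) h5
  rw [word_smul h1]
  exact hw w

theorem countF (hCT : StmtQCT) {d : ℕ} (hd : 1 ≤ d) {P : Type} [PartialOrder P] {rk : P → ℤ}
    (hP : IsRegularPolytope d rk) (f : P → E d) (C : Flag P) (ρ : Fin d → (P ≃o P))
    (hρ : IsGens rk C ρ) {F0 : P} (hF0 : F0 ∈ C) (hr : rk F0 = 0) (c y0 : E d)
    (g : Fin d → (E d ≃ₗᵢ[ℝ] E d)) (A : Type) [Finite A] (M : Mix d A) (hR : Rich y0 g M)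
    (hg : ∀ j, g j * g j = 1)
    (hw : ∀ w : List (Fin d), f ((w.map ρ).prod F0) =
      c + M.r ((w.map M.π).prod M.a0) • ((w.map g).prod y0)) :
    (symGroup rk f).index * Nat.card M.HC = Nat.card M.C := by
  obtain ⟨_, h1, h2, h3, h4, h5⟩ := act_data hP f C ρ hρ hF0 hr
  refine hCT d hd (P ≃o P) {v : P // rk v = 0} ρ ⟨F0, hr⟩ (fun x => f x.1) c y0 g A M
    (symGroup rk f) hR h2 h3 hg h4 (fun w => ?_) h5
  rw [word_smul h1]
  exact hw w

end

end FOI
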