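import Pool.Agent.FOI.Defs

/-!
# The three kinds of k-orbit realizations of finite and infinite regular polytopes

* `KindF`: the realizations of finite polytopes: a model and a datum;
* `KindI`: infinite polytopes, an affine model in `E d`;
* `KindR`: infinite polytopes, an affine model in a hyperplane.
-/

namespace FOI

open Lib_helper64.FO FO2
open scoped RealInnerProductSpace

noncomputable section

/-- A word acts on `x`: its letters act from the right to the left. -/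
def wa {m : ℕ} {α : Type} (φ : Fin m → α → α) (w : List (Fin m)) (x : α) : α := w.foldr φ x

/-- the map `h` about the point `z`: `v ↦ z + h (v - z)` -/
def abt {d : ℕ} (z : E d) (h : E d → E d) (v : E d) : E d := z + h (v - z)

/-- the permutations `q` with `r ∘ q = r` or `r ∘ q = - r` -/
def Datum.HF {d : ℕ} {A : Type} (M : Datum d A) : Subgroup (Equiv.Perm A) where
  carrier := {q | ∃ s : ℝ, (s = 1 ∨ s = -1) ∧ ∀ a, M.r (q a) = s * M.r a}
  mul_mem' := by
    rintro p q ⟨s, hs, h1⟩ ⟨s', hs', h2⟩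
    refine ⟨s * s', ?_, fun a => ?_⟩
    · rcases hs with rfl | rfl <;> rcases hs' with rfl | rfl <;> norm_num
    · rw [Equiv.Perm.mul_apply, h1, h2]
      ring
  one_mem' := ⟨1, Or.inl rfl, fun a => by simp⟩
  inv_mem' := by
    rintro q ⟨s, hs, h1⟩
    refine ⟨s, hs, fun a => ?_⟩
    have h3 := h1 (q⁻¹ a)
    rw [show q (q⁻¹ a) = a from q.apply_symm_apply a] at h3
    rcases hs with rfl | rfl
    · linarith
    · linarith

/-- The realizations of finite polytopes: for every word `w` in `0, …, d - 1` the vertex `ρ_w F0`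
goes to `c + r (π_w a0) g_w y`. -/
def KindF {d : ℕ} {P : Type} [PartialOrder P] (k : ℕ) (rk : P → ℤ) (f : P → E d) (C : Flag P)
    (ρ : Fin d → (P ≃o P)) : Prop :=
  ∃ F0 ∈ C, rk F0 = 0 ∧ ∃ (c y : E d) (g : ℕ → (E d ≃ₗᵢ[ℝ] E d)) (A : Type) (M : Datum d A),
    Finite A ∧ (∀ j : Fin d, 48 * (k + 1) ^ 5 + 3 ≤ j.val → M.π j = 1) ∧
    LinModel d 1 ⊤ y g ∧ (∀ a, M.r a ≠ 0) ∧ M.HF.relIndex M.C = k ∧
    ∀ w : List (Fin d), f (wa (fun j => ρ j) w F0) =
      c + M.r (wa (fun j => M.π j) w M.a0) • wa (fun j => g j) w y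

/-- the affine maps of the first affine kind: `β j = s j g j`, about the point `z` for `j = 0` -/
def bI {d : ℕ} (s0 : ℤˣ) (g : ℕ → (E d ≃ₗᵢ[ℝ] E d)) (z : E d) (j : Fin d) : E d → E d :=
  if j.val = 0 then abt z fun v => sg s0 • g 0 v else fun v => sg (sgI s0 j) • g j v

/-- The first kind of realizations of infinite polytopes: for every word `w` the vertex `ρ_w F0` goes
to `c + β_w(0) + r (π_w a0) g_w y`; `β j = s j g j`, about the point `l y` with `l ≠ 0` for
`j = 0`. -/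
def KindI {d : ℕ} {P : Type} [PartialOrder P] (k : ℕ) (rk : P → ℤ) (f : P → E d) (C : Flag P)
    (ρ : Fin d → (P ≃o P)) : Prop :=
  ∃ F0 ∈ C, rk F0 = 0 ∧ ∃ (c y : E d) (l : ℝ) (s0 : ℤˣ) (ε : ℝ) (g : ℕ → (E d ≃ₗᵢ[ℝ] E d))
    (A : Type) (M : Datum d A),
    Finite A ∧ (∀ j : Fin d, 48 * (k + 1) ^ 5 + 3 ≤ j.val → M.π j = 1) ∧
    (ε = 1 ∨ ε = -1) ∧ LinModel d ε ⊤ y g ∧ l ≠ 0 ∧ M.HI.relIndex (M.CI s0) = k ∧
    ∀ w : List (Fin d), f (wa (fun j => ρ j) w F0) =
      c + wa (bI s0 g (l • y)) w 0 + M.r (wa (fun j => M.π j) w M.a0) • wa (fun j => g j) w y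

/-- the affine maps of the second affine kind: `β j = s j g (j - 1)`, `s 1 = s1`, `s j = 1` for
`j ≥ 2`, and `β 0` is the point reflection in `z`, or the reflection with root `y` about `z` -/
def bR {d : ℕ} (b : Bool) (s1 : ℤˣ) (g : ℕ → (E d ≃ₗᵢ[ℝ] E d)) (y z : E d) (j : Fin d) :
    E d → E d :=
  if j.val = 0 then abt z (if b then sref y else fun v => -v)
  else fun v => (if j.val = 1 then sg s1 else 1) • g (j - 1 : ℕ) v

/-- The second kind of realizations of infinite polytopes: for every word `w` the vertex `ρ_w F0` goes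
to `c + β_w(0) + r (π_w a0) e0`; the model is in the orthogonal complement of the unit vector
`e0`. -/
def KindR {d : ℕ} {P : Type} [PartialOrder P] (k : ℕ) (rk : P → ℤ) (f : P → E d) (C : Flag P)
    (ρ : Fin d → (P ≃o P)) : Prop :=
  ∃ F0 ∈ C, rk F0 = 0 ∧ ∃ (c e0 y : E d) (l : ℝ) (b : Bool) (s1 : ℤˣ)
    (g : ℕ → (E d ≃ₗᵢ[ℝ] E d)) (A : Type) (M : Datum d A),
    (∀ j : Fin d, 48 * (k + 1) ^ 5 + 3 ≤ j.val → M.π j = 1) ∧
    ‖e0‖ = 1 ∧ LinModel (d - 1) 1 (ℝ ∙ e0)ᗮ y g ∧ (b = true → CroM (d - 1) 1 (ℝ ∙ e0)ᗮ y g) ∧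
    l ≠ 0 ∧ M.HR.relIndex M.C = k ∧
    ∀ w : List (Fin d), f (wa (fun j => ρ j) w F0) =
      c + wa (bR b s1 g y (l • y)) w 0 + M.r (wa (fun j => M.π j) w M.a0) • e0

/-- All `k`-orbit realizations of regular `d`-polytopes, finite or infinite, for `k ≥ 2` and
`d ≥ 100 (k + 1) ^ 5`; and the numbers `k` that occur. -/
def AllStatement : Prop :=
  ∀ k d : ℕ, 2 ≤ k → 100 * (k + 1) ^ 5 ≤ d →
    (∀ (P : Type) [PartialOrder P] (rk : P → ℤ), IsRegularPolytope d rk →
      ∀ (f : P → E d) (C : Flag P) (ρ : Fin d → (P ≃o P)), FOK.IsGens rk C ρ →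
        (Discr rk f ∧ IsOrbitRealization rk f k ↔
          Discr rk f ∧ Faithful rk f ∧
            (KindF k rk f C ρ ∨ KindI k rk f C ρ ∨ KindR k rk f C ρ))) ∧
    ((∃ (P : Type) (_ : PartialOrder P) (_ : Finite P) (rk : P → ℤ) (f : P → E d),
      IsRegularPolytope d rk ∧ Discr rk f ∧ IsOrbitRealization rk f k) ↔ Even k) ∧
    (∃ (P : Type) (_ : PartialOrder P) (_ : Infinite P) (rk : P → ℤ) (f : P → E d),
      IsRegularPolytope d rk ∧ Discr rk f ∧ IsOrbitRealization rk f k)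

end

end FOI
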