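import Pool.Agent.FOI.UBridge

/-!
# The unified statement: the finite kind
-/

namespace FOI

open Lib_helper64.FO FO2 FOK
open scoped RealInnerProductSpace

noncomputable section

/-- generators with indices in `ℕ` -/
def toN {d D : ℕ} (g : Fin d → (E D ≃ₗᵢ[ℝ] E D)) (j : ℕ) : E D ≃ₗᵢ[ℝ] E D :=
  if h : j < d then g ⟨j, h⟩ else 1

theorem toN_val {d D : ℕ} (g : Fin d → (E D ≃ₗᵢ[ℝ] E D)) (j : Fin d) : toN g j.val = g j := by
  rw [toN, dif_pos j.isLt]

theorem finrank_top_E (d : ℕ) : Module.finrank ℝ (⊤ : Submodule ℝ (E d)) = d := by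
  rw [finrank_top, finrank_euclideanSpace, Fintype.card_fin]

/-! ### from the models of `FOK` to `LinModel` and back -/

theorem lin_of_sim {d : ℕ} {y0 : E d} {g : Fin d → (E d ≃ₗᵢ[ℝ] E d)} (h : SimplexModel y0 g) :
    LinModel d 1 ⊤ y0 (toN g) := by
  obtain ⟨v, hv, hy, hg⟩ := h
  refine ⟨finrank_top_E d, Or.inl ⟨v, fun _ => trivial, hv, hy, fun j i => ?_⟩⟩
  rw [toN_val, hg]

theorem lin_of_cub {d : ℕ} {y0 : E d} {g : Fin d → (E d ≃ₗᵢ[ℝ] E d)} (h : CubeModel y0 g) :
    LinModel d 1 ⊤ y0 (toN g) := by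
  obtain ⟨u, hy, hg⟩ := h
  refine ⟨finrank_top_E d, Or.inr (Or.inl ⟨u, fun _ => trivial, u.orthonormal, hy,
    fun j i => ?_⟩)⟩
  rw [toN_val, hg]

theorem lin_of_cro {d : ℕ} {y0 : E d} {g : Fin d → (E d ≃ₗᵢ[ℝ] E d)} (h : CrossModel y0 g) :
    LinModel d 1 ⊤ y0 (toN g) := by
  obtain ⟨u, hy, hg⟩ := h
  refine ⟨finrank_top_E d, Or.inr (Or.inr ⟨u, fun _ => trivial, u.orthonormal, hy,
    fun j i => ?_⟩)⟩
  rw [toN_val, hg]
  by_cases h : j.val + 1 < d
  · rw [dif_pos h, dif_pos h]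
    by_cases h' : j.val = 1 ∧ 3 ≤ i.val
    · rw [if_pos h', one_smul, Equiv.swap_apply_of_ne_of_ne]
      · intro e
        have := congrArg Fin.val e
        omega
      · intro e
        have := congrArg Fin.val e
        simp only at this
        omega
    · rw [if_neg h']
  · rw [dif_neg h, dif_neg h]

theorem mod_of_lin {d : ℕ} {y0 : E d} {g : ℕ → (E d ≃ₗᵢ[ℝ] E d)} (h : LinModel d 1 ⊤ y0 g) :
    SimplexModel y0 (fun j : Fin d => g j) ∨ CrossModel y0 (fun j : Fin d => g j) ∨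
      CubeModel y0 (fun j : Fin d => g j) := by
  obtain ⟨-, h | h | h⟩ := h
  · obtain ⟨v, -, hv, hy, hg⟩ := h
    exact Or.inl ⟨v, hv, hy, fun j i => hg j i⟩
  · obtain ⟨u, -, hu, hy, hg⟩ := h
    refine Or.inr (Or.inr ?_)
    have hs : ⊤ ≤ Submodule.span ℝ (Set.range u) := by
      rw [hu.linearIndependent.span_eq_top_of_card_eq_finrank' (by
        rw [finrank_euclideanSpace])]
    refine ⟨OrthonormalBasis.mk hu hs, ?_, fun j i => ?_⟩
    · rw [hy]
      simp
    · simp only [OrthonormalBasis.coe_mk]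
      exact hg j i
  · obtain ⟨u, -, hu, hy, hg⟩ := h
    refine Or.inr (Or.inl ?_)
    have hs : ⊤ ≤ Submodule.span ℝ (Set.range u) := by
      rw [hu.linearIndependent.span_eq_top_of_card_eq_finrank' (by
        rw [finrank_euclideanSpace])]
    refine ⟨OrthonormalBasis.mk hu hs, fun h => ?_, fun j i => ?_⟩
    · rw [hy h]
      simp
    · simp only [OrthonormalBasis.coe_mk]
      rw [hg j i]
      by_cases h : j.val + 1 < d
      · rw [dif_pos h, dif_pos h]
        by_cases h' : j.val = 1 ∧ 3 ≤ i.val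
        · rw [if_pos h', one_smul, Equiv.swap_apply_of_ne_of_ne]
          · intro e
            have := congrArg Fin.val e
            omega
          · intro e
            have := congrArg Fin.val e
            simp only at this
            omega
        · rw [if_neg h']
      · rw [dif_neg h, dif_neg h]

/-! ### the datum -/

/-- the datum of a mixing datum -/
def toDatum {d : ℕ} {A : Type} (M : Mix d A) : Datum d A :=
  { π := M.π, a0 := M.a0, r := M.r, sq := M.sq, comm := M.comm, fix := M.fix, trans := M.trans }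

/-- the mixing datum of a datum with nonzero values -/
def toMix {d : ℕ} {A : Type} (M : Datum d A) (h : ∀ a, M.r a ≠ 0) : Mix d A :=
  { π := M.π, a0 := M.a0, r := M.r, sq := M.sq, comm := M.comm, fix := M.fix, trans := M.trans,
    ne := h }

theorem mem_HF {d : ℕ} {A : Type} (M : Datum d A) (q : Equiv.Perm A) :
    q ∈ M.HF ↔ (∀ a, M.r (q a) = M.r a) ∨ ∀ a, M.r (q a) = - M.r a := by
  constructor
  · rintro ⟨s, hs | hs, h⟩
    · left
      intro a
      rw [h, hs, one_mul]
    · right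
      intro a
      rw [h, hs, neg_one_mul]
  · rintro (h | h)
    · exact ⟨1, Or.inl rfl, fun a => by rw [h, one_mul]⟩
    · exact ⟨-1, Or.inr rfl, fun a => by rw [h, neg_one_mul]⟩

theorem card_eq {d : ℕ} {A : Type} [Finite A] (M : Datum d A) (h : ∀ a, M.r a ≠ 0) :
    M.HF.relIndex M.C * Nat.card (toMix M h).HC = Nat.card (toMix M h).C := by
  have h1 := Subgroup.index_mul_card (M.HF.subgroupOf M.C)
  have h2 : Nat.card (M.HF.subgroupOf M.C) = Nat.card (toMix M h).HC := by
    refine Nat.card_congr ?_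
    refine { toFun := fun q => ⟨q.1.1, q.1.2, (mem_HF M _).1 q.2⟩
             invFun := fun q => ⟨⟨q.1, q.2.1⟩, (mem_HF M _).2 q.2.2⟩
             left_inv := fun _ => rfl
             right_inv := fun _ => rfl }
  rw [h2] at h1
  exact h1

/-! ### the finite kind -/

theorem kindF_of_mixed {d k : ℕ} {P : Type} [PartialOrder P] {rk : P → ℤ} {f : P → E d}
    {C : Flag P} {ρ : Fin d → (P ≃o P)} (h : Mixed k rk f C ρ) :
    KindF k rk f C ρ := by
  obtain ⟨F0, hF0, hr, c, y0, g, A, M, hA, hπ, hk, -, hM, hw⟩ := h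
  have hmod : LinModel d 1 ⊤ y0 (toN g) := by
    rcases hM with h | h | h
    · exact lin_of_sim h.1
    · exact lin_of_cro h.1
    · exact lin_of_cub h.1
  refine ⟨F0, hF0, hr, c, y0, toN g, A, toDatum M, hA, fun j hj => hπ j ?_, hmod, M.ne, ?_,
    fun w => ?_⟩
  · have h1 : k ^ 5 ≤ (k + 1) ^ 5 := Nat.pow_le_pow_left (Nat.le_succ k) 5
    omega
  · have h1 := card_eq (toDatum M) M.ne
    have h2 : Nat.card (toMix (toDatum M) M.ne).C = k * Nat.card (toMix (toDatum M) M.ne).HC := by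
      exact hk.symm
    rw [h2] at h1
    exact Nat.eq_of_mul_eq_mul_right (QAS.card_HC_pos _) h1
  · rw [wa_rho, wa_g, wa_pi, hw]
    have h1 : (w.map fun j : Fin d => toN g j) = w.map g :=
      List.map_congr_left fun j _ => toN_val g j
    rw [h1]
    rfl

theorem index_of_kindF {d k : ℕ} (hk : 1 ≤ k) (hd : 100 * (k + 1) ^ 5 ≤ d) {P : Type}
    [PartialOrder P] {rk : P → ℤ} (hP : IsRegularPolytope d rk) {f : P → E d} {C : Flag P}
    {ρ : Fin d → (P ≃o P)} (hρ : IsGens rk C ρ) (hRS : StmtQRS) (hRX : StmtQRX) (hRC : StmtQRC)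
    (hCT : StmtQCT) (h : KindF k rk f C ρ) : (symGroup rk f).index = k := by
  obtain ⟨F0, hF0, hr, c, y, g, A, M, hA, hπ, hmod, hne, hidx, hw⟩ := h
  have hk5 : 1 ≤ (k + 1) ^ 5 := Nat.one_le_pow _ _ (by omega)
  have hl : ∃ l : Fin d, 1 ≤ l.val ∧ l.val + 2 ≤ d ∧ M.π l = 1 :=
    ⟨⟨48 * (k + 1) ^ 5 + 3, by omega⟩, by show 1 ≤ 48 * (k + 1) ^ 5 + 3; omega,
      by show 48 * (k + 1) ^ 5 + 3 + 2 ≤ d; omega, hπ _ le_rfl⟩
  have hrich : Rich y (fun j : Fin d => g j) (toMix M hne) := by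
    rcases mod_of_lin hmod with h | h | h
    · exact hRS d (by omega) _ _ A _ h hl
    · exact hRX d (by omega) _ _ A _ h hl
    · exact hRC d (by omega) _ _ A _ h hl
  have hsq : ∀ j : Fin d, g j * g j = 1 := by
    rcases mod_of_lin hmod with h | h | h
    · exact QAS.sq_simplex h
    · exact QAS.sq_cross h
    · exact QAS.sq_cube h
  have h1 := countF hCT (by omega) hP f C ρ hρ hF0 hr c y (fun j : Fin d => g j) A (toMix M hne)
    hrich hsq (fun w => by
      have := hw w
      rw [wa_rho, wa_g, wa_pi] at this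
      exact this)
  rw [← card_eq M hne, hidx] at h1
  exact Nat.eq_of_mul_eq_mul_right (QAS.card_HC_pos _) h1

end

end FOI
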