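import Pool.Agent.FOI.CStmts

/-!
# Module WRR: the formula for the vertices in the case (red) (sections III.7, III.8)
-/

namespace FOI

open Lib_helper64.FO FO2 FOK
open scoped RealInnerProductSpace Nat

noncomputable section

namespace WRR

variable {d k : ℕ} {Γ : Type} [Group Γ] {X : Type} [MulAction Γ X] (G : AGeo d k Γ X)

/-- the isometries of the model, `s = true` for a change of sign of the first one -/
def gR (RI : Γ → (E d ≃ₗᵢ[ℝ] E d)) (s : Bool) (j : ℕ) : E d ≃ₗᵢ[ℝ] E d :=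
  if s = true ∧ j = 0 then (RI (G.ρ 1)).trans (LinearIsometryEquiv.neg ℝ) else RI (G.ρ (j + 1))

def sR (s : Bool) : ℤˣ := if s = true then -1 else 1

theorem gR_eq (RI : Γ → (E d ≃ₗᵢ[ℝ] E d)) (s : Bool) (j : ℕ) (hj : 1 ≤ j) (v : E d) :
    RI (G.ρ j) v = (if j = 1 then sg (sR s) else 1) • gR G RI s (j - 1) v := by
  by_cases h1 : j = 1
  · subst h1
    cases s <;> simp [gR, sR, sg]
  · have h0 : j - 1 ≠ 0 := by omega
    have e : j - 1 + 1 = j := by omega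
    simp [gR, h1, h0, e]

theorem gR_ι {n : ℕ} (RI : Γ → (E d ≃ₗᵢ[ℝ] E d)) (ι : E n →ₗᵢ[ℝ] E d)
    (gg gm : ℕ → (E n ≃ₗᵢ[ℝ] E n)) (hgg : ∀ j z, ι (gg j z) = RI (G.ρ (j + 1)) (ι z))
    (h : SgEq gg gm) : ∃ s : Bool, ∀ j z, ι (gm j z) = gR G RI s j (ι z) := by
  obtain ⟨h1, h0⟩ := h
  have hj : ∀ s : Bool, ∀ j, 1 ≤ j → ∀ z, ι (gm j z) = gR G RI s j (ι z) := by
    intro s j hj z
    have h0 : j ≠ 0 := by omega
    rw [h1 j hj, hgg]
    simp [gR, h0]
  rcases h0 with h0 | h0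
  · refine ⟨false, fun j z => ?_⟩
    rcases Nat.eq_zero_or_pos j with rfl | hp
    · rw [h0 z, hgg]
      simp [gR]
    · exact hj false j hp z
  · refine ⟨true, fun j z => ?_⟩
    rcases Nat.eq_zero_or_pos j with rfl | hp
    · rw [h0 z, map_neg, hgg]
      simp [gR]
    · exact hj true j hp z

theorem ql {l : ℕ} (hMIR : S_MIR) (hA : ATop G l) (e0 : E d) (hRE : RedE G l e0) (γ δ : Γ)
    (j : ℕ) (hj : l - 2 ≤ j) :
    ⟪G.f ((γ * G.ρ j * δ) • G.x0), e0⟫ = ⟪G.f ((γ * δ) • G.x0), e0⟫ := by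
  have hl := hA.l5
  have hup : G.ρ j ∈ G.up (l - 2) := G.ρ_mem_up hj
  have hN : G.ρ j ∈ G.N := hA.up (G.up_anti (by omega) hup)
  obtain ⟨n, hn, w, hw, rfl⟩ := (hMIR d k Γ X G l hA).1 γ
  have hc : w * G.ρ j = G.ρ j * w := G.comm_dn_up (by omega) hw hup
  have hm : n * G.ρ j * n⁻¹ ∈ G.N := G.conj_mem_N n hN
  have hT : G.T (n * G.ρ j * n⁻¹) e0 = e0 := by
    have e1 : G.T (n * G.ρ j * n⁻¹) = G.R 1 (n * G.ρ j * n⁻¹) := by
      rw [AGeo.R, one_mul, inv_one, mul_one]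
    rw [e1, G.R_mul_apply 1 (mul_mem hn hN) (inv_mem hn), G.R_mul_apply 1 hn hN]
    rcases hRE.N n⁻¹ (inv_mem hn) with h | h
    · have h2 := G.R_inv_apply 1 hn e0
      rw [h] at h2
      rw [h, hRE.up _ hup, h2]
    · have h2 := G.R_inv_apply 1 hn e0
      rw [h, map_neg] at h2
      rw [h, map_neg, map_neg, hRE.up _ hup, h2]
  have h1 := G.equiv (n * G.ρ j * n⁻¹) (G.N_le hm) ((n * w * δ) • G.x0) ((n * w) • G.x0)
  have e2 : (n * G.ρ j * n⁻¹) • (n * w * δ) • G.x0 = (n * w * G.ρ j * δ) • G.x0 := by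
    rw [← mul_smul]
    congr 1
    have : n * w * G.ρ j * δ = n * (w * G.ρ j) * δ := by group
    rw [this, hc]
    group
  have e3 : (n * G.ρ j * n⁻¹) • (n * w) • G.x0 = (n * w) • G.x0 := by
    have h3 : G.ρ j • G.x0 = G.x0 := G.stab j (by omega)
    have : n * G.ρ j * n⁻¹ * (n * w) = n * w * G.ρ j := by
      have : n * w * G.ρ j = n * (w * G.ρ j) := by group
      rw [this, hc]
      group
    rw [← mul_smul, this, mul_smul, h3]
  rw [e2, e3] at h1
  have h4 : ⟪G.f ((n * w * δ) • G.x0) - G.f ((n * w) • G.x0), e0⟫ =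
      ⟪G.f ((n * w * G.ρ j * δ) • G.x0) - G.f ((n * w) • G.x0), e0⟫ := by
    rw [← h1]
    conv_rhs => rw [← hT]
    rw [LinearIsometryEquiv.inner_map_map]
  rw [inner_sub_left, inner_sub_left] at h4
  linarith

theorem main {l : ℕ} (hMIR : S_MIR) (hA : ATop G l) (e0 : E d) (hRE : RedE G l e0)
    (hRV : RedV G l) (RI : Γ → (E d ≃ₗᵢ[ℝ] E d)) (hE : IsExt G l RI) (b : Γ → E d)
    (hB : RedB G l RI b) (n : ℕ) (hn : n + 1 = d) (y0 : E d) (hy0 : y0 ≠ 0) (hyS : y0 ∈ Sp G 0 l)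
    (hyV : y0 ∈ G.V 1 2) (s : Bool) (b' : Bool)
    (hb' : ∀ v ∈ Sp G 0 l, RI (G.ρ 0) v = if b' then sref y0 v else -v)
    (hmod : SimM n (ℝ ∙ e0)ᗮ y0 (gR G RI s) ∨ CubM n (ℝ ∙ e0)ᗮ y0 (gR G RI s) ∨
      CroM n 1 (ℝ ∙ e0)ᗮ y0 (gR G RI s))
    (hcro : b' = true → CroM n 1 (ℝ ∙ e0)ᗮ y0 (gR G RI s)) :
    ∃ c y0 t b' s1 g q, WR G l c e0 y0 t b' s1 g q := by
  have hd := hA.ld
  have hn' : d - 1 = n := by omega
  have hfin : Module.finrank ℝ (ℝ ∙ e0)ᗮ = n := by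
    have he0 : e0 ≠ 0 := by
      intro h
      have := hRE.norm
      rw [h, norm_zero] at this
      exact zero_ne_one this
    have h1 := Submodule.finrank_add_finrank_orthogonal (ℝ ∙ e0)
    rw [finrank_span_singleton he0, finrank_euclideanSpace_fin] at h1
    omega
  have hb1 : b 1 = 0 := hB.up 1 (one_mem _)
  have hbj : ∀ j, 1 ≤ j → b (G.ρ j) = 0 := fun j hj => hB.up _ (G.ρ_mem_up hj)
  have hb : ∀ w : List (Fin d), b ((w.map fun j : Fin d => G.ρ j).prod) =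
      wR b' (sR s) (gR G RI s) y0 (b (G.ρ 0)) w := by
    intro w
    induction w with
    | nil => simpa [wR] using hb1
    | cons j w ih =>
      rw [List.map_cons, List.prod_cons, hB.mul, wR, ← ih]
      by_cases hj : j.val = 0
      · rw [if_pos hj, hj, hb' _ (hB.mem _), add_comm]
      · rw [if_neg hj, hbj _ (by omega), zero_add, gR_eq G RI s j.val (by omega)]
  have hpI : ∀ v : E d, v = pI G l v + ⟪v, e0⟫ • e0 := by
    intro v
    have h1 : pI G l v = v - (ℝ ∙ e0).starProjection v := by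
      have h2 : (Sp G 0 l).starProjection v = ((ℝ ∙ e0)ᗮ).starProjection v := by
        rw [hRE.I]
      rw [pI, h2, Submodule.starProjection_orthogonal_val]
    have h3 : (ℝ ∙ e0).starProjection v = ⟪e0, v⟫ • e0 :=
      Submodule.starProjection_unit_singleton ℝ hRE.norm v
    rw [h1, h3, real_inner_comm]
    abel
  have htsp : b (G.ρ 0) ∈ Submodule.span ℝ {y0} := by
    have h1 := hRV.dimV 2 (by omega) (by omega)
    have h2 : Submodule.span ℝ {y0} = G.V 1 2 ⊓ Sp G 0 l := by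
      apply Submodule.eq_of_le_of_finrank_eq
      · rw [Submodule.span_le]
        rintro x rfl
        exact ⟨hyV, hyS⟩
      · rw [finrank_span_singleton hy0]
        omega
    rw [h2]
    exact ⟨hB.V, hB.mem _⟩
  refine ⟨pI G l (G.f G.x0), y0, b (G.ρ 0), b', sR s, gR G RI s,
    fun γ => ⟪G.f (γ • G.x0), e0⟫, ?_⟩
  exact
    { norm := hRE.norm
      mod := by
        rw [hn']
        exact ⟨hfin, hmod⟩
      cro := by
        rw [hn']
        exact hcro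
      tne := hB.ne
      tsp := htsp
      qj := by
        intro γ j hj
        change ⟪G.f ((γ * G.ρ j) • G.x0), e0⟫ = ⟪G.f (γ • G.x0), e0⟫
        rw [mul_smul, G.stab j hj]
      ql := by
        intro γ δ j hj
        exact ql G hMIR hA e0 hRE γ δ j hj
      f := by
        intro w
        rw [← hb, ← hB.f]
        exact hpI _ }

theorem ref_of {l : ℕ} (RI : Γ → (E d ≃ₗᵢ[ℝ] E d)) (t y0 : E d) (ht : RI (G.ρ 0) t = -t)
    (δ : ℝ) (h : ∀ v ∈ Sp G 0 l, ⟪t, v⟫ = 0 → RI (G.ρ 0) v = δ • v) (a : ℝ) (ha : a • y0 = t)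
    (ht0 : t ≠ 0) (hy : y0 ∈ Sp G 0 l) (v : E d) (hv : v ∈ Sp G 0 l) :
    RI (G.ρ 0) v = δ • v - ((1 + δ) * (⟪y0, v⟫ / ⟪y0, y0⟫)) • y0 := by
  have ha0 : a ≠ 0 := by
    intro h
    rw [h, zero_smul] at ha
    exact ht0 ha.symm
  have hy0 : y0 ≠ 0 := by
    intro h
    rw [h, smul_zero] at ha
    exact ht0 ha.symm
  have hyy : ⟪y0, y0⟫ ≠ 0 := inner_self_ne_zero.2 hy0
  have hRy : RI (G.ρ 0) y0 = -y0 := by
    rw [← ha, map_smul, ← smul_neg] at ht
    exact smul_right_injective _ ha0 ht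
  have h1 : v - (⟪y0, v⟫ / ⟪y0, y0⟫) • y0 ∈ Sp G 0 l :=
    Submodule.sub_mem _ hv (Submodule.smul_mem _ _ hy)
  have h2 : ⟪t, v - (⟪y0, v⟫ / ⟪y0, y0⟫) • y0⟫ = 0 := by
    rw [← ha, inner_smul_left, inner_sub_right, inner_smul_right, div_mul_cancel₀ _ hyy, sub_self,
      mul_zero]
  have h3 := h _ h1 h2
  rw [map_sub, map_smul, hRy] at h3
  have h4 : RI (G.ρ 0) v = δ • (v - (⟪y0, v⟫ / ⟪y0, y0⟫) • y0) +
      (⟪y0, v⟫ / ⟪y0, y0⟫) • (-y0) := by
    rw [← h3]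
    abel
  rw [h4]
  module

end WRR

open WRR in
theorem t_WRR : M_WRR := by
  intro hMIR _ hNOS d k Γ _ X _ _ G l hA e0 hRE hRV RI hE b hB hG n hn ι hι gg hgg hC
  have hd := hA.ld
  have hn5 : 5 ≤ n := by omega
  obtain ⟨gm, hSg, hc⟩ := hC
  obtain ⟨s, hs⟩ := gR_ι G RI ι gg gm hgg hSg
  obtain ⟨δ, hδ, hδ'⟩ := hG.ρ0
  have hιS : ∀ z, ι z ∈ (ℝ ∙ e0)ᗮ := by
    intro z
    rw [← hRE.I]
    exact (hι _).2 ⟨z, rfl⟩
  have hinj : Function.Injective ι := ι.injective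
  -- the vector `t` is a multiple of `y0`
  have hty : ∀ y0 : E d, y0 ≠ 0 → y0 ∈ Sp G 0 l → y0 ∈ G.V 1 2 → ∃ a : ℝ, a • y0 = b (G.ρ 0) := by
    intro y0 hy0 hyS hyV
    have h1 := hRV.dimV 2 (by omega) (by omega)
    have h2 : Submodule.span ℝ {y0} = G.V 1 2 ⊓ Sp G 0 l := by
      apply Submodule.eq_of_le_of_finrank_eq
      · rw [Submodule.span_le]
        rintro x rfl
        exact ⟨hyV, hyS⟩
      · rw [finrank_span_singleton hy0]
        omega
    have h3 : b (G.ρ 0) ∈ Submodule.span ℝ {y0} := by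
      rw [h2]
      exact ⟨hB.V, hB.mem _⟩
    exact Submodule.mem_span_singleton.1 h3
  have hR : ∀ y0 : E d, y0 ≠ 0 → y0 ∈ Sp G 0 l → y0 ∈ G.V 1 2 → ∀ v ∈ Sp G 0 l,
      RI (G.ρ 0) v = δ • v - ((1 + δ) * (⟪y0, v⟫ / ⟪y0, y0⟫)) • y0 := by
    intro y0 hy0 hyS hyV v hv
    obtain ⟨a, ha⟩ := hty y0 hy0 hyS hyV
    exact ref_of G RI _ y0 hB.ρ0 δ hδ' a ha hB.ne hyS v hv
  rcases hc with ⟨v, hv, hv0, hact⟩ | ⟨u, hu, hu0, hact⟩ | ⟨u, ε, hu, hu0, -, hε, hact⟩
  · -- simplex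
    have hvn : ⟪v 0, v 0⟫ = 1 := by rw [hv.1 0 0, if_pos rfl]
    have hyn : ⟪ι (v 0), ι (v 0)⟫ = 1 := by rw [LinearIsometry.inner_map_map, hvn]
    have hy0 : ι (v 0) ≠ 0 := by
      intro h
      rw [h, inner_zero_left] at hyn
      exact zero_ne_one hyn
    have hyS : ι (v 0) ∈ Sp G 0 l := (hι _).2 ⟨_, rfl⟩
    have hyV : ι (v 0) ∈ G.V 1 2 := hv0
    have hR1 := hR _ hy0 hyS hyV
    have hδ1 : δ = -1 := by
      rcases hδ with rfl | h
      · exfalso
        obtain ⟨a, ha, ha'⟩ := (hNOS n _ hn5).1 v hv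
        apply ha'
        change ι (sref (v 0) a) ∈ Ph G 1 0 l
        have h1 := hR1 (ι a) ((hι _).2 ⟨a, rfl⟩)
        have h2 : ι (sref (v 0) a) = RI (G.ρ 0) (ι a) := by
          rw [h1, hyn, sref, map_sub, map_smul, LinearIsometry.inner_map_map]
          module
        rw [h2]
        exact hE.root _ _ ha
      · exact h
    refine main G hMIR hA e0 hRE hRV RI hE b hB n hn (ι (v 0)) hy0 hyS hyV s false ?_
      (Or.inl ⟨fun i => ι (v i), fun _ => hιS _, ?_, rfl, ?_⟩) (by simp)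
    · intro w hw
      rw [hR1 w hw, hδ1]
      simp
    · intro i j
      rw [LinearIsometry.inner_map_map]
      exact hv.1 i j
    · intro j i
      rw [← hs, hact]
  · -- cube
    have hunn : ⟪∑ i, u i, ∑ i, u i⟫ = (n : ℝ) := by
      have h3 : ∀ i j, ⟪u i, u j⟫ = if i = j then (1 : ℝ) else 0 :=
        fun i j => orthonormal_iff_ite.1 u.orthonormal _ _
      simp only [sum_inner, inner_sum, h3]
      simp
    have hyn : ⟪ι (∑ i, u i), ι (∑ i, u i)⟫ = (n : ℝ) := by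
      rw [LinearIsometry.inner_map_map, hunn]
    have hn0 : (n : ℝ) ≠ 0 := by
      have : n ≠ 0 := by omega
      exact_mod_cast this
    have hy0 : ι (∑ i, u i) ≠ 0 := by
      intro h
      rw [h, inner_zero_left] at hyn
      exact hn0 hyn.symm
    have hyS : ι (∑ i, u i) ∈ Sp G 0 l := (hι _).2 ⟨_, rfl⟩
    have hyV : ι (∑ i, u i) ∈ G.V 1 2 := hu0
    have hR1 := hR _ hy0 hyS hyV
    have hδ1 : δ = -1 := by
      rcases hδ with rfl | h
      · exfalso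
        obtain ⟨a, ha, ha'⟩ := (hNOS n _ hn5).2 u hu
        apply ha'
        change ι (a - (2 * ⟪∑ i, u i, a⟫ / n) • ∑ i, u i) ∈ Ph G 1 0 l
        have h1 := hR1 (ι a) ((hι _).2 ⟨a, rfl⟩)
        have h2 : ι (a - (2 * ⟪∑ i, u i, a⟫ / n) • ∑ i, u i) = RI (G.ρ 0) (ι a) := by
          rw [h1, hyn, map_sub, map_smul, LinearIsometry.inner_map_map, one_smul]
          congr 2
          ring
        rw [h2]
        exact hE.root _ _ ha
      · exact h
    refine main G hMIR hA e0 hRE hRV RI hE b hB n hn (ι (∑ i, u i)) hy0 hyS hyV s false ?_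
      (Or.inr (Or.inl ⟨fun i => ι (u i), fun _ => hιS _, ?_, map_sum ι _ _, ?_⟩)) (by simp)
    · intro w hw
      rw [hR1 w hw, hδ1]
      simp
    · exact u.orthonormal.comp_linearIsometry ι
    · intro j i
      rw [← hs, hact]
      by_cases h1 : j.val = 0
      · by_cases h2 : i = j
        · simp only [h1, h2, if_true]
          rw [map_neg]
        · simp [h1, h2]
      · simp [h1]
  · -- cross-polytope
    have hn0 : 0 < n := by omega
    have hε1 := hε rfl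
    subst hε1
    have hyn : ⟪ι (u ⟨0, hn0⟩), ι (u ⟨0, hn0⟩)⟫ = (1 : ℝ) := by
      rw [LinearIsometry.inner_map_map, real_inner_self_eq_norm_sq, u.orthonormal.1]
      norm_num
    have hy0 : ι (u ⟨0, hn0⟩) ≠ 0 := by
      intro h
      rw [h, inner_zero_left] at hyn
      exact zero_ne_one hyn
    have hyS : ι (u ⟨0, hn0⟩) ∈ Sp G 0 l := (hι _).2 ⟨_, rfl⟩
    have hyV : ι (u ⟨0, hn0⟩) ∈ G.V 1 2 := hu0 hn0
    have hR1 := hR _ hy0 hyS hyV
    have hcro : CroM n 1 (ℝ ∙ e0)ᗮ (ι (u ⟨0, hn0⟩)) (gR G RI s) := by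
      refine ⟨fun i => ι (u i), fun _ => hιS _, u.orthonormal.comp_linearIsometry ι,
        fun _ => rfl, fun j i => ?_⟩
      rw [← hs, hact]
      by_cases h1 : j.val + 1 < n
      · rw [dif_pos h1, dif_pos h1]
        by_cases h2 : j.val = 1 ∧ 3 ≤ i.val
        · rw [if_pos h2, if_pos h2, map_smul]
        · rw [if_neg h2, if_neg h2]
      · rw [dif_neg h1, dif_neg h1]
        by_cases h2 : i = j
        · rw [if_pos h2, if_pos h2, map_neg]
        · rw [if_neg h2, if_neg h2]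
    rcases hδ with rfl | rfl
    · refine main G hMIR hA e0 hRE hRV RI hE b hB n hn (ι (u ⟨0, hn0⟩)) hy0 hyS hyV s true ?_
        (Or.inr (Or.inr hcro)) fun _ => hcro
      intro w hw
      rw [hR1 w hw, hyn, sref, if_pos rfl]
      module
    · refine main G hMIR hA e0 hRE hRV RI hE b hB n hn (ι (u ⟨0, hn0⟩)) hy0 hyS hyV s false ?_
        (Or.inr (Or.inr hcro)) (by simp)
      intro w hw
      rw [hR1 w hw]
      simp

end

end FOI
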