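import Pool.Agent.FOI.EStmts
import Pool.Agent.FOK.QEG

/-!
# FOI, XG: the coset poset, its base flag, its generators and its vertex map, without finiteness
-/

namespace FOI

open Lib_helper64.FO FO2 FOK
open scoped RealInnerProductSpace

noncomputable section

namespace XG

open FO2.COA FOK.QEG

variable {d : ℕ} {Y : Type} {S : SGen d Y}

theorem fix_of_mem {y0 : Y} (h0 : ∀ j : Fin d, j.val ≠ 0 → S.σ j y0 = y0) {i : Fin d}
    (hi : i.val = 0) {h : Equiv.Perm Y} (hh : h ∈ S.par {j | j ≠ i}) : h y0 = y0 := by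
  refine Subgroup.closure_induction (p := fun h _ => h y0 = y0) ?_ rfl ?_ ?_ hh
  · rintro _ ⟨j, hj, rfl⟩
    refine h0 j fun e => hj (Fin.ext ?_)
    rw [e, hi]
  · intro a b _ _ ha hb
    rw [Equiv.Perm.mul_apply, hb, ha]
  · intro a _ ha
    rw [Equiv.Perm.inv_eq_iff_eq, ha]

theorem vm_eq {y0 : Y} {F : Y → E d} (h0 : ∀ j : Fin d, j.val ≠ 0 → S.σ j y0 = y0) {K : CFace S}
    (hK : K.rank.val = 0) {g : Equiv.Perm Y} (hg : g ∈ K.coset) :
    vm S y0 F (fc K) = F (g y0) := by
  have h1 : Classical.choose (coset_nonempty K) ∈ K.coset :=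
    Classical.choose_spec (coset_nonempty K)
  have h2 : vm S y0 F (fc K) = F ((Classical.choose (coset_nonempty K)) y0) := rfl
  rw [h2]
  generalize Classical.choose (coset_nonempty K) = q at h1
  rw [K.coset_eq hg] at h1
  obtain ⟨h, hh, e⟩ := h1
  rw [e, Equiv.Perm.mul_apply, fix_of_mem h0 hK hh]

theorem word {y0 : Y} {F : Y → E d} (h0 : ∀ j : Fin d, j.val ≠ 0 → S.σ j y0 = y0) (hd : 0 < d)
    (w : List (Fin d)) :
    vm S y0 F ((w.map (gen S)).prod (fc (cos S ⟨0, hd⟩ 1 (one_mem _)))) =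
      F ((w.map S.σ).prod y0) := by
  have key : ∃ hw : (w.map S.σ).prod ∈ S.par Set.univ,
      (w.map (gen S)).prod (fc (cos S ⟨0, hd⟩ 1 (one_mem _))) =
        fc (cos S ⟨0, hd⟩ (w.map S.σ).prod hw) := by
    induction w with
    | nil => exact ⟨one_mem _, rfl⟩
    | cons j w ih =>
      obtain ⟨hw, e⟩ := ih
      refine ⟨mul_mem (σ_mem S j) hw, ?_⟩
      rw [List.map_cons, List.prod_cons]
      change gen S j ((w.map (gen S)).prod (fc (cos S ⟨0, hd⟩ 1 (one_mem _)))) = _
      rw [e, gen_cos]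
      rfl
  obtain ⟨hw, e⟩ := key
  rw [e]
  exact vm_eq h0 rfl (mem_cos S _ _ hw)

end XG

open XG FO2.COA FOK.QEG in
theorem t_XG : S_XG := by
  intro d Y S y0 F hd hS hF
  have h0 := hF.stab'
  refine ⟨vm S y0 F, base S, gen S, fc (cos S ⟨0, hd⟩ 1 (one_mem _)), ?_, ?_,
    fc_mem_base.2 (mem_cos S _ 1 (one_mem _)), rfl, word h0 hd, ?_⟩
  · refine ⟨0, OrderIso.refl _, fun _ => rfl, ?_⟩
    intro v K hv hvK g hg
    have hv' : v = fc K := hvK
    subst hv'
    have hK : K.rank.val = 0 := by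
      have : ((K.rank.val : ℕ) : ℤ) = 0 := hv
      exact_mod_cast this
    rw [zero_add]
    exact XG.vm_eq h0 hK hg
  · intro j
    constructor
    · intro h
      have h1 : fc (cos S j 1 (one_mem _)) ∈ base S := fc_mem_base.2 (mem_cos S _ 1 (one_mem _))
      have h2 : gen S j (fc (cos S j 1 (one_mem _))) ∈ (gen S j • base S : Flag (CPos S)) := by
        change gen S j (fc (cos S j 1 (one_mem _))) ∈
          ((gen S j • base S : Flag (CPos S)) : Set (CPos S))
        rw [Flag.coe_smul]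
        exact ⟨_, h1, rfl⟩
      rw [h, gen_cos, fc_mem_base] at h2
      obtain ⟨b, hb, e⟩ := h2
      rw [mul_one] at e
      have h3 : S.σ j = b⁻¹ := eq_inv_of_mul_eq_one_left e.symm
      have h4 : S.σ j ∈ S.par {i | i ≠ j} := by
        rw [h3]
        exact inv_mem hb
      have h5 : S.σ j ∈ S.par {i | i = j} := Subgroup.subset_closure ⟨j, rfl, rfl⟩
      have h6 : S.σ j ∈ S.par ({i | i ≠ j} ∩ {i | i = j}) := by
        rw [← hS.inter]
        exact ⟨h4, h5⟩
      have e7 : ({i | i ≠ j} ∩ {i | i = j} : Set (Fin d)) = ∅ := by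
        ext i
        simp
      rw [e7, SGen.par, Set.image_empty, Subgroup.closure_empty, Subgroup.mem_bot] at h6
      exact hS.ne_one j h6
    · intro x hx hr
      rcases mem_base.1 hx with rfl | rfl | ⟨K, hK, rfl⟩
      · exact lmulC_bot _ _
      · exact lmulC_top _ _
      · rw [gen, lmulC_coe]
        congr 1
        refine CFace.ext' rfl ?_
        have hne : j ≠ K.rank := by
          intro h
          apply hr
          change ((K.rank.val : ℕ) : ℤ) = _
          rw [h]
        have hσ : S.σ j ∈ S.par {i | i ≠ K.rank} := Subgroup.subset_closure ⟨j, hne, rfl⟩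
        ext p
        rw [mem_lmul, K.coset_eq hK]
        simp only [one_mul]
        constructor
        · rintro ⟨b, hb, e⟩
          refine ⟨S.σ j * b, mul_mem hσ hb, ?_⟩
          rw [← e]
          group
        · rintro ⟨b, hb, rfl⟩
          exact ⟨(S.σ j)⁻¹ * p, mul_mem (inv_mem hσ) hb, by group⟩
  · intro x hx
    rcases cases3 x with rfl | rfl | ⟨K, rfl⟩
    · exact absurd hx (by change ¬ (-1 : ℤ) = 0; omega)
    · exact absurd hx (by change ¬ (d : ℤ) = 0; omega)
    · have hK : K.rank.val = 0 := by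
        have : ((K.rank.val : ℕ) : ℤ) = 0 := hx
        exact_mod_cast this
      obtain ⟨g, hg⟩ := coset_nonempty K
      exact ⟨g, coset_sub K hg, XG.vm_eq h0 hK hg⟩

end

end FOI
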