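import Pool.Agent.FOI.XStmts
import Pool.Agent.FOK.QSI

/-!
# XAS: existence in the infinite case, assembly
-/

namespace FOI

open Lib_helper64.FO FO2 FOK
open scoped RealInnerProductSpace

namespace XAS

theorem discr_of {d : ℕ} {P : Type} [PartialOrder P] {rk : P → ℤ} {f : P → E d} {s : Set (E d)}
    (hs : DiscreteTopology s) (h : ∀ v, rk v = 0 → f v ∈ s) : Discr rk f := by
  refine DiscreteTopology.of_subset hs ?_
  rintro _ ⟨v, hv, rfl⟩
  exact h v hv

/-- The coercion of lists in the statements. -/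
theorem map_coe {d : ℕ} {α : Type} (g : ℕ → α) (w : List (Fin d)) :
    List.map (fun j : ℕ => g j) (do let a ← w; pure (a : ℕ)) = w.map (fun j : Fin d => g j) := by
  induction w with
  | nil => rfl
  | cons a w ih =>
    rw [List.map_cons, ← ih]
    rfl

end XAS

theorem t_XAS : M_XAS := by
  intro hCB hQF hQG hST hFA hDI hIN hDA hFO hMain k d hk hd
  have h1 : 1 ≤ (k + 1) ^ 5 := Nat.one_le_pow _ _ (by omega)
  have hd4 : 4 ≤ d := by omega
  obtain ⟨v, hv, g, hg⟩ := FOK.t_QSI d (by omega)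
  let Z : Smp d := ⟨v, g, hv, hg⟩
  obtain ⟨M, ha0, hπ, hri, hrs, hidx⟩ := hDA d k (by omega) hk
  have hS := hST d k Z hd4
  have hF := hFA d k Z M.r hd4 hri hrs
  have hP := hCB d _ (S9 Z k) (by omega) hS
  obtain ⟨f, C, ρ, F0, hMa, hgen, hF0, hr0, hw, hval⟩ :=
    hQG d _ (S9 Z k) (b9 d k) (F9 Z M.r) (by omega) hS hF
  have hFai := hQF d _ (S9 Z k) (b9 d k) (F9 Z M.r) (by omega) hS hF _ rkC hP f hMa
  have hInf : Infinite (CPos (S9 Z k)) := hIN d k Z hd4
  have hDis : Discr rkC f := by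
    refine XAS.discr_of (hDI d k Z M.r hd4 (by omega)) ?_
    intro w hw0
    obtain ⟨q, hq, e⟩ := hval w hw0
    exact ⟨q, hq, e.symm⟩
  obtain ⟨f1, f2, f3, f4, f5⟩ := hFO d k Z M hd4 ha0 hπ
  have : NeZero k := ⟨by omega⟩
  have hMix : MixedI k rkC f C ρ := by
    refine ⟨F0, hF0, hr0, 0, Z.v 0, Z.v 0 + Z.v 1, -1, 1, gN Z, ZMod k, M, inferInstance, ?_,
      Or.inl rfl, f1, f2, f3, f4, hidx, ?_⟩
    · intro j hj
      ext1 a
      rw [hπ, if_neg (by omega), if_neg (by omega)]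
      rfl
    · intro w
      rw [hw, f5, XAS.map_coe]
  exact ⟨CPos (S9 Z k), inferInstance, hInf, rkC, f, hP, hDis,
    ((hMain k d hk hd _ rkC hP f C ρ hgen).2 ⟨hDis, hFai, Or.inl hMix⟩).2⟩

end FOI
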