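import Pool.Agent.FOI.XStmts
import Pool.Agent.FO2.INT

/-!
# XST: the intersection property of the example (PAPER13, X.2)
-/

namespace FOI

open Lib_helper64.FO FO2 FOK
open scoped RealInnerProductSpace

noncomputable section

namespace XST

theorem par_congr {d : ℕ} {X : Type} (S : SGen d X) {I J : Set (Fin d)} (h : I = J) :
    S.par I = S.par J := by rw [h]

theorem par_empty {d : ℕ} {X : Type} (S : SGen d X) : S.par ∅ = ⊥ := by
  unfold SGen.par
  rw [Set.image_empty, Subgroup.closure_empty]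

/-- the elements of the group of two involutions -/
theorem dih {G : Type*} [Group G] {a b : G} (ha : a * a = 1) (hb : b * b = 1) {g : G}
    (hg : g ∈ Subgroup.closure ({a, b} : Set G)) :
    ∃ n : ℤ, g = (a * b) ^ n ∨ g = (a * b) ^ n * b := by
  have ha' : a⁻¹ = a := by rw [inv_eq_iff_mul_eq_one, ha]
  have hb' : b⁻¹ = b := by rw [inv_eq_iff_mul_eq_one, hb]
  have hstep : ∀ x : G, (∃ n : ℤ, x = (a * b) ^ n ∨ x = (a * b) ^ n * b) →
      ∀ y ∈ ({a, b} : Set G), ∃ n : ℤ, x * y = (a * b) ^ n ∨ x * y = (a * b) ^ n * b := by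
    rintro x ⟨n, rfl | rfl⟩ y (rfl | rfl)
    · refine ⟨n + 1, Or.inr ?_⟩
      rw [zpow_add_one, mul_assoc, mul_assoc, hb, mul_one]
    · exact ⟨n, Or.inr rfl⟩
    · refine ⟨n - 1, Or.inl ?_⟩
      rw [zpow_sub_one, mul_inv_rev, ha', hb', mul_assoc]
    · refine ⟨n, Or.inl ?_⟩
      rw [mul_assoc, hb, mul_one]
  refine Subgroup.closure_induction_right (p := fun x _ => ∃ n : ℤ, x = (a * b) ^ n ∨
    x = (a * b) ^ n * b) ⟨0, Or.inl (zpow_zero _).symm⟩ ?_ ?_ hg
  · intro x _ y hy h
    exact hstep x h y hy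
  · intro x _ y hy h
    have hy' : y⁻¹ = y := by
      rcases hy with rfl | rfl
      · exact ha'
      · exact hb'
    rw [hy']
    exact hstep x h y hy

variable {d k : ℕ}

/-- the function `p` of X.2 -/
theorem shift {Y : Type*} (p : Y → ℝ) (c : ℝ) (h : Equiv.Perm Y) (hp : ∀ y, p (h y) = p y + c)
    (n : ℤ) (y : Y) : p ((h ^ n) y) = p y + n * c := by
  have hnat : ∀ (m : ℕ) (y : Y), p ((h ^ m) y) = p y + m * c := by
    intro m
    induction m with
    | zero => intro y; simp
    | succ m ih =>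
      intro y
      rw [pow_succ, Equiv.Perm.mul_apply, ih, hp]
      push_cast
      ring
  obtain ⟨m, rfl | rfl⟩ := n.eq_nat_or_neg
  · rw [zpow_natCast, hnat]
    simp
  · rw [zpow_neg, zpow_natCast]
    have h1 := hnat m ((h ^ m)⁻¹ y)
    rw [← Equiv.Perm.mul_apply, mul_inv_cancel, Equiv.Perm.one_apply] at h1
    push_cast
    linarith

/-- the case `n = 0`, `m ≤ 2` -/
theorem small (hd : 4 ≤ d) (Z : Smp d) (g : Equiv.Perm (E d × Fin (d + 1) × ZMod k))
    (h1 : g ∈ (S9 Z k).par {j | 0 ≤ j.val ∧ j.val < 2}) (h2 : g (b9 d k) = b9 d k) :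
    g = 1 ∨ g = (S9 Z k).σ ⟨1, by omega⟩ := by
  set j0 : Fin d := ⟨0, by omega⟩ with hj0
  set j1 : Fin d := ⟨1, by omega⟩ with hj1
  set u : E d := Z.v j0.castSucc + Z.v j0.succ + Z.v j1.succ with hu
  have c01 : j0.castSucc ≠ j0.succ := by
    intro h; have := congrArg Fin.val h; simp at this
  have c02 : j0.castSucc ≠ j1.succ := by
    intro h; have := congrArg Fin.val h; simp [hj0, hj1] at this
  have c12 : j0.succ ≠ j1.succ := by
    intro h; have := congrArg Fin.val h; simp [hj0, hj1] at this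
  have c1 : j1.castSucc = j0.succ := by apply Fin.ext; simp [hj0, hj1]
  have hg0 : Z.g j0 u = u := by
    rw [hu, map_add, map_add, Z.act, Z.act, Z.act, Equiv.swap_apply_left, Equiv.swap_apply_right,
      Equiv.swap_apply_of_ne_of_ne c02.symm c12.symm, add_comm (Z.v j0.succ)]
  have hg1 : Z.g j1 u = u := by
    rw [hu, map_add, map_add, Z.act, Z.act, Z.act, c1, Equiv.swap_apply_left,
      Equiv.swap_apply_right, Equiv.swap_apply_of_ne_of_ne c01 c02, add_right_comm]
  have hq : ⟪Z.v j0.castSucc + Z.v j0.succ, u⟫ = 2 * (1 - 2 / (d : ℝ)) := by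
    simp only [hu, inner_add_left, inner_add_right, Z.gram _ _]
    simp only [c01, c02, c12, c01.symm, if_true, if_false]
    ring
  have hpos : 0 < 2 * (1 - 2 / (d : ℝ)) := by
    have hd' : (4 : ℝ) ≤ d := by exact_mod_cast hd
    have : 2 / (d : ℝ) < 1 := by
      rw [div_lt_one (by linarith)]
      linarith
    linarith
  set p : E d × Fin (d + 1) × ZMod k → ℝ := fun y => ⟪y.1, u⟫ with hp
  have hp1 : ∀ y, p ((S9 Z k).σ j1 y) = - p y := by
    intro y
    change ⟪sg (sgI (-1) 1) • Z.g j1 y.1 + t9 Z j1, u⟫ = - ⟪y.1, u⟫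
    have e1 : sg (sgI (-1) 1) = -1 := by simp [sgI, sg]
    have e2 : t9 Z j1 = 0 := by simp [t9, hj1]
    rw [e1, e2, add_zero, inner_smul_left]
    conv_lhs => rw [← hg1]
    rw [LinearIsometryEquiv.inner_map_map]
    simp
  have hp0 : ∀ y, p ((S9 Z k).σ j0 y) = - p y + 2 * (1 - 2 / (d : ℝ)) := by
    intro y
    change ⟪sg (sgI (-1) 0) • Z.g j0 y.1 + t9 Z j0, u⟫ = - ⟪y.1, u⟫ + _
    have e1 : sg (sgI (-1) 0) = -1 := by simp [sgI, sg]
    have e2 : t9 Z j0 = Z.v j0.castSucc + Z.v j0.succ := by simp [t9, hj0]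
    have e3 : ⟪Z.g j0 y.1, u⟫ = ⟪y.1, u⟫ := by
      conv_lhs => rw [← hg0]
      rw [LinearIsometryEquiv.inner_map_map]
    rw [e1, e2, inner_add_left, hq, inner_smul_left, e3]
    simp
  have h1' : g ∈ Subgroup.closure ({(S9 Z k).σ j0, (S9 Z k).σ j1} : Set _) := by
    refine Subgroup.closure_mono ?_ h1
    rintro _ ⟨j, hj, rfl⟩
    have hj2 : j.val < 2 := hj.2
    rcases (show j.val = 0 ∨ j.val = 1 by omega) with h | h
    · left
      have : j = j0 := Fin.ext h
      rw [this]
    · right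
      have : j = j1 := Fin.ext h
      rw [this]
      exact rfl
  have hs : ∀ y, p (((S9 Z k).σ j0 * (S9 Z k).σ j1) y) = p y + 2 * (1 - 2 / (d : ℝ)) := by
    intro y
    rw [Equiv.Perm.mul_apply, hp0, hp1, neg_neg]
  have hb0 : p (b9 d k) = 0 := by
    change ⟪(0 : E d), u⟫ = 0
    rw [inner_zero_left]
  obtain ⟨n, rfl | rfl⟩ := dih ((S9 Z k).sq j0) ((S9 Z k).sq j1) h1'
  · left
    have h3 := shift p _ _ hs n (b9 d k)
    rw [h2, hb0, zero_add] at h3
    have h4 : (n : ℝ) = 0 := by
      rcases mul_eq_zero.1 h3.symm with h | h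
      · exact h
      · exact absurd h hpos.ne'
    have h5 : n = 0 := by exact_mod_cast h4
    rw [h5, zpow_zero]
  · right
    have h3 := shift p _ _ hs n ((S9 Z k).σ j1 (b9 d k))
    rw [Equiv.Perm.mul_apply] at h2
    rw [h2, hp1, hb0, neg_zero, zero_add] at h3
    have h4 : (n : ℝ) = 0 := by
      rcases mul_eq_zero.1 h3.symm with h | h
      · exact h
      · exact absurd h hpos.ne'
    have h5 : n = 0 := by exact_mod_cast h4
    rw [h5, zpow_zero, one_mul]

theorem stabCond (hd : 4 ≤ d) (Z : Smp d) (N : NFs Z k) (n m : ℕ) (hm : m ≤ d)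
    (g : Equiv.Perm (E d × Fin (d + 1) × ZMod k))
    (h1 : g ∈ (S9 Z k).par {j | n ≤ j.val ∧ j.val < m})
    (h2 : g ∈ (S9 Z k).par {j | n + 1 ≤ j.val}) :
    g ∈ (S9 Z k).par {j | n + 1 ≤ j.val ∧ j.val < m} := by
  rcases Nat.lt_or_ge n m with hnm | hnm
  · have h2' : g ∈ (S9 Z k).par {j | n + 1 ≤ j.val ∧ j.val < d} := by
      rw [par_congr (S9 Z k) (J := {j | n + 1 ≤ j.val})]
      · exact h2
      · ext j; simp
    obtain ⟨s, τ, L, b, c, hNF, hτ, -, -⟩ := N.fwd n m g h1
    obtain ⟨s', τ', L', b', c', hNF', hτ', hbc', hs'⟩ := N.fwd (n + 1) d g h2'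
    obtain ⟨rfl, rfl⟩ := hbc' (by omega)
    have hττ : ∀ t, τ t = τ' t := by
      intro t
      have e1 := hNF.act 0 t 0
      have e2 := hNF'.act 0 t 0
      rw [e1] at e2
      exact congrArg (fun z => z.2.1) e2
    have hfix : ∀ t : Fin (d + 1), t.val < n + 1 ∨ m < t.val → τ' t = t := by
      intro t ht
      rcases ht with ht | ht
      · exact hτ' t (Or.inl ht)
      · rw [← hττ]; exact hτ t (Or.inr ht)
    rcases Nat.eq_zero_or_pos n with h0 | h0
    · subst h0
      rcases Nat.lt_or_ge m 3 with h3 | h3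
      · have h4 : g ∈ (S9 Z k).par {j | 0 ≤ j.val ∧ j.val < 2} := by
          refine Subgroup.closure_mono (Set.image_mono ?_) h1
          intro j hj
          exact ⟨hj.1, lt_of_lt_of_le hj.2 (by omega)⟩
        have h5 : g (b9 d k) = b9 d k := by
          have e2 := hNF'.act 0 0 0
          have h6 : τ' 0 = 0 := hfix 0 (Or.inl (by simp))
          rw [h6, map_zero, smul_zero, mul_zero, add_zero, add_zero] at e2
          exact e2
        rcases small hd Z g h4 h5 with h | h
        · rw [h]; exact one_mem _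
        · rcases (show m = 1 ∨ m = 2 by omega) with h6 | h6
          · exfalso
            subst h6
            set j1 : Fin d := ⟨1, by omega⟩ with hj1
            have e1 := hNF'.act 0 j1.succ 0
            have h7 : τ' j1.succ = j1.succ := hfix _ (Or.inr (by simp [hj1]))
            rw [h7, h] at e1
            have e3 : Equiv.swap j1.castSucc j1.succ j1.succ = j1.succ :=
              congrArg (fun z => z.2.1) e1
            rw [Equiv.swap_apply_right] at e3
            have := congrArg Fin.val e3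
            simp at this
          · subst h6
            rw [h]
            exact Subgroup.subset_closure ⟨_, ⟨by simp, by simp⟩, rfl⟩
      · exact N.bwd1 m g s' τ' L' h3 hm hNF' hfix
    · have := hs' (by omega)
      subst this
      exact N.bwd2 (n + 1) m g τ' L' (by omega) hm hNF' hfix
  · have : ({j | n ≤ j.val ∧ j.val < m} : Set (Fin d)) = ∅ := by
      ext j; simp; omega
    rw [par_congr _ this, par_empty, Subgroup.mem_bot] at h1
    rw [h1]
    exact one_mem _

theorem interAll (hd : 4 ≤ d) (Z : Smp d) (N : NFs Z k) (n : ℕ) : ∀ t, t + n = d →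
    ∀ I J : Set (Fin d), I ⊆ {j | t ≤ j.val} → J ⊆ {j | t ≤ j.val} →
      (S9 Z k).par I ⊓ (S9 Z k).par J = (S9 Z k).par (I ∩ J) := by
  induction n with
  | zero =>
    intro t hk I J hI' hJ'
    have h1 : I = ∅ := by
      rw [Set.eq_empty_iff_forall_notMem]
      intro j hj
      have : t ≤ j.val := hI' hj
      omega
    rw [h1, Set.empty_inter, par_empty, bot_inf_eq]
  | succ n ih =>
    intro t hk
    exact FO2.int d _ (S9 Z k) t (fun I J => ih (t + 1) (by omega) I J)
      (fun m hm g h1 h2 => stabCond hd Z N t m hm g h1 h2)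

end XST

theorem t_XST : M_XST := by
  intro hN d k Z hd
  constructor
  · intro i h
    have h1 := congrArg (fun g => (g ((0 : E d), i.castSucc, (0 : ZMod k))).2.1) h
    have h2 : Equiv.swap i.castSucc i.succ i.castSucc = i.castSucc := h1
    rw [Equiv.swap_apply_left] at h2
    have := congrArg Fin.val h2
    simp at this
  · intro I J
    exact XST.interAll hd Z (hN d k Z hd) d 0 (by omega) I J (fun j _ => Nat.zero_le _)
      (fun j _ => Nat.zero_le _)

end

end FOI
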